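import Pool.Agent.MMCI.Defs

/-!
# MP_fa3f7f_ag: complete intersections with terminal singularities in a torus
-/

namespace MMCI

open MldGeo

noncomputable section

variable {e n r : ℕ} {K : Type} [Field K] [Algebra ℂ K]

/-- The ring of regular functions of the closure `Z` of the point `x` in the torus. -/
def coordRing (x : Fin n → K) : Subalgebra ℂ K :=
  Algebra.adjoin ℂ (Set.range fun m : Fin n → ℤ => mon x m)

/-- `K` is the function field of a connected component `Z` of the scheme `f_1 = … = f_r = 0` in the
torus `(ℂ^*)^n`, `n = r + e`, and `x` is the generic point of `Z`. The scheme `Z` is integral of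
dimension `e > 0` with terminal singularities (for instance smooth), and the system `f` is
nondegenerate at infinity. -/
structure IsTCI (e : ℕ) (f : Fin r → Laurent n) (x : Fin n → K) : Prop where
  dim_eq : n = r + e
  pos : 0 < e
  f_ne : ∀ i, f i ≠ 0
  ne : ∀ j, x j ≠ 0
  gen : IntermediateField.adjoin ℂ (Set.range x) = ⊤
  dim : Algebra.trdeg ℂ K = (e : Cardinal)
  zero : ∀ i, ev x (f i) = 0
  /-- near every point `p` of `Z` the ideal of `Z` is generated by the `f_i` -/
  ideal : ∀ p : Fin n → ℂ, (∀ j, p j ≠ 0) → (∀ h : Laurent n, ev x h = 0 → ev p h = 0) →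
    ∀ g : Laurent n, ev x g = 0 → ∃ h : Laurent n, ev p h ≠ 0 ∧ h * g ∈ Ideal.span (Set.range f)
  terminal : IsTerminal e (coordRing x)
  nondeg : ∀ ν : Fin n → ℤ, ν ≠ 0 → Nondegenerate f ν

end

end MMCI
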