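import Pool.Agent.MMCI.Defs
import Pool.Agent.MMCI.DefsX
import Pool.Agent.MldX.Bridge2
import Pool.Agent.MMCI.Defs2

/-!
# Comparison of the two sets of definitions
-/

namespace MMCX

open MldX MMCI

noncomputable section

section Affine

variable {e : ℕ} {K : Type} [Field K] [Algebra ℂ K]

theorem coe_zero_iff {R : Subalgebra ℂ K} (a : R) : (a : K) = 0 ↔ a = 0 :=
  ⟨fun h => Subtype.ext h, fun h => congrArg Subtype.val h⟩

theorem hasCentre_iff {R : Subalgebra ℂ K} {v : DivVal e K} {P : Ideal R} :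
    MMCI.HasCentre R v.old P ↔ HasCentre R v P := by
  unfold MMCI.HasCentre HasCentre
  constructor
  · rintro ⟨h1, h2, h3⟩
    exact ⟨h1, h2, fun a => by rw [coe_zero_iff]; exact h3 a⟩
  · rintro ⟨h1, h2, h3⟩
    refine ⟨h1, h2, fun a => ?_⟩
    have h4 := h3 a
    rw [coe_zero_iff] at h4
    exact h4

theorem isPrimeDivisor_iff {R : Subalgebra ℂ K} {v : DivVal e K} {P : Ideal R} :
    MMCI.IsPrimeDivisor R v.old P ↔ IsPrimeDivisor R v P := by
  unfold MMCI.IsPrimeDivisor IsPrimeDivisor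
  rw [← hasCentre_iff]
  unfold MMCI.HasCentre
  tauto

/-- A form of the other kind. -/
theorem exists_form {ω : Forms e K} (h : IsForm ω) : ∃ ω' : MldGeo.Forms e K, ω' ≠ 0 ∧
    MldX.ev ω' = ω := by
  obtain ⟨h0, g, a, h⟩ := h
  refine ⟨g • MldGeo.dforms a, ?_, by rw [ev_dform, h]⟩
  intro h1
  apply h0
  rw [h, ← ev_dform, h1, map_zero]

variable (hd : Algebra.trdeg ℂ K = (e : Cardinal))
include hd

theorem isEquation_iff {R : Subalgebra ℂ K} {ω : MldGeo.Forms e K} {k : ℕ} {m : Ideal R} {g : K} :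
    IsEquation R (MldX.ev ω) k m g ↔ MMCI.IsEquation R ω k m g := by
  unfold IsEquation MMCI.IsEquation
  constructor
  · intro h v P hP hm
    have h1 := h (ofOld v) P (isPrimeDivisor_iff.1 hP) hm
    rw [formOrd_eq hd] at h1
    exact h1
  · intro h v P hP hm
    rw [formOrd_eq hd]
    exact h v.old P (isPrimeDivisor_iff.2 hP) hm

theorem isTerminal_of {R : Subalgebra ℂ K} (h : MMCI.IsTerminal e R) : IsTerminal e R := by
  refine ⟨h.1, fun ω hω m hm => ?_⟩
  obtain ⟨ω', h0, rfl⟩ := exists_form hω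
  obtain ⟨k, g, hk, hg, h1, h2⟩ := h.2 ω' h0 m hm
  refine ⟨k, g, hk, hg, (isEquation_iff hd).2 h1, fun v P hP hPm hh => ?_⟩
  rw [formOrd_eq hd]
  exact h2 v.old P (hasCentre_iff.2 hP) hPm hh

theorem terminal_of {Y : ProjModel K} (h : Y.Terminal e) : Terminal e Y :=
  fun i => isTerminal_of hd (h i)

theorem semiample_of {Y : ProjModel K} (h : Y.Semiample e) : Semiample e Y := by
  intro ω hω
  obtain ⟨ω', h0, rfl⟩ := exists_form hω
  obtain ⟨k, N, s, hk, hs, h1, h2⟩ := h ω' h0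
  refine ⟨k, N, s, hk, hs, fun l i v P hP => ?_, fun i m hm => ?_⟩
  · rw [formOrd_eq hd]
    exact h1 l i v.old P (isPrimeDivisor_iff.2 hP)
  · obtain ⟨l, h3⟩ := h2 i m hm
    refine ⟨l, fun v P hP hPm => ?_⟩
    rw [formOrd_eq hd]
    exact h3 v.old P (isPrimeDivisor_iff.2 hP) hPm

theorem isTerminal_to {R : Subalgebra ℂ K} (h : IsTerminal e R) : MMCI.IsTerminal e R := by
  refine ⟨h.1, fun ω hω m hm => ?_⟩
  have h0 : IsForm (MldX.ev ω) := by
    refine ⟨fun h1 => hω (ev_injective hd (by rw [h1, map_zero])), ?_⟩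
    obtain ⟨g, a, h1⟩ := exists_dforms hd ω
    exact ⟨g, a, by rw [h1, ev_dform]⟩
  obtain ⟨k, g, hk, hg, h1, h2⟩ := h.2 _ h0 m hm
  refine ⟨k, g, hk, hg, (isEquation_iff hd).1 h1, fun v P hP hPm hh => ?_⟩
  have h3 := h2 (ofOld v) P (hasCentre_iff.1 hP) hPm hh
  rw [formOrd_eq hd] at h3
  exact h3

omit hd in
theorem isTCI_to {n r : ℕ} {f : Fin r → Laurent n} {x : Fin n → K} (h : IsTCI e f x) :
    IsNCI e f x ∨ MMCI.IsTCI e f x := by
  rcases h.inner with h1 | ⟨h1, h2⟩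
  · refine Or.inl ⟨h.dim_eq, h.pos, h.f_ne, h.ne, h.gen, h.dim, h.zero, fun ν => ?_⟩
    by_cases hν : ν = 0
    · rw [hν]
      exact h1
    · exact h.nondeg ν hν
  · exact Or.inr ⟨h.dim_eq, h.pos, h.f_ne, h.ne, h.gen, h.dim, h.zero, h1,
      isTerminal_to h.dim h2, h.nondeg⟩

end Affine

section Curve

variable {e : ℕ} {K : Type} [Field K] [Algebra ℂ K] {Y : ProjModel K}

/-- The valuations of the two kinds. -/
def eqv (n : ℕ) (L : Type) [Field L] [Algebra ℂ L] : MldGeo.DivVal n L ≃ DivVal n L where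
  toFun := ofOld
  invFun := DivVal.old
  left_inv _ := rfl
  right_inv _ := rfl

theorem equations_of (hd : Algebra.trdeg ℂ K = (e : Cardinal)) {γ : CurveMap Y}
    {ω : MldGeo.Forms e K} {k : ℕ} {h : K} {g : DivVal 1 γ.L → K} {u : DivVal 1 γ.L → γ.L}
    (H : Equations γ (MldX.ev ω) k h g u) :
    γ.Equations ω k h (fun w => g (ofOld w)) fun w => u (ofOld w) where
  h_ne := H.h_ne
  u_ne := fun w => H.u_ne _
  restr := fun w => H.restr _
  eqn := fun w => by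
    obtain ⟨i, m, h1, h2⟩ := H.eqn (ofOld w)
    exact ⟨i, m, h1, (isEquation_iff hd).1 h2⟩

theorem finite_of {L : Type} [Field L] [Algebra ℂ L] {u : DivVal 1 L → L}
    (h : {w : MldGeo.DivVal 1 L | w.ord (u (ofOld w)) ≠ 0}.Finite) :
    {w : DivVal 1 L | w.ord (u w) ≠ 0}.Finite := by
  refine (h.image ofOld).subset ?_
  intro w hw
  exact ⟨w.old, hw, rfl⟩

theorem finsum_eq {L : Type} [Field L] [Algebra ℂ L] (u : DivVal 1 L → L) :
    ∑ᶠ w : DivVal 1 L, w.ord (u w) = ∑ᶠ w : MldGeo.DivVal 1 L, w.ord (u (ofOld w)) :=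
  (finsum_comp_equiv (eqv 1 L) (f := fun w : DivVal 1 L => w.ord (u w))).symm

theorem nef_of (hd : Algebra.trdeg ℂ K = (e : Cardinal)) (h : Y.Nef e) : Nef e Y := by
  intro ω hω γ k a g u hk H
  obtain ⟨ω', h0, rfl⟩ := exists_form hω
  obtain ⟨h1, h2⟩ := h ω' h0 γ k a _ _ hk (equations_of hd H)
  exact ⟨finite_of h1, by rw [finsum_eq]; exact h2⟩

theorem moriFibre_of (hd : Algebra.trdeg ℂ K = (e : Cardinal)) (h : Y.MoriFibre e) :
    MoriFibre e Y := by
  obtain ⟨M, t, h1, h2, h3, h4⟩ := h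
  refine ⟨M, t, h1, h2, h3, ?_⟩
  intro ω hω γ hγ k a g u hk H
  obtain ⟨ω', h0, rfl⟩ := exists_form hω
  obtain ⟨h5, h6⟩ := h4 ω' h0 γ hγ k a _ _ hk (equations_of hd H)
  exact ⟨finite_of h5, by rw [finsum_eq]; exact h6⟩

end Curve

end

end MMCX
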