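import Pool.Agent.MMCI.StC
import Pool.Agent.MldGeo.FRA
import Pool.Agent.MldGeo.TBAS
import Pool.Agent.MldGeo.LOGD
import Pool.Agent.MldGeo.COE
import Pool.Agent.MldGeo.FRM
import Pool.Agent.MldGeo.FSM
import Pool.Agent.MldGeo.TXT

/-!
# CHW: rational forms differ by rational functions
-/

set_option autoImplicit false

namespace MMCI

open MldGeo MvPolynomial

noncomputable section

namespace CHW

theorem h_COE : MldGeo.Stmt_COE := MldGeo.t_COE MldGeo.t_FRA (MldGeo.t_LOGD MldGeo.t_FRA)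
  MldGeo.t_TBAS

theorem h_FRM : MldGeo.Stmt_FRM := MldGeo.t_FRM MldGeo.t_FRA MldGeo.t_TBAS h_COE

theorem h_FSM : MldGeo.Stmt_FSM := MldGeo.t_FSM MldGeo.t_FRA h_FRM

theorem h_TXT : MldGeo.Stmt_TXT := MldGeo.t_TXT MldGeo.t_FRA (MldGeo.t_LOGD MldGeo.t_FRA)
  MldGeo.t_TBAS h_FRM

variable {e : ℕ} {K : Type} [Field K] [Algebra ℂ K]

/-- a transcendence basis indexed by `Fin e` -/
theorem exists_basis (htr : Algebra.trdeg ℂ K = (e : Cardinal)) :
    ∃ a : Fin e → K, AlgebraicIndependent ℂ a := by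
  obtain ⟨s, hs⟩ := exists_isTranscendenceBasis ℂ K
  have h1 : Cardinal.mk s = (e : Cardinal) := by
    rw [← htr]
    exact hs.cardinalMk_eq_trdeg
  obtain ⟨f⟩ : Nonempty (Fin e ≃ s) := by
    rw [← Cardinal.eq, h1, Cardinal.mk_fin]
  exact ⟨fun i => (f i : K), hs.1.comp f f.injective⟩

end CHW

theorem t_CHW : Stmt_CHW := by
  intro e K _ _ htr he ω ω' hω hω'
  obtain ⟨a, ha⟩ := CHW.exists_basis htr
  obtain ⟨hli, hsp⟩ := MldGeo.t_TBAS htr a ha
  let b : Module.Basis (Fin e) K (Ω[K⁄ℂ]) := Module.Basis.mk hli hsp.ge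
  obtain ⟨g, hg⟩ := MldGeo.FRM.exists_smul b ω
  obtain ⟨g', hg'⟩ := MldGeo.FRM.exists_smul b ω'
  have hg0 : g ≠ 0 := by
    rintro rfl
    exact hω (by rw [hg, zero_smul])
  have hg0' : g' ≠ 0 := by
    rintro rfl
    exact hω' (by rw [hg', zero_smul])
  have hq : g' / g ≠ 0 := div_ne_zero hg0' hg0
  have hqω : ω' = (g' / g) • ω := by
    rw [hg', hg, smul_smul, div_mul_cancel₀ g' hg0]
  refine ⟨g' / g, hq, hqω, ?_⟩
  intro v
  rw [CHW.h_TXT htr v ω' he hω', CHW.h_TXT htr v ω he hω, hqω,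
    CHW.h_FSM htr v (g' / g) ω he hq hω]
  ring

end

end MMCI
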