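import Pool.Agent.MMCI.StC

/-!
# CMP: comparison of equations of multiples of the canonical divisor along a curve
-/

namespace MMCI

open MldGeo

noncomputable section

namespace CMP

variable {e : ℕ} {K : Type} [Field K] [Algebra ℂ K]

/-- two equations of multiples of the canonical divisor differ by a unit at the point -/
theorem unit_of_eqn (hLCM : Stmt_LCM) (Y : ProjModel K)
    (hdim : Algebra.trdeg ℂ K = (e : Cardinal))
    (hn : ∀ i (a : K), IsIntegral (Y.ring i) a → a ∈ Y.ring i) (ω : Forms e K)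
    (i : Fin (Y.N + 1)) (m : Ideal (Y.ring i)) (hm : m.IsMaximal) (k k' : ℕ) (g f : K)
    (hg : g ≠ 0) (hf : f ≠ 0) (hge : IsEquation (Y.ring i) ω k m g)
    (hfe : IsEquation (Y.ring i) ω k' m f) :
    ∃ p q : Y.ring i, q ∉ m ∧ p ∉ m ∧ g ^ k' / f ^ k * q = p := by
  have hz : g ^ k' / f ^ k ≠ 0 := div_ne_zero (pow_ne_zero _ hg) (pow_ne_zero _ hf)
  have hord : ∀ (v : DivVal e K) (P : Ideal (Y.ring i)), IsPrimeDivisor (Y.ring i) v P → P ≤ m →
      v.ord (g ^ k' / f ^ k) = 0 := by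
    intro v P hP hle
    rw [DivVal.ord_div v (pow_ne_zero _ hg) (pow_ne_zero _ hf), DivVal.ord_pow, DivVal.ord_pow,
      hge v P hP hle, hfe v P hP hle]
    ring
  obtain ⟨p, q, hq, hpq⟩ := hLCM Y hdim hn i m hm (g ^ k' / f ^ k)
    fun v P hP hle => Or.inr (hord v P hP hle).ge
  obtain ⟨p', q', hq', hpq'⟩ := hLCM Y hdim hn i m hm (g ^ k' / f ^ k)⁻¹
    fun v P hP hle => Or.inr (by rw [DivVal.ord_inv, hord v P hP hle, neg_zero])
  refine ⟨p, q, hq, ?_, hpq⟩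
  intro hp
  have h1 : q * q' = p * p' := by
    apply Subtype.ext
    change (q : K) * (q' : K) = (p : K) * (p' : K)
    rw [← hpq, ← hpq']
    field_simp
  have h2 : q * q' ∈ m := by
    rw [h1]
    exact m.mul_mem_right _ hp
  rcases hm.isPrime.mem_or_mem h2 with h3 | h3
  · exact hq h3
  · exact hq' h3

/-- if a power of a function restricts to the curve then so does the function -/
theorem restr_root {Y : ProjModel K} (hn : ∀ i (a : K), IsIntegral (Y.ring i) a → a ∈ Y.ring i)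
    (γ : CurveMap Y) (Z : K) (c : γ.L) (k : ℕ) (hk : 0 < k) (h : γ.Restr (Z ^ k) c) :
    ∃ U : γ.L, γ.Restr Z U := by
  obtain ⟨a, b, hb, hab, -⟩ := h
  obtain ⟨l, rfl⟩ : ∃ l, k = l + 1 := ⟨k - 1, by omega⟩
  have h1 : (Z * (b : K)) ^ (l + 1) = ((a * b ^ l : Y.ring γ.i) : K) := by
    push_cast
    rw [← hab]
    ring
  have h2 : IsIntegral (Y.ring γ.i) (Z * (b : K)) := by
    refine IsIntegral.of_pow (Nat.succ_pos l) ?_
    rw [h1]
    exact isIntegral_algebraMap (R := Y.ring γ.i) (A := K) (x := a * b ^ l)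
  have h3 := hn _ _ h2
  refine ⟨γ.φ ⟨Z * (b : K), h3⟩ / γ.φ b, ⟨Z * (b : K), h3⟩, b, hb, rfl, ?_⟩
  rw [div_mul_cancel₀ _ hb]

end CMP

open CMP in
/-- CMP: comparison of equations. -/
theorem t_CMP (hCUR : Stmt_CUR) (hRSU : Stmt_RSU) (hRGW : Stmt_RGW) (hLCM : Stmt_LCM)
    (hPRF : MldGeo.Stmt_PRF) : Stmt_CMP := by
  intro e K _ _ Y hdim hn ω k' E S hk' hE γ k h g u hk hEq
  obtain ⟨hR1, -, hR3, hR4, hR5, -, -⟩ := hRSU γ
  obtain ⟨hP1, -, hP3⟩ := hPRF (hCUR γ)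
  choose i m hmt heq using hEq.eqn
  obtain ⟨w₀, -⟩ := hP3 ∅
  have hf0 : ∀ w, E (i w) (m w) ≠ 0 := fun w => (hE _ _ (hmt w).1).1
  have hg0 : ∀ w, g w ≠ 0 := by
    intro w hw
    refine (hR4 _ _ (hEq.restr w) (hEq.u_ne w)).1 ?_
    rw [hw, zero_div]
  have hh := hEq.h_ne
  -- the restriction of `f w ^ k / h ^ k'`
  have hc : ∀ w : DivVal 1 γ.L, ∃ c : γ.L, c ≠ 0 ∧ w.ord c = (k' : ℤ) * w.ord (u w) ∧
      γ.Restr (E (i w) (m w) ^ k / h ^ k') c := by
    intro w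
    obtain ⟨p, q, hq, hp, hpq⟩ := unit_of_eqn hLCM Y hdim hn ω (i w) (m w) (hmt w).1 k k' (g w)
      (E (i w) (m w)) (hg0 w) (hf0 w) (heq w) (hE _ _ (hmt w).1).2.2
    obtain ⟨ζ, hζ1, -, hζ2, -⟩ := hRGW γ w (i w) (m w) (hmt w) _ p q hq hpq
    obtain ⟨hζ0, hζ3⟩ := hζ2 hp
    have h1 := (hR4 _ _ hζ1 hζ0).2 (-1)
    have h2 := hR5 _ _ k' (hEq.restr w)
    refine ⟨u w ^ k' * ζ ^ (-1 : ℤ), mul_ne_zero (pow_ne_zero _ (hEq.u_ne w))
      (zpow_ne_zero _ hζ0), ?_, ?_⟩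
    · rw [w.ord_mul _ _ (pow_ne_zero _ (hEq.u_ne w)) (zpow_ne_zero _ hζ0), DivVal.ord_pow,
        DivVal.ord_zpow, hζ3]
      ring
    · have h3 := hR3 _ _ _ _ h2 h1
      have h4 : (g w / h) ^ k' * (g w ^ k' / E (i w) (m w) ^ k) ^ (-1 : ℤ) =
          E (i w) (m w) ^ k / h ^ k' := by
        have h5 := hg0 w
        have h6 := hf0 w
        rw [zpow_neg_one, div_pow]
        field_simp
      rw [h4] at h3
      exact h3
  choose c hc0 hc1 hc2 using hc
  -- the restriction of `f w / f w₀`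
  have hU : ∀ w : DivVal 1 γ.L, ∃ U : γ.L, U ≠ 0 ∧
      γ.Restr (E (i w) (m w) / E (i w₀) (m w₀)) U ∧
      (k : ℤ) * w.ord U = (k' : ℤ) * w.ord (u w) - w.ord (c w₀) := by
    intro w
    have h1 := (hR4 _ _ (hc2 w₀) (hc0 w₀)).2 (-1)
    have h2 := hR3 _ _ _ _ (hc2 w) h1
    have h3 : E (i w) (m w) ^ k / h ^ k' * (E (i w₀) (m w₀) ^ k / h ^ k') ^ (-1 : ℤ) =
        (E (i w) (m w) / E (i w₀) (m w₀)) ^ k := by
      have h4 := hf0 w₀
      rw [zpow_neg_one, div_pow]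
      field_simp
    rw [h3] at h2
    obtain ⟨U, hU⟩ := restr_root hn γ _ _ k hk h2
    have h4 : U ^ k = c w * c w₀ ^ (-1 : ℤ) := hR1 _ _ _ (hR5 _ _ k hU) h2
    have h5 : U ≠ 0 := by
      intro h5
      rw [h5, zero_pow hk.ne'] at h4
      exact mul_ne_zero (hc0 w) (zpow_ne_zero _ (hc0 w₀)) h4.symm
    refine ⟨U, h5, hU, ?_⟩
    have h6 := congrArg w.ord h4
    rw [DivVal.ord_pow, w.ord_mul _ _ (hc0 w) (zpow_ne_zero _ (hc0 w₀)), DivVal.ord_zpow,
      hc1] at h6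
    rw [h6]
    ring
  choose U hU0 hU1 hU2 using hU
  -- finiteness
  have hfin : ∀ x : γ.L, x ≠ 0 → {w : DivVal 1 γ.L | w.ord x ≠ 0}.Finite := by
    intro x hx
    obtain ⟨D, hD, -⟩ := hP1 x hx
    refine (D.support.finite_toSet).subset ?_
    intro w hw
    rw [Finset.mem_coe, Finsupp.mem_support_iff, hD]
    exact hw
  have hrange : (Set.range U).Finite := by
    classical
    have h1 : Set.range U ⊆ (fun s : K => if h : ∃ w, E (i w) (m w) = s then U h.choose else 0) ''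
        (S : Set K) := by
      rintro _ ⟨w, rfl⟩
      refine ⟨E (i w) (m w), (hE _ _ (hmt w).1).2.1, ?_⟩
      have h2 : ∃ w', E (i w') (m w') = E (i w) (m w) := ⟨w, rfl⟩
      change (if h : ∃ w', E (i w') (m w') = E (i w) (m w) then U h.choose else 0) = U w
      rw [dif_pos h2]
      have h3 := hU1 h2.choose
      rw [h2.choose_spec] at h3
      exact hR1 _ _ _ h3 (hU1 w)
    exact (S.finite_toSet.image _).subset h1
  have hUfin : {w : DivVal 1 γ.L | w.ord (U w) ≠ 0}.Finite := by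
    refine (hrange.biUnion (t := fun x => {w : DivVal 1 γ.L | w.ord x ≠ 0}) ?_).subset ?_
    · rintro _ ⟨w, rfl⟩
      exact hfin _ (hU0 w)
    · intro w hw
      exact Set.mem_biUnion (Set.mem_range_self w) hw
  have hCfin := hfin (c w₀) (hc0 w₀)
  have hufin : {w : DivVal 1 γ.L | w.ord (u w) ≠ 0}.Finite := by
    refine (hUfin.union hCfin).subset ?_
    intro w hw
    by_contra hcon
    rw [Set.mem_union, not_or] at hcon
    have h1 : w.ord (U w) = 0 := not_not.1 hcon.1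
    have h2 : w.ord (c w₀) = 0 := not_not.1 hcon.2
    have h3 := hU2 w
    rw [h1, h2, mul_zero, sub_zero] at h3
    rcases mul_eq_zero.1 h3.symm with h4 | h4
    · exact hk'.ne' (by exact_mod_cast h4)
    · exact hw h4
  refine ⟨w₀, i, m, U, hmt, fun w => ⟨hU0 w, hU1 w⟩, hufin, hUfin, ?_⟩
  have hsum : ∑ᶠ w : DivVal 1 γ.L, w.ord (c w₀) = 0 := by
    obtain ⟨D, hD, hD0⟩ := hP1 (c w₀) (hc0 w₀)
    rw [finsum_eq_sum_of_support_subset (s := D.support) _ ?_]
    · rw [← hD0]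
      unfold deg Finsupp.sum
      exact Finset.sum_congr rfl fun w _ => (hD w).symm
    · intro w hw
      rw [Finset.mem_coe, Finsupp.mem_support_iff, hD]
      exact hw
  rw [mul_finsum, mul_finsum]
  have hkU : (Function.support fun w : DivVal 1 γ.L => (k : ℤ) * w.ord (U w)).Finite := by
    refine hUfin.subset ?_
    intro w hw hcon
    apply hw
    change (k : ℤ) * w.ord (U w) = 0
    rw [hcon, mul_zero]
  calc ∑ᶠ w : DivVal 1 γ.L, (k' : ℤ) * w.ord (u w)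
      = ∑ᶠ w : DivVal 1 γ.L, ((k : ℤ) * w.ord (U w) + w.ord (c w₀)) := by
        refine finsum_congr fun w => ?_
        rw [hU2 w]
        ring
    _ = _ := by
        rw [finsum_add_distrib hkU hCfin, hsum, add_zero]

end

end MMCI
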