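import Pool.Agent.MMCI.StmtsC0

/-!
# MP_fa3f7f_ag, MMCI, block C: homogeneous coordinates of a projective model exist
-/

namespace MMCI

namespace CRD

variable {n : ℕ} {K : Type} [Field K]

lemma ne_zero {x : (Fin n → ℤ) → K} (hx : Mono x) (u : Fin n → ℤ) : x u ≠ 0 := by
  intro h
  have h1 := hx.add u (-u)
  rw [add_neg_cancel, hx.zero, h, zero_mul] at h1
  exact one_ne_zero h1

lemma nsmul {x : (Fin n → ℤ) → K} (hx : Mono x) (k : ℕ) (u : Fin n → ℤ) :
    x (k • u) = x u ^ k := by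
  induction k with
  | zero => rw [zero_nsmul, hx.zero, pow_zero]
  | succ k ih => rw [succ_nsmul, hx.add, ih, pow_succ]

lemma div_eq {x : (Fin n → ℤ) → K} (hx : Mono x) (k : ℕ) (u v : Fin n → ℤ) :
    x (k • u) / x (k • v) = x (k • (u - v)) := by
  rw [div_eq_iff (ne_zero hx _), ← hx.add, ← nsmul_add, sub_add_cancel]

end CRD

theorem t_CRD (hFGF : Stmt_FGF) (hFIN : Stmt_FIN) (hHOM : Stmt_HOM) : Stmt_CRD := by
  classical
  intro n K V _ _ _ _ x A hM hF hA
  have := Fintype.ofFinite V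
  obtain ⟨hfg, hB⟩ := hFGF x A hM hF hA
  have h1 : ∀ v, ∃ T : Finset K, ∀ a : K,
      IsIntegral (base x A v) a ↔ a ∈ Algebra.adjoin ℂ (T : Set K) := fun v =>
    hFIN (base x A v) (hB v).1 hfg (hB v).2
  choose T hT using h1
  have h2 : ∀ (v : V) (b : K), ∃ k₀ : ℕ, IsIntegral (base x A v) b → ∀ k, k₀ ≤ k → ∀ v',
      IsIntegral (base x A v') (b * x (k • (A v - A v'))) := by
    intro v b
    by_cases hb : IsIntegral (base x A v) b
    · obtain ⟨k₀, hk⟩ := hHOM x A hM v b hb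
      exact ⟨k₀, fun _ => hk⟩
    · exact ⟨0, fun h => absurd h hb⟩
  choose k0 hk0 using h2
  set k : ℕ := 1 + ∑ v, ∑ b ∈ T v, k0 v b with hk
  have hkle : ∀ v, ∀ b ∈ T v, k0 v b ≤ k := by
    intro v b hb
    calc k0 v b ≤ ∑ b ∈ T v, k0 v b :=
          Finset.single_le_sum (f := fun b => k0 v b) (fun _ _ => Nat.zero_le _) hb
      _ ≤ ∑ v, ∑ b ∈ T v, k0 v b :=
          Finset.single_le_sum (f := fun v => ∑ b ∈ T v, k0 v b) (fun _ _ => Nat.zero_le _)
            (Finset.mem_univ v)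
      _ ≤ k := by omega
  let J : Type := V ⊕ (Σ v : V, {b : K // b ∈ (T v).filter fun b => b ≠ 0})
  have : Finite J := inferInstance
  have : Nonempty J := ⟨Sum.inl (Classical.arbitrary V)⟩
  obtain ⟨N', ⟨e'⟩⟩ := Finite.exists_equiv_fin J
  obtain ⟨N, rfl⟩ : ∃ N, N' = N + 1 := by
    rcases N' with _ | N
    · exact (IsEmpty.false (e' (Classical.arbitrary J))).elim
    · exact ⟨N, rfl⟩
  let g : J → K := fun t => match t with
    | Sum.inl v => x (k • A v)
    | Sum.inr p => (p.2 : K) * x (k • A p.1)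
  let s : Fin (N + 1) → K := fun j => g (e'.symm j)
  let idx : V → Fin (N + 1) := fun v => e' (Sum.inl v)
  have hsl : ∀ v, s (idx v) = x (k • A v) := by
    intro v
    show g (e'.symm (e' (Sum.inl v))) = _
    rw [Equiv.symm_apply_apply]
  have hsr : ∀ (v : V) (b : {b : K // b ∈ (T v).filter fun b => b ≠ 0}),
      s (e' (Sum.inr ⟨v, b⟩)) = (b : K) * x (k • A v) := by
    intro v b
    show g (e'.symm (e' (Sum.inr ⟨v, b⟩))) = _
    rw [Equiv.symm_apply_apply]
  have hcases : ∀ j, (∃ v, j = idx v) ∨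
      ∃ (v : V) (b : {b : K // b ∈ (T v).filter fun b => b ≠ 0}), j = e' (Sum.inr ⟨v, b⟩) := by
    intro j
    rcases h : e'.symm j with v | ⟨v, b⟩
    · left
      exact ⟨v, by show j = e' (Sum.inl v); rw [← h, Equiv.apply_symm_apply]⟩
    · right
      exact ⟨v, b, by rw [← h, Equiv.apply_symm_apply]⟩
  refine ⟨k, N, s, idx, ?_, ?_, hsl, ?_, ?_⟩
  · omega
  · intro j
    rcases hcases j with ⟨v, rfl⟩ | ⟨v, b, rfl⟩
    · rw [hsl]; exact CRD.ne_zero hM _
    · rw [hsr]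
      exact mul_ne_zero (Finset.mem_filter.1 b.2).2 (CRD.ne_zero hM _)
  · intro j v
    rcases hcases j with ⟨v', rfl⟩ | ⟨v', b, rfl⟩
    · rw [hsl, CRD.div_eq hM, CRD.nsmul hM]
      have hm : x (A v' - A v) ∈ base x A v := Algebra.subset_adjoin ⟨v', rfl⟩
      exact (isIntegral_algebraMap (R := base x A v) (x := (⟨_, hm⟩ : base x A v))).pow k
    · rw [hsr, mul_div_assoc, CRD.div_eq hM]
      have hb : (b : K) ∈ T v' := (Finset.mem_filter.1 b.2).1
      exact hk0 v' b ((hT v' b).2 (Algebra.subset_adjoin hb)) k (hkle v' b hb) v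
  · intro v b hb
    have h3 : b ∈ Algebra.adjoin ℂ (T v : Set K) := (hT v b).1 hb
    refine (Algebra.adjoin_le ?_ : Algebra.adjoin ℂ (T v : Set K) ≤ affRing s (idx v)) h3
    intro c hc
    by_cases hc0 : c = 0
    · rw [hc0]; exact (affRing s (idx v)).zero_mem
    · have hmem : c ∈ (T v).filter fun b => b ≠ 0 := Finset.mem_filter.2 ⟨hc, hc0⟩
      have h4 : s (e' (Sum.inr ⟨v, ⟨c, hmem⟩⟩)) / s (idx v) = c := by
        rw [hsr, hsl, mul_div_assoc, div_self (CRD.ne_zero hM _), mul_one]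
      have h5 : s (e' (Sum.inr ⟨v, ⟨c, hmem⟩⟩)) / s (idx v) ∈ affRing s (idx v) :=
        Algebra.subset_adjoin ⟨_, rfl⟩
      rw [h4] at h5
      exact h5

end MMCI
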