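import Pool.Agent.MMCI.StC
import Pool.Agent.MldGeo.OLC

/-!
# MP_fa3f7f_ag, MMCI, block C: centres of height one (module CRT)
-/

set_option autoImplicit false

namespace MMCI

open MldGeo

namespace CRT

variable {e : ℕ} {K : Type} [Field K] [Algebra ℂ K] {R : Subalgebra ℂ K} {v : DivVal e K}
  {P : Ideal R}

/-- elements outside of the centre have order `0` -/
theorem ord_eq (hP : HasCentre R v P) {q : R} (hq : q ∉ P) : v.ord (q : K) = 0 := by
  have h1 := hP.2.1 q
  by_contra h
  exact hq ((hP.2.2 q).2 (Or.inr (lt_of_le_of_ne h1 (Ne.symm h))))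

theorem ne_zero {q : R} (hq : q ∉ P) : (q : K) ≠ 0 := by
  intro h
  apply hq
  have h1 : q = 0 := Subtype.ext h
  rw [h1]
  exact P.zero_mem

theorem coe_ne {q : R} (hq : q ≠ 0) : (q : K) ≠ 0 := fun h => hq (Subtype.ext h)

/-- the centre is not zero -/
theorem ne_bot (hP : HasCentre R v P)
    (h : ∀ a : K, v.Ge 0 a → ∃ r q : R, q ∉ P ∧ a * q = r) : P ≠ ⊥ := by
  obtain ⟨t, ht0, ht⟩ := v.unif
  obtain ⟨r, q, hq, hrq⟩ := h t (Or.inr (by rw [ht]; exact zero_le_one))
  have h1 : v.ord (r : K) = 1 := by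
    rw [← hrq, v.ord_mul _ _ ht0 (ne_zero hq), ht, ord_eq hP hq, add_zero]
  have h2 : r ∈ P := (hP.2.2 r).2 (Or.inr (by rw [h1]; exact zero_lt_one))
  have h3 : r ≠ 0 := by
    intro h3
    rw [h3] at h1
    have h4 : ((0 : R) : K) = 0 := rfl
    rw [h4, v.ord_zero] at h1
    exact zero_ne_one h1
  intro h4
  rw [h4] at h2
  exact h3 (Ideal.mem_bot.1 h2)

/-- a smaller prime ideal is zero -/
theorem eq_bot (hP : HasCentre R v P)
    (h : ∀ a : K, v.Ge 0 a → ∃ r q : R, q ∉ P ∧ a * q = r) (Q : Ideal R) (hQ : Q.IsPrime)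
    (hQP : Q < P) : Q = ⊥ := by
  by_contra hQ0
  obtain ⟨a, haP, haQ⟩ := SetLike.exists_of_lt hQP
  obtain ⟨b, hbQ, hb0⟩ := Submodule.exists_mem_ne_zero_of_ne_bot hQ0
  have ha0 : a ≠ 0 := by
    intro h1
    rw [h1] at haQ
    exact haQ Q.zero_mem
  have haK : (a : K) ≠ 0 := coe_ne ha0
  have hbK : (b : K) ≠ 0 := coe_ne hb0
  have h1 : 0 < v.ord (a : K) := ((hP.2.2 a).1 haP).resolve_left ha0
  have h2 : 0 ≤ v.ord (b : K) := hP.2.1 b
  obtain ⟨N, hN⟩ := Int.eq_ofNat_of_zero_le h2
  obtain ⟨r, q, hq, hrq⟩ := h ((a : K) ^ N / b) (by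
    right
    rw [DivVal.ord_div v (pow_ne_zero N haK) hbK, DivVal.ord_pow, hN]
    have h3 : (0 : ℤ) ≤ (N : ℤ) := Int.natCast_nonneg N
    nlinarith)
  have h4 : (a : K) ^ N * q = r * b := by
    rw [← hrq]
    field_simp
  have h5 : a ^ N * q = r * b := Subtype.ext h4
  have h6 : a ^ N * q ∈ Q := by
    rw [h5]
    exact Q.mul_mem_left r hbQ
  rcases hQ.mem_or_mem h6 with h7 | h7
  · exact haQ (hQ.mem_of_pow_mem N h7)
  · exact hq (hQP.le h7)

end CRT

/-- CRT: the centre of a divisorial valuation has height one if and only if the valuation ring is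
the local ring of the centre. -/
theorem t_CRT : Stmt_CRT := by
  intro e K _ _ R hfg hfr hint htr v P hP
  constructor
  · intro hh a ha
    obtain ⟨m, hm, -⟩ := Ideal.exists_le_maximal P hP.1.ne_top
    let X : Germ e :=
      { K := K
        fieldK := inferInstance
        algK := inferInstance
        R := R
        fg := hfg
        frac := hfr
        normal := hint
        trdeg := htr
        m := m
        max := hm }
    obtain ⟨r, s, hs, hrs⟩ := t_OLC X P v ⟨hP.1, hh, hP.2.1, hP.2.2⟩ a ha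
    exact ⟨r, s, hs, hrs⟩
  · intro h
    apply le_antisymm
    · have h1 : P.height ≤ ((1 : ℕ) : ℕ∞) := by
        have := hP.1
        rw [Ideal.height_le_iff]
        intro Q hQ hQP
        rw [CRT.eq_bot hP h Q hQ hQP, Ideal.height_bot]
        exact_mod_cast Nat.one_pos
      simpa using h1
    · rw [Order.one_le_iff_ne_zero]
      intro h1
      have := hP.1
      rw [Ideal.height_eq_zero_iff_eq_bot] at h1
      exact CRT.ne_bot hP h h1

end MMCI
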