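import Pool.Agent.MMCI.StmtsC0

/-!
# A finitely generated field of transcendence degree one is a function field of one variable
-/

namespace MMCI

open MldGeo MvPolynomial

noncomputable section

namespace CRV

variable {F : Type} [Field F] [Algebra ℂ F]

/-- a finitely generated field stays finitely generated over an intermediate field -/
theorem adjoin_top (M : IntermediateField ℂ F) (T : Set F)
    (hT : IntermediateField.adjoin ℂ T = ⊤) : IntermediateField.adjoin M T = ⊤ := by
  rw [eq_top_iff]
  intro a _
  have h1 : IntermediateField.adjoin ℂ T ≤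
      (IntermediateField.adjoin M T).restrictScalars ℂ := by
    rw [IntermediateField.adjoin_le_iff]
    intro t ht
    exact IntermediateField.subset_adjoin M T ht
  have h2 : a ∈ IntermediateField.adjoin ℂ T := by rw [hT]; trivial
  exact h1 h2

theorem fin_of_alg (M : IntermediateField ℂ F) (T : Finset F)
    (hT : IntermediateField.adjoin ℂ (T : Set F) = ⊤) (hM : Algebra.IsAlgebraic M F) :
    FiniteDimensional M F := by
  have h1 : FiniteDimensional M (IntermediateField.adjoin M (T : Set F)) :=
    IntermediateField.finiteDimensional_adjoin fun x _ => (hM.isAlgebraic x).isIntegral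
  rw [adjoin_top M T hT] at h1
  exact Module.Finite.equiv (IntermediateField.topEquiv (F := M) (E := F)).toLinearEquiv

end CRV

theorem t_CRV : Stmt_CRV := by
  intro F _ _ htr hT
  obtain ⟨T, hT⟩ := hT
  refine ⟨(trdeg_ne_zero_iff.1 (by rw [htr]; exact one_ne_zero)).transcendental, fun s hs => ?_⟩
  have h1 : AlgebraicIndependent ℂ (fun _ : Unit => s) :=
    algebraicIndependent_unique_type_iff.2 hs
  have h7 := h1.isTranscendenceBasis_of_trdeg_le_of_finite (by
    rw [htr, Cardinal.mk_fintype, Fintype.card_unit, Nat.cast_one])
  have h8 := h7.isAlgebraic_field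
  rw [Set.range_const] at h8
  exact CRV.fin_of_alg _ T hT h8

end

end MMCI
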