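import Pool.Agent.MMCI.StC
import Pool.Agent.MMCI.CRV

/-!
# The function field of a curve on the model is a function field of one variable
-/

namespace MMCI

open MldGeo MvPolynomial

noncomputable section

theorem t_CUR : Stmt_CUR := by
  intro K _ _ Y γ
  refine t_CRV γ.trdeg ?_
  obtain ⟨T, hT⟩ := γ.fg
  exact ⟨T, hT⟩

end

end MMCI
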