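import Pool.Agent.MMCI.StmtsC0
import Pool.Agent.MldGeo.Ord

/-!
# MP_fa3f7f_ag, MMCI, block C: exchange of residues
-/

namespace MMCI

open MldGeo MvPolynomial

namespace EXR

/-- the exchange lemma in a field -/
theorem sel {κ ι : Type} [Field κ] [Algebra ℂ κ] {k : ℕ} (tb : ι → κ) (ub : Fin k → κ)
    (hu : AlgebraicIndependent ℂ ub)
    (halg : ∀ i, IsAlgebraic (Algebra.adjoin ℂ (Set.range tb)) (ub i)) :
    ∃ c : Fin k → ι, AlgebraicIndependent ℂ fun i => tb (c i) := by
  obtain ⟨B, hB⟩ := (AlgebraicIndependent.matroid ℂ κ).exists_isBasis (Set.range tb)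
  have h1 : (AlgebraicIndependent.matroid ℂ κ).Indep (Set.range ub) :=
    AlgebraicIndependent.matroid_indep_iff.mpr hu.to_subtype_range
  have h2 : Set.range ub ⊆ (AlgebraicIndependent.matroid ℂ κ).closure (Set.range tb) := by
    rw [AlgebraicIndependent.matroid_closure_eq]
    rintro _ ⟨i, rfl⟩
    exact halg i
  have h3 : (Set.range ub).encard ≤ B.encard := by
    rw [hB.encard_eq_eRk, ← Matroid.eRk_closure_eq]
    exact h1.encard_le_eRk_of_subset h2
  have hinj : Function.Injective ub := hu.injective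
  have h4 : (Set.range ub).encard = (k : ℕ∞) := by
    rw [← Set.image_univ, hinj.encard_image, Set.encard_univ]
    simp
  rw [h4] at h3
  obtain ⟨f⟩ : Nonempty (Fin k ↪ B) := by
    obtain ⟨t, htB, ht⟩ := Set.exists_subset_encard_eq h3
    have htf : t.Finite := by
      rw [← Set.encard_lt_top_iff, ht]
      exact ENat.natCast_lt_top k
    have := htf.fintype
    have hc : Fintype.card t = k := by
      rw [Set.encard_eq_coe_toFinset_card] at ht
      rw [← Set.toFinset_card]
      exact_mod_cast ht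
    let e : t ≃ Fin k := Fintype.equivFinOfCardEq hc
    exact ⟨⟨fun i => ⟨(e.symm i : κ), htB (e.symm i).2⟩, fun i j hij => by
      have := congrArg Subtype.val hij
      exact e.symm.injective (Subtype.ext this)⟩⟩
  have h5 : ∀ b : B, ∃ i, tb i = b := fun b => hB.subset b.2
  choose c hc using h5
  refine ⟨fun i => c (f i), ?_⟩
  have h6 : AlgebraicIndependent ℂ (fun b : B => (b : κ)) :=
    AlgebraicIndependent.matroid_indep_iff.mp hB.indep
  have h7 := h6.comp f f.injective
  have h8 : (fun i => tb (c (f i))) = (fun b : B => (b : κ)) ∘ f := by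
    funext i
    exact hc (f i)
  rw [h8]
  exact h7

section Res

variable {e : ℕ} {K : Type} [Field K] [Algebra ℂ K] (w : DivVal e K)

/-- the constants are in the valuation ring -/
@[reducible] noncomputable def alg : Algebra ℂ w.OV :=
  ((algebraMap ℂ K).codRestrict w.OV.toSubring fun c => DivVal.Ge.const w c).toAlgebra

theorem alg_val (c : ℂ) :
    letI := alg w
    ((algebraMap ℂ w.OV c : w.OV) : K) = algebraMap ℂ K c := rfl

/-- the inclusion of the valuation ring -/
noncomputable def incl : letI := alg w; w.OV →ₐ[ℂ] K :=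
  letI := alg w
  { w.OV.subtype with commutes' := fun _ => rfl }

theorem incl_apply (a : w.OV) : letI := alg w; incl w a = (a : K) := rfl

/-- the residue map -/
noncomputable def resi : letI := alg w; w.OV →ₐ[ℂ] IsLocalRing.ResidueField w.OV :=
  letI := alg w
  { IsLocalRing.residue w.OV with commutes' := fun _ => rfl }

theorem resi_ne (a : w.OV) : letI := alg w; resi w a ≠ 0 ↔ (a : K) ≠ 0 ∧ w.ord a = 0 := by
  letI := alg w
  change IsLocalRing.residue w.OV a ≠ 0 ↔ _
  rw [IsLocalRing.residue_ne_zero_iff_isUnit, DivVal.OV_isUnit_iff]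

theorem resInd_iff {ι : Type} (u : ι → w.OV) :
    letI := alg w
    ResInd w (fun i => (u i : K)) ↔ AlgebraicIndependent ℂ (fun i => resi w (u i)) := by
  letI := alg w
  have key : ∀ p : MvPolynomial ι ℂ, (aeval (fun i => (u i : K)) p ≠ 0 ∧
      w.ord (aeval (fun i => (u i : K)) p) = 0) ↔ aeval (fun i => resi w (u i)) p ≠ 0 := by
    intro p
    have h1 : aeval (fun i => resi w (u i)) p = resi w (aeval u p) :=
      (comp_aeval_apply u (resi w) p).symm
    have h2 : aeval (fun i => (u i : K)) p = ((aeval u p : w.OV) : K) :=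
      (comp_aeval_apply u (incl w) p).symm
    rw [h1, h2, resi_ne]
  rw [algebraicIndependent_iff]
  constructor
  · intro h p hp
    by_contra h0
    exact (key p).1 (h p h0) hp
  · intro h p hp
    rw [key]
    exact fun h0 => hp (h p h0)

theorem ge_of_resInd {ι : Type} {u : ι → K} (h : ResInd w u) (i : ι) : w.Ge 0 (u i) := by
  have := h (X i) (X_ne_zero i)
  rw [aeval_X] at this
  exact Or.inr this.2.ge

theorem choose {ι : Type} {k : ℕ} (t : ι → K) (ht : ∀ j, w.Ge 0 (t j)) (u : Fin k → K)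
    (hu : ∀ i, w.Ge 0 (u i)) (h : ResInd w u)
    (halg : letI := alg w
      ∀ i, IsAlgebraic (Algebra.adjoin ℂ (Set.range fun j => resi w ⟨t j, ht j⟩))
      (resi w ⟨u i, hu i⟩)) :
    ∃ c : Fin k → ι, ResInd w fun i => t (c i) := by
  letI := alg w
  have h1 : AlgebraicIndependent ℂ (fun i => resi w ⟨u i, hu i⟩) :=
    (resInd_iff w (fun i => ⟨u i, hu i⟩)).1 h
  obtain ⟨c, hc⟩ := sel (fun j => resi w ⟨t j, ht j⟩) _ h1 halg
  exact ⟨c, (resInd_iff w (fun i => ⟨t (c i), ht (c i)⟩)).2 hc⟩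

omit [Algebra ℂ K] in
theorem zpow_split (a : K) (ha : a ≠ 0) (c : ℤ) : a ^ c * a ^ (-c).toNat = a ^ c.toNat := by
  rw [← zpow_natCast, ← zpow_natCast, ← zpow_add₀ ha]
  congr 1
  omega

end Res

end EXR

open EXR

theorem t_EXC : Stmt_EXC := by
  intro e k K ι _ _ _ w t u ht hu hM
  letI := alg w
  have ht' : ∀ j, w.Ge 0 (t j) := fun j => Or.inr (ht j).2.ge
  have hu' := ge_of_resInd w hu
  refine EXR.choose w t ht' u hu' hu fun i => ?_
  obtain ⟨M, c, hM0, hMc⟩ := hM i
  refine IsAlgebraic.of_pow hM0 ?_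
  set A := Algebra.adjoin ℂ (Set.range fun j => resi w ⟨t j, ht' j⟩) with hA
  have h1 : u i ^ M * ∏ j, t j ^ (-(c j)).toNat = ∏ j, t j ^ (c j).toNat := by
    rw [hMc, ← Finset.prod_mul_distrib]
    exact Finset.prod_congr rfl fun j _ => zpow_split (t j) (ht j).1 (c j)
  have h2 : (⟨u i, hu' i⟩ : w.OV) ^ M * ∏ j, (⟨t j, ht' j⟩ : w.OV) ^ (-(c j)).toNat
      = ∏ j, (⟨t j, ht' j⟩ : w.OV) ^ (c j).toNat := by
    have hinj : Function.Injective (incl w) := Subtype.val_injective
    apply hinj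
    rw [map_mul, map_pow, map_prod, map_prod]
    simp only [map_pow]
    exact h1
  have h3 := congrArg (resi w) h2
  rw [map_mul, map_pow, map_prod, map_prod] at h3
  simp only [map_pow] at h3
  have h4 : ∀ j, resi w ⟨t j, ht' j⟩ ≠ 0 := fun j => (resi_ne w _).2 (ht j)
  have h5 : ∏ j, resi w ⟨t j, ht' j⟩ ^ (-(c j)).toNat ≠ 0 :=
    Finset.prod_ne_zero_iff.2 fun j _ => pow_ne_zero _ (h4 j)
  have hmem : ∀ n : ι → ℕ, ∏ j, resi w ⟨t j, ht' j⟩ ^ n j ∈ A := fun n =>
    Subalgebra.prod_mem _ fun j _ => Subalgebra.pow_mem _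
      (Algebra.subset_adjoin (Set.mem_range_self j)) _
  have h6 : ∀ n : ι → ℕ, IsAlgebraic A (∏ j, resi w ⟨t j, ht' j⟩ ^ n j) := fun n =>
    isAlgebraic_algebraMap (⟨_, hmem n⟩ : A)
  have h7 : resi w ⟨u i, hu' i⟩ ^ M = (∏ j, resi w ⟨t j, ht' j⟩ ^ (c j).toNat)
      * (∏ j, resi w ⟨t j, ht' j⟩ ^ (-(c j)).toNat)⁻¹ := by
    rw [← h3, mul_assoc, mul_inv_cancel₀ h5, mul_one]
  rw [h7]
  exact (h6 _).mul (h6 _).inv

theorem t_RSI : Stmt_RSI := by
  intro e K ι _ _ _ w t ht hfr
  letI := alg w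
  obtain ⟨u, hu⟩ := w.res
  have hu1 : ResInd w u := hu
  have hu' := ge_of_resInd w hu1
  refine EXR.choose w t ht u hu' hu1 fun i => ?_
  obtain ⟨r, q, hr, hq, hq0, hq1, hrq⟩ := hfr (u i) (hu' i)
  set t' : ι → w.OV := fun j => ⟨t j, ht j⟩ with ht'
  set B' : Subalgebra ℂ w.OV := Algebra.adjoin ℂ (Set.range t') with hB'
  set A := Algebra.adjoin ℂ (Set.range fun j => resi w (t' j)) with hA
  have hBmap : Algebra.adjoin ℂ (Set.range t) = B'.map (incl w) := by
    rw [hB', AlgHom.map_adjoin, ← Set.range_comp]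
    rfl
  have hAmap : A = B'.map (resi w) := by
    rw [hA, hB', AlgHom.map_adjoin, ← Set.range_comp]
    rfl
  -- integral elements of the ring
  have hinj : Function.Injective (incl w) := Subtype.val_injective
  have hint : ∀ a : K, IsIntegral (Algebra.adjoin ℂ (Set.range t)) a →
      ∃ a' : w.OV, (a' : K) = a ∧ IsIntegral A (resi w a') := by
    intro a ha
    rw [hBmap] at ha
    -- to `B'`
    let φ : B' ≃ₐ[ℂ] B'.map (incl w) := B'.equivMapOfInjective (incl w) hinj
    have h1 : IsIntegral B' a := by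
      have := ha.map_of_comp_eq (T := B') (U := K) (φ.symm : B'.map (incl w) →+* B')
        (RingHom.id K) ?_
      · simpa using this
      · ext x
        obtain ⟨y, rfl⟩ := φ.surjective x
        simp only [RingHom.comp_apply, RingHom.id_apply]
        have h2 : (φ.symm : B'.map (incl w) →+* B') (φ y) = y := φ.symm_apply_apply y
        rw [h2]
        rfl
    have h3 : IsIntegral w.OV a := h1.tower_top
    obtain ⟨a', ha'⟩ := (IsIntegrallyClosed.isIntegral_iff (R := w.OV) (K := K)).1 h3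
    refine ⟨a', ha', ?_⟩
    have h4 : IsIntegral B' (a' : w.OV) := by
      have h5 : IsIntegral B' (algebraMap w.OV K a') := by
        rw [ha']
        exact h1
      exact (isIntegral_algHom_iff (IsScalarTower.toAlgHom B' w.OV K)
        (show Function.Injective (algebraMap w.OV K) from IsFractionRing.injective _ _)).1 h5
    have hmem : ∀ x : B', resi w x ∈ A := by
      intro x
      rw [hAmap]
      exact ⟨x, x.2, rfl⟩
    let φ' : B' →+* A := (((resi w).comp B'.val).codRestrict A hmem : B' →ₐ[ℂ] A)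
    let ψ' : w.OV →+* IsLocalRing.ResidueField w.OV := IsLocalRing.residue w.OV
    have h6 : (algebraMap A (IsLocalRing.ResidueField w.OV)).comp φ'
        = ψ'.comp (algebraMap B' w.OV) := RingHom.ext fun x => rfl
    exact h4.map_of_comp_eq φ' ψ' h6
  obtain ⟨r', hr', hr1⟩ := hint r hr
  obtain ⟨q', hq', hq2⟩ := hint q hq
  have h1 : (⟨u i, hu' i⟩ : w.OV) * q' = r' := by
    apply Subtype.ext
    rw [hr', ← hrq, ← hq']
    rfl
  have h2 := congrArg (resi w) h1
  rw [map_mul] at h2
  have h3 : resi w q' ≠ 0 := (resi_ne w q').2 (by rw [hq']; exact ⟨hq0, hq1⟩)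
  have h4 : resi w ⟨u i, hu' i⟩ = resi w r' * (resi w q')⁻¹ := by
    rw [← h2, mul_assoc, mul_inv_cancel₀ h3, mul_one]
  rw [h4]
  exact hr1.isAlgebraic.mul hq2.isAlgebraic.inv

end MMCI
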