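import Pool.Agent.MMCI.StC
import Pool.Agent.MldGeo.Ord

/-!
# MP_fa3f7f_ag, MMCI, block D: the morphism of the Mori fibre space
-/

set_option autoImplicit false

namespace MMCI

open MldGeo

namespace FBM

variable {n : ℕ} {K : Type} [Field K] [Algebra ℂ K]

theorem mon_sub {x : Fin n → K} (h : Mono (mon x)) (h0 : ∀ m, mon x m ≠ 0) (u v : Fin n → ℤ) :
    mon x (u - v) = mon x u / mon x v := by
  rw [eq_div_iff (h0 v), ← h.add, sub_add_cancel]

theorem trdeg_mono {S T : Set K} (h : S ⊆ T) :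
    Algebra.trdeg ℂ (IntermediateField.adjoin ℂ S) ≤
      Algebra.trdeg ℂ (IntermediateField.adjoin ℂ T) := by
  have hle : IntermediateField.adjoin ℂ S ≤ IntermediateField.adjoin ℂ T :=
    IntermediateField.adjoin.mono ℂ S T h
  exact trdeg_le_of_injective (IntermediateField.inclusion hle)
    (IntermediateField.inclusion_injective hle)

end FBM

theorem t_FBM (hLCM : Stmt_LCM) (hFUL : Stmt_FUL) : Stmt_FBM := by
  intro e n r K _ _ f x hx htr he F Y hY htd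
  obtain ⟨hmono, -, hord, -⟩ := hFUL x hx
  have h0 : ∀ m, mon x m ≠ 0 := fun m =>
    Finset.prod_ne_zero_iff.2 fun i _ => zpow_ne_zero _ (hx i)
  obtain ⟨M, hM⟩ : ∃ M, F.A.card = M + 1 :=
    ⟨F.A.card - 1, by have := Finset.card_pos.2 F.nonempty; omega⟩
  let φ : Fin (M + 1) ≃ {a // a ∈ F.A} := (F.A.equivFinOfCardEq hM).symm
  let t : Fin (M + 1) → K := fun l => mon x (F.b (φ l))
  refine ⟨M, t, fun l => ⟨φ l, (φ l).2, rfl⟩, fun a ha => ⟨φ.symm ⟨a, ha⟩, ?_⟩, ?_, ?_⟩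
  · simp only [t, Equiv.apply_symm_apply]
  · refine (FBM.trdeg_mono ?_).trans_lt htd
    rintro _ ⟨l, rfl⟩
    exact ⟨φ l, (φ l).2, φ 0, (φ 0).2, (FBM.mon_sub hmono h0 _ _).symm⟩
  · intro i m hm
    obtain ⟨a, ha, hpt⟩ := hY.pt i m hm
    refine ⟨φ.symm ⟨a, ha⟩, fun l => ?_⟩
    have h1 : t (φ.symm ⟨a, ha⟩) = mon x (F.b a) := by
      simp only [t, Equiv.apply_symm_apply]
    rw [h1, ← FBM.mon_sub hmono h0]
    obtain ⟨p, q, hq, hpq⟩ := hLCM Y htr hY.normal i m hm (mon x (F.b (φ l) - F.b a)) (by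
      intro v P hP hPm
      right
      obtain ⟨hP1, hP2, hP3, hP4⟩ := hP
      obtain ⟨hmin, -⟩ := hpt v P ⟨hP1, hP3, hP4⟩ hPm
      have h2 := F.nef (wt x v) a (φ l) hmin (φ l).2
      rw [FBM.mon_sub hmono h0, v.ord_div (h0 _) (h0 _), (hord v _).2, (hord v _).2]
      linarith)
    exact ⟨p, q, hq, hpq⟩

end MMCI
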