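import Pool.Agent.MMCI.StC

/-!
# MP_fa3f7f_ag, MMCI: FBN, the canonical divisor is negative on the curves in the fibres
-/

namespace MMCI

open MldGeo MvPolynomial

noncomputable section

namespace FBN

section Ord

variable {e : ℕ} {K : Type} [Field K] [Algebra ℂ K] (v : DivVal e K)

theorem ord_one : v.ord 1 = 0 := by
  have h := v.ord_const 1
  rwa [map_one] at h

theorem ord_inv {a : K} (ha : a ≠ 0) : v.ord a⁻¹ = - v.ord a := by
  have h := v.ord_mul a a⁻¹ ha (inv_ne_zero ha)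
  rw [mul_inv_cancel₀ ha, ord_one] at h
  omega

theorem ord_pow {a : K} (ha : a ≠ 0) (k : ℕ) : v.ord (a ^ k) = k * v.ord a := by
  induction k with
  | zero => rw [pow_zero, ord_one]; simp
  | succ k ih =>
    rw [pow_succ, v.ord_mul _ _ (pow_ne_zero k ha) ha, ih]
    push_cast
    ring

end Ord

section Mon

variable {n : ℕ} {K : Type} [Field K]

theorem pair_sub (w a b : Fin n → ℤ) : pair w (a - b) = pair w a - pair w b := by
  unfold pair
  rw [← Finset.sum_sub_distrib]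
  exact Finset.sum_congr rfl fun i _ => by rw [Pi.sub_apply, mul_sub]

theorem pair_neg (w a : Fin n → ℤ) : pair w (-a) = - pair w a := by
  unfold pair
  rw [← Finset.sum_neg_distrib]
  exact Finset.sum_congr rfl fun i _ => by rw [Pi.neg_apply, mul_neg]

theorem mon_ne {x : Fin n → K} (hx : ∀ j, x j ≠ 0) (m : Fin n → ℤ) : mon x m ≠ 0 :=
  Finset.prod_ne_zero_iff.2 fun i _ => zpow_ne_zero _ (hx i)

theorem mon_div {x : Fin n → K} (hx : ∀ j, x j ≠ 0) (h : Mono (mon x)) (a b : Fin n → ℤ) :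
    mon x a / mon x b = mon x (a - b) := by
  have h1 := h.add (a - b) b
  rw [sub_add_cancel] at h1
  rw [h1, mul_div_cancel_right₀ _ (mon_ne hx b)]

theorem mon_inv {x : Fin n → K} (h : Mono (mon x)) (a b : Fin n → ℤ) :
    (mon x (a - b))⁻¹ = mon x (b - a) := by
  have h1 := h.add (a - b) (b - a)
  rw [sub_add_sub_cancel, sub_self, h.zero] at h1
  exact inv_eq_of_mul_eq_one_right h1.symm

end Mon

section Curve

variable {e n : ℕ} {K : Type} [Field K] [Algebra ℂ K] {x : Fin n → K} {Y : ProjModel K}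

theorem ord_zero_of {i : Fin (Y.N + 1)} {m : Ideal (Y.ring i)} {v : DivVal e K}
    {P : Ideal (Y.ring i)} (hP : IsPrimeDivisor (Y.ring i) v P) (hPm : P ≤ m) {a : Y.ring i}
    (ha : a ∉ m) : (a : K) ≠ 0 ∧ v.ord a = 0 := by
  have h1 : a ∉ P := fun h => ha (hPm h)
  rw [hP.2.2.2 a] at h1
  push Not at h1
  refine ⟨fun h => h1.1 (Subtype.ext h), ?_⟩
  have h2 := hP.2.2.1 a
  have h3 := h1.2
  omega

/-- Monomials with nonnegative orders are regular. -/
theorem regular (hLCM : Stmt_LCM) (hFUL : Stmt_FUL) (hx : ∀ j, x j ≠ 0)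
    (htr : Algebra.trdeg ℂ K = (e : Cardinal))
    (hn : ∀ i (a : K), IsIntegral (Y.ring i) a → a ∈ Y.ring i) {i : Fin (Y.N + 1)}
    {m : Ideal (Y.ring i)} (hm : m.IsMaximal) {c : Fin n → ℤ}
    (hc : ∀ (v : DivVal e K) (P : Ideal (Y.ring i)), IsPrimeDivisor (Y.ring i) v P → P ≤ m →
      0 ≤ pair (wt x v) c) :
    ∃ p q : Y.ring i, q ∉ m ∧ mon x c * q = p := by
  refine hLCM Y htr hn i m hm _ fun v P h1 h2 => Or.inr ?_
  rw [((hFUL x hx).2.2.1 v c).2]
  exact hc v P h1 h2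

/-- They can be restricted to the curve. -/
theorem restr_ge (hLCM : Stmt_LCM) (hFUL : Stmt_FUL) (hRGW : Stmt_RGW) (hx : ∀ j, x j ≠ 0)
    (htr : Algebra.trdeg ℂ K = (e : Cardinal))
    (hn : ∀ i (a : K), IsIntegral (Y.ring i) a → a ∈ Y.ring i) {i : Fin (Y.N + 1)}
    {m : Ideal (Y.ring i)} {γ : CurveMap Y} {w : DivVal 1 γ.L} (hm : γ.MapsTo w i m)
    {c : Fin n → ℤ}
    (hc : ∀ (v : DivVal e K) (P : Ideal (Y.ring i)), IsPrimeDivisor (Y.ring i) v P → P ≤ m →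
      0 ≤ pair (wt x v) c) :
    ∃ u : γ.L, γ.Restr (mon x c) u ∧ w.Ge 0 u := by
  obtain ⟨p, q, h1, h2⟩ := regular hLCM hFUL hx htr hn hm.1 hc
  obtain ⟨u, h3, h4, _⟩ := hRGW γ w i m hm _ p q h1 h2
  exact ⟨u, h3, h4⟩

/-- If the restriction has order zero then the orders along the divisors are zero. -/
theorem pair_zero (hLCM : Stmt_LCM) (hFUL : Stmt_FUL) (hRGW : Stmt_RGW) (hRSU : Stmt_RSU)
    (hx : ∀ j, x j ≠ 0) (htr : Algebra.trdeg ℂ K = (e : Cardinal))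
    (hn : ∀ i (a : K), IsIntegral (Y.ring i) a → a ∈ Y.ring i) {i : Fin (Y.N + 1)}
    {m : Ideal (Y.ring i)} {γ : CurveMap Y} {w : DivVal 1 γ.L} (hm : γ.MapsTo w i m)
    {c : Fin n → ℤ}
    (hc : ∀ (v : DivVal e K) (P : Ideal (Y.ring i)), IsPrimeDivisor (Y.ring i) v P → P ≤ m →
      0 ≤ pair (wt x v) c) {u : γ.L} (hu : γ.Restr (mon x c) u) (hu1 : ¬ w.Ge 1 u)
    {v : DivVal e K} {P : Ideal (Y.ring i)} (hP : IsPrimeDivisor (Y.ring i) v P) (hPm : P ≤ m) :
    pair (wt x v) c = 0 := by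
  obtain ⟨p, q, h1, h2⟩ := regular hLCM hFUL hx htr hn hm.1 hc
  obtain ⟨u', h3, _, _, h4⟩ := hRGW γ w i m hm _ p q h1 h2
  have hp : p ∉ m := by
    intro h5
    apply hu1
    rw [(hRSU γ).1 _ _ _ hu h3]
    exact h4 h5
  obtain ⟨q0, q1⟩ := ord_zero_of hP hPm h1
  obtain ⟨p0, p1⟩ := ord_zero_of hP hPm hp
  have h6 := v.ord_mul (mon x c) q (mon_ne hx c) q0
  rw [h2, p1, q1, ((hFUL x hx).2.2.1 v c).2] at h6
  omega

end Curve

end FBN

open FBN

/-- FBN: the canonical divisor is negative on the curves in the fibres. -/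
theorem t_FBN (hCUR : Stmt_CUR) (hRSU : Stmt_RSU) (hRGW : Stmt_RGW) (hLCM : Stmt_LCM)
    (hCMP : Stmt_CMP) (hCHW : Stmt_CHW) (hFUL : Stmt_FUL) (hPRF : MldGeo.Stmt_PRF) :
    Stmt_FBN := by
  intro e n r K _ _ f x hx htr he F ω Y hω hM hK M t ht ht' ω' hω' γ hfib k h g u hk hEq
  classical
  obtain ⟨q, hq, -, hqord⟩ := hCHW htr he ω ω' hω hω'
  obtain ⟨hmono, -, hmord, -⟩ := hFUL x hx
  have hn := hM.normal
  -- the point of the polytope
  have hpt : ∀ i (m : Ideal (Y.ring i)), ∃ a ∈ F.A, m.IsMaximal →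
      ∀ (v : DivVal e K) (P : Ideal (Y.ring i)), IsPrimeDivisor (Y.ring i) v P → P ≤ m →
        MinAt F.A a (wt x v) := by
    intro i m
    by_cases hm : m.IsMaximal
    · obtain ⟨a, ha, h1⟩ := hM.pt i m hm
      exact ⟨a, ha, fun _ v P hP hPm => (h1 v P ⟨hP.1, hP.2.2.1, hP.2.2.2⟩ hPm).1⟩
    · obtain ⟨a, ha⟩ := F.nonempty
      exact ⟨a, ha, fun h1 => absurd h1 hm⟩
  choose pt hptA hptM using hpt
  -- the equations
  obtain ⟨w₀, i, m, U, hmap, hU, hfin1, hfin2, hsum⟩ := hCMP Y htr hn ω' F.k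
    (fun i m => q ^ F.k * mon x (-(F.u (pt i m))))
    (F.A.image fun a => q ^ F.k * mon x (-(F.u a))) F.k_pos (by
      intro i m hm
      refine ⟨mul_ne_zero (pow_ne_zero _ hq) (mon_ne hx _),
        Finset.mem_image.2 ⟨_, hptA i m, rfl⟩, ?_⟩
      intro v P hP hPm
      have h1 := hK i v P hP _ (hptA i m) (hptM i m hm v P hP hPm)
      rw [v.ord_mul _ _ (pow_ne_zero _ hq) (mon_ne hx _), ord_pow v hq, (hmord v _).2, pair_neg,
        ← h1, hqord, mul_add]) γ k h g u hk hEq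
  set aw : DivVal 1 γ.L → (Fin n → ℤ) := fun w => pt (i w) (m w) with haw
  have hawA : ∀ w, aw w ∈ F.A := fun w => hptA _ _
  have hawM : ∀ w (v : DivVal e K) (P : Ideal (Y.ring (i w))), IsPrimeDivisor (Y.ring (i w)) v P →
      P ≤ m w → MinAt F.A (aw w) (wt x v) := fun w => hptM _ _ (hmap w).1
  set a0 := aw w₀ with ha0
  have ha0A : a0 ∈ F.A := hawA w₀
  have hUr : ∀ w, γ.Restr (mon x (F.u a0 - F.u (aw w))) (U w) := by
    intro w
    have h1 := (hU w).2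
    have h2 : (q ^ F.k * mon x (-(F.u (pt (i w) (m w))))) / (q ^ F.k *
        mon x (-(F.u (pt (i w₀) (m w₀))))) = mon x (F.u a0 - F.u (aw w)) := by
      rw [mul_div_mul_left _ _ (pow_ne_zero _ hq), mon_div hx hmono]
      congr 1
      rw [sub_neg_eq_add, add_comm, ← sub_eq_add_neg]
    rw [h2] at h1
    exact h1
  obtain ⟨uniq, -, rmul, rinv, -, rconst, -⟩ := hRSU γ
  have rone : γ.Restr (1 : K) (1 : γ.L) := by
    have h1 := rconst 1
    rwa [map_one, map_one] at h1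
  -- the monomials of the fibration are constant on the curve
  obtain ⟨j0, hj0⟩ := hfib
  obtain ⟨as, hasA, hast⟩ := ht j0
  have hcst : ∀ a ∈ F.A, ∃ c : ℂ, γ.Restr (mon x (F.b a - F.b as)) (algebraMap ℂ γ.L c) := by
    intro a ha
    obtain ⟨l, hl⟩ := ht' a ha
    obtain ⟨c, hc⟩ := hj0 l
    rw [hl, hast, mon_div hx hmono] at hc
    exact ⟨c, hc⟩
  -- CLAIM 1
  have hc1 : ∀ w, ∃ c : ℂ, c ≠ 0 ∧ γ.Restr (mon x (F.b (aw w) - F.b as)) (algebraMap ℂ γ.L c) := by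
    intro w
    obtain ⟨c, hc⟩ := hcst _ (hawA w)
    refine ⟨c, ?_, hc⟩
    rintro rfl
    obtain ⟨us, h1, -⟩ := restr_ge hLCM hFUL hRGW hx htr hn (hmap w)
      (c := F.b as - F.b (aw w)) (fun v P hP hPm => by
        rw [pair_sub]
        have h2 := F.nef _ _ as (hawM w v P hP hPm) hasA
        omega)
    have h3 := rmul _ _ _ _ hc h1
    rw [map_zero, zero_mul, ← hmono.add, sub_add_sub_cancel, sub_self, hmono.zero] at h3
    exact one_ne_zero (uniq _ _ _ rone h3)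
  have hc2 : ∀ w, ∃ c : ℂ, c ≠ 0 ∧ γ.Restr (mon x (F.b a0 - F.b (aw w))) (algebraMap ℂ γ.L c) := by
    intro w
    obtain ⟨c, hc0, hc⟩ := hc1 w
    obtain ⟨c', hc0', hc'⟩ := hc1 w₀
    have hcne : algebraMap ℂ γ.L c ≠ 0 := by
      rwa [Ne, map_eq_zero]
    have h1 := (rinv _ _ hc hcne).2 (-1)
    rw [zpow_neg_one, zpow_neg_one, mon_inv hmono, ← map_inv₀] at h1
    have h2 := rmul _ _ _ _ hc' h1
    rw [← hmono.add, sub_add_sub_cancel, ← map_mul] at h2
    exact ⟨c' * c⁻¹, mul_ne_zero hc0' (inv_ne_zero hc0), h2⟩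
  -- CLAIM 2
  have hb : ∀ w (v : DivVal e K) (P : Ideal (Y.ring (i w))), IsPrimeDivisor (Y.ring (i w)) v P →
      P ≤ m w → pair (wt x v) (F.b a0) = pair (wt x v) (F.b (aw w)) := by
    intro w v P hP hPm
    obtain ⟨c, hc0, hc⟩ := hc2 w
    have h1 := pair_zero hLCM hFUL hRGW hRSU hx htr hn (hmap w) (c := F.b a0 - F.b (aw w))
      (fun v P hP hPm => by
        rw [pair_sub]
        have h2 := F.nef _ _ a0 (hawM w v P hP hPm) ha0A
        omega) hc (by
        rintro (h2 | h2)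
        · exact hc0 ((map_eq_zero _).1 h2)
        · rw [w.ord_const] at h2
          omega) hP hPm
    rw [pair_sub] at h1
    omega
  -- CLAIM 3
  have hpos : ∀ w (v : DivVal e K) (P : Ideal (Y.ring (i w))), IsPrimeDivisor (Y.ring (i w)) v P →
      P ≤ m w → 0 ≤ pair (wt x v) (F.u (aw w) - F.u a0) := by
    intro w v P hP hPm
    rw [pair_sub]
    have h1 := (F.pos _ _ a0 (hawM w v P hP hPm) ha0A (hb w v P hP hPm)).1
    omega
  have hUi : ∀ w, γ.Restr (mon x (F.u (aw w) - F.u a0)) (U w)⁻¹ := by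
    intro w
    have h1 := (rinv _ _ (hUr w) (hU w).1).2 (-1)
    rwa [zpow_neg_one, zpow_neg_one, mon_inv hmono] at h1
  have hUle : ∀ w : DivVal 1 γ.L, w.ord (U w) ≤ 0 := by
    intro w
    obtain ⟨u', h1, h2⟩ := restr_ge hLCM hFUL hRGW hx htr hn (hmap w) (hpos w)
    have h3 := uniq _ _ _ h1 (hUi w)
    rw [h3] at h2
    rcases h2 with h2 | h2
    · exact absurd h2 (inv_ne_zero (hU w).1)
    · rw [ord_inv w (hU w).1] at h2
      omega
  -- CLAIM 4
  have hne : ∃ w : DivVal 1 γ.L, w.ord (U w) ≠ 0 := by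
    by_contra hall
    push Not at hall
    have hmin : ∀ w (v : DivVal e K) (P : Ideal (Y.ring (i w))),
        IsPrimeDivisor (Y.ring (i w)) v P → P ≤ m w → MinAt F.A a0 (wt x v) := by
      intro w v P hP hPm
      have h1 := pair_zero hLCM hFUL hRGW hRSU hx htr hn (hmap w) (hpos w) (hUi w) (by
        rintro (h2 | h2)
        · exact inv_ne_zero (hU w).1 h2
        · rw [ord_inv w (hU w).1, hall w] at h2
          omega) hP hPm
      rw [pair_sub] at h1
      exact (F.pos _ _ a0 (hawM w v P hP hPm) ha0A (hb w v P hP hPm)).2 (by omega)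
    refine hM.fin γ a0 ha0A fun b hbA => ?_
    have hrb : ∀ w : DivVal 1 γ.L, ∃ u' : γ.L, γ.Restr (mon x (b - a0)) u' ∧ w.Ge 0 u' := fun w =>
      restr_ge hLCM hFUL hRGW hx htr hn (hmap w) (c := b - a0) (fun v P hP hPm => by
        rw [pair_sub]
        have h1 := (hmin w v P hP hPm).2 b hbA
        omega)
    obtain ⟨u0, h1, -⟩ := hrb w₀
    obtain ⟨c, hc⟩ := (hPRF (hCUR γ)).2.1 u0 (fun w => by
      obtain ⟨u', h2, h3⟩ := hrb w
      rw [uniq _ _ _ h1 h2]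
      exact h3)
    exact ⟨c, hc ▸ h1⟩
  refine ⟨hfin1, ?_⟩
  have hs : ∑ᶠ w : DivVal 1 γ.L, w.ord (U w) < 0 := by
    rw [finsum_eq_sum_of_support_subset (s := hfin2.toFinset) _ (by
      intro w hw
      rw [Set.Finite.coe_toFinset]
      exact hw)]
    apply Finset.sum_neg' (fun w _ => hUle w)
    obtain ⟨w, hw⟩ := hne
    refine ⟨w, ?_, lt_of_le_of_ne (hUle w) hw⟩
    rw [Set.Finite.mem_toFinset]
    exact hw
  have hk' : (0 : ℤ) < k := by exact_mod_cast hk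
  have hFk : (0 : ℤ) < F.k := by exact_mod_cast F.k_pos
  have h1 : (k : ℤ) * ∑ᶠ w : DivVal 1 γ.L, w.ord (U w) < 0 := mul_neg_of_pos_of_neg hk' hs
  rw [← hsum] at h1
  by_contra h2
  push Not at h2
  have h3 := mul_nonneg hFk.le h2
  omega

end

end MMCI
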