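import Pool.Agent.MMCI.StC

/-! # FIB: the Mori fibre space -/

namespace MMCI

open MldGeo

theorem FIB.mon_ne {n : ℕ} {K : Type} [Field K] (x : Fin n → K) (hx : ∀ j, x j ≠ 0)
    (m : Fin n → ℤ) : mon x m ≠ 0 :=
  Finset.prod_ne_zero_iff.2 fun j _ => zpow_ne_zero _ (hx j)

theorem t_FIB (hFBM : Stmt_FBM) (hFBN : Stmt_FBN) : S_FIB := by
  intro e n r K _ _ f x hS F ω Y hω hY hK hd
  obtain ⟨M, t, h1, h2, h3, h4⟩ := hFBM f x hS.ne hS.dim hS.pos F Y hY hd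
  refine ⟨M, t, fun l => ?_, h3, h4, ?_⟩
  · obtain ⟨a, -, ha⟩ := h1 l
    rw [ha]
    exact FIB.mon_ne x hS.ne _
  · intro ω' hω' γ hγ k h g u hk hE
    exact hFBN f x hS.ne hS.dim hS.pos F ω Y hω hY hK M t h1 h2 ω' hω' γ hγ k h g u hk hE

end MMCI
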