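import Pool.Agent.MMCI.StmtsC0

/-!
# MP_fa3f7f_ag, MMCI, block C: finiteness of the integral closure (from the Noether normalization)
-/

namespace MMCI

open MldGeo MvPolynomial

noncomputable section

namespace FIN

/-- The core: the integral closure of a noetherian normal domain of finite type in a finitely
generated algebraic field extension. -/
theorem core {P K : Type} [CommRing P] [IsDomain P] [IsIntegrallyClosed P] [IsNoetherianRing P]
    [CharZero P] [Algebra ℂ P] [Algebra.FiniteType ℂ P] [Field K] [Algebra ℂ K] [Algebra P K]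
    [IsScalarTower ℂ P K] [FaithfulSMul P K] (alg : Algebra.IsAlgebraic P K)
    (hT : ∃ T : Finset K, IntermediateField.adjoin ℂ (T : Set K) = ⊤) :
    ∃ T : Finset K, ∀ a : K, IsIntegral P a ↔ a ∈ Algebra.adjoin ℂ (T : Set K) := by
  classical
  obtain ⟨T, hT⟩ := hT
  letI : Algebra (FractionRing P) K := FractionRing.liftAlgebra P K
  haveI : IsScalarTower P (FractionRing P) K := FractionRing.isScalarTower_liftAlgebra P K
  haveI : IsScalarTower ℂ (FractionRing P) K := by
    refine IsScalarTower.of_algebraMap_eq fun c => ?_
    rw [IsScalarTower.algebraMap_apply ℂ P K, IsScalarTower.algebraMap_apply P (FractionRing P) K,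
      ← IsScalarTower.algebraMap_apply ℂ P (FractionRing P)]
  haveI hFK : Algebra.IsAlgebraic (FractionRing P) K :=
    ⟨fun x => (IsFractionRing.isAlgebraic_iff P (FractionRing P) K).1 (alg.isAlgebraic x)⟩
  have hfin : FiniteDimensional (FractionRing P) K := by
    have h1 : FiniteDimensional (FractionRing P)
        (IntermediateField.adjoin (FractionRing P) (T : Set K)) :=
      IntermediateField.finiteDimensional_adjoin fun x _ => (hFK.isAlgebraic x).isIntegral
    have h2 : IntermediateField.adjoin (FractionRing P) (T : Set K) = ⊤ := by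
      rw [eq_top_iff]
      intro a _
      have h3 : IntermediateField.adjoin ℂ (T : Set K) ≤
          (IntermediateField.adjoin (FractionRing P) (T : Set K)).restrictScalars ℂ := by
        rw [IntermediateField.adjoin_le_iff]
        intro t ht
        exact IntermediateField.subset_adjoin (FractionRing P) (T : Set K) ht
      have h4 : a ∈ IntermediateField.adjoin ℂ (T : Set K) := by rw [hT]; trivial
      exact h3 h4
    rw [h2] at h1
    exact Module.Finite.equiv
      (IntermediateField.topEquiv (F := FractionRing P) (E := K)).toLinearEquiv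
  haveI : CharZero (FractionRing P) := inferInstance
  haveI : Algebra.IsSeparable (FractionRing P) K := inferInstance
  haveI h5 : Module.Finite P (integralClosure P K) :=
    IsIntegralClosure.finite P (FractionRing P) K (integralClosure P K)
  haveI h6 : Algebra.FiniteType P (integralClosure P K) := inferInstance
  haveI : IsScalarTower ℂ P (integralClosure P K) := inferInstance
  have h7 : Algebra.FiniteType ℂ (integralClosure P K) :=
    Algebra.FiniteType.trans (S := P) inferInstance inferInstance
  obtain ⟨S, hS⟩ := h7
  refine ⟨S.image (fun z : integralClosure P K => (z : K)), fun a => ?_⟩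
  have h8 : Algebra.adjoin ℂ ((S.image (fun z : integralClosure P K => (z : K)) : Finset K) : Set K)
      = ((integralClosure P K).restrictScalars ℂ) := by
    have h9 : ((integralClosure P K).val.restrictScalars ℂ).range =
        (integralClosure P K).restrictScalars ℂ := by
      ext z
      constructor
      · rintro ⟨w, rfl⟩
        exact w.2
      · intro hz
        exact ⟨⟨z, hz⟩, rfl⟩
    rw [← h9, ← Algebra.map_top, ← hS, AlgHom.map_adjoin, Finset.coe_image]
    rfl
  rw [h8]
  exact Iff.rfl

end FIN

theorem t_FIN : Stmt_FIN := by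
  intro K _ _ B hB hT halg
  haveI : Algebra.FiniteType ℂ B := (Subalgebra.fg_iff_finiteType B).1 hB
  obtain ⟨d, g, hg1, hg2⟩ := exists_integral_inj_algHom_of_fg ℂ B
  letI : Algebra (MvPolynomial (Fin d) ℂ) B := g.toRingHom.toAlgebra
  letI : Algebra (MvPolynomial (Fin d) ℂ) K := (B.val.comp g).toRingHom.toAlgebra
  haveI : IsScalarTower (MvPolynomial (Fin d) ℂ) B K := IsScalarTower.of_algebraMap_eq fun _ => rfl
  haveI : IsScalarTower ℂ (MvPolynomial (Fin d) ℂ) K :=
    IsScalarTower.of_algebraMap_eq fun c => ((B.val.comp g).commutes c).symm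
  haveI hint : Algebra.IsIntegral (MvPolynomial (Fin d) ℂ) B := ⟨hg2⟩
  haveI : FaithfulSMul (MvPolynomial (Fin d) ℂ) B :=
    (faithfulSMul_iff_algebraMap_injective _ _).2 hg1
  haveI : FaithfulSMul (MvPolynomial (Fin d) ℂ) K :=
    (faithfulSMul_iff_algebraMap_injective _ _).2 (Subtype.val_injective.comp hg1)
  haveI : Algebra.IsAlgebraic B K := ⟨halg⟩
  have halg' : Algebra.IsAlgebraic (MvPolynomial (Fin d) ℂ) K :=
    Algebra.IsAlgebraic.trans (MvPolynomial (Fin d) ℂ) B K
  obtain ⟨T, h⟩ := FIN.core (P := MvPolynomial (Fin d) ℂ) halg' hT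
  refine ⟨T, fun a => ?_⟩
  rw [← h a]
  constructor
  · intro ha
    exact isIntegral_trans a ha
  · intro ha
    exact ha.tower_top

end

end MMCI
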