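import Pool.Agent.MMCI.StC
import Pool.Agent.MldGeo.PRF

/-!
# FNC: a curve is not contracted by the monomials
-/

namespace MMCI

open MldGeo MvPolynomial

noncomputable section

namespace FNC

variable {n : ℕ} {K : Type} [Field K] [Algebra ℂ K]

omit [Algebra ℂ K] in
theorem mono_ne {x : (Fin n → ℤ) → K} (hM : Mono x) (u : Fin n → ℤ) : x u ≠ 0 := by
  intro h
  have h1 := hM.add u (-u)
  rw [h, zero_mul, add_neg_cancel, hM.zero] at h1
  exact one_ne_zero h1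

omit [Algebra ℂ K] in
theorem mono_nsmul {x : (Fin n → ℤ) → K} (hM : Mono x) (k : ℕ) (u : Fin n → ℤ) :
    x (k • u) = x u ^ k := by
  induction k with
  | zero => rw [zero_nsmul, pow_zero, hM.zero]
  | succ k ih => rw [succ_nsmul, hM.add, ih, pow_succ]

omit [Algebra ℂ K] in
theorem mono_sub {x : (Fin n → ℤ) → K} (hM : Mono x) (u w : Fin n → ℤ) :
    x (u - w) = x u / x w := by
  rw [eq_div_iff (mono_ne hM w), ← hM.add, sub_add_cancel]

section Restr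

variable {Y : ProjModel K} (γ : CurveMap Y)

theorem restr_sum (hRSU : Stmt_RSU) {ι : Type} (s : Finset ι) (f : ι → K) (g : ι → γ.L)
    (h : ∀ i ∈ s, γ.Restr (f i) (g i)) : γ.Restr (∑ i ∈ s, f i) (∑ i ∈ s, g i) := by
  classical
  induction s using Finset.induction_on with
  | empty =>
    rw [Finset.sum_empty, Finset.sum_empty]
    have h1 := (hRSU γ).2.2.2.2.2.1 0
    rwa [map_zero, map_zero] at h1
  | insert a s ha ih =>
    rw [Finset.sum_insert ha, Finset.sum_insert ha]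
    exact (hRSU γ).2.1 _ _ _ _ (h a (Finset.mem_insert_self a s))
      (ih fun i hi => h i (Finset.mem_insert_of_mem hi))

/-- if all elements of `B` restrict to constants then the restrictions of integral elements are
algebraic over the constants -/
theorem alg_of_integral (hRSU : Stmt_RSU) (B : Subalgebra ℂ K)
    (hB : ∀ b : K, b ∈ B → ∃ c : ℂ, γ.Restr b (algebraMap ℂ γ.L c)) (z : K) (u : γ.L)
    (hz : IsIntegral B z) (hu : γ.Restr z u) : IsAlgebraic ℂ u := by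
  obtain ⟨hun, hadd, hmul, -, hpow, hconst, -⟩ := hRSU γ
  obtain ⟨p, hp, hp0⟩ := hz
  choose ρ hρ using fun b : B => hB b b.2
  have h1 : γ.Restr 1 1 := by
    have := hconst 1
    rwa [map_one, map_one] at this
  have h0 : γ.Restr 0 0 := by
    have := hconst 0
    rwa [map_zero, map_zero] at this
  have hρ1 : ρ 1 = 1 := by
    have h2 : algebraMap ℂ γ.L (ρ 1) = 1 := hun 1 _ _ (by simpa using hρ 1) h1
    exact (algebraMap ℂ γ.L).injective (by rw [h2, map_one])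
  rw [Polynomial.eval₂_eq_sum_range] at hp0
  have h2 : γ.Restr (∑ i ∈ Finset.range (p.natDegree + 1), (algebraMap B K) (p.coeff i) * z ^ i)
      (∑ i ∈ Finset.range (p.natDegree + 1), algebraMap ℂ γ.L (ρ (p.coeff i)) * u ^ i) := by
    refine restr_sum γ hRSU _ _ _ fun i _ => ?_
    exact hmul _ _ _ _ (hρ _) (hpow _ _ _ hu)
  rw [hp0] at h2
  have h3 := hun _ _ _ h2 h0
  refine ⟨∑ i ∈ Finset.range (p.natDegree + 1),
    Polynomial.C (ρ (p.coeff i)) * Polynomial.X ^ i, ?_, ?_⟩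
  · intro hQ
    have h4 := congrArg (fun q => Polynomial.coeff q p.natDegree) hQ
    simp only [Polynomial.finsetSum_coeff, Polynomial.coeff_C_mul, Polynomial.coeff_X_pow,
      Polynomial.coeff_zero, mul_ite, mul_one, mul_zero] at h4
    rw [Finset.sum_ite_eq, if_pos (Finset.self_mem_range_succ _), hp.coeff_natDegree, hρ1] at h4
    exact one_ne_zero h4
  · simpa [map_sum, map_mul, map_pow] using h3

end Restr

end FNC

theorem t_FNC (hPTV : Stmt_PTV) (hRSU : Stmt_RSU) : Stmt_FNC := by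
  intro n K V _ _ _ _ x A k Y idx hM hC γ v₀ hcon
  obtain ⟨hun, hadd, hmul, -, hpow, hconst, hself⟩ := hRSU γ
  have hmem : ∀ j, Y.s j / Y.s γ.i ∈ Y.ring γ.i := fun j => Algebra.subset_adjoin ⟨j, rfl⟩
  obtain ⟨v, hv⟩ := hPTV x A k Y.s idx hM hC γ.i (RingHom.ker (γ.φ : Y.ring γ.i →+* γ.L))
    (RingHom.ker_isPrime _)
  have hv1 : γ.φ ⟨Y.s (idx v) / Y.s γ.i, hmem (idx v)⟩ ≠ 0 := by
    intro h
    exact hv (hmem (idx v)) (RingHom.mem_ker.2 h)
  have hsne := Y.ne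
  -- the quotient of two monomials
  have hq : ∀ w, Y.s (idx w) / Y.s (idx v₀) = x (A w - A v₀) ^ k := by
    intro w
    rw [hC.eq, hC.eq, FNC.mono_nsmul hM, FNC.mono_nsmul hM, FNC.mono_sub hM, div_pow]
  obtain ⟨cv, hcv⟩ := hcon v
  have hv0 : γ.φ ⟨Y.s (idx v₀) / Y.s γ.i, hmem (idx v₀)⟩ ≠ 0 := by
    intro h
    have h1 := hmul _ _ _ _ (hpow _ _ k hcv) (hself ⟨Y.s (idx v₀) / Y.s γ.i, hmem (idx v₀)⟩)
    have h2 : x (A v - A v₀) ^ k * (Y.s (idx v₀) / Y.s γ.i) = Y.s (idx v) / Y.s γ.i := by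
      rw [← hq v]
      have h3 := hsne (idx v₀)
      have h4 := hsne γ.i
      field_simp
    have h5 := hself ⟨Y.s (idx v) / Y.s γ.i, hmem (idx v)⟩
    have h6 : γ.Restr (x (A v - A v₀) ^ k * (Y.s (idx v₀) / Y.s γ.i))
      (γ.φ ⟨Y.s (idx v) / Y.s γ.i, hmem (idx v)⟩) := by
      rw [h2]; exact h5
    have h7 := hun _ _ _ h1 h6
    rw [h, mul_zero] at h7
    exact hv1 h7.symm
  -- the restrictions of `s j / s (idx v₀)`
  have hrj : ∀ j, γ.Restr (Y.s j / Y.s (idx v₀))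
      (γ.φ ⟨Y.s j / Y.s γ.i, hmem j⟩ / γ.φ ⟨Y.s (idx v₀) / Y.s γ.i, hmem (idx v₀)⟩) := by
    intro j
    refine ⟨⟨Y.s j / Y.s γ.i, hmem j⟩, ⟨Y.s (idx v₀) / Y.s γ.i, hmem (idx v₀)⟩, hv0, ?_, ?_⟩
    · have h3 := hsne (idx v₀)
      have h4 := hsne γ.i
      show Y.s j / Y.s (idx v₀) * (Y.s (idx v₀) / Y.s γ.i) = Y.s j / Y.s γ.i
      field_simp
    · exact div_mul_cancel₀ _ hv0
  -- the elements of the base ring restrict to constants
  have hB : ∀ b : K, b ∈ base x A v₀ → ∃ c : ℂ, γ.Restr b (algebraMap ℂ γ.L c) := by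
    intro b hb
    induction hb using Algebra.adjoin_induction with
    | mem y hy =>
      obtain ⟨w, rfl⟩ := hy
      exact hcon w
    | algebraMap c => exact ⟨c, hconst c⟩
    | add y z _ _ hy hz =>
      obtain ⟨c, hc⟩ := hy
      obtain ⟨d, hd⟩ := hz
      exact ⟨c + d, by rw [map_add]; exact hadd _ _ _ _ hc hd⟩
    | mul y z _ _ hy hz =>
      obtain ⟨c, hc⟩ := hy
      obtain ⟨d, hd⟩ := hz
      exact ⟨c * d, by rw [map_mul]; exact hmul _ _ _ _ hc hd⟩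
  have hcj : ∀ j, ∃ c : ℂ, γ.φ ⟨Y.s j / Y.s γ.i, hmem j⟩ /
      γ.φ ⟨Y.s (idx v₀) / Y.s γ.i, hmem (idx v₀)⟩ = algebraMap ℂ γ.L c := by
    intro j
    have h1 := hC.int j v₀
    rw [← hC.eq v₀] at h1
    exact PRF.const_of_alg (FNC.alg_of_integral γ hRSU _ hB _ _ h1 (hrj j))
  -- the denominator is a constant
  obtain ⟨ci, hci⟩ := hcj γ.i
  have hone : γ.φ ⟨Y.s γ.i / Y.s γ.i, hmem γ.i⟩ = 1 := by
    have : (⟨Y.s γ.i / Y.s γ.i, hmem γ.i⟩ : Y.ring γ.i) = 1 := by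
      apply Subtype.ext
      show Y.s γ.i / Y.s γ.i = 1
      exact div_self (hsne γ.i)
    rw [this, map_one]
  rw [hone] at hci
  have hden : γ.φ ⟨Y.s (idx v₀) / Y.s γ.i, hmem (idx v₀)⟩ = algebraMap ℂ γ.L ci⁻¹ := by
    rw [map_inv₀, ← hci, one_div, inv_inv]
  have hgen : ∀ j, ∃ c : ℂ, γ.φ ⟨Y.s j / Y.s γ.i, hmem j⟩ = algebraMap ℂ γ.L c := by
    intro j
    obtain ⟨c, hc⟩ := hcj j
    refine ⟨c * ci⁻¹, ?_⟩
    rw [map_mul, ← hc, ← hden, div_mul_cancel₀ _ hv0]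
  obtain ⟨a, ha⟩ := γ.nonconst
  apply ha
  have hall : ∀ (y : K) (hy : y ∈ Y.ring γ.i), γ.φ ⟨y, hy⟩ ∈ Set.range (algebraMap ℂ γ.L) := by
    intro y hy
    refine Algebra.adjoin_induction
      (p := fun y (hy : y ∈ Algebra.adjoin ℂ (Set.range fun j => Y.s j / Y.s γ.i)) =>
        γ.φ ⟨y, hy⟩ ∈ Set.range (algebraMap ℂ γ.L)) ?_ ?_ ?_ ?_ hy
    · rintro z ⟨j, rfl⟩
      obtain ⟨c, hc⟩ := hgen j
      exact ⟨c, hc.symm⟩
    · intro c
      refine ⟨c, ?_⟩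
      exact (γ.φ.commutes c).symm
    · rintro y z hy hz ⟨c, hc⟩ ⟨d, hd⟩
      refine ⟨c + d, ?_⟩
      rw [map_add, hc, hd, ← map_add]
      rfl
    · rintro y z hy hz ⟨c, hc⟩ ⟨d, hd⟩
      refine ⟨c * d, ?_⟩
      rw [map_mul, hc, hd, ← map_mul]
      rfl
  exact hall a a.2

end

end MMCI
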