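import Pool.Agent.MMCI.StC

/-!
# FRC: the rings of the charts are finitely generated with the field of fractions `K`
-/

set_option autoImplicit false

namespace MMCI

open MldGeo MvPolynomial

namespace FRC

variable {K : Type} [Field K] [Algebra ℂ K]

theorem adjoin_eq_top (Y : ProjModel K) (i : Fin (Y.N + 1)) :
    IntermediateField.adjoin ℂ (Set.range fun j => Y.s j / Y.s i) = ⊤ := by
  rw [eq_top_iff, ← Y.gen, IntermediateField.adjoin_le_iff]
  rintro _ ⟨j, rfl⟩
  have h1 : Y.s j / Y.s i ∈ IntermediateField.adjoin ℂ (Set.range fun j => Y.s j / Y.s i) :=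
    IntermediateField.subset_adjoin _ _ ⟨j, rfl⟩
  have h2 : Y.s 0 / Y.s i ∈ IntermediateField.adjoin ℂ (Set.range fun j => Y.s j / Y.s i) :=
    IntermediateField.subset_adjoin _ _ ⟨0, rfl⟩
  have h3 : Y.s j / Y.s 0 = (Y.s j / Y.s i) / (Y.s 0 / Y.s i) := by
    have hi := Y.ne i
    have h0 := Y.ne 0
    field_simp
  show Y.s j / Y.s 0 ∈ IntermediateField.adjoin ℂ (Set.range fun j => Y.s j / Y.s i)
  rw [h3]
  exact div_mem h1 h2

end FRC

theorem t_FRC : Stmt_FRC := by
  intro K _ _ Y i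
  refine ⟨Subalgebra.fg_def.2 ⟨_, Set.finite_range _, rfl⟩, ?_⟩
  intro a
  have ha : a ∈ IntermediateField.adjoin ℂ (Set.range fun j => Y.s j / Y.s i) := by
    rw [FRC.adjoin_eq_top]
    trivial
  obtain ⟨r, hr, q, hq, h⟩ := IntermediateField.mem_adjoin_iff_div.1 ha
  by_cases hq0 : q = 0
  · refine ⟨0, zero_mem _, 1, one_mem _, one_ne_zero, ?_⟩
    rw [h, hq0]
    simp
  · refine ⟨r, hr, q, hq, hq0, ?_⟩
    rw [h]
    field_simp

end MMCI
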