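import Pool.Agent.MMCI.StC
import Pool.Agent.MldGeo.Ord

/-!
# MP_fa3f7f_ag, MMCI, block C: the hypotheses on monomials
-/

set_option autoImplicit false

namespace MMCI

open MldGeo

namespace FUL

variable {n : ℕ} {K : Type} [Field K] [Algebra ℂ K]

theorem mono {x : Fin n → K} (hx : ∀ j, x j ≠ 0) : Mono (mon x) := by
  constructor
  · simp [mon]
  · intro u v
    unfold mon
    rw [← Finset.prod_mul_distrib]
    exact Finset.prod_congr rfl fun i _ => by rw [Pi.add_apply, zpow_add₀ (hx i)]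

theorem mon_ne {x : Fin n → K} (hx : ∀ j, x j ≠ 0) (m : Fin n → ℤ) : mon x m ≠ 0 :=
  Finset.prod_ne_zero_iff.2 fun i _ => zpow_ne_zero _ (hx i)

theorem mon_single (x : Fin n → K) (j : Fin n) : mon x (Pi.single j 1) = x j := by
  classical
  unfold mon
  rw [Finset.prod_eq_single j]
  · simp
  · intro i _ hi
    simp [Pi.single_eq_of_ne hi]
  · intro h
    exact absurd (Finset.mem_univ j) h

theorem adjoin_le {x : Fin n → K} (hx : ∀ j, x j ≠ 0) {a : K}
    (ha : a ∈ Algebra.adjoin ℂ (Set.range x)) : a ∈ Submodule.span ℂ (Set.range (mon x)) := by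
  have h1 : a ∈ Subalgebra.toSubmodule (Algebra.adjoin ℂ (Set.range x)) := ha
  rw [Algebra.adjoin_eq_span] at h1
  refine Submodule.span_mono ?_ h1
  intro y hy
  induction hy using Submonoid.closure_induction with
  | mem y hy =>
    obtain ⟨j, rfl⟩ := hy
    exact ⟨Pi.single j 1, mon_single x j⟩
  | one => exact ⟨0, (mono hx).zero⟩
  | mul y z _ _ hy hz =>
    obtain ⟨u, rfl⟩ := hy
    obtain ⟨v, rfl⟩ := hz
    exact ⟨u + v, (mono hx).add u v⟩

theorem mfrac {x : Fin n → K} (hx : ∀ j, x j ≠ 0)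
    (h : IntermediateField.adjoin ℂ (Set.range x) = ⊤) : MFrac (mon x) := by
  intro a
  have ha : a ∈ IntermediateField.adjoin ℂ (Set.range x) := by
    rw [h]; exact IntermediateField.mem_top
  rw [IntermediateField.mem_adjoin_iff_div] at ha
  obtain ⟨r, hr, s, hs, hrs⟩ := ha
  by_cases h0 : s = 0
  · refine ⟨0, Submodule.zero_mem _, 1, ?_, one_ne_zero, ?_⟩
    · rw [← (mono hx).zero]
      exact Submodule.subset_span ⟨0, rfl⟩
    · rw [hrs, h0, div_zero, zero_mul]
  · refine ⟨r, adjoin_le hx hr, s, adjoin_le hx hs, h0, ?_⟩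
    rw [hrs, div_mul_cancel₀ _ h0]

theorem full {A : Finset (Fin n → ℤ)} (hA : A.Nonempty)
    (h : ∀ a ∈ A, ∃ b : Fin n → (Fin n → ℤ), (∀ l, b l ∈ A) ∧
      LinearIndependent ℤ fun l => b l - a) :
    Full (fun a : {a // a ∈ A} => (a : Fin n → ℤ)) := by
  intro u
  obtain ⟨a, ha⟩ := hA
  obtain ⟨b, hb, hli⟩ := h a ha
  set B : Matrix (Fin n) (Fin n) ℤ := fun l => b l - a with hB
  have hdet : B.det ≠ 0 := by
    intro h0
    obtain ⟨v, hv, hv0⟩ := Matrix.exists_vecMul_eq_zero_iff.2 h0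
    apply hv
    rw [Fintype.linearIndependent_iff] at hli
    funext l
    refine hli v ?_ l
    rw [← hv0, Matrix.vecMul_eq_sum]
  refine ⟨B.det.natAbs, Int.natAbs_pos.2 hdet, ?_⟩
  set H := AddSubgroup.closure {w : Fin n → ℤ | ∃ v v' : {a // a ∈ A},
    w = (v' : Fin n → ℤ) - (v : Fin n → ℤ)} with hH
  have h1 : B.det • u ∈ H := by
    have h2 : B.det • u = Matrix.vecMul (Matrix.vecMul u B.adjugate) B := by
      rw [Matrix.vecMul_vecMul, Matrix.adjugate_mul, Matrix.vecMul_smul, Matrix.vecMul_one]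
    rw [h2, Matrix.vecMul_eq_sum]
    refine AddSubgroup.sum_mem _ fun l _ => AddSubgroup.zsmul_mem _ ?_ _
    exact AddSubgroup.subset_closure ⟨⟨a, ha⟩, ⟨b l, hb l⟩, rfl⟩
  rcases Int.natAbs_eq B.det with h2 | h2
  · rw [h2, natCast_zsmul] at h1
    exact h1
  · rw [h2, neg_smul, natCast_zsmul] at h1
    exact neg_mem_iff.1 h1

end FUL

theorem t_FUL : Stmt_FUL := by
  intro n K _ _ x hx
  refine ⟨FUL.mono hx, FUL.mfrac hx, ?_, fun A hA h => FUL.full hA h⟩
  intro e v m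
  refine ⟨FUL.mon_ne hx m, ?_⟩
  unfold mon pair wt
  rw [v.ord_prod _ _ (fun i _ => zpow_ne_zero _ (hx i))]
  exact Finset.sum_congr rfl fun i _ => by rw [v.ord_zpow]; ring

end MMCI
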