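import Pool.Agent.MMCI.StmtsC0

/-!
# HOM: homogenization of the elements which are integral over the ring of a chart
-/

namespace MMCI

open MldGeo MvPolynomial

namespace HOM

variable {n : ℕ} {K : Type} [Field K] [Algebra ℂ K] {V : Type}

lemma x_nsmul {x : (Fin n → ℤ) → K} (hx : Mono x) (w : Fin n → ℤ) (k : ℕ) :
    x (k • w) = x w ^ k := by
  induction k with
  | zero => rw [zero_smul, pow_zero]; exact hx.zero
  | succ k ih => rw [succ_nsmul, hx.add, ih, pow_succ]

lemma gen_mem (x : (Fin n → ℤ) → K) (A : V → Fin n → ℤ) (v v' : V) :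
    x (A v' - A v) ∈ base x A v :=
  Algebra.subset_adjoin ⟨v', rfl⟩

/-- elements of one chart ring are elements of another one after multiplication by a power -/
lemma exists_mul_mem {x : (Fin n → ℤ) → K} (hx : Mono x) (A : V → Fin n → ℤ) (v v' : V) {c : K}
    (hc : c ∈ base x A v) : ∃ d : ℕ, ∀ k, d ≤ k → c * x (A v - A v') ^ k ∈ base x A v' := by
  have hy : x (A v - A v') ∈ base x A v' := gen_mem x A v' v
  induction hc using Algebra.adjoin_induction with
  | mem c hc =>
    obtain ⟨u, rfl⟩ := hc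
    refine ⟨1, fun k hk => ?_⟩
    obtain ⟨k, rfl⟩ := Nat.exists_eq_add_of_le hk
    have e : x (A u - A v) * x (A v - A v') = x (A u - A v') := by
      rw [← hx.add]
      congr 1
      abel
    have e2 : x (A u - A v) * x (A v - A v') ^ (1 + k) =
        x (A u - A v') * x (A v - A v') ^ k := by
      rw [pow_add, pow_one, ← mul_assoc, e]
    show x (A u - A v) * x (A v - A v') ^ (1 + k) ∈ base x A v'
    rw [e2]
    exact mul_mem (gen_mem x A v' u) (pow_mem hy k)
  | algebraMap r =>
    exact ⟨0, fun k _ => mul_mem ((base x A v').algebraMap_mem r) (pow_mem hy k)⟩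
  | add a b _ _ ha hb =>
    obtain ⟨d1, h1⟩ := ha
    obtain ⟨d2, h2⟩ := hb
    refine ⟨max d1 d2, fun k hk => ?_⟩
    rw [add_mul]
    exact add_mem (h1 k (le_trans (le_max_left _ _) hk)) (h2 k (le_trans (le_max_right _ _) hk))
  | mul a b _ _ ha hb =>
    obtain ⟨d1, h1⟩ := ha
    obtain ⟨d2, h2⟩ := hb
    refine ⟨d1 + d2, fun k hk => ?_⟩
    have e : a * b * x (A v - A v') ^ k =
        (a * x (A v - A v') ^ d1) * (b * x (A v - A v') ^ (k - d1)) := by
      have : k = d1 + (k - d1) := by omega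
      conv_lhs => rw [this, pow_add]
      ring
    rw [e]
    exact mul_mem (h1 d1 le_rfl) (h2 _ (by omega))

/-- multiplication of an integral element by a denominator of the coefficients -/
lemma integral_mul (S T : Subalgebra ℂ K) (b y : K) (hy : y ∈ T) (p : Polynomial S)
    (hp : p.Monic) (hb : Polynomial.eval₂ (algebraMap S K) b p = 0)
    (hc : ∀ i < p.natDegree, ((p.coeff i : S) : K) * y ∈ T) : IsIntegral T (b * y) := by
  classical
  set m := p.natDegree with hm
  have hmem : ∀ i : Fin m, ((p.coeff i : S) : K) * y ^ (m - (i : ℕ)) ∈ T := by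
    intro i
    have e : ((p.coeff i : S) : K) * y ^ (m - (i : ℕ)) =
        (((p.coeff i : S) : K) * y) * y ^ (m - (i : ℕ) - 1) := by
      have h1 : m - (i : ℕ) = 1 + (m - (i : ℕ) - 1) := by have := i.2; omega
      conv_lhs => rw [h1, pow_add, pow_one]
      ring
    rw [e]
    exact mul_mem (hc i i.2) (pow_mem hy _)
  let q : Polynomial T := Polynomial.X ^ m +
    ∑ i : Fin m, Polynomial.C (⟨_, hmem i⟩ : T) * Polynomial.X ^ (i : ℕ)
  have hq : q.Monic := Polynomial.monic_X_pow_add (Polynomial.degree_sum_fin_lt _)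
  refine ⟨q, hq, ?_⟩
  have e1 : Polynomial.eval₂ (algebraMap T K) (b * y) q =
      (b * y) ^ m + ∑ i : Fin m, ((p.coeff i : S) : K) * y ^ (m - (i : ℕ)) * (b * y) ^ (i : ℕ) := by
    simp only [q, Polynomial.eval₂_add, Polynomial.eval₂_X_pow, Polynomial.eval₂_finset_sum,
      Polynomial.eval₂_mul, Polynomial.eval₂_C]
    rfl
  have e2 : Polynomial.eval₂ (algebraMap S K) b p =
      b ^ m + ∑ i : Fin m, ((p.coeff i : S) : K) * b ^ (i : ℕ) := by
    rw [Polynomial.eval₂_eq_sum_range, Finset.sum_range_succ, ← hm]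
    have h1 : algebraMap S K (p.coeff m) = 1 := by
      rw [hm, Polynomial.Monic.coeff_natDegree hp, map_one]
    rw [h1, one_mul, add_comm, Finset.sum_range]
    rfl
  rw [e1]
  have e3 : (b * y) ^ m + ∑ i : Fin m, ((p.coeff i : S) : K) * y ^ (m - (i : ℕ)) *
      (b * y) ^ (i : ℕ) = y ^ m * (b ^ m + ∑ i : Fin m, ((p.coeff i : S) : K) * b ^ (i : ℕ)) := by
    rw [mul_add, Finset.mul_sum]
    congr 1
    · rw [mul_pow, mul_comm]
    · refine Finset.sum_congr rfl fun i _ => ?_
      have h1 : y ^ m = y ^ (m - (i : ℕ)) * y ^ (i : ℕ) := by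
        rw [← pow_add]
        congr 1
        have := i.2
        omega
      rw [h1, mul_pow]
      ring
  rw [e3, ← e2, hb, mul_zero]

end HOM

open HOM in
theorem t_HOM : Stmt_HOM := by
  intro n K V _ _ _ x A hx v b hb
  obtain ⟨p, hp, hpb⟩ := hb
  have key : ∀ v' : V, ∃ d : ℕ, ∀ k, d ≤ k → IsIntegral (base x A v') (b * x (k • (A v - A v'))) := by
    intro v'
    have h1 : ∀ i : Fin p.natDegree, ∃ d : ℕ, ∀ k, d ≤ k →
        ((p.coeff i : base x A v) : K) * x (A v - A v') ^ k ∈ base x A v' := fun i =>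
      exists_mul_mem hx A v v' (p.coeff i).2
    choose d hd using h1
    obtain ⟨D, hD⟩ := Finite.exists_le d
    refine ⟨D, fun k hk => ?_⟩
    rw [x_nsmul hx]
    refine integral_mul (base x A v) (base x A v') b _ (pow_mem (gen_mem x A v' v) k) p hp hpb ?_
    intro i hi
    exact hd ⟨i, hi⟩ k (le_trans (hD ⟨i, hi⟩) hk)
  choose d hd using key
  obtain ⟨D, hD⟩ := Finite.exists_le d
  exact ⟨D, fun k hk v' => hd v' k (le_trans (hD v') hk)⟩

end MMCI
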