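import Pool.Agent.MMCI.StC
import Pool.Agent.MldGeo.LOC

/-!
# MP_fa3f7f_ag, MMCI, module LCM (helper83): a function which is regular along all prime divisors
through a point is regular at the point
-/

namespace MMCI

open MldGeo

noncomputable section

theorem t_LCM (hFRC : Stmt_FRC) : Stmt_LCM := by
  intro e K _ _ Y htr hn i m hm z hz
  let X : Germ e :=
    { K := K
      fieldK := inferInstance
      algK := inferInstance
      R := Y.ring i
      fg := (hFRC Y i).1
      frac := (hFRC Y i).2
      normal := hn i
      trdeg := htr
      m := m
      max := hm }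
  obtain ⟨r, s, hs, h⟩ := MldGeo.t_LOC MldGeo.t_DIV X z (fun v P hP h => hz v P h hP)
  exact ⟨r, s, hs, h⟩

end

end MMCI
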