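import Pool.Agent.MMCI.StmtsC0

/-!
# MMCI, module LOV: elements of one chart in terms of another chart
-/

set_option autoImplicit false

namespace MMCI

namespace LOV

lemma mono {K : Type} [Field K] [Algebra ℂ K] (R : Subalgebra ℂ K) (c : K) (hc : c ∈ R) (b : K)
    (d e : ℕ) (h : d ≤ e) (hb : b * c ^ d ∈ R) : b * c ^ e ∈ R := by
  have h1 : b * c ^ e = b * c ^ d * c ^ (e - d) := by
    rw [mul_assoc, ← pow_add, Nat.add_sub_cancel' h]
  rw [h1]
  exact R.mul_mem hb (R.pow_mem hc _)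

end LOV

theorem t_LOV : Stmt_LOV := by
  intro N K _ _ s hs i j b hb
  have hc : s i / s j ∈ affRing s j := Algebra.subset_adjoin ⟨i, rfl⟩
  unfold affRing at hb
  induction hb using Algebra.adjoin_induction with
  | mem x hx =>
    obtain ⟨l, rfl⟩ := hx
    refine ⟨1, ?_⟩
    have h1 : s l / s i * (s i / s j) ^ 1 = s l / s j := by
      field_simp [hs i, hs j]
    rw [h1]
    exact Algebra.subset_adjoin ⟨l, rfl⟩
  | algebraMap r =>
    refine ⟨0, ?_⟩
    rw [pow_zero, mul_one]
    exact (affRing s j).algebraMap_mem r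
  | add x y hx hy h1 h2 =>
    obtain ⟨d, hd⟩ := h1
    obtain ⟨e, he⟩ := h2
    refine ⟨max d e, ?_⟩
    rw [add_mul]
    exact (affRing s j).add_mem (LOV.mono _ _ hc _ _ _ (le_max_left d e) hd)
      (LOV.mono _ _ hc _ _ _ (le_max_right d e) he)
  | mul x y hx hy h1 h2 =>
    obtain ⟨d, hd⟩ := h1
    obtain ⟨e, he⟩ := h2
    refine ⟨d + e, ?_⟩
    have h3 : x * y * (s i / s j) ^ (d + e) = x * (s i / s j) ^ d * (y * (s i / s j) ^ e) := by
      rw [pow_add]; ring
    rw [h3]
    exact (affRing s j).mul_mem hd he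

end MMCI
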