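import Pool.Agent.MMCI.StC

/-! # MOD: the projective model -/

namespace MMCI

open MldGeo

theorem MODL.affRing_le {N : ℕ} {K : Type} [Field K] [Algebra ℂ K] (s : Fin (N + 1) → K) :
    ∀ a ∈ affRing s 0, a ∈ IntermediateField.adjoin ℂ (Set.range fun j => s j / s 0) := by
  intro a ha
  exact IntermediateField.algebra_adjoin_le_adjoin ℂ _ ha

theorem t_MOD (hFUL : Stmt_FUL) (hCRD : Stmt_CRD) (hNRM : Stmt_NRM) (hPTA : Stmt_PTA)
    (hFNC : Stmt_FNC) : S_MOD := by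
  intro e n K _ _ x hx hgen hdim he A hA hb
  obtain ⟨hM, hF, hord, hfull⟩ := hFUL x hx
  have hF := hF hgen
  have hfull := hfull A hA hb
  have : Nonempty {a // a ∈ A} := by
    obtain ⟨a, ha⟩ := hA
    exact ⟨⟨a, ha⟩⟩
  obtain ⟨k, N, s, idx, hC⟩ := hCRD (mon x) (fun a : {a // a ∈ A} => (a : Fin n → ℤ)) hM hF hfull
  have hN := hNRM (mon x) (fun a : {a // a ∈ A} => (a : Fin n → ℤ)) k s idx hM hF hfull hC
  have hgenY : IntermediateField.adjoin ℂ (Set.range fun j => s j / s 0) = ⊤ := by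
    rw [eq_top_iff]
    intro a _
    obtain ⟨r, hr, q, hq, hq0, e1⟩ := (hN 0).2 a
    have h1 := MODL.affRing_le s r hr
    have h2 := MODL.affRing_le s q hq
    have h3 : a = r / q := by
      rw [eq_div_iff hq0]
      exact e1
    rw [h3]
    exact div_mem h1 h2
  refine ⟨⟨N, s, hC.ne, hgenY⟩, ?_, ?_, ?_⟩
  · intro i a ha
    exact (hN i).1 a ha
  · intro i m hm
    obtain ⟨v₀, h0⟩ := hPTA (mon x) (fun a : {a // a ∈ A} => (a : Fin n → ℤ)) k s idx hM hC hN
      hdim he i m hm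
    refine ⟨v₀, v₀.2, ?_⟩
    intro v P hv hP
    obtain ⟨h1, h2⟩ := h0 v P hv hP
    refine ⟨⟨v₀.2, ?_⟩, ?_⟩
    · intro b hb
      have h3 := h1 ⟨b, hb⟩
      rw [(hord v _).2] at h3
      have h4 : pair (wt x v) (b - (v₀ : Fin n → ℤ)) =
          pair (wt x v) b - pair (wt x v) (v₀ : Fin n → ℤ) := by
        unfold pair
        rw [← Finset.sum_sub_distrib]
        refine Finset.sum_congr rfl fun i _ => ?_
        rw [Pi.sub_apply, mul_sub]
      change 0 ≤ pair (wt x v) (b - (v₀ : Fin n → ℤ)) at h3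
      rw [h4] at h3
      omega
    · refine h2.trans ?_
      constructor
      · rintro ⟨c, hc⟩
        exact ⟨fun l => (c l : Fin n → ℤ), fun l => (c l).2, hc⟩
      · rintro ⟨b, hb, hc⟩
        exact ⟨fun l => ⟨b l, hb l⟩, hc⟩
  · intro γ a ha hcon
    refine hFNC (mon x) (fun a : {a // a ∈ A} => (a : Fin n → ℤ)) k
      (⟨N, s, hC.ne, hgenY⟩ : ProjModel K) idx hM hC γ ⟨a, ha⟩ ?_
    rintro ⟨b, hb⟩
    exact hcon b hb

end MMCI
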