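import Pool.Agent.MMCI.StC

/-! # NEF: semiample implies nef -/

namespace MMCI

open MldGeo

theorem t_NEF (_hCUR : Stmt_CUR) (hRSU : Stmt_RSU) (hRGW : Stmt_RGW) (hLCM : Stmt_LCM)
    (hCMP : Stmt_CMP) : S_NEF := by
  classical
  intro e K _ _ Y hdim he hnorm hsemi ω hω γ k h g u hk hE
  obtain ⟨k', N, H, hk', hH0, hH1, hH2⟩ := hsemi ω hω
  -- the generating section at a point
  have hl : ∀ i (m : Ideal (Y.ring i)), ∃ l : Option (Fin N), m.IsMaximal → ∃ l', l = some l' ∧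
      ∀ (v : DivVal e K) (P : Ideal (Y.ring i)), IsPrimeDivisor (Y.ring i) v P → P ≤ m →
        v.ord (H l') + k' * v.formOrd ω = 0 := by
    intro i m
    by_cases hm : m.IsMaximal
    · obtain ⟨l, hl⟩ := hH2 i m hm
      exact ⟨some l, fun _ => ⟨l, rfl, hl⟩⟩
    · exact ⟨none, fun h => absurd h hm⟩
  choose l hl using hl
  let E : ∀ i, Ideal (Y.ring i) → K := fun i m => ((l i m).elim 1 H)⁻¹
  let S : Finset K := insert 1 (Finset.univ.image fun l => (H l)⁻¹)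
  have hES : ∀ i m, m.IsMaximal → E i m ≠ 0 ∧ E i m ∈ S ∧ IsEquation (Y.ring i) ω k' m (E i m) := by
    intro i m hm
    obtain ⟨l', h1, h2⟩ := hl i m hm
    have hEq : E i m = (H l')⁻¹ := by
      simp only [E, h1, Option.elim]
    rw [hEq]
    refine ⟨inv_ne_zero (hH0 l'), ?_, ?_⟩
    · exact Finset.mem_insert_of_mem (Finset.mem_image.2 ⟨l', Finset.mem_univ _, rfl⟩)
    · intro v P hv hP
      rw [DivVal.ord_inv]
      have := h2 v P hv hP
      omega
  obtain ⟨w₀, i, m, U, h1, h2, h3, h4, h5⟩ := hCMP Y hdim hnorm ω k' E S hk' hES γ k h g u hk hE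
  refine ⟨h3, ?_⟩
  have hU : ∀ w : DivVal 1 γ.L, 0 ≤ w.ord (U w) := by
    intro w
    obtain ⟨l', e1, e2⟩ := hl (i w) (m w) (h1 w).1
    obtain ⟨l0, f1, f2⟩ := hl (i w₀) (m w₀) (h1 w₀).1
    have hEw : E (i w) (m w) = (H l')⁻¹ := by simp only [E, e1, Option.elim]
    have hE0 : E (i w₀) (m w₀) = (H l0)⁻¹ := by simp only [E, f1, Option.elim]
    obtain ⟨p, q, hq, hpq⟩ := hLCM Y hdim hnorm (i w) (m w) (h1 w).1
      (E (i w) (m w) / E (i w₀) (m w₀)) (by
        intro v P hv hP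
        rw [hEw, hE0]
        refine Or.inr ?_
        rw [DivVal.ord_div (v := v) (inv_ne_zero (hH0 l')) (inv_ne_zero (hH0 l0)),
          DivVal.ord_inv, DivVal.ord_inv]
        have g1 := e2 v P hv hP
        have g2 := hH1 l0 (i w) v P hv
        omega)
    obtain ⟨u', hu', hu'', -⟩ := hRGW γ w (i w) (m w) (h1 w) _ p q hq hpq
    have := (hRSU γ).1 _ _ _ (h2 w).2 hu'
    rw [this]
    exact hu''.le (by rw [← this]; exact (h2 w).1)
  have h6 : 0 ≤ ∑ᶠ w : DivVal 1 γ.L, w.ord (U w) := finsum_nonneg hU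
  have h7 : 0 ≤ (k' : ℤ) * ∑ᶠ w : DivVal 1 γ.L, w.ord (u w) := by
    rw [h5]
    exact mul_nonneg (by positivity) h6
  have h8 : (0 : ℤ) < k' := by exact_mod_cast hk'
  exact nonneg_of_mul_nonneg_right h7 h8

end MMCI
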