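import Pool.Agent.MMCI.StmtsC0

/-!
# MMCI, module NRM: the charts are integrally closed and have the field of fractions `K`
-/

set_option autoImplicit false

namespace MMCI

namespace NRM

open Polynomial

variable {K : Type} [Field K] [Algebra ℂ K]

/-- Integrality over a smaller subring whose elements are integral over `B`. -/
lemma int_trans (B R : Subalgebra ℂ K) (h : ∀ b ∈ R, IsIntegral B b) (a : K)
    (ha : IsIntegral R a) : IsIntegral B a := by
  have h1 : IsIntegral (integralClosure B K) a := by
    let φ : R →+* integralClosure B K :=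
      (algebraMap R K).codRestrict (integralClosure B K).toSubring (fun r => h r.1 r.2)
    have h2 := IsIntegral.map_of_comp_eq φ (RingHom.id K) (by ext r; rfl) ha
    simpa using h2
  exact isIntegral_trans a h1

/-- A root of a monic polynomial with coefficients in `R` is integral over `R`. -/
lemma int_of_poly (R : Subalgebra ℂ K) (q : K[X]) (hq : q.Monic) (hc : ∀ i, q.coeff i ∈ R) (a : K)
    (ha : q.eval a = 0) : IsIntegral R a := by
  have hl : q ∈ Polynomial.lifts (algebraMap R K) := by
    rw [Polynomial.lifts_iff_coeff_lifts]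
    intro n
    exact ⟨⟨q.coeff n, hc n⟩, rfl⟩
  obtain ⟨p, hp, -, hm⟩ := Polynomial.lifts_and_natDegree_eq_and_monic hl hq
  refine ⟨p, hm, ?_⟩
  rw [Polynomial.eval₂_eq_eval_map, hp, ha]

/-- If all elements of `S` times a power of `u` lie in `R`, then an integral element times a power
of `u` is integral over `R`. -/
lemma int_scale (S R : Subalgebra ℂ K) (u : K) (hu : u ∈ R)
    (h : ∀ b ∈ S, ∃ d : ℕ, b * u ^ d ∈ R) (a : K) (ha : IsIntegral S a) :
    ∃ D : ℕ, IsIntegral R (u ^ D * a) := by
  obtain ⟨p, hm, hp⟩ := ha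
  have h1 : ∀ i : ℕ, ∃ d : ℕ, ((p.coeff i : S) : K) * u ^ d ∈ R := fun i => h _ (p.coeff i).2
  choose d hd using h1
  let D := (Finset.range (p.natDegree + 1)).sup d
  have hD : ∀ i, i ≤ p.natDegree → ((p.coeff i : S) : K) * u ^ D ∈ R := by
    intro i hi
    have h2 : d i ≤ D := Finset.le_sup (f := d) (Finset.mem_range.2 (Nat.lt_succ_of_le hi))
    have h3 : ((p.coeff i : S) : K) * u ^ D = ((p.coeff i : S) : K) * u ^ d i * u ^ (D - d i) := by
      rw [mul_assoc, ← pow_add, Nat.add_sub_cancel' h2]
    rw [h3]
    exact R.mul_mem (hd i) (R.pow_mem hu _)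
  refine ⟨D, ?_⟩
  have hpm : (p.map (algebraMap S K)).Monic := hm.map _
  have hdeg : (p.map (algebraMap S K)).natDegree = p.natDegree := hm.natDegree_map _
  refine int_of_poly R ((p.map (algebraMap S K)).scaleRoots (u ^ D)) ?_ ?_ _ ?_
  · exact (Polynomial.monic_scaleRoots_iff _).2 hpm
  · intro i
    rw [Polynomial.coeff_scaleRoots, hdeg, Polynomial.coeff_map]
    rcases lt_trichotomy i p.natDegree with hi | hi | hi
    · obtain ⟨e, he⟩ : ∃ e, p.natDegree - i = e + 1 := ⟨p.natDegree - i - 1, by omega⟩
      rw [he, pow_succ', ← mul_assoc]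
      exact R.mul_mem (hD i hi.le) (R.pow_mem (R.pow_mem hu _) _)
    · subst hi
      rw [Nat.sub_self, pow_zero, mul_one, hm.coeff_natDegree, map_one]
      exact R.one_mem
    · rw [Polynomial.coeff_eq_zero_of_natDegree_lt hi, map_zero, zero_mul]
      exact R.zero_mem
  · rw [Polynomial.scaleRoots_eval_mul, ← Polynomial.eval₂_eq_eval_map, hp, mul_zero]

end NRM

theorem t_NRM (hPTV : Stmt_PTV) (hLOV : Stmt_LOV) (hFGF : Stmt_FGF) : Stmt_NRM := by
  intro n N K V _ _ _ _ x A k s idx hx hF hA hs j
  have hbase : ∀ v, ∀ b ∈ base x A v, b ∈ affRing s (idx v) := fun v b hb =>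
    hs.gen v b (isIntegral_algebraMap (R := base x A v) (x := ⟨b, hb⟩))
  have hgen : ∀ i l : Fin (N + 1), s l / s i ∈ affRing s i := fun i l =>
    Algebra.subset_adjoin ⟨l, rfl⟩
  have hint : ∀ v, ∀ b ∈ affRing s (idx v), IsIntegral (base x A v) b := by
    intro v b hb
    unfold affRing at hb
    induction hb using Algebra.adjoin_induction with
    | mem y hy =>
      obtain ⟨l, rfl⟩ := hy
      have := hs.int l v
      rwa [← hs.eq v] at this
    | algebraMap r =>
      exact isIntegral_algebraMap (R := base x A v) (x := algebraMap ℂ (base x A v) r)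
    | add y z _ _ h1 h2 => exact h1.add h2
    | mul y z _ _ h1 h2 => exact h1.mul h2
  have hnv : ∀ v, ∀ a : K, IsIntegral (affRing s (idx v)) a → a ∈ affRing s (idx v) :=
    fun v a ha => hs.gen v a (NRM.int_trans _ _ (hint v) a ha)
  refine ⟨?_, ?_⟩
  · intro a ha
    by_contra hcon
    let I : Ideal (affRing s j) :=
      { carrier := {q | (q : K) * a ∈ affRing s j}
        add_mem' := by
          intro p q hp hq
          show ((p + q : affRing s j) : K) * a ∈ affRing s j
          rw [show ((p + q : affRing s j) : K) = (p : K) + q from rfl, add_mul]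
          exact (affRing s j).add_mem hp hq
        zero_mem' := by
          show ((0 : affRing s j) : K) * a ∈ affRing s j
          rw [show ((0 : affRing s j) : K) = 0 from rfl, zero_mul]
          exact (affRing s j).zero_mem
        smul_mem' := by
          intro c q hq
          show ((c * q : affRing s j) : K) * a ∈ affRing s j
          rw [show ((c * q : affRing s j) : K) = (c : K) * q from rfl, mul_assoc]
          exact (affRing s j).mul_mem c.2 hq }
    have hI : I ≠ ⊤ := by
      intro h
      have h1 : (1 : affRing s j) ∈ I := h ▸ Submodule.mem_top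
      have h2 : ((1 : affRing s j) : K) * a ∈ affRing s j := h1
      rw [show ((1 : affRing s j) : K) = 1 from rfl, one_mul] at h2
      exact hcon h2
    obtain ⟨P, hPm, hIP⟩ := Ideal.exists_le_maximal I hI
    obtain ⟨v, hv⟩ := hPTV x A k s idx hx hs j P hPm.isPrime
    have htj : s (idx v) / s j ∈ affRing s j := hgen j (idx v)
    have huv : s j / s (idx v) ∈ affRing s (idx v) := hgen (idx v) j
    have hut : s j / s (idx v) * (s (idx v) / s j) = 1 := by
      field_simp [hs.ne j, hs.ne (idx v)]
    obtain ⟨D, hD⟩ := NRM.int_scale (affRing s j) (affRing s (idx v)) (s j / s (idx v)) huv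
      (fun b hb => hLOV s hs.ne j (idx v) b hb) a ha
    obtain ⟨d, hd⟩ := hLOV s hs.ne (idx v) j _ (hnv v _ hD)
    have h3 : (s (idx v) / s j) ^ d * a ∈ affRing s j := by
      have h4 : (s (idx v) / s j) ^ d * a =
          (s j / s (idx v)) ^ D * a * (s (idx v) / s j) ^ d * (s (idx v) / s j) ^ D := by
        have h5 : (s j / s (idx v)) ^ D * (s (idx v) / s j) ^ D = 1 := by
          rw [← mul_pow, hut, one_pow]
        calc (s (idx v) / s j) ^ d * a
            = (s j / s (idx v)) ^ D * (s (idx v) / s j) ^ D * ((s (idx v) / s j) ^ d * a) := by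
              rw [h5, one_mul]
          _ = _ := by ring
      rw [h4]
      exact (affRing s j).mul_mem hd ((affRing s j).pow_mem htj _)
    have h6 : (⟨s (idx v) / s j, htj⟩ : affRing s j) ^ d ∈ P := by
      apply hIP
      show (((⟨s (idx v) / s j, htj⟩ : affRing s j) ^ d : affRing s j) : K) * a ∈ affRing s j
      exact h3
    exact hv htj (hPm.isPrime.mem_of_pow_mem d h6)
  · intro a
    obtain ⟨v⟩ := ‹Nonempty V›
    obtain ⟨q, hq0, hq⟩ := (((hFGF x A hx hF hA).2 v).2 a).exists_integral_multiple
    have h1 : (q : K) * a ∈ affRing s (idx v) := hs.gen v _ hq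
    have h2 : (q : K) ∈ affRing s (idx v) := hbase v _ q.2
    obtain ⟨d, hd⟩ := hLOV s hs.ne (idx v) j _ h1
    obtain ⟨e, he⟩ := hLOV s hs.ne (idx v) j _ h2
    have htj : s (idx v) / s j ∈ affRing s j := hgen j (idx v)
    have ht0 : s (idx v) / s j ≠ 0 := div_ne_zero (hs.ne _) (hs.ne _)
    refine ⟨(q : K) * a * (s (idx v) / s j) ^ d * (s (idx v) / s j) ^ e,
      (affRing s j).mul_mem hd ((affRing s j).pow_mem htj _),
      (q : K) * (s (idx v) / s j) ^ e * (s (idx v) / s j) ^ d,
      (affRing s j).mul_mem he ((affRing s j).pow_mem htj _), ?_, by ring⟩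
    have hq1 : (q : K) ≠ 0 := by
      intro h
      exact hq0 (Subtype.ext h)
    exact mul_ne_zero (mul_ne_zero hq1 (pow_ne_zero _ ht0)) (pow_ne_zero _ ht0)

end MMCI
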