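import Pool.Agent.MMCI.StC
import Pool.Agent.MldGeo.Ord
import Pool.Agent.MldGeo.HT1

/-!
# The points of the charts of the projective model
-/

namespace MMCI

open MldGeo MvPolynomial

noncomputable section

namespace PTA

variable {n N : ℕ} {K V : Type} [Field K] [Algebra ℂ K]

theorem gen_mem (s : Fin (N + 1) → K) (i j : Fin (N + 1)) : s j / s i ∈ affRing s i :=
  Algebra.subset_adjoin ⟨j, rfl⟩

theorem aff_fg (s : Fin (N + 1) → K) (i : Fin (N + 1)) : (affRing s i).FG := by
  classical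
  refine ⟨(Set.finite_range fun j => s j / s i).toFinset, ?_⟩
  rw [Set.Finite.coe_toFinset]
  rfl

/-- the ring of the chart of `v` is integral over the ring of monomials -/
theorem aff_int {x : (Fin n → ℤ) → K} {A : V → Fin n → ℤ} {k : ℕ} {s : Fin (N + 1) → K}
    {idx : V → Fin (N + 1)} (hC : Coords x A k s idx) (v : V) (b : K)
    (hb : b ∈ affRing s (idx v)) : IsIntegral (base x A v) b := by
  have h1 : affRing s (idx v) ≤ (integralClosure (base x A v) K).restrictScalars ℂ := by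
    refine Algebra.adjoin_le ?_
    rintro _ ⟨j, rfl⟩
    show s j / s (idx v) ∈ integralClosure (base x A v) K
    rw [mem_integralClosure_iff, hC.eq v]
    exact hC.int j v
  exact h1 hb

theorem mon_mem {x : (Fin n → ℤ) → K} {A : V → Fin n → ℤ} {k : ℕ} {s : Fin (N + 1) → K}
    {idx : V → Fin (N + 1)} (hC : Coords x A k s idx) (v v' : V) :
    x (A v' - A v) ∈ affRing s (idx v) := by
  refine hC.gen v _ ?_
  have h1 : x (A v' - A v) ∈ base x A v := Algebra.subset_adjoin ⟨v', rfl⟩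
  exact isIntegral_algebraMap (x := (⟨_, h1⟩ : base x A v))

/-- two elements of a chart with a common power of the quotient of coordinates -/
theorem common (hLOV : Stmt_LOV) (s : Fin (N + 1) → K) (hs : ∀ j, s j ≠ 0) (i j : Fin (N + 1))
    (r q : K) (hr : r ∈ affRing s i) (hq : q ∈ affRing s i) :
    ∃ d : ℕ, r * (s i / s j) ^ d ∈ affRing s j ∧ q * (s i / s j) ^ d ∈ affRing s j := by
  obtain ⟨d1, h1⟩ := hLOV s hs i j r hr
  obtain ⟨d2, h2⟩ := hLOV s hs i j q hq
  have h3 : s i / s j ∈ affRing s j := gen_mem s j i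
  refine ⟨d1 + d2, ?_, ?_⟩
  · rw [pow_add, ← mul_assoc]
    exact mul_mem h1 (pow_mem h3 d2)
  · rw [pow_add, mul_comm ((s i / s j) ^ d1), ← mul_assoc]
    exact mul_mem h2 (pow_mem h3 d1)

/-- the order of elements which are not in the centre -/
theorem ord_zero_of {e : ℕ} {R : Subalgebra ℂ K} {w : DivVal e K} {P : Ideal R}
    (h : HasCentre R w P) (q : R) (hq : q ∉ P) : (q : K) ≠ 0 ∧ w.ord (q : K) = 0 := by
  have h1 : ¬ (q = 0 ∨ 0 < w.ord (q : K)) := fun h2 => hq ((h.2.2 q).2 h2)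
  rw [not_or] at h1
  refine ⟨fun h2 => h1.1 (by exact_mod_cast h2), ?_⟩
  have h3 := h.2.1 q
  omega

end PTA

open PTA in
theorem t_PTA (hPTV : Stmt_PTV) (hLOV : Stmt_LOV) (hCRT : Stmt_CRT) (hRSI : Stmt_RSI) :
    Stmt_PTA := by
  intro e n N K V _ _ _ _ x A k s idx hx hC hN htr he i m hm
  have hs := hC.ne
  obtain ⟨v₀, hv₀⟩ := hPTV x A k s idx hx hC i m hm.isPrime
  refine ⟨v₀, fun w P hP hPm => ?_⟩
  -- the quotients of the coordinates
  have ht := gen_mem s i (idx v₀)
  have hu := gen_mem s (idx v₀) i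
  have ht0 : s (idx v₀) / s i ≠ 0 := div_ne_zero (hs _) (hs _)
  have hu0 : s i / s (idx v₀) ≠ 0 := div_ne_zero (hs _) (hs _)
  have htP : (⟨s (idx v₀) / s i, ht⟩ : affRing s i) ∉ P := fun h => hv₀ ht (hPm h)
  have hto : w.ord (s (idx v₀) / s i) = 0 := (ord_zero_of hP _ htP).2
  have huo : w.ord (s i / s (idx v₀)) = 0 := by
    rw [DivVal.ord_div w (hs _) (hs _)]
    rw [DivVal.ord_div w (hs _) (hs _)] at hto
    omega
  -- the orders of the elements of the chart of `v₀`
  have hS : ∀ b ∈ affRing s (idx v₀), 0 ≤ w.ord b := by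
    intro b hb
    by_cases hb0 : b = 0
    · rw [hb0, w.ord_zero]
    obtain ⟨d, hd⟩ := hLOV s hs (idx v₀) i b hb
    have h1 := hP.2.1 ⟨_, hd⟩
    have h2 : w.ord (b * (s (idx v₀) / s i) ^ d) = w.ord b := by
      rw [w.ord_mul _ _ hb0 (pow_ne_zero _ ht0), DivVal.ord_pow, hto]
      ring
    have h3 : 0 ≤ w.ord (b * (s (idx v₀) / s i) ^ d) := h1
    rwa [h2] at h3
  have hR1 := hCRT (affRing s i) (aff_fg s i) (hN i).2 (hN i).1 htr w P hP
  refine ⟨fun v => hS _ (mon_mem hC v₀ v), ?_, ?_⟩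
  · intro hh
    have h1 := hR1.1 hh
    refine hRSI w (fun v => x (A v - A v₀)) (fun v => Or.inr (hS _ (mon_mem hC v₀ v))) ?_
    intro a ha
    obtain ⟨r, q, hq, haq⟩ := h1 a ha
    obtain ⟨hq0, hqo⟩ := ord_zero_of hP q hq
    obtain ⟨d, hd1, hd2⟩ := common hLOV s hs i (idx v₀) r q r.2 q.2
    refine ⟨_, _, aff_int hC v₀ _ hd1, aff_int hC v₀ _ hd2, mul_ne_zero hq0 (pow_ne_zero _ hu0),
      ?_, ?_⟩
    · rw [w.ord_mul _ _ hq0 (pow_ne_zero _ hu0), DivVal.ord_pow, hqo, huo]
      ring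
    · rw [← haq]
      ring
  · rintro ⟨c, hc⟩
    refine hR1.2 ?_
    intro a ha
    -- the germ
    obtain ⟨m', hm'⟩ := Ideal.exists_maximal (affRing s (idx v₀))
    let X : Germ e :=
      { K := K
        fieldK := inferInstance
        algK := inferInstance
        R := affRing s (idx v₀)
        fg := aff_fg s (idx v₀)
        frac := (hN (idx v₀)).2
        normal := (hN (idx v₀)).1
        trdeg := htr
        m := m'
        max := hm' }
    have h1 := t_HT1 X w he (fun b => hS _ b.2)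
      ⟨fun l => ⟨x (A (c l) - A v₀), mon_mem hC v₀ (c l)⟩, fun p hp => ?_⟩
    · obtain ⟨P', hP'1, hP'2, hP'3, hP'4⟩ := h1
      have hP' : HasCentre (affRing s (idx v₀)) w P' := ⟨hP'1, hP'3, hP'4⟩
      have h2 := (hCRT (affRing s (idx v₀)) (aff_fg s _) (hN _).2 (hN _).1 htr w P' hP').1 hP'2
      obtain ⟨r, q, hq, haq⟩ := h2 a ha
      obtain ⟨hq0, hqo⟩ := ord_zero_of hP' q hq
      obtain ⟨d, hd1, hd2⟩ := common hLOV s hs (idx v₀) i r q r.2 q.2
      refine ⟨⟨_, hd1⟩, ⟨_, hd2⟩, ?_, ?_⟩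
      · intro h3
        have h4 := (hP.2.2 _).1 h3
        rcases h4 with h4 | h4
        · have h5 : (q : K) * (s (idx v₀) / s i) ^ d = 0 := congrArg Subtype.val h4
          exact mul_ne_zero hq0 (pow_ne_zero _ ht0) h5
        · have h5 : 0 < w.ord ((q : K) * (s (idx v₀) / s i) ^ d) := h4
          rw [w.ord_mul _ _ hq0 (pow_ne_zero _ ht0), DivVal.ord_pow, hqo, hto] at h5
          simp at h5
      · show a * ((q : K) * (s (idx v₀) / s i) ^ d) = (r : K) * (s (idx v₀) / s i) ^ d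
        rw [← haq]
        ring
    · have h2 := hc p hp
      have h3 : (((aeval (fun l => (⟨x (A (c l) - A v₀), mon_mem hC v₀ (c l)⟩ :
          affRing s (idx v₀))) p : affRing s (idx v₀))) : K) =
          aeval (fun l => x (A (c l) - A v₀)) p :=
        MvPolynomial.comp_aeval_apply _ (affRing s (idx v₀)).val p
      refine ⟨fun h4 => h2.1 ?_, ?_⟩
      · rw [← h3]
        exact congrArg Subtype.val h4
      · show w.ord (((aeval (fun l => (⟨x (A (c l) - A v₀), mon_mem hC v₀ (c l)⟩ :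
          affRing s (idx v₀))) p : affRing s (idx v₀))) : K) = 0
        rw [h3]
        exact h2.2

end

end MMCI
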