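import Pool.Agent.MMCI.StmtsC0

/-! # PTV: at a point of the chart `s j ≠ 0` not all the `x^(k A v) / s j` vanish -/

namespace MMCI

namespace PTV

theorem mono_ne {n : ℕ} {K : Type} [Field K] {x : (Fin n → ℤ) → K} (hx : Mono x)
    (u : Fin n → ℤ) : x u ≠ 0 := by
  intro h
  have h1 := hx.add u (-u)
  rw [add_neg_cancel, hx.zero, h, zero_mul] at h1
  exact one_ne_zero h1

theorem mono_sub {n : ℕ} {K : Type} [Field K] {x : (Fin n → ℤ) → K} (hx : Mono x)
    (u w : Fin n → ℤ) : x (u - w) = x u / x w := by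
  rw [eq_div_iff (mono_ne hx w), ← hx.add, sub_add_cancel]

end PTV

theorem t_PTV : Stmt_PTV := by
  intro n N K V _ _ _ _ x A k s idx hx hC j P hP
  -- the valuation ring
  let I : Ideal (affRing s j).toSubring := P
  have hI : I ≠ ⊤ := hP.ne_top
  obtain ⟨O, hO, hI2⟩ := Ideal.image_subset_nonunits_valuationSubring I hI
  have hO' : ∀ a ∈ affRing s j, a ∈ O := fun a ha => hO ha
  obtain ⟨v₀, hv₀⟩ := Finite.exists_max fun v => O.valuation (x (A v))
  refine ⟨v₀, ?_⟩
  intro h hmem
  -- the base ring is contained in `O`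
  have hbase : ∀ b ∈ base x A v₀, b ∈ O := by
    intro b hb
    have h1 : (base x A v₀ : Set K) ⊆ O := by
      have h2 : ∀ c : ℂ, algebraMap ℂ K c ∈ O := fun c =>
        hO' _ ((affRing s j).algebraMap_mem c)
      intro b hb
      induction hb using Algebra.adjoin_induction with
      | mem b hb =>
        obtain ⟨v', rfl⟩ := hb
        change x (A v' - A v₀) ∈ O
        rw [← O.valuation_le_one_iff, PTV.mono_sub hx, map_div₀]
        exact div_le_one_of_le₀ (hv₀ v') zero_le
      | algebraMap c => exact h2 c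
      | add a b _ _ ha hb => exact add_mem ha hb
      | mul a b _ _ ha hb => exact mul_mem ha hb
    exact h1 hb
  -- `s j / s (idx v₀)` is in `O`
  have hint : s j / x (k • A v₀) ∈ O := by
    obtain ⟨p, hp, hp0⟩ := hC.int j v₀
    have h1 : IsIntegral O (s j / x (k • A v₀)) := by
      let φ : base x A v₀ →+* O :=
        { toFun := fun b => ⟨b, hbase b b.2⟩
          map_one' := rfl
          map_mul' := fun _ _ => rfl
          map_zero' := rfl
          map_add' := fun _ _ => rfl }
      refine ⟨p.map φ, hp.map φ, ?_⟩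
      rw [Polynomial.eval₂_map]
      exact hp0
    obtain ⟨y, hy⟩ := IsIntegrallyClosed.isIntegral_iff.1 h1
    rw [← hy]
    exact y.2
  have h3 : s (idx v₀) / s j ∈ O.nonunits := by
    refine hI2 ⟨⟨s (idx v₀) / s j, h⟩, hmem, rfl⟩
  rw [ValuationSubring.mem_nonunits_iff] at h3
  rw [← hC.eq v₀, ← O.valuation_le_one_iff] at hint
  have h4 : O.valuation (s (idx v₀) / s j) * O.valuation (s j / s (idx v₀)) = 1 := by
    rw [← map_mul, div_mul_div_cancel₀ (hC.ne j), div_self (hC.ne _), map_one]
  have h5 : O.valuation (s (idx v₀) / s j) * O.valuation (s j / s (idx v₀)) < 1 :=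
    mul_lt_one_of_lt_of_le h3 hint
  rw [h4] at h5
  exact lt_irrefl _ h5

end MMCI
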