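import Pool.Agent.MMCI.StC

/-!
# MMCI, module RSU: the restriction to the curve is a homomorphism
-/

namespace MMCI

namespace RSU

variable {K : Type} [Field K] [Algebra ℂ K] {Y : ProjModel K} (γ : CurveMap Y)

theorem unique {z : K} {u u' : γ.L} (h : γ.Restr z u) (h' : γ.Restr z u') : u = u' := by
  obtain ⟨a, b, hb, hz, hu⟩ := h
  obtain ⟨a', b', hb', hz', hu'⟩ := h'
  have e1 : a * b' = a' * b := by
    apply Subtype.ext
    simp only [MulMemClass.coe_mul]
    rw [← hz, ← hz']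
    ring
  have e2 : γ.φ a * γ.φ b' = γ.φ a' * γ.φ b := by rw [← map_mul, e1, map_mul]
  rw [← hu, ← hu'] at e2
  have e3 : (u - u') * (γ.φ b * γ.φ b') = 0 := by linear_combination e2
  rcases mul_eq_zero.1 e3 with h | h
  · exact sub_eq_zero.1 h
  · exact absurd h (mul_ne_zero hb hb')

theorem add {z z' : K} {u u' : γ.L} (h : γ.Restr z u) (h' : γ.Restr z' u') :
    γ.Restr (z + z') (u + u') := by
  obtain ⟨a, b, hb, hz, hu⟩ := h
  obtain ⟨a', b', hb', hz', hu'⟩ := h'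
  refine ⟨a * b' + a' * b, b * b', ?_, ?_, ?_⟩
  · rw [map_mul]
    exact mul_ne_zero hb hb'
  · simp only [MulMemClass.coe_mul, AddMemClass.coe_add]
    rw [← hz, ← hz']
    ring
  · rw [map_add, map_mul, map_mul, map_mul, ← hu, ← hu']
    ring

theorem mul {z z' : K} {u u' : γ.L} (h : γ.Restr z u) (h' : γ.Restr z' u') :
    γ.Restr (z * z') (u * u') := by
  obtain ⟨a, b, hb, hz, hu⟩ := h
  obtain ⟨a', b', hb', hz', hu'⟩ := h'
  refine ⟨a * a', b * b', ?_, ?_, ?_⟩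
  · rw [map_mul]
    exact mul_ne_zero hb hb'
  · simp only [MulMemClass.coe_mul]
    rw [← hz, ← hz']
    ring
  · rw [map_mul, map_mul, ← hu, ← hu']
    ring

theorem coe (a : Y.ring γ.i) : γ.Restr a (γ.φ a) :=
  ⟨a, 1, by rw [map_one]; exact one_ne_zero, by simp, by rw [map_one, mul_one]⟩

theorem const (c : ℂ) : γ.Restr (algebraMap ℂ K c) (algebraMap ℂ γ.L c) := by
  have h := coe γ (algebraMap ℂ (Y.ring γ.i) c)
  rw [AlgHom.commutes] at h
  exact h

theorem pow {z : K} {u : γ.L} (h : γ.Restr z u) (k : ℕ) : γ.Restr (z ^ k) (u ^ k) := by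
  induction k with
  | zero =>
    have h1 := const γ 1
    rw [map_one, map_one] at h1
    rw [pow_zero, pow_zero]
    exact h1
  | succ k ih =>
    rw [pow_succ, pow_succ]
    exact mul γ ih h

theorem inv {z : K} {u : γ.L} (h : γ.Restr z u) (hu0 : u ≠ 0) : z ≠ 0 ∧ γ.Restr z⁻¹ u⁻¹ := by
  obtain ⟨a, b, hb, hz, hu⟩ := h
  have ha : γ.φ a ≠ 0 := by
    rw [← hu]
    exact mul_ne_zero hu0 hb
  have hz0 : z ≠ 0 := by
    rintro rfl
    rw [zero_mul] at hz
    have : a = 0 := Subtype.ext hz.symm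
    rw [this, map_zero] at ha
    exact ha rfl
  refine ⟨hz0, b, a, ha, ?_, ?_⟩
  · rw [← hz, inv_mul_cancel_left₀ hz0]
  · rw [← hu, inv_mul_cancel_left₀ hu0]

theorem zpow {z : K} {u : γ.L} (h : γ.Restr z u) (hu0 : u ≠ 0) (k : ℤ) :
    γ.Restr (z ^ k) (u ^ k) := by
  obtain ⟨n, rfl | rfl⟩ := k.eq_nat_or_neg
  · rw [zpow_natCast, zpow_natCast]
    exact pow γ h n
  · rw [zpow_neg, zpow_neg, zpow_natCast, zpow_natCast, ← inv_pow, ← inv_pow]
    exact pow γ (inv γ h hu0).2 n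

end RSU

theorem t_RSU : Stmt_RSU := by
  intro K _ _ Y γ
  exact ⟨fun z u u' h h' => RSU.unique γ h h', fun z z' u u' h h' => RSU.add γ h h',
    fun z z' u u' h h' => RSU.mul γ h h',
    fun z u h hu => ⟨(RSU.inv γ h hu).1, fun k => RSU.zpow γ h hu k⟩,
    fun z u k h => RSU.pow γ h k, RSU.const γ, RSU.coe γ⟩

end MMCI
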