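import Pool.Agent.MMCI.FGF
import Pool.Agent.MMCI.FIN
import Pool.Agent.MMCI.HOM
import Pool.Agent.MMCI.CRD
import Pool.Agent.MMCI.PTV
import Pool.Agent.MMCI.LOV
import Pool.Agent.MMCI.NRM
import Pool.Agent.MMCI.EXR
import Pool.Agent.MMCI.CRV
import Pool.Agent.MMCI.FUL
import Pool.Agent.MMCI.FRC
import Pool.Agent.MMCI.CRT
import Pool.Agent.MMCI.PTA
import Pool.Agent.MMCI.FNC
import Pool.Agent.MMCI.CUR
import Pool.Agent.MMCI.RSU
import Pool.Agent.MMCI.RGW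
import Pool.Agent.MMCI.LCM
import Pool.Agent.MMCI.CMP
import Pool.Agent.MMCI.FBM
import Pool.Agent.MMCI.FBN
import Pool.Agent.MMCI.CHW
import Pool.Agent.MMCI.NEF
import Pool.Agent.MMCI.MODL
import Pool.Agent.MMCI.FIB
import Pool.Agent.MldGeo.PRF
import Pool.Agent.MldGeo.DEG

/-!
# MP_fa3f7f_ag, MMCI, blocks C and D: the statements used by the assembly
-/

namespace MMCI

/-- The projective model exists. -/
theorem S_MOD_holds : S_MOD :=
  t_MOD t_FUL (t_CRD t_FGF t_FIN t_HOM) (t_NRM t_PTV t_LOV t_FGF)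
    (t_PTA t_PTV t_LOV t_CRT t_RSI) (t_FNC t_PTV t_RSU)

theorem PRF_holds : MldGeo.Stmt_PRF := MldGeo.t_PRF MldGeo.t_DEG

theorem LCM_holds : Stmt_LCM := t_LCM t_FRC

theorem RGW_holds : Stmt_RGW := t_RGW t_RSU

theorem CMP_holds : Stmt_CMP := t_CMP t_CUR t_RSU RGW_holds LCM_holds PRF_holds

/-- Semiample implies nef. -/
theorem S_NEF_holds : S_NEF := t_NEF t_CUR t_RSU RGW_holds LCM_holds CMP_holds

/-- The Mori fibre space. -/
theorem S_FIB_holds : S_FIB :=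
  t_FIB (t_FBM LCM_holds t_FUL)
    (t_FBN t_CUR t_RSU RGW_holds LCM_holds CMP_holds t_CHW t_FUL PRF_holds)

end MMCI
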