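import Pool.Agent.MMCI.StB
import Pool.Agent.MldGeo.Ord

/-!
# MON: monomials and values of Laurent polynomials
-/

namespace MMCI

open MldGeo MldGeo.DivVal

noncomputable section

namespace MON

variable {e n : ℕ} {K : Type} [Field K] [Algebra ℂ K]

theorem mon_ne {x : Fin n → K} (hx : ∀ j, x j ≠ 0) (m : Fin n → ℤ) : mon x m ≠ 0 :=
  Finset.prod_ne_zero_iff.2 fun i _ => zpow_ne_zero _ (hx i)

theorem mon_add {x : Fin n → K} (hx : ∀ j, x j ≠ 0) (m m' : Fin n → ℤ) :
    mon x (m + m') = mon x m * mon x m' := by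
  unfold mon
  rw [← Finset.prod_mul_distrib]
  exact Finset.prod_congr rfl fun i _ => by rw [Pi.add_apply, zpow_add₀ (hx i)]

theorem dlog_one : dlog (1 : K) = 0 := by
  unfold dlog
  rw [Derivation.map_one_eq_zero, smul_zero]

theorem dlog_mul {a b : K} (ha : a ≠ 0) (hb : b ≠ 0) : dlog (a * b) = dlog a + dlog b := by
  unfold dlog
  rw [Derivation.leibniz, smul_add, smul_smul, smul_smul, mul_inv_rev, add_comm]
  congr 1
  · congr 1
    field_simp
  · congr 1
    field_simp

theorem dlog_inv {a : K} (ha : a ≠ 0) : dlog a⁻¹ = - dlog a := by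
  have h := dlog_mul ha (inv_ne_zero ha)
  rw [mul_inv_cancel₀ ha, dlog_one] at h
  exact (neg_eq_of_add_eq_zero_right h.symm).symm

theorem dlog_pow {a : K} (ha : a ≠ 0) (k : ℕ) : dlog (a ^ k) = (k : K) • dlog a := by
  induction k with
  | zero => simp [dlog_one]
  | succ k ih =>
    rw [pow_succ, dlog_mul (pow_ne_zero _ ha) ha, ih]
    push_cast
    rw [add_smul, one_smul]

theorem dlog_zpow {a : K} (ha : a ≠ 0) (k : ℤ) : dlog (a ^ k) = (k : K) • dlog a := by
  rcases k with k | k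
  · simpa using dlog_pow ha k
  · rw [zpow_negSucc, dlog_inv (pow_ne_zero _ ha), dlog_pow ha, Int.negSucc_eq]
    push_cast
    rw [neg_smul]

theorem dlog_prod {ι : Type*} (s : Finset ι) (a : ι → K) (h : ∀ i ∈ s, a i ≠ 0) :
    dlog (∏ i ∈ s, a i) = ∑ i ∈ s, dlog (a i) := by
  classical
  induction s using Finset.induction_on with
  | empty => simp [dlog_one]
  | insert b s hb ih =>
    rw [Finset.prod_insert hb, Finset.sum_insert hb, dlog_mul (h b (Finset.mem_insert_self b s))
      (Finset.prod_ne_zero_iff.2 fun i hi => h i (Finset.mem_insert_of_mem hi)),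
      ih fun i hi => h i (Finset.mem_insert_of_mem hi)]

theorem dlog_mon {x : Fin n → K} (hx : ∀ j, x j ≠ 0) (m : Fin n → ℤ) :
    dlog (mon x m) = ∑ j, (m j : K) • dlog (x j) := by
  unfold mon
  rw [dlog_prod _ _ fun i _ => zpow_ne_zero _ (hx i)]
  exact Finset.sum_congr rfl fun i _ => dlog_zpow (hx i) _

theorem D_eq {a : K} (ha : a ≠ 0) : KaehlerDifferential.D ℂ K a = a • dlog a := by
  unfold dlog
  rw [smul_smul, mul_inv_cancel₀ ha, one_smul]

theorem D_ev {x : Fin n → K} (hx : ∀ j, x j ≠ 0) (f : Laurent n) :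
    KaehlerDifferential.D ℂ K (ev x f) = ∑ j, grad x f j • dlog (x j) := by
  have h1 : ∀ m ∈ f.coeff.support, KaehlerDifferential.D ℂ K (algebraMap ℂ K (f.coeff m) * mon x m)
      = ∑ j, (algebraMap ℂ K (f.coeff m) * (m j : K) * mon x m) • dlog (x j) := by
    intro m _
    rw [Derivation.leibniz, Derivation.map_algebraMap, smul_zero, add_zero, D_eq (mon_ne hx m),
      dlog_mon hx, smul_smul, Finset.smul_sum]
    refine Finset.sum_congr rfl fun j _ => ?_
    rw [smul_smul]
    congr 1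
    ring
  unfold ev grad Finsupp.sum
  rw [map_sum, Finset.sum_congr rfl h1, Finset.sum_comm]
  exact Finset.sum_congr rfl fun j _ => (Finset.sum_smul).symm

theorem ord_mon {x : Fin n → K} (hx : ∀ j, x j ≠ 0) (v : DivVal e K) (m : Fin n → ℤ) :
    v.ord (mon x m) = pair (wt x v) m := by
  unfold mon pair wt
  rw [ord_prod v _ _ fun i _ => zpow_ne_zero _ (hx i)]
  refine Finset.sum_congr rfl fun i _ => ?_
  rw [ord_zpow, mul_comm]

theorem minOn_le (f : Laurent n) (ν : Fin n → ℤ) {m : Fin n → ℤ} (hm : m ∈ f.coeff.support) :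
    minOn f ν ≤ pair ν m := by
  have hfin : ((fun m => pair ν m) '' (f.coeff.support : Set (Fin n → ℤ))).Finite :=
    f.coeff.support.finite_toSet.image _
  exact csInf_le hfin.bddBelow ⟨m, hm, rfl⟩

theorem ge_mon {x : Fin n → K} (hx : ∀ j, x j ≠ 0) (v : DivVal e K) {m : Fin n → ℤ} {k : ℤ}
    (h : k ≤ pair (wt x v) m) {a : K} (ha : v.Ge 0 a) : v.Ge k (a * mon x m) :=
  ha.mul_left (Ge.of_le (by rw [ord_mon hx]; exact h))

theorem ge_ev {x : Fin n → K} (hx : ∀ j, x j ≠ 0) (v : DivVal e K) (f : Laurent n) :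
    v.Ge (minOn f (wt x v)) (ev x f) :=
  Ge.sum _ _ fun m hm => ge_mon hx v (minOn_le f _ hm) (Ge.const v _)

theorem ge_grad {x : Fin n → K} (hx : ∀ j, x j ≠ 0) (v : DivVal e K) (f : Laurent n) (j : Fin n) :
    v.Ge (minOn f (wt x v)) (grad x f j) :=
  Ge.sum _ _ fun m hm => ge_mon hx v (minOn_le f _ hm)
    ((Ge.const v _).mul_left (Ge.intCast v _))

theorem sum_grad (x : Fin n → K) (f : Laurent n) (ν : Fin n → ℤ) :
    ∑ j, (ν j : K) * grad x f j =
      ∑ m ∈ f.coeff.support, algebraMap ℂ K (f.coeff m) * ((pair ν m : ℤ) : K) * mon x m := by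
  unfold grad Finsupp.sum pair
  simp_rw [Finset.mul_sum]
  rw [Finset.sum_comm]
  refine Finset.sum_congr rfl fun m _ => ?_
  push_cast
  rw [Finset.mul_sum, Finset.sum_mul]
  exact Finset.sum_congr rfl fun j _ => by ring

theorem ge_last {x : Fin n → K} (hx : ∀ j, x j ≠ 0) (v : DivVal e K) (f : Laurent n)
    (ν : Fin n → ℤ) (c : ℤ) (h0 : ev x f = 0)
    (h : ∀ m ∈ f.coeff.support, pair (wt x v) m = minOn f (wt x v) → pair ν m = c) :
    v.Ge (minOn f (wt x v) + 1) (∑ j, (ν j : K) * grad x f j) := by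
  have h1 : ∑ j, (ν j : K) * grad x f j =
      ∑ m ∈ f.coeff.support, algebraMap ℂ K (f.coeff m) * ((pair ν m - c : ℤ) : K) * mon x m := by
    have h2 : (c : K) * ev x f = 0 := by rw [h0, mul_zero]
    have h3 : ∑ m ∈ f.coeff.support, (c : K) * (algebraMap ℂ K (f.coeff m) * mon x m) = 0 := by
      rw [← Finset.mul_sum]
      exact h2
    rw [sum_grad, ← sub_zero (∑ m ∈ f.coeff.support, _), ← h3, ← Finset.sum_sub_distrib]
    refine Finset.sum_congr rfl fun m _ => ?_
    push_cast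
    ring
  rw [h1]
  refine Ge.sum _ _ fun m hm => ?_
  by_cases hmin : pair (wt x v) m = minOn f (wt x v)
  · rw [h m hm hmin, sub_self, Int.cast_zero, mul_zero, zero_mul]
    exact Ge.zero v _
  · have h4 := minOn_le f (wt x v) hm
    exact ge_mon hx v (by omega) ((Ge.const v _).mul_left (Ge.intCast v _))

end MON

theorem t_MON : S_MON := by
  intro e n K _ _ x hx
  refine ⟨MON.mon_ne hx, MON.mon_add hx, MON.dlog_mon hx, ?_, ?_⟩
  · intro f hf
    rw [← MON.D_ev hx f, hf, map_zero]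
  · intro v
    exact ⟨MON.ord_mon hx v, MON.ge_ev hx v, MON.ge_grad hx v,
      fun f ν c h0 h => MON.ge_last hx v f ν c h0 h⟩

end

end MMCI
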