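import Mathlib

/-!
# MP_fa3f7f_ag: minimal models of complete intersections in tori

Definitions: projective varieties with a given function field, maps from curves; Laurent polynomials,
the order functions of their Newton polytopes, nondegeneracy. See also
`Pool/Agent/MMCI/DefsX.lean`.
-/

namespace MMCI

noncomputable section

variable {e : ℕ} {K : Type} [Field K] [Algebra ℂ K]

/-! ### projective varieties -/

/-- A projective variety `Y ⊆ ℙ^N` with the function field `K`, given by the homogeneous coordinates
of its generic point (the coordinates which vanish on `Y` are omitted). -/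
structure ProjModel (K : Type) [Field K] [Algebra ℂ K] where
  N : ℕ
  s : Fin (N + 1) → K
  ne : ∀ i, s i ≠ 0
  gen : IntermediateField.adjoin ℂ (Set.range fun j => s j / s 0) = ⊤

/-- The ring of regular functions of the affine open subset `s_i ≠ 0`. -/
def ProjModel.ring (Y : ProjModel K) (i : Fin (Y.N + 1)) : Subalgebra ℂ K :=
  Algebra.adjoin ℂ (Set.range fun j => Y.s j / Y.s i)

/-- A nonconstant morphism `B → Y` from a smooth projective curve `B` with the function field `L`
(for instance the normalisation of a curve on `Y`), given by the restriction of the regular functions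
of some chart. -/
structure CurveMap (Y : ProjModel K) where
  L : Type
  fieldL : Field L
  algL : Algebra ℂ L
  trdeg : Algebra.trdeg ℂ L = 1
  fg : (⊤ : IntermediateField ℂ L).FG
  i : Fin (Y.N + 1)
  φ : Y.ring i →ₐ[ℂ] L
  nonconst : ∃ a, φ a ∉ Set.range (algebraMap ℂ L)

attribute [instance] CurveMap.fieldL CurveMap.algL

variable {Y : ProjModel K}

/-- The rational function `z` on `Y` is regular at the generic point of the image of the curve, and
its restriction to the curve is `u`. -/
def CurveMap.Restr (γ : CurveMap Y) (z : K) (u : γ.L) : Prop :=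
  ∃ a b : Y.ring γ.i, γ.φ b ≠ 0 ∧ z * b = a ∧ u * γ.φ b = γ.φ a

/-- The curve lies in a fibre of the rational map `Y ⇢ ℙ^M` with the coordinates `t`. -/
def CurveMap.InFibre (γ : CurveMap Y) {M : ℕ} (t : Fin (M + 1) → K) : Prop :=
  ∃ j, ∀ l, ∃ c : ℂ, γ.Restr (t l / t j) (algebraMap ℂ γ.L c)

/-! ### Laurent polynomials -/

/-- Laurent polynomials in `n` variables. -/
abbrev Laurent (n : ℕ) : Type := AddMonoidAlgebra ℂ (Fin n → ℤ)

variable {n r : ℕ}

/-- The pairing of one-parameter subgroups and characters. -/
def pair (ν m : Fin n → ℤ) : ℤ := ∑ i, ν i * m i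

/-- The monomial `x^m`. -/
def mon {F : Type*} [Field F] (x : Fin n → F) (m : Fin n → ℤ) : F := ∏ i, x i ^ m i

/-- The value of a Laurent polynomial. -/
def ev {F : Type*} [Field F] [Algebra ℂ F] (x : Fin n → F) (f : Laurent n) : F :=
  f.coeff.sum fun m c => algebraMap ℂ F c * mon x m

/-- The value of `x_j ∂f/∂x_j`. -/
def grad {F : Type*} [Field F] [Algebra ℂ F] (x : Fin n → F) (f : Laurent n) (j : Fin n) : F :=
  f.coeff.sum fun m c => algebraMap ℂ F c * (m j : F) * mon x m

/-- The minimum of `ν` on the exponents of `f`, that is, on the Newton polytope. -/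
def minOn (f : Laurent n) (ν : Fin n → ℤ) : ℤ := sInf ((fun m => pair ν m) '' f.coeff.support)

/-- The initial form: the part of `f` on which `ν` is minimal. -/
def initForm (f : Laurent n) (ν : Fin n → ℤ) : Laurent n :=
  AddMonoidAlgebra.ofCoeff (f.coeff.filter fun m => pair ν m = minOn f ν)

/-- The system of the initial forms is nondegenerate in the sense of Khovanskii: it defines a smooth
subvariety of codimension `r` of the torus (or the empty set). For `ν = 0` this is `f` itself. -/
def Nondegenerate (f : Fin r → Laurent n) (ν : Fin n → ℤ) : Prop :=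
  ∀ p : Fin n → ℂ, (∀ i, p i ≠ 0) → (∀ i, ev p (initForm (f i) ν) = 0) →
    LinearIndependent ℂ fun i => grad p (initForm (f i) ν)

/-- `K` is the function field of an irreducible component `Z` of the nondegenerate complete
intersection `f_1 = … = f_r = 0` in the torus `(ℂ^*)^n`, `n = r + e`, `e = dim Z > 0`, and `x` is the
generic point of `Z`. -/
structure IsNCI (e : ℕ) (f : Fin r → Laurent n) (x : Fin n → K) : Prop where
  dim_eq : n = r + e
  pos : 0 < e
  f_ne : ∀ i, f i ≠ 0
  ne : ∀ j, x j ≠ 0
  gen : IntermediateField.adjoin ℂ (Set.range x) = ⊤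
  dim : Algebra.trdeg ℂ K = (e : Cardinal)
  zero : ∀ i, ev x (f i) = 0
  nondeg : ∀ ν : Fin n → ℤ, Nondegenerate f ν

/-- The Fine interior of the sum of the Newton polytopes is empty. -/
def FineEmpty (f : Fin r → Laurent n) : Prop :=
  ¬ ∃ m : Fin n → ℝ, ∀ ν : Fin n → ℤ, ν ≠ 0 → (∑ i, minOn (f i) ν) + 1 ≤ ∑ j, (ν j : ℝ) * m j

end

end MMCI
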