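import Pool.Agent.MldGeo.Defs
import Pool.Agent.MMCI.DefsA

/-!
# MP_fa3f7f_ag: minimal models of complete intersections in tori

Definitions: terminal singularities (by means of divisorial valuations and the orders of rational
differential forms, `Pool/Agent/MldGeo/Defs.lean`), projective varieties with a given function
field, semiample and nef canonical divisors, Mori fibre spaces; Laurent polynomials, the order
functions of their Newton polytopes and nondegeneracy.
-/

namespace MMCI

open MldGeo

noncomputable section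

variable {e : ℕ} {K : Type} [Field K] [Algebra ℂ K]

/-! ### singularities of affine varieties -/

/-- `R` is the ring of regular functions of an affine variety with the function field `K`. The
divisorial valuation `v` of `K` has a centre on the variety, and the centre is the zero set of the
prime ideal `P`. -/
def HasCentre (R : Subalgebra ℂ K) (v : DivVal e K) (P : Ideal R) : Prop :=
  P.IsPrime ∧ (∀ a : R, 0 ≤ v.ord a) ∧ ∀ a : R, a ∈ P ↔ a = 0 ∨ 0 < v.ord a

/-- `v` is the order along a prime divisor of the variety: its centre is the zero set of the prime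
ideal `P` of height one. -/
def IsPrimeDivisor (R : Subalgebra ℂ K) (v : DivVal e K) (P : Ideal R) : Prop :=
  P.IsPrime ∧ P.height = 1 ∧ (∀ a : R, 0 ≤ v.ord a) ∧ ∀ a : R, a ∈ P ↔ a = 0 ∨ 0 < v.ord a

/-- Near the point with the maximal ideal `m` the function `g` is an equation of `k K_X`,
`K_X = div(ω)`. -/
def IsEquation (R : Subalgebra ℂ K) (ω : Forms e K) (k : ℕ) (m : Ideal R) (g : K) : Prop :=
  ∀ (v : DivVal e K) (P : Ideal R), IsPrimeDivisor R v P → P ≤ m → v.ord g = k * v.formOrd ω

/-- The affine variety `X` of dimension `e` with the ring `R` of regular functions and the function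
field `K` has terminal singularities: it is normal, and for every rational form `ω ≠ 0` of degree
`e` and every closed point (maximal ideal `m`) there are `k > 0` and a rational function `g ≠ 0`
which is an equation of `k K_X` near the point, `K_X = div(ω)`, and all divisors over `X` whose
centre contains the point and is not a prime divisor of `X` have positive discrepancies. -/
def IsTerminal (e : ℕ) (R : Subalgebra ℂ K) : Prop :=
  (∀ a : K, IsIntegral R a → a ∈ R) ∧
  ∀ ω : Forms e K, ω ≠ 0 → ∀ m : Ideal R, m.IsMaximal → ∃ (k : ℕ) (g : K), 0 < k ∧ g ≠ 0 ∧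
    IsEquation R ω k m g ∧
    ∀ (v : DivVal e K) (P : Ideal R), HasCentre R v P → P ≤ m → P.height ≠ 1 →
      0 < k * v.formOrd ω - v.ord g

/-! ### projective varieties -/

/-- `Y` has terminal singularities. -/
def ProjModel.Terminal (e : ℕ) (Y : ProjModel K) : Prop := ∀ i, IsTerminal e (Y.ring i)

/-- The canonical divisor is semiample: some positive multiple `k K_Y` is Cartier and generated by
finitely many global sections `h_l`. (`div(h_l) + k K_Y ≥ 0`, and every point has a neighbourhood on
which one of these divisors is zero.) -/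
def ProjModel.Semiample (e : ℕ) (Y : ProjModel K) : Prop :=
  ∀ ω : Forms e K, ω ≠ 0 → ∃ (k N : ℕ) (h : Fin N → K), 0 < k ∧ (∀ l, h l ≠ 0) ∧
    (∀ l i (v : DivVal e K) (P : Ideal (Y.ring i)), IsPrimeDivisor (Y.ring i) v P →
      0 ≤ v.ord (h l) + k * v.formOrd ω) ∧
    ∀ i (m : Ideal (Y.ring i)), m.IsMaximal → ∃ l, ∀ (v : DivVal e K) (P : Ideal (Y.ring i)),
      IsPrimeDivisor (Y.ring i) v P → P ≤ m → v.ord (h l) + k * v.formOrd ω = 0

variable {Y : ProjModel K}

/-- The image of the point `w` of the curve is the point of the chart `i` with the maximal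
ideal `m`. -/
def CurveMap.MapsTo (γ : CurveMap Y) (w : DivVal 1 γ.L) (i : Fin (Y.N + 1))
    (m : Ideal (Y.ring i)) : Prop :=
  m.IsMaximal ∧ ∀ a : Y.ring i, ∃ u : γ.L, γ.Restr a u ∧ (u = 0 ∨ 0 ≤ w.ord u) ∧
    (a ∈ m ↔ u = 0 ∨ 0 < w.ord u)

/-- The divisor `k K_Y` is Cartier along the curve, `g w` is an equation of it at the image of the
point `w`, and `u w` is the restriction of `g w / h` to the curve (`h` is an equation at the generic
point). The degree `k K_Y · B` is the degree of the divisor `∑_w ord_w(u w) w` on `B`. -/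
structure CurveMap.Equations (γ : CurveMap Y) (ω : Forms e K) (k : ℕ) (h : K)
    (g : DivVal 1 γ.L → K) (u : DivVal 1 γ.L → γ.L) : Prop where
  h_ne : h ≠ 0
  u_ne : ∀ w, u w ≠ 0
  restr : ∀ w, γ.Restr (g w / h) (u w)
  eqn : ∀ w, ∃ (i : Fin (Y.N + 1)) (m : Ideal (Y.ring i)), γ.MapsTo w i m ∧
    IsEquation (Y.ring i) ω k m (g w)

/-- The canonical divisor is nef: `K_Y · B ≥ 0` for every curve `B → Y`. -/
def ProjModel.Nef (e : ℕ) (Y : ProjModel K) : Prop :=
  ∀ ω : Forms e K, ω ≠ 0 → ∀ (γ : CurveMap Y) (k : ℕ) (h : K) (g : DivVal 1 γ.L → K)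
    (u : DivVal 1 γ.L → γ.L), 0 < k → γ.Equations ω k h g u →
    {w : DivVal 1 γ.L | w.ord (u w) ≠ 0}.Finite ∧ 0 ≤ ∑ᶠ w : DivVal 1 γ.L, w.ord (u w)

/-- There is a morphism `π : Y → ℙ^M`, with the coordinates `t_0, …, t_M`, whose image `S` has
smaller dimension, such that `K_Y · B < 0` for all curves `B → Y` in the fibres. -/
def ProjModel.MoriFibre (e : ℕ) (Y : ProjModel K) : Prop :=
  ∃ (M : ℕ) (t : Fin (M + 1) → K), (∀ l, t l ≠ 0) ∧
    Algebra.trdeg ℂ (IntermediateField.adjoin ℂ (Set.range fun l => t l / t 0)) < (e : Cardinal) ∧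
    (∀ i (m : Ideal (Y.ring i)), m.IsMaximal → ∃ j, ∀ l, ∃ p q : Y.ring i, q ∉ m ∧
      t l / t j * q = p) ∧
    ∀ ω : Forms e K, ω ≠ 0 → ∀ γ : CurveMap Y, γ.InFibre t → ∀ (k : ℕ) (h : K)
      (g : DivVal 1 γ.L → K) (u : DivVal 1 γ.L → γ.L), 0 < k → γ.Equations ω k h g u →
      {w : DivVal 1 γ.L | w.ord (u w) ≠ 0}.Finite ∧ ∑ᶠ w : DivVal 1 γ.L, w.ord (u w) < 0

end

end MMCI
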