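import Pool.Agent.MMCI.StmtsF2

/-!
# Module ABK: the integral data
-/

set_option autoImplicit false

namespace MMCI.F

noncomputable section

open scoped Classical

namespace ABK

theorem ip_iv {n : ℕ} (x : E n) (w : Fin n → ℤ) : ip x (iv w) = ∑ i, x i * (w i : ℝ) := by
  unfold ip iv
  rw [PiLp.inner_apply]
  refine Finset.sum_congr rfl fun i _ => ?_
  simp [mul_comm]

theorem ip_iv_iv {n : ℕ} (p w : Fin n → ℤ) : ip (iv p) (iv w) = (pr p w : ℝ) := by
  rw [ip_iv]
  unfold pr iv
  push_cast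
  rfl

/-- The index set: three families of vectors and one more coordinate. -/
abbrev Ix (V : Type) (n : ℕ) : Type := Option (Fin 3 × V × Fin n)

variable {V : Type} {n : ℕ}

/-- The value on `ν` of the vector `j` of the family `c`. -/
def blk (c : Fin 3) (j : V) (ν : Fin n → ℤ) : Ix V n → ℤ
  | none => 0
  | some q => if q.1 = c then (if q.2.1 = j then ν q.2.2 else 0) else 0

/-- The last coordinate. -/
def lst : Ix V n → ℤ
  | none => 1
  | some _ => 0

variable [Fintype V] {R : Type} [CommRing R]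

/-- The value of a form. -/
def val (f : Ix V n → ℤ) (x : Ix V n → R) : R := ∑ o, (f o : R) * x o

theorem val_blk (c : Fin 3) (j : V) (ν : Fin n → ℤ) (x : Ix V n → R) :
    val (blk c j ν) x = ∑ a, x (some (c, j, a)) * (ν a : R) := by
  unfold val
  rw [Fintype.sum_option]
  simp only [blk, Int.cast_zero, zero_mul, zero_add]
  rw [Fintype.sum_prod_type]
  rw [Finset.sum_eq_single c]
  · rw [Fintype.sum_prod_type]
    rw [Finset.sum_eq_single j]
    · refine Finset.sum_congr rfl fun a _ => ?_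
      simp [mul_comm]
    · intro b _ hb
      refine Finset.sum_eq_zero fun a _ => ?_
      simp [hb]
    · intro h
      exact absurd (Finset.mem_univ j) h
  · intro b _ hb
    refine Finset.sum_eq_zero fun a _ => ?_
    simp [hb]
  · intro h
    exact absurd (Finset.mem_univ c) h

theorem val_lst (x : Ix V n → R) : val (lst : Ix V n → ℤ) x = x none := by
  unfold val
  rw [Fintype.sum_option]
  simp [lst]

theorem val_sub (f g : Ix V n → ℤ) (x : Ix V n → R) : val (f - g) x = val f x - val g x := by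
  unfold val
  rw [← Finset.sum_sub_distrib]
  refine Finset.sum_congr rfl fun o _ => ?_
  rw [Pi.sub_apply]
  push_cast
  ring

theorem val_smul (k : ℤ) (f : Ix V n → ℤ) (x : Ix V n → R) : val (k • f) x = k * val f x := by
  unfold val
  rw [Finset.mul_sum]
  refine Finset.sum_congr rfl fun o _ => ?_
  rw [Pi.smul_apply, smul_eq_mul]
  push_cast
  ring

theorem val_int (f : Ix V n → ℤ) (z : Ix V n → ℤ) : ∑ o, f o * z o = val f z := by
  unfold val
  simp

/-- The real point. -/
def pt (v m κ : V → E n) : Ix V n → ℝ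
  | none => 1
  | some q => (if q.1 = 0 then v q.2.1 else if q.1 = 1 then m q.2.1 else κ q.2.1) q.2.2

/-- The list of the forms. -/
def forms (S : Finset (Fin n → ℤ)) (T : V → Finset (Fin n → ℤ)) (μ : (Fin n → ℤ) → ℤ) :
    Finset (Ix V n → ℤ) :=
  ((Finset.univ ×ˢ Finset.univ ×ˢ S : Finset (V × V × (Fin n → ℤ))).image
      fun p => blk 0 p.2.1 p.2.2 - blk 0 p.1 p.2.2) ∪
  ((Finset.univ ×ˢ Finset.univ ×ˢ S : Finset (V × V × (Fin n → ℤ))).image
      fun p => blk 1 p.2.1 p.2.2 - blk 1 p.1 p.2.2) ∪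
  (Finset.univ.biUnion fun i => (T i).image fun ν => blk 2 i ν - (μ ν + 1) • lst) ∪ {lst}

theorem mem1 {S : Finset (Fin n → ℤ)} {T : V → Finset (Fin n → ℤ)} {μ : (Fin n → ℤ) → ℤ}
    (i j : V) {ν : Fin n → ℤ} (hν : ν ∈ S) : blk 0 j ν - blk 0 i ν ∈ forms S T μ := by
  refine Finset.mem_union_left _ (Finset.mem_union_left _ (Finset.mem_union_left _ ?_))
  exact Finset.mem_image.2 ⟨(i, j, ν), by simp [hν], rfl⟩

theorem mem2 {S : Finset (Fin n → ℤ)} {T : V → Finset (Fin n → ℤ)} {μ : (Fin n → ℤ) → ℤ}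
    (i j : V) {ν : Fin n → ℤ} (hν : ν ∈ S) : blk 1 j ν - blk 1 i ν ∈ forms S T μ := by
  refine Finset.mem_union_left _ (Finset.mem_union_left _ (Finset.mem_union_right _ ?_))
  exact Finset.mem_image.2 ⟨(i, j, ν), by simp [hν], rfl⟩

theorem mem3 {S : Finset (Fin n → ℤ)} {T : V → Finset (Fin n → ℤ)} {μ : (Fin n → ℤ) → ℤ}
    (i : V) {ν : Fin n → ℤ} (hν : ν ∈ T i) : blk 2 i ν - (μ ν + 1) • lst ∈ forms S T μ := by
  refine Finset.mem_union_left _ (Finset.mem_union_right _ ?_)
  exact Finset.mem_biUnion.2 ⟨i, Finset.mem_univ i, Finset.mem_image.2 ⟨ν, hν, rfl⟩⟩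

theorem mem4 {S : Finset (Fin n → ℤ)} {T : V → Finset (Fin n → ℤ)} {μ : (Fin n → ℤ) → ℤ} :
    (lst : Ix V n → ℤ) ∈ forms S T μ :=
  Finset.mem_union_right _ (Finset.mem_singleton_self _)

theorem val_pt0 (v m κ : V → E n) (i : V) (ν : Fin n → ℤ) :
    val (blk 0 i ν) (pt v m κ) = ip (v i) (iv ν) := by
  rw [val_blk, ip_iv]
  refine Finset.sum_congr rfl fun a _ => ?_
  simp [pt]

theorem val_pt1 (v m κ : V → E n) (i : V) (ν : Fin n → ℤ) :
    val (blk 1 i ν) (pt v m κ) = ip (m i) (iv ν) := by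
  rw [val_blk, ip_iv]
  refine Finset.sum_congr rfl fun a _ => ?_
  simp [pt]

theorem val_pt2 (v m κ : V → E n) (i : V) (ν : Fin n → ℤ) :
    val (blk 2 i ν) (pt v m κ) = ip (κ i) (iv ν) := by
  rw [val_blk, ip_iv]
  refine Finset.sum_congr rfl fun a _ => ?_
  simp [pt]

theorem val_z (c : Fin 3) (i : V) (ν : Fin n → ℤ) (z : Ix V n → ℤ) :
    val (blk c i ν) z = pr (fun a => z (some (c, i, a))) ν := by
  rw [val_blk]
  unfold pr
  simp

end ABK

open ABK in
theorem t_ABK (hSGN : S_SGN) : S_ABK := by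
  intro n V _ S T μ v m κ hκ hT
  obtain ⟨z, hz⟩ := hSGN (pt v m κ) (forms S T μ)
  have hz' : ∀ f ∈ forms S T μ, (0 < val f (pt v m κ) → 0 < val f z) ∧
      (val f (pt v m κ) = 0 → val f z = 0) := by
    intro f hf
    have h := hz f hf
    rw [val_int] at h
    exact ⟨h.1, h.2.1⟩
  have hpos : 0 < z none := by
    have h := (hz' _ mem4).1
    rw [val_lst, val_lst] at h
    exact h one_pos
  refine ⟨fun i a => z (some (0, i, a)), fun i a => z (some (1, i, a)),
    fun i a => z (some (2, i, a)), (z none).toNat, by omega, ?_, ?_, ?_⟩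
  · intro i j ν hν
    have h := hz' _ (mem1 (T := T) (μ := μ) i j hν)
    rw [val_sub, val_sub, val_pt0, val_pt0, val_z, val_z] at h
    exact ⟨fun h1 => sub_pos.1 (h.1 (sub_pos.2 h1)),
      fun h1 => (sub_eq_zero.1 (h.2 (sub_eq_zero.2 h1.symm))).symm⟩
  · intro i j ν hν
    have h := hz' _ (mem2 (T := T) (μ := μ) i j hν)
    rw [val_sub, val_sub, val_pt1, val_pt1, val_z, val_z] at h
    exact ⟨fun h1 => sub_pos.1 (h.1 (sub_pos.2 h1)),
      fun h1 => (sub_eq_zero.1 (h.2 (sub_eq_zero.2 h1.symm))).symm⟩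
  · intro i
    rw [← sub_eq_zero]
    refine hT i _ fun ν hν => ?_
    have h := (hz' _ (mem3 (S := S) (μ := μ) i hν)).2
    rw [val_sub, val_sub, val_smul, val_smul, val_lst, val_lst, val_pt2, val_z, hκ i ν hν] at h
    have h1 := h (by push_cast; simp [pt])
    have h2 : ip (iv (fun a => z (some (2, i, a))) - ((z none).toNat : ℝ) • κ i) (iv ν) =
        ip (iv fun a => z (some (2, i, a))) (iv ν) - ((z none).toNat : ℝ) * ip (κ i) (iv ν) := by
      unfold ip
      rw [inner_sub_left, real_inner_smul_left]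
    rw [h2, ip_iv_iv, hκ i ν hν]
    have h3 : ((z none).toNat : ℝ) = (z none : ℝ) := by
      have h4 : (((z none).toNat : ℤ) : ℝ) = (z none : ℝ) := by rw [Int.toNat_of_nonneg hpos.le]
      rw [← h4]
      push_cast
      rfl
    rw [h3, sub_eq_zero.1 h1]
    push_cast
    ring

end

end MMCI.F
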