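import Pool.Agent.MMCI.StmtsF

/-!
# BAS: basic facts about the support function on real vectors
-/

set_option autoImplicit false

namespace MMCI.F

noncomputable section

namespace BAS

variable {n : ℕ}

theorem ip_iv (p w : Fin n → ℤ) : ip (iv p) (iv w) = ((pr p w : ℤ) : ℝ) := by
  simp only [ip, iv, pr, PiLp.inner_apply, Int.cast_sum, Int.cast_mul]
  refine Finset.sum_congr rfl fun i _ => ?_
  simp [mul_comm]

theorem iv_smul (d : ℤ) (w : Fin n → ℤ) : iv (d • w) = (d : ℝ) • iv w := by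
  ext i
  simp [iv]

theorem ip_smul (x : E n) (t : ℝ) (w : E n) : ip x (t • w) = t * ip x w := by
  simp only [ip, real_inner_smul_right]

theorem ip_sub (x w w' : E n) : ip x w - ip x w' = ip x (w - w') := by
  simp only [ip, inner_sub_right]

theorem img_fin (P : Finset (Fin n → ℤ)) (w : E n) :
    ((fun p => ip (iv p) w) '' (P : Set (Fin n → ℤ))).Finite :=
  P.finite_toSet.image _

theorem att {P : Finset (Fin n → ℤ)} (hP : P.Nonempty) (w : E n) :
    ∃ p ∈ P, muR P w = ip (iv p) w := by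
  have h : sInf ((fun p => ip (iv p) w) '' (P : Set (Fin n → ℤ))) ∈
      (fun p => ip (iv p) w) '' (P : Set (Fin n → ℤ)) :=
    Set.Nonempty.csInf_mem ((Finset.coe_nonempty.2 hP).image _) (img_fin P w)
  obtain ⟨p, hp, he⟩ := h
  exact ⟨p, by simpa using hp, by simpa [muR] using he.symm⟩

theorem low (P : Finset (Fin n → ℤ)) (w : E n) (p : Fin n → ℤ) (hp : p ∈ P) :
    muR P w ≤ ip (iv p) w :=
  csInf_le (img_fin P w).bddBelow ⟨p, by simpa using hp, rfl⟩

theorem muR_iv {P : Finset (Fin n → ℤ)} {μ : (Fin n → ℤ) → ℤ} (hP : P.Nonempty)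
    (h : IsMinOf P μ) (w : Fin n → ℤ) : muR P (iv w) = μ w := by
  obtain ⟨⟨p, hp, he⟩, hl⟩ := h w
  refine le_antisymm ?_ ?_
  · rw [he, ← ip_iv]
    exact low P _ p hp
  · obtain ⟨q, hq, hqe⟩ := att hP (iv w)
    rw [hqe, ip_iv]
    exact_mod_cast hl q hq

theorem hom {P : Finset (Fin n → ℤ)} (hP : P.Nonempty) (t : ℝ) (w : E n) (ht : 0 ≤ t) :
    muR P (t • w) = t * muR P w := by
  refine le_antisymm ?_ ?_
  · obtain ⟨p, hp, he⟩ := att hP w
    rw [he, ← ip_smul]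
    exact low P _ p hp
  · obtain ⟨q, hq, hqe⟩ := att hP (t • w)
    rw [hqe, ip_smul]
    exact mul_le_mul_of_nonneg_left (low P w q hq) ht

theorem lip1 {P : Finset (Fin n → ℤ)} (hP : P.Nonempty) (w w' : E n) :
    muR P w - muR P w' ≤ (∑ p ∈ P, ‖iv p‖) * ‖w - w'‖ := by
  obtain ⟨p, hp, he⟩ := att hP w'
  have h1 : muR P w ≤ ip (iv p) w := low P w p hp
  have h2 : ip (iv p) w - ip (iv p) w' ≤ ‖iv p‖ * ‖w - w'‖ := by
    rw [ip_sub]
    exact real_inner_le_norm _ _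
  have h3 : ‖iv p‖ ≤ ∑ p ∈ P, ‖iv p‖ :=
    Finset.single_le_sum (f := fun p => ‖(iv p : E n)‖) (fun _ _ => norm_nonneg _) hp
  have h4 : ‖iv p‖ * ‖w - w'‖ ≤ (∑ p ∈ P, ‖iv p‖) * ‖w - w'‖ :=
    mul_le_mul_of_nonneg_right h3 (norm_nonneg _)
  linarith

theorem prim_of (w : Fin n → ℤ) (hw : w ≠ 0) :
    ∃ (d : ℤ) (w₀ : Fin n → ℤ), 1 ≤ d ∧ w = d • w₀ ∧ Prim w₀ := by
  set d : ℤ := Finset.univ.gcd w with hd
  have hdvd : ∀ i, d ∣ w i := fun i => Finset.gcd_dvd (Finset.mem_univ i)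
  have hd0 : d ≠ 0 := by
    intro h0
    apply hw
    funext i
    have := hdvd i
    rw [h0] at this
    exact zero_dvd_iff.1 this
  have hdn : 0 ≤ d := Int.nonneg_of_normalize_eq_self Finset.normalize_gcd
  choose w₀ hw₀ using hdvd
  have hww : w = d • w₀ := by
    funext i
    simpa using hw₀ i
  refine ⟨d, w₀, by omega, hww, ?_, ?_⟩
  · intro h0
    apply hw
    rw [hww, h0, smul_zero]
  · intro e w' he
    have h1 : d * e ∣ d := by
      rw [hd]
      refine Finset.dvd_gcd fun i _ => ?_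
      refine ⟨w' i, ?_⟩
      have h2 : w₀ i = e * w' i := by
        have := congrFun he i
        simpa using this
      rw [hw₀ i, h2]
      ring
    have h3 : e ∣ 1 := by
      have h4 : d * e ∣ d * 1 := by simpa using h1
      exact (mul_dvd_mul_iff_left hd0).1 h4
    exact isUnit_of_dvd_one h3

theorem pr_smul (p : Fin n → ℤ) (d : ℤ) (w : Fin n → ℤ) : pr p (d • w) = d * pr p w := by
  simp only [pr, Finset.mul_sum, Pi.smul_apply, smul_eq_mul]
  refine Finset.sum_congr rfl fun i _ => ?_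
  ring

theorem last {P : Finset (Fin n → ℤ)} {μ : (Fin n → ℤ) → ℤ} (hP : P.Nonempty)
    (h : IsMinOf P μ) (l : ℝ) (x : E n) (hx : Feas μ l x) (w : Fin n → ℤ) (hw : w ≠ 0) :
    1 ≤ ip x (iv w) - μ w + l * ‖iv w‖ := by
  obtain ⟨d, w₀, hd, he, hp⟩ := prim_of w hw
  have hdr : (1 : ℝ) ≤ (d : ℝ) := by exact_mod_cast hd
  have h1 := hx w₀ hp
  have h2 : (μ w : ℝ) = d * μ w₀ := by
    rw [← muR_iv hP h w, ← muR_iv hP h w₀, he, iv_smul, hom hP _ _ (by linarith)]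
  have h3 : ip x (iv w) = d * ip x (iv w₀) := by rw [he, iv_smul, ip_smul]
  have h4 : ‖iv w‖ = d * ‖iv w₀‖ := by
    rw [he, iv_smul, norm_smul, Real.norm_eq_abs, abs_of_nonneg (by linarith)]
  rw [h2, h3, h4]
  have h5 : 0 ≤ ip x (iv w₀) - μ w₀ + l * ‖iv w₀‖ - 1 := by linarith
  have h6 : 0 ≤ (d : ℝ) * (ip x (iv w₀) - μ w₀ + l * ‖iv w₀‖ - 1) :=
    mul_nonneg (by linarith) h5
  nlinarith [h6, hdr]

end BAS

theorem t_BAS : S_BAS := by
  intro n P μ hP h
  refine ⟨BAS.muR_iv hP h, fun w => ⟨BAS.att hP w, BAS.low P w⟩, fun t w ht => BAS.hom hP t w ht,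
    ⟨∑ p ∈ P, ‖iv p‖, Finset.sum_nonneg fun _ _ => norm_nonneg _, fun w w' => ?_⟩,
    fun l x hx w hw => BAS.last hP h l x hx w hw⟩
  rw [abs_le]
  constructor
  · have := BAS.lip1 hP w' w
    rw [norm_sub_rev] at this
    linarith
  · exact BAS.lip1 hP w w'

end

end MMCI.F
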