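import Pool.Agent.MMCI.StmtsF

/-!
# BDD: the polytopes with the normals `S` are bounded
-/

set_option autoImplicit false

namespace MMCI.F

open Filter Topology

noncomputable section

theorem BDD.ip_add {n : ℕ} (x y w : E n) : ip (x + y) w = ip x w + ip y w := by
  unfold ip; exact inner_add_left x y w

theorem BDD.ip_smul {n : ℕ} (t : ℝ) (x w : E n) : ip (t • x) w = t * ip x w := by
  unfold ip; exact real_inner_smul_left x w t

theorem BDD.ip_cont {n : ℕ} (w : E n) : Continuous fun y : E n => ip y w := by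
  unfold ip; fun_prop

theorem t_BDD (hMIN : S_MIN) (hLOC : S_LOC) : S_BDD := by
  intro n P μ hP hμ l S hS hF b
  by_contra hnb
  obtain ⟨x0, hx0⟩ := hF
  have hcomp := (hMIN P μ hP hμ).2 l
  have hloc := hLOC P μ hP hμ l S hS ⟨x0, hx0⟩
  have hex : ∀ k : ℕ, ∃ x ∈ Poly S b, (k : ℝ) < ‖x‖ := by
    intro k
    by_contra hcon
    push Not at hcon
    apply hnb
    rw [isBounded_iff_forall_norm_le]
    exact ⟨k, hcon⟩
  choose x hxP hxk using hex
  have hpos : ∀ k, 0 < ‖x k‖ := fun k => lt_of_le_of_lt (Nat.cast_nonneg k) (hxk k)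
  have husph : ∀ k, (‖x k‖)⁻¹ • x k ∈ Metric.sphere (0 : E n) 1 := by
    intro k
    rw [mem_sphere_zero_iff_norm, norm_smul, norm_inv, norm_norm]
    exact inv_mul_cancel₀ (hpos k).ne'
  obtain ⟨d, hd, φ, hφ, hlim⟩ := (isCompact_sphere (0 : E n) 1).tendsto_subseq husph
  have hdn : ‖d‖ = 1 := by simpa using hd
  have hxlim : Tendsto (fun k => ‖x (φ k)‖) atTop atTop := by
    refine tendsto_atTop_mono (f := fun k : ℕ => (k : ℝ)) ?_ tendsto_natCast_atTop_atTop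
    intro k
    have h1 : (k : ℝ) ≤ (φ k : ℝ) := by exact_mod_cast hφ.id_le k
    exact h1.trans (hxk (φ k)).le
  have hd0 : ∀ ν ∈ S, 0 ≤ ip d (iv ν) := by
    intro ν hν
    have h1 : Tendsto (fun k => ip ((‖x (φ k)‖)⁻¹ • x (φ k)) (iv ν)) atTop
        (𝓝 (ip d (iv ν))) := ((BDD.ip_cont (iv ν)).tendsto d).comp hlim
    have h2 : Tendsto (fun k => (‖x (φ k)‖)⁻¹ * b ν) atTop (𝓝 0) := by
      have h3 := (hxlim.inv_tendsto_atTop).mul_const (b ν)
      simpa using h3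
    refine le_of_tendsto_of_tendsto' h2 h1 ?_
    intro k
    rw [BDD.ip_smul]
    exact mul_le_mul_of_nonneg_left (hxP (φ k) ν hν) (inv_nonneg.2 (norm_nonneg _))
  have hfeas : ∀ t : ℝ, 0 ≤ t → Feas μ l (x0 + t • d) := by
    intro t ht
    rw [hloc]
    intro ν hν
    have h1 := (hloc x0).1 hx0 ν hν
    rw [BDD.ip_add, BDD.ip_smul]
    have h2 := mul_nonneg ht (hd0 ν hν)
    linarith
  obtain ⟨R, hR⟩ := isBounded_iff_forall_norm_le.1 hcomp.isBounded
  have hR0 : 0 ≤ R := (norm_nonneg x0).trans (hR x0 hx0)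
  have ht : 0 ≤ R + ‖x0‖ + 1 := by
    have := norm_nonneg x0
    linarith
  have h1 := hR _ (hfeas (R + ‖x0‖ + 1) ht)
  have h2 : ‖(R + ‖x0‖ + 1) • d‖ = R + ‖x0‖ + 1 := by
    rw [norm_smul, hdn, mul_one, Real.norm_of_nonneg ht]
  have h3 : ‖(R + ‖x0‖ + 1) • d‖ ≤ ‖x0 + (R + ‖x0‖ + 1) • d‖ + ‖x0‖ := by
    have h4 : (R + ‖x0‖ + 1) • d = (x0 + (R + ‖x0‖ + 1) • d) - x0 := by abel
    calc ‖(R + ‖x0‖ + 1) • d‖ = ‖(x0 + (R + ‖x0‖ + 1) • d) - x0‖ := by rw [← h4]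
      _ ≤ _ := norm_sub_le _ _
  linarith

end

end MMCI.F
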