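import Pool.Agent.MMCI.StmtsF

/-!
# MP_fa3f7f_ag, fans: the circuit
-/

set_option autoImplicit false

namespace MMCI.F

namespace CIR

variable {n : ℕ}

lemma ip_half (x y w : E n) : ip ((1 / 2 : ℝ) • (x + y)) w = (ip x w + ip y w) / 2 := by
  unfold ip
  rw [real_inner_smul_left, inner_add_left]
  ring

lemma feas_half {μ : (Fin n → ℤ) → ℤ} {l : ℝ} {x y : E n} (hx : Feas μ l x) (hy : Feas μ l y) :
    Feas μ l ((1 / 2 : ℝ) • (x + y)) := by
  intro w hw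
  have h1 := hx w hw
  have h2 := hy w hw
  rw [ip_half]
  linarith

lemma exists_strict {μ : (Fin n → ℤ) → ℤ} {l : ℝ} (x₀ : E n) (h₀ : Feas μ l x₀)
    (U : Finset (Fin n → ℤ)) (hp : ∀ ν ∈ U, Prim ν)
    (hU : ∀ ν ∈ U, ∃ x : E n, Feas μ l x ∧ ip x (iv ν) ≠ μ ν + 1 - l * ‖iv ν‖) :
    ∃ y : E n, Feas μ l y ∧ ∀ ν ∈ U, (μ ν : ℝ) + 1 - l * ‖iv ν‖ < ip y (iv ν) := by
  classical
  induction U using Finset.induction_on with
  | empty => exact ⟨x₀, h₀, fun ν hν => absurd hν (Finset.notMem_empty ν)⟩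
  | insert a U _ ih =>
    obtain ⟨y, hy, hyU⟩ := ih (fun ν hν => hp ν (Finset.mem_insert_of_mem hν))
      (fun ν hν => hU ν (Finset.mem_insert_of_mem hν))
    obtain ⟨x, hx, hxa⟩ := hU a (Finset.mem_insert_self a U)
    refine ⟨(1 / 2 : ℝ) • (x + y), feas_half hx hy, ?_⟩
    intro ν hν
    rw [ip_half]
    have hpν := hp ν hν
    have h1 := hx ν hpν
    have h2 := hy ν hpν
    rcases Finset.mem_insert.1 hν with rfl | hν'
    · have h3 := lt_of_le_of_ne h1 (Ne.symm hxa)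
      linarith
    · have h3 := hyU ν hν'
      linarith

end CIR

theorem t_CIR (hGOR : S_GOR) (hDEC : S_DEC) : S_CIR := by
  classical
  intro n P μ hP hμ l S hl hS hex hmin
  obtain ⟨x₀, h₀⟩ := hex
  set T : Finset (Fin n → ℤ) := S.filter fun ν => ∀ x : E n, Feas μ l x →
    ip x (iv ν) = μ ν + 1 - l * ‖iv ν‖ with hT
  have hT0 : ∀ ν ∈ T, ν ≠ 0 := fun ν hν => ((hS ν).1 (Finset.mem_filter.1 hν).1).1.1
  rcases hGOR T hT0 with ⟨d, hd⟩ | ⟨g, ν, c, hg, hν, hc, hs, hu⟩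
  · exfalso
    obtain ⟨y, hy, hyU⟩ := CIR.exists_strict (μ := μ) (l := l) x₀ h₀ (S \ T)
      (fun ν hν => ((hS ν).1 (Finset.mem_sdiff.1 hν).1).1) (by
        intro ν hν
        obtain ⟨h1, h2⟩ := Finset.mem_sdiff.1 hν
        by_contra hcon
        push Not at hcon
        exact h2 (Finset.mem_filter.2 ⟨h1, hcon⟩))
    obtain ⟨l', x, h0, h1, h2⟩ := hDEC P μ hP hμ l y d hl hy (by
      intro w hw hwy
      have hwS : w ∈ S := (hS w).2 ⟨hw, y, hy, hwy⟩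
      by_cases hwT : w ∈ T
      · exact hd w hwT
      · have h3 := hyU w (Finset.mem_sdiff.2 ⟨hwS, hwT⟩)
        rw [hwy] at h3
        exact absurd h3 (lt_irrefl _))
    exact absurd (hmin l' x h0 h2) (not_le.2 h1)
  · exact ⟨g, ν, c, hg, fun j => Finset.mem_filter.1 (hν j), hc, hs, hu⟩

end MMCI.F
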