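import Pool.Agent.MMCI.StmtsF2

/-!
# CRT: Caratheodory's theorem with integral coefficients
-/

set_option autoImplicit false

namespace MMCI.F

noncomputable section

namespace CRT

/-- Integral vectors as real vectors. -/
def rv {n : ℕ} (w : Fin n → ℤ) : Fin n → ℝ := fun i => (w i : ℝ)

theorem ink {n : ℕ} {ι : Type} (ν : ι → Fin n → ℤ) (h : LinearIndependent ℤ ν) :
    LinearIndependent ℝ fun j => rv (ν j) := by
  have h1 := (linearIndependent_algebraMap_comp_iff (R := ℤ) (S := ℝ) (v := ν)).mpr h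
  exact h1

/-- Real Caratheodory. -/
theorem real {n : ℕ} (w : Fin n → ℤ) : ∀ (k : ℕ) (T : Finset (Fin n → ℤ)), T.card = k →
    (∃ c : (Fin n → ℤ) → ℝ, (∀ ν ∈ T, 0 ≤ c ν) ∧ rv w = ∑ ν ∈ T, c ν • rv ν) →
    ∃ T' ⊆ T, ∃ c : (Fin n → ℤ) → ℝ, (∀ ν ∈ T', 0 < c ν) ∧ rv w = ∑ ν ∈ T', c ν • rv ν ∧
      LinearIndependent ℝ fun ν : T' => rv (ν : Fin n → ℤ) := by
  classical
  intro k
  induction k with
  | zero =>
    rintro T hT ⟨c, hc, hw⟩
    obtain rfl := Finset.card_eq_zero.mp hT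
    refine ⟨∅, Finset.Subset.refl _, c, by simp, hw, ?_⟩
    exact linearIndependent_empty_type
  | succ k ih =>
    rintro T hT ⟨c, hc, hw⟩
    -- a combination with a vanishing coefficient
    have step : ∀ c' : (Fin n → ℤ) → ℝ, (∀ ν ∈ T, 0 ≤ c' ν) → rv w = ∑ ν ∈ T, c' ν • rv ν →
        (∃ ν ∈ T, c' ν = 0) → ∃ T' ⊆ T, ∃ c : (Fin n → ℤ) → ℝ, (∀ ν ∈ T', 0 < c ν) ∧
          rv w = ∑ ν ∈ T', c ν • rv ν ∧
          LinearIndependent ℝ fun ν : T' => rv (ν : Fin n → ℤ) := by
      rintro c' hc' hw' ⟨ν₀, hν₀, h0⟩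
      obtain ⟨T', hT', r⟩ := ih (T.erase ν₀) (by rw [Finset.card_erase_of_mem hν₀, hT]; rfl)
        ⟨c', fun ν hν => hc' ν (Finset.mem_of_mem_erase hν), by
          rw [hw', ← Finset.add_sum_erase T (fun ν => c' ν • rv ν) hν₀, h0, zero_smul, zero_add]⟩
      exact ⟨T', hT'.trans (Finset.erase_subset _ _), r⟩
    by_cases hz : ∃ ν ∈ T, c ν = 0
    · exact step c hc hw hz
    push Not at hz
    have hpos : ∀ ν ∈ T, 0 < c ν := fun ν hν => lt_of_le_of_ne (hc ν hν) (Ne.symm (hz ν hν))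
    by_cases hli : LinearIndependent ℝ fun ν : T => rv (ν : Fin n → ℤ)
    · exact ⟨T, Finset.Subset.refl _, c, hpos, hw, hli⟩
    -- a relation with a positive coefficient
    obtain ⟨d, hd, ν₁, hν₁, hd1⟩ : ∃ d : (Fin n → ℤ) → ℝ, ∑ ν ∈ T, d ν • rv ν = 0 ∧
        ∃ ν ∈ T, 0 < d ν := by
      rw [Fintype.not_linearIndependent_iff] at hli
      obtain ⟨g, hg, ν₁, hν₁⟩ := hli
      let d : (Fin n → ℤ) → ℝ := fun ν => if h : ν ∈ T then g ⟨ν, h⟩ else 0
      have hdg : ∀ ν : T, d ν = g ν := by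
        intro ν
        simp only [d, dif_pos ν.2]
      have hs : ∑ ν ∈ T, d ν • rv ν = 0 := by
        rw [← hg, ← Finset.sum_coe_sort T (fun ν => d ν • rv ν)]
        exact Finset.sum_congr rfl fun ν _ => by rw [hdg]
      rcases lt_or_gt_of_ne hν₁ with h | h
      · refine ⟨fun ν => - d ν, ?_, ν₁, ν₁.2, ?_⟩
        · simp only [neg_smul, Finset.sum_neg_distrib, hs, neg_zero]
        · have h1 := hdg ν₁
          show 0 < - d ν₁
          rw [h1]
          linarith
      · exact ⟨d, hs, ν₁, ν₁.2, by rw [hdg]; exact h⟩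
    obtain ⟨ν₀, hν₀, hmin⟩ := Finset.exists_min_image (T.filter fun ν => 0 < d ν)
      (fun ν => c ν / d ν) ⟨ν₁, Finset.mem_filter.mpr ⟨hν₁, hd1⟩⟩
    rw [Finset.mem_filter] at hν₀
    set s := c ν₀ / d ν₀ with hs
    have hs0 : 0 < s := div_pos (hpos _ hν₀.1) hν₀.2
    apply step (fun ν => c ν - s * d ν)
    · intro ν hν
      rcases le_or_gt (d ν) 0 with h | h
      · have := mul_nonneg hs0.le (neg_nonneg.mpr h)
        have := hpos ν hν
        nlinarith
      · have h1 := hmin ν (Finset.mem_filter.mpr ⟨hν, h⟩)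
        rw [le_div_iff₀ h] at h1
        linarith
    · have : ∑ ν ∈ T, (c ν - s * d ν) • rv ν = ∑ ν ∈ T, c ν • rv ν - s • ∑ ν ∈ T, d ν • rv ν := by
        rw [Finset.smul_sum, ← Finset.sum_sub_distrib]
        exact Finset.sum_congr rfl fun ν _ => by rw [sub_smul, mul_smul]
      rw [this, hd, smul_zero, sub_zero, hw]
    · refine ⟨ν₀, hν₀.1, ?_⟩
      have := hν₀.2.ne'
      simp only [hs]
      field_simp
      ring

end CRT

open CRT in
theorem t_CRT : S_CRT := by
  classical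
  intro n T w ⟨c, hc, hw⟩
  have hw' : rv w = ∑ ν ∈ T, c ν • rv ν := by
    funext i
    rw [Finset.sum_apply]
    exact hw i
  obtain ⟨T', hT', d, hd, hwd, hli⟩ := real w _ T rfl ⟨c, fun ν _ => hc ν, hw'⟩
  let e : Fin T'.card ≃ T' := T'.equivFin.symm
  let ν : Fin T'.card → Fin n → ℤ := fun j => (e j : Fin n → ℤ)
  have hliR : LinearIndependent ℝ fun j => rv (ν j) := hli.comp e e.injective
  have hliZ : LinearIndependent ℤ ν := by
    rw [Fintype.linearIndependent_iff] at hliR ⊢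
    intro g hg j
    have h1 := hliR (fun j => (g j : ℝ)) (by
      funext i
      have h2 := congrFun hg i
      simp only [Finset.sum_apply, Pi.smul_apply, smul_eq_mul, Pi.zero_apply] at h2 ⊢
      simp only [rv]
      exact_mod_cast h2) j
    exact_mod_cast h1
  have hwe : rv w = ∑ j, d (ν j) • rv (ν j) := by
    rw [hwd, ← Finset.sum_coe_sort T' (fun ν => d ν • rv ν)]
    exact (Equiv.sum_comp e (fun μ : T' => d μ • rv (μ : Fin n → ℤ))).symm
  have hpos : ∀ j, 0 < d (ν j) := fun j => hd _ (e j).2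
  -- an integral relation
  have hdep : ¬ LinearIndependent ℤ (Fin.cons w ν : Fin (T'.card + 1) → Fin n → ℤ) := by
    intro h
    have h1 := ink _ h
    rw [Fintype.linearIndependent_iff] at h1
    have h2 := h1 (Fin.cons (-1) fun j => d (ν j)) (by
      rw [Fin.sum_univ_succ]
      simp only [Fin.cons_zero, Fin.cons_succ]
      rw [← hwe]
      simp) 0
    simp at h2
  rw [Fintype.not_linearIndependent_iff] at hdep
  obtain ⟨g, hg, k, hk⟩ := hdep
  rw [Fin.sum_univ_succ] at hg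
  simp only [Fin.cons_zero, Fin.cons_succ] at hg
  have hg0 : g 0 ≠ 0 := by
    intro h0
    rw [h0, zero_smul, zero_add] at hg
    have h1 := Fintype.linearIndependent_iff.mp hliZ _ hg
    refine Fin.cases ?_ (fun j => ?_) k hk
    · intro h; exact h h0
    · intro h; exact h (h1 j)
  have hgr : ∀ j, (g 0 : ℝ) * d (ν j) + (g j.succ : ℝ) = 0 := by
    have h1 : ∑ j, ((g 0 : ℝ) * d (ν j) + (g j.succ : ℝ)) • rv (ν j) = 0 := by
      have h2 : (g 0 : ℝ) • rv w + ∑ j, (g j.succ : ℝ) • rv (ν j) = 0 := by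
        funext i
        have h3 := congrFun hg i
        simp only [Finset.sum_apply, Pi.smul_apply, Pi.add_apply, smul_eq_mul,
          Pi.zero_apply] at h3 ⊢
        simp only [rv]
        exact_mod_cast h3
      rw [hwe, Finset.smul_sum, ← Finset.sum_add_distrib] at h2
      rw [← h2]
      exact Finset.sum_congr rfl fun j _ => by rw [add_smul, mul_smul]
    exact Fintype.linearIndependent_iff.mp hliR _ h1
  have habs : ∀ j, ((g j.succ).natAbs : ℝ) = ((g 0).natAbs : ℝ) * d (ν j) := by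
    intro j
    rw [Nat.cast_natAbs, Nat.cast_natAbs, Int.cast_abs, Int.cast_abs]
    have h1 : (g j.succ : ℝ) = - ((g 0 : ℝ) * d (ν j)) := by linarith [hgr j]
    rw [h1, abs_neg, abs_mul, abs_of_pos (hpos j)]
  refine ⟨T'.card, ν, fun j => (g j.succ).natAbs, (g 0).natAbs, Int.natAbs_pos.mpr hg0, ?_,
    fun j => hT' (e j).2, hliZ, ?_⟩
  · intro j
    have h0 : (0 : ℝ) < ((g 0).natAbs : ℝ) := by exact_mod_cast Int.natAbs_pos.mpr hg0
    have h1 : (0 : ℝ) < ((g j.succ).natAbs : ℝ) := by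
      rw [habs j]
      exact mul_pos h0 (hpos j)
    exact_mod_cast h1
  · funext i
    have h1 : (((g 0).natAbs : ℝ)) * (w i : ℝ) =
        ∑ j, ((g j.succ).natAbs : ℝ) * (ν j i : ℝ) := by
      have h2 := congrFun hwe i
      rw [Finset.sum_apply] at h2
      have h3 : (w i : ℝ) = ∑ j, d (ν j) * (ν j i : ℝ) := h2
      rw [h3, Finset.mul_sum]
      exact Finset.sum_congr rfl fun j _ => by rw [habs j]; ring
    have h4 : ((((g 0).natAbs : ℤ) * w i : ℤ) : ℝ) =
        ((∑ j, (((g j.succ).natAbs : ℕ) : ℤ) * ν j i : ℤ) : ℝ) := by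
      rw [Int.cast_mul, Int.cast_sum, Int.cast_natCast, h1]
      exact Finset.sum_congr rfl fun j _ => by rw [Int.cast_mul, Int.cast_natCast]
    rw [Finset.sum_apply]
    exact Int.cast_injective h4

end

end MMCI.F
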