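import Pool.Agent.MMCI.StmtsF

/-!
# Fans: if a direction is positive on the tight normals then the parameter can be decreased
-/

set_option autoImplicit false

namespace MMCI.F

namespace DEC

open Filter Topology

lemma abs_le_norm {n : ℕ} (w : Fin n → ℤ) (i : Fin n) : |(w i : ℝ)| ≤ ‖iv w‖ := by
  have h := PiLp.norm_apply_le (iv w) i
  rw [Real.norm_eq_abs] at h
  exact h

/-- There are finitely many integral vectors of bounded norm. -/
lemma finite_norm {n : ℕ} (R : ℝ) : {w : Fin n → ℤ | ‖iv w‖ < R}.Finite := by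
  refine (Set.finite_Icc (fun _ : Fin n => -(⌈R⌉)) (fun _ : Fin n => ⌈R⌉)).subset ?_
  intro w hw
  have hw' : ‖iv w‖ < R := hw
  have h : ∀ i, |(w i : ℝ)| ≤ ⌈R⌉ := fun i =>
    ((abs_le_norm w i).trans hw'.le).trans (Int.le_ceil R)
  refine ⟨fun i => ?_, fun i => ?_⟩
  · have := (abs_le.1 (h i)).1
    exact_mod_cast this
  · have := (abs_le.1 (h i)).2
    exact_mod_cast this

lemma eventually_small {a b : ℝ} (hb : 0 < b) : ∀ᶠ s : ℝ in 𝓝[>] (0 : ℝ), s * a ≤ b := by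
  have h1 : Tendsto (fun s : ℝ => s * a) (𝓝[>] (0 : ℝ)) (𝓝 (0 * a)) :=
    ((continuous_id.mul continuous_const).tendsto 0).mono_left nhdsWithin_le_nhds
  rw [zero_mul] at h1
  exact (h1.eventually (Iio_mem_nhds hb)).mono fun s hs => (show s * a < b from hs).le

end DEC

open Filter Topology DEC

theorem t_DEC (hBAS : S_BAS) (hDEL : S_DEL) : S_DEC := by
  intro n P μ hP hμ l y d hl hy hd
  obtain ⟨hmu, -, -, -, -⟩ := hBAS P μ hP hμ
  obtain ⟨δ, hδ, hdel⟩ := hDEL P μ hP hμ l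
  have hdy : ∀ w : Fin n → ℤ, δ * ‖iv w‖ ≤ ip y (iv w) - μ w + l * ‖iv w‖ := by
    intro w
    have h := hdel y hy (iv w)
    rw [hmu] at h
    exact h
  set F : Set (Fin n → ℤ) := {w | ‖iv w‖ < 2 / δ} with hF
  have hFf : F.Finite := finite_norm _
  -- the slope for the tight vectors
  have e1 : ∀ᶠ ρ : ℝ in 𝓝[>] (0 : ℝ), ∀ w ∈ F, Prim w →
      ip y (iv w) = μ w + 1 - l * ‖iv w‖ → ρ * ‖iv w‖ ≤ ip d (iv w) := by
    refine (hFf.eventually_all).2 fun w _ => ?_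
    by_cases h : Prim w ∧ ip y (iv w) = μ w + 1 - l * ‖iv w‖
    · exact (eventually_small (hd w h.1 h.2)).mono fun s hs _ _ => hs
    · exact Eventually.of_forall fun s h1 h2 => absurd ⟨h1, h2⟩ h
  obtain ⟨ρ, hρ, hρ0⟩ := (e1.and self_mem_nhdsWithin).exists
  have hρ0' : (0 : ℝ) < ρ := hρ0
  have e2 : ∀ᶠ s : ℝ in 𝓝[>] (0 : ℝ), ∀ w ∈ F, Prim w →
      ip y (iv w) ≠ μ w + 1 - l * ‖iv w‖ →
        s * ((‖d‖ + ρ) * ‖iv w‖) ≤ ip y (iv w) - μ w + l * ‖iv w‖ - 1 := by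
    refine (hFf.eventually_all).2 fun w _ => ?_
    by_cases h : Prim w ∧ ip y (iv w) ≠ μ w + 1 - l * ‖iv w‖
    · have h1 := hy w h.1
      have h2 : 0 < ip y (iv w) - μ w + l * ‖iv w‖ - 1 := by
        rcases lt_or_eq_of_le h1 with h3 | h3
        · linarith
        · exact absurd h3.symm h.2
      exact (eventually_small h2).mono fun s hs _ _ => hs
    · exact Eventually.of_forall fun s h1 h2 => absurd ⟨h1, h2⟩ h
  obtain ⟨s, ⟨⟨hs2, hsδ⟩, hsl⟩, hs0⟩ := (((e2.and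
    (eventually_small (a := ‖d‖ + ρ) (half_pos hδ))).and
      (eventually_small (a := ρ) hl)).and self_mem_nhdsWithin).exists
  have hs0' : (0 : ℝ) < s := hs0
  refine ⟨l - s * ρ, y + s • d, by linarith, by nlinarith, ?_⟩
  intro w hw
  have hip : ip (y + s • d) (iv w) = ip y (iv w) + s * ip d (iv w) := by
    unfold ip
    rw [inner_add_left, real_inner_smul_left]
  rw [hip]
  have hn : 0 ≤ ‖iv w‖ := norm_nonneg _
  have hcs : -(‖d‖ * ‖iv w‖) ≤ ip d (iv w) := by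
    have := abs_real_inner_le_norm d (iv w)
    exact (abs_le.1 this).1
  by_cases hwF : w ∈ F
  · by_cases ht : ip y (iv w) = μ w + 1 - l * ‖iv w‖
    · have h1 := hρ w hwF hw ht
      have h2 : s * (ρ * ‖iv w‖) ≤ s * ip d (iv w) := mul_le_mul_of_nonneg_left h1 hs0'.le
      rw [ht]
      nlinarith
    · have h1 := hs2 w hwF hw ht
      have h2 : s * (-(‖d‖ * ‖iv w‖)) ≤ s * ip d (iv w) := mul_le_mul_of_nonneg_left hcs hs0'.le
      nlinarith
  · have hwF' : 2 / δ ≤ ‖iv w‖ := not_lt.1 hwF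
    have h1 := hdy w
    have h2 : s * (-(‖d‖ * ‖iv w‖)) ≤ s * ip d (iv w) := mul_le_mul_of_nonneg_left hcs hs0'.le
    have h3 : s * (‖d‖ + ρ) * ‖iv w‖ ≤ δ / 2 * ‖iv w‖ := mul_le_mul_of_nonneg_right hsδ hn
    have h4 : 1 ≤ δ / 2 * ‖iv w‖ := by
      have : δ / 2 * (2 / δ) ≤ δ / 2 * ‖iv w‖ := mul_le_mul_of_nonneg_left hwF' (half_pos hδ).le
      have h5 : δ / 2 * (2 / δ) = 1 := by field_simp
      linarith
    nlinarith

end MMCI.F
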