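import Pool.Agent.MMCI.StmtsF

/-!
# Module DEL: uniform positivity
-/

set_option autoImplicit false

namespace MMCI.F

noncomputable section

namespace DEL

/-- The function `G` is homogeneous. -/
theorem hom {n : ℕ} (P : Finset (Fin n → ℤ)) (l : ℝ)
    (hhom : ∀ (t : ℝ) (w : E n), 0 ≤ t → muR P (t • w) = t * muR P w)
    (x w : E n) (t : ℝ) (ht : 0 ≤ t) :
    ip x (t • w) - muR P (t • w) + l * ‖t • w‖ = t * (ip x w - muR P w + l * ‖w‖) := by
  rw [hhom t w ht, norm_smul, Real.norm_of_nonneg ht]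
  unfold ip
  rw [real_inner_smul_right]
  ring

end DEL

theorem t_DEL (hBAS : S_BAS) (hMIN : S_MIN) (hPOS : S_POS) : S_DEL := by
  intro n P μ hP hμ l
  obtain ⟨-, -, hhom, ⟨L, hL0, hL⟩, -⟩ := hBAS P μ hP hμ
  have hK : IsCompact {x : E n | Feas μ l x} := (hMIN P μ hP hμ).2 l
  have hcont : Continuous (fun w : E n => muR P w) := by
    have hlip : LipschitzWith ⟨L, hL0⟩ (fun w : E n => muR P w) := by
      apply LipschitzWith.of_dist_le_mul
      intro a b
      rw [Real.dist_eq, dist_eq_norm]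
      exact hL a b
    exact hlip.continuous
  have hF : Continuous (fun q : E n × E n => ip q.1 q.2 - muR P q.2 + l * ‖q.2‖) := by
    have h1 : Continuous (fun q : E n × E n => ip q.1 q.2) := by
      unfold ip
      exact continuous_fst.inner continuous_snd
    exact (h1.sub (hcont.comp continuous_snd)).add (continuous_const.mul continuous_snd.norm)
  have hS : IsCompact (Metric.sphere (0 : E n) 1) := isCompact_sphere 0 1
  have h0 : ∀ x : E n, ip x 0 - muR P 0 + l * ‖(0 : E n)‖ = 0 := by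
    intro x
    have h := DEL.hom P l hhom x 0 0 le_rfl
    rw [zero_smul, zero_mul] at h
    exact h
  by_cases hne : ({x : E n | Feas μ l x} ×ˢ Metric.sphere (0 : E n) 1).Nonempty
  · obtain ⟨q, hq, hmin⟩ := (hK.prod hS).exists_isMinOn hne hF.continuousOn
    have hq2 : ‖q.2‖ = 1 := by
      have := hq.2
      rwa [mem_sphere_zero_iff_norm] at this
    have hpos : 0 < ip q.1 q.2 - muR P q.2 + l * ‖q.2‖ :=
      hPOS P μ hP hμ l q.1 hq.1 q.2 (by
        intro h
        rw [h, norm_zero] at hq2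
        exact zero_ne_one hq2)
    refine ⟨ip q.1 q.2 - muR P q.2 + l * ‖q.2‖, hpos, ?_⟩
    intro x hx w
    by_cases hw : w = 0
    · rw [hw, h0 x, norm_zero, mul_zero]
    · have hw' : 0 < ‖w‖ := norm_pos_iff.mpr hw
      have hmem : (x, ‖w‖⁻¹ • w) ∈ {x : E n | Feas μ l x} ×ˢ Metric.sphere (0 : E n) 1 := by
        refine ⟨hx, ?_⟩
        rw [mem_sphere_zero_iff_norm, norm_smul, norm_inv, norm_norm,
          inv_mul_cancel₀ hw'.ne']
      have hle := hmin hmem
      simp only [Set.mem_ofPred_eq] at hle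
      rw [DEL.hom P l hhom x w ‖w‖⁻¹ (inv_nonneg.mpr hw'.le)] at hle
      calc (ip q.1 q.2 - muR P q.2 + l * ‖q.2‖) * ‖w‖
          ≤ ‖w‖⁻¹ * (ip x w - muR P w + l * ‖w‖) * ‖w‖ :=
            mul_le_mul_of_nonneg_right hle hw'.le
        _ = ip x w - muR P w + l * ‖w‖ := by
            field_simp
  · refine ⟨1, one_pos, ?_⟩
    intro x hx w
    by_cases hw : w = 0
    · rw [hw, h0 x, norm_zero, mul_zero]
    · exfalso
      have hw' : 0 < ‖w‖ := norm_pos_iff.mpr hw
      apply hne
      refine ⟨(x, ‖w‖⁻¹ • w), hx, ?_⟩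
      rw [mem_sphere_zero_iff_norm, norm_smul, norm_inv, norm_norm,
        inv_mul_cancel₀ hw'.ne']

end

end MMCI.F
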