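import Pool.Agent.MMCI.StmtsF

/-!
# DIR: simultaneous approximation
-/

set_option autoImplicit false

namespace MMCI.F

namespace DIR

theorem iv_sub {n : ℕ} (a b : Fin n → ℤ) : iv (a - b) = iv a - iv b := by
  ext i
  simp [iv]

/-- The coordinates of the fractional part are between `0` and `1`. -/
theorem frac_mem {n : ℕ} (w : E n) (t : ℕ) (i : Fin n) :
    ((t : ℝ) • w - iv (fun i => ⌊(t : ℝ) * w i⌋)) i = Int.fract ((t : ℝ) * w i) := by
  simp [iv]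

theorem norm_frac_le {n : ℕ} (w : E n) (t : ℕ) :
    ‖(t : ℝ) • w - iv (fun i => ⌊(t : ℝ) * w i⌋)‖ ≤ Real.sqrt n := by
  rw [EuclideanSpace.norm_eq]
  apply Real.sqrt_le_sqrt
  calc ∑ i, ‖((t : ℝ) • w - iv (fun i => ⌊(t : ℝ) * w i⌋)) i‖ ^ 2 ≤ ∑ _i : Fin n, (1 : ℝ) := by
        apply Finset.sum_le_sum
        intro i _
        rw [frac_mem, Real.norm_eq_abs, sq_abs]
        have h0 := Int.fract_nonneg ((t : ℝ) * w i)
        have h1 := (Int.fract_lt_one ((t : ℝ) * w i)).le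
        nlinarith
    _ = (n : ℝ) := by simp

end DIR

theorem t_DIR : S_DIR := by
  intro n w δ hδ
  set f : ℕ → E n := fun t => (t : ℝ) • w - iv (fun i => ⌊(t : ℝ) * w i⌋) with hf
  have hmem : ∀ t, f t ∈ Metric.closedBall (0 : E n) (Real.sqrt n) := by
    intro t
    rw [mem_closedBall_zero_iff]
    exact DIR.norm_frac_le w t
  obtain ⟨a, _, φ, hφ, hlim⟩ := (isCompact_closedBall (0 : E n) (Real.sqrt n)).tendsto_subseq hmem
  have hc := hlim.cauchySeq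
  obtain ⟨N, hN⟩ := Metric.cauchySeq_iff.1 hc δ hδ
  have hd := hN (N + 1) (Nat.le_succ N) N le_rfl
  have hlt : φ N < φ (N + 1) := hφ (Nat.lt_succ_self N)
  refine ⟨φ (N + 1) - φ N,
    (fun i => ⌊((φ (N + 1) : ℕ) : ℝ) * w i⌋) - (fun i => ⌊((φ N : ℕ) : ℝ) * w i⌋),
    Nat.sub_pos_of_lt hlt, ?_⟩
  rw [dist_eq_norm] at hd
  have e : ((φ (N + 1) - φ N : ℕ) : ℝ) • w -
      iv ((fun i => ⌊((φ (N + 1) : ℕ) : ℝ) * w i⌋) - (fun i => ⌊((φ N : ℕ) : ℝ) * w i⌋)) =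
      f (φ (N + 1)) - f (φ N) := by
    rw [DIR.iv_sub, Nat.cast_sub hlt.le, sub_smul]
    simp only [hf]
    abel
  rw [e]
  exact hd

end MMCI.F
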