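import Pool.Agent.MMCI.StmtsF2

/-!
# DSC: discrepancies
-/

set_option autoImplicit false

namespace MMCI.F

noncomputable section

namespace DSC

theorem mem_tight {n : ℕ} {S : Finset (Fin n → ℤ)} {b : (Fin n → ℤ) → ℝ} {x : E n}
    {ν : Fin n → ℤ} : ν ∈ tight S b x ↔ ν ∈ S ∧ ip x (iv ν) = b ν := by
  classical
  unfold tight
  rw [Finset.mem_filter]

theorem ip_sum {n : ℕ} (x : E n) (T : Finset (Fin n → ℤ)) (c : (Fin n → ℤ) → ℝ) :
    ip x (∑ ν ∈ T, c ν • iv ν) = ∑ ν ∈ T, c ν * ip x (iv ν) := by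
  unfold ip
  rw [inner_sum]
  exact Finset.sum_congr rfl fun ν _ => by rw [inner_smul_right]

end DSC

open DSC in
/-- DSC: discrepancies. -/
theorem t_DSC : S_DSC := by
  intro n μ l ε S b₀ b hl hε hS hb₀ hb v m hv hm hT w hw c hc hwc
  set N : ℝ := ∑ ν ∈ tight S b v, c ν * ‖iv ν‖ with hN
  have hN1 : ‖iv w‖ ≤ N := by
    rw [hwc, hN]
    refine (norm_sum_le _ _).trans (le_of_eq ?_)
    refine Finset.sum_congr rfl fun ν _ => ?_
    rw [norm_smul, Real.norm_eq_abs, abs_of_nonneg (hc ν)]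
  have hmw : ip m (iv w) = ∑ ν ∈ tight S b v, c ν * ip m (iv ν) := by
    rw [hwc, ip_sum]
  have hvw : ip v (iv w) = ∑ ν ∈ tight S b v, c ν * ip v (iv ν) := by
    rw [hwc, ip_sum]
  have h1 : ∑ ν ∈ tight S b v, c ν * ((μ ν : ℝ) + 1) = ip m (iv w) + l * N := by
    rw [hmw, hN, Finset.mul_sum, ← Finset.sum_add_distrib]
    refine Finset.sum_congr rfl fun ν hν => ?_
    rw [hT ν hν, hb₀ ν]
    ring
  have h2 := hm w hw
  have h3 : l * ‖iv w‖ ≤ l * N := mul_le_mul_of_nonneg_left hN1 hl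
  refine ⟨by rw [h1]; linarith, ?_⟩
  intro h4
  rw [h1] at h4
  have h5 : ip m (iv w) = μ w + 1 - l * ‖iv w‖ := by linarith
  have h6 : w ∈ S := (hS w).2 ⟨hw, m, hm, h5⟩
  have h7 : ip v (iv w) = ip m (iv w) - ε * N := by
    rw [hvw, hmw, hN, Finset.mul_sum, ← Finset.sum_sub_distrib]
    refine Finset.sum_congr rfl fun ν hν => ?_
    rw [(mem_tight.1 hν).2, hb ν, hT ν hν]
    ring
  have h8 : ε * ‖iv w‖ ≤ ε * N := mul_le_mul_of_nonneg_left hN1 hε.le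
  have h9 := hv w h6
  rw [mem_tight]
  refine ⟨h6, le_antisymm ?_ h9⟩
  rw [h7, hb w, hb₀ w]
  linarith

end

end MMCI.F
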