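import Pool.Agent.MMCI.StmtsF

/-!
# EPS: vertices of a small parallel displacement
-/

set_option autoImplicit false

namespace MMCI.F

namespace EPS

open Filter Topology

/-- The pairing with the elements of `T`, as a linear map. -/
noncomputable def Lt {n : ℕ} (T : Finset (Fin n → ℤ)) : E n →ₗ[ℝ] (T → ℝ) where
  toFun x ν := ip x (iv (ν : Fin n → ℤ))
  map_add' x y := by
    funext ν
    exact inner_add_left _ _ _
  map_smul' c x := by
    funext ν
    exact real_inner_smul_left _ _ _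

theorem exists_md {n : ℕ} (T : Finset (Fin n → ℤ)) (b h : (Fin n → ℤ) → ℝ) :
    ∃ m d : E n, (∀ y : E n, (∀ ν ∈ T, ip y (iv ν) = 0) → y = 0) →
      ∀ (ε : ℝ) (x : E n), (∀ ν ∈ T, ip x (iv ν) = b ν - ε * h ν) → x = m + ε • d := by
  by_cases hT : ∀ y : E n, (∀ ν ∈ T, ip y (iv ν) = 0) → y = 0
  · have hker : LinearMap.ker (Lt T) = ⊥ := by
      rw [LinearMap.ker_eq_bot']
      intro y hy
      apply hT
      intro ν hν
      exact congrFun hy ⟨ν, hν⟩
    obtain ⟨g, hg⟩ := LinearMap.exists_leftInverse_of_injective (Lt T) hker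
    refine ⟨g (fun ν => b ν), - g (fun ν => h ν), fun _ ε x hx => ?_⟩
    have h1 : x = g (Lt T x) := by
      have := congrArg (fun f => f x) hg
      exact this.symm
    have h2 : Lt T x = (fun ν : T => b ν) - ε • (fun ν : T => h ν) := by
      funext ν
      exact hx ν ν.2
    rw [h1, h2, map_sub, map_smul]
    module
  · exact ⟨0, 0, fun h1 => absurd h1 hT⟩

end EPS

open Filter Topology in
theorem t_EPS : S_EPS := by
  intro n S b h
  classical
  choose m d hmd using fun T => EPS.exists_md (n := n) T b h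
  have hev : ∀ᶠ ε in 𝓝[>] (0 : ℝ), ∀ T ∈ S.powerset, ∀ ν ∈ S,
      ip (m T) (iv ν) - b ν ≠ 0 →
        ε * (|ip (d T) (iv ν) + h ν| + 1) < |ip (m T) (iv ν) - b ν| := by
    rw [Filter.eventually_all_finset]
    intro T _
    rw [Filter.eventually_all_finset]
    intro ν _
    by_cases h0 : ip (m T) (iv ν) - b ν = 0
    · exact Filter.Eventually.of_forall fun ε h1 => absurd h0 h1
    · have hc : Tendsto (fun ε : ℝ => ε * (|ip (d T) (iv ν) + h ν| + 1)) (𝓝[>] (0 : ℝ))
          (𝓝 (0 * (|ip (d T) (iv ν) + h ν| + 1))) := by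
        apply Tendsto.mono_left _ nhdsWithin_le_nhds
        exact (continuous_id.mul continuous_const).tendsto 0
      rw [zero_mul] at hc
      have h2 := hc.eventually (gt_mem_nhds (abs_pos.2 h0))
      exact h2.mono fun ε h3 _ => h3
  obtain ⟨ε₁, hε₁, hε₂⟩ := mem_nhdsGT_iff_exists_Ioo_subset.1 hev
  have hε₁' : (0 : ℝ) < ε₁ := hε₁
  refine ⟨ε₁ / 2, by linarith, fun ε hε hεle x hx => ?_⟩
  have hmem : ε ∈ Set.Ioo (0 : ℝ) ε₁ := ⟨hε, by linarith⟩
  have hP := hε₂ hmem
  obtain ⟨hx1, hx2⟩ := hx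
  set T := tight S (fun ν => b ν - ε * h ν) x with hT
  have hTS : T ∈ S.powerset := by
    rw [Finset.mem_powerset, hT]
    unfold tight
    exact Finset.filter_subset _ _
  have htight : ∀ ν ∈ T, ip x (iv ν) = b ν - ε * h ν := by
    intro ν hν
    rw [hT] at hν
    unfold tight at hν
    exact (Finset.mem_filter.1 hν).2
  have hxe := hmd T hx2 ε x htight
  have hip : ∀ ν, ip x (iv ν) = ip (m T) (iv ν) + ε * ip (d T) (iv ν) := by
    intro ν
    rw [hxe]
    unfold ip
    rw [inner_add_left, real_inner_smul_left]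
  have hval : ∀ ν ∈ S, ip (m T) (iv ν) - b ν ≠ 0 →
      ε * (|ip (d T) (iv ν) + h ν| + 1) < |ip (m T) (iv ν) - b ν| := fun ν hν => hP T hTS ν hν
  refine ⟨m T, fun ν hν => ?_, fun ν hν => ?_⟩
  · have h1 : b ν - ε * h ν ≤ ip x (iv ν) := hx1 ν hν
    rw [hip] at h1
    by_contra hlt
    push Not at hlt
    have h2 : ip (m T) (iv ν) - b ν ≠ 0 := by
      intro h3
      linarith
    have h3 := hval ν hν h2
    rw [abs_of_neg (show ip (m T) (iv ν) - b ν < 0 by linarith)] at h3
    have h4 : ε * (ip (d T) (iv ν) + h ν) ≤ ε * |ip (d T) (iv ν) + h ν| :=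
      mul_le_mul_of_nonneg_left (le_abs_self _) hε.le
    nlinarith
  · have hνS : ν ∈ S := Finset.mem_powerset.1 hTS hν
    have h1 := htight ν hν
    rw [hip] at h1
    by_contra hne
    have h2 : ip (m T) (iv ν) - b ν ≠ 0 := fun h3 => hne (by linarith)
    have h3 := hval ν hνS h2
    have h4 : ip (m T) (iv ν) - b ν = - (ε * (ip (d T) (iv ν) + h ν)) := by linarith
    rw [h4, abs_neg, abs_mul, abs_of_pos hε] at h3
    nlinarith

end MMCI.F
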