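import Pool.Agent.MMCI.StmtsF2

/-!
# FCT: two different facets
-/

set_option autoImplicit false

namespace MMCI.F

namespace FCT

theorem ip_comb {n : ℕ} (y a a' : E n) (K : ℝ) : ip y (K • a - a') = K * ip y a - ip y a' := by
  unfold ip
  rw [inner_sub_right, inner_smul_right]

end FCT

theorem t_FCT (hVRT : S_VRT) : S_FCT := by
  intro n S b ν x₀ hbd hν hx₀ hx₀' ν' hν' hne
  obtain ⟨hfin, hmin⟩ := hVRT S b
  have hx₀P : x₀ ∈ Poly S b := by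
    intro ρ hρ
    by_cases h : ρ = ν
    · rw [h, hx₀]
    · exact (hx₀' ρ hρ h).le
  obtain ⟨K, hK⟩ := (hfin.image fun y : E n =>
    (ip y (iv ν') - ip x₀ (iv ν')) / (ip y (iv ν) - b ν)).bddAbove
  obtain ⟨v, hv, hvm⟩ := hmin ⟨x₀, hx₀P⟩ hbd ((K + 1) • iv ν - iv ν')
  have h1 := hvm x₀ hx₀P
  rw [FCT.ip_comb, FCT.ip_comb, hx₀] at h1
  have h2 : b ν ≤ ip v (iv ν) := hv.1 ν hν
  have h3 : ip v (iv ν) = b ν := by
    by_contra hcon
    have h4 : 0 < ip v (iv ν) - b ν := sub_pos.2 (lt_of_le_of_ne h2 (Ne.symm hcon))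
    have h5 : (ip v (iv ν') - ip x₀ (iv ν')) / (ip v (iv ν) - b ν) ≤ K := hK ⟨v, hv, rfl⟩
    rw [div_le_iff₀ h4] at h5
    nlinarith
  rw [h3] at h1
  have h6 := hx₀' ν' hν' hne
  refine ⟨v, hv, ?_, ?_⟩
  · unfold tight
    rw [Finset.mem_filter]
    exact ⟨hν, h3⟩
  · unfold tight
    rw [Finset.mem_filter]
    rintro ⟨-, h7⟩
    linarith

end MMCI.F
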