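import Pool.Agent.MMCI.StmtsF

/-!
# Fans: finiteness of the tight vectors
-/

set_option autoImplicit false

namespace MMCI.F

noncomputable section

/-- The integral vectors of bounded norm form a finite set. -/
theorem FNT.finite_bounded {n : ℕ} (C : ℝ) : {w : Fin n → ℤ | ‖iv w‖ ≤ C}.Finite := by
  obtain ⟨N, hN⟩ := exists_nat_ge C
  have h1 : {f : Fin n → ℤ | ∀ i, f i ∈ Set.Icc (-(N : ℤ)) N}.Finite :=
    Set.Finite.pi' fun _ => Set.finite_Icc _ _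
  refine h1.subset ?_
  intro w hw i
  have h2 : |(w i : ℝ)| ≤ ‖iv w‖ := by
    have h3 : ‖(iv w) i‖ ≤ ‖iv w‖ := PiLp.norm_apply_le (iv w) i
    simpa [iv] using h3
  have h3 : |(w i : ℝ)| ≤ (N : ℝ) := h2.trans (le_trans hw hN)
  rw [abs_le] at h3
  constructor
  · exact_mod_cast h3.1
  · exact_mod_cast h3.2

theorem t_FNT (hBAS : S_BAS) (hDEL : S_DEL) : S_FNT := by
  intro n P μ hP hμ l
  obtain ⟨hb1, -, -, -, -⟩ := hBAS P μ hP hμ
  obtain ⟨δ, hδ, hd⟩ := hDEL P μ hP hμ l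
  have hfin : {ν : Fin n → ℤ | Prim ν ∧ ∃ x, Feas μ l x ∧
      ip x (iv ν) = μ ν + 1 - l * ‖iv ν‖}.Finite := by
    refine (FNT.finite_bounded (n := n) (1 / δ)).subset ?_
    rintro ν ⟨-, x, hx, he⟩
    have h := hd x hx (iv ν)
    rw [hb1 ν, he] at h
    show ‖iv ν‖ ≤ 1 / δ
    rw [le_div_iff₀ hδ]
    linarith
  exact ⟨hfin.toFinset, fun ν => by simp⟩

end

end MMCI.F
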