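import Pool.Agent.MMCI.StmtsF
import Pool.Agent.TD.Y.Cone

/-! Optimality (module MMF_FRK): Farkas lemma for the tight normals. -/

set_option autoImplicit false

namespace MMCI.F

namespace FRK

open Filter Topology

theorem small_step {n : ℕ} (S : Finset (Fin n → ℤ)) (b : (Fin n → ℤ) → ℝ) (x y : E n)
    (hx : x ∈ Poly S b) (hy : ∀ ν ∈ tight S b x, 0 ≤ ip y (iv ν)) :
    ∃ t : ℝ, 0 < t ∧ x + t • y ∈ Poly S b := by
  classical
  have hadd : ∀ (t : ℝ) (ν : Fin n → ℤ), ip (x + t • y) (iv ν) = ip x (iv ν) + t * ip y (iv ν) := by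
    intro t ν
    simp only [ip, inner_add_left, real_inner_smul_left]
  have h1 : ∀ᶠ t in 𝓝[>] (0 : ℝ), ∀ ν ∈ S, b ν ≤ ip (x + t • y) (iv ν) := by
    rw [Filter.eventually_all_finset]
    intro ν hν
    by_cases hT : ip x (iv ν) = b ν
    · have hm : ν ∈ tight S b x := by
        simp only [tight, Finset.mem_filter]
        exact ⟨hν, hT⟩
      filter_upwards [self_mem_nhdsWithin] with t ht
      rw [hadd, hT]
      have := mul_nonneg (le_of_lt (Set.mem_Ioi.mp ht)) (hy ν hm)
      linarith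
    · have hlt : b ν < ip x (iv ν) := lt_of_le_of_ne (hx ν hν) (Ne.symm hT)
      have hcont : Continuous fun t : ℝ => ip x (iv ν) + t * ip y (iv ν) := by fun_prop
      have h2 : ∀ᶠ t in 𝓝 (0 : ℝ), b ν < ip x (iv ν) + t * ip y (iv ν) := by
        apply hcont.continuousAt.eventually_const_lt
        simpa using hlt
      filter_upwards [nhdsWithin_le_nhds h2] with t ht
      rw [hadd]
      exact le_of_lt ht
  have h3 : ∀ᶠ t in 𝓝[>] (0 : ℝ), 0 < t := by
    filter_upwards [self_mem_nhdsWithin] with t ht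
    exact ht
  obtain ⟨t, ht1, ht2⟩ := (h3.and h1).exists
  exact ⟨t, ht1, ht2⟩

end FRK

theorem t_FRK : S_FRK := by
  intro n S b x w hx hmin
  classical
  have key : ∀ y : E n, (∀ ν ∈ tight S b x, 0 ≤ ip y (iv ν)) → 0 ≤ ip y w := by
    intro y hy
    obtain ⟨t, ht, hP⟩ := FRK.small_step S b x y hx hy
    have h1 := hmin _ hP
    have h2 : ip (x + t • y) w = ip x w + t * ip y w := by
      simp only [ip, inner_add_left, real_inner_smul_left]
    rw [h2] at h1
    have h3 : 0 ≤ t * ip y w := by linarith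
    exact nonneg_of_mul_nonneg_right h3 ht
  obtain ⟨l, hl, hc⟩ := Pool.Agent.TD.farkas_field (k := ℝ) (W := E n) (tight S b x)
    (fun ν => -(innerₛₗ ℝ (iv ν))) (-(innerₛₗ ℝ w)) (by
      intro y hy
      have h1 := key y (fun ν hν => by
        have h2 := hy ν hν
        rw [LinearMap.neg_apply, innerₛₗ_apply_apply] at h2
        rw [ip, real_inner_comm]
        linarith)
      rw [LinearMap.neg_apply, innerₛₗ_apply_apply]
      rw [ip, real_inner_comm] at h1
      linarith)
  refine ⟨l, hl, ?_⟩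
  apply ext_inner_right ℝ
  intro y
  have h1 := congrArg (fun f : E n →ₗ[ℝ] ℝ => f y) hc
  simp only [LinearMap.neg_apply, LinearMap.sum_apply, LinearMap.smul_apply,
    innerₛₗ_apply_apply, smul_eq_mul, mul_neg, Finset.sum_neg_distrib, neg_inj] at h1
  rw [h1, sum_inner]
  exact Finset.sum_congr rfl fun ν _ => by rw [real_inner_smul_left]

end MMCI.F
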