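import Pool.Agent.MMCI.StmtsF2

/-!
# Fans: the main theorem of the convex geometry
-/

set_option autoImplicit false

namespace MMCI.F

noncomputable section

namespace FAN

variable {n : ℕ}

theorem ip_iv (x y : Fin n → ℤ) : ip (iv x) (iv y) = (pr x y : ℝ) := by
  unfold ip iv pr
  rw [PiLp.inner_apply]
  push_cast
  refine Finset.sum_congr rfl fun i _ => ?_
  simp [mul_comm]

theorem ip_sum {ι : Type} (s : Finset ι) (x : E n) (c : ι → ℝ) (y : ι → E n) :
    ip x (∑ i ∈ s, c i • y i) = ∑ i ∈ s, c i * ip x (y i) := by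
  unfold ip
  rw [inner_sum]
  refine Finset.sum_congr rfl fun i _ => ?_
  rw [inner_smul_right]

theorem iv_of_cone {T : Finset (Fin n → ℤ)} {w : Fin n → ℤ} {c : (Fin n → ℤ) → ℝ}
    (h : ∀ i, (w i : ℝ) = ∑ ν ∈ T, c ν * (ν i : ℝ)) : iv w = ∑ ν ∈ T, c ν • iv ν := by
  ext i
  have : (iv w : E n) i = (w i : ℝ) := rfl
  rw [this, h i]
  simp [iv]

theorem cone_of_iv {T : Finset (Fin n → ℤ)} {w : Fin n → ℤ} {c : (Fin n → ℤ) → ℝ}
    (h : iv w = ∑ ν ∈ T, c ν • iv ν) (i : Fin n) : (w i : ℝ) = ∑ ν ∈ T, c ν * (ν i : ℝ) := by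
  have h1 : (iv w : E n) i = (w i : ℝ) := rfl
  rw [← h1, h]
  simp [iv]

theorem pr_cone {T : Finset (Fin n → ℤ)} {w : Fin n → ℤ} {c : (Fin n → ℤ) → ℝ}
    (h : ∀ i, (w i : ℝ) = ∑ ν ∈ T, c ν * (ν i : ℝ)) (a : Fin n → ℤ) :
    (pr a w : ℝ) = ∑ ν ∈ T, c ν * (pr a ν : ℝ) := by
  rw [← ip_iv, iv_of_cone h, ip_sum]
  refine Finset.sum_congr rfl fun ν _ => ?_
  rw [ip_iv]

theorem pr_sub (a b w : Fin n → ℤ) : pr (a - b) w = pr a w - pr b w := by
  unfold pr
  rw [← Finset.sum_sub_distrib]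
  refine Finset.sum_congr rfl fun i _ => ?_
  simp [sub_mul]

theorem pr_self_pos {w : Fin n → ℤ} (hw : w ≠ 0) : 0 < pr w w := by
  unfold pr
  obtain ⟨i, hi⟩ : ∃ i, w i ≠ 0 := by
    by_contra h
    push Not at h
    exact hw (funext h)
  refine Finset.sum_pos' (fun j _ => mul_self_nonneg _) ⟨i, Finset.mem_univ _, ?_⟩
  exact mul_self_pos.mpr hi

theorem mem_tight {S : Finset (Fin n → ℤ)} {b : (Fin n → ℤ) → ℝ} {x : E n} {ν : Fin n → ℤ} :
    ν ∈ tight S b x ↔ ν ∈ S ∧ ip x (iv ν) = b ν := by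
  classical
  unfold tight
  simp [Finset.mem_filter]

/-- A nonnegative combination with the sum zero. -/
theorem comb_zero {T : Finset (Fin n → ℤ)} {c : (Fin n → ℤ) → ℝ} (hc : ∀ ν, 0 ≤ c ν)
    {g : (Fin n → ℤ) → ℝ} (hg : ∀ ν ∈ T, 0 ≤ g ν) (h : ∑ ν ∈ T, c ν * g ν ≤ 0) :
    ∀ ν ∈ T, 0 < c ν → g ν = 0 := by
  intro ν hν hcν
  have h1 : ∑ ν ∈ T, c ν * g ν = 0 :=
    le_antisymm h (Finset.sum_nonneg fun ν hν => mul_nonneg (hc ν) (hg ν hν))
  have h2 := (Finset.sum_eq_zero_iff_of_nonneg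
    (fun ν hν => mul_nonneg (hc ν) (hg ν hν))).mp h1 ν hν
  rcases mul_eq_zero.mp h2 with h3 | h3
  · exact absurd h3 hcν.ne'
  · exact h3

end FAN

open FAN

theorem t_Fan (hVRT : S_VRT) (hFRK : S_FRK) (hCIR : S_CIR) (hREA : S_REA) (hFCT : S_FCT)
    (hNTV : S_NTV) (hORT : S_ORT) (hABK : S_ABK) (hDSC : S_DSC) : S_Fan := by
  classical
  intro n P μ hP hμ
  obtain ⟨l, ε, S, b₀, b, hl, hε, hS, hfe, hmin, hb0, hb, hbd, hm, hfac⟩ := hREA P μ hP hμ
  have hfin : {x : E n | IsVert S b x}.Finite := (hVRT S b).1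
  let V : Type := {x : E n // IsVert S b x}
  haveI hVf : Fintype V := hfin.fintype
  have hprim : ∀ ν ∈ S, Prim ν := fun ν hν => ((hS ν).mp hν).1
  have hpne : ∀ ν ∈ S, ν ≠ 0 := fun ν hν => (hprim ν hν).1
  have hfeb : ∀ x : E n, Feas μ l x → ∀ ν ∈ S, b₀ ν ≤ ip x (iv ν) := by
    intro x hx ν hν
    rw [hb0]
    exact hx ν (hprim ν hν)
  have hbb0 : ∀ ν, b ν ≤ b₀ ν := by
    intro ν
    rw [hb]
    have := mul_nonneg hε.le (norm_nonneg (iv ν))
    linarith
  have hPne : (Poly S b).Nonempty := by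
    obtain ⟨x, hx⟩ := hfe
    exact ⟨x, fun ν hν => (hbb0 ν).trans (hfeb x hx ν hν)⟩
  have hvrt : ∀ w : E n, ∃ x : V, ∀ y ∈ Poly S b, ip x.1 w ≤ ip y w := by
    intro w
    obtain ⟨x, hx, hy⟩ := (hVRT S b).2 hPne hbd w
    exact ⟨⟨x, hx⟩, hy⟩
  haveI hVn : Nonempty V := ⟨(hvrt 0).choose⟩
  have hm' : ∀ v : V, ∃ m : E n, Feas μ l m ∧ ∀ ν ∈ tight S b v.1, ip m (iv ν) = b₀ ν :=
    fun v => hm v.1 v.2
  choose m hmF hmT using hm'
  let κ : V → E n := fun v => m v + (l / ε) • (m v - v.1)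
  let T : V → Finset (Fin n → ℤ) := fun v => tight S b v.1
  have hTS : ∀ v, ∀ ν ∈ T v, ν ∈ S := fun v ν hν => (mem_tight.mp hν).1
  have hTb : ∀ v : V, ∀ ν ∈ T v, ip v.1 (iv ν) = b ν := fun v ν hν => (mem_tight.mp hν).2
  have hκv : ∀ (v : V) (w : E n), ip (κ v) w = ip (m v) w + (l / ε) * (ip (m v) w - ip v.1 w) := by
    intro v w
    show inner ℝ (m v + (l / ε) • (m v - v.1)) w = _
    rw [inner_add_left, inner_smul_left, inner_sub_left]
    rfl
  have hκ : ∀ v, ∀ ν ∈ T v, ip (κ v) (iv ν) = μ ν + 1 := by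
    intro v ν hν
    rw [hκv, hmT v ν hν, hTb v ν hν, hb ν, hb0 ν]
    field_simp
    ring
  have hTspan : ∀ v : V, ∀ y : E n, (∀ ν ∈ T v, ip y (iv ν) = 0) → y = 0 := fun v => v.2.2
  obtain ⟨A, B, k, r, hr, hA, hB, hk⟩ := hABK S T μ (fun v => v.1) m κ hκ hTspan
  have hrR : (0 : ℝ) < r := by exact_mod_cast hr
  have hprk : ∀ v (w : Fin n → ℤ), (pr (k v) w : ℝ) = r * ip (κ v) (iv w) := by
    intro v w
    rw [← ip_iv, hk v]
    show inner ℝ ((r : ℝ) • κ v) (iv w) = _
    rw [inner_smul_left]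
    rfl
  have hample : ∀ v v' : V, ∀ ν ∈ T v, pr (A v) ν ≤ pr (A v') ν ∧
      (pr (A v') ν = pr (A v) ν → ν ∈ T v') := by
    intro v v' ν hν
    have h1 : ip v.1 (iv ν) ≤ ip v'.1 (iv ν) := by
      rw [hTb v ν hν]
      exact v'.2.1 ν (hTS v ν hν)
    rcases h1.lt_or_eq with h2 | h2
    · have h3 := (hA v v' ν (hTS v ν hν)).1 h2
      exact ⟨h3.le, fun h => absurd h h3.ne'⟩
    · have h3 := (hA v v' ν (hTS v ν hν)).2 h2
      refine ⟨h3.le, fun _ => mem_tight.mpr ⟨hTS v ν hν, ?_⟩⟩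
      rw [← h2, hTb v ν hν]
  have hcone : ∀ (v : V) (w : Fin n → ℤ), (∀ v', pr (A v) w ≤ pr (A v') w) → InCone (T v) w := by
    intro v w hw
    obtain ⟨v₁, hv₁⟩ := hvrt (iv w)
    obtain ⟨c, hc, hcw⟩ := hFRK S b v₁.1 (iv w) v₁.2.1 hv₁
    have hcw' := cone_of_iv hcw
    have hz : ∀ ν ∈ T v₁, 0 < c ν → ((pr (A v) ν : ℝ) - pr (A v₁) ν) = 0 := by
      refine comb_zero (T := T v₁) hc (g := fun ν => (pr (A v) ν : ℝ) - pr (A v₁) ν) ?_ ?_
      · intro ν hν
        have := (hample v₁ v ν hν).1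
        have : (pr (A v₁) ν : ℝ) ≤ pr (A v) ν := by exact_mod_cast this
        linarith
      · have h1 := pr_cone hcw' (A v)
        have h2 := pr_cone hcw' (A v₁)
        have h3 : ∑ ν ∈ T v₁, c ν * ((pr (A v) ν : ℝ) - pr (A v₁) ν) =
            (pr (A v) w : ℝ) - pr (A v₁) w := by
          rw [h1, h2, ← Finset.sum_sub_distrib]
          refine Finset.sum_congr rfl fun ν _ => ?_
          ring
        show ∑ ν ∈ T v₁, c ν * ((pr (A v) ν : ℝ) - pr (A v₁) ν) ≤ 0
        rw [h3]
        have h4 : (pr (A v) w : ℝ) ≤ pr (A v₁) w := by exact_mod_cast hw v₁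
        linarith
    have hmem : ∀ ν ∈ T v₁, c ν ≠ 0 → ν ∈ T v := by
      intro ν hν hcν
      have h1 := hz ν hν (lt_of_le_of_ne (hc ν) (Ne.symm hcν))
      have h2 : pr (A v) ν = pr (A v₁) ν := by
        have : (pr (A v) ν : ℝ) = pr (A v₁) ν := by linarith
        exact_mod_cast this
      exact (hample v₁ v ν hν).2 h2
    refine ⟨fun ν => if ν ∈ T v₁ then c ν else 0, ?_, ?_⟩
    · intro ν
      dsimp only
      split_ifs
      · exact hc ν
      · exact le_refl _
    · intro i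
      rw [hcw' i]
      have e1 : ∑ ν ∈ T v₁, c ν * (ν i : ℝ) =
          ∑ ν ∈ S, (if ν ∈ T v₁ then c ν else 0) * (ν i : ℝ) := by
        rw [← Finset.sum_subset (fun ν hν => hTS v₁ ν hν : T v₁ ⊆ S)]
        · refine Finset.sum_congr rfl fun ν hν => ?_
          rw [if_pos hν]
        · intro ν _ hν
          rw [if_neg hν, zero_mul]
      have e2 : ∑ ν ∈ T v, (if ν ∈ T v₁ then c ν else 0) * (ν i : ℝ) =
          ∑ ν ∈ S, (if ν ∈ T v₁ then c ν else 0) * (ν i : ℝ) := by
        refine Finset.sum_subset (fun ν hν => hTS v ν hν : T v ⊆ S) ?_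
        intro ν _ hν
        by_cases h : ν ∈ T v₁
        · rw [if_pos h]
          by_cases h0 : c ν = 0
          · rw [h0, zero_mul]
          · exact absurd (hmem ν h h0) hν
        · rw [if_neg h, zero_mul]
      rw [e2]
      exact e1
  -- combinations which are equal at two vertices
  have hshare : ∀ (v v₂ : V) (w : Fin n → ℤ) (c : (Fin n → ℤ) → ℝ), (∀ ν, 0 ≤ c ν) →
      (∀ i, (w i : ℝ) = ∑ ν ∈ T v, c ν * (ν i : ℝ)) → pr (A v₂) w ≤ pr (A v) w →
      ∀ ν ∈ T v, c ν ≠ 0 → ν ∈ T v₂ := by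
    intro v v₂ w c hc hcw hle ν hν hcν
    have hz := comb_zero (T := T v) hc (g := fun ν => (pr (A v₂) ν : ℝ) - pr (A v) ν) (by
      intro ν hν
      have := (hample v v₂ ν hν).1
      have : (pr (A v) ν : ℝ) ≤ pr (A v₂) ν := by exact_mod_cast this
      linarith) (by
      have h1 := pr_cone hcw (A v)
      have h2 := pr_cone hcw (A v₂)
      have h3 : ∑ ν ∈ T v, c ν * ((pr (A v₂) ν : ℝ) - pr (A v) ν) =
          (pr (A v₂) w : ℝ) - pr (A v) w := by
        rw [h1, h2, ← Finset.sum_sub_distrib]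
        refine Finset.sum_congr rfl fun ν _ => ?_
        ring
      show ∑ ν ∈ T v, c ν * ((pr (A v₂) ν : ℝ) - pr (A v) ν) ≤ 0
      rw [h3]
      have h4 : (pr (A v₂) w : ℝ) ≤ pr (A v) w := by exact_mod_cast hle
      linarith)
    have h1 := hz ν hν (lt_of_le_of_ne (hc ν) (Ne.symm hcν))
    have h2 : pr (A v₂) ν = pr (A v) ν := by
      have : (pr (A v₂) ν : ℝ) = pr (A v) ν := by
        simpa [sub_eq_zero] using h1
      exact_mod_cast this
    exact (hample v v₂ ν hν).2 h2
  have hfull : ∀ w, (∀ v v', pr (A v) w = pr (A v') w) → w = 0 := by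
    intro w hw
    obtain ⟨v⟩ := hVn
    obtain ⟨c, hc, hcw⟩ := hcone v w fun v' => (hw v v').le
    by_contra hne
    have hex : ∃ ν ∈ T v, c ν ≠ 0 := by
      by_contra h
      push Not at h
      refine hne (funext fun i => ?_)
      have : (w i : ℝ) = 0 := by
        rw [hcw i]
        refine Finset.sum_eq_zero fun ν hν => ?_
        rw [h ν hν, zero_mul]
      exact_mod_cast this
    obtain ⟨ν, hν, hcν⟩ := hex
    obtain ⟨x₀, hx₀, hx₁⟩ := hfac ν (hTS v ν hν)
    obtain ⟨v₂, hv₂, hnot⟩ := hNTV S b ν x₀ hbd (hpne ν (hTS v ν hν)) (hTS v ν hν) hx₀ hx₁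
    exact hnot (hshare v ⟨v₂, hv₂⟩ w c hc hcw (hw ⟨v₂, hv₂⟩ v).le ν hν hcν)
  have hfacet : ∀ v, ∀ ν ∈ T v, ∀ a, pr a ν = 0 → ∃ N : ℕ, 0 < N ∧
      N • a ∈ AddSubgroup.closure {b | ∃ v', pr (A v') ν = pr (A v) ν ∧ b = A v' - A v} := by
    intro v ν hν a ha
    by_contra hcon
    push Not at hcon
    obtain ⟨u, hu, hau⟩ := hORT _ a fun N hN => hcon N hN
    have hνne := hpne ν (hTS v ν hν)
    have hq := pr_self_pos hνne
    let u' : Fin n → ℤ := pr ν ν • u - pr u ν • ν
    have hlin : ∀ x : Fin n → ℤ, pr x u' = pr ν ν * pr x u - pr u ν * pr x ν := by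
      intro x
      simp only [pr, u', Pi.sub_apply, Pi.smul_apply, smul_eq_mul]
      rw [Finset.mul_sum, Finset.mul_sum, ← Finset.sum_sub_distrib]
      refine Finset.sum_congr rfl fun i _ => ?_
      ring
    have hcomm : ∀ x y : Fin n → ℤ, pr x y = pr y x := by
      intro x y
      unfold pr
      exact Finset.sum_congr rfl fun i _ => mul_comm _ _
    have hu'ν : pr ν u' = 0 := by
      rw [hlin, hcomm ν u]
      ring
    have hzero : ∀ v' : V, pr (A v') ν = pr (A v) ν → pr (A v') u' = pr (A v) u' := by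
      intro v' h
      have h1 : pr (A v' - A v) u = 0 := hu _ (AddSubgroup.subset_closure ⟨v', h, rfl⟩)
      have h2 : pr (A v' - A v) u' = 0 := by
        rw [hlin, h1, pr_sub, h]
        ring
      rw [pr_sub] at h2
      linarith
    let K : ℤ := ∑ v' : V, |pr (A v') u' - pr (A v) u'|
    let w : Fin n → ℤ := K • ν + u'
    have hw : ∀ x : Fin n → ℤ, pr x w = K * pr x ν + pr x u' := by
      intro x
      simp only [pr, w, Pi.add_apply, Pi.smul_apply, smul_eq_mul]
      rw [Finset.mul_sum, ← Finset.sum_add_distrib]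
      refine Finset.sum_congr rfl fun i _ => ?_
      ring
    have hK : ∀ v' : V, |pr (A v') u' - pr (A v) u'| ≤ K := fun v' =>
      Finset.single_le_sum (f := fun v' : V => |pr (A v') u' - pr (A v) u'|)
        (fun _ _ => abs_nonneg _) (Finset.mem_univ v')
    have hK0 : 0 ≤ K := Finset.sum_nonneg fun _ _ => abs_nonneg _
    have hwmin : ∀ v', pr (A v) w ≤ pr (A v') w := by
      intro v'
      rw [hw, hw]
      have h1 := (hample v v' ν hν).1
      rcases h1.lt_or_eq with h2 | h2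
      · have h3 := (abs_le.mp (hK v')).1
        have h4 : K * (pr (A v) ν + 1) ≤ K * pr (A v') ν :=
          mul_le_mul_of_nonneg_left h2 hK0
        linarith
      · rw [hzero v' h2.symm, h2]
    obtain ⟨c, hc, hcw⟩ := hcone v w hwmin
    obtain ⟨x₀, hx₀, hx₁⟩ := hfac ν (hTS v ν hν)
    have hc0 : ∀ ν' ∈ T v, ν' ≠ ν → c ν' = 0 := by
      intro ν' hν' hne
      by_contra hcν
      obtain ⟨v₂, hv₂, hin, hnot⟩ := hFCT S b ν x₀ hbd (hTS v ν hν) hx₀ hx₁ ν' (hTS v ν' hν') hne
      have e1 : pr (A ⟨v₂, hv₂⟩) ν = pr (A v) ν := by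
        refine (hA ⟨v₂, hv₂⟩ v ν (hTS v ν hν)).2 ?_
        show ip v₂ (iv ν) = ip v.1 (iv ν)
        rw [hTb v ν hν, (mem_tight.mp hin).2]
      have e2 : pr (A ⟨v₂, hv₂⟩) w = pr (A v) w := by
        rw [hw, hw, e1, hzero _ e1]
      exact hnot (hshare v ⟨v₂, hv₂⟩ w c hc hcw e2.le ν' hν' hcν)
    have hwi : ∀ i, (w i : ℝ) = c ν * ν i := by
      intro i
      rw [hcw i]
      refine Finset.sum_eq_single ν ?_ ?_
      · intro ν' hν' hne
        rw [hc0 ν' hν' hne, zero_mul]
      · intro h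
        exact absurd hν h
    have hu'i : ∀ i, (u' i : ℝ) = (c ν - K) * ν i := by
      intro i
      have h1 := hwi i
      have h2 : (w i : ℝ) = K * ν i + u' i := by
        simp only [w, Pi.add_apply, Pi.smul_apply, smul_eq_mul]
        push_cast
        ring
      rw [h2] at h1
      linarith
    have hck : c ν - K = 0 := by
      have h1 : ((pr ν u' : ℤ) : ℝ) = (c ν - K) * (pr ν ν : ℝ) := by
        simp only [pr]
        push_cast
        rw [Finset.mul_sum]
        refine Finset.sum_congr rfl fun i _ => ?_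
        rw [hu'i i]
        ring
      rw [hu'ν] at h1
      have h2 : ((pr ν ν : ℤ) : ℝ) ≠ 0 := by exact_mod_cast hq.ne'
      have h3 : (c ν - K) * (pr ν ν : ℝ) = 0 := by rw [← h1]; simp
      exact (mul_eq_zero.mp h3).resolve_right h2
    have hu'0 : u' = 0 := by
      funext i
      have := hu'i i
      rw [hck, zero_mul] at this
      exact_mod_cast this
    have h1 : pr a u' = 0 := by
      rw [hu'0]
      simp [pr]
    rw [hlin, ha] at h1
    have h2 : pr ν ν * pr a u = 0 := by linarith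
    rcases mul_eq_zero.mp h2 with h | h
    · exact hq.ne' h
    · exact hau h
  have hcanR : ∀ v, ∀ ν ∈ T v, (pr (k v) ν : ℝ) = r * (μ ν + 1) := by
    intro v ν hν
    rw [hprk, hκ v ν hν]
  let D : Fan n μ :=
    { V := V
      fin := hVf
      ne := hVn
      T := T
      A := A
      B := B
      k := k
      r := r
      r_pos := hr
      prim := fun v ν hν => hprim ν (hTS v ν hν)
      span := by
        intro v m' hm'
        have h1 : iv m' = 0 := by
          refine hTspan v (iv m') fun ν hν => ?_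
          rw [ip_iv, hm' ν hν]
          simp
        funext i
        have h2 : (iv m' : E n) i = (m' i : ℝ) := rfl
        rw [h1] at h2
        have h3 : (m' i : ℝ) = 0 := by rw [← h2]; rfl
        exact_mod_cast h3
      full := hfull
      cone := hcone
      ample := hample
      nef := by
        intro v v' ν hν
        have h1 : ip (m v) (iv ν) ≤ ip (m v') (iv ν) := by
          rw [hmT v ν hν]
          exact hfeb (m v') (hmF v') ν (hTS v ν hν)
        rcases h1.lt_or_eq with h2 | h2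
        · exact ((hB v v' ν (hTS v ν hν)).1 h2).le
        · exact ((hB v v' ν (hTS v ν hν)).2 h2).le
      facet := hfacet
      canon := by
        intro v ν hν
        have := hcanR v ν hν
        exact_mod_cast this
      disc := by
        intro v w hw hwc
        obtain ⟨c, hc, hcw⟩ := hwc
        have hiv := iv_of_cone hcw
        obtain ⟨h1, h2⟩ := hDSC μ l ε S b₀ b hl hε hS hb0 hb v.1 (m v) v.2.1 (hmF v) (hmT v) w hw c
          hc hiv
        have h3 : (pr (k v) w : ℝ) = r * ∑ ν ∈ tight S b v.1, c ν * ((μ ν : ℝ) + 1) := by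
          rw [hprk, hiv, ip_sum]
          congr 1
          refine Finset.sum_congr rfl fun ν hν => ?_
          rw [hκ v ν hν]
        constructor
        · have h4 : (r : ℝ) * (μ w + 1) ≤ pr (k v) w := by
            rw [h3]
            exact mul_le_mul_of_nonneg_left h1 hrR.le
          exact_mod_cast h4
        · intro heq
          refine h2 ?_
          have h4 : (pr (k v) w : ℝ) = r * (μ w + 1) := by
            rw [heq]
            push_cast
            ring
          rw [h3] at h4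
          exact mul_left_cancel₀ hrR.ne' h4 }
  have hNef : l = 0 → D.NefK := by
    intro hl0 v v' ν hν
    have h1 : (pr (k v) ν : ℝ) ≤ pr (k v') ν := by
      rw [hcanR v ν hν, hprk, hκv, hl0]
      refine mul_le_mul_of_nonneg_left ?_ hrR.le
      have h2 := hmF v' ν (hprim ν (hTS v ν hν))
      rw [hl0] at h2
      simp only [zero_mul, sub_zero, zero_div, add_zero] at h2 ⊢
      exact h2
    exact_mod_cast h1
  refine ⟨D, ?_, ?_⟩
  · rcases hl.lt_or_eq with hlpos | hl0
    · right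
      refine ⟨?_, ?_⟩
      · intro v v' ν hν hBeq
        have hνS : ν ∈ S := hTS v' ν hν
        have hmeq : ip (m v) (iv ν) = b₀ ν := by
          have h1 : ip (m v') (iv ν) ≤ ip (m v) (iv ν) := by
            rw [hmT v' ν hν]
            exact hfeb (m v) (hmF v) ν hνS
          rcases h1.lt_or_eq with h2 | h2
          · have h3 := (hB v' v ν hνS).1 h2
            exact absurd hBeq h3.ne'
          · rw [← h2]
            exact hmT v' ν hν
        have hvb : b ν ≤ ip v.1 (iv ν) := v.2.1 ν hνS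
        have hd : (pr (k v') ν : ℝ) - pr (k v) ν = r * ((l / ε) * (ip v.1 (iv ν) - b ν)) := by
          rw [hprk, hprk, hκv, hκv, hmeq, hmT v' ν hν, hTb v' ν hν]
          ring
        have hq : 0 < l / ε := div_pos hlpos hε
        constructor
        · have h1 : (0 : ℝ) ≤ (pr (k v') ν : ℝ) - pr (k v) ν := by
            rw [hd]
            exact mul_nonneg hrR.le (mul_nonneg hq.le (by linarith))
          have h2 : (pr (k v) ν : ℝ) ≤ pr (k v') ν := by linarith
          exact_mod_cast h2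
        · intro heq
          have heq' : (pr (k v) ν : ℝ) = pr (k v') ν := by exact_mod_cast heq
          rw [heq', sub_self] at hd
          have h1 : (l / ε) * (ip v.1 (iv ν) - b ν) = 0 :=
            (mul_eq_zero.mp hd.symm).resolve_left hrR.ne'
          have h2 := (mul_eq_zero.mp h1).resolve_left hq.ne'
          exact mem_tight.mpr ⟨hνS, by linarith⟩
      · obtain ⟨g, ν, c, hg, hν, hc, hrel, huniq⟩ := hCIR P μ hP hμ l S hlpos hS hfe hmin
        refine ⟨g, ν, c, hg, hc, hrel, huniq, ?_, ?_⟩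
        · intro j v v'
          refine (hB v v' (ν j) (hν j).1).2 ?_
          rw [(hν j).2 _ (hmF v), (hν j).2 _ (hmF v')]
        · obtain ⟨x, hx⟩ := hfe
          have h1 : ∀ j, (μ (ν j) : ℝ) + 1 = ip x (iv (ν j)) + l * ‖iv (ν j)‖ := by
            intro j
            rw [(hν j).2 x hx]
            ring
          have h2 : ∑ j, (c j : ℝ) * ip x (iv (ν j)) = 0 := by
            have h3 : ∑ j, (c j : ℝ) • (iv (ν j) : E n) = 0 := by
              ext i
              have h4 := congrFun hrel i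
              simp only [Finset.sum_apply, Pi.smul_apply, smul_eq_mul, Pi.zero_apply] at h4
              have h5 : ∑ j, (c j : ℝ) * (ν j i : ℝ) = 0 := by exact_mod_cast h4
              simpa [iv] using h5
            have h6 := ip_sum (Finset.univ) x (fun j => (c j : ℝ)) (fun j => iv (ν j))
            rw [← h6, h3]
            simp [ip]
          have h7 : ((∑ j, c j * (μ (ν j) + 1) : ℤ) : ℝ) = l * ∑ j, (c j : ℝ) * ‖iv (ν j)‖ := by
            push_cast
            have h8 : ∀ j, (c j : ℝ) * ((μ (ν j) : ℝ) + 1) =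
                (c j : ℝ) * ip x (iv (ν j)) + l * ((c j : ℝ) * ‖iv (ν j)‖) := by
              intro j
              rw [h1 j]
              ring
            rw [Finset.sum_congr rfl fun j _ => h8 j, Finset.sum_add_distrib, h2, zero_add,
              ← Finset.mul_sum]
          have h9 : (0 : ℝ) < l * ∑ j, (c j : ℝ) * ‖iv (ν j)‖ := by
            refine mul_pos hlpos (Finset.sum_pos (fun j _ => mul_pos ?_ ?_) ⟨0, Finset.mem_univ _⟩)
            · exact_mod_cast hc j
            · refine norm_pos_iff.mpr fun h0 => hpne (ν j) (hν j).1 ?_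
              funext i
              have h10 : (iv (ν j) : E n) i = (ν j i : ℝ) := rfl
              rw [h0] at h10
              have h11 : (ν j i : ℝ) = 0 := by rw [← h10]; rfl
              exact_mod_cast h11
          rw [← h7] at h9
          exact_mod_cast h9
    · exact Or.inl (hNef hl0.symm)
  · intro ⟨x, hx⟩
    exact hNef (le_antisymm (hmin 0 x le_rfl hx) hl)

end

end MMCI.F
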