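import Pool.Agent.MMCI.StmtsF

/-!
# Fans: the tight vectors define the polytope
-/

set_option autoImplicit false

open Filter Topology

namespace MMCI.F

noncomputable section

namespace LOC

theorem finite_norm {n : ℕ} (C : ℝ) : {w : Fin n → ℤ | ‖iv w‖ ≤ C}.Finite := by
  refine Set.Finite.subset (Set.Finite.pi fun _ : Fin n => Set.finite_Icc (-⌊C⌋) ⌊C⌋) ?_
  intro w hw
  rw [Set.mem_univ_pi]
  intro i
  have h1 : ‖(iv w) i‖ ≤ ‖iv w‖ := PiLp.norm_apply_le (iv w) i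
  have h2 : |(w i : ℝ)| ≤ C := by
    have h3 : ‖(iv w) i‖ = |(w i : ℝ)| := Real.norm_eq_abs _
    rw [← h3]
    exact h1.trans hw
  have h3 := abs_le.1 h2
  rw [Set.mem_Icc]
  constructor
  · have : -w i ≤ ⌊C⌋ := by
      rw [Int.le_floor]
      push_cast
      linarith [h3.1]
    linarith
  · rw [Int.le_floor]
    exact h3.2

theorem ip_add_smul {n : ℕ} (a b w : E n) (s : ℝ) : ip (a + s • b) w = ip a w + s * ip b w := by
  unfold ip
  rw [inner_add_left, real_inner_smul_left]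

end LOC

theorem t_LOC (hBAS : S_BAS) (hMIN : S_MIN) (hDEL : S_DEL) (_hFNT : S_FNT) : S_LOC := by
  intro n P μ hP hμ l S hS hex x
  obtain ⟨hmu, -⟩ := hBAS P μ hP hμ
  constructor
  · intro hx ν hν
    exact hx ν ((hS ν).1 hν).1
  intro hx
  by_contra hnot
  obtain ⟨y, hy⟩ := hex
  let z : ℝ → E n := fun s => y + s • (x - y)
  have hzc : Continuous z := by
    show Continuous fun s : ℝ => y + s • (x - y)
    fun_prop
  have hcl : IsClosed {s : ℝ | Feas μ l (z s)} := ((hMIN P μ hP hμ).2 l).isClosed.preimage hzc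
  have hIc : IsCompact ({s : ℝ | Feas μ l (z s)} ∩ Set.Icc 0 1) := isCompact_Icc.inter_left hcl
  have h0 : (0 : ℝ) ∈ {s : ℝ | Feas μ l (z s)} ∩ Set.Icc 0 1 := by
    refine ⟨?_, le_refl _, zero_le_one⟩
    show Feas μ l (y + (0 : ℝ) • (x - y))
    rw [zero_smul, add_zero]
    exact hy
  obtain ⟨s₀, hs₀, hmax⟩ := hIc.exists_isGreatest ⟨0, h0⟩
  have hs1 : s₀ < 1 := by
    refine lt_of_le_of_ne hs₀.2.2 fun h => hnot ?_
    have h1 : Feas μ l (y + s₀ • (x - y)) := hs₀.1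
    rw [h, one_smul, add_sub_cancel] at h1
    exact h1
  have hfeas : Feas μ l (z s₀) := hs₀.1
  obtain ⟨δ, hδ, hδ'⟩ := hDEL P μ hP hμ l
  have hy₀ := hδ' (z s₀) hfeas
  have hz : ∀ (τ : ℝ) (w : Fin n → ℤ), ip (z (s₀ + τ)) (iv w) = ip (z s₀) (iv w) + τ * ip (x - y) (iv w) := by
    intro τ w
    show ip (y + (s₀ + τ) • (x - y)) (iv w) = ip (y + s₀ • (x - y)) (iv w) + τ * ip (x - y) (iv w)
    rw [LOC.ip_add_smul, LOC.ip_add_smul]
    ring
  have hzx : ∀ w : Fin n → ℤ, ip x (iv w) = ip (z s₀) (iv w) + (1 - s₀) * ip (x - y) (iv w) := by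
    intro w
    rw [← hz]
    show ip x (iv w) = ip (y + (s₀ + (1 - s₀)) • (x - y)) (iv w)
    rw [add_sub_cancel, one_smul, add_sub_cancel]
  have ev1 : ∀ᶠ τ in 𝓝[>] (0 : ℝ), ∀ w ∈ {w : Fin n → ℤ | ‖iv w‖ ≤ 2 / δ}, Prim w →
      (μ w : ℝ) + 1 - l * ‖iv w‖ ≤ ip (z s₀) (iv w) + τ * ip (x - y) (iv w) := by
    rw [Filter.eventually_all_finite (LOC.finite_norm _)]
    intro w _
    by_cases hp : Prim w
    · rcases (hfeas w hp).eq_or_lt with heq | hlt
      · have hwS : w ∈ S := (hS w).2 ⟨hp, z s₀, hfeas, heq.symm⟩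
        have h1 : (μ w : ℝ) + 1 - l * ‖iv w‖ ≤ ip x (iv w) := hx w hwS
        rw [hzx] at h1
        have h2 : 0 ≤ ip (x - y) (iv w) := by
          by_contra hc
          push Not at hc
          have : (1 - s₀) * ip (x - y) (iv w) < 0 := mul_neg_of_pos_of_neg (by linarith) hc
          linarith
        filter_upwards [self_mem_nhdsWithin] with τ hτ _
        have h3 : 0 ≤ τ * ip (x - y) (iv w) := mul_nonneg (le_of_lt hτ) h2
        linarith
      · have h1 : Tendsto (fun τ : ℝ => ip (z s₀) (iv w) + τ * ip (x - y) (iv w)) (𝓝[>] 0)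
            (𝓝 (ip (z s₀) (iv w) + 0 * ip (x - y) (iv w))) := by
          refine Tendsto.mono_left ?_ nhdsWithin_le_nhds
          exact (Continuous.tendsto (by fun_prop) 0)
        rw [zero_mul, add_zero] at h1
        filter_upwards [h1.eventually (lt_mem_nhds hlt)] with τ hτ _
        exact hτ.le
    · exact Eventually.of_forall fun _ h => absurd h hp
  have ev2 : ∀ᶠ τ in 𝓝[>] (0 : ℝ), τ * ‖x - y‖ < δ / 2 := by
    have h1 : Tendsto (fun τ : ℝ => τ * ‖x - y‖) (𝓝[>] 0) (𝓝 (0 * ‖x - y‖)) := by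
      refine Tendsto.mono_left ?_ nhdsWithin_le_nhds
      exact (Continuous.tendsto (by fun_prop) 0)
    rw [zero_mul] at h1
    exact h1.eventually (gt_mem_nhds (by linarith))
  have ev3 : ∀ᶠ τ in 𝓝[>] (0 : ℝ), s₀ + τ < 1 := by
    have h1 : Tendsto (fun τ : ℝ => s₀ + τ) (𝓝[>] 0) (𝓝 (s₀ + 0)) := by
      refine Tendsto.mono_left ?_ nhdsWithin_le_nhds
      exact (Continuous.tendsto (by fun_prop) 0)
    rw [add_zero] at h1
    exact h1.eventually (gt_mem_nhds hs1)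
  obtain ⟨τ, h1, h2, h3, hτ⟩ := (ev1.and (ev2.and (ev3.and self_mem_nhdsWithin))).exists
  have hτ0 : 0 < τ := hτ
  have hmem : s₀ + τ ∈ {s : ℝ | Feas μ l (z s)} ∩ Set.Icc 0 1 := by
    refine ⟨?_, by linarith [hs₀.2.1], h3.le⟩
    intro w hw
    rw [hz]
    by_cases hn : ‖iv w‖ ≤ 2 / δ
    · exact h1 w hn hw
    · push Not at hn
      have h4 := hy₀ (iv w)
      rw [hmu] at h4
      have h5 : |ip (x - y) (iv w)| ≤ ‖x - y‖ * ‖iv w‖ := abs_real_inner_le_norm _ _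
      have h6 := (abs_le.1 h5).1
      have h7 : τ * (-(‖x - y‖ * ‖iv w‖)) ≤ τ * ip (x - y) (iv w) := mul_le_mul_of_nonneg_left h6 hτ0.le
      have h8 : τ * ‖x - y‖ * ‖iv w‖ ≤ δ / 2 * ‖iv w‖ := mul_le_mul_of_nonneg_right h2.le (norm_nonneg _)
      have h9 : 1 < δ / 2 * ‖iv w‖ := by
        rw [div_lt_iff₀ hδ] at hn
        linarith
      nlinarith
  linarith [hmax hmem]

end

end MMCI.F
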