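import Pool.Agent.MMCI.StmtsF

/-!
# Module MIN: the smallest parameter and compactness
-/

set_option autoImplicit false

namespace MMCI.F

namespace MIN

theorem ip_iv {n : ℕ} (x : E n) (w : Fin n → ℤ) : ip x (iv w) = ∑ i, x i * (w i : ℝ) := by
  unfold ip iv
  rw [PiLp.inner_apply]
  refine Finset.sum_congr rfl fun i _ => ?_
  simp [mul_comm]

theorem ip_iv_iv {n : ℕ} (p w : Fin n → ℤ) : ip (iv p) (iv w) = (pr p w : ℝ) := by
  rw [ip_iv]
  unfold pr iv
  push_cast
  rfl

theorem one_le_norm {n : ℕ} (w : Fin n → ℤ) (hw : w ≠ 0) : 1 ≤ ‖iv w‖ := by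
  obtain ⟨i, hi⟩ : ∃ i, w i ≠ 0 := by
    by_contra h
    push Not at h
    exact hw (funext h)
  have h1 : ‖(iv w) i‖ ≤ ‖iv w‖ := PiLp.norm_apply_le (iv w) i
  have h2 : (1 : ℝ) ≤ ‖(iv w) i‖ := by
    have h3 : (iv w) i = (w i : ℝ) := rfl
    rw [h3, Real.norm_eq_abs]
    have h4 : (1 : ℤ) ≤ |w i| := Int.one_le_abs hi
    have h5 : ((1 : ℤ) : ℝ) ≤ ((|w i| : ℤ) : ℝ) := by exact_mod_cast h4
    simpa using h5
  linarith

theorem prim_single {n : ℕ} (i : Fin n) (s : ℤ) (hs : IsUnit s) :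
    Prim (Pi.single i s : Fin n → ℤ) := by
  refine ⟨?_, ?_⟩
  · intro h
    have h1 := congrFun h i
    simp only [Pi.single_eq_same, Pi.zero_apply] at h1
    rw [h1] at hs
    exact not_isUnit_zero hs
  · intro d w' h
    have h1 := congrFun h i
    simp only [Pi.single_eq_same, Pi.smul_apply, smul_eq_mul] at h1
    rw [h1] at hs
    exact isUnit_of_mul_isUnit_left hs

theorem ip_single {n : ℕ} (x : E n) (i : Fin n) (s : ℤ) :
    ip x (iv (Pi.single i s : Fin n → ℤ)) = x i * s := by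
  rw [ip_iv]
  rw [Finset.sum_eq_single i]
  · simp
  · intro j _ hj
    simp [hj]
  · intro h
    exact absurd (Finset.mem_univ i) h

theorem cont_ip {n : ℕ} (w : Fin n → ℤ) : Continuous fun x : E n => ip x (iv w) := by
  unfold ip
  exact continuous_id.inner continuous_const

theorem closed {n : ℕ} (μ : (Fin n → ℤ) → ℤ) (l : ℝ) : IsClosed {x : E n | Feas μ l x} := by
  unfold Feas
  simp only [Set.ofPred_forall]
  refine isClosed_iInter fun w => isClosed_iInter fun _ => ?_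
  exact isClosed_le continuous_const (cont_ip w)

theorem compact {n : ℕ} (μ : (Fin n → ℤ) → ℤ) (l : ℝ) : IsCompact {x : E n | Feas μ l x} := by
  refine Metric.isCompact_of_isClosed_isBounded (closed μ l) ?_
  rw [isBounded_iff_forall_norm_le]
  let c : Fin n → ℤ → ℝ := fun i s =>
    (μ (Pi.single i s) : ℝ) + 1 - l * ‖iv (Pi.single i s : Fin n → ℤ)‖
  refine ⟨∑ i, (|c i 1| + |c i (-1)|), ?_⟩
  intro x hx
  have hb : ∀ i, ‖x i‖ ≤ |c i 1| + |c i (-1)| := by
    intro i
    have h1 := hx _ (prim_single i 1 isUnit_one)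
    have h2 := hx _ (prim_single i (-1) (isUnit_one.neg))
    rw [ip_single] at h1 h2
    push_cast at h1 h2
    have h3 : c i 1 ≤ x i := by
      have : c i 1 ≤ x i * 1 := h1
      linarith
    have h4 : c i (-1) ≤ - x i := by
      have : c i (-1) ≤ x i * (-1) := h2
      linarith
    rw [Real.norm_eq_abs, abs_le]
    have h5 := neg_abs_le (c i 1)
    have h6 := neg_abs_le (c i (-1))
    have h7 := abs_nonneg (c i 1)
    have h8 := abs_nonneg (c i (-1))
    constructor
    · linarith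
    · linarith
  rw [EuclideanSpace.norm_eq]
  refine (Real.sqrt_le_sqrt (Finset.sum_le_sum fun i _ =>
    pow_le_pow_left₀ (norm_nonneg _) (hb i) 2)).trans ?_
  refine Real.sqrt_le_iff.mpr ⟨Finset.sum_nonneg fun i _ => by positivity, ?_⟩
  exact Finset.sum_sq_le_sq_sum_of_nonneg fun i _ => by positivity

theorem mono {n : ℕ} {μ : (Fin n → ℤ) → ℤ} {l l' : ℝ} (h : l ≤ l') {x : E n}
    (hx : Feas μ l x) : Feas μ l' x := by
  intro w hw
  have h1 := hx w hw
  have h2 : l * ‖iv w‖ ≤ l' * ‖iv w‖ := mul_le_mul_of_nonneg_right h (norm_nonneg _)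
  linarith

theorem feas_one {n : ℕ} {P : Finset (Fin n → ℤ)} {μ : (Fin n → ℤ) → ℤ} (hμ : IsMinOf P μ)
    {p : Fin n → ℤ} (hp : p ∈ P) : Feas μ 1 (iv p) := by
  intro w hw
  rw [ip_iv_iv]
  have h1 : μ w ≤ pr p w := (hμ w).2 p hp
  have h2 : (μ w : ℝ) ≤ (pr p w : ℝ) := by exact_mod_cast h1
  have h3 := one_le_norm w hw.1
  linarith

end MIN

open MIN in
theorem t_MIN : S_MIN := by
  intro n P μ hP hμ
  refine ⟨?_, fun l => MIN.compact μ l⟩
  obtain ⟨p, hp⟩ := hP
  let K : Set (E n × ℝ) := {q | Feas μ q.2 q.1 ∧ 0 ≤ q.2 ∧ q.2 ≤ 1}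
  have hKc : IsClosed K := by
    have h1 : IsClosed {q : E n × ℝ | Feas μ q.2 q.1} := by
      unfold Feas
      simp only [Set.ofPred_forall]
      refine isClosed_iInter fun w => isClosed_iInter fun _ => ?_
      exact isClosed_le (continuous_const.sub (continuous_snd.mul continuous_const))
        ((cont_ip w).comp continuous_fst)
    have h2 : IsClosed {q : E n × ℝ | 0 ≤ q.2} := isClosed_le continuous_const continuous_snd
    have h3 : IsClosed {q : E n × ℝ | q.2 ≤ 1} := isClosed_le continuous_snd continuous_const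
    exact h1.inter (h2.inter h3)
  have hK : IsCompact K := by
    refine IsCompact.of_isClosed_subset ((MIN.compact μ 1).prod (isCompact_Icc (a := (0 : ℝ))
      (b := 1))) hKc ?_
    rintro ⟨x, l⟩ ⟨h1, h2, h3⟩
    exact ⟨mono h3 h1, h2, h3⟩
  have hne : K.Nonempty := ⟨(iv p, 1), feas_one hμ hp, zero_le_one, le_refl _⟩
  obtain ⟨q, hq, hmin⟩ := hK.exists_isMinOn hne (f := fun q => q.2) continuous_snd.continuousOn
  refine ⟨q.2, hq.2.1, ⟨q.1, hq.1⟩, ?_⟩
  intro l' x hl' hx
  by_cases h : l' ≤ 1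
  · exact hmin (show (x, l') ∈ K from ⟨hx, hl', h⟩)
  · push Not at h
    linarith [hq.2.2]

end MMCI.F
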