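import Pool.Agent.MMCI.StmtsF3

/-! # MNK: `psi f` is the order function of the sum of the supports -/

set_option autoImplicit false

namespace MMCI.F

namespace MNK

variable {n r : ℕ}

theorem pair_eq (m w : Fin n → ℤ) : pair w m = pr m w := by
  unfold pair pr
  exact Finset.sum_congr rfl fun i _ => mul_comm _ _

theorem minOn_le (f : Laurent n) (w m : Fin n → ℤ) (hm : m ∈ f.coeff.support) :
    minOn f w ≤ pr m w := by
  rw [← pair_eq]
  exact csInf_le (f.coeff.support.finite_toSet.image _).bddBelow ⟨m, hm, rfl⟩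

theorem exists_min (f : Laurent n) (hf : f ≠ 0) (w : Fin n → ℤ) :
    ∃ m ∈ f.coeff.support, minOn f w = pr m w := by
  have hne : f.coeff.support.Nonempty := by
    rw [Finsupp.support_nonempty_iff]
    intro h
    apply hf
    ext m
    rw [h]
    rfl
  have h1 : ((fun m => pair w m) '' (f.coeff.support : Set (Fin n → ℤ))).Nonempty := by
    obtain ⟨m, hm⟩ := hne
    exact ⟨_, m, hm, rfl⟩
  obtain ⟨m, hm, h2⟩ := Int.csInf_mem h1 (f.coeff.support.finite_toSet.image _).bddBelow
  refine ⟨m, hm, ?_⟩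
  rw [← pair_eq]
  exact h2.symm

theorem pr_sum (p : Fin r → Fin n → ℤ) (w : Fin n → ℤ) : pr (∑ i, p i) w = ∑ i, pr (p i) w := by
  unfold pr
  rw [Finset.sum_comm]
  refine Finset.sum_congr rfl fun j _ => ?_
  rw [Finset.sum_apply, Finset.sum_mul]

end MNK

theorem t_MNK : S_MNK := by
  classical
  intro n r f hf
  refine ⟨(Fintype.piFinset fun i => (f i).coeff.support).image fun p => ∑ i, p i, ?_, ?_⟩
  · refine Finset.Nonempty.image ?_ _
    choose m hm _ using fun i => MNK.exists_min (f i) (hf i) 0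
    exact ⟨m, Fintype.mem_piFinset.2 hm⟩
  · intro w
    constructor
    · choose m hm hw using fun i => MNK.exists_min (f i) (hf i) w
      refine ⟨∑ i, m i, Finset.mem_image.2 ⟨m, Fintype.mem_piFinset.2 hm, rfl⟩, ?_⟩
      rw [MNK.pr_sum, psi]
      exact Finset.sum_congr rfl fun i _ => hw i
    · intro p hp
      obtain ⟨m, hm, rfl⟩ := Finset.mem_image.1 hp
      rw [MNK.pr_sum, psi]
      exact Finset.sum_le_sum fun i _ => MNK.minOn_le (f i) w (m i) (Fintype.mem_piFinset.1 hm i)

end MMCI.F
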