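import Pool.Agent.MMCI.StmtsF2

/-!
# Fans, module NRY: the defect of additivity
-/

set_option autoImplicit false

namespace MMCI.F

namespace NRY

variable {n : ℕ}

lemma pr_sum {s : ℕ} (m : Fin n → ℤ) (ν : Fin s → Fin n → ℤ) :
    pr m (∑ j, ν j) = ∑ j, pr m (ν j) := by
  unfold pr
  rw [Finset.sum_comm]
  refine Finset.sum_congr rfl fun i _ => ?_
  rw [Finset.sum_apply, Finset.mul_sum]

lemma pr_nsmul (m : Fin n → ℤ) (d : ℕ) (w : Fin n → ℤ) : pr m (d • w) = d * pr m w := by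
  unfold pr
  rw [Finset.mul_sum]
  refine Finset.sum_congr rfl fun i _ => ?_
  rw [Pi.smul_apply, nsmul_eq_mul]
  ring

lemma pr_nsmul_left (m : Fin n → ℤ) (d : ℕ) (w : Fin n → ℤ) : pr (d • m) w = d * pr m w := by
  unfold pr
  rw [Finset.mul_sum]
  refine Finset.sum_congr rfl fun i _ => ?_
  rw [Pi.smul_apply, nsmul_eq_mul]
  ring

lemma pr_sub_left (m m' w : Fin n → ℤ) : pr (m - m') w = pr m w - pr m' w := by
  unfold pr
  rw [← Finset.sum_sub_distrib]
  refine Finset.sum_congr rfl fun i _ => ?_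
  rw [Pi.sub_apply, sub_mul]

lemma pr_add_left (m m' w : Fin n → ℤ) : pr (m + m') w = pr m w + pr m' w := by
  unfold pr
  rw [← Finset.sum_add_distrib]
  refine Finset.sum_congr rfl fun i _ => ?_
  rw [Pi.add_apply, add_mul]

lemma pr_zero_left (w : Fin n → ℤ) : pr 0 w = 0 := by
  simp [pr]

lemma pr_neg_left (m w : Fin n → ℤ) : pr (-m) w = - pr m w := by
  have h := pr_sub_left 0 m w
  rw [zero_sub, pr_zero_left, zero_sub] at h
  exact h

/-- Every nonzero vector is a positive multiple of a primitive vector. -/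
lemma exists_prim (u : Fin n → ℤ) (hu : u ≠ 0) :
    ∃ (d : ℕ) (w : Fin n → ℤ), 0 < d ∧ Prim w ∧ u = d • w := by
  have hne : (Finset.univ : Finset (Fin n)).Nonempty := by
    by_contra h
    rw [Finset.not_nonempty_iff_eq_empty] at h
    apply hu
    funext i
    have := Finset.mem_univ i
    rw [h] at this
    exact absurd this (Finset.notMem_empty i)
  obtain ⟨w, hw, hg⟩ := Finset.extract_gcd u hne
  set D : ℤ := Finset.univ.gcd u with hD
  have hD0 : D ≠ 0 := by
    intro h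
    apply hu
    funext i
    rw [hw i (Finset.mem_univ i), h, zero_mul]
    rfl
  have hDn : 0 ≤ D := by
    have h1 : normalize D = D := Finset.normalize_gcd
    rw [← h1, ← Int.abs_eq_normalize]
    exact abs_nonneg _
  have hu' : u = D.toNat • w := by
    funext i
    rw [Pi.smul_apply, nsmul_eq_mul, Int.toNat_of_nonneg hDn]
    exact hw i (Finset.mem_univ i)
  refine ⟨D.toNat, w, by omega, ⟨?_, ?_⟩, hu'⟩
  · intro h
    rw [h] at hu'
    exact hu (by rw [hu', smul_zero])
  · intro d w' h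
    have h1 : d ∣ Finset.univ.gcd w := by
      apply Finset.dvd_gcd
      intro i _
      rw [h]
      exact Dvd.intro _ rfl
    rw [hg] at h1
    exact isUnit_of_dvd_one h1

lemma ne_zero_of_indep {s : ℕ} (ν : Fin s → Fin n → ℤ) (h : LinearIndependent ℤ ν) (hs : 2 ≤ s) :
    ∑ j, ν j ≠ 0 := by
  intro h0
  have h1 := Fintype.linearIndependent_iff.1 h (fun _ => 1) (by simpa using h0) ⟨0, by omega⟩
  exact one_ne_zero h1

/-- Two independent vectors are not both proportional to `w`. -/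
lemma not_prop {s : ℕ} (ν : Fin s → Fin n → ℤ) (h : LinearIndependent ℤ ν) (hs : 2 ≤ s)
    (w : Fin n → ℤ) (hw : w ≠ 0) (hp : ∀ (j : Fin s) (i k : Fin n), w i * ν j k = w k * ν j i) :
    False := by
  obtain ⟨i, hi⟩ : ∃ i, w i ≠ 0 := by
    by_contra h1
    apply hw
    funext i
    by_contra h2
    exact h1 ⟨i, h2⟩
  let j0 : Fin s := ⟨0, by omega⟩
  let j1 : Fin s := ⟨1, by omega⟩
  have hj : j0 ≠ j1 := by
    intro h1
    have := congrArg Fin.val h1
    simp [j0, j1] at this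
  have h1 : ∑ j, (if j = j0 then ν j1 i else if j = j1 then - ν j0 i else 0) • ν j = 0 := by
    rw [← Finset.sum_subset (Finset.subset_univ ({j0, j1} : Finset (Fin s)))]
    · rw [Finset.sum_pair hj, if_pos rfl, if_neg hj.symm, if_pos rfl]
      funext k
      rw [Pi.add_apply, Pi.smul_apply, Pi.smul_apply, smul_eq_mul, smul_eq_mul, Pi.zero_apply]
      have h2 := hp j0 i k
      have h3 := hp j1 i k
      have h4 : w i * (ν j1 i * ν j0 k + -ν j0 i * ν j1 k) = 0 := by
        calc w i * (ν j1 i * ν j0 k + -ν j0 i * ν j1 k)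
            = ν j1 i * (w i * ν j0 k) - ν j0 i * (w i * ν j1 k) := by ring
          _ = ν j1 i * (w k * ν j0 i) - ν j0 i * (w k * ν j1 i) := by rw [h2, h3]
          _ = 0 := by ring
      exact (mul_eq_zero.1 h4).resolve_left hi
    · intro j _ hj'
      have h2 : j ≠ j0 := fun h3 => hj' (by rw [h3]; exact Finset.mem_insert_self _ _)
      have h3 : j ≠ j1 := fun h3 => hj' (by
        rw [h3]; exact Finset.mem_insert_of_mem (Finset.mem_singleton_self _))
      rw [if_neg h2, if_neg h3, zero_smul]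
  have h2 := Fintype.linearIndependent_iff.1 h _ h1 j0
  rw [if_pos rfl] at h2
  have h3 : ν j1 = 0 := by
    funext k
    have h4 := hp j1 i k
    rw [h2, mul_zero] at h4
    exact (mul_eq_zero.1 h4).resolve_left hi
  exact h.ne_zero j1 h3

/-- The sum is not one of the rays. -/
lemma not_ray {μ : (Fin n → ℤ) → ℤ} (D : Fan n μ) (v : D.V) {s : ℕ} (ν : Fin s → Fin n → ℤ)
    (hν : ∀ j, ν j ∈ D.T v) (h : LinearIndependent ℤ ν) (hs : 2 ≤ s) : ∑ j, ν j ∉ D.T v := by
  intro hw
  have h1 : ∀ v', pr (D.A v') (∑ j, ν j) = pr (D.A v) (∑ j, ν j) → ∀ j,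
      pr (D.A v' - D.A v) (ν j) = 0 := by
    intro v' hv'
    rw [pr_sum, pr_sum] at hv'
    have h2 : ∑ j, (pr (D.A v') (ν j) - pr (D.A v) (ν j)) = 0 := by
      rw [Finset.sum_sub_distrib, hv', sub_self]
    have h3 := (Finset.sum_eq_zero_iff_of_nonneg
      (fun j _ => sub_nonneg.2 (D.ample v v' (ν j) (hν j)).1)).1 h2
    intro j
    rw [pr_sub_left]
    exact h3 j (Finset.mem_univ j)
  have h2 : ∀ a, pr a (∑ j, ν j) = 0 → ∀ j, pr a (ν j) = 0 := by
    intro a ha j
    obtain ⟨N, hN, hc⟩ := D.facet v _ hw a ha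
    have h3 : ∀ b ∈ AddSubgroup.closure {b | ∃ v', pr (D.A v') (∑ j, ν j) =
        pr (D.A v) (∑ j, ν j) ∧ b = D.A v' - D.A v}, pr b (ν j) = 0 := by
      intro b hb
      induction hb using AddSubgroup.closure_induction with
      | mem b hb =>
        obtain ⟨v', h4, rfl⟩ := hb
        exact h1 v' h4 j
      | zero => exact pr_zero_left _
      | add x y _ _ h5 h6 => rw [pr_add_left, h5, h6, add_zero]
      | neg x _ h5 => rw [pr_neg_left, h5, neg_zero]
    have h4 := h3 _ hc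
    rw [pr_nsmul_left] at h4
    rcases mul_eq_zero.1 h4 with h5 | h5
    · exact absurd h5 (by exact_mod_cast hN.ne')
    · exact h5
  refine not_prop ν h hs (∑ j, ν j) (ne_zero_of_indep ν h hs) ?_
  intro j i k
  have h3 : ∀ u : Fin n → ℤ, pr (Pi.single k ((∑ j, ν j) i) - Pi.single i ((∑ j, ν j) k)) u =
      (∑ j, ν j) i * u k - (∑ j, ν j) k * u i := by
    intro u
    rw [pr_sub_left]
    unfold pr
    rw [Finset.sum_eq_single k, Finset.sum_eq_single i, Pi.single_eq_same, Pi.single_eq_same]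
    · intro l _ hl
      rw [Pi.single_eq_of_ne hl, zero_mul]
    · intro hl
      exact absurd (Finset.mem_univ _) hl
    · intro l _ hl
      rw [Pi.single_eq_of_ne hl, zero_mul]
    · intro hl
      exact absurd (Finset.mem_univ _) hl
  have h4 := h2 (Pi.single k ((∑ j, ν j) i) - Pi.single i ((∑ j, ν j) k))
    (by rw [h3]; ring) j
  rw [h3] at h4
  exact sub_eq_zero.1 h4

end NRY

theorem t_NRY : S_NRY := by
  intro n μ D hμ v s ν hν hl hs
  obtain ⟨d, w, hd, hw, hdw⟩ := NRY.exists_prim (∑ j, ν j) (NRY.ne_zero_of_indep ν hl hs)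
  have hcone : InCone (D.T v) w := by
    classical
    refine ⟨fun ν' => (d : ℝ)⁻¹ * ∑ j, if ν j = ν' then (1 : ℝ) else 0, ?_, ?_⟩
    · intro ν'
      refine mul_nonneg (inv_nonneg.2 (Nat.cast_nonneg d)) (Finset.sum_nonneg fun j _ => ?_)
      split_ifs
      · exact zero_le_one
      · exact le_rfl
    · intro i
      have h1 : ∀ ν' ∈ D.T v, ((d : ℝ)⁻¹ * ∑ j, if ν j = ν' then (1 : ℝ) else 0) * (ν' i : ℝ) =
          (d : ℝ)⁻¹ * ∑ j, (if ν j = ν' then ((ν j i : ℤ) : ℝ) else 0) := by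
        intro ν' _
        rw [mul_assoc, Finset.sum_mul]
        congr 1
        refine Finset.sum_congr rfl fun j _ => ?_
        by_cases h : ν j = ν'
        · rw [if_pos h, if_pos h, one_mul, h]
        · rw [if_neg h, if_neg h, zero_mul]
      rw [Finset.sum_congr rfl h1, ← Finset.mul_sum, Finset.sum_comm]
      have h2 : ∀ j ∈ (Finset.univ : Finset (Fin s)),
          ∑ ν' ∈ D.T v, (if ν j = ν' then ((ν j i : ℤ) : ℝ) else 0) = ((ν j i : ℤ) : ℝ) := by
        intro j _
        rw [Finset.sum_ite_eq, if_pos (hν j)]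
      rw [Finset.sum_congr rfl h2]
      have h3 : ∑ j, ((ν j i : ℤ) : ℝ) = (d : ℝ) * (w i : ℝ) := by
        have h4 := congrFun hdw i
        rw [Finset.sum_apply, Pi.smul_apply, nsmul_eq_mul] at h4
        have h5 : ((∑ j, ν j i : ℤ) : ℝ) = (((d : ℤ) * w i : ℤ) : ℝ) := by rw [h4]
        push_cast at h5
        exact h5
      rw [h3, ← mul_assoc, inv_mul_cancel₀ (by exact_mod_cast hd.ne'), one_mul]
  obtain ⟨hdisc, heq⟩ := D.disc v w hw hcone
  have hr : (0 : ℤ) < D.r := by exact_mod_cast D.r_pos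
  have hk : pr (D.k v) (∑ j, ν j) = D.r * (∑ j, μ (ν j) + s) := by
    rw [NRY.pr_sum]
    have h1 : ∀ j ∈ (Finset.univ : Finset (Fin s)), pr (D.k v) (ν j) = D.r * (μ (ν j) + 1) :=
      fun j _ => D.canon v (ν j) (hν j)
    rw [Finset.sum_congr rfl h1, ← Finset.mul_sum, Finset.sum_add_distrib]
    simp
  have hk2 : pr (D.k v) (∑ j, ν j) = d * pr (D.k v) w := by
    rw [hdw, NRY.pr_nsmul]
  have hmu : μ (∑ j, ν j) = d * μ w := by rw [hdw, hμ]
  have hd0 : (0 : ℤ) < d := by exact_mod_cast hd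
  by_cases hd1 : d = 1
  · have hww : ∑ j, ν j = w := by rw [hdw, hd1, one_smul]
    have hnr : w ∉ D.T v := hww ▸ NRY.not_ray D v ν hν hl hs
    have hne : pr (D.k v) w ≠ D.r * (μ w + 1) := fun h => hnr (heq h)
    have hlt : (D.r : ℤ) * (μ w + 1) < pr (D.k v) w := lt_of_le_of_ne hdisc (Ne.symm hne)
    rw [hww] at hk
    rw [hk] at hlt
    have h1 : μ w + 1 < ∑ j, μ (ν j) + s := lt_of_mul_lt_mul_left hlt hr.le
    rw [hww]
    omega
  · have hd2 : (2 : ℤ) ≤ d := by
      have : 2 ≤ d := by omega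
      exact_mod_cast this
    have h1 : (D.r : ℤ) * (d * (μ w + 1)) ≤ D.r * (∑ j, μ (ν j) + s) := by
      rw [← hk, hk2]
      calc (D.r : ℤ) * (d * (μ w + 1)) = d * (D.r * (μ w + 1)) := by ring
        _ ≤ d * pr (D.k v) w := mul_le_mul_of_nonneg_left hdisc hd0.le
    have h2 : (d : ℤ) * (μ w + 1) ≤ ∑ j, μ (ν j) + s := le_of_mul_le_mul_left h1 hr
    rw [hmu]
    have h3 : (d : ℤ) * (μ w + 1) = d * μ w + d := by ring
    omega

end MMCI.F
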