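import Pool.Agent.MMCI.StmtsF2

/-!
# NTV: a vertex outside the facet
-/

set_option autoImplicit false

namespace MMCI.F

open Filter Topology

noncomputable section

namespace NTV

theorem ip_add {n : ℕ} (x y w : E n) : ip (x + y) w = ip x w + ip y w := by
  unfold ip; exact inner_add_left x y w

theorem ip_smul {n : ℕ} (t : ℝ) (x w : E n) : ip (t • x) w = t * ip x w := by
  unfold ip; exact real_inner_smul_left x w t

theorem ip_neg {n : ℕ} (x w : E n) : ip x (-w) = - ip x w := by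
  unfold ip; exact inner_neg_right x w

theorem iv_ne {n : ℕ} {w : Fin n → ℤ} (h : w ≠ 0) : iv w ≠ 0 := by
  intro h1
  apply h
  funext i
  have h2 := congrArg (fun y : E n => y i) h1
  have h3 : ((w i : ℤ) : ℝ) = 0 := h2
  exact_mod_cast h3

theorem ip_self_pos {n : ℕ} {w : E n} (h : w ≠ 0) : 0 < ip w w := by
  unfold ip
  exact real_inner_self_pos.2 h

end NTV

open NTV in
theorem t_NTV (hVRT : S_VRT) : S_NTV := by
  intro n S b ν x₀ hb hν hνS hx₀ hlt
  -- a small displacement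
  have h1 : ∀ᶠ τ : ℝ in 𝓝 0, ∀ ν' ∈ S.erase ν, b ν' < ip (x₀ + τ • iv ν) (iv ν') := by
    rw [Filter.eventually_all_finset]
    intro ν' hν'
    rw [Finset.mem_erase] at hν'
    have hcont : Continuous fun τ : ℝ => ip (x₀ + τ • iv ν) (iv ν') := by
      have : (fun τ : ℝ => ip (x₀ + τ • iv ν) (iv ν')) =
          fun τ : ℝ => ip x₀ (iv ν') + τ * ip (iv ν) (iv ν') := by
        funext τ
        rw [ip_add, ip_smul]
      rw [this]
      fun_prop
    have h2 : b ν' < ip (x₀ + (0 : ℝ) • iv ν) (iv ν') := by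
      rw [zero_smul, add_zero]
      exact hlt ν' hν'.2 hν'.1
    exact hcont.continuousAt.eventually (lt_mem_nhds h2)
  obtain ⟨τ, hτ, hτ0⟩ := ((h1.filter_mono nhdsWithin_le_nhds).and
    (self_mem_nhdsWithin (s := Set.Ioi (0 : ℝ)))).exists
  have hτ1 : (0 : ℝ) < τ := hτ0
  have hpos := mul_pos hτ1 (ip_self_pos (iv_ne hν))
  have hz : x₀ + τ • iv ν ∈ Poly S b := by
    intro ν' hν'
    by_cases h : ν' = ν
    · rw [h, ip_add, ip_smul, hx₀]
      linarith
    · exact (hτ ν' (Finset.mem_erase.2 ⟨h, hν'⟩)).le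
  obtain ⟨v, hv, hmin⟩ := (hVRT S b).2 ⟨_, hz⟩ hb (-iv ν)
  refine ⟨v, hv, fun hcon => ?_⟩
  have h3 := hmin _ hz
  rw [ip_neg, ip_neg, ip_add, ip_smul, hx₀] at h3
  have h4 : ip v (iv ν) = b ν := by
    unfold tight at hcon
    exact (Finset.mem_filter.1 hcon).2
  rw [h4] at h3
  linarith

end

end MMCI.F
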