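import Pool.Agent.MMCI.StmtsF2

/-!
# Fans: module ORT

An integral linear form which separates an integral vector from the rational span of a subgroup.
-/

set_option autoImplicit false

namespace MMCI.F

noncomputable section

namespace ORT

/-- an integral vector as a rational vector -/
def qv {n : ℕ} (w : Fin n → ℤ) : Fin n → ℚ := fun i => (w i : ℚ)

theorem qv_add {n : ℕ} (a b : Fin n → ℤ) : qv (a + b) = qv a + qv b := by
  funext i
  simp [qv]

theorem qv_smul {n : ℕ} (c : ℤ) (a : Fin n → ℤ) : qv (c • a) = (c : ℚ) • qv a := by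
  funext i
  simp [qv]

theorem qv_inj {n : ℕ} {a b : Fin n → ℤ} (h : qv a = qv b) : a = b := by
  funext i
  have h1 : (a i : ℚ) = (b i : ℚ) := congrFun h i
  exact_mod_cast h1

/-- the rational span of `G` -/
def W {n : ℕ} (G : AddSubgroup (Fin n → ℤ)) : Submodule ℚ (Fin n → ℚ) where
  carrier := {x | ∃ N : ℕ, 0 < N ∧ ∃ g ∈ G, (N : ℚ) • x = qv g}
  zero_mem' := ⟨1, one_pos, 0, G.zero_mem, by funext i; simp [qv]⟩
  add_mem' := by
    rintro x y ⟨N, hN, g, hg, hx⟩ ⟨M, hM, k, hk, hy⟩
    refine ⟨N * M, Nat.mul_pos hN hM, (M : ℤ) • g + (N : ℤ) • k,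
      G.add_mem (G.zsmul_mem hg _) (G.zsmul_mem hk _), ?_⟩
    rw [qv_add, qv_smul, qv_smul, ← hx, ← hy]
    funext i
    simp only [Pi.smul_apply, Pi.add_apply, smul_eq_mul]
    push_cast
    ring
  smul_mem' := by
    rintro c x ⟨N, hN, g, hg, hx⟩
    refine ⟨N * c.den, Nat.mul_pos hN c.den_pos, c.num • g, G.zsmul_mem hg _, ?_⟩
    rw [qv_smul, ← hx]
    funext i
    simp only [Pi.smul_apply, smul_eq_mul]
    have h := Rat.mul_den_eq_num c
    push_cast
    rw [← h]
    ring

end ORT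

open ORT in
theorem t_ORT : S_ORT := by
  intro n G a ha
  have haW : qv a ∉ W G := by
    rintro ⟨N, hN, g, hg, hx⟩
    apply ha N hN
    have h1 : (N : ℤ) • a = g := by
      apply qv_inj
      rw [qv_smul, ← hx]
      simp
    have h2 : N • a = (N : ℤ) • a := by rw [natCast_zsmul]
    rw [h2, h1]
    exact hg
  obtain ⟨f, hfa, hfW⟩ := Submodule.exists_le_ker_of_notMem haW
  set D : ℕ := ∏ i : Fin n, (f (Pi.single i 1)).den with hD
  have hD0 : (D : ℚ) ≠ 0 := by
    have : D ≠ 0 := Finset.prod_ne_zero_iff.2 fun i _ => (f (Pi.single i 1)).den_nz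
    exact_mod_cast this
  have hu : ∀ i : Fin n, ∃ u : ℤ, (u : ℚ) = D * f (Pi.single i 1) := by
    intro i
    obtain ⟨c, hc⟩ : (f (Pi.single i 1)).den ∣ D := Finset.dvd_prod_of_mem _ (Finset.mem_univ i)
    refine ⟨c * (f (Pi.single i 1)).num, ?_⟩
    have h := Rat.mul_den_eq_num (f (Pi.single i 1))
    rw [hc]
    push_cast
    rw [← h]
    ring
  choose u hu using hu
  have key : ∀ g : Fin n → ℤ, ((pr g u : ℤ) : ℚ) = D * f (qv g) := by
    intro g
    have h1 : qv g = ∑ i, (g i : ℚ) • (Pi.single i (1 : ℚ) : Fin n → ℚ) := by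
      funext j
      simp [qv, Finset.sum_apply, Pi.single_apply]
    rw [h1, map_sum, Finset.mul_sum, pr]
    push_cast
    apply Finset.sum_congr rfl
    intro i _
    rw [hu, map_smul, smul_eq_mul]
    ring
  refine ⟨u, ?_, ?_⟩
  · intro g hg
    have h1 : qv g ∈ W G := ⟨1, one_pos, g, hg, by simp⟩
    have h2 : f (qv g) = 0 := hfW h1
    have h3 := key g
    rw [h2, mul_zero] at h3
    exact_mod_cast h3
  · intro h0
    have h3 := key a
    rw [h0] at h3
    simp only [Int.cast_zero, zero_eq_mul] at h3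
    rcases h3 with h3 | h3
    · exact hD0 h3
    · exact hfa h3

end

end MMCI.F
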