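import Pool.Agent.MMCI.StmtsF

/-!
# POS: the function `G` is positive
-/

set_option autoImplicit false

namespace MMCI.F

noncomputable section

theorem t_POS (hDIR : S_DIR) (hBAS : S_BAS) : S_POS := by
  intro n P μ hP hmin l x hx w hw
  obtain ⟨b1, _, b3, ⟨L, hL, b4⟩, b5⟩ := hBAS P μ hP hmin
  by_contra hG
  have hG' : ip x w - muR P w + l * ‖w‖ ≤ 0 := not_lt.1 hG
  have hK : 0 ≤ ‖x‖ + L + |l| := by positivity
  obtain ⟨K, hKdef⟩ : ∃ K, K = ‖x‖ + L + |l| := ⟨_, rfl⟩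
  rw [← hKdef] at hK
  have hw0 : 0 < ‖w‖ := norm_pos_iff.2 hw
  have hδ : 0 < min ‖w‖ (1 / (K + 1)) := lt_min hw0 (by positivity)
  obtain ⟨t, W, ht, hd⟩ := hDIR w _ hδ
  have ht1 : (1 : ℝ) ≤ (t : ℝ) := by exact_mod_cast ht
  have hnt : ‖(t : ℝ) • w‖ = (t : ℝ) * ‖w‖ := by
    rw [norm_smul, Real.norm_of_nonneg (by linarith)]
  have hW : W ≠ 0 := by
    intro h0
    have h1 : iv W = (0 : E n) := by
      rw [h0]
      ext i
      simp [iv]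
    rw [h1, sub_zero, hnt] at hd
    have h2 := lt_of_lt_of_le hd (min_le_left _ _)
    nlinarith
  have e1 := b5 l x hx W hW
  rw [← b1 W] at e1
  have e2 := b3 (t : ℝ) w (by linarith)
  have e3 := b4 (iv W) ((t : ℝ) • w)
  have e4 : ip x (iv W) - ip x ((t : ℝ) • w) ≤ ‖x‖ * ‖iv W - (t : ℝ) • w‖ := by
    have h1 : ip x (iv W) - ip x ((t : ℝ) • w) = inner ℝ x (iv W - (t : ℝ) • w) := by
      unfold ip
      rw [inner_sub_right]
    rw [h1]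
    exact real_inner_le_norm _ _
  have e5 : ip x ((t : ℝ) • w) = (t : ℝ) * ip x w := by
    unfold ip
    rw [real_inner_smul_right]
  have e6 : |‖iv W‖ - ‖(t : ℝ) • w‖| ≤ ‖iv W - (t : ℝ) • w‖ := abs_norm_sub_norm_le _ _
  have e7 : l * (‖iv W‖ - ‖(t : ℝ) • w‖) ≤ |l| * ‖iv W - (t : ℝ) • w‖ := by
    calc l * (‖iv W‖ - ‖(t : ℝ) • w‖) ≤ |l * (‖iv W‖ - ‖(t : ℝ) • w‖)| := le_abs_self _
      _ = |l| * |‖iv W‖ - ‖(t : ℝ) • w‖| := abs_mul _ _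
      _ ≤ |l| * ‖iv W - (t : ℝ) • w‖ := mul_le_mul_of_nonneg_left e6 (abs_nonneg _)
  have e8 : muR P ((t : ℝ) • w) - muR P (iv W) ≤ L * ‖iv W - (t : ℝ) • w‖ := by
    have h1 := neg_abs_le (muR P (iv W) - muR P ((t : ℝ) • w))
    linarith
  have hd' : ‖iv W - (t : ℝ) • w‖ < 1 / (K + 1) := by
    rw [norm_sub_rev]
    exact lt_of_lt_of_le hd (min_le_right _ _)
  have e9 : K * ‖iv W - (t : ℝ) • w‖ < 1 := by
    have h1 : K * ‖iv W - (t : ℝ) • w‖ ≤ K * (1 / (K + 1)) :=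
      mul_le_mul_of_nonneg_left hd'.le hK
    have h2 : K * (1 / (K + 1)) < 1 := by
      rw [mul_one_div, div_lt_one (by positivity)]
      linarith
    linarith
  have e10 : (t : ℝ) * (ip x w - muR P w + l * ‖w‖) ≤ 0 :=
    mul_nonpos_of_nonneg_of_nonpos (by linarith) hG'
  rw [e5] at e4
  rw [e2] at e8
  rw [hnt] at e7
  have e11 : K * ‖iv W - (t : ℝ) • w‖ = ‖x‖ * ‖iv W - (t : ℝ) • w‖ +
      L * ‖iv W - (t : ℝ) • w‖ + |l| * ‖iv W - (t : ℝ) • w‖ := by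
    rw [hKdef]
    ring
  have e12 : (t : ℝ) * (ip x w - muR P w + l * ‖w‖) =
      (t : ℝ) * ip x w - (t : ℝ) * muR P w + l * ((t : ℝ) * ‖w‖) := by ring
  have e13 : l * (‖iv W‖ - (t : ℝ) * ‖w‖) = l * ‖iv W‖ - l * ((t : ℝ) * ‖w‖) := by ring
  linarith

end

end MMCI.F
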