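import Pool.Agent.MMCI.StmtsF2

/-!
# Primitive vectors (Bezout)
-/

set_option autoImplicit false

namespace MMCI.F

theorem t_PRM : S_PRM := by
  intro n w
  constructor
  · rintro ⟨m, hm⟩
    constructor
    · rintro rfl
      simp at hm
    · rintro d w' rfl
      refine isUnit_of_dvd_one ?_
      rw [← hm]
      refine Finset.dvd_sum fun i _ => ?_
      rw [Pi.smul_apply, smul_eq_mul, mul_assoc]
      exact dvd_mul_right _ _
  · rintro ⟨_, h⟩
    let I : Ideal ℤ := Ideal.span (Set.range w)
    let d : ℤ := Submodule.IsPrincipal.generator I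
    have hd : Ideal.span {d} = I := Ideal.span_singleton_generator I
    have hdv : ∀ i, d ∣ w i := fun i => by
      have : w i ∈ Ideal.span {d} := by
        rw [hd]
        exact Ideal.subset_span ⟨i, rfl⟩
      exact Ideal.mem_span_singleton.1 this
    choose w' hw' using hdv
    have hu : IsUnit d := h d w' (by
      ext i
      rw [Pi.smul_apply, smul_eq_mul]
      exact hw' i)
    have h1 : (1 : ℤ) ∈ I := by
      rw [← hd, Ideal.span_singleton_eq_top.2 hu]
      trivial
    obtain ⟨c, hc⟩ := (Ideal.mem_span_range_iff_exists_fun).1 h1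
    refine ⟨c, ?_⟩
    rw [← hc]
    exact Finset.sum_congr rfl fun i _ => mul_comm _ _

end MMCI.F
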