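import Pool.Agent.MMCI.StmtsF

/-!
# The real fan (statement `S_REA`)
-/

set_option autoImplicit false

namespace MMCI.F

namespace REA

lemma prim_ext {n : ℕ} {v w : Fin n → ℤ} (hv : Prim v) (hw : Prim w) {a b : ℤ} (hab : 0 < a * b)
    (h : ∀ j, a * w j = b * v j) : w = v := by
  have ha : a ≠ 0 := by rintro rfl; simp at hab
  have hb : b ≠ 0 := by rintro rfl; simp at hab
  have hg : Int.gcd a b ≠ 0 := fun h0 => ha (Int.gcd_eq_zero_iff.1 h0).1
  have hg' : (0 : ℤ) < (Int.gcd a b : ℤ) := by exact_mod_cast Nat.pos_of_ne_zero hg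
  obtain ⟨a', ha'⟩ := Int.gcd_dvd_left (a := a) (b := b)
  obtain ⟨b', hb'⟩ := Int.gcd_dvd_right (a := a) (b := b)
  set g : ℤ := (Int.gcd a b : ℤ) with hgdef
  have hcop : IsCoprime a' b' := by
    have h1 : g = a * Int.gcdA a b + b * Int.gcdB a b := Int.gcd_eq_gcd_ab a b
    refine ⟨Int.gcdA a b, Int.gcdB a b, ?_⟩
    have h2 : g * (Int.gcdA a b * a' + Int.gcdB a b * b') = g * 1 := by
      rw [mul_one]
      calc g * (Int.gcdA a b * a' + Int.gcdB a b * b')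
          = (g * a') * Int.gcdA a b + (g * b') * Int.gcdB a b := by ring
        _ = a * Int.gcdA a b + b * Int.gcdB a b := by rw [← ha', ← hb']
        _ = g := h1.symm
    exact mul_left_cancel₀ hg'.ne' h2
  have h' : ∀ j, a' * w j = b' * v j := by
    intro j
    have h3 : g * (a' * w j) = g * (b' * v j) := by
      rw [← mul_assoc, ← ha', ← mul_assoc, ← hb']
      exact h j
    exact mul_left_cancel₀ hg'.ne' h3
  have hua : IsUnit a' := by
    have h4 : ∀ j, a' ∣ v j := fun j => by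
      have h5 : a' ∣ b' * v j := ⟨w j, (h' j).symm⟩
      exact hcop.dvd_of_dvd_mul_left h5
    choose u hu using h4
    exact hv.2 a' u (by ext j; rw [hu j]; simp)
  have hub : IsUnit b' := by
    have h4 : ∀ j, b' ∣ w j := fun j => by
      have h5 : b' ∣ a' * w j := ⟨v j, h' j⟩
      exact hcop.symm.dvd_of_dvd_mul_left h5
    choose u hu using h4
    exact hw.2 b' u (by ext j; rw [hu j]; simp)
  have hpos : 0 < a' * b' := by
    have h6 : a * b = g * g * (a' * b') := by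
      calc a * b = (g * a') * (g * b') := by rw [← ha', ← hb']
        _ = g * g * (a' * b') := by ring
    rw [h6] at hab
    exact (pos_iff_pos_of_mul_pos hab).1 (mul_pos hg' hg')
  ext j
  have h7 := h' j
  rcases Int.isUnit_iff.1 hua with rfl | rfl <;> rcases Int.isUnit_iff.1 hub with rfl | rfl
  · linarith
  · norm_num at hpos
  · norm_num at hpos
  · linarith

lemma iv_ne {n : ℕ} {w : Fin n → ℤ} (hw : w ≠ 0) : iv w ≠ 0 := by
  intro h
  apply hw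
  ext i
  have h1 := congrArg (fun x : E n => x i) h
  simp only [iv, PiLp.zero_apply] at h1
  exact_mod_cast h1

lemma ip_lt {n : ℕ} {v w : Fin n → ℤ} (hv : Prim v) (hw : Prim w) (hne : w ≠ v) :
    ip (iv v) (iv w) < ‖iv v‖ * ‖iv w‖ := by
  refine lt_of_le_of_ne (real_inner_le_norm _ _) fun h => hne ?_
  have h1 : ‖iv w‖ • iv v = ‖iv v‖ • iv w := inner_eq_norm_mul_iff_real.1 h
  have hvp : 0 < ‖iv v‖ := norm_pos_iff.2 (iv_ne hv.1)
  have hwp : 0 < ‖iv w‖ := norm_pos_iff.2 (iv_ne hw.1)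
  have h2 : ∀ j, ‖iv w‖ * (v j : ℝ) = ‖iv v‖ * (w j : ℝ) := fun j => by
    have := congrArg (fun x : E n => x j) h1
    simpa [iv] using this
  obtain ⟨i, hi⟩ : ∃ i, v i ≠ 0 := by
    by_contra hcon
    push Not at hcon
    exact hv.1 (funext hcon)
  have hi' : (v i : ℝ) ≠ 0 := by exact_mod_cast hi
  have hpos : (0 : ℝ) < (v i : ℝ) * (w i : ℝ) := by
    have h3 : ‖iv v‖ * ((v i : ℝ) * (w i : ℝ)) = ‖iv w‖ * ((v i : ℝ) * (v i : ℝ)) := by
      calc ‖iv v‖ * ((v i : ℝ) * (w i : ℝ)) = (v i : ℝ) * (‖iv v‖ * (w i : ℝ)) := by ring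
        _ = (v i : ℝ) * (‖iv w‖ * (v i : ℝ)) := by rw [h2 i]
        _ = ‖iv w‖ * ((v i : ℝ) * (v i : ℝ)) := by ring
    have h4 : 0 < ‖iv w‖ * ((v i : ℝ) * (v i : ℝ)) := mul_pos hwp (mul_self_pos.2 hi')
    rw [← h3] at h4
    exact (pos_iff_pos_of_mul_pos h4).1 hvp
  have hposZ : 0 < v i * w i := by exact_mod_cast hpos
  refine prim_ext hv hw hposZ fun j => ?_
  have h5 : (v i : ℝ) * (w j : ℝ) = (w i : ℝ) * (v j : ℝ) := by
    have h6 : (‖iv v‖ * ‖iv w‖) * ((v i : ℝ) * (w j : ℝ)) =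
        (‖iv v‖ * ‖iv w‖) * ((w i : ℝ) * (v j : ℝ)) := by
      calc (‖iv v‖ * ‖iv w‖) * ((v i : ℝ) * (w j : ℝ))
          = (‖iv w‖ * (v i : ℝ)) * (‖iv v‖ * (w j : ℝ)) := by ring
        _ = (‖iv v‖ * (w i : ℝ)) * (‖iv w‖ * (v j : ℝ)) := by rw [h2 i, ← h2 j]
        _ = (‖iv v‖ * ‖iv w‖) * ((w i : ℝ) * (v j : ℝ)) := by ring
    exact mul_left_cancel₀ (mul_pos hvp hwp).ne' h6
  exact_mod_cast h5

end REA

open REA in
/-- The real fan. -/
theorem t_REA (_hBAS : S_BAS) (hMIN : S_MIN) (hFNT : S_FNT) (hLOC : S_LOC) (hBDD : S_BDD)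
    (hEPS : S_EPS) : S_REA := by
  intro n P μ hP hμ
  obtain ⟨⟨l, hl0, hfeas, hmin⟩, _⟩ := hMIN P μ hP hμ
  obtain ⟨S, hS⟩ := hFNT P μ hP hμ l
  obtain ⟨ε, hε, hvert⟩ := hEPS S (fun ν => (μ ν : ℝ) + 1 - l * ‖iv ν‖) (fun ν => ‖iv ν‖)
  refine ⟨l, ε, S, fun ν => (μ ν : ℝ) + 1 - l * ‖iv ν‖,
    fun ν => ((μ ν : ℝ) + 1 - l * ‖iv ν‖) - ε * ‖iv ν‖, hl0, hε, hS, hfeas, hmin, fun _ => rfl,
    fun _ => rfl, hBDD P μ hP hμ l S hS hfeas _, ?_, ?_⟩
  · intro x hx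
    obtain ⟨m, hm, hm2⟩ := hvert ε hε le_rfl x hx
    exact ⟨m, (hLOC P μ hP hμ l S hS hfeas m).2 hm, hm2⟩
  · intro ν hν
    obtain ⟨hprim, y, hy, hy2⟩ := (hS ν).1 hν
    have hp : 0 < ‖iv ν‖ := norm_pos_iff.2 (iv_ne hprim.1)
    have hip : ∀ w : E n, ip (y - (ε / ‖iv ν‖) • iv ν) w =
        ip y w - (ε / ‖iv ν‖) * ip (iv ν) w := by
      intro w
      unfold ip
      rw [inner_sub_left, real_inner_smul_left]
    refine ⟨y - (ε / ‖iv ν‖) • iv ν, ?_, ?_⟩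
    · rw [hip, hy2]
      have h1 : ip (iv ν) (iv ν) = ‖iv ν‖ * ‖iv ν‖ := real_inner_self_eq_norm_mul_norm _
      rw [h1]
      field_simp
    · intro ν' hν' hne
      obtain ⟨hprim', _⟩ := (hS ν').1 hν'
      rw [hip]
      have h2 := hy ν' hprim'
      have h3 := ip_lt hprim hprim' hne
      have h4 : ε / ‖iv ν‖ * ip (iv ν) (iv ν') < ε * ‖iv ν'‖ := by
        calc ε / ‖iv ν‖ * ip (iv ν) (iv ν') < ε / ‖iv ν‖ * (‖iv ν‖ * ‖iv ν'‖) :=
              mul_lt_mul_of_pos_left h3 (div_pos hε hp)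
          _ = ε * ‖iv ν'‖ := by field_simp
      linarith

end MMCI.F
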