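import Pool.Agent.MMCI.StmtsF2

set_option autoImplicit false

namespace MMCI.F.SBI

/-- The embedding of the integral vectors in the rational vectors. -/
def fi (n : ℕ) : (Fin n → ℤ) →ₗ[ℤ] (Fin n → ℚ) where
  toFun w := fun i => (w i : ℚ)
  map_add' x y := by ext i; simp
  map_smul' c x := by ext i; simp

lemma fi_apply {n : ℕ} (w : Fin n → ℤ) (i : Fin n) : fi n w i = (w i : ℚ) := rfl

/-- Common denominator. -/
lemma clear {n : ℕ} (x : Fin n → ℚ) : ∃ (M : ℕ) (a : Fin n → ℤ), 0 < M ∧ ∀ i, (a i : ℚ) = M * x i := by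
  classical
  refine ⟨∏ i, (x i).den, fun i => (x i).num * ∏ j ∈ Finset.univ.erase i, ((x j).den : ℤ),
    Finset.prod_pos fun i _ => (x i).den_pos, fun i => ?_⟩
  have h : (∏ i, (x i).den) = (x i).den * ∏ j ∈ Finset.univ.erase i, (x j).den :=
    (Finset.mul_prod_erase _ _ (Finset.mem_univ i)).symm
  have h2 : ((x i).den : ℚ) * x i = (x i).num := by
    rw [mul_comm]; exact Rat.mul_den_eq_num (x i)
  rw [h]
  push_cast
  rw [← h2]
  ring

lemma pick {n k : ℕ} (D : Set (Fin n → ℤ))
    (h : k ≤ Module.finrank ℚ (Submodule.span ℚ (fi n '' D))) :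
    ∃ b : Fin k → Fin n → ℤ, (∀ l, b l ∈ D) ∧ LinearIndependent ℤ b := by
  classical
  obtain ⟨s, hs, hsp, hli⟩ := exists_linearIndependent ℚ (fi n '' D)
  have hfin : Finite s := hli.finite
  have : Fintype s := Fintype.ofFinite s
  have hc : Module.finrank ℚ (Submodule.span ℚ s) = Fintype.card s := by
    rw [finrank_span_set_eq_card hli, Set.toFinset_card]
  rw [← hsp, hc] at h
  have hemb : Nonempty (Fin k ↪ s) := by
    apply Function.Embedding.nonempty_of_card_le
    simpa using h
  obtain ⟨e⟩ := hemb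
  have hch : ∀ l : Fin k, ∃ d ∈ D, fi n d = (e l : Fin n → ℚ) := fun l => hs (e l).2
  choose b hb hbe using hch
  refine ⟨b, hb, ?_⟩
  have h1 : LinearIndependent ℚ (fun l => fi n (b l)) := by
    have := hli.comp e e.injective
    have he : (fun l => fi n (b l)) = (fun x : s => (x : Fin n → ℚ)) ∘ e := by
      ext1 l; exact hbe l
    rw [he]; exact this
  have h2 : LinearIndependent ℤ (fun l => fi n (b l)) := h1.restrict_scalars (by
    intro a b hab
    simpa using hab)
  exact LinearIndependent.of_comp (fi n) h2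

lemma full {n : ℕ} (D : Set (Fin n → ℤ)) (h : ∀ w, (∀ d ∈ D, pr d w = 0) → w = 0) :
    Submodule.span ℚ (fi n '' D) = ⊤ := by
  classical
  by_contra hne
  obtain ⟨f, hf0, hf⟩ := Submodule.exists_le_ker_of_lt_top _ (lt_top_iff_ne_top.2 hne)
  obtain ⟨M, a, hM, ha⟩ := clear (fun i => f (Pi.single i 1))
  have hfx : ∀ x : Fin n → ℚ, f x = ∑ i, x i * f (Pi.single i 1) := by
    intro x
    conv_lhs => rw [← Finset.univ_sum_single x]
    rw [map_sum]
    refine Finset.sum_congr rfl fun i _ => ?_
    have : (Pi.single i (x i) : Fin n → ℚ) = x i • Pi.single i 1 := by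
      rw [← Pi.single_smul]; simp
    rw [this, map_smul, smul_eq_mul]
  have hw : a = 0 := by
    apply h
    intro d hd
    have h0 : f (fi n d) = 0 := hf (Submodule.subset_span ⟨d, hd, rfl⟩)
    rw [hfx] at h0
    have : ((pr d a : ℤ) : ℚ) = 0 := by
      unfold pr
      push_cast
      calc ∑ i, (d i : ℚ) * (a i : ℚ) = M * ∑ i, (fi n d i) * f (Pi.single i 1) := by
            rw [Finset.mul_sum]
            refine Finset.sum_congr rfl fun i _ => ?_
            rw [ha i, fi_apply]; ring
        _ = 0 := by rw [h0, mul_zero]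
    exact_mod_cast this
  apply hf0
  refine LinearMap.ext fun x => ?_
  rw [hfx]
  have hz : ∀ i, f (Pi.single i 1) = 0 := by
    intro i
    have := ha i
    rw [hw] at this
    have hM' : (M : ℚ) ≠ 0 := by exact_mod_cast hM.ne'
    have h3 : (M : ℚ) * f (Pi.single i 1) = 0 := by rw [← this]; simp
    exact (mul_eq_zero.1 h3).resolve_left hM'
  simp [hz]

/-- The rational linear form of a weight. -/
def form {n : ℕ} (ν : Fin n → ℤ) : (Fin n → ℚ) →ₗ[ℚ] ℚ where
  toFun x := ∑ i, x i * (ν i : ℚ)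
  map_add' x y := by simp [add_mul, Finset.sum_add_distrib]
  map_smul' c x := by
    simp only [Pi.smul_apply, smul_eq_mul, RingHom.id_apply, Finset.mul_sum]
    exact Finset.sum_congr rfl fun i _ => by ring

lemma ker_le {n : ℕ} (D : Set (Fin n → ℤ)) (ν : Fin n → ℤ)
    (h : ∀ a, pr a ν = 0 → ∃ N : ℕ, 0 < N ∧ N • a ∈ AddSubgroup.closure D) :
    LinearMap.ker (form ν) ≤ Submodule.span ℚ (fi n '' D) := by
  intro x hx
  obtain ⟨M, a, hM, ha⟩ := clear x
  have hM' : (M : ℚ) ≠ 0 := by exact_mod_cast hM.ne'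
  have hfa : fi n a = (M : ℚ) • x := by
    ext i; rw [fi_apply, ha i]; simp
  have h0 : pr a ν = 0 := by
    have : ((pr a ν : ℤ) : ℚ) = 0 := by
      unfold pr
      push_cast
      have hx0 : ∑ i, x i * (ν i : ℚ) = 0 := hx
      calc ∑ i, (a i : ℚ) * (ν i : ℚ) = M * ∑ i, x i * (ν i : ℚ) := by
            rw [Finset.mul_sum]
            refine Finset.sum_congr rfl fun i _ => ?_
            rw [ha i]; ring
        _ = 0 := by rw [hx0, mul_zero]
    exact_mod_cast this
  obtain ⟨N, hN, hNa⟩ := h a h0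
  have hN' : (N : ℚ) ≠ 0 := by exact_mod_cast hN.ne'
  have hcl : ∀ y ∈ AddSubgroup.closure D, fi n y ∈ Submodule.span ℚ (fi n '' D) := by
    intro y hy
    induction hy using AddSubgroup.closure_induction with
    | mem y hy => exact Submodule.subset_span ⟨y, hy, rfl⟩
    | zero => rw [map_zero]; exact Submodule.zero_mem _
    | add y z _ _ h1 h2 => rw [map_add]; exact Submodule.add_mem _ h1 h2
    | neg y _ h1 => rw [map_neg]; exact Submodule.neg_mem _ h1
  have h1 := hcl _ hNa
  have h2 : fi n (N • a) = ((N : ℚ) * M) • x := by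
    rw [map_nsmul, hfa, ← Nat.cast_smul_eq_nsmul ℚ, smul_smul]
  rw [h2] at h1
  have h3 := Submodule.smul_mem _ (((N : ℚ) * M)⁻¹) h1
  rwa [smul_smul, inv_mul_cancel₀ (mul_ne_zero hN' hM'), one_smul] at h3

end MMCI.F.SBI

namespace MMCI.F

open SBI

theorem t_SBI : S_SBI := by
  intro n D
  constructor
  · intro h
    apply pick
    rw [full D h, finrank_top, Module.finrank_fin_fun]
  · intro ν _ h
    apply pick
    refine le_trans ?_ (Submodule.finrank_mono (ker_le D ν h))
    have h1 := LinearMap.finrank_range_add_finrank_ker (form ν)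
    have h2 : Module.finrank ℚ (LinearMap.range (form ν)) ≤ 1 := by
      refine (Submodule.finrank_le _).trans ?_
      simp
    rw [Module.finrank_fin_fun] at h1
    omega

end MMCI.F
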