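import Pool.Agent.MMCI.StmtsF

set_option autoImplicit false

namespace MMCI.F

open Topology

namespace SGN

theorem int_mult {ι : Type} [Fintype ι] (x : ι → ℚ) :
    ∃ (N : ℕ) (z : ι → ℤ), 0 < N ∧ ∀ i, (z i : ℚ) = N * x i := by
  classical
  refine ⟨∏ i, (x i).den, fun i => (x i).num * ∏ j ∈ Finset.univ.erase i, ((x j).den : ℤ), ?_, ?_⟩
  · exact Finset.prod_pos fun i _ => (x i).den_pos
  · intro i
    have h1 : ((∏ i, (x i).den : ℕ) : ℚ) = (x i).den * ∏ j ∈ Finset.univ.erase i, ((x j).den : ℚ) := by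
      push_cast
      exact (Finset.mul_prod_erase Finset.univ (fun j => ((x j).den : ℚ)) (Finset.mem_univ i)).symm
    rw [h1]
    push_cast
    have h2 : ((x i).den : ℚ) * x i = (x i).num := by
      rw [mul_comm]
      exact Rat.mul_den_eq_num (x i)
    linear_combination (- ∏ j ∈ Finset.univ.erase i, ((x j).den : ℚ)) * h2

end SGN

theorem t_SGN : S_SGN := by
  classical
  intro ι _ x L
  let W : Submodule ℚ ℝ := Submodule.span ℚ (Set.range x)
  have hfd : FiniteDimensional ℚ W := FiniteDimensional.span_of_finite ℚ (Set.finite_range x)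
  let b := Module.finBasis ℚ W
  let k := Module.finrank ℚ W
  let w : Fin k → ℝ := fun j => (b j : ℝ)
  let q : ι → Fin k → ℚ := fun i j => b.repr ⟨x i, Submodule.subset_span ⟨i, rfl⟩⟩ j
  have hx : ∀ i, x i = ∑ j, (q i j : ℝ) * w j := by
    intro i
    have h1 := b.sum_repr ⟨x i, Submodule.subset_span ⟨i, rfl⟩⟩
    have h2 := congrArg (fun y : W => (y : ℝ)) h1
    simp only [Submodule.coe_sum, Submodule.coe_smul] at h2
    rw [← h2]
    refine Finset.sum_congr rfl fun j _ => ?_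
    rw [Rat.smul_def]
  -- the coefficients of the forms
  let a : (ι → ℤ) → Fin k → ℚ := fun f j => ∑ i, (f i : ℚ) * q i j
  have hval : ∀ f : ι → ℤ, ∑ i, (f i : ℝ) * x i = ∑ j, (a f j : ℝ) * w j := by
    intro f
    simp only [a]
    push_cast
    simp only [Finset.sum_mul]
    rw [Finset.sum_comm]
    refine Finset.sum_congr rfl fun i _ => ?_
    rw [hx i, Finset.mul_sum]
    refine Finset.sum_congr rfl fun j _ => ?_
    ring
  have hzero : ∀ f : ι → ℤ, ∑ i, (f i : ℝ) * x i = 0 → a f = 0 := by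
    intro f hf
    rw [hval] at hf
    have hli := b.linearIndependent
    rw [Fintype.linearIndependent_iff] at hli
    funext j
    refine hli (a f) ?_ j
    apply Subtype.ext
    simp only [Submodule.coe_sum, Submodule.coe_smul, Submodule.coe_zero]
    rw [← hf]
    refine Finset.sum_congr rfl fun j _ => ?_
    rw [Rat.smul_def]
  have hcont : ∀ f : ι → ℤ, Continuous fun w' : Fin k → ℝ => ∑ j, (a f j : ℝ) * w' j :=
    fun f => by fun_prop
  have hev : ∀ᶠ w' in 𝓝 w, ∀ f ∈ L, (0 < ∑ i, (f i : ℝ) * x i → 0 < ∑ j, (a f j : ℝ) * w' j) ∧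
      (∑ i, (f i : ℝ) * x i < 0 → ∑ j, (a f j : ℝ) * w' j < 0) := by
    rw [Filter.eventually_all_finset]
    intro f _
    refine Filter.Eventually.and ?_ ?_
    · by_cases h : 0 < ∑ i, (f i : ℝ) * x i
      · have h' := h
        rw [hval] at h'
        filter_upwards [(hcont f).continuousAt.eventually (lt_mem_nhds h')] with w' hw' _
        exact hw'
      · exact Filter.Eventually.of_forall fun w' h' => absurd h' h
    · by_cases h : ∑ i, (f i : ℝ) * x i < 0
      · have h' := h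
        rw [hval] at h'
        filter_upwards [(hcont f).continuousAt.eventually (gt_mem_nhds h')] with w' hw' _
        exact hw'
      · exact Filter.Eventually.of_forall fun w' h' => absurd h' h
  have hd : DenseRange (fun p : Fin k → ℚ => fun j => (p j : ℝ)) :=
    DenseRange.piMap fun _ => Rat.denseRange_cast
  obtain ⟨p, hp⟩ : ∃ p : Fin k → ℚ, ∀ f ∈ L,
      (0 < ∑ i, (f i : ℝ) * x i → 0 < ∑ j, (a f j : ℝ) * (p j : ℝ)) ∧
      (∑ i, (f i : ℝ) * x i < 0 → ∑ j, (a f j : ℝ) * (p j : ℝ) < 0) := by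
    obtain ⟨U, hU, hUo, hwU⟩ := mem_nhds_iff.mp hev
    obtain ⟨p, hp⟩ := hd.exists_mem_open hUo ⟨w, hwU⟩
    exact ⟨p, hU hp⟩
  obtain ⟨N, z, hN, hz⟩ := SGN.int_mult fun i => ∑ j, q i j * p j
  have hzv : ∀ f : ι → ℤ, ((∑ i, f i * z i : ℤ) : ℝ) = N * ∑ j, (a f j : ℝ) * (p j : ℝ) := by
    intro f
    have h1 : ((∑ i, f i * z i : ℤ) : ℚ) = N * ∑ j, a f j * p j := by
      push_cast
      simp only [hz, a]
      simp only [Finset.mul_sum, Finset.sum_mul]
      rw [Finset.sum_comm]
      refine Finset.sum_congr rfl fun j _ => Finset.sum_congr rfl fun i _ => ?_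
      ring
    exact_mod_cast congrArg (fun y : ℚ => (y : ℝ)) h1
  have hNR : (0 : ℝ) < N := by exact_mod_cast hN
  refine ⟨z, fun f hf => ⟨fun h => ?_, fun h => ?_, fun h => ?_⟩⟩
  · have h1 : (0 : ℝ) < ((∑ i, f i * z i : ℤ) : ℝ) := by
      rw [hzv]
      exact mul_pos hNR ((hp f hf).1 h)
    exact_mod_cast h1
  · have h1 : ((∑ i, f i * z i : ℤ) : ℝ) = 0 := by
      rw [hzv, hzero f h]
      simp
    exact_mod_cast h1
  · have h1 : ((∑ i, f i * z i : ℤ) : ℝ) < 0 := by
      rw [hzv]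
      exact mul_neg_of_pos_of_neg hNR ((hp f hf).2 h)
    exact_mod_cast h1

end MMCI.F
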