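import Pool.Agent.MMCI.StmtsF

/-!
# Fans, module VRT: vertices of a polytope
-/

set_option autoImplicit false

namespace MMCI.F

namespace VRT

lemma ip_add {n : ℕ} (x y z : E n) : ip (x + y) z = ip x z + ip y z := by
  simp [ip, inner_add_left]

lemma ip_sub {n : ℕ} (x y z : E n) : ip (x - y) z = ip x z - ip y z := by
  simp [ip, inner_sub_left]

lemma ip_smul {n : ℕ} (t : ℝ) (x z : E n) : ip (t • x) z = t * ip x z := by
  simp [ip, real_inner_smul_left]

lemma ip_sum_smul {n : ℕ} (y : E n) (A : Finset (Fin n → ℤ)) (c : (Fin n → ℤ) → ℝ) :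
    ip y (∑ ν ∈ A, c ν • iv ν) = ∑ ν ∈ A, c ν * ip y (iv ν) := by
  simp [ip, inner_sum, real_inner_smul_right]

lemma mem_tight {n : ℕ} {S : Finset (Fin n → ℤ)} {b : (Fin n → ℤ) → ℝ} {x : E n}
    {ν : Fin n → ℤ} : ν ∈ tight S b x ↔ ν ∈ S ∧ ip x (iv ν) = b ν := by
  classical
  simp [tight]

lemma finite_vert {n : ℕ} (S : Finset (Fin n → ℤ)) (b : (Fin n → ℤ) → ℝ) :
    {x : E n | IsVert S b x}.Finite := by
  classical
  refine Set.Finite.of_injOn (f := fun x => tight S b x) (t := (S.powerset : Set _)) ?_ ?_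
    (Finset.finite_toSet _)
  · intro x _
    simp only [Finset.coe_powerset, Set.mem_preimage, Set.mem_powerset_iff]
    intro ν hν
    exact (mem_tight.mp hν).1
  · intro x hx x' hx' h
    have h' : tight S b x = tight S b x' := h
    have : x - x' = 0 := by
      apply hx.2
      intro ν hν
      have h1 := (mem_tight.mp hν).2
      rw [h'] at hν
      have h2 := (mem_tight.mp hν).2
      rw [ip_sub, h1, h2, sub_self]
    exact sub_eq_zero.mp this

lemma isClosed_poly {n : ℕ} (S : Finset (Fin n → ℤ)) (b : (Fin n → ℤ) → ℝ) :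
    IsClosed (Poly (n := n) S b) := by
  have : Poly (n := n) S b = ⋂ ν ∈ S, {x : E n | b ν ≤ ip x (iv ν)} := by
    ext x; simp [Poly]
  rw [this]
  refine isClosed_biInter fun ν _ => ?_
  apply isClosed_le continuous_const
  unfold ip
  fun_prop

lemma exists_neg {n : ℕ} (S : Finset (Fin n → ℤ)) (b : (Fin n → ℤ) → ℝ)
    (hb : Bornology.IsBounded (Poly (n := n) S b)) (x y : E n) (hx : x ∈ Poly S b) (hy : y ≠ 0) :
    ∃ ν ∈ S, ip y (iv ν) < 0 := by
  by_contra hcon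
  push Not at hcon
  obtain ⟨R, hR⟩ := hb.exists_norm_le
  have hmem : ∀ t : ℝ, 0 ≤ t → x + t • y ∈ Poly S b := by
    intro t ht ν hν
    rw [ip_add, ip_smul]
    have h1 := hx ν hν
    have h2 := mul_nonneg ht (hcon ν hν)
    linarith
  have hy0 : 0 < ‖y‖ := norm_pos_iff.mpr hy
  have hR0 : 0 ≤ R := (norm_nonneg _).trans (hR x hx)
  have h3 := hR _ (hmem ((2 * R + 1) / ‖y‖) (by positivity))
  have h4 : ‖((2 * R + 1) / ‖y‖) • y‖ = 2 * R + 1 := by
    rw [norm_smul, Real.norm_eq_abs, abs_of_nonneg (by positivity)]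
    field_simp
  have h5 : ‖((2 * R + 1) / ‖y‖) • y‖ ≤ ‖x + ((2 * R + 1) / ‖y‖) • y‖ + ‖x‖ := by
    have : ((2 * R + 1) / ‖y‖) • y = (x + ((2 * R + 1) / ‖y‖) • y) - x := by abel
    calc ‖((2 * R + 1) / ‖y‖) • y‖ = ‖(x + ((2 * R + 1) / ‖y‖) • y) - x‖ := by rw [← this]
      _ ≤ _ := norm_sub_le _ _
  have h6 := hR x hx
  linarith

/-- One more tight normal. -/
lemma step {n : ℕ} (S : Finset (Fin n → ℤ)) (b : (Fin n → ℤ) → ℝ)
    (hb : Bornology.IsBounded (Poly (n := n) S b)) (x y : E n) (hx : x ∈ Poly S b) (hy : y ≠ 0)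
    (hyt : ∀ ν ∈ tight S b x, ip y (iv ν) = 0) :
    ∃ t : ℝ, x + t • y ∈ Poly S b ∧
      (tight S b x).card < (tight S b (x + t • y)).card := by
  classical
  obtain ⟨ν₀, hν₀, hneg⟩ := exists_neg S b hb x y hx hy
  have hne : (S.filter fun ν => ip y (iv ν) < 0).Nonempty :=
    ⟨ν₀, Finset.mem_filter.mpr ⟨hν₀, hneg⟩⟩
  obtain ⟨ν₁, hν₁, hmin⟩ := Finset.exists_min_image (S.filter fun ν => ip y (iv ν) < 0)
    (fun ν => (ip x (iv ν) - b ν) / (- ip y (iv ν))) hne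
  obtain ⟨hν₁S, hν₁neg⟩ := Finset.mem_filter.mp hν₁
  refine ⟨(ip x (iv ν₁) - b ν₁) / (- ip y (iv ν₁)), ?_, ?_⟩
  · intro ν hν
    rw [ip_add, ip_smul]
    have hxν := hx ν hν
    have ht0 : 0 ≤ (ip x (iv ν₁) - b ν₁) / (- ip y (iv ν₁)) :=
      div_nonneg (sub_nonneg.mpr (hx ν₁ hν₁S)) (by linarith)
    by_cases hc : ip y (iv ν) < 0
    · have h1 := hmin ν (Finset.mem_filter.mpr ⟨hν, hc⟩)
      have hpos : 0 < - ip y (iv ν) := by linarith
      have h2 : (ip x (iv ν₁) - b ν₁) / (- ip y (iv ν₁)) * (- ip y (iv ν)) ≤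
          ip x (iv ν) - b ν := by
        rwa [le_div_iff₀ hpos] at h1
      linarith
    · have h2 := mul_nonneg ht0 (not_lt.mp hc)
      linarith
  · apply Finset.card_lt_card
    rw [Finset.ssubset_iff_of_subset]
    · refine ⟨ν₁, mem_tight.mpr ⟨hν₁S, ?_⟩, fun h => ?_⟩
      · rw [ip_add, ip_smul]
        have hne' : ip y (iv ν₁) ≠ 0 := ne_of_lt hν₁neg
        field_simp
        ring
      · rw [hyt ν₁ h] at hν₁neg
        exact lt_irrefl _ hν₁neg
    · intro ν hν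
      obtain ⟨h1, h2⟩ := mem_tight.mp hν
      refine mem_tight.mpr ⟨h1, ?_⟩
      rw [ip_add, ip_smul, hyt ν hν, mul_zero, add_zero, h2]

end VRT

theorem t_VRT (hFRK : S_FRK) : S_VRT := by
  classical
  intro n S b
  refine ⟨VRT.finite_vert S b, fun hne hb w => ?_⟩
  have hcomp : IsCompact (Poly (n := n) S b) :=
    Metric.isCompact_of_isClosed_isBounded (VRT.isClosed_poly S b) hb
  have hcont : Continuous fun x : E n => ip x w := by unfold ip; fun_prop
  obtain ⟨x₀, hx₀, hmin₀⟩ := hcomp.exists_isMinOn hne hcont.continuousOn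
  -- a minimiser with the largest number of tight normals
  have key : ∃ x : E n, (x ∈ Poly S b ∧ ∀ y ∈ Poly S b, ip x w ≤ ip y w) ∧
      ∀ x' : E n, (x' ∈ Poly S b ∧ ∀ y ∈ Poly S b, ip x' w ≤ ip y w) →
        (tight S b x').card ≤ (tight S b x).card := by
    have hbd : ∀ x : E n, (tight S b x).card ≤ S.card := fun x =>
      Finset.card_le_card fun ν hν => (VRT.mem_tight.mp hν).1
    have hP : ∃ k : ℕ, ∃ x : E n, (x ∈ Poly S b ∧ ∀ y ∈ Poly S b, ip x w ≤ ip y w) ∧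
        S.card - (tight S b x).card = k := ⟨_, x₀, ⟨hx₀, fun y hy => hmin₀ hy⟩, rfl⟩
    obtain ⟨x, hx, hxk⟩ := Nat.find_spec hP
    refine ⟨x, hx, fun x' hx' => ?_⟩
    have h1 := Nat.find_min' hP ⟨x', hx', rfl⟩
    have h2 := hbd x
    have h3 := hbd x'
    omega
  obtain ⟨x, ⟨hx, hmin⟩, hmax⟩ := key
  refine ⟨x, ⟨hx, fun y hy => ?_⟩, hmin⟩
  by_contra hy0
  obtain ⟨c, -, hc⟩ := hFRK S b x w hx hmin
  have hyw : ip y w = 0 := by
    rw [hc, VRT.ip_sum_smul]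
    exact Finset.sum_eq_zero fun ν hν => by rw [hy ν hν, mul_zero]
  obtain ⟨t, ht, hcard⟩ := VRT.step S b hb x y hx hy0 hy
  have := hmax (x + t • y) ⟨ht, fun z hz => by
    rw [VRT.ip_add, VRT.ip_smul, hyw, mul_zero, add_zero]
    exact hmin z hz⟩
  omega

end MMCI.F
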