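import Pool.Agent.MMCI.F_FCV
import Pool.Agent.MMCI.F_Fan
import Pool.Agent.MMCI.F_ABK
import Pool.Agent.MMCI.F_BAS
import Pool.Agent.MMCI.F_BDD
import Pool.Agent.MMCI.F_CIR
import Pool.Agent.MMCI.F_CRT
import Pool.Agent.MMCI.F_DEC
import Pool.Agent.MMCI.F_DEL
import Pool.Agent.MMCI.F_DIR
import Pool.Agent.MMCI.F_DSC
import Pool.Agent.MMCI.F_EPS
import Pool.Agent.MMCI.F_FCT
import Pool.Agent.MMCI.F_FNT
import Pool.Agent.MMCI.F_FRK
import Pool.Agent.MMCI.F_GOR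
import Pool.Agent.MMCI.F_LOC
import Pool.Agent.MMCI.F_MIN
import Pool.Agent.MMCI.F_MNK
import Pool.Agent.MMCI.F_NRY
import Pool.Agent.MMCI.F_NTV
import Pool.Agent.MMCI.F_ORT
import Pool.Agent.MMCI.F_POS
import Pool.Agent.MMCI.F_PRM
import Pool.Agent.MMCI.F_REA
import Pool.Agent.MMCI.F_SBI
import Pool.Agent.MMCI.F_SGN
import Pool.Agent.MMCI.F_VRT

/-!
# The block FAN is complete
-/

namespace MMCI

namespace F

theorem POS_holds : S_POS := t_POS t_DIR t_BAS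

theorem DEL_holds : S_DEL := t_DEL t_BAS t_MIN POS_holds

theorem FNT_holds : S_FNT := t_FNT t_BAS DEL_holds

theorem LOC_holds : S_LOC := t_LOC t_BAS t_MIN DEL_holds FNT_holds

theorem VRT_holds : S_VRT := t_VRT t_FRK

theorem Fan_holds : S_Fan :=
  t_Fan VRT_holds t_FRK (t_CIR t_GOR (t_DEC t_BAS DEL_holds))
    (t_REA t_BAS t_MIN FNT_holds LOC_holds (t_BDD t_MIN LOC_holds) t_EPS)
    (t_FCT VRT_holds) (t_NTV VRT_holds) t_ORT (t_ABK t_SGN) t_DSC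

end F

theorem S_FAN_holds : S_FAN := F.t_FAN F.Fan_holds F.t_CRT F.t_SBI F.t_NRY F.t_PRM F.t_MNK

theorem S_FAA_holds : S_FAA := F.t_FAA F.Fan_holds F.t_CRT F.t_SBI F.t_NRY F.t_PRM F.t_MNK

end MMCI
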