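import Pool.Agent.MMCI.StmtsC0

/-!
# MP_fa3f7f_ag, MMCI, block C: `K` is a finitely generated field, algebraic over the charts
-/

namespace MMCI.FGF

open MldGeo MvPolynomial

variable {n : ℕ} {K V : Type} [Field K] [Algebra ℂ K]

omit [Algebra ℂ K] in
theorem x_mul_neg {x : (Fin n → ℤ) → K} (hx : Mono x) (u : Fin n → ℤ) : x u * x (-u) = 1 := by
  rw [← hx.add, add_neg_cancel, hx.zero]

omit [Algebra ℂ K] in
theorem x_ne {x : (Fin n → ℤ) → K} (hx : Mono x) (u : Fin n → ℤ) : x u ≠ 0 := by
  intro h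
  have := x_mul_neg hx u
  rw [h, zero_mul] at this
  exact zero_ne_one this

omit [Algebra ℂ K] in
theorem x_neg {x : (Fin n → ℤ) → K} (hx : Mono x) (u : Fin n → ℤ) : x (-u) = (x u)⁻¹ :=
  eq_inv_of_mul_eq_one_right (x_mul_neg hx u)

omit [Algebra ℂ K] in
theorem x_nsmul {x : (Fin n → ℤ) → K} (hx : Mono x) (M : ℕ) (u : Fin n → ℤ) :
    x (M • u) = x u ^ M := by
  induction M with
  | zero => rw [zero_smul, pow_zero, hx.zero]
  | succ M ih => rw [succ_nsmul, hx.add, ih, pow_succ]

/-- The exponents whose monomials lie in an intermediate field. -/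
def expGrp {x : (Fin n → ℤ) → K} (hx : Mono x) (L : IntermediateField ℂ K) :
    AddSubgroup (Fin n → ℤ) where
  carrier := {u | x u ∈ L}
  zero_mem' := by
    change x 0 ∈ L
    rw [hx.zero]
    exact L.one_mem
  add_mem' := by
    intro a b ha hb
    change x (a + b) ∈ L
    rw [hx.add]
    exact L.mul_mem ha hb
  neg_mem' := by
    intro a ha
    change x (-a) ∈ L
    rw [x_neg hx]
    exact L.inv_mem ha

theorem mem_all (S : AddSubgroup (Fin n → ℤ)) (h : ∀ i, Pi.single i (1 : ℤ) ∈ S)
    (u : Fin n → ℤ) : u ∈ S := by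
  have hu : u = ∑ i, u i • Pi.single i (1 : ℤ) := by
    funext j
    rw [Finset.sum_apply]
    simp [Pi.single_apply]
  rw [hu]
  exact S.sum_mem fun i _ => S.zsmul_mem (h i) _

theorem exists_gens {x : (Fin n → ℤ) → K} (hx : Mono x) (hF : MFrac x) :
    ∃ T : Finset K, IntermediateField.adjoin ℂ (T : Set K) = ⊤ := by
  classical
  refine ⟨Finset.univ.image fun i : Fin n => x (Pi.single i 1), ?_⟩
  rw [eq_top_iff]
  intro a _
  set T : Finset K := Finset.univ.image fun i : Fin n => x (Pi.single i 1) with hT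
  set L := IntermediateField.adjoin ℂ (T : Set K) with hL
  have h1 : ∀ u, x u ∈ L := by
    intro u
    have : u ∈ expGrp hx L := by
      apply mem_all
      intro i
      change x (Pi.single i 1) ∈ L
      apply IntermediateField.subset_adjoin
      rw [hT, Finset.mem_coe]
      exact Finset.mem_image_of_mem _ (Finset.mem_univ i)
    exact this
  have h2 : ∀ r ∈ Submodule.span ℂ (Set.range x), r ∈ L := by
    intro r hr
    induction hr using Submodule.span_induction with
    | mem r h =>
      obtain ⟨u, rfl⟩ := h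
      exact h1 u
    | zero => exact L.zero_mem
    | add a b _ _ ha hb => exact L.add_mem ha hb
    | smul c a _ ha =>
      rw [Algebra.smul_def]
      exact L.mul_mem (L.algebraMap_mem c) ha
  obtain ⟨r, hr, q, hq, hq0, haq⟩ := hF a
  have : a = r / q := by rw [← haq, mul_div_cancel_right₀ _ hq0]
  rw [this]
  exact L.div_mem (h2 r hr) (h2 q hq)

/-- The exponents whose monomials are algebraic over a subring. -/
def algGrp {x : (Fin n → ℤ) → K} (hx : Mono x) (B : Subalgebra ℂ K) :
    AddSubgroup (Fin n → ℤ) where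
  carrier := {u | IsAlgebraic B (x u)}
  zero_mem' := by
    change IsAlgebraic B (x 0)
    rw [hx.zero]
    exact isAlgebraic_one
  add_mem' := by
    intro a b ha hb
    change IsAlgebraic B (x (a + b))
    rw [hx.add]
    exact IsAlgebraic.mul ha hb
  neg_mem' := by
    intro a ha
    change IsAlgebraic B (x (-a))
    rw [x_neg hx]
    exact IsAlgebraic.inv_iff.2 ha

theorem isAlgebraic_all {x : (Fin n → ℤ) → K} (hx : Mono x) (hF : MFrac x)
    {A : V → Fin n → ℤ} (hA : Full A) (v : V) (a : K) : IsAlgebraic (base x A v) a := by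
  set B := base x A v with hB
  have hbase : ∀ v', A v' - A v ∈ algGrp hx B := by
    intro v'
    have hm : x (A v' - A v) ∈ B := Algebra.subset_adjoin ⟨v', rfl⟩
    exact isAlgebraic_algebraMap (⟨x (A v' - A v), hm⟩ : B)
  have hclos : AddSubgroup.closure {w | ∃ v v', w = A v' - A v} ≤ algGrp hx B := by
    rw [AddSubgroup.closure_le]
    rintro w ⟨v₁, v₂, rfl⟩
    have : A v₂ - A v₁ = (A v₂ - A v) - (A v₁ - A v) := by abel
    change A v₂ - A v₁ ∈ algGrp hx B
    rw [this]
    exact (algGrp hx B).sub_mem (hbase v₂) (hbase v₁)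
  have h1 : ∀ u, IsAlgebraic B (x u) := by
    intro u
    obtain ⟨M, hM, hMu⟩ := hA u
    have h : IsAlgebraic B (x (M • u)) := hclos hMu
    rw [x_nsmul hx] at h
    exact IsAlgebraic.of_pow hM h
  have h2 : ∀ r ∈ Submodule.span ℂ (Set.range x), IsAlgebraic B r := by
    intro r hr
    induction hr using Submodule.span_induction with
    | mem r h =>
      obtain ⟨u, rfl⟩ := h
      exact h1 u
    | zero => exact isAlgebraic_zero
    | add a b _ _ ha hb => exact IsAlgebraic.add ha hb
    | smul c a _ ha =>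
      rw [Algebra.smul_def]
      refine IsAlgebraic.mul ?_ ha
      exact isAlgebraic_algebraMap (⟨algebraMap ℂ K c, B.algebraMap_mem c⟩ : B)
  obtain ⟨r, hr, q, hq, hq0, haq⟩ := hF a
  have : a = r * q⁻¹ := by rw [← haq, mul_assoc, mul_inv_cancel₀ hq0, mul_one]
  rw [this]
  exact IsAlgebraic.mul (h2 r hr) (IsAlgebraic.inv_iff.2 (h2 q hq))

theorem base_fg [Finite V] (x : (Fin n → ℤ) → K) (A : V → Fin n → ℤ) (v : V) :
    (base x A v).FG :=
  Subalgebra.fg_def.2 ⟨_, Set.finite_range _, rfl⟩

end MMCI.FGF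

namespace MMCI

theorem t_FGF : Stmt_FGF := by
  intro n K V _ _ _ x A hx hF hA
  exact ⟨FGF.exists_gens hx hF, fun v => ⟨FGF.base_fg x A v, fun a =>
    FGF.isAlgebraic_all hx hF hA v a⟩⟩

end MMCI
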