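import Pool.Agent.MMCI.StmtsF

/-!
# FAC: a facet spans a hyperplane
-/

set_option autoImplicit false

namespace MMCI.F

namespace FAC

noncomputable section

variable {n : ℕ}

lemma ip_sub_smul (x u w : E n) (t : ℝ) : ip (x - t • u) w = ip x w - t * ip u w := by
  unfold ip
  rw [inner_sub_left, inner_smul_left]
  simp

lemma ip_comb (x v u : E n) (K : ℝ) : ip x (K • v + u) = K * ip x v + ip x u := by
  unfold ip
  rw [inner_add_right, inner_smul_right]

/-- Small displacements of `x₀` parallel to the facet stay in the polytope. -/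
lemma small (S : Finset (Fin n → ℤ)) (b : (Fin n → ℤ) → ℝ) (ν : Fin n → ℤ) (x₀ : E n)
    (h0 : ip x₀ (iv ν) = b ν) (h1 : ∀ ν' ∈ S, ν' ≠ ν → b ν' < ip x₀ (iv ν')) (u : E n)
    (hu : ip u (iv ν) = 0) : ∃ τ : ℝ, 0 < τ ∧ x₀ - τ • u ∈ Poly S b ∧
      x₀ - τ • (-u) ∈ Poly S b := by
  have key : ∀ v : E n, ip v (iv ν) = 0 →
      ∀ᶠ τ : ℝ in nhdsWithin 0 (Set.Ioi 0), x₀ - τ • v ∈ Poly S b := by
    intro v hv
    have : ∀ᶠ τ : ℝ in nhdsWithin 0 (Set.Ioi 0), ∀ ν' ∈ S, b ν' ≤ ip (x₀ - τ • v) (iv ν') := by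
      rw [Filter.eventually_all_finset]
      intro ν' hν'
      by_cases h : ν' = ν
      · subst h
        refine Filter.Eventually.of_forall fun τ => ?_
        rw [ip_sub_smul, hv, h0]
        simp
      · have hlt := h1 ν' hν' h
        have hc : Filter.Tendsto (fun τ : ℝ => ip x₀ (iv ν') - τ * ip v (iv ν'))
            (nhds 0) (nhds (ip x₀ (iv ν') - 0 * ip v (iv ν'))) := by
          apply Continuous.tendsto
          fun_prop
        have he : ∀ᶠ τ : ℝ in nhds 0, b ν' < ip x₀ (iv ν') - τ * ip v (iv ν') := by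
          apply hc.eventually_const_lt
          simpa using hlt
        filter_upwards [nhdsWithin_le_nhds he] with τ hτ
        rw [ip_sub_smul]
        exact hτ.le
    exact this
  have hneg : ip (-u) (iv ν) = 0 := by
    unfold ip at *
    rw [inner_neg_left, hu, neg_zero]
  have h2 : ∀ᶠ τ : ℝ in nhdsWithin 0 (Set.Ioi 0), 0 < τ := by
    filter_upwards [self_mem_nhdsWithin] with τ hτ
    exact hτ
  obtain ⟨τ, hτ1, hτ2, hτ3⟩ := (h2.and ((key u hu).and (key (-u) hneg))).exists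
  exact ⟨τ, hτ1, hτ2, hτ3⟩

/-- The main estimate. -/
lemma est (hVRT : S_VRT) (S : Finset (Fin n → ℤ)) (b : (Fin n → ℤ) → ℝ) (ν : Fin n → ℤ)
    (x₀ : E n) (hB : Bornology.IsBounded (Poly S b)) (hν : ν ∈ S) (h0 : ip x₀ (iv ν) = b ν)
    (hx : x₀ ∈ Poly S b)
    (u : E n) (κ τ : ℝ) (hu : ip u (iv ν) = 0)
    (hκ : ∀ z : E n, IsVert S b z → ν ∈ tight S b z → ip z u = κ)
    (hτ : x₀ - τ • u ∈ Poly S b) : κ ≤ ip x₀ u - τ * ip u u := by
  obtain ⟨hfin, hmin⟩ := hVRT S b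
  obtain ⟨M, hM⟩ := (hfin.image fun z => (ip x₀ u - ip z u) / (ip z (iv ν) - b ν)).bddAbove
  obtain ⟨z, hz, hzm⟩ := hmin ⟨x₀, hx⟩ hB ((M + 1) • iv ν + u)
  have hzP : b ν ≤ ip z (iv ν) := hz.1 ν hν
  have hon : ip z (iv ν) = b ν := by
    by_contra hne
    have hlt : 0 < ip z (iv ν) - b ν := by
      have := lt_of_le_of_ne hzP (Ne.symm hne)
      linarith
    have h3 : (ip x₀ u - ip z u) / (ip z (iv ν) - b ν) ≤ M := hM ⟨z, hz, rfl⟩
    rw [div_le_iff₀ hlt] at h3
    have h4 := hzm x₀ hx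
    rw [ip_comb, ip_comb, h0] at h4
    nlinarith
  have hzt : ν ∈ tight S b z := by
    classical
    unfold tight
    rw [Finset.mem_filter]
    exact ⟨hν, hon⟩
  have h5 := hzm _ hτ
  rw [ip_comb, ip_comb, ip_sub_smul, ip_sub_smul, hu, h0, hon, hκ z hz hzt] at h5
  linarith

end

end FAC

theorem t_FAC (hVRT : S_VRT) : S_FAC := by
  intro n S b ν x₀ hB hν h0 h1 y hy hyt u hu hz
  have hx : x₀ ∈ Poly S b := by
    intro ν' hν'
    by_cases h : ν' = ν
    · subst h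
      exact h0.ge
    · exact (h1 ν' hν' h).le
  obtain ⟨τ, hτ, hp, hm⟩ := FAC.small S b ν x₀ h0 h1 u hu
  have e1 := FAC.est hVRT S b ν x₀ hB hν h0 hx u (ip y u) τ hu hz hp
  have hneg : ip (-u) (iv ν) = 0 := by
    unfold ip at *
    rw [inner_neg_left, hu, neg_zero]
  have hnr : ∀ z : E n, ip z (-u) = - ip z u := by
    intro z
    unfold ip
    rw [inner_neg_right]
  have e2 := FAC.est hVRT S b ν x₀ hB hν h0 hx (-u) (- ip y u) τ hneg
    (fun z hz1 hz2 => by rw [hnr, hz z hz1 hz2]) hm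
  have hnn : ip (-u) (-u) = ip u u := by
    unfold ip
    rw [inner_neg_neg]
  rw [hnr, hnn] at e2
  have h6 : τ * ip u u ≤ 0 := by linarith
  have h7 : ip u u ≤ 0 := by
    by_contra hc
    have := mul_pos hτ (not_le.mp hc)
    linarith
  have h8 : ip u u = 0 := le_antisymm h7 real_inner_self_nonneg
  exact inner_self_eq_zero.mp h8

end MMCI.F
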