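import Pool.Agent.MMCI.StmtsF3

/-!
# Fans: the structures of `St.lean` from the main theorem of the convex geometry
-/

set_option autoImplicit false

namespace MMCI.F

noncomputable section

namespace FCV

variable {n : ℕ} {μ : (Fin n → ℤ) → ℤ}

theorem pair_pr (w m : Fin n → ℤ) : pair w m = pr m w := by
  unfold pair pr
  exact Finset.sum_congr rfl fun i _ => mul_comm _ _

theorem pr_sub (a b w : Fin n → ℤ) : pr (a - b) w = pr a w - pr b w := by
  unfold pr
  rw [← Finset.sum_sub_distrib]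
  refine Finset.sum_congr rfl fun i _ => ?_
  simp [sub_mul]

theorem pr_cone {T : Finset (Fin n → ℤ)} {w : Fin n → ℤ} {c : (Fin n → ℤ) → ℝ}
    (h : ∀ i, (w i : ℝ) = ∑ ν ∈ T, c ν * (ν i : ℝ)) (a : Fin n → ℤ) :
    (pr a w : ℝ) = ∑ ν ∈ T, c ν * (pr a ν : ℝ) := by
  unfold pr
  push_cast
  have h1 : ∀ i, (a i : ℝ) * (w i : ℝ) = ∑ ν ∈ T, c ν * ((a i : ℝ) * (ν i : ℝ)) := by
    intro i
    rw [h i, Finset.mul_sum]
    refine Finset.sum_congr rfl fun ν _ => ?_
    ring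
  rw [Finset.sum_congr rfl fun i _ => h1 i, Finset.sum_comm]
  refine Finset.sum_congr rfl fun ν _ => ?_
  rw [Finset.mul_sum]

theorem comb_zero {T : Finset (Fin n → ℤ)} {c : (Fin n → ℤ) → ℝ} (hc : ∀ ν, 0 ≤ c ν)
    {g : (Fin n → ℤ) → ℝ} (hg : ∀ ν ∈ T, 0 ≤ c ν * g ν) (h : ∑ ν ∈ T, c ν * g ν ≤ 0) :
    ∀ ν ∈ T, c ν ≠ 0 → g ν = 0 := by
  intro ν hν hcν
  have h1 : ∑ ν ∈ T, c ν * g ν = 0 := le_antisymm h (Finset.sum_nonneg fun ν hν => hg ν hν)
  have h2 := (Finset.sum_eq_zero_iff_of_nonneg fun ν hν => hg ν hν).mp h1 ν hν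
  rcases mul_eq_zero.mp h2 with h3 | h3
  · exact absurd h3 hcν
  · exact h3

theorem share (D : Fan n μ) (v v₂ : D.V) (w : Fin n → ℤ) (c : (Fin n → ℤ) → ℝ)
    (hc : ∀ ν, 0 ≤ c ν) (hcw : ∀ i, (w i : ℝ) = ∑ ν ∈ D.T v, c ν * (ν i : ℝ))
    (hle : pr (D.A v₂) w ≤ pr (D.A v) w) : ∀ ν ∈ D.T v, c ν ≠ 0 → ν ∈ D.T v₂ := by
  intro ν hν hcν
  have hz := comb_zero (T := D.T v) hc (g := fun ν => (pr (D.A v₂) ν : ℝ) - pr (D.A v) ν) (by
    intro ν hν
    have := (D.ample v v₂ ν hν).1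
    have : (pr (D.A v) ν : ℝ) ≤ pr (D.A v₂) ν := by exact_mod_cast this
    exact mul_nonneg (hc ν) (by linarith)) (by
    have h1 := pr_cone hcw (D.A v)
    have h2 := pr_cone hcw (D.A v₂)
    have h3 : ∑ ν ∈ D.T v, c ν * ((pr (D.A v₂) ν : ℝ) - pr (D.A v) ν) =
        (pr (D.A v₂) w : ℝ) - pr (D.A v) w := by
      rw [h1, h2, ← Finset.sum_sub_distrib]
      refine Finset.sum_congr rfl fun ν _ => ?_
      ring
    show ∑ ν ∈ D.T v, c ν * ((pr (D.A v₂) ν : ℝ) - pr (D.A v) ν) ≤ 0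
    rw [h3]
    have h4 : (pr (D.A v₂) w : ℝ) ≤ pr (D.A v) w := by exact_mod_cast hle
    linarith)
  have h1 := hz ν hν hcν
  have h2 : pr (D.A v₂) ν = pr (D.A v) ν := by
    have : (pr (D.A v₂) ν : ℝ) = pr (D.A v) ν := by
      simpa [sub_eq_zero] using h1
    exact_mod_cast this
  exact (D.ample v v₂ ν hν).2 h2

theorem T_sub (D : Fan n μ) {v v' : D.V} (h : D.A v = D.A v') : D.T v ⊆ D.T v' := by
  intro ν hν
  exact (D.ample v v' ν hν).2 (by rw [h])

theorem k_eq (D : Fan n μ) {v v' : D.V} (h : D.A v = D.A v') : D.k v = D.k v' := by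
  have h1 : D.k v - D.k v' = 0 := by
    refine D.span v _ fun ν hν => ?_
    rw [pr_sub, D.canon v ν hν, D.canon v' ν (T_sub D h hν), sub_self]
  exact sub_eq_zero.mp h1

theorem B_eq (D : Fan n μ) {v v' : D.V} (h : D.A v = D.A v') : D.B v = D.B v' := by
  have h1 : D.B v - D.B v' = 0 := by
    refine D.span v _ fun ν hν => ?_
    have h2 := D.nef v v' ν hν
    have h3 := D.nef v' v ν (T_sub D h hν)
    rw [pr_sub]
    linarith
  exact sub_eq_zero.mp h1

open Classical in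
/-- A function on the charts as a function of the vertices. -/
def ext (D : Fan n μ) (F : D.V → Fin n → ℤ) (a : Fin n → ℤ) : Fin n → ℤ :=
  if h : ∃ v, D.A v = a then F h.choose else 0

theorem ext_k (D : Fan n μ) (v : D.V) : ext D D.k (D.A v) = D.k v := by
  have h : ∃ v', D.A v' = D.A v := ⟨v, rfl⟩
  unfold ext
  rw [dif_pos h]
  exact k_eq D h.choose_spec

theorem ext_B (D : Fan n μ) (v : D.V) : ext D D.B (D.A v) = D.B v := by
  have h : ∃ v', D.A v' = D.A v := ⟨v, rfl⟩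
  unfold ext
  rw [dif_pos h]
  exact B_eq D h.choose_spec

open Classical in
/-- The vertices. -/
def vs (D : Fan n μ) : Finset (Fin n → ℤ) := Finset.univ.image D.A

theorem mem_vs (D : Fan n μ) {a : Fin n → ℤ} : a ∈ vs D ↔ ∃ v, D.A v = a := by
  classical
  unfold vs
  simp

theorem minAt_iff (D : Fan n μ) (v : D.V) (w : Fin n → ℤ) :
    MinAt (vs D) (D.A v) w ↔ ∀ v', pr (D.A v) w ≤ pr (D.A v') w := by
  constructor
  · intro h v'
    have := h.2 (D.A v') ((mem_vs D).mpr ⟨v', rfl⟩)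
    rwa [pair_pr, pair_pr] at this
  · intro h
    refine ⟨(mem_vs D).mpr ⟨v, rfl⟩, fun b hb => ?_⟩
    obtain ⟨v', rfl⟩ := (mem_vs D).mp hb
    rw [pair_pr, pair_pr]
    exact h v'

theorem MinAt.vertex (D : Fan n μ) {a w : Fin n → ℤ} (h : MinAt (vs D) a w) :
    ∃ v, D.A v = a ∧ ∀ v', pr (D.A v) w ≤ pr (D.A v') w := by
  obtain ⟨v, rfl⟩ := (mem_vs D).mp h.1
  exact ⟨v, rfl, (minAt_iff D v w).mp h⟩

/-- The canonical exponents agree at two minimal vertices. -/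
theorem cons (D : Fan n μ) (v v' : D.V) (w : Fin n → ℤ)
    (h : ∀ v₁, pr (D.A v) w ≤ pr (D.A v₁) w) (h' : pr (D.A v') w ≤ pr (D.A v) w) :
    pr (D.k v) w = pr (D.k v') w := by
  obtain ⟨c, hc, hcw⟩ := D.cone v w h
  have hs := share D v v' w c hc hcw h'
  have h1 : (pr (D.k v) w : ℝ) = pr (D.k v') w := by
    rw [pr_cone hcw, pr_cone hcw]
    refine Finset.sum_congr rfl fun ν hν => ?_
    by_cases h0 : c ν = 0
    · rw [h0, zero_mul, zero_mul]
    · rw [D.canon v ν hν, D.canon v' ν (hs ν hν h0)]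
  exact_mod_cast h1

/-- Monotonicity along the cone of a vertex. -/
theorem mono (D : Fan n μ) (v v' : D.V) (w a a' : Fin n → ℤ)
    (h : ∀ v₁, pr (D.A v) w ≤ pr (D.A v₁) w)
    (hle : ∀ ν ∈ D.T v, pr a ν ≤ pr a' ν) : pr a w ≤ pr a' w := by
  obtain ⟨c, hc, hcw⟩ := D.cone v w h
  have h1 : (pr a w : ℝ) ≤ pr a' w := by
    rw [pr_cone hcw, pr_cone hcw]
    refine Finset.sum_le_sum fun ν hν => mul_le_mul_of_nonneg_left ?_ (hc ν)
    exact_mod_cast hle ν hν
  exact_mod_cast h1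

end FCV

open FCV

variable {n r : ℕ}

/-- The comparison of the data. -/
theorem FCV.fan (hCRT : S_CRT) (hSBI : S_SBI) (hNRY : S_NRY) (hPRM : S_PRM) (f : Fin r → Laurent n)
    (hhom : ∀ (d : ℕ) (w : Fin n → ℤ), psi f (d • w) = d * psi f w) (D : Fan n (psi f)) :
    ∃ F : MMCI.Fan f, F.A = vs D ∧ F.k = D.r ∧ F.u = ext D D.k := by
  classical
  have hprim : ∀ w : Fin n → ℤ, Primitive w ↔ Prim w := fun w => hPRM w
  refine ⟨{ A := vs D, nonempty := ?_, full := ?_, k := D.r, k_pos := D.r_pos, u := ext D D.k,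
            disc := ?_, cons := ?_, ray := ?_, nonray := ?_ }, rfl, rfl, rfl⟩
  · obtain ⟨v⟩ := D.ne
    exact ⟨D.A v, (mem_vs D).mpr ⟨v, rfl⟩⟩
  · intro a ha
    obtain ⟨v, rfl⟩ := (mem_vs D).mp ha
    obtain ⟨b, hb, hbi⟩ := (hSBI {d | ∃ v', d = D.A v' - D.A v}).1 (by
      intro w hw
      refine D.full w fun v₁ v₂ => ?_
      have h1 := hw _ ⟨v₁, rfl⟩
      have h2 := hw _ ⟨v₂, rfl⟩
      rw [pr_sub] at h1 h2
      linarith)
    choose v' hv' using hb
    refine ⟨fun l => D.A (v' l), fun l => (mem_vs D).mpr ⟨v' l, rfl⟩, ?_⟩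
    have : (fun l => D.A (v' l) - D.A v) = b := funext fun l => (hv' l).symm
    rw [this]
    exact hbi
  · intro w a hw hm
    obtain ⟨v, rfl, hmin⟩ := MinAt.vertex D hm
    rw [ext_k, pair_pr]
    exact (D.disc v w ((hprim w).mp hw) (D.cone v w hmin)).1
  · intro w a a' hm hm'
    obtain ⟨v, rfl, hmin⟩ := MinAt.vertex D hm
    obtain ⟨v', rfl, hmin'⟩ := MinAt.vertex D hm'
    rw [ext_k, ext_k, pair_pr, pair_pr]
    exact cons D v v' w hmin (hmin' v)
  · intro w a hw hm heq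
    obtain ⟨v, rfl, hmin⟩ := MinAt.vertex D hm
    rw [ext_k, pair_pr] at heq
    have hwT := (D.disc v w ((hprim w).mp hw) (D.cone v w hmin)).2 heq
    obtain ⟨b, hb, hbi⟩ := (hSBI {b | ∃ v', pr (D.A v') w = pr (D.A v) w ∧ b = D.A v' - D.A v}).2 w
      ((hprim w).mp hw).1 (D.facet v w hwT)
    choose v' hv' hv'' using hb
    refine ⟨fun l => D.A (v' l), fun l => (mem_vs D).mpr ⟨v' l, rfl⟩, fun l => ?_, ?_⟩
    · show pair w (D.A (v' l) - D.A v) = 0
      rw [pair_pr, pr_sub, hv' l, sub_self]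
    · have : (fun l => D.A (v' l) - D.A v) = b := funext fun l => (hv'' l).symm
      rw [this]
      exact hbi
  · intro w a hw hm hne
    obtain ⟨v, rfl, hmin⟩ := MinAt.vertex D hm
    rw [ext_k, pair_pr] at hne
    obtain ⟨s, ν, c, c0, hc0, hc, hνT, hli, hrel⟩ := hCRT (D.T v) w (D.cone v w hmin)
    have hwP := (hprim w).mp hw
    have hwT : w ∉ D.T v := fun h => hne (D.canon v w h)
    have hs2 : 2 ≤ s := by
      by_contra hlt
      have hs : s = 0 ∨ s = 1 := by omega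
      rcases hs with rfl | rfl
      · have h1 : (c0 : ℤ) • w = 0 := by rw [hrel]; simp
        have h2 : (c0 : ℤ) ≠ 0 := by exact_mod_cast hc0.ne'
        exact hwP.1 ((smul_eq_zero.mp h1).resolve_left h2)
      · have h1 : (c0 : ℤ) • w = (c 0 : ℤ) • ν 0 := by rw [hrel]; simp
        obtain ⟨m, hm⟩ := hw
        obtain ⟨m', hm'⟩ := (hprim (ν 0)).mpr (D.prim v (ν 0) (hνT 0))
        have hsm : ∀ (t : ℤ) (x y : Fin n → ℤ), pair (t • x) y = t * pair x y := by
          intro t x y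
          unfold pair
          rw [Finset.mul_sum]
          refine Finset.sum_congr rfl fun i _ => ?_
          simp [mul_assoc]
        have h2 : (c0 : ℤ) = (c 0 : ℤ) * pair (ν 0) m := by
          have := congrArg (fun x => pair x m) h1
          simp only [hsm, hm, mul_one] at this
          exact this
        have h3 : (c 0 : ℤ) = (c0 : ℤ) * pair w m' := by
          have := congrArg (fun x => pair x m') h1
          simp only [hsm, hm', mul_one] at this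
          exact this.symm
        have h4 : (c0 : ℤ) = c 0 := by
          refine Int.dvd_antisymm (by positivity) (by positivity) ⟨_, h3⟩ ⟨_, h2⟩
        have h5 : (c0 : ℤ) • w = (c0 : ℤ) • ν 0 := by rw [h1, h4]
        have h6 : (c0 : ℤ) ≠ 0 := by exact_mod_cast hc0.ne'
        have h7 : w = ν 0 := smul_right_injective _ h6 h5
        exact hwT (h7 ▸ hνT 0)
    refine ⟨s, ν, c, c0, hc0, hc, hli, hrel, fun j => ?_, ?_⟩
    · exact (minAt_iff D v (ν j)).mpr fun v' => (D.ample v v' (ν j) (hνT j)).1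
    · have h1 := hNRY D hhom v ν hνT hli hs2
      have h2 : ∑ i, (minOn (f i) (∑ j, ν j) - ∑ j, minOn (f i) (ν j)) =
          psi f (∑ j, ν j) - ∑ j, psi f (ν j) := by
        rw [Finset.sum_sub_distrib]
        unfold psi
        rw [Finset.sum_comm]
      rw [h2]
      exact h1

theorem FCV.hom (f : Fin r → Laurent n) {P : Finset (Fin n → ℤ)} (hP : IsMinOf P (psi f)) (d : ℕ)
    (w : Fin n → ℤ) : psi f (d • w) = d * psi f w := by
  have hsm : ∀ p : Fin n → ℤ, pr p (d • w) = d * pr p w := by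
    intro p
    unfold pr
    rw [Finset.mul_sum]
    refine Finset.sum_congr rfl fun i _ => ?_
    simp
    ring
  obtain ⟨⟨p, hp, hpw⟩, hle⟩ := hP w
  obtain ⟨⟨q, hq, hqw⟩, hle'⟩ := hP (d • w)
  refine le_antisymm ?_ ?_
  · refine (hle' p hp).trans ?_
    rw [hsm, hpw]
  · rw [hqw, hsm]
    exact mul_le_mul_of_nonneg_left (hle q hq) (by positivity)

theorem FCV.fanA (hCRT : S_CRT) (hSBI : S_SBI) (hNRY : S_NRY) (hPRM : S_PRM) (f : Fin r → Laurent n)
    (hhom : ∀ (d : ℕ) (w : Fin n → ℤ), psi f (d • w) = d * psi f w) (D : Fan n (psi f))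
    (hD : D.NefK) : Nonempty (FanA f) := by
  obtain ⟨F, hA, hk, hu⟩ := FCV.fan hCRT hSBI hNRY hPRM f hhom D
  refine ⟨{ toFan := F, nef := ?_ }⟩
  intro w a a' hm ha'
  rw [hA] at hm ha'
  obtain ⟨v, rfl, hmin⟩ := MinAt.vertex D hm
  obtain ⟨v', rfl⟩ := (mem_vs D).mp ha'
  rw [hu, ext_k, ext_k, pair_pr, pair_pr]
  exact mono D v v' w _ _ hmin fun ν hν => hD v v' ν hν

theorem FCV.fanB (hCRT : S_CRT) (hSBI : S_SBI) (hNRY : S_NRY) (hPRM : S_PRM) (f : Fin r → Laurent n)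
    (hhom : ∀ (d : ℕ) (w : Fin n → ℤ), psi f (d • w) = d * psi f w) (D : Fan n (psi f))
    (hpos : D.Pos) (hcirc : D.Circuit) : Nonempty (FanB f) := by
  classical
  obtain ⟨F, hA, hk, hu⟩ := FCV.fan hCRT hSBI hNRY hPRM f hhom D
  obtain ⟨g, ν, c, hg, hc, hrel, huniq, hconst, hsum⟩ := hcirc
  have hcn : ∀ j, ((c j).toNat : ℤ) = c j := fun j => Int.toNat_of_nonneg (hc j).le
  refine ⟨{ toFan := F, b := ext D D.B, nef := ?_, pos := ?_, g := g, g_pos := hg, ν := ν,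
            c := fun j => (c j).toNat, c_pos := ?_, rel := ?_, indep := ?_, const := ?_,
            circ := ?_ }⟩
  · intro w a a' hm ha'
    rw [hA] at hm ha'
    obtain ⟨v, rfl, hmin⟩ := MinAt.vertex D hm
    obtain ⟨v', rfl⟩ := (mem_vs D).mp ha'
    rw [ext_B, ext_B, pair_pr, pair_pr]
    exact mono D v v' w _ _ hmin fun ν hν => D.nef v v' ν hν
  · intro w a a' hm ha' hb
    rw [hA] at hm ha'
    obtain ⟨v₁, rfl, hmin⟩ := MinAt.vertex D hm
    obtain ⟨v₂, rfl⟩ := (mem_vs D).mp ha'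
    rw [ext_B, ext_B, pair_pr, pair_pr] at hb
    rw [hA, hu, ext_k, ext_k, pair_pr, pair_pr]
    obtain ⟨co, hco, hcw⟩ := D.cone v₁ w hmin
    have hB : ∀ ν ∈ D.T v₁, co ν ≠ 0 → pr (D.B v₂) ν = pr (D.B v₁) ν := by
      intro ν hν hcν
      have hz := comb_zero (T := D.T v₁) hco
        (g := fun ν => (pr (D.B v₂) ν : ℝ) - pr (D.B v₁) ν) (by
        intro ν hν
        have h1 := D.nef v₁ v₂ ν hν
        have h2 : (pr (D.B v₁) ν : ℝ) ≤ pr (D.B v₂) ν := by exact_mod_cast h1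
        exact mul_nonneg (hco ν) (by linarith)) (by
        have h1 := pr_cone hcw (D.B v₁)
        have h2 := pr_cone hcw (D.B v₂)
        have h3 : ∑ ν ∈ D.T v₁, co ν * ((pr (D.B v₂) ν : ℝ) - pr (D.B v₁) ν) =
            (pr (D.B v₂) w : ℝ) - pr (D.B v₁) w := by
          rw [h1, h2, ← Finset.sum_sub_distrib]
          refine Finset.sum_congr rfl fun ν _ => ?_
          ring
        show ∑ ν ∈ D.T v₁, co ν * ((pr (D.B v₂) ν : ℝ) - pr (D.B v₁) ν) ≤ 0
        rw [h3, hb, sub_self])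
      have h1 := hz ν hν hcν
      have : (pr (D.B v₂) ν : ℝ) = pr (D.B v₁) ν := by
        simpa [sub_eq_zero] using h1
      exact_mod_cast this
    have hterm : ∀ ν ∈ D.T v₁, 0 ≤ co ν * ((pr (D.k v₁) ν : ℝ) - pr (D.k v₂) ν) := by
      intro ν hν
      by_cases h0 : co ν = 0
      · rw [h0, zero_mul]
      · have h1 := (hpos v₂ v₁ ν hν (hB ν hν h0)).1
        have h2 : (pr (D.k v₂) ν : ℝ) ≤ pr (D.k v₁) ν := by exact_mod_cast h1
        exact mul_nonneg (hco ν) (by linarith)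
    have hsumk : ∑ ν ∈ D.T v₁, co ν * ((pr (D.k v₁) ν : ℝ) - pr (D.k v₂) ν) =
        (pr (D.k v₁) w : ℝ) - pr (D.k v₂) w := by
      rw [pr_cone hcw (D.k v₁), pr_cone hcw (D.k v₂), ← Finset.sum_sub_distrib]
      refine Finset.sum_congr rfl fun ν _ => ?_
      ring
    constructor
    · have h1 : (0 : ℝ) ≤ (pr (D.k v₁) w : ℝ) - pr (D.k v₂) w := by
        rw [← hsumk]
        exact Finset.sum_nonneg hterm
      have h2 : (pr (D.k v₂) w : ℝ) ≤ pr (D.k v₁) w := by linarith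
      exact_mod_cast h2
    · intro heq
      have hz := comb_zero (T := D.T v₁) hco
        (g := fun ν => (pr (D.k v₁) ν : ℝ) - pr (D.k v₂) ν) hterm (by
        show ∑ ν ∈ D.T v₁, co ν * ((pr (D.k v₁) ν : ℝ) - pr (D.k v₂) ν) ≤ 0
        rw [hsumk, heq, sub_self])
      have hT : ∀ ν ∈ D.T v₁, co ν ≠ 0 → ν ∈ D.T v₂ := by
        intro ν hν hcν
        have h1 := hz ν hν hcν
        have h2 : pr (D.k v₂) ν = pr (D.k v₁) ν := by
          have : (pr (D.k v₁) ν : ℝ) = pr (D.k v₂) ν := by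
            simpa [sub_eq_zero] using h1
          exact_mod_cast this.symm
        exact (hpos v₂ v₁ ν hν (hB ν hν hcν)).2 h2
      refine (minAt_iff D v₂ w).mpr fun v' => ?_
      have h1 : (pr (D.A v₂) w : ℝ) ≤ pr (D.A v') w := by
        rw [pr_cone hcw, pr_cone hcw]
        refine Finset.sum_le_sum fun ν hν => ?_
        by_cases h0 : co ν = 0
        · rw [h0, zero_mul, zero_mul]
        · refine mul_le_mul_of_nonneg_left ?_ (hco ν)
          exact_mod_cast (D.ample v₂ v' ν (hT ν hν h0)).1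
      exact_mod_cast h1
  · intro j
    show 0 < (c j).toNat
    have := hc j
    omega
  · show ∑ j, ((c j).toNat : ℤ) • ν j = 0
    rw [← hrel]
    exact Finset.sum_congr rfl fun j _ => by rw [hcn j]
  · intro j0
    rw [Fintype.linearIndependent_iff]
    intro d hd
    have h1 : ∑ j, (Fin.insertNth j0 (0 : ℤ) d : Fin (g + 1) → ℤ) j • ν j = 0 := by
      rw [Fin.sum_univ_succAbove _ j0]
      simp only [Fin.insertNth_apply_same, Fin.insertNth_apply_succAbove, zero_smul, zero_add]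
      exact hd
    intro i
    have h2 := huniq _ h1 (j0.succAbove i) j0
    simp only [Fin.insertNth_apply_same, Fin.insertNth_apply_succAbove, zero_mul] at h2
    exact (mul_eq_zero.mp h2).resolve_right (hc j0).ne'
  · intro j a ha a' ha'
    rw [hA] at ha ha'
    obtain ⟨v, rfl⟩ := (mem_vs D).mp ha
    obtain ⟨v', rfl⟩ := (mem_vs D).mp ha'
    rw [ext_B, ext_B, pair_pr, pair_pr]
    exact hconst j v v'
  · show 0 < ∑ j, ((c j).toNat : ℤ) * (psi f (ν j) + 1)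
    have : ∑ j, ((c j).toNat : ℤ) * (psi f (ν j) + 1) = ∑ j, c j * (psi f (ν j) + 1) :=
      Finset.sum_congr rfl fun j _ => by rw [hcn j]
    rw [this]
    exact hsum

theorem t_FAN (hFan : S_Fan) (hCRT : S_CRT) (hSBI : S_SBI) (hNRY : S_NRY) (hPRM : S_PRM)
    (hMNK : S_MNK) : MMCI.S_FAN := by
  intro n r f _ hf
  obtain ⟨P, hPne, hP⟩ := hMNK f hf
  obtain ⟨D, hD, _⟩ := hFan P (psi f) hPne hP
  rcases hD with hD | ⟨hD, hD'⟩
  · exact Or.inl (FCV.fanA hCRT hSBI hNRY hPRM f (FCV.hom f hP) D hD)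
  · exact Or.inr (FCV.fanB hCRT hSBI hNRY hPRM f (FCV.hom f hP) D hD hD')

theorem t_FAA (hFan : S_Fan) (hCRT : S_CRT) (hSBI : S_SBI) (hNRY : S_NRY) (hPRM : S_PRM)
    (hMNK : S_MNK) : MMCI.S_FAA := by
  intro n r f _ hf hne
  obtain ⟨P, hPne, hP⟩ := hMNK f hf
  obtain ⟨D, _, hD⟩ := hFan P (psi f) hPne hP
  refine FCV.fanA hCRT hSBI hNRY hPRM f (FCV.hom f hP) D (hD ?_)
  obtain ⟨m, hm⟩ := hne
  refine ⟨WithLp.toLp 2 m, fun w hw => ?_⟩
  have h1 := hm w hw.1
  have h2 : ip (WithLp.toLp 2 m : E n) (iv w) = ∑ j, (w j : ℝ) * m j := by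
    unfold ip iv
    rw [PiLp.inner_apply]
    refine Finset.sum_congr rfl fun i _ => ?_
    simp
  rw [h2]
  linarith

end

end MMCI.F
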