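import Pool.Agent.MMCI.StmtsF

/-!
# MMCI, block FAN: `GOR`, Gordan's alternative with a circuit
-/

set_option autoImplicit false

namespace MMCI.F

noncomputable section

namespace GOR

variable {n : ℕ}

/-- Farkas lemma over an ordered field (Bartl's proof). -/
theorem farkas_field {k W ι : Type} [Field k] [LinearOrder k] [IsStrictOrderedRing k]
    [AddCommGroup W] [Module k W] (s : Finset ι) : ∀ (a : ι → W →ₗ[k] k) (c : W →ₗ[k] k),
      (∀ x, (∀ i ∈ s, a i x ≤ 0) → c x ≤ 0) →
      ∃ l : ι → k, (∀ i, 0 ≤ l i) ∧ c = ∑ i ∈ s, l i • a i := by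
  classical
  induction s using Finset.induction_on with
  | empty =>
    intro a c h
    refine ⟨fun _ => 0, fun _ => le_rfl, ?_⟩
    ext x
    have h1 := h x (by simp)
    have h2 := h (-x) (by simp)
    rw [map_neg] at h2
    simp only [Finset.sum_empty, LinearMap.zero_apply]
    linarith
  | insert j s hj ih =>
    intro a c h
    by_cases h0 : ∀ x, (∀ i ∈ s, a i x ≤ 0) → c x ≤ 0
    · obtain ⟨l, hl, hc⟩ := ih a c h0
      refine ⟨fun i => if i = j then 0 else l i, fun i => ?_, ?_⟩
      · dsimp only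
        split_ifs
        · exact le_rfl
        · exact hl i
      · dsimp only
        rw [Finset.sum_insert hj, if_pos rfl, zero_smul, zero_add, hc]
        refine Finset.sum_congr rfl fun i hi => ?_
        rw [if_neg (by rintro rfl; exact hj hi)]
    · push Not at h0
      obtain ⟨y, hy, hcy⟩ := h0
      have hb : 0 < a j y := by
        by_contra hb
        push Not at hb
        refine absurd (h y fun i hi => ?_) (not_le.mpr hcy)
        rcases Finset.mem_insert.mp hi with rfl | hi
        · exact hb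
        · exact hy i hi
      obtain ⟨l, hl, hc⟩ := ih (fun i => a i - (a i y / a j y) • a j) (c - (c y / a j y) • a j) (by
        intro x hx
        have h1 := h (x - (a j x / a j y) • y) (by
          intro i hi
          rcases Finset.mem_insert.mp hi with rfl | hi
          · rw [map_sub, map_smul, smul_eq_mul, div_mul_cancel₀ _ hb.ne', sub_self]
          · have h2 := hx i hi
            simp only [LinearMap.sub_apply, LinearMap.smul_apply, smul_eq_mul] at h2
            rw [map_sub, map_smul, smul_eq_mul]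
            calc a i x - a j x / a j y * a i y = a i x - a i y / a j y * a j x := by ring
              _ ≤ 0 := h2)
        rw [map_sub, map_smul, smul_eq_mul] at h1
        simp only [LinearMap.sub_apply, LinearMap.smul_apply, smul_eq_mul]
        calc c x - c y / a j y * a j x = c x - a j x / a j y * c y := by ring
          _ ≤ 0 := h1)
      refine ⟨fun i => if i = j then c y / a j y - ∑ i ∈ s, l i * (a i y / a j y) else l i,
        fun i => ?_, ?_⟩
      · dsimp only
        split_ifs
        · have h1 : ∑ i ∈ s, l i * (a i y / a j y) ≤ 0 :=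
            Finset.sum_nonpos fun i hi => mul_nonpos_of_nonneg_of_nonpos (hl i)
              (div_nonpos_of_nonpos_of_nonneg (hy i hi) hb.le)
          have h2 : 0 < c y / a j y := div_pos hcy hb
          linarith
        · exact hl i
      · dsimp only
        rw [Finset.sum_insert hj, if_pos rfl]
        have h1 : ∑ i ∈ s, (if i = j then c y / a j y - ∑ i ∈ s, l i * (a i y / a j y) else l i) • a i
            = ∑ i ∈ s, l i • a i := by
          refine Finset.sum_congr rfl fun i hi => ?_
          rw [if_neg (by rintro rfl; exact hj hi)]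
        rw [h1]
        have h2 : c = ∑ i ∈ s, l i • (a i - (a i y / a j y) • a j) + (c y / a j y) • a j := by
          rw [← hc]
          abel
        conv_lhs => rw [h2]
        have h3 : ∀ t : k, (c y / a j y - t) • a j = (c y / a j y) • a j - t • a j :=
          fun t => by
            ext w
            simp only [LinearMap.smul_apply, LinearMap.sub_apply, smul_eq_mul]
            ring
        rw [h3]
        simp only [smul_sub, Finset.sum_sub_distrib, smul_smul, ← Finset.sum_smul]
        abel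

/-- a common denominator -/
theorem common_den (U : Finset (Fin n → ℤ)) (l : (Fin n → ℤ) → ℚ) (hl : ∀ u, 0 ≤ l u) :
    ∃ N : ℕ, 0 < N ∧ ∃ m : (Fin n → ℤ) → ℕ, ∀ u ∈ U, (N : ℚ) * l u = m u := by
  classical
  induction U using Finset.induction_on with
  | empty => exact ⟨1, one_pos, fun _ => 0, by simp⟩
  | insert a U ha ih =>
    obtain ⟨N, hN, m, hm⟩ := ih
    refine ⟨N * (l a).den, Nat.mul_pos hN (l a).pos,
      fun u => if u = a then N * (l a).num.toNat else m u * (l a).den, ?_⟩
    intro u hu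
    dsimp only
    rcases Finset.mem_insert.1 hu with h | h
    · have h1 : (0 : ℤ) ≤ (l a).num := Rat.num_nonneg.2 (hl a)
      have h2 : (((l a).num.toNat : ℕ) : ℚ) = ((l a).num : ℚ) := by
        have : (((l a).num.toNat : ℕ) : ℤ) = (l a).num := Int.toNat_of_nonneg h1
        exact_mod_cast this
      rw [if_pos h, h]
      push_cast
      rw [h2, mul_assoc]
      congr 1
      rw [mul_comm]
      exact Rat.mul_den_eq_num _
    · have h1 : u ≠ a := by
        intro h3
        rw [h3] at h
        exact ha h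
      rw [if_neg h1]
      push_cast
      rw [← hm u h]
      ring

/-- an integral vector as a rational linear form -/
def qf (u : Fin n → ℤ) : (Fin n → ℚ) →ₗ[ℚ] ℚ := ∑ i, (u i : ℚ) • LinearMap.proj i

theorem qf_apply (u : Fin n → ℤ) (x : Fin n → ℚ) : qf u x = ∑ i, (u i : ℚ) * x i := by
  simp [qf]

theorem qf_single (u : Fin n → ℤ) (i : Fin n) : qf u (Pi.single i 1) = u i := by
  rw [qf_apply]
  simp [Pi.single_apply]

/-- If there is no nonzero relation with nonnegative coefficients then there is a positive form. -/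
theorem direction (T : Finset (Fin n → ℤ))
    (hT : ∀ c : (Fin n → ℤ) → ℤ, (∀ ν, 0 ≤ c ν) → ∑ ν ∈ T, c ν • ν = 0 → ∀ ν ∈ T, c ν = 0) :
    ∃ d : E n, ∀ ν ∈ T, 0 < ip d (iv ν) := by
  classical
  have key : ∀ u₀ ∈ T, ∃ z : Fin n → ℚ, (∀ u ∈ T, 0 ≤ qf u z) ∧ 0 < qf u₀ z := by
    intro u₀ hu₀
    by_contra hcon
    push Not at hcon
    obtain ⟨l, hl, hc⟩ := farkas_field T (fun u => -qf u) (qf u₀) (by
      intro z hz
      refine hcon z fun u hu => ?_
      have := hz u hu
      rw [LinearMap.neg_apply] at this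
      linarith)
    obtain ⟨N, hN, m, hm⟩ := common_den T l hl
    have h1 : ∑ u ∈ T, ((m u : ℤ) + if u = u₀ then (N : ℤ) else 0) • u = 0 := by
      ext i
      have h2 := congrArg (fun f : (Fin n → ℚ) →ₗ[ℚ] ℚ => f (Pi.single i 1)) hc
      simp only [LinearMap.sum_apply, LinearMap.smul_apply, LinearMap.neg_apply, qf_single,
        smul_eq_mul] at h2
      have h3 : (((∑ u ∈ T, ((m u : ℤ) + if u = u₀ then (N : ℤ) else 0) • u) i : ℤ) : ℚ) = 0 := by
        rw [Finset.sum_apply]
        simp only [Pi.smul_apply, smul_eq_mul, add_mul, ite_mul, zero_mul, Finset.sum_add_distrib]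
        rw [Finset.sum_ite_eq' T u₀, if_pos hu₀]
        push_cast
        rw [h2, Finset.mul_sum, ← Finset.sum_add_distrib]
        refine Finset.sum_eq_zero fun u hu => ?_
        rw [← hm u hu]
        ring
      have h4 : (∑ u ∈ T, ((m u : ℤ) + if u = u₀ then (N : ℤ) else 0) • u) i = 0 := by
        exact_mod_cast h3
      exact h4
    have h2 := hT (fun u => (m u : ℤ) + if u = u₀ then (N : ℤ) else 0) (fun u => by
      split_ifs <;> positivity) h1 u₀ hu₀
    simp only [if_true] at h2
    have h3 : (0 : ℤ) < N := by exact_mod_cast hN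
    have h4 : (0 : ℤ) ≤ m u₀ := by positivity
    omega
  choose! z hz1 hz2 using key
  refine ⟨WithLp.toLp 2 fun i => ((∑ u ∈ T, z u) i : ℝ), fun u hu => ?_⟩
  have h1 : (0 : ℚ) < qf u (∑ u ∈ T, z u) := by
    rw [map_sum]
    exact Finset.sum_pos' (fun u' hu' => hz1 u' hu' u hu) ⟨u, hu, hz2 u hu⟩
  have h2 : ip (WithLp.toLp 2 fun i => ((∑ u ∈ T, z u) i : ℝ)) (iv u) =
      ((qf u (∑ u ∈ T, z u) : ℚ) : ℝ) := by
    rw [qf_apply]
    simp only [ip, iv, PiLp.inner_apply, RCLike.inner_apply, conj_trivial]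
    push_cast
    rfl
  rw [h2]
  exact_mod_cast h1

/-- A nonzero nonnegative relation with minimal support is unique up to a factor. -/
theorem unique_rel (T : Finset (Fin n → ℤ)) (c : (Fin n → ℤ) → ℤ) (hc : ∀ ν, 0 ≤ c ν)
    (hrel : ∑ ν ∈ T, c ν • ν = 0) (hne : (T.filter fun ν => c ν ≠ 0).Nonempty)
    (hmin : ∀ e : (Fin n → ℤ) → ℤ, (∀ ν, 0 ≤ e ν) → ∑ ν ∈ T, e ν • ν = 0 →
      (T.filter fun ν => e ν ≠ 0).card < (T.filter fun ν => c ν ≠ 0).card → ∀ ν ∈ T, e ν = 0)
    (d : (Fin n → ℤ) → ℤ) (hd : ∀ ν, ν ∉ T.filter (fun ν => c ν ≠ 0) → d ν = 0)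
    (hdr : ∑ ν ∈ T, d ν • ν = 0) :
    ∀ a ∈ T.filter (fun ν => c ν ≠ 0), ∀ b ∈ T.filter (fun ν => c ν ≠ 0),
      d a * c b = d b * c a := by
  classical
  obtain ⟨j, hj, hmax⟩ := Finset.exists_max_image _ (fun ν => (d ν : ℚ) / c ν) hne
  have hpos : ∀ ν ∈ T.filter (fun ν => c ν ≠ 0), 0 < c ν := fun ν hν =>
    lt_of_le_of_ne (hc ν) (Ne.symm (Finset.mem_filter.1 hν).2)
  have hle : ∀ ν ∈ T.filter (fun ν => c ν ≠ 0), c j * d ν ≤ d j * c ν := by
    intro ν hν
    have h1 := hmax ν hν
    have h2 : (0 : ℚ) < c ν := by exact_mod_cast hpos ν hν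
    have h3 : (0 : ℚ) < c j := by exact_mod_cast hpos j hj
    rw [div_le_div_iff₀ h2 h3] at h1
    have h4 : d ν * c j ≤ d j * c ν := by exact_mod_cast h1
    linarith
  have hjT := (Finset.mem_filter.1 hj).1
  have key : ∀ ν ∈ T, d j * c ν - c j * d ν = 0 := by
    -- off the support of `c` the coefficient may be negative only if `c ν ≠ 0`
    have h0 : ∀ ν, ν ∉ T.filter (fun ν => c ν ≠ 0) → ν ∈ T → c ν = 0 := by
      intro ν h1 h2
      by_contra h3
      exact h1 (Finset.mem_filter.2 ⟨h2, h3⟩)
    set e : (Fin n → ℤ) → ℤ := fun ν => if ν ∈ T.filter (fun ν => c ν ≠ 0) then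
      d j * c ν - c j * d ν else 0 with he
    have hee : ∀ ν ∈ T, e ν = d j * c ν - c j * d ν := by
      intro ν hν
      by_cases h1 : ν ∈ T.filter (fun ν => c ν ≠ 0)
      · rw [he]
        dsimp only
        rw [if_pos h1]
      · rw [he]
        dsimp only
        rw [if_neg h1, h0 ν h1 hν, hd ν h1]
        ring
    have h1 := hmin e (fun ν => by
      rw [he]
      dsimp only
      split_ifs with h
      · linarith [hle ν h]
      · exact le_rfl) (by
      rw [Finset.sum_congr rfl fun ν hν => by rw [hee ν hν]]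
      simp only [sub_smul, mul_smul, Finset.sum_sub_distrib, ← Finset.smul_sum]
      rw [hrel, hdr]
      simp) (by
      apply Finset.card_lt_card
      rw [Finset.ssubset_iff_of_subset]
      · refine ⟨j, hj, ?_⟩
        intro h
        have h2 := (Finset.mem_filter.1 h).2
        rw [hee j hjT] at h2
        apply h2
        ring
      · intro ν hν
        have h2 := (Finset.mem_filter.1 hν)
        by_contra h3
        apply h2.2
        rw [he]
        dsimp only
        rw [if_neg h3])
    intro ν hν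
    rw [← hee ν hν]
    exact h1 ν hν
  intro a ha b hb
  have h1 := key a (Finset.mem_filter.1 ha).1
  have h2 := key b (Finset.mem_filter.1 hb).1
  have h3 := hpos j hj
  have h4 : c j * (d a * c b - d b * c a) = 0 := by
    have : c j * (d a * c b - d b * c a) =
      (d j * c b - c j * d b) * c a - (d j * c a - c j * d a) * c b := by ring
    rw [this, h1, h2]
    ring
  rcases mul_eq_zero.1 h4 with h | h
  · exact absurd h h3.ne'
  · linarith

end GOR

open GOR in
theorem t_GOR : S_GOR := by
  classical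
  intro n T h0
  by_cases hT : ∀ c : (Fin n → ℤ) → ℤ, (∀ ν, 0 ≤ c ν) → ∑ ν ∈ T, c ν • ν = 0 →
      ∀ ν ∈ T, c ν = 0
  · exact Or.inl (direction T hT)
  · right
    push Not at hT
    let P : ℕ → Prop := fun k => ∃ c : (Fin n → ℤ) → ℤ, (∀ ν, 0 ≤ c ν) ∧
      ∑ ν ∈ T, c ν • ν = 0 ∧ (∃ ν ∈ T, c ν ≠ 0) ∧ (T.filter fun ν => c ν ≠ 0).card = k
    have hP : ∃ k, P k := by
      obtain ⟨c, h1, h2, ν, h3, h4⟩ := hT
      exact ⟨_, c, h1, h2, ⟨ν, h3, h4⟩, rfl⟩
    obtain ⟨c, hc, hrel, ⟨ν₀, hν₀, hν₀'⟩, hk⟩ := Nat.find_spec hP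
    have hmin : ∀ e : (Fin n → ℤ) → ℤ, (∀ ν, 0 ≤ e ν) → ∑ ν ∈ T, e ν • ν = 0 →
        (T.filter fun ν => e ν ≠ 0).card < (T.filter fun ν => c ν ≠ 0).card →
        ∀ ν ∈ T, e ν = 0 := by
      intro e he1 he2 he3
      by_contra hcon
      push Not at hcon
      rw [hk] at he3
      exact Nat.find_min hP he3 ⟨e, he1, he2, hcon, rfl⟩
    set S := T.filter fun ν => c ν ≠ 0 with hS
    have hne : S.Nonempty := ⟨ν₀, Finset.mem_filter.2 ⟨hν₀, hν₀'⟩⟩
    have hST : S ⊆ T := Finset.filter_subset _ _
    have hout : ∀ ν ∈ T, ν ∉ S → c ν = 0 := by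
      intro ν h1 h2
      by_contra h3
      exact h2 (Finset.mem_filter.2 ⟨h1, h3⟩)
    have hcard : 2 ≤ S.card := by
      by_contra hcon
      have h1 : S.card = 1 := by
        have := hne.card_pos
        omega
      obtain ⟨a, ha⟩ := Finset.card_eq_one.1 h1
      have haS : a ∈ S := by rw [ha]; exact Finset.mem_singleton_self a
      have h2 : ∑ ν ∈ S, c ν • ν = 0 := by
        rw [← hrel]
        exact Finset.sum_subset hST fun ν h1 h2 => by rw [hout ν h1 h2, zero_smul]
      rw [ha, Finset.sum_singleton] at h2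
      rcases smul_eq_zero.1 h2 with h | h
      · exact (Finset.mem_filter.1 haS).2 h
      · exact h0 a (hST haS) h
    obtain ⟨g, hg⟩ : ∃ g, S.card = g + 1 := ⟨S.card - 1, by omega⟩
    let e : S ≃ Fin (g + 1) := S.equivFinOfCardEq hg
    have hsum : ∀ f : (Fin n → ℤ) → ℤ, (∀ ν, ν ∉ S → f ν = 0) →
        ∑ j, f (e.symm j).1 • (e.symm j).1 = ∑ ν ∈ T, f ν • ν := by
      intro f hf
      rw [← Finset.sum_subset hST fun ν _ h2 => by rw [hf ν h2, zero_smul]]
      rw [← Finset.sum_coe_sort S fun ν => f ν • ν]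
      exact Equiv.sum_comp e.symm fun ν : S => f ν.1 • ν.1
    refine ⟨g, fun j => (e.symm j).1, fun j => c (e.symm j).1, by omega,
      fun j => hST (e.symm j).2, fun j => ?_, ?_, ?_⟩
    · exact lt_of_le_of_ne (hc _) (Ne.symm (Finset.mem_filter.1 (e.symm j).2).2)
    · have h1 := hsum (fun ν => if ν ∈ S then c ν else 0) fun ν h => by
        rw [if_neg h]
      have h2 : ∑ ν ∈ T, (if ν ∈ S then c ν else 0) • ν = ∑ ν ∈ T, c ν • ν := by
        refine Finset.sum_congr rfl fun ν hν => ?_
        split_ifs with h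
        · rfl
        · rw [hout ν hν h]
      rw [h2, hrel] at h1
      rw [← h1]
      refine Finset.sum_congr rfl fun j _ => ?_
      rw [if_pos (e.symm j).2]
    · intro d hd i j
      let d' : (Fin n → ℤ) → ℤ := fun ν => if h : ν ∈ S then d (e ⟨ν, h⟩) else 0
      have hd'0 : ∀ ν, ν ∉ S → d' ν = 0 := fun ν h => dif_neg h
      have hd'1 : ∀ j, d' (e.symm j).1 = d j := by
        intro j
        have h1 : d' (e.symm j).1 = d (e ⟨(e.symm j).1, (e.symm j).2⟩) := dif_pos (e.symm j).2
        rw [h1]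
        congr 1
        exact e.apply_symm_apply j
      have h1 := hsum d' hd'0
      simp only [hd'1] at h1
      rw [hd] at h1
      have h2 := unique_rel T c hc hrel hne hmin d' hd'0 h1.symm _ (e.symm i).2 _ (e.symm j).2
      rw [hd'1, hd'1] at h2
      exact h2

end

end MMCI.F
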