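import Mathlib

/-!
# MP_fa3f7f_ag, complete intersections in tori: fans (convex geometry only)

Exponents `m` and weights `w` are integral vectors, `pr m w` is their pairing.  `μ` is the support
function of the sum of the Newton polytopes.  `Fan n μ` is the combinatorial description of a
projective toric variety on which the adjoint divisor is terminal; the existence of a fan with
`NefK` (minimal model) or with `Pos` and `Circuit` (fibration or reduction of the dimension) is the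
theorem `S_Fan` of `StmtsF`.
-/

set_option autoImplicit false

namespace MMCI.F

/-- The pairing of an exponent and a weight. -/
def pr {n : ℕ} (m w : Fin n → ℤ) : ℤ := ∑ i, m i * w i

/-- `μ w` is the minimum of `⟨p, w⟩`, `p ∈ P`. -/
def IsMinOf {n : ℕ} (P : Finset (Fin n → ℤ)) (μ : (Fin n → ℤ) → ℤ) : Prop :=
  ∀ w, (∃ p ∈ P, μ w = pr p w) ∧ ∀ p ∈ P, μ w ≤ pr p w

/-- `w` is a primitive vector. -/
def Prim {n : ℕ} (w : Fin n → ℤ) : Prop :=
  w ≠ 0 ∧ ∀ (d : ℤ) (w' : Fin n → ℤ), w = d • w' → IsUnit d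

/-- `w` belongs to the convex cone generated by `T`. -/
def InCone {n : ℕ} (T : Finset (Fin n → ℤ)) (w : Fin n → ℤ) : Prop :=
  ∃ c : (Fin n → ℤ) → ℝ, (∀ ν, 0 ≤ c ν) ∧ ∀ i, (w i : ℝ) = ∑ ν ∈ T, c ν * (ν i : ℝ)

/-- Fan data: `V` the charts (vertices of a polytope `Q`), `T v` the primitive facet normals at the
vertex, `A v` the vertices of a multiple of `Q` (ample), `B v` the vertices of a nef divisor,
`k v / r` the exponent of the canonical divisor in the chart. -/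
structure Fan (n : ℕ) (μ : (Fin n → ℤ) → ℤ) where
  V : Type
  fin : Fintype V
  ne : Nonempty V
  T : V → Finset (Fin n → ℤ)
  A : V → Fin n → ℤ
  B : V → Fin n → ℤ
  k : V → Fin n → ℤ
  r : ℕ
  r_pos : 0 < r
  prim : ∀ v, ∀ ν ∈ T v, Prim ν
  /-- the normals span -/
  span : ∀ v (m : Fin n → ℤ), (∀ ν ∈ T v, pr m ν = 0) → m = 0
  /-- the differences of the vertices span -/
  full : ∀ w, (∀ v v', pr (A v) w = pr (A v') w) → w = 0
  /-- the normal cone of the vertex `v` is generated by `T v` -/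
  cone : ∀ v w, (∀ v', pr (A v) w ≤ pr (A v') w) → InCone (T v) w
  ample : ∀ v v', ∀ ν ∈ T v, pr (A v) ν ≤ pr (A v') ν ∧ (pr (A v') ν = pr (A v) ν → ν ∈ T v')
  nef : ∀ v v', ∀ ν ∈ T v, pr (B v) ν ≤ pr (B v') ν
  /-- the facet with the normal `ν` has dimension `n - 1` -/
  facet : ∀ v, ∀ ν ∈ T v, ∀ a, pr a ν = 0 → ∃ N : ℕ, 0 < N ∧
    N • a ∈ AddSubgroup.closure {b | ∃ v', pr (A v') ν = pr (A v) ν ∧ b = A v' - A v}
  canon : ∀ v, ∀ ν ∈ T v, pr (k v) ν = r * (μ ν + 1)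
  disc : ∀ v w, Prim w → InCone (T v) w → r * (μ w + 1) ≤ pr (k v) w ∧
    (pr (k v) w = r * (μ w + 1) → w ∈ T v)

attribute [instance] Fan.fin Fan.ne

variable {n : ℕ} {μ : (Fin n → ℤ) → ℤ}

/-- The canonical divisor is nef: case (a). -/
def Fan.NefK (D : Fan n μ) : Prop := ∀ v v', ∀ ν ∈ D.T v, pr (D.k v) ν ≤ pr (D.k v') ν

/-- The anticanonical divisor is positive on the curves on which the divisor `B` is trivial. -/
def Fan.Pos (D : Fan n μ) : Prop := ∀ v v', ∀ ν ∈ D.T v', pr (D.B v) ν = pr (D.B v') ν →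
  pr (D.k v) ν ≤ pr (D.k v') ν ∧ (pr (D.k v) ν = pr (D.k v') ν → ν ∈ D.T v)

/-- There are `ν₀, …, ν_g` on which `B` is trivial with exactly one linear relation
`∑ c_j ν_j = 0`; its coefficients are positive and `∑ c_j (μ ν_j + 1) > 0`. -/
def Fan.Circuit (D : Fan n μ) : Prop :=
  ∃ (g : ℕ) (ν : Fin (g + 1) → Fin n → ℤ) (c : Fin (g + 1) → ℤ), 0 < g ∧ (∀ j, 0 < c j) ∧
    ∑ j, c j • ν j = 0 ∧ (∀ d : Fin (g + 1) → ℤ, ∑ j, d j • ν j = 0 → ∀ i j, d i * c j = d j * c i) ∧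
    (∀ j v v', pr (D.B v) (ν j) = pr (D.B v') (ν j)) ∧ 0 < ∑ j, c j * (μ (ν j) + 1)

noncomputable section

/-! ### the real space -/

/-- The real space. -/
abbrev E (n : ℕ) : Type := EuclideanSpace ℝ (Fin n)

/-- An integral vector as a real vector. -/
def iv {n : ℕ} (w : Fin n → ℤ) : E n := WithLp.toLp 2 fun i => (w i : ℝ)

/-- The real pairing. -/
def ip {n : ℕ} (x y : E n) : ℝ := inner ℝ x y

/-- `x` is in the polytope of all points with `⟨x, w⟩ ≥ μ w + 1 - l |w|` for all primitive `w`. -/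
def Feas {n : ℕ} (μ : (Fin n → ℤ) → ℤ) (l : ℝ) (x : E n) : Prop :=
  ∀ w, Prim w → (μ w : ℝ) + 1 - l * ‖iv w‖ ≤ ip x (iv w)

/-- The support function on real vectors. -/
def muR {n : ℕ} (P : Finset (Fin n → ℤ)) (w : E n) : ℝ := sInf ((fun p => ip (iv p) w) '' P)

/-- `S` is the set of the primitive vectors which are tight somewhere. -/
def IsTight {n : ℕ} (μ : (Fin n → ℤ) → ℤ) (l : ℝ) (S : Finset (Fin n → ℤ)) : Prop :=
  ∀ ν, ν ∈ S ↔ Prim ν ∧ ∃ x, Feas μ l x ∧ ip x (iv ν) = μ ν + 1 - l * ‖iv ν‖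

/-- The polytope `⟨x, ν⟩ ≥ b ν`, `ν ∈ S`. -/
def Poly {n : ℕ} (S : Finset (Fin n → ℤ)) (b : (Fin n → ℤ) → ℝ) : Set (E n) :=
  {x | ∀ ν ∈ S, b ν ≤ ip x (iv ν)}

/-- The tight normals at `x`. -/
def tight {n : ℕ} (S : Finset (Fin n → ℤ)) (b : (Fin n → ℤ) → ℝ) (x : E n) :
    Finset (Fin n → ℤ) := by
  classical
  exact S.filter fun ν => ip x (iv ν) = b ν

/-- `x` is a vertex of the polytope: it belongs to it and the tight normals span. -/
def IsVert {n : ℕ} (S : Finset (Fin n → ℤ)) (b : (Fin n → ℤ) → ℝ) (x : E n) : Prop :=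
  x ∈ Poly S b ∧ ∀ y : E n, (∀ ν ∈ tight S b x, ip y (iv ν) = 0) → y = 0

end

end MMCI.F
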