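import Pool.Agent.MMCI.StE

/-!
# Assembly
-/

namespace MMCI

open MldGeo

/-- The theorem, from the modules. -/
theorem assemble
    (mon : S_MON) (bas : M_BAS) (eli : M_ELI) (sol : S_SOL) (plu : S_PLU) (omg : M_OMG)
    (ind : S_IND) (frd : S_FRD) (eq1a : M_EQ1a) (eq1b : M_EQ1b) (dk : S_DK) (lob : S_LOB)
    (unt : M_UNT) (eq0a : M_EQ0a) (eq0c : M_EQ0c) (eq0b : M_EQ0b) (bnd : M_BND) (log : M_LOG)
    (nul : S_NUL) (min : M_MIN) (sys : M_SYS) (res : M_RES) (sca : S_SCA) (key : M_KEY)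
    (ter : M_TER) (sem : M_SEM) (main : M_MAIN) (fan : S_FAN) (faa : S_FAA) (mod : S_MOD)
    (nef : S_NEF) (fib : S_FIB) (red : S_RED) {e n r : ℕ} {K : Type} [Field K] [Algebra ℂ K]
    (f : Fin r → Laurent n) (x : Fin n → K) (h : IsNCI e f x) :
    ∃ Y : ProjModel K, Y.Terminal e ∧
      ((Y.Semiample e ∧ Y.Nef e) ∨ (Y.MoriFibre e ∧ FineInterior f = ∅)) := by
  have bas' : S_BAS := bas mon
  have eli' : S_ELI := eli mon
  have omg' : S_OMG := omg mon bas' plu
  have eq1a' : S_EQ1a := eq1a mon bas' ind frd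
  have eq1b' : S_EQ1b := eq1b mon bas' eli' frd
  have unt' : S_UNT := unt mon bas' sol dk lob
  have eq0a' : S_EQ0a := eq0a mon bas' ind frd
  have eq0c' : S_EQ0c := eq0c mon bas' eli' ind frd
  have eq0b' : S_EQ0b := eq0b mon bas' sol dk lob eq0c'
  have bnd' : S_BND := bnd mon bas' frd
  have log' : S_LOG := log omg' eq1a' eq1b' unt' eq0a' eq0b' bnd'
  have min' : S_MIN := min mon nul
  have sys' : S_SYS := sys nul min'
  have key' : S_KEY := key mon (res mon)
  have ter' : S_TER := ter mon sca key'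
  have sem' : S_SEM := sem mon sca key'
  have hS := sys' f x h
  by_cases hF : (FineInterior f).Nonempty
  · have hn : 0 < n := by
      have h1 := hS.dim_eq
      have h2 := hS.pos
      omega
    obtain ⟨ω, hω⟩ := log' f x hS
    obtain ⟨F⟩ := faa f hn hS.f_ne hF
    obtain ⟨Y, hY⟩ := mod x hS.ne hS.gen hS.dim hS.pos F.A F.nonempty F.full
    have h1 := ter' f x hS.toBase F.toFan ω Y hω hY
    have h2 := sem' f x hS.toBase F ω Y hω hY
    exact ⟨Y, h1, Or.inl ⟨h2, nef Y hS.dim hS.pos hY.normal h2⟩⟩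
  · obtain ⟨Y, h1, h2⟩ := main fan log' mod key' ter' sem' nef red fib f x hS
    exact ⟨Y, h1, h2.imp_right fun h3 => ⟨h3, Set.not_nonempty_iff_eq_empty.1 hF⟩⟩

end MMCI
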