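import Pool.Agent.MldGeo.FRA
import Pool.Agent.MldGeo.TBAS
import Pool.Agent.MldGeo.LOGD
import Pool.Agent.MldGeo.COE
import Pool.Agent.MldGeo.FRM
import Pool.Agent.MldGeo.FSM
import Pool.Agent.MldGeo.FDL
import Pool.Agent.MldGeo.REG
import Pool.Agent.MldGeo.TXT
import Pool.Agent.MldGeo.DIV
import Pool.Agent.MldGeo.HT1
import Pool.Agent.MldGeo.LOC
import Pool.Agent.MldGeo.OLC
import Pool.Agent.MldGeo.DEG
import Pool.Agent.MldGeo.PRF
import Pool.Agent.MldGeo.RS1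
import Pool.Agent.MldGeo.MWC
import Pool.Agent.MldGeo.MWP

/-!
# Tools from `MldGeo`, without hypotheses
-/

namespace MMCI

open MldGeo

theorem cFRA : Stmt_FRA := t_FRA
theorem cTBAS : Stmt_TBAS := t_TBAS
theorem cLOGD : Stmt_LOGD := t_LOGD t_FRA
theorem cCOE : Stmt_COE := t_COE t_FRA (t_LOGD t_FRA) t_TBAS
theorem cFRM : Stmt_FRM := t_FRM t_FRA t_TBAS cCOE
theorem cFSM : Stmt_FSM := t_FSM t_FRA cFRM
theorem cFDL : Stmt_FDL := t_FDL t_FRA cFRM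
theorem cREG : Stmt_REG := t_REG t_FRA (t_LOGD t_FRA) t_TBAS cFRM
theorem cTXT : Stmt_TXT := t_TXT t_FRA (t_LOGD t_FRA) t_TBAS cFRM
theorem cDIV : Stmt_DIV := t_DIV
theorem cHT1 : Stmt_HT1 := t_HT1
theorem cLOC : Stmt_LOC := t_LOC t_DIV
theorem cOLC : Stmt_OLC := t_OLC
theorem cUNI : Stmt_UNI := t_UNI
theorem cRS1 : Stmt_RS1 := t_RS1
theorem cDEG : Stmt_DEG := t_DEG
theorem cPRF : Stmt_PRF := t_PRF t_DEG
theorem cMWC : Stmt_MWC := t_MWC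
theorem cMWP : Stmt_MWP := t_MWP t_MWC

end MMCI
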