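import Pool.Agent.MMCI.StB
import Pool.Agent.MMCI.Tools

/-!
# BAS: transcendence bases and derivations from a nonzero minor
-/

namespace MMCI

open MldGeo

noncomputable section

namespace BAS

variable {K : Type} [Field K] [Algebra ℂ K]

theorem gen_D {n : ℕ} (x : Fin n → K) (gen : IntermediateField.adjoin ℂ (Set.range x) = ⊤)
    (N : Submodule K (Ω[K⁄ℂ])) (h : ∀ j, KaehlerDifferential.D ℂ K (x j) ∈ N) : N = ⊤ := by
  have key : ∀ a : K, KaehlerDifferential.D ℂ K a ∈ N := by
    intro a
    have ha : a ∈ IntermediateField.adjoin ℂ (Set.range x) := by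
      rw [gen]
      trivial
    induction ha using IntermediateField.adjoin_induction with
    | mem a ha =>
      obtain ⟨j, rfl⟩ := ha
      exact h j
    | algebraMap c =>
      rw [Derivation.map_algebraMap]
      exact N.zero_mem
    | add a b _ _ ha hb =>
      rw [map_add]
      exact N.add_mem ha hb
    | inv a _ ha =>
      rw [Derivation.leibniz_inv]
      exact N.smul_mem _ ha
    | mul a b _ _ ha hb =>
      rw [Derivation.leibniz]
      exact N.add_mem (N.smul_mem _ hb) (N.smul_mem _ ha)
  rw [eq_top_iff, ← KaehlerDifferential.span_range_derivation, Submodule.span_le]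
  rintro _ ⟨a, rfl⟩
  exact key a

theorem kill {F M : Type*} [Field F] [AddCommGroup M] [Module F M] {n r e : ℕ}
    (G : Fin r → Fin n → F)
    (σ : Fin r ⊕ Fin e ≃ Fin n) (y : Fin n → M) (h : ∀ i, ∑ j, G i j • y j = 0)
    (h0 : ∀ l, y (σ (Sum.inr l)) = 0)
    (hd : (Matrix.of fun i j : Fin r => G i (σ (Sum.inl j))).det ≠ 0) : ∀ j, y j = 0 := by
  classical
  have h1 : ∀ i, ∑ j, G i (σ (Sum.inl j)) • y (σ (Sum.inl j)) = 0 := by
    intro i
    have h2 := h i
    rw [← σ.sum_comp, Fintype.sum_sum_type] at h2
    simpa [h0] using h2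
  set A : Matrix (Fin r) (Fin r) F := Matrix.of fun i j : Fin r => G i (σ (Sum.inl j)) with hA
  have hAA : A⁻¹ * A = 1 := Matrix.nonsing_inv_mul A (isUnit_iff_ne_zero.2 hd)
  have h3 : ∀ k, y (σ (Sum.inl k)) = 0 := by
    intro k
    have h4 : y (σ (Sum.inl k)) = ∑ j, (A⁻¹ * A) k j • y (σ (Sum.inl j)) := by
      rw [hAA]
      simp [Matrix.one_apply, ite_smul]
    rw [h4]
    simp only [Matrix.mul_apply, Finset.sum_smul]
    rw [Finset.sum_comm]
    refine Finset.sum_eq_zero fun i _ => ?_
    have h5 : ∑ j, (A⁻¹ k i * A i j) • y (σ (Sum.inl j)) =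
        A⁻¹ k i • ∑ j, G i (σ (Sum.inl j)) • y (σ (Sum.inl j)) := by
      rw [Finset.smul_sum]
      refine Finset.sum_congr rfl fun j _ => ?_
      rw [mul_smul]
      rfl
    rw [h5, h1, smul_zero]
  intro j
  obtain ⟨s, rfl⟩ := σ.surjective j
  rcases s with k | l
  · exact h3 k
  · exact h0 l

theorem D_aeval {e : ℕ} (z : Fin e → K) (p : MvPolynomial (Fin e) ℂ) :
    KaehlerDifferential.D ℂ K (MvPolynomial.aeval z p) =
      ∑ l, MvPolynomial.aeval z (MvPolynomial.pderiv l p) • KaehlerDifferential.D ℂ K (z l) := by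
  classical
  induction p using MvPolynomial.induction_on with
  | C c => simp
  | add p q hp hq =>
    simp only [map_add, add_smul, Finset.sum_add_distrib]
    rw [hp, hq]
  | mul_X p i hp =>
    rw [map_mul, Derivation.leibniz, hp, MvPolynomial.aeval_X]
    simp only [Derivation.leibniz, map_add, smul_eq_mul, map_mul, MvPolynomial.aeval_X, add_smul,
      Finset.sum_add_distrib]
    congr 1
    · rw [Finset.sum_eq_single i]
      · rw [MvPolynomial.pderiv_X_self, map_one, mul_one]
      · intro l _ hl
        rw [MvPolynomial.pderiv_X_of_ne (Ne.symm hl), map_zero, mul_zero, zero_smul]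
      · intro h
        exact absurd (Finset.mem_univ i) h
    · rw [Finset.smul_sum]
      refine Finset.sum_congr rfl fun l _ => ?_
      rw [mul_smul]

theorem algInd {e : ℕ} (z : Fin e → K)
    (h : LinearIndependent K fun l => KaehlerDifferential.D ℂ K (z l)) :
    AlgebraicIndependent ℂ z := by
  classical
  have key : ∀ (N : ℕ) (p : MvPolynomial (Fin e) ℂ),
      (∀ m, N ≤ Finsupp.degree m → MvPolynomial.coeff m p = 0) → MvPolynomial.aeval z p = 0 →
      p = 0 := by
    intro N
    induction N with
    | zero =>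
      intro p hp _
      ext m
      rw [hp m (Nat.zero_le _), MvPolynomial.coeff_zero]
    | succ N ih =>
      intro p hp h0
      have h1 := D_aeval z p
      rw [h0, map_zero] at h1
      have h2 := Fintype.linearIndependent_iff.1 h _ h1.symm
      have h3 : ∀ l, MvPolynomial.pderiv l p = 0 := by
        intro l
        refine ih _ ?_ (h2 l)
        intro m hm
        rw [MvPolynomial.coeff_pderiv, hp, zero_mul]
        rw [map_add, Finsupp.degree_single]
        omega
      have h4 : ∀ m, m ≠ 0 → MvPolynomial.coeff m p = 0 := by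
        intro m hm
        obtain ⟨l, hl⟩ : ∃ l, m l ≠ 0 := by
          by_contra hc
          push Not at hc
          exact hm (Finsupp.ext hc)
        have h5 := MvPolynomial.coeff_pderiv (i := l) p (m - Finsupp.single l 1)
        have h6 : m - Finsupp.single l 1 + Finsupp.single l 1 = m := by
          refine tsub_add_cancel_of_le ?_
          rw [Finsupp.single_le_iff]
          omega
        rw [h3, MvPolynomial.coeff_zero, h6] at h5
        rcases mul_eq_zero.1 h5.symm with h7 | h7
        · exact h7
        · exfalso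
          norm_cast at h7
      have h8 : p = MvPolynomial.C (MvPolynomial.coeff 0 p) := by
        ext m
        rw [MvPolynomial.coeff_C]
        split_ifs with hm
        · rw [hm]
        · exact h4 m (Ne.symm hm)
      rw [h8, MvPolynomial.aeval_C, map_eq_zero] at h0
      rw [h8, h0, map_zero]
  rw [algebraicIndependent_iff]
  intro p hp
  refine key (p.totalDegree + 1) p ?_ hp
  intro m hm
  refine MvPolynomial.coeff_eq_zero_of_totalDegree_lt ?_
  have : Finsupp.degree m = ∑ i ∈ m.support, m i := rfl
  omega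

theorem finrank_eq {e : ℕ} (htr : Algebra.trdeg ℂ K = (e : Cardinal)) :
    Module.Finite K (Ω[K⁄ℂ]) ∧ Module.finrank K (Ω[K⁄ℂ]) = e := by
  obtain ⟨s, hs⟩ := exists_isTranscendenceBasis ℂ K
  have hc : Cardinal.mk s = e := hs.cardinalMk_eq_trdeg.trans htr
  have hf : Finite s := by
    rw [← Cardinal.lt_aleph0_iff_finite, hc]
    exact Cardinal.natCast_lt_aleph0
  have : Fintype s := Fintype.ofFinite s
  have hcard : Fintype.card s = e := by
    rw [Cardinal.mk_fintype] at hc
    exact_mod_cast hc
  let eqv : Fin e ≃ s := (Fintype.equivFinOfCardEq hcard).symm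
  have hx : AlgebraicIndependent ℂ fun i => (eqv i : K) := hs.1.comp _ eqv.injective
  obtain ⟨b, _⟩ := TBAS.main htr _ hx
  exact ⟨Module.Finite.of_basis b, by simpa using Module.finrank_eq_card_basis b⟩

end BAS

theorem t_BAS : M_BAS := by
  intro hMON e n r K _ _ f x hx gen htr hz σ hσ
  obtain ⟨-, -, -, hrel, -⟩ := hMON (e := e) x hx
  have hrel' : ∀ i, ∑ j, grad x (f i) j • dlog (x j) = 0 := fun i => hrel (f i) (hz i)
  have hxr : ∀ l, rest x σ l ≠ 0 := fun l => hx _
  -- the span
  set N : Submodule K (Ω[K⁄ℂ]) := Submodule.span K (Set.range fun l => dlog (rest x σ l)) with hN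
  have hspan : N = ⊤ := by
    refine BAS.gen_D x gen N fun j => ?_
    have h1 : ∀ j, N.mkQ (dlog (x j)) = 0 := by
      refine BAS.kill (fun i j => grad x (f i) j) σ (fun j => N.mkQ (dlog (x j))) ?_ ?_ hσ
      · intro i
        have h2 := congrArg N.mkQ (hrel' i)
        rw [map_zero, map_sum] at h2
        simpa only [map_smul] using h2
      · intro l
        rw [Submodule.mkQ_apply, Submodule.Quotient.mk_eq_zero]
        exact Submodule.subset_span ⟨l, rfl⟩
    have h3 := h1 j
    rw [Submodule.mkQ_apply, Submodule.Quotient.mk_eq_zero] at h3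
    have h4 : KaehlerDifferential.D ℂ K (x j) = x j • dlog (x j) := by
      rw [dlog, smul_smul, mul_inv_cancel₀ (hx j), one_smul]
    rw [h4]
    exact N.smul_mem _ h3
  obtain ⟨hfin, hrank⟩ := BAS.finrank_eq htr
  have hli : LinearIndependent K fun l => dlog (rest x σ l) := by
    refine linearIndependent_of_top_le_span_of_card_eq_finrank (hspan.ge) ?_
    rw [Fintype.card_fin, hrank]
  let b : Module.Basis (Fin e) K (Ω[K⁄ℂ]) := Module.Basis.mk hli hspan.ge
  have hb : (b : Fin e → Ω[K⁄ℂ]) = fun l => dlog (rest x σ l) := Module.Basis.coe_mk hli hspan.ge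
  refine ⟨?_, ?_, ?_⟩
  · refine BAS.algInd _ ?_
    rw [Fintype.linearIndependent_iff]
    intro g hg l
    have h1 : ∑ l, (g l * rest x σ l) • dlog (rest x σ l) = 0 := by
      rw [← hg]
      refine Finset.sum_congr rfl fun l _ => ?_
      rw [dlog, smul_smul, mul_assoc, mul_inv_cancel₀ (hxr l), mul_one]
    have h2 := Fintype.linearIndependent_iff.1 hli _ h1 l
    exact (mul_eq_zero.1 h2).resolve_right (hxr l)
  · have h := FRM.iota_ne b
    rw [hb] at h
    exact h
  · intro δ hδ
    let φ : Ω[K⁄ℂ] →ₗ[K] K := b.constr K fun l => δ (σ (Sum.inr l))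
    have hφ : ∀ l, φ (dlog (rest x σ l)) = δ (σ (Sum.inr l)) := by
      intro l
      have h1 : dlog (rest x σ l) = b l := by rw [hb]
      rw [h1]
      exact b.constr_basis K _ l
    have h2 : ∀ j, φ (dlog (x j)) - δ j = 0 := by
      refine BAS.kill (fun i j => grad x (f i) j) σ (fun j => φ (dlog (x j)) - δ j) ?_ ?_ hσ
      · intro i
        have h3 := congrArg φ (hrel' i)
        rw [map_zero, map_sum] at h3
        simp only [map_smul] at h3
        have h4 := hδ i
        simp only [smul_sub, Finset.sum_sub_distrib]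
        rw [h3, zero_sub, neg_eq_zero, ← h4]
        refine Finset.sum_congr rfl fun j _ => ?_
        rw [smul_eq_mul, mul_comm]
      · intro l
        have h5 := hφ l
        rw [sub_eq_zero]
        exact h5
    refine ⟨φ.compDer (KaehlerDifferential.D ℂ K), fun j => ?_⟩
    have h6 : KaehlerDifferential.D ℂ K (x j) = x j • dlog (x j) := by
      rw [dlog, smul_smul, mul_inv_cancel₀ (hx j), one_smul]
    have h7 : (φ.compDer (KaehlerDifferential.D ℂ K)) (x j) =
        φ (KaehlerDifferential.D ℂ K (x j)) := rfl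
    rw [h7, h6, map_smul, sub_eq_zero.1 (h2 j), smul_eq_mul, mul_comm]

end

end MMCI
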