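import Pool.Agent.MMCI.StB
import Pool.Agent.MMCI.Tools
import Pool.Agent.MldGeo.Ord

/-!
# Module BND: the residues of the monomials orthogonal to a cone
-/

set_option autoImplicit false

namespace MMCI

open MldGeo MldGeo.DivVal

noncomputable section

namespace BND

/-! ### residues -/

section res

variable {e : ℕ} {K : Type} [Field K] [Algebra ℂ K] (v : DivVal e K)

/-- the residue field -/
abbrev Kp : Type := IsLocalRing.ResidueField v.OV

open Classical in
/-- the residue of an element, zero if the order is negative -/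
def rz (a : K) : Kp v := if h : v.Ge 0 a then IsLocalRing.residue v.OV ⟨a, h⟩ else 0

theorem rz_of {a : K} (h : v.Ge 0 a) : rz v a = IsLocalRing.residue v.OV ⟨a, h⟩ := by
  unfold rz
  rw [dif_pos h]

theorem rz_zero_iff {a : K} (h : v.Ge 0 a) : rz v a = 0 ↔ v.Ge 1 a := by
  rw [rz_of v h, IsLocalRing.residue_eq_zero_iff, mem_maximalIdeal_iff]

theorem rz_zero : rz v 0 = 0 := by
  rw [rz_zero_iff v (Ge.zero v 0)]
  exact Ge.zero v 1

theorem rz_add {a b : K} (ha : v.Ge 0 a) (hb : v.Ge 0 b) : rz v (a + b) = rz v a + rz v b := by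
  rw [rz_of v ha, rz_of v hb, rz_of v (ha.add hb), ← map_add]
  rfl

theorem rz_mul {a b : K} (ha : v.Ge 0 a) (hb : v.Ge 0 b) : rz v (a * b) = rz v a * rz v b := by
  rw [rz_of v ha, rz_of v hb, rz_of v (ha.mul_left hb), ← map_mul]
  rfl

theorem rz_sum {ι : Type*} (s : Finset ι) (f : ι → K) (h : ∀ i ∈ s, v.Ge 0 (f i)) :
    rz v (∑ i ∈ s, f i) = ∑ i ∈ s, rz v (f i) := by
  classical
  induction s using Finset.induction_on with
  | empty => simp [rz_zero]
  | insert a s ha ih =>
    rw [Finset.sum_insert ha, Finset.sum_insert ha,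
      rz_add v (h a (Finset.mem_insert_self a s))
        (Ge.sum s f fun i hi => h i (Finset.mem_insert_of_mem hi)),
      ih fun i hi => h i (Finset.mem_insert_of_mem hi)]

theorem rz_intCast (z : ℤ) : rz v (z : K) = (z : Kp v) := by
  rw [rz_of v (Ge.intCast v z), ← map_intCast (IsLocalRing.residue v.OV) z]
  rfl

theorem exists_rz (z : Kp v) : ∃ a, v.Ge 0 a ∧ rz v a = z := by
  obtain ⟨⟨a, ha⟩, hz⟩ := IsLocalRing.residue_surjective z
  exact ⟨a, ha, by rw [rz_of v ha]; exact hz⟩

theorem charZero_K : CharZero K := charZero_of_injective_algebraMap (algebraMap ℂ K).injective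

theorem charZero_Kp : CharZero (Kp v) := by
  haveI : CharZero K := charZero_K
  refine charZero_of_inj_zero fun n hn => ?_
  have h1 : rz v ((n : ℤ) : K) = 0 := by
    rw [rz_intCast]
    exact_mod_cast hn
  rw [rz_zero_iff v (Ge.intCast v n)] at h1
  by_contra h0
  have h2 := h1.le (by exact_mod_cast h0)
  rw [ord_intCast] at h2
  omega

/-- rows of a matrix of elements of nonnegative order whose determinant is a unit -/
theorem indep_rows {r : ℕ} (M : Fin r → Fin r → K) (hM : ∀ i j, v.Ge 0 (M i j))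
    (h0 : (Matrix.of M).det ≠ 0) (h1 : v.ord (Matrix.of M).det = 0) :
    LinearIndependent (Kp v) (fun i j => rz v (M i j)) := by
  set GO : Matrix (Fin r) (Fin r) v.OV := Matrix.of fun i j => ⟨M i j, hM i j⟩ with hGO
  have h2 : ((GO.det : v.OV) : K) = (Matrix.of M).det := by
    have h3 := v.OV.subtype.map_det GO
    change v.OV.subtype GO.det = _
    rw [h3]
    rfl
  have h4 : IsUnit GO.det := by
    rw [OV_isUnit_iff, h2]
    exact ⟨h0, h1⟩
  have h5 : (Matrix.of fun i j : Fin r => rz v (M i j)).det ≠ 0 := by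
    have h6 := (IsLocalRing.residue v.OV).map_det GO
    have h7 : (IsLocalRing.residue v.OV).mapMatrix GO = Matrix.of fun i j => rz v (M i j) := by
      ext i j
      rw [Matrix.of_apply, rz_of v (hM i j)]
      rfl
    rw [← h7, ← h6]
    exact (h4.map (IsLocalRing.residue v.OV)).ne_zero
  exact Matrix.linearIndependent_rows_of_det_ne_zero h5

end res

/-! ### linear algebra -/

theorem indep_rat {s n : ℕ} (ν : Fin s → (Fin n → ℤ)) (h : LinearIndependent ℤ ν) :
    LinearIndependent ℚ (fun j a => ((ν j a : ℤ) : ℚ)) := by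
  rw [← LinearIndependent.iff_fractionRing (R := ℤ) (K := ℚ)]
  refine h.map' ((Algebra.linearMap ℤ ℚ).compLeft (Fin n)) ?_
  rw [LinearMap.ker_eq_bot]
  intro a b hab
  ext i
  have h1 := congrFun hab i
  simpa using h1

theorem indep_int {s n : ℕ} {k : Type} [Field k] [CharZero k] (ν : Fin s → (Fin n → ℤ))
    (h : LinearIndependent ℤ ν) : LinearIndependent k (fun j a => ((ν j a : ℤ) : k)) := by
  have hQ := indep_rat ν h
  rw [Fintype.linearIndependent_iff]
  intro g hg j
  have hall : ∀ φ : Module.Dual ℚ k, φ (g j) = 0 := by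
    intro φ
    have h2 : ∑ i, φ (g i) • (fun a => ((ν i a : ℤ) : ℚ)) = 0 := by
      ext a
      have h3 := congrFun hg a
      simp only [Finset.sum_apply, Pi.smul_apply, smul_eq_mul, Pi.zero_apply] at h3 ⊢
      have h4 := congrArg φ h3
      rw [map_sum, map_zero] at h4
      rw [← h4]
      refine Finset.sum_congr rfl fun i _ => ?_
      have h5 : g i * ((ν i a : ℤ) : k) = (ν i a : ℤ) • g i := by
        rw [zsmul_eq_mul, mul_comm]
      rw [h5, map_zsmul, zsmul_eq_mul, mul_comm]
    exact (Fintype.linearIndependent_iff.mp hQ) _ h2 j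
  exact (Module.forall_dual_apply_eq_zero_iff ℚ (g j)).mp hall

theorem count {s n : ℕ} {k ι : Type} [Field k] [Fintype ι] (N : Fin s → Fin n → k)
    (hN : LinearIndependent k N) (V : ι → Fin n → k) (hV : LinearIndependent k V)
    (h : ∀ p j, ∑ a, N j a * V p a = 0) : Fintype.card ι + s ≤ n := by
  set A : Matrix (Fin s) (Fin n) k := Matrix.of N with hA
  have h1 : A.rank = s := by
    have := LinearIndependent.rank_matrix (M := A) hN
    simpa using this
  have h2 : Submodule.span k (Set.range V) ≤ LinearMap.ker A.mulVecLin := by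
    rw [Submodule.span_le]
    rintro _ ⟨p, rfl⟩
    rw [SetLike.mem_coe, LinearMap.mem_ker]
    ext j
    simp only [Matrix.mulVecLin_apply, Matrix.mulVec, dotProduct, Pi.zero_apply]
    exact h p j
  have h3 := Submodule.finrank_mono h2
  rw [finrank_span_eq_card hV] at h3
  have h4 := LinearMap.finrank_range_add_finrank_ker A.mulVecLin
  have h5 : Module.finrank k (LinearMap.range A.mulVecLin) = s := h1
  rw [h5, Module.finrank_fin_fun] at h4
  omega

/-! ### the minimum on the exponents -/

theorem minOn_exists {n : ℕ} {f : Laurent n} (hf : f ≠ 0) (ν : Fin n → ℤ) :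
    ∃ a ∈ f.coeff.support, pair ν a = minOn f ν := by
  have h1 : f.coeff.support.Nonempty := by
    rw [Finsupp.support_nonempty_iff]
    intro h
    exact hf (by simpa using h)
  have h2 : ((fun m => pair ν m) '' (f.coeff.support : Set (Fin n → ℤ))).Nonempty := by
    obtain ⟨a, ha⟩ := h1
    exact ⟨_, a, ha, rfl⟩
  have h3 : BddBelow ((fun m => pair ν m) '' (f.coeff.support : Set (Fin n → ℤ))) :=
    ((Finset.finite_toSet _).image _).bddBelow
  obtain ⟨a, ha, h4⟩ := Int.csInf_mem h2 h3
  exact ⟨a, ha, h4⟩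

theorem minOn_le {n : ℕ} {f : Laurent n} (ν : Fin n → ℤ) {a : Fin n → ℤ}
    (ha : a ∈ f.coeff.support) : minOn f ν ≤ pair ν a := by
  have h3 : BddBelow ((fun m => pair ν m) '' (f.coeff.support : Set (Fin n → ℤ))) :=
    ((Finset.finite_toSet _).image _).bddBelow
  exact csInf_le h3 ⟨a, ha, rfl⟩

theorem pair_sum {n s : ℕ} (ν : Fin s → (Fin n → ℤ)) (a : Fin n → ℤ) :
    pair (∑ j, ν j) a = ∑ j, pair (ν j) a := by
  unfold pair
  rw [Finset.sum_comm]
  refine Finset.sum_congr rfl fun i _ => ?_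
  rw [Finset.sum_apply, Finset.sum_mul]

theorem pair_smul {n : ℕ} (c : ℤ) (ν : Fin n → ℤ) (a : Fin n → ℤ) :
    pair (c • ν) a = c * pair ν a := by
  unfold pair
  rw [Finset.mul_sum]
  refine Finset.sum_congr rfl fun i _ => ?_
  rw [Pi.smul_apply, smul_eq_mul, mul_assoc]

theorem defect_nonneg {n s : ℕ} {f : Laurent n} (hf : f ≠ 0) (ν : Fin s → (Fin n → ℤ)) :
    0 ≤ minOn f (∑ j, ν j) - ∑ j, minOn f (ν j) := by
  obtain ⟨a, ha, h1⟩ := minOn_exists hf (∑ j, ν j)
  rw [← h1, pair_sum, ← Finset.sum_sub_distrib]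
  exact Finset.sum_nonneg fun j _ => sub_nonneg.mpr (minOn_le (ν j) ha)

/-- exponents of minimal weight are minimal for all vectors of the cone -/
theorem minimal {n s : ℕ} {f : Laurent n} (hf : f ≠ 0) (ν : Fin s → (Fin n → ℤ))
    (h0 : minOn f (∑ j, ν j) - ∑ j, minOn f (ν j) = 0) (w : Fin n → ℤ) (c : Fin s → ℕ) (c0 : ℕ)
    (hc : ∀ j, 0 < c j) (hw : (c0 : ℤ) • w = ∑ j, (c j : ℤ) • ν j) (a : Fin n → ℤ)
    (ha : a ∈ f.coeff.support) (haw : pair w a = minOn f w) (j : Fin s) :
    pair (ν j) a = minOn f (ν j) := by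
  obtain ⟨b, hb, h1⟩ := minOn_exists hf (∑ j, ν j)
  -- `b` is minimal for all `ν j`
  have h2 : ∀ j, pair (ν j) b = minOn f (ν j) := by
    have h3 : ∑ j, (pair (ν j) b - minOn f (ν j)) = 0 := by
      rw [Finset.sum_sub_distrib, ← pair_sum, h1, h0]
    have h4 := (Finset.sum_eq_zero_iff_of_nonneg (s := Finset.univ)
      fun j _ => sub_nonneg.mpr (minOn_le (ν j) hb)).mp h3
    intro j
    have := h4 j (Finset.mem_univ j)
    linarith
  have hcw : ∀ a' : Fin n → ℤ, (c0 : ℤ) * pair w a' = ∑ j, (c j : ℤ) * pair (ν j) a' := by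
    intro a'
    rw [← pair_smul, hw, pair_sum]
    exact Finset.sum_congr rfl fun j _ => pair_smul _ _ _
  have h5 : (c0 : ℤ) * pair w a ≤ (c0 : ℤ) * pair w b :=
    mul_le_mul_of_nonneg_left (by rw [haw]; exact minOn_le w hb) (Int.natCast_nonneg c0)
  rw [hcw, hcw] at h5
  have h6 : ∀ j, (c j : ℤ) * pair (ν j) b ≤ (c j : ℤ) * pair (ν j) a := fun j =>
    mul_le_mul_of_nonneg_left (by rw [h2 j]; exact minOn_le (ν j) ha) (Int.natCast_nonneg _)
  have h7 : ∑ j, ((c j : ℤ) * pair (ν j) a - (c j : ℤ) * pair (ν j) b) = 0 := by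
    refine le_antisymm ?_ (Finset.sum_nonneg fun j _ => sub_nonneg.mpr (h6 j))
    rw [Finset.sum_sub_distrib]
    linarith
  have h8 := (Finset.sum_eq_zero_iff_of_nonneg (s := Finset.univ)
    fun j _ => sub_nonneg.mpr (h6 j)).mp h7 j (Finset.mem_univ j)
  have h9 : (c j : ℤ) * (pair (ν j) a - pair (ν j) b) = 0 := by
    rw [mul_sub]
    exact h8
  rcases mul_eq_zero.mp h9 with h10 | h10
  · have := hc j
    omega
  · rw [← h2 j]
    linarith

/-! ### differentials -/

theorem frame_zero {m : ℕ} {K : Type} [Field K] [Algebra ℂ K]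
    (hdim : Algebra.trdeg ℂ K = ((m + 1 : ℕ) : Cardinal)) (v : DivVal (m + 1) K) (t : K)
    (u : Fin m → K) (hF : Frame v t u) (α : K) (β : Fin m → K)
    (h : α • dlog t + ∑ j, β j • KaehlerDifferential.D ℂ K (u j) = 0) (j : Fin m) : β j = 0 := by
  have h1 := (cTBAS hdim _ ((cFRA v).2 t u hF)).1
  have h2 := Fintype.linearIndependent_iff.mp h1 (Fin.cons (α * t⁻¹) β) (by
    rw [Fin.sum_univ_succ]
    simp only [Fin.cons_zero, Fin.cons_succ]
    rw [← h]
    unfold dlog
    rw [smul_smul]) j.succ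
  simpa using h2

end BND

theorem t_BND : M_BND := by
  intro hMON _ _ m n r K _ _ f x hR v σ hU s ν c c0 hc0 hc hν hw hsum
  rintro ⟨q, hq, hres⟩
  obtain ⟨-, -, hdl, hgrad, hv⟩ := hMON (e := m + 1) x hR.ne
  obtain ⟨-, -, hgr, hlast⟩ := hv v
  obtain ⟨hne, hord⟩ := hU
  set w := wt x v with hwdef
  haveI := BND.charZero_Kp v
  obtain ⟨t, ht, ht1⟩ := v.unif
  set u : Fin m → K := fun l => mon x (q l) with hu
  have hF : Frame v t u := ⟨ht, ht1, hres⟩
  have hu0 : ∀ j, u j ≠ 0 ∧ v.ord (u j) = 0 := by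
    intro j
    have := hres (MvPolynomial.X j) (MvPolynomial.X_ne_zero j)
    simpa using this
  have hdim : Algebra.trdeg ℂ K = ((m + 1 : ℕ) : Cardinal) := hR.dim
  -- the coefficients of the `dlog (x a)`
  choose C hC0 _ hC2 using fun a : Fin n => cCOE hdim v t u hF (x a) (hR.ne a)
  have hexp : ∀ g : Fin n → K, ∑ a, g a • dlog (x a) =
      (∑ a, g a * C a 0) • dlog t +
        ∑ j : Fin m, (∑ a, g a * C a j.succ) • KaehlerDifferential.D ℂ K (u j) := by
    intro g
    simp only [Finset.sum_smul]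
    rw [Finset.sum_comm, ← Finset.sum_add_distrib]
    refine Finset.sum_congr rfl fun a _ => ?_
    rw [hC2 a, smul_add, smul_smul, Finset.smul_sum]
    simp only [smul_smul]
  have hR1 : ∀ i j, ∑ a, grad x (f i) a * C a (Fin.succ j) = 0 := by
    intro i j
    have h1 := hgrad (f i) (hR.zero i)
    rw [hexp] at h1
    exact BND.frame_zero hdim v t u hF _ _ h1 j
  have hR2 : ∀ l j, ∑ a, ((q l a : ℤ) : K) * C a (Fin.succ j) =
      if j = l then (u l)⁻¹ else 0 := by
    intro l j
    have h1 := hdl (q l)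
    rw [hexp] at h1
    have h2 : (∑ a, ((q l a : ℤ) : K) * C a 0) • dlog t +
        ∑ j : Fin m, ((∑ a, ((q l a : ℤ) : K) * C a j.succ) - if j = l then (u l)⁻¹ else 0) •
          KaehlerDifferential.D ℂ K (u j) = 0 := by
      simp only [sub_smul, Finset.sum_sub_distrib, ite_smul, zero_smul]
      rw [Finset.sum_ite_eq' Finset.univ l, if_pos (Finset.mem_univ l), ← add_sub_assoc, ← h1]
      exact sub_self _
    have h3 := BND.frame_zero hdim v t u hF _ _ h2 j
    exact sub_eq_zero.mp h3
  -- the normalised gradients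
  set y : Fin r → K := fun i => t ^ minOn (f i) w with hy
  have hy0 : ∀ i, y i ≠ 0 := fun i => zpow_ne_zero _ ht
  have hyo : ∀ i, v.ord (y i) = minOn (f i) w := by
    intro i
    rw [hy]
    change v.ord (t ^ _) = _
    rw [ord_zpow, ht1, mul_one]
  set G : Fin r → Fin n → K := fun i a => (y i)⁻¹ * grad x (f i) a with hG
  have hGge : ∀ i a, v.Ge 0 (G i a) := by
    intro i a
    have h1 := (Ge.inv' v (y i)).mul (hgr (f i) a)
    rw [hyo, neg_add_cancel] at h1
    exact h1
  have hGR : ∀ i j, ∑ a, G i a * C a (Fin.succ j) = 0 := by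
    intro i j
    have h1 : ∑ a, G i a * C a (Fin.succ j) = (y i)⁻¹ * ∑ a, grad x (f i) a * C a (Fin.succ j) := by
      rw [Finset.mul_sum]
      refine Finset.sum_congr rfl fun a _ => ?_
      rw [hG]
      ring
    rw [h1, hR1, mul_zero]
  -- rows of `G` are independent modulo the maximal ideal
  have hGind : LinearIndependent (BND.Kp v) (fun (i : Fin r) (a : Fin n) => BND.rz v (G i a)) := by
    have h1 : (Matrix.of fun i j : Fin r => G i (σ (Sum.inl j))).det =
        (∏ i, (y i)⁻¹) * minor f x σ := by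
      have h2 := Matrix.det_mul_column (fun i => (y i)⁻¹)
        (Matrix.of fun i j : Fin r => grad x (f i) (σ (Sum.inl j)))
      exact h2
    have hp : ∏ i, (y i)⁻¹ ≠ 0 := Finset.prod_ne_zero_iff.mpr fun i _ => inv_ne_zero (hy0 i)
    have h3 : v.ord (Matrix.of fun i j : Fin r => G i (σ (Sum.inl j))).det = 0 := by
      rw [h1, v.ord_mul _ _ hp hne, ord_prod v _ _ fun i _ => inv_ne_zero (hy0 i), hord]
      unfold psi
      rw [← Finset.sum_add_distrib]
      refine Finset.sum_eq_zero fun i _ => ?_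
      rw [ord_inv, hyo]
      omega
    have h4 := BND.indep_rows v (fun i j : Fin r => G i (σ (Sum.inl j)))
      (fun i j => hGge i _) (by rw [h1]; exact mul_ne_zero hp hne) h3
    exact LinearIndependent.of_comp
      (LinearMap.funLeft (BND.Kp v) (BND.Kp v) fun j : Fin r => σ (Sum.inl j)) h4
  -- the family of vectors
  let J : Type := {i : Fin r // minOn (f i) (∑ j, ν j) - ∑ j, minOn (f i) (ν j) = 0}
  let V : Fin m ⊕ J → Fin n → BND.Kp v := Sum.elim (fun l a => ((q l a : ℤ) : BND.Kp v))
    (fun i a => BND.rz v (G i.1 a))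
  have hVind : LinearIndependent (BND.Kp v) V := by
    rw [Fintype.linearIndependent_iff]
    intro g hg
    rw [Fintype.sum_sum_type] at hg
    choose α hα0 hα using fun l : Fin m => BND.exists_rz v (g (Sum.inl l))
    choose β hβ0 hβ using fun i : J => BND.exists_rz v (g (Sum.inr i))
    set E : Fin n → K := fun a => ∑ l, α l * ((q l a : ℤ) : K) + ∑ i : J, β i * G i.1 a with hE
    have hE1 : ∀ a, v.Ge 1 (E a) := by
      intro a
      have h1 : ∀ l, v.Ge 0 (α l * ((q l a : ℤ) : K)) := fun l =>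
        (hα0 l).mul_left (Ge.intCast v _)
      have h2 : ∀ i : J, v.Ge 0 (β i * G i.1 a) := fun i => (hβ0 i).mul_left (hGge _ _)
      rw [← BND.rz_zero_iff v ((Ge.sum _ _ fun l _ => h1 l).add (Ge.sum _ _ fun i _ => h2 i))]
      change BND.rz v (∑ l, α l * ((q l a : ℤ) : K) + ∑ i : J, β i * G i.1 a) = 0
      rw [BND.rz_add v (Ge.sum _ _ fun l _ => h1 l) (Ge.sum _ _ fun i _ => h2 i),
        BND.rz_sum v _ _ fun l _ => h1 l, BND.rz_sum v _ _ fun i _ => h2 i]
      have h3 := congrFun hg a
      simp only [Pi.add_apply, Finset.sum_apply, Pi.smul_apply, smul_eq_mul, Pi.zero_apply] at h3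
      rw [← h3]
      congr 1
      · refine Finset.sum_congr rfl fun l _ => ?_
        rw [BND.rz_mul v (hα0 l) (Ge.intCast v _), hα, BND.rz_intCast]
        rfl
      · refine Finset.sum_congr rfl fun i _ => ?_
        rw [BND.rz_mul v (hβ0 i) (hGge _ _), hβ]
        rfl
    have hα1 : ∀ j, v.Ge 1 (α j) := by
      intro j
      have h1 : v.Ge 1 (∑ a, E a * C a (Fin.succ j)) :=
        Ge.sum _ _ fun a _ => (hE1 a).mul_right (hC0 a _)
      have h2 : ∑ a, E a * C a (Fin.succ j) = α j * (u j)⁻¹ := by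
        have h3 : ∀ a, E a * C a (Fin.succ j) =
            ∑ l, α l * (((q l a : ℤ) : K) * C a (Fin.succ j)) +
              ∑ i : J, β i * (G i.1 a * C a (Fin.succ j)) := by
          intro a
          rw [hE]
          change (∑ l, α l * ((q l a : ℤ) : K) + ∑ i : J, β i * G i.1 a) * C a (Fin.succ j) = _
          rw [add_mul, Finset.sum_mul, Finset.sum_mul]
          congr 1
          · exact Finset.sum_congr rfl fun l _ => by ring
          · exact Finset.sum_congr rfl fun l _ => by ring
        rw [Finset.sum_congr rfl fun a _ => h3 a, Finset.sum_add_distrib, Finset.sum_comm,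
          Finset.sum_comm (s := Finset.univ) (t := (Finset.univ : Finset J))]
        have h4 : ∀ l, ∑ a, α l * (((q l a : ℤ) : K) * C a (Fin.succ j)) =
            if j = l then α l * (u l)⁻¹ else 0 := by
          intro l
          rw [← Finset.mul_sum, hR2]
          split_ifs
          · rfl
          · rw [mul_zero]
        have h5 : ∀ i : J, ∑ a, β i * (G i.1 a * C a (Fin.succ j)) = 0 := by
          intro i
          rw [← Finset.mul_sum, hGR, mul_zero]
        rw [Finset.sum_congr rfl fun l _ => h4 l, Finset.sum_congr rfl fun i _ => h5 i,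
          Finset.sum_const_zero, add_zero, Finset.sum_ite_eq, if_pos (Finset.mem_univ j)]
      rw [h2] at h1
      have h6 : v.Ge 0 (u j) := Or.inr (hu0 j).2.ge
      have h7 := h1.mul_right h6
      rwa [mul_assoc, inv_mul_cancel₀ (hu0 j).1, mul_one] at h7
    have hgl : ∀ l, g (Sum.inl l) = 0 := by
      intro l
      rw [← hα l, BND.rz_zero_iff v (hα0 l)]
      exact hα1 l
    have hgr' : ∀ i : J, g (Sum.inr i) = 0 := by
      have h1 : LinearIndependent (BND.Kp v) (fun (i : J) (a : Fin n) => BND.rz v (G i.1 a)) :=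
        hGind.comp (fun i : J => i.1) Subtype.val_injective
      refine Fintype.linearIndependent_iff.mp h1 (fun i => g (Sum.inr i)) ?_
      have h2 : ∑ l, g (Sum.inl l) • V (Sum.inl l) = 0 :=
        Finset.sum_eq_zero fun l _ => by rw [hgl l, zero_smul]
      rw [h2, zero_add] at hg
      exact hg
    rintro (l | i)
    · exact hgl l
    · exact hgr' i
  -- orthogonality
  have horth : ∀ p j, ∑ a, ((ν j a : ℤ) : BND.Kp v) * V p a = 0 := by
    rintro (l | i) j
    · have h1 : ∑ a, ((ν j a : ℤ) : BND.Kp v) * ((q l a : ℤ) : BND.Kp v) = 0 := by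
        have h2 := hq l j
        unfold pair at h2
        have h3 := congrArg (Int.cast : ℤ → BND.Kp v) h2
        push_cast at h3
        exact h3
      exact h1
    · have h1 : ∀ a ∈ (f i.1).coeff.support, pair (wt x v) a = minOn (f i.1) (wt x v) →
          pair (ν j) a = minOn (f i.1) (ν j) := fun a ha haw =>
        BND.minimal (hR.f_ne i.1) ν i.2 (wt x v) c c0 hc hw a ha haw j
      have h2 := hlast (f i.1) (ν j) _ (hR.zero i.1) h1
      have h3 : v.Ge 1 (∑ a, ((ν j a : ℤ) : K) * G i.1 a) := by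
        have h4 : ∑ a, ((ν j a : ℤ) : K) * G i.1 a =
            (y i.1)⁻¹ * ∑ a, ((ν j a : ℤ) : K) * grad x (f i.1) a := by
          rw [Finset.mul_sum]
          refine Finset.sum_congr rfl fun a _ => ?_
          rw [hG]
          ring
        rw [h4]
        have h5 := (Ge.inv' v (y i.1)).mul h2
        rw [hyo] at h5
        refine h5.mono ?_
        omega
      have h6 : ∀ a, v.Ge 0 (((ν j a : ℤ) : K) * G i.1 a) := fun a =>
        (Ge.intCast v _).mul_left (hGge _ _)
      rw [← BND.rz_zero_iff v (Ge.sum _ _ fun a _ => h6 a), BND.rz_sum v _ _ fun a _ => h6 a] at h3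
      rw [← h3]
      refine Finset.sum_congr rfl fun a _ => ?_
      rw [BND.rz_mul v (Ge.intCast v _) (hGge _ _), BND.rz_intCast]
      rfl
  have hcount := BND.count (fun j a => ((ν j a : ℤ) : BND.Kp v)) (BND.indep_int ν hν) V hVind horth
  rw [Fintype.card_sum, Fintype.card_fin] at hcount
  -- the number of exceptional indices
  have hn : n = r + (m + 1) := hR.dim_eq
  have hI : (Finset.univ.filter fun i : Fin r =>
      ¬ (minOn (f i) (∑ j, ν j) - ∑ j, minOn (f i) (ν j) = 0)).card + 2 ≤ s := by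
    have h1 : (((Finset.univ.filter fun i : Fin r =>
        ¬ (minOn (f i) (∑ j, ν j) - ∑ j, minOn (f i) (ν j) = 0)).card : ℕ) : ℤ) ≤
        ∑ i, (minOn (f i) (∑ j, ν j) - ∑ j, minOn (f i) (ν j)) := by
      rw [Finset.card_filter]
      push_cast
      refine Finset.sum_le_sum fun i _ => ?_
      have h2 := BND.defect_nonneg (hR.f_ne i) ν
      split_ifs with h3
      · omega
      · omega
    omega
  have hJ : Fintype.card J = (Finset.univ.filter fun i : Fin r =>
      minOn (f i) (∑ j, ν j) - ∑ j, minOn (f i) (ν j) = 0).card := Fintype.card_subtype _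
  have htot := Finset.card_filter_add_card_filter_not (s := (Finset.univ : Finset (Fin r)))
    (fun i : Fin r => minOn (f i) (∑ j, ν j) - ∑ j, minOn (f i) (ν j) = 0)
  rw [Finset.card_univ, Fintype.card_fin] at htot
  omega

end

end MMCI
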