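import Pool.Agent.MMCI.StB
import Pool.Agent.MMCI.Tools

/-!
# DK: a criterion for ramification index one
-/

namespace MMCI

open MldGeo

noncomputable section

namespace DK

variable {K : Type} [Field K] [Algebra ℂ K]

theorem intCast_ne {k : ℤ} (hk : k ≠ 0) : (k : K) ≠ 0 := by
  intro h
  have h1 : algebraMap ℂ K (k : ℂ) = 0 := by rw [map_intCast, h]
  have h2 : (k : ℂ) = 0 := (map_eq_zero_iff _ (algebraMap ℂ K).injective).1 h1
  exact hk (by exact_mod_cast h2)

theorem lift_dlog (D : Derivation ℂ K K) (a : K) :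
    D.liftKaehlerDifferential (dlog a) = a⁻¹ * D a := by
  unfold dlog
  rw [map_smul, Derivation.liftKaehlerDifferential_comp_D, smul_eq_mul]

end DK

open DK in
/-- DK: a criterion for ramification index one. -/
theorem t_DK : S_DK := by
  intro m K _ _ hdim v B hB hfrac D hD p hpB hp0 hpos hDp0 hDp u huB hu
  obtain ⟨t, ht0, ht1⟩ := v.unif
  have hF : Frame v t u := ⟨ht0, ht1, hu⟩
  set k : ℤ := v.ord p with hk
  set r : K := p / D p with hr
  have hr0 : r ≠ 0 := div_ne_zero hp0 hDp0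
  have hrk : v.ord r = k := by rw [hr, DivVal.ord_div v hp0 hDp0, hDp, sub_zero]
  have hr1 : v.Ge 1 r := DivVal.Ge.of_le (by omega)
  set τ : K := r * (t⁻¹ * D t) with hτ
  have key : ∀ a : K, a ≠ 0 → ∃ c : K, v.Ge 0 c ∧ v.Ge 1 (c - (v.ord a : K)) ∧
      v.Ge 1 (r * (a⁻¹ * D a) - c * τ) := by
    intro a ha
    obtain ⟨c, hc1, hc2, hc3⟩ := cCOE hdim v t u hF a ha
    refine ⟨c 0, hc1 0, hc2, ?_⟩
    have h1 := congrArg D.liftKaehlerDifferential hc3
    rw [map_add, map_smul, map_sum, lift_dlog, lift_dlog] at h1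
    have h2 : r * (a⁻¹ * D a) - c 0 * τ = ∑ j : Fin m, c j.succ * (r * D (u j)) := by
      rw [h1, hτ, smul_eq_mul, mul_add, Finset.mul_sum]
      have h3 : ∀ j : Fin m, r * D.liftKaehlerDifferential
          (c j.succ • KaehlerDifferential.D ℂ K (u j)) = c j.succ * (r * D (u j)) := by
        intro j
        rw [map_smul, Derivation.liftKaehlerDifferential_comp_D, smul_eq_mul]
        ring
      rw [Finset.sum_congr rfl fun j _ => h3 j]
      ring
    rw [h2]
    exact DivVal.Ge.sum _ _ fun j _ => (hc1 _).mul_left (hr1.mul_right (hB _ (hD _ (huB j))))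
  -- `τ` is `1 / k` modulo the maximal ideal
  have hkK : (k : K) ≠ 0 := intCast_ne (by omega)
  have hk0 : v.Ge 0 (k : K) := DivVal.Ge.intCast v k
  obtain ⟨hτ0, hτ1⟩ : v.Ge 0 τ ∧ v.Ge 1 ((k : K) * τ - 1) := by
    obtain ⟨c, hc1, hc2, hc3⟩ := key p hp0
    have h1 : r * (p⁻¹ * D p) = 1 := by
      rw [hr]
      field_simp
    rw [h1] at hc3
    have h2 : c ≠ 0 ∧ v.ord c = v.ord (k : K) := by
      apply DivVal.ord_eq_of_sub hkK
      rw [DivVal.ord_intCast, zero_add]
      exact hc2.sub_comm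
    have h3 : v.Ge 0 (c * τ) := by
      have h4 : c * τ = 1 - (1 - c * τ) := by ring
      rw [h4]
      exact (DivVal.Ge.one v).sub (hc3.mono (by norm_num))
    have h4 : v.Ge 0 τ := by
      have h5 : τ = c⁻¹ * (c * τ) := by
        rw [← mul_assoc, inv_mul_cancel₀ h2.1, one_mul]
      rw [h5]
      exact (DivVal.Ge.inv h2.1 (by rw [h2.2, DivVal.ord_intCast])).mul_left h3
    refine ⟨h4, ?_⟩
    have h5 : (k : K) * τ - 1 = -((c - (k : K)) * τ) - (1 - c * τ) := by ring
    rw [h5]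
    exact (hc2.mul_right h4).neg.sub hc3
  have key2 : ∀ a : K, a ≠ 0 → v.ord a ≠ 0 → D a ≠ 0 ∧ v.ord (D a) = v.ord a - k := by
    intro a ha ha1
    obtain ⟨c, hc1, hc2, hc3⟩ := key a ha
    have h1 : v.Ge 1 ((k : K) * (r * (a⁻¹ * D a)) - (v.ord a : K)) := by
      have h2 : (k : K) * (r * (a⁻¹ * D a)) - (v.ord a : K) =
          (k : K) * (r * (a⁻¹ * D a) - c * τ) + (c * ((k : K) * τ - 1) + (c - (v.ord a : K))) := by
        ring
      rw [h2]
      exact (hk0.mul_left hc3).add ((hc1.mul_left hτ1).add hc2)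
    have h3 : (v.ord a : K) ≠ 0 := intCast_ne ha1
    have h4 : (k : K) * (r * (a⁻¹ * D a)) ≠ 0 ∧
        v.ord ((k : K) * (r * (a⁻¹ * D a))) = v.ord (v.ord a : K) := by
      apply DivVal.ord_eq_of_sub h3
      rw [DivVal.ord_intCast, zero_add]
      exact h1.sub_comm
    have h5 : D a ≠ 0 := by
      intro h5
      apply h4.1
      rw [h5, mul_zero, mul_zero, mul_zero]
    refine ⟨h5, ?_⟩
    have h6 := h4.2
    rw [DivVal.ord_intCast, v.ord_mul _ _ hkK (mul_ne_zero hr0 (mul_ne_zero (inv_ne_zero ha) h5)),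
      v.ord_mul _ _ hr0 (mul_ne_zero (inv_ne_zero ha) h5), v.ord_mul _ _ (inv_ne_zero ha) h5,
      DivVal.ord_inv, DivVal.ord_intCast, hrk] at h6
    omega
  -- all orders are divisible by `k`
  have key3 : ∀ (N : ℕ) (b : K), b ∈ B → b ≠ 0 → v.ord b ≤ N → k ∣ v.ord b := by
    intro N
    induction N with
    | zero =>
      intro b hb hb0 hN
      have h1 := (hB b hb).le hb0
      have h2 : v.ord b = 0 := by
        push_cast at hN
        omega
      rw [h2]
      exact dvd_zero k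
    | succ N ih =>
      intro b hb hb0 hN
      by_cases h2 : v.ord b = 0
      · rw [h2]
        exact dvd_zero k
      · obtain ⟨h3, h4⟩ := key2 b hb0 h2
        have h5 := ih (D b) (hD b hb) h3 (by push_cast at hN; omega)
        rw [h4] at h5
        exact (dvd_sub_self_right).1 h5
  obtain ⟨a, ha, q, hq, hq0, haq⟩ := hfrac t
  have ha0 : a ≠ 0 := by
    rw [← haq]
    exact mul_ne_zero ht0 hq0
  have h1 : v.ord a = 1 + v.ord q := by rw [← haq, v.ord_mul _ _ ht0 hq0, ht1]
  have h2 : k ∣ v.ord a := key3 (v.ord a).toNat a ha ha0 (Int.self_le_toNat _)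
  have h3 : k ∣ v.ord q := key3 (v.ord q).toNat q hq hq0 (Int.self_le_toNat _)
  have h4 : k ∣ 1 := by
    have h5 : (1 : ℤ) = v.ord a - v.ord q := by omega
    rw [h5]
    exact dvd_sub h2 h3
  rcases Int.isUnit_iff.1 (isUnit_of_dvd_one h4) with h5 | h5
  · exact h5
  · omega

end

end MMCI
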