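import Pool.Agent.MMCI.StB
import Pool.Agent.MldGeo.Ord

/-!
# Module ELI: elimination
-/

set_option autoImplicit false

namespace MMCI

open MldGeo MldGeo.DivVal

noncomputable section

namespace ELI

/-- Cramer's rule. -/
theorem elim {r e : ℕ} {K E : Type} [Field K] [AddCommGroup E] [Module K E]
    (G : Matrix (Fin r) (Fin r) K) (g : Fin r → Fin e → K) (y : Fin r → E) (z : Fin e → E)
    (h : ∀ i, ∑ a, G i a • y a + ∑ l, g i l • z l = 0) (a : Fin r) :
    G.det • y a = ∑ l, (-(G.updateCol a fun i => g i l).det) • z l := by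
  have h1 : ∑ i, G.adjugate a i • (∑ a', G i a' • y a' + ∑ l, g i l • z l) = 0 := by
    refine Finset.sum_eq_zero fun i _ => ?_
    rw [h i, smul_zero]
  simp only [smul_add, Finset.smul_sum, smul_smul] at h1
  have h5 : ∑ i, ∑ a', (G.adjugate a i * G i a') • y a' =
      ∑ a', ∑ i, (G.adjugate a i * G i a') • y a' := Finset.sum_comm
  have h6 : ∑ i, ∑ l, (G.adjugate a i * g i l) • z l =
      ∑ l, ∑ i, (G.adjugate a i * g i l) • z l := Finset.sum_comm
  rw [Finset.sum_add_distrib, h5, h6] at h1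
  have h2 : ∀ a', ∑ i, (G.adjugate a i * G i a') • y a' =
      (if a = a' then G.det else 0) • y a' := by
    intro a'
    rw [← Finset.sum_smul]
    have h3 : ∑ i, G.adjugate a i * G i a' = (G.adjugate * G) a a' := rfl
    rw [h3, Matrix.adjugate_mul, Matrix.smul_apply, Matrix.one_apply, smul_eq_mul, mul_ite,
      mul_one, mul_zero]
  have h4 : ∀ l, ∑ i, (G.adjugate a i * g i l) • z l =
      (G.updateCol a fun i => g i l).det • z l := by
    intro l
    rw [← Finset.sum_smul]
    have h3 : ∑ i, G.adjugate a i * g i l = G.adjugate.mulVec (fun i => g i l) a := rfl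
    rw [h3, ← Matrix.cramer_eq_adjugate_mulVec, Matrix.cramer_apply]
  rw [Finset.sum_congr rfl fun a' _ => h2 a', Finset.sum_congr rfl fun l _ => h4 l] at h1
  simp only [ite_smul, zero_smul] at h1
  rw [Finset.sum_ite_eq, if_pos (Finset.mem_univ a)] at h1
  rw [eq_neg_of_add_eq_zero_left h1, ← Finset.sum_neg_distrib]
  exact Finset.sum_congr rfl fun l _ => (neg_smul _ _).symm

theorem sum_sigma {r e n : ℕ} {E : Type} [AddCommGroup E] (σ : Fin r ⊕ Fin e ≃ Fin n)
    (F : Fin n → E) : ∑ j, F j = ∑ a, F (σ (Sum.inl a)) + ∑ l, F (σ (Sum.inr l)) := by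
  rw [← Equiv.sum_comp σ F, Fintype.sum_sum_type]

end ELI

theorem t_ELI : M_ELI := by
  intro hM e n r K _ _ f x hx hf v σ hσ m
  obtain ⟨m1, m2, m3, m4, m5⟩ := hM (e := e) x hx
  obtain ⟨v1, v2, v3, v4⟩ := m5 v
  obtain ⟨hne, hord⟩ := hσ
  set w := wt x v with hw
  set G : Matrix (Fin r) (Fin r) K := Matrix.of fun i j : Fin r => grad x (f i) (σ (Sum.inl j))
    with hG
  have hdet : G.det = minor f x σ := rfl
  set g : Fin r → Fin e → K := fun i l => grad x (f i) (σ (Sum.inr l)) with hg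
  have hrel : ∀ i, ∑ a, G i a • dlog (x (σ (Sum.inl a))) +
      ∑ l, g i l • dlog (rest x σ l) = 0 := by
    intro i
    have h := m4 (f i) (hf i)
    rw [ELI.sum_sigma σ] at h
    exact h
  have hel := ELI.elim G g (fun a => dlog (x (σ (Sum.inl a)))) (fun l => dlog (rest x σ l)) hrel
  have hge : ∀ a l, v.Ge (psi f w) (G.updateCol a fun i => g i l).det := by
    intro a l
    rw [← Matrix.det_transpose]
    refine Ge.det_cols (fun i => minOn (f i) w) fun j i => ?_
    rw [Matrix.transpose_apply, Matrix.updateCol_apply]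
    split_ifs
    · exact v3 (f i) _
    · exact v3 (f i) _
  refine ⟨fun l => (m (σ (Sum.inr l)) : K) + ∑ a, (m (σ (Sum.inl a)) : K) *
    (G.det⁻¹ * (-(G.updateCol a fun i => g i l).det)), fun l => ?_, ?_⟩
  · refine Ge.add (Ge.intCast v _) (Ge.sum _ _ fun a _ => Ge.mul_left (Ge.intCast v _) ?_)
    have h1 := Ge.mul (Ge.inv' v G.det) (Ge.neg (hge a l))
    rw [hdet, hord, neg_add_cancel] at h1
    exact h1
  · rw [m3 m, ELI.sum_sigma σ]
    have h2 : ∀ a, (m (σ (Sum.inl a)) : K) • dlog (x (σ (Sum.inl a))) =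
        ∑ l, ((m (σ (Sum.inl a)) : K) * (G.det⁻¹ * (-(G.updateCol a fun i => g i l).det))) •
          dlog (rest x σ l) := by
      intro a
      have h3 : dlog (x (σ (Sum.inl a))) = G.det⁻¹ • (G.det • dlog (x (σ (Sum.inl a)))) := by
        rw [smul_smul, inv_mul_cancel₀ (by rw [hdet]; exact hne), one_smul]
      rw [h3, hel a, Finset.smul_sum, Finset.smul_sum]
      refine Finset.sum_congr rfl fun l _ => ?_
      rw [smul_smul, smul_smul, mul_assoc]
    rw [Finset.sum_congr rfl fun a _ => h2 a, Finset.sum_comm, add_comm,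
      ← Finset.sum_add_distrib]
    refine Finset.sum_congr rfl fun l _ => ?_
    rw [add_smul, Finset.sum_smul]
    rfl

end

end MMCI
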