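import Pool.Agent.MMCI.StB
import Pool.Agent.MMCI.Tools
import Pool.Agent.MldGeo.Ord

/-!
# Module EQ0a: valuations of weight zero, the lower bound and the first implication
-/

set_option autoImplicit false

namespace MMCI

open MldGeo MldGeo.DivVal

noncomputable section

namespace EQ0a

/-- a matrix whose determinant is a unit has rows independent modulo the maximal ideal -/
theorem indep_of_det {e m : ℕ} {K : Type} [Field K] [Algebra ℂ K] (v : DivVal e K)
    (M : Matrix (Fin m) (Fin m) K) (h0 : ∀ i j, v.Ge 0 (M i j)) (hd : M.det ≠ 0)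
    (hd0 : v.ord M.det = 0) : IndepMod v (fun i j => M i j) := by
  intro α hα hs i
  have hadj : ∀ i j, v.Ge 0 (M.adjugate i j) := by
    intro i j
    rw [Matrix.adjugate_apply]
    refine Ge.det fun a b => ?_
    rw [Matrix.updateRow_apply]
    split_ifs with h
    · by_cases hb : b = i
      · rw [hb, Pi.single_eq_same]
        exact Ge.one v
      · rw [Pi.single_eq_of_ne hb]
        exact Ge.zero v 0
    · exact h0 a b
  have key : Matrix.vecMul (Matrix.vecMul α M) M.adjugate = M.det • α := by
    rw [Matrix.vecMul_vecMul, Matrix.mul_adjugate, Matrix.vecMul_smul, Matrix.vecMul_one]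
  have key2 : M.det * α i = ∑ j, (∑ l, α l * M l j) * M.adjugate j i := by
    have h1 := congrFun key i
    rw [Pi.smul_apply, smul_eq_mul] at h1
    rw [← h1]
    rfl
  have h2 : v.Ge 1 (M.det * α i) := by
    rw [key2]
    exact Ge.sum _ _ fun j _ => (hs j).mul_right (hadj j i)
  by_cases hz : α i = 0
  · rw [hz]
    exact Ge.zero v 1
  · have h3 := h2.le (mul_ne_zero hd hz)
    rw [v.ord_mul _ _ hd hz, hd0, zero_add] at h3
    exact Ge.of_le h3

theorem mon_single {n : ℕ} {K : Type} [Field K] (x : Fin n → K) (j : Fin n) :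
    mon x (Pi.single j 1) = x j := by
  unfold mon
  rw [Finset.prod_eq_single j]
  · rw [Pi.single_eq_same, zpow_one]
  · intro b _ hb
    rw [Pi.single_eq_of_ne hb, zpow_zero]
  · intro h
    exact absurd (Finset.mem_univ j) h

end EQ0a

theorem t_EQ0a : M_EQ0a := by
  intro _ hBAS hIND hFRD m n r K _ _ f x hR v σ hU hw
  have hne := hR.ne
  have hdim : Algebra.trdeg ℂ K = ((m + 1 : ℕ) : Cardinal) := hR.dim
  have hdl : dlogs (rest x σ) ≠ 0 := (hBAS f x hne hR.gen hR.dim hR.zero σ hU.1).2.1
  have hane : ∀ i, rest x σ i ≠ 0 := fun i => hne _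
  have hord : ∀ i, v.ord (rest x σ i) = 0 := fun i => congrFun hw (σ (Sum.inr i))
  obtain ⟨⟨t, u, hfr⟩, _⟩ := cFRA v
  obtain ⟨c, hc0, hc1, hc2, _, hc4⟩ := hFRD hdim v t u hfr (rest x σ) hane
  obtain ⟨hdet, hlog⟩ := hc4 hdl
  have hcol : ∀ i, v.Ge 1 (Matrix.of c i 0) := by
    intro i
    have h1 := hc1 i
    rw [hord i, Int.cast_zero, sub_zero] at h1
    exact h1
  have hge0 : ∀ i j, v.Ge 0 (Matrix.of c i j) := fun i j => hc0 i j
  refine ⟨?_, ?_⟩
  · rw [hlog]
    exact (Ge.det_col hge0 0 hcol).le hdet
  · intro h1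
    rw [hlog] at h1
    have hex : ∃ i0 : Fin (m + 1), ¬ v.Ge 1
        ((Matrix.of c).submatrix i0.succAbove Fin.succ).det := by
      by_contra hcon
      have hcon' := fun i => not_not.1 (not_exists.1 hcon i)
      have h2 : v.Ge 2 (Matrix.of c).det := by
        rw [Matrix.det_succ_column_zero]
        refine Ge.sum _ _ fun i _ => ?_
        have h3 : v.Ge (1 + 1) (Matrix.of c i 0 *
            ((Matrix.of c).submatrix i.succAbove Fin.succ).det) := (hcol i).mul (hcon' i)
        have h4 : v.Ge 0 ((-1 : K) ^ (i : ℕ)) := by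
          rcases neg_one_pow_eq_or K (i : ℕ) with h | h
          · rw [h]; exact Ge.one v
          · rw [h]; exact (Ge.one v).neg
        have h5 := h4.mul_left h3
        rw [← mul_assoc] at h5
        exact h5
      have h3 := h2.le hdet
      omega
    obtain ⟨i0, hi0⟩ := hex
    have hM0 : ∀ i j, v.Ge 0 ((Matrix.of c).submatrix i0.succAbove Fin.succ i j) :=
      fun i j => hc0 _ _
    have hMdet : v.Ge 0 ((Matrix.of c).submatrix i0.succAbove Fin.succ).det := Ge.det hM0
    have hMne : ((Matrix.of c).submatrix i0.succAbove Fin.succ).det ≠ 0 := by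
      intro h
      exact hi0 (by rw [h]; exact Ge.zero v 1)
    have hMord : v.ord ((Matrix.of c).submatrix i0.succAbove Fin.succ).det = 0 := by
      have h2 := hMdet.le hMne
      by_contra h3
      exact hi0 (Ge.of_le (by omega))
    have hind := EQ0a.indep_of_det v _ hM0 hMne hMord
    have hres := hIND hdim v t u hfr (fun l : Fin m => rest x σ (i0.succAbove l))
      (fun l => c (i0.succAbove l)) (fun l => ⟨hane _, hord _⟩) (fun l j => hc0 _ _)
      (fun l => hc2 _) hind
    refine ⟨fun l : Fin m => Pi.single (σ (Sum.inr (i0.succAbove l))) 1, ?_, ?_⟩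
    · intro l
      rw [hw]
      unfold pair
      simp
    · have h5 : (fun l : Fin m => mon x (Pi.single (σ (Sum.inr (i0.succAbove l))) 1)) =
          fun l : Fin m => rest x σ (i0.succAbove l) := by
        funext l
        exact EQ0a.mon_single x _
      show ResIndep v (fun l : Fin m => mon x (Pi.single (σ (Sum.inr (i0.succAbove l))) 1))
      rw [h5]
      exact hres

end

end MMCI
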