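import Pool.Agent.MMCI.StB
import Pool.Agent.MMCI.Tools
import Pool.Agent.MldGeo.Ord

/-!
# EQ0b: valuations of weight zero with many independent residues
-/

namespace MMCI

open MldGeo MldGeo.DivVal

noncomputable section

namespace EQ0b

variable {e n r m : ℕ} {K : Type} [Field K] [Algebra ℂ K]

/-! ### polynomials in `z` with coefficients in `ℂ[ζ]` -/

/-- the value of a polynomial in `Z` over `ℂ[ζ]` -/
def evP (z : K) (ζ : Fin m → K) : Polynomial (MvPolynomial (Fin m) ℂ) →ₐ[ℂ] K :=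
  Polynomial.eval₂AlgHom (MvPolynomial.aeval ζ) z fun _ => Commute.all _ _

theorem evP_apply (z : K) (ζ : Fin m → K) (P : Polynomial (MvPolynomial (Fin m) ℂ)) :
    evP z ζ P = P.eval₂ (MvPolynomial.aeval ζ : MvPolynomial (Fin m) ℂ →ₐ[ℂ] K).toRingHom z := rfl

theorem evP_C (z : K) (ζ : Fin m → K) (c : MvPolynomial (Fin m) ℂ) :
    evP z ζ (Polynomial.C c) = MvPolynomial.aeval ζ c := by
  rw [evP_apply, Polynomial.eval₂_C]
  rfl

theorem evP_monomial (z : K) (ζ : Fin m → K) (k : ℕ) (c : MvPolynomial (Fin m) ℂ) :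
    evP z ζ (Polynomial.monomial k c) = MvPolynomial.aeval ζ c * z ^ k := by
  rw [evP_apply, Polynomial.eval₂_monomial]
  rfl

theorem evP_finSucc (z : K) (ζ : Fin m → K) (p : MvPolynomial (Fin (m + 1)) ℂ) :
    evP z ζ (MvPolynomial.finSuccEquiv ℂ m p) =
      MvPolynomial.aeval (Fin.cons z ζ : Fin (m + 1) → K) p := by
  have h : (evP z ζ).comp (MvPolynomial.finSuccEquiv ℂ m).toAlgHom =
      MvPolynomial.aeval (Fin.cons z ζ : Fin (m + 1) → K) := by
    apply MvPolynomial.algHom_ext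
    intro i
    refine Fin.cases ?_ (fun i => ?_) i
    · show evP z ζ (MvPolynomial.finSuccEquiv ℂ m (MvPolynomial.X 0)) = _
      rw [MvPolynomial.finSuccEquiv_X_zero, MvPolynomial.aeval_X, evP_apply, Polynomial.eval₂_X]
      rfl
    · show evP z ζ (MvPolynomial.finSuccEquiv ℂ m (MvPolynomial.X i.succ)) = _
      rw [MvPolynomial.finSuccEquiv_X_succ, MvPolynomial.aeval_X, evP_C, MvPolynomial.aeval_X]
      rfl
  have h2 := congrArg (fun φ : MvPolynomial (Fin (m + 1)) ℂ →ₐ[ℂ] K => φ p) h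
  exact h2

theorem evP_ge (v : DivVal e K) {z : K} {ζ : Fin m → K} (hz : v.Ge 0 z) (hζ : ∀ l, v.Ge 0 (ζ l))
    (P : Polynomial (MvPolynomial (Fin m) ℂ)) : v.Ge 0 (evP z ζ P) := by
  obtain ⟨p, rfl⟩ := (MvPolynomial.finSuccEquiv ℂ m).surjective P
  rw [evP_finSucc]
  apply Ge.aeval
  intro i
  refine Fin.cases ?_ (fun i => ?_) i
  · exact hz
  · exact hζ i

theorem ord_zero_of {v : DivVal e K} {a : K} (h : v.Ge 0 a) (h1 : ¬ v.Ge 1 a) :
    a ≠ 0 ∧ v.ord a = 0 := by
  have ha : a ≠ 0 := fun h' => h1 (Or.inl h')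
  refine ⟨ha, ?_⟩
  have h2 := h.le ha
  have h3 : ¬ 1 ≤ v.ord a := fun h' => h1 (Or.inr h')
  omega

/-- The differential of a value. -/
theorem d_aeval (ζ : Fin m → K) (c : MvPolynomial (Fin m) ℂ) :
    KaehlerDifferential.D ℂ K (MvPolynomial.aeval ζ c) ∈
      Submodule.span K (Set.range fun l => KaehlerDifferential.D ℂ K (ζ l)) := by
  induction c using MvPolynomial.induction_on with
  | C a =>
    rw [MvPolynomial.aeval_C, Derivation.map_algebraMap]
    exact Submodule.zero_mem _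
  | add p q hp hq =>
    rw [map_add, map_add]
    exact Submodule.add_mem _ hp hq
  | mul_X p i hp =>
    rw [map_mul, MvPolynomial.aeval_X, Derivation.leibniz]
    exact Submodule.add_mem _
      (Submodule.smul_mem _ _ (Submodule.subset_span ⟨i, rfl⟩)) (Submodule.smul_mem _ _ hp)

theorem d_evP (z : K) (ζ : Fin m → K) (P : Polynomial (MvPolynomial (Fin m) ℂ)) :
    KaehlerDifferential.D ℂ K (evP z ζ P) -
        evP z ζ (Polynomial.derivative P) • KaehlerDifferential.D ℂ K z ∈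
      Submodule.span K (Set.range fun l => KaehlerDifferential.D ℂ K (ζ l)) := by
  induction P using Polynomial.induction_on' with
  | add p q hp hq =>
    have h := Submodule.add_mem _ hp hq
    rw [map_add, map_add, Polynomial.derivative_add, map_add, add_smul]
    have e1 : ∀ a b c d : Ω[K⁄ℂ], a + b - (c + d) = (a - c) + (b - d) := by
      intro a b c d
      abel
    rw [e1]
    exact h
  | monomial k c =>
    rw [evP_monomial, Derivation.leibniz, Polynomial.derivative_monomial, evP_monomial,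
      Derivation.leibniz_pow, map_mul, map_natCast]
    have e1 : MvPolynomial.aeval ζ c • k • z ^ (k - 1) • KaehlerDifferential.D ℂ K z =
        (MvPolynomial.aeval ζ c * (k : K) * z ^ (k - 1)) • KaehlerDifferential.D ℂ K z := by
      rw [← Nat.cast_smul_eq_nsmul K, smul_smul, smul_smul, mul_assoc]
    rw [e1, add_sub_cancel_left]
    exact Submodule.smul_mem _ _ (d_aeval ζ c)

/-! ### dependence of the residues -/

theorem dependent (hd : Algebra.trdeg ℂ K = ((m + 1 : ℕ) : Cardinal)) (v : DivVal (m + 1) K)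
    {z : K} {ζ : Fin m → K} (hz : v.Ge 0 z) (hζ : ∀ l, v.Ge 0 (ζ l)) :
    ∃ P : Polynomial (MvPolynomial (Fin m) ℂ), P ≠ 0 ∧ v.Ge 1 (evP z ζ P) := by
  by_contra hno
  push Not at hno
  have hres : ∀ p : MvPolynomial (Fin (m + 1)) ℂ, p ≠ 0 →
      MvPolynomial.aeval (Fin.cons z ζ : Fin (m + 1) → K) p ≠ 0 ∧
        v.ord (MvPolynomial.aeval (Fin.cons z ζ : Fin (m + 1) → K) p) = 0 := by
    intro p hp
    have h1 : MvPolynomial.finSuccEquiv ℂ m p ≠ 0 := by
      intro h
      apply hp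
      have h2 := (MvPolynomial.finSuccEquiv ℂ m).injective (h.trans (map_zero _).symm)
      exact h2
    rw [← evP_finSucc]
    exact ord_zero_of (evP_ge v hz hζ _) (hno _ h1)
  let v' : DivVal (m + 1 + 1) K :=
    { ord := v.ord
      ord_zero := v.ord_zero
      ord_mul := v.ord_mul
      ord_add := v.ord_add
      ord_const := v.ord_const
      unif := v.unif
      res := ⟨Fin.cons z ζ, hres⟩ }
  obtain ⟨t, ht, ht1⟩ := v.unif
  have h1 := (cFRA v').2 t (Fin.cons z ζ) ⟨ht, ht1, hres⟩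
  have h2 := h1.cardinalMk_le_trdeg
  rw [hd, Cardinal.mk_fin] at h2
  have h3 : m + 1 + 1 ≤ m + 1 := by exact_mod_cast h2
  omega

/-- The polynomial of minimal degree. -/
theorem exists_min (hd : Algebra.trdeg ℂ K = ((m + 1 : ℕ) : Cardinal)) (v : DivVal (m + 1) K)
    {z : K} {ζ : Fin m → K} (hz : v.Ge 0 z) (hζ : ∀ l, v.Ge 0 (ζ l)) (hR : ResIndep v ζ) :
    ∃ P : Polynomial (MvPolynomial (Fin m) ℂ), P ≠ 0 ∧ v.Ge 1 (evP z ζ P) ∧
      evP z ζ (Polynomial.derivative P) ≠ 0 ∧ v.ord (evP z ζ (Polynomial.derivative P)) = 0 := by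
  classical
  have hex : ∃ d : ℕ, ∃ P : Polynomial (MvPolynomial (Fin m) ℂ), P ≠ 0 ∧ v.Ge 1 (evP z ζ P) ∧
      P.natDegree = d := by
    obtain ⟨P, h1, h2⟩ := dependent hd v hz hζ
    exact ⟨_, P, h1, h2, rfl⟩
  obtain ⟨P, h1, h2, h3⟩ := Nat.find_spec hex
  refine ⟨P, h1, h2, ord_zero_of (evP_ge v hz hζ _) ?_⟩
  intro h4
  have h5 : P.natDegree ≠ 0 := by
    intro h5
    obtain ⟨c, rfl⟩ := Polynomial.natDegree_eq_zero.1 h5
    have hc : c ≠ 0 := by
      rintro rfl
      exact h1 (by rw [Polynomial.C_0])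
    rw [evP_C] at h2
    obtain ⟨h6, h7⟩ := hR c hc
    have h8 := h2.le h6
    omega
  have h6 : Polynomial.derivative P ≠ 0 := by
    intro h6
    exact h5 (Polynomial.derivative_eq_zero.1 h6)
  have h7 := Polynomial.natDegree_derivative_lt h5
  have h8 := Nat.find_min' hex ⟨Polynomial.derivative P, h6, h4, rfl⟩
  omega

/-! ### the ring of the monomials -/

/-- the ring generated by the coordinates and their inverses -/
def B0 (x : Fin n → K) : Subalgebra ℂ K :=
  Algebra.adjoin ℂ (Set.range x ∪ Set.range fun j => (x j)⁻¹)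

theorem x_mem (x : Fin n → K) (j : Fin n) : x j ∈ B0 x :=
  Algebra.subset_adjoin (Or.inl ⟨j, rfl⟩)

theorem inv_mem (x : Fin n → K) (j : Fin n) : (x j)⁻¹ ∈ B0 x :=
  Algebra.subset_adjoin (Or.inr ⟨j, rfl⟩)

theorem zpow_mem (x : Fin n → K) (j : Fin n) (k : ℤ) : x j ^ k ∈ B0 x := by
  cases k with
  | ofNat k =>
    rw [Int.ofNat_eq_natCast, zpow_natCast]
    exact pow_mem (x_mem x j) k
  | negSucc k =>
    rw [zpow_negSucc, ← inv_pow]
    exact pow_mem (inv_mem x j) _

theorem mon_mem (x : Fin n → K) (q : Fin n → ℤ) : mon x q ∈ B0 x :=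
  prod_mem fun j _ => zpow_mem x j (q j)

theorem grad_mem (x : Fin n → K) (f : Laurent n) (j : Fin n) : grad x f j ∈ B0 x := by
  unfold grad Finsupp.sum
  refine sum_mem fun q _ => mul_mem (mul_mem (Subalgebra.algebraMap_mem _ _) ?_) (mon_mem x q)
  exact intCast_mem _ _

theorem B0_ge {x : Fin n → K} {v : DivVal e K} (h : wt x v = 0) (b : K) (hb : b ∈ B0 x) :
    v.Ge 0 b := by
  have h0 : ∀ j, v.ord (x j) = 0 := fun j => congrFun h j
  induction hb using Algebra.adjoin_induction with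
  | mem a ha =>
    rcases ha with ⟨j, rfl⟩ | ⟨j, rfl⟩
    · exact Or.inr (h0 j).ge
    · right
      show 0 ≤ v.ord (x j)⁻¹
      rw [ord_inv, h0 j, neg_zero]
  | algebraMap c => exact Ge.const v c
  | add a b _ _ ha hb => exact ha.add hb
  | mul a b _ _ ha hb => exact ha.mul_left hb

theorem minOn_zero (f : Laurent n) : minOn f 0 = 0 := by
  unfold minOn
  by_cases h : f.coeff.support.Nonempty
  · have h1 : (fun q => pair (0 : Fin n → ℤ) q) '' (f.coeff.support : Set (Fin n → ℤ)) = {0} := by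
      ext a
      constructor
      · rintro ⟨q, _, rfl⟩
        show pair 0 q = 0
        unfold pair
        simp
      · rintro rfl
        obtain ⟨q, hq⟩ := h
        refine ⟨q, hq, ?_⟩
        show pair 0 q = 0
        unfold pair
        simp
    rw [h1, csInf_singleton]
  · rw [Finset.not_nonempty_iff_eq_empty] at h
    rw [h]
    simp

theorem D_mem (x : Fin n → K) (hx : ∀ j, x j ≠ 0) (B : Subalgebra ℂ K) (hB : B0 x ≤ B)
    (D : Derivation ℂ K K) (δ : Fin n → K) (hδ : ∀ j, δ j ∈ B) (hD : ∀ j, D (x j) = δ j * x j)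
    (b : K) (hb : b ∈ B0 x) : D b ∈ B := by
  induction hb using Algebra.adjoin_induction with
  | mem a ha =>
    rcases ha with ⟨j, rfl⟩ | ⟨j, rfl⟩
    · rw [hD]
      exact mul_mem (hδ j) (hB (x_mem x j))
    · show D (x j)⁻¹ ∈ B
      have h1 : D (x j)⁻¹ = - (δ j * (x j)⁻¹) := by
        rw [Derivation.leibniz_inv, hD, smul_eq_mul, neg_mul]
        have := hx j
        congr 1
        rw [pow_two]
        field_simp
      rw [h1]
      exact neg_mem (mul_mem (hδ j) (hB (inv_mem x j)))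
  | algebraMap c =>
    rw [Derivation.map_algebraMap]
    exact zero_mem _
  | add a b _ _ ha hb =>
    rw [map_add]
    exact add_mem ha hb
  | mul a b ha' hb' ha hb =>
    rw [Derivation.leibniz, smul_eq_mul, smul_eq_mul]
    exact add_mem (mul_mem (hB ha') hb) (mul_mem (hB hb') ha)

theorem frac (x : Fin n → K) (hgen : IntermediateField.adjoin ℂ (Set.range x) = ⊤) (a : K) :
    ∃ p ∈ B0 x, ∃ q ∈ B0 x, q ≠ 0 ∧ a * q = p := by
  have hle : Algebra.adjoin ℂ (Set.range x) ≤ B0 x :=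
    Algebra.adjoin_mono Set.subset_union_left
  have ha : a ∈ IntermediateField.adjoin ℂ (Set.range x) := by
    rw [hgen]
    trivial
  obtain ⟨p, hp, q, hq, rfl⟩ := IntermediateField.mem_adjoin_iff_div.1 ha
  by_cases h : q = 0
  · refine ⟨0, zero_mem _, 1, one_mem _, one_ne_zero, ?_⟩
    rw [h, div_zero, zero_mul]
  · exact ⟨p, hle hp, q, hle hq, h, div_mul_cancel₀ p h⟩

/-! ### the form -/

section Form

variable (ζ : Fin m → K)

/-- the wedge product with the differentials of `ζ` -/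
def Lw : Ω[K⁄ℂ] →ₗ[K] Forms (m + 1) K where
  toFun y := exteriorPower.ιMulti K (m + 1)
    (Fin.cons y fun l => KaehlerDifferential.D ℂ K (ζ l) : Fin (m + 1) → Ω[K⁄ℂ])
  map_add' a b := (exteriorPower.ιMulti K (m + 1) (M := Ω[K⁄ℂ])).toMultilinearMap.cons_add _ a b
  map_smul' c a := (exteriorPower.ιMulti K (m + 1) (M := Ω[K⁄ℂ])).toMultilinearMap.cons_smul _ c a

theorem Lw_apply (y : Ω[K⁄ℂ]) : Lw ζ y = exteriorPower.ιMulti K (m + 1)
    (Fin.cons y fun l => KaehlerDifferential.D ℂ K (ζ l) : Fin (m + 1) → Ω[K⁄ℂ]) := rfl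

theorem Lw_span {y : Ω[K⁄ℂ]} (hy : y ∈ Submodule.span K
    (Set.range fun l => KaehlerDifferential.D ℂ K (ζ l))) : Lw ζ y = 0 := by
  have h : Submodule.span K (Set.range fun l => KaehlerDifferential.D ℂ K (ζ l)) ≤
      LinearMap.ker (Lw ζ) := by
    rw [Submodule.span_le]
    rintro _ ⟨l, rfl⟩
    show Lw ζ (KaehlerDifferential.D ℂ K (ζ l)) = 0
    rw [Lw_apply]
    refine (exteriorPower.ιMulti K (m + 1) (M := Ω[K⁄ℂ])).map_eq_zero_of_eq _
      (i := 0) (j := l.succ) ?_ (Fin.succ_ne_zero l).symm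
    rw [Fin.cons_zero, Fin.cons_succ]
  exact h hy

theorem dlogs_cons (z : K) : dlogs (Fin.cons z ζ : Fin (m + 1) → K) =
    (∏ l, (ζ l)⁻¹) • Lw ζ (dlog z) := by
  have h1 : (fun i => dlog ((Fin.cons z ζ : Fin (m + 1) → K) i)) =
      fun i => (Fin.cons 1 (fun l => (ζ l)⁻¹) : Fin (m + 1) → K) i •
        (Fin.cons (dlog z) (fun l => KaehlerDifferential.D ℂ K (ζ l)) : Fin (m + 1) → Ω[K⁄ℂ]) i := by
    funext i
    refine Fin.cases ?_ (fun i => ?_) i
    · rw [Fin.cons_zero, Fin.cons_zero, Fin.cons_zero, one_smul]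
    · rw [Fin.cons_succ, Fin.cons_succ, Fin.cons_succ]
      rfl
  have h2 := (exteriorPower.ιMulti K (m + 1) (M := Ω[K⁄ℂ])).toMultilinearMap.map_smul_univ
    (Fin.cons 1 (fun l => (ζ l)⁻¹) : Fin (m + 1) → K)
    (Fin.cons (dlog z) (fun l => KaehlerDifferential.D ℂ K (ζ l)) : Fin (m + 1) → Ω[K⁄ℂ])
  unfold dlogs
  rw [h1]
  refine h2.trans ?_
  rw [Fin.prod_univ_succ, Fin.cons_zero, one_mul]
  rfl

end Form

/-- The order of the form. -/
theorem ord_form (v : DivVal (m + 1) K)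
    {z p q : K} {ζ : Fin m → K} (hz : z ≠ 0) (hz0 : v.ord z = 0) (hζ : ∀ l, ζ l ≠ 0)
    (hζ0 : ∀ l, v.ord (ζ l) = 0) (hp : p ≠ 0) (hp1 : v.ord p = 1) (hq : q ≠ 0)
    (hq0 : v.ord q = 0) (hpq : KaehlerDifferential.D ℂ K p - q • KaehlerDifferential.D ℂ K z ∈
      Submodule.span K (Set.range fun l => KaehlerDifferential.D ℂ K (ζ l))) :
    ∃ g : K, g ≠ 0 ∧ v.ord g = 1 ∧ dlogs (Fin.cons z ζ : Fin (m + 1) → K) = g • frameForm p ζ := by
  have h1 := Lw_span ζ hpq
  rw [map_sub, map_smul, sub_eq_zero] at h1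
  have h2 : Lw ζ (dlog z) = (z⁻¹ * q⁻¹ * p) • Lw ζ (dlog p) := by
    unfold dlog
    rw [map_smul, map_smul, h1, smul_smul, smul_smul]
    congr 1
    field_simp
  refine ⟨(∏ l, (ζ l)⁻¹) * (z⁻¹ * q⁻¹ * p), ?_, ?_, ?_⟩
  · exact mul_ne_zero (Finset.prod_ne_zero_iff.2 fun l _ => inv_ne_zero (hζ l))
      (mul_ne_zero (mul_ne_zero (inv_ne_zero hz) (inv_ne_zero hq)) hp)
  · rw [v.ord_mul _ _ (Finset.prod_ne_zero_iff.2 fun l _ => inv_ne_zero (hζ l))
      (mul_ne_zero (mul_ne_zero (inv_ne_zero hz) (inv_ne_zero hq)) hp),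
      v.ord_mul _ _ (mul_ne_zero (inv_ne_zero hz) (inv_ne_zero hq)) hp,
      v.ord_mul _ _ (inv_ne_zero hz) (inv_ne_zero hq), ord_inv, ord_inv, hz0, hq0, hp1,
      ord_prod v _ _ fun l _ => inv_ne_zero (hζ l)]
    rw [Finset.sum_eq_zero]
    · rfl
    · intro l _
      rw [ord_inv, hζ0, neg_zero]
  · rw [dlogs_cons, h2, smul_smul]
    rfl

end EQ0b

open EQ0b in
theorem t_EQ0b : M_EQ0b := by
  intro hMON hBAS hSOL hDK hLOB hEQ0c m n r K _ _ f x hS v σ hU hw hBig
  obtain ⟨i0, hR⟩ := hEQ0c f x hS v σ hU hw hBig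
  have hd : Algebra.trdeg ℂ K = ((m + 1 : ℕ) : Cardinal) := hS.dim
  obtain ⟨hAI, hne, hDer⟩ := hBAS f x hS.ne hS.gen hd hS.zero σ hU.1
  have h0 : ∀ j, v.ord (x j) = 0 := fun j => congrFun hw j
  set ζ : Fin m → K := fun l => rest x σ (i0.succAbove l) with hζdef
  set z : K := rest x σ i0 with hzdef
  have hz : z ≠ 0 := hS.ne _
  have hz0 : v.ord z = 0 := h0 _
  have hζ : ∀ l, ζ l ≠ 0 := fun l => hS.ne _
  have hζ0 : ∀ l, v.ord (ζ l) = 0 := fun l => h0 _
  obtain ⟨P, hP, hP1, hq, hq0⟩ := exists_min hd v (Or.inr hz0.ge) (fun l => Or.inr (hζ0 l).ge) hR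
  set p : K := evP z ζ P with hpdef
  set q : K := evP z ζ (Polynomial.derivative P) with hqdef
  -- `p` is not zero
  have hcons : (Fin.cons z ζ : Fin (m + 1) → K) =
      rest x σ ∘ (Fin.cons i0 i0.succAbove : Fin (m + 1) → Fin (m + 1)) := by
    funext i
    refine Fin.cases ?_ (fun i => ?_) i
    · rfl
    · rfl
  have hinj : Function.Injective (Fin.cons i0 i0.succAbove : Fin (m + 1) → Fin (m + 1)) := by
    intro a b
    refine Fin.cases ?_ (fun a => ?_) a <;> refine Fin.cases ?_ (fun b => ?_) b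
    · exact fun _ => rfl
    · intro h
      rw [Fin.cons_zero, Fin.cons_succ] at h
      exact absurd h.symm (Fin.succAbove_ne _ _)
    · intro h
      rw [Fin.cons_zero, Fin.cons_succ] at h
      exact absurd h (Fin.succAbove_ne _ _)
    · intro h
      rw [Fin.cons_succ, Fin.cons_succ] at h
      rw [Fin.succAbove_right_injective h]
  have hAI2 : AlgebraicIndependent ℂ (Fin.cons z ζ : Fin (m + 1) → K) := by
    rw [hcons]
    exact hAI.comp _ hinj
  have hp : p ≠ 0 := by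
    intro h
    obtain ⟨p', hp'⟩ := (MvPolynomial.finSuccEquiv ℂ m).surjective P
    rw [hpdef, ← hp', evP_finSucc] at h
    have h1 : p' = 0 := by
      have h2 : AlgebraicIndependent ℂ (Fin.cons z ζ : Fin (m + 1) → K) := hAI2
      rw [algebraicIndependent_iff] at h2
      exact h2 p' h
    apply hP
    rw [← hp', h1, map_zero]
  -- the ring
  obtain ⟨B, hBmem, hB0, hBge, hBinv, hBD⟩ := hLOB v (B0 x) fun b hb => B0_ge hw b hb
  have hzB : z ∈ B0 x := x_mem x _
  have hζB : ∀ l, ζ l ∈ B0 x := fun l => x_mem x _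
  have hevB : ∀ Q, evP z ζ Q ∈ B0 x := by
    intro Q
    obtain ⟨Q', rfl⟩ := (MvPolynomial.finSuccEquiv ℂ m).surjective Q
    rw [evP_finSucc]
    have h1 : (Set.range (Fin.cons z ζ : Fin (m + 1) → K)) ⊆ (B0 x : Set K) := by
      rintro _ ⟨i, rfl⟩
      refine Fin.cases ?_ (fun i => ?_) i
      · exact hzB
      · exact hζB i
    have h2 : Algebra.adjoin ℂ (Set.range (Fin.cons z ζ : Fin (m + 1) → K)) ≤ B0 x :=
      Algebra.adjoin_le h1
    apply h2
    rw [Algebra.adjoin_range_eq_range_aeval]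
    exact ⟨Q', rfl⟩
  -- the derivation
  have hzq : z * q ≠ 0 := mul_ne_zero hz hq
  have hzq0 : v.ord (z * q) = 0 := by
    rw [v.ord_mul _ _ hz hq, hz0, hq0, add_zero]
  have hc : (z * q)⁻¹ ∈ B := hBinv _ (hB0 (mul_mem hzB (hevB _))) hzq hzq0
  set j0 : Fin n := σ (Sum.inr i0) with hj0
  obtain ⟨δ, hδB, hδ0, hδ⟩ := hSOL f x v σ hU B (fun _ => 1)
    (fun i => - ((z * q)⁻¹ * grad x (f i) j0)) hBinv (fun i => ⟨one_ne_zero, by
      show v.ord 1 = minOn (f i) (wt x v)
      rw [hw, minOn_zero, ord_one], fun j => by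
      rw [div_one]
      exact hB0 (grad_mem x (f i) j), by
      rw [div_one]
      exact neg_mem (mul_mem hc (hB0 (grad_mem x (f i) j0)))⟩)
  obtain ⟨D, hD⟩ := hDer (fun j => δ j + if j = j0 then (z * q)⁻¹ else 0) (by
    intro i
    have h1 : ∀ j, (δ j + if j = j0 then (z * q)⁻¹ else 0) * grad x (f i) j =
        δ j * grad x (f i) j + if j = j0 then (z * q)⁻¹ * grad x (f i) j else 0 := by
      intro j
      split_ifs
      · ring
      · ring
    rw [Finset.sum_congr rfl fun j _ => h1 j, Finset.sum_add_distrib, hδ,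
      Finset.sum_ite_eq' Finset.univ j0, if_pos (Finset.mem_univ _)]
    ring)
  have hDB0 : ∀ b ∈ B0 x, D b ∈ B := by
    intro b hb
    refine D_mem x hS.ne B hB0 D _ (fun j => ?_) hD b hb
    refine add_mem (hδB j) ?_
    split_ifs
    · exact hc
    · exact zero_mem _
  have hDz : D z = q⁻¹ := by
    have h1 : D z = (δ j0 + if j0 = j0 then (z * q)⁻¹ else 0) * z := hD j0
    rw [h1, if_pos rfl, hδ0 i0, zero_add]
    field_simp
  have hDζ : ∀ l, D (ζ l) = 0 := by
    intro l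
    have h1 : D (ζ l) = (δ (σ (Sum.inr (i0.succAbove l))) +
      if σ (Sum.inr (i0.succAbove l)) = j0 then (z * q)⁻¹ else 0) * ζ l := hD _
    rw [h1, hδ0, if_neg, add_zero, zero_mul]
    intro h2
    have h3 := σ.injective h2
    exact Fin.succAbove_ne i0 l (Sum.inr.inj h3)
  have hspan := d_evP z ζ P
  have hDp : D p = 1 := by
    have h1 : ∀ y ∈ Submodule.span K (Set.range fun l => KaehlerDifferential.D ℂ K (ζ l)),
        D.liftKaehlerDifferential y = 0 := by
      intro y hy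
      have h2 : Submodule.span K (Set.range fun l => KaehlerDifferential.D ℂ K (ζ l)) ≤
          LinearMap.ker D.liftKaehlerDifferential := by
        rw [Submodule.span_le]
        rintro _ ⟨l, rfl⟩
        show D.liftKaehlerDifferential (KaehlerDifferential.D ℂ K (ζ l)) = 0
        rw [Derivation.liftKaehlerDifferential_comp_D, hDζ]
      exact h2 hy
    have h2 := h1 _ hspan
    rw [map_sub, map_smul, Derivation.liftKaehlerDifferential_comp_D,
      Derivation.liftKaehlerDifferential_comp_D, hDz, smul_eq_mul, sub_eq_zero] at h2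
    rw [h2]
    exact mul_inv_cancel₀ hq
  have hfr : ∀ a : K, ∃ p ∈ B, ∃ q ∈ B, q ≠ 0 ∧ a * q = p := by
    intro a
    obtain ⟨p', hp', q', hq', h1, h2⟩ := frac x hS.gen a
    exact ⟨p', hB0 hp', q', hB0 hq', h1, h2⟩
  have hp1 : v.ord p = 1 := by
    refine hDK hd v B hBge hfr D (hBD D hDB0) p (hB0 (hevB P)) hp ?_ ?_ ?_ ζ
      (fun l => hB0 (hζB l)) hR
    · have := hP1.le hp
      omega
    · rw [hDp]
      exact one_ne_zero
    · rw [hDp]
      exact ord_one v
  -- the form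
  obtain ⟨g, hg, hg1, hform⟩ := ord_form v hz hz0 hζ hζ0 hp hp1 hq hq0 hspan
  have hfrm := (cFRM hd v p ζ ⟨hp, hp1, hR⟩).2.2
  have hins : rest x σ = (Fin.cons z ζ : Fin (m + 1) → K) ∘ i0.cycleRange := by
    rw [Fin.cons_comp_cycleRange]
    exact (Fin.insertNth_self_removeNth i0 (rest x σ)).symm
  have hperm : dlogs (rest x σ) =
      Equiv.Perm.sign i0.cycleRange • dlogs (Fin.cons z ζ : Fin (m + 1) → K) := by
    have h1 := (exteriorPower.ιMulti K (m + 1) (M := Ω[K⁄ℂ])).map_perm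
      (fun i => dlog ((Fin.cons z ζ : Fin (m + 1) → K) i)) i0.cycleRange
    unfold dlogs
    rw [← h1]
    congr 1
    funext i
    show dlog (rest x σ i) = dlog ((Fin.cons z ζ : Fin (m + 1) → K) (i0.cycleRange i))
    rw [hins]
    rfl
  rw [hperm, hform]
  rcases Int.units_eq_one_or (Equiv.Perm.sign i0.cycleRange) with h1 | h1
  · rw [h1, one_smul, hfrm g hg, hg1]
  · have h2 : -(g • frameForm p ζ) = (-g) • frameForm p ζ := (neg_smul g _).symm
    rw [h1, Units.neg_smul, one_smul, h2, hfrm _ (neg_ne_zero.2 hg), ord_neg, hg1]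

end

end MMCI
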