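import Pool.Agent.MMCI.StB
import Pool.Agent.MMCI.Tools

/-!
# MMCI: valuations with a nonzero weight, the lower bound and the first implication
-/

set_option autoImplicit false

namespace MMCI

open MldGeo MldGeo.DivVal

noncomputable section

namespace EQ1a

variable {e : ℕ} {K : Type} [Field K] [Algebra ℂ K]

theorem ge_of_unit_mul {v : DivVal e K} {a b : K} {k : ℤ} (ha : a ≠ 0) (h0 : v.ord a = 0)
    (h : v.Ge k (a * b)) : v.Ge k b := by
  have h1 : b = a⁻¹ * (a * b) := by
    rw [← mul_assoc, inv_mul_cancel₀ ha, one_mul]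
  rw [h1]
  exact (Ge.inv ha h0).mul_left h

theorem ge_adjugate {v : DivVal e K} {k : ℕ} {M : Matrix (Fin k) (Fin k) K}
    (h : ∀ i j, v.Ge 0 (M i j)) (i j : Fin k) : v.Ge 0 (M.adjugate i j) := by
  rw [Matrix.adjugate_apply]
  refine Ge.det fun a b => ?_
  rw [Matrix.updateRow_apply]
  split_ifs
  · rw [Pi.single_apply]
    split_ifs
    · exact Ge.one v
    · exact Ge.zero v 0
  · exact h a b

/-- A row which is sent to the maximal ideal by an invertible matrix is in the maximal ideal. -/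
theorem ge_row {v : DivVal e K} {k : ℕ} {M : Matrix (Fin k) (Fin k) K}
    (h : ∀ i j, v.Ge 0 (M i j)) (hd : M.det ≠ 0) (hd0 : v.ord M.det = 0) (β : Fin k → K)
    (hβ : ∀ j, v.Ge 1 (∑ i, β i * M i j)) (i : Fin k) : v.Ge 1 (β i) := by
  refine ge_of_unit_mul hd hd0 ?_
  have h1 : (Matrix.vecMul (Matrix.vecMul β M) M.adjugate) i = M.det * β i := by
    rw [Matrix.vecMul_vecMul, Matrix.mul_adjugate, Matrix.vecMul_smul, Matrix.vecMul_one,
      Pi.smul_apply, smul_eq_mul]
  rw [← h1]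
  unfold Matrix.vecMul dotProduct
  refine Ge.sum _ _ fun j _ => ?_
  exact (hβ j).mul_right (ge_adjugate h j i)

/-- the exponents orthogonal to the orders -/
def Q {m n r : ℕ} (σ : Fin r ⊕ Fin (m + 1) ≃ Fin n) (y : Fin (m + 1) → ℤ) (i0 : Fin (m + 1))
    (l : Fin m) : Fin n → ℤ :=
  y i0 • Pi.single (σ (Sum.inr (i0.succAbove l))) (1 : ℤ) -
    y (i0.succAbove l) • Pi.single (σ (Sum.inr i0)) (1 : ℤ)

theorem sum_single {n : ℕ} {E : Type*} [AddCommGroup E] [Module K E] (a : Fin n) (w : Fin n → E) :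
    ∑ j, (((Pi.single a (1 : ℤ) : Fin n → ℤ) j : ℤ) : K) • w j = w a := by
  rw [Finset.sum_eq_single a]
  · simp
  · intro b _ hb
    simp [hb]
  · intro h
    exact absurd (Finset.mem_univ a) h

theorem sum_Q {m n r : ℕ} {E : Type*} [AddCommGroup E] [Module K E]
    (σ : Fin r ⊕ Fin (m + 1) ≃ Fin n) (y : Fin (m + 1) → ℤ) (i0 : Fin (m + 1))
    (l : Fin m) (w : Fin n → E) :
    ∑ j, ((Q σ y i0 l j : ℤ) : K) • w j =
      (y i0 : K) • w (σ (Sum.inr (i0.succAbove l))) -
        (y (i0.succAbove l) : K) • w (σ (Sum.inr i0)) := by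
  have h1 : ∀ j, ((Q σ y i0 l j : ℤ) : K) • w j =
      (y i0 : K) • (((Pi.single (σ (Sum.inr (i0.succAbove l))) (1 : ℤ) : Fin n → ℤ) j : ℤ) : K) •
        w j - (y (i0.succAbove l) : K) •
        (((Pi.single (σ (Sum.inr i0)) (1 : ℤ) : Fin n → ℤ) j : ℤ) : K) • w j := by
    intro j
    rw [smul_smul, smul_smul, ← sub_smul]
    congr 1
    simp [Q]
  rw [Finset.sum_congr rfl fun j _ => h1 j, Finset.sum_sub_distrib, ← Finset.smul_sum,
    ← Finset.smul_sum, sum_single, sum_single]

theorem pair_Q {m n r : ℕ} (σ : Fin r ⊕ Fin (m + 1) ≃ Fin n) (w : Fin n → ℤ)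
    (y : Fin (m + 1) → ℤ) (hy : ∀ i, y i = w (σ (Sum.inr i))) (i0 : Fin (m + 1)) (l : Fin m) :
    pair w (Q σ y i0 l) = 0 := by
  unfold pair
  have h1 : ∀ j, w j * Q σ y i0 l j =
      (if j = σ (Sum.inr (i0.succAbove l)) then y i0 * w j else 0) -
        (if j = σ (Sum.inr i0) then y (i0.succAbove l) * w j else 0) := by
    intro j
    simp only [Q, Pi.sub_apply, Pi.smul_apply, Pi.single_apply, smul_eq_mul]
    split_ifs <;> ring
  rw [Finset.sum_congr rfl fun j _ => h1 j, Finset.sum_sub_distrib, Finset.sum_ite_eq',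
    Finset.sum_ite_eq', if_pos (Finset.mem_univ _), if_pos (Finset.mem_univ _), ← hy, ← hy]
  ring

end EQ1a

open EQ1a in
theorem t_EQ1a : M_EQ1a := by
  intro hMON hBAS hIND hFRD m n r K _ _ f x hreg v σ hu hw
  have hne : ∀ i, rest x σ i ≠ 0 := fun i => hreg.ne _
  obtain ⟨-, hd, -⟩ := hBAS f x hreg.ne hreg.gen hreg.dim hreg.zero σ hu.1
  refine ⟨cFDL hreg.dim v (rest x σ) (Nat.succ_pos m) hne hd, ?_⟩
  intro hlog
  obtain ⟨⟨t, u, hF⟩, -⟩ := cFRA v
  obtain ⟨c, hc0, hc1, hc2, -, hc4⟩ := hFRD hreg.dim v t u hF (rest x σ) hne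
  obtain ⟨hdet, hdet0⟩ := hc4 hd
  rw [hlog] at hdet0
  have hM : ∀ i j, v.Ge 0 ((Matrix.of c) i j) := fun i j => hc0 i j
  set y : Fin (m + 1) → ℤ := fun i => v.ord (rest x σ i) with hy
  -- some order is not zero
  have hi0 : ∃ i0, y i0 ≠ 0 := by
    by_contra hcon
    push Not at hcon
    have h1 : v.Ge 1 (Matrix.of c).det := by
      refine Ge.det_col hM 0 fun i => ?_
      have h2 := hc1 i
      have h3 : v.ord (rest x σ i) = 0 := hcon i
      rw [h3, Int.cast_zero, sub_zero] at h2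
      exact h2
    have h2 := h1.le hdet
    omega
  obtain ⟨i0, hi0⟩ := hi0
  obtain ⟨hm0, -, hm2, -, hm4⟩ := hMON x hreg.ne
  obtain ⟨hm5, -, -, -⟩ := hm4 v
  have hpair : ∀ l, pair (wt x v) (Q σ y i0 l) = 0 := fun l =>
    pair_Q σ (wt x v) y (fun i => rfl) i0 l
  have hyi : (y i0 : K) ≠ 0 := by
    have : CharZero K := charZero_of_injective_algebraMap (algebraMap ℂ K).injective
    exact_mod_cast hi0
  refine ⟨fun l => Q σ y i0 l, hpair, ?_⟩
  refine hIND hreg.dim v t u hF (fun l => mon x (Q σ y i0 l))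
    (fun l j => (y i0 : K) * c (i0.succAbove l) j - (y (i0.succAbove l) : K) * c i0 j)
    (fun l => ⟨hm0 _, by rw [hm5, hpair]⟩) (fun l j => ?_) (fun l => ?_) ?_
  · exact ((Ge.intCast v _).mul_left (hc0 _ _)).sub ((Ge.intCast v _).mul_left (hc0 _ _))
  · rw [hm2, sum_Q]
    have h1 : dlog (x (σ (Sum.inr (i0.succAbove l)))) = _ := hc2 (i0.succAbove l)
    have h2 : dlog (x (σ (Sum.inr i0))) = _ := hc2 i0
    rw [h1, h2]
    simp only [smul_add, sub_smul, mul_smul, Finset.smul_sum, Finset.sum_sub_distrib]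
    abel
  · intro α hα0 hα1 l
    -- the row
    set β : Fin (m + 1) → K := i0.insertNth (-∑ l, α l * (y (i0.succAbove l) : K))
      (fun l => α l * (y i0 : K)) with hβ
    have hβ0 : β i0 = -∑ l, α l * (y (i0.succAbove l) : K) := by
      rw [hβ, Fin.insertNth_apply_same]
    have hβ1 : ∀ l, β (i0.succAbove l) = α l * (y i0 : K) := fun l => by
      rw [hβ, Fin.insertNth_apply_succAbove]
    have hsum : ∀ g : Fin (m + 1) → K, ∑ i, β i * g i =
        ∑ l, α l * ((y i0 : K) * g (i0.succAbove l) - (y (i0.succAbove l) : K) * g i0) := by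
      intro g
      rw [Fin.sum_univ_succAbove _ i0, hβ0, neg_mul, Finset.sum_mul, neg_add_eq_sub,
        ← Finset.sum_sub_distrib]
      refine Finset.sum_congr rfl fun l _ => ?_
      rw [hβ1]
      ring
    have hβge : ∀ i, v.Ge 0 (β i) := by
      intro i
      by_cases hi : i = i0
      · rw [hi, hβ0]
        exact (Ge.sum _ _ fun l _ => (hα0 l).mul_left (Ge.intCast v _)).neg
      · obtain ⟨l', rfl⟩ := Fin.exists_succAbove_eq hi
        rw [hβ1]
        exact (hα0 l').mul_left (Ge.intCast v _)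
    have hcol : ∀ j, v.Ge 1 (∑ i, β i * (Matrix.of c) i j) := by
      intro j
      refine Fin.cases ?_ (fun j => ?_) j
      · have h1 : ∑ i, β i * (Matrix.of c) i 0 =
            ∑ i, β i * (c i 0 - (v.ord (rest x σ i) : K)) + ∑ i, β i * (y i : K) := by
          rw [← Finset.sum_add_distrib]
          refine Finset.sum_congr rfl fun i _ => ?_
          simp only [Matrix.of_apply, hy]
          ring
        have h2 : ∑ i, β i * (y i : K) = 0 := by
          rw [hsum]
          refine Finset.sum_eq_zero fun l _ => ?_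
          ring
        rw [h1, h2, add_zero]
        exact Ge.sum _ _ fun i _ => (hβge i).mul_left (hc1 i)
      · have h1 := hα1 j
        have h2 := hsum fun i => c i j.succ
        simp only [Matrix.of_apply]
        rw [h2]
        exact h1
    have h3 := ge_row hM hdet hdet0.symm β hcol (i0.succAbove l)
    rw [hβ1, mul_comm] at h3
    exact ge_of_unit_mul hyi (ord_intCast v _) h3

end

end MMCI
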