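import Pool.Agent.MMCI.StB
import Pool.Agent.MMCI.Tools

/-!
# EQ1b: if the residues of monomials of order zero are independent then the form `dlogs (rest x σ)`
has order zero with respect to logarithmic forms
-/

namespace MMCI

open MldGeo

noncomputable section

namespace EQ1b

section Top

variable {K : Type} [Field K] {V : Type} [AddCommGroup V] [Module K V] {n : ℕ}

theorem iota_mat (e : Module.Basis (Fin n) K V) (c : Matrix (Fin n) (Fin n) K) (w : Fin n → V)
    (h : ∀ i, w i = ∑ j, c i j • e j) :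
    exteriorPower.ιMulti K n w = c.det • exteriorPower.ιMulti K n (e : Fin n → V) := by
  rw [FRM.iota_eq e w, Module.Basis.det_apply]
  have h1 : e.toMatrix w = c.transpose := by
    ext i j
    rw [Module.Basis.toMatrix_apply, Matrix.transpose_apply, h j, map_sum, Finsupp.finsetSum_apply]
    rw [Finset.sum_eq_single i]
    · rw [map_smul, Module.Basis.repr_self, Finsupp.smul_single, Finsupp.single_eq_same,
        smul_eq_mul, mul_one]
    · intro l _ hl
      rw [map_smul, Module.Basis.repr_self, Finsupp.smul_single, Finsupp.single_eq_of_ne' hl]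
    · intro hi
      exact absurd (Finset.mem_univ i) hi
  rw [h1, Matrix.det_transpose]

end Top

/-- the logarithmic differentials of a transcendence basis are a basis -/
theorem dlog_basis {n : ℕ} {K : Type} [Field K] [Algebra ℂ K]
    (htr : Algebra.trdeg ℂ K = (n : Cardinal)) (y : Fin n → K) (hy : AlgebraicIndependent ℂ y)
    (hne : ∀ i, y i ≠ 0) :
    ∃ e : Module.Basis (Fin n) K (Ω[K⁄ℂ]), ∀ i, e i = dlog (y i) := by
  obtain ⟨hli, hsp⟩ := cTBAS htr y hy
  let e0 : Module.Basis (Fin n) K (Ω[K⁄ℂ]) := Module.Basis.mk hli hsp.ge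
  refine ⟨e0.unitsSMul fun i => Units.mk0 (y i)⁻¹ (inv_ne_zero (hne i)), fun i => ?_⟩
  simp only [e0, Module.Basis.unitsSMul_apply, Module.Basis.mk_apply, dlog]
  rfl

/-- the differentials of a frame are a basis -/
theorem frame_basis {m : ℕ} {K : Type} [Field K] [Algebra ℂ K]
    (htr : Algebra.trdeg ℂ K = ((m + 1 : ℕ) : Cardinal)) (v : DivVal (m + 1) K) (t : K)
    (u : Fin m → K) (hF : Frame v t u) :
    ∃ e : Module.Basis (Fin (m + 1)) K (Ω[K⁄ℂ]), e 0 = dlog t ∧
      ∀ j : Fin m, e j.succ = KaehlerDifferential.D ℂ K (u j) := by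
  obtain ⟨hli, hsp⟩ := cTBAS htr (Fin.cons t u) ((cFRA v).2 t u hF)
  have ht := hF.1
  let e0 : Module.Basis (Fin (m + 1)) K (Ω[K⁄ℂ]) := Module.Basis.mk hli hsp.ge
  let w0 : Fin (m + 1) → Kˣ := Fin.cons (Units.mk0 t⁻¹ (inv_ne_zero ht)) fun _ => 1
  refine ⟨e0.unitsSMul w0, ?_, fun j => ?_⟩
  · simp only [e0, w0, Module.Basis.unitsSMul_apply, Module.Basis.mk_apply, Fin.cons_zero, dlog]
    rfl
  · simp only [e0, w0, Module.Basis.unitsSMul_apply, Module.Basis.mk_apply, Fin.cons_succ,
      one_smul]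

end EQ1b

open EQ1b in
theorem t_EQ1b : M_EQ1b := by
  intro hMON hBAS hELI _ m n r K _ _ f x hR v σ hU hw hB
  classical
  have hne := hR.ne
  have htr : Algebra.trdeg ℂ K = ((m + 1 : ℕ) : Cardinal) := hR.dim
  obtain ⟨hmne, -, -, -, hv⟩ := hMON (e := m + 1) x hne
  obtain ⟨hord, -⟩ := hv v
  obtain ⟨hai, hdne, -⟩ := hBAS f x hne hR.gen htr hR.zero σ hU.1
  obtain ⟨q, hq, hres⟩ := hB
  change Fin m → (Fin n → ℤ) at q
  obtain ⟨t, ht0, ht1⟩ := v.unif
  -- the frame
  let u : Fin m → K := fun l => mon x (q l)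
  have hF : Frame v t u := ⟨ht0, ht1, hres⟩
  have hu : ∀ l, u l ≠ 0 ∧ v.ord (u l) = 0 := fun l => ⟨hmne (q l), by
    rw [← hq l]; exact hord (q l)⟩
  -- a monomial whose order is not zero
  obtain ⟨j0, hj0⟩ : ∃ j, wt x v j ≠ 0 := by
    by_contra hcon
    push Not at hcon
    exact hw (funext hcon)
  have ha0 : x j0 = mon x (Pi.single j0 1) := by
    rw [mon, Finset.prod_eq_single j0]
    · rw [Pi.single_eq_same, zpow_one]
    · intro j _ hj
      rw [Pi.single_eq_of_ne hj, zpow_zero]
    · intro h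
      exact absurd (Finset.mem_univ j0) h
  let Q : Fin (m + 1) → (Fin n → ℤ) := Fin.cons (Pi.single j0 1) q
  -- elimination
  choose b hb0 hb using fun i => hELI f x hne hR.zero v σ hU (Q i)
  -- the coefficients of the first monomial
  obtain ⟨c0, hc0, hc01, hc0e⟩ := cCOE htr v t u hF (x j0) (hne j0)
  have hordj : ((v.ord (x j0) : ℤ) : K) ≠ 0 := by
    have : v.ord (x j0) ≠ 0 := hj0
    have hch : CharZero K := charZero_of_injective_algebraMap (algebraMap ℂ K).injective
    exact_mod_cast this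
  have hc00 : c0 0 ≠ 0 ∧ v.ord (c0 0) = 0 := by
    have h1 := DivVal.ord_eq_of_sub (v := v) (a := ((v.ord (x j0) : ℤ) : K)) (b := c0 0) hordj
      (by rw [DivVal.ord_intCast, zero_add]; exact DivVal.Ge.sub_comm hc01)
    rwa [DivVal.ord_intCast] at h1
  -- the two bases
  obtain ⟨e, he0, hes⟩ := frame_basis htr v t u hF
  obtain ⟨e', he'⟩ := dlog_basis htr (rest x σ) hai (fun i => hne _)
  let a : Fin (m + 1) → K := fun i => mon x (Q i)
  have hane : ∀ i, a i ≠ 0 := fun i => hmne _
  -- in the frame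
  let c : Matrix (Fin (m + 1)) (Fin (m + 1)) K :=
    Matrix.of (Fin.cons c0 fun l => Pi.single l.succ (u l)⁻¹)
  have hcs : ∀ (l : Fin m) j, c l.succ j = (Pi.single l.succ (u l)⁻¹ : Fin (m + 1) → K) j := by
    intro l j
    rfl
  have hca : ∀ i, dlog (a i) = ∑ j, c i j • e j := by
    intro i
    refine Fin.cases ?_ (fun l => ?_) i
    · have h1 : a 0 = x j0 := ha0.symm
      rw [h1, hc0e, Fin.sum_univ_succ, he0]
      congr 1
      refine Finset.sum_congr rfl fun j _ => ?_
      rw [hes]
      rfl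
    · rw [Finset.sum_eq_single l.succ]
      · rw [hcs, Pi.single_eq_same, hes]
        rfl
      · intro j _ hj
        rw [hcs, Pi.single_eq_of_ne hj, zero_smul]
      · intro h
        exact absurd (Finset.mem_univ _) h
  have hdet : c.det = c0 0 * ∏ l, (u l)⁻¹ := by
    have htri : c.BlockTriangular id := by
      intro i j hij
      refine Fin.cases (motive := fun i => j < i → c i j = 0) ?_ (fun l => ?_) i hij
      · intro h
        exact absurd h (Fin.not_lt_zero j)
      · intro h
        rw [hcs, Pi.single_eq_of_ne (ne_of_lt h)]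
    rw [Matrix.det_of_isUpperTriangular htri, Fin.prod_univ_succ]
    congr 1
    refine Finset.prod_congr rfl fun l _ => ?_
    rw [hcs, Pi.single_eq_same]
  have hprod : (∏ l, (u l)⁻¹) ≠ 0 := Finset.prod_ne_zero_iff.2 fun l _ => inv_ne_zero (hu l).1
  have hdet0 : c.det ≠ 0 := by
    rw [hdet]
    exact mul_ne_zero hc00.1 hprod
  have hdet1 : v.ord c.det = 0 := by
    rw [hdet, v.ord_mul _ _ hc00.1 hprod, hc00.2,
      DivVal.ord_prod v _ _ fun l _ => inv_ne_zero (hu l).1, zero_add]
    refine Finset.sum_eq_zero fun l _ => ?_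
    rw [DivVal.ord_inv, (hu l).2, neg_zero]
  have hfr : frameForm t u = exteriorPower.ιMulti K (m + 1) (e : Fin (m + 1) → Ω[K⁄ℂ]) := by
    unfold frameForm
    congr 1
    funext i
    refine Fin.cases ?_ (fun j => ?_) i
    · rw [Fin.cons_zero, he0]
    · rw [Fin.cons_succ, hes]
  have h1 : dlogs a = c.det • frameForm t u := by
    rw [hfr]
    exact iota_mat e c _ hca
  obtain ⟨hfne, -, hford⟩ := cFRM htr v t u hF
  have h2 : v.logOrd (dlogs a) = 0 := by
    rw [h1, hford _ hdet0, hdet1]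
  have h3 : dlogs a ≠ 0 := by
    rw [h1]
    exact smul_ne_zero hdet0 hfne
  -- in the other basis
  have h4 : dlogs a = (Matrix.of b).det • dlogs (rest x σ) := by
    have h5 : dlogs (rest x σ) = exteriorPower.ιMulti K (m + 1) (e' : Fin (m + 1) → Ω[K⁄ℂ]) := by
      unfold dlogs
      congr 1
      funext i
      exact (he' i).symm
    rw [h5]
    refine iota_mat e' (Matrix.of b) _ fun i => ?_
    show dlog (mon x (Q i)) = _
    rw [hb i]
    refine Finset.sum_congr rfl fun j _ => ?_
    rw [he']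
    rfl
  have h5 : (Matrix.of b).det ≠ 0 := by
    intro h
    rw [h, zero_smul] at h4
    exact h3 h4
  have h6 : 0 ≤ v.ord (Matrix.of b).det := (DivVal.Ge.det (v := v) fun i j => hb0 i j).le h5
  have h7 := cFDL htr v (rest x σ) (Nat.succ_pos m) (fun i => hne _) hdne
  have h8 := cFSM htr v _ _ (Nat.succ_pos m) h5 hdne
  rw [← h4, h2] at h8
  omega

end

end MMCI
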