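import Pool.Agent.MMCI.StB
import Pool.Agent.MMCI.Tools

/-!
# FRD: the form `dlogs a` in a frame
-/

namespace MMCI

open MldGeo

noncomputable section

namespace FRD

/-- The basis of the differentials given by a frame. -/
theorem basis {m : ℕ} {K : Type} [Field K] [Algebra ℂ K]
    (htr : Algebra.trdeg ℂ K = ((m + 1 : ℕ) : Cardinal)) (v : DivVal (m + 1) K) (t : K)
    (u : Fin m → K) (hF : Frame v t u) : ∃ e : Module.Basis (Fin (m + 1)) K (Ω[K⁄ℂ]),
      e 0 = dlog t ∧ (∀ j : Fin m, e j.succ = KaehlerDifferential.D ℂ K (u j)) ∧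
      frameForm t u = exteriorPower.ιMulti K (m + 1) (e : Fin (m + 1) → Ω[K⁄ℂ]) := by
  obtain ⟨ht, htv, hu⟩ := hF
  have hF : Frame v t u := ⟨ht, htv, hu⟩
  obtain ⟨hli, hsp⟩ := cTBAS htr (Fin.cons t u) ((cFRA v).2 t u hF)
  let e0 : Module.Basis (Fin (m + 1)) K (Ω[K⁄ℂ]) := Module.Basis.mk hli hsp.ge
  let w0 : Fin (m + 1) → Kˣ := Fin.cons (Units.mk0 t⁻¹ (inv_ne_zero ht)) fun _ => 1
  let e : Module.Basis (Fin (m + 1)) K (Ω[K⁄ℂ]) := e0.unitsSMul w0
  have he0 : e 0 = dlog t := by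
    simp only [e, e0, w0, Module.Basis.unitsSMul_apply, Module.Basis.mk_apply, Fin.cons_zero, dlog]
    rfl
  have hes : ∀ j : Fin m, e j.succ = KaehlerDifferential.D ℂ K (u j) := by
    intro j
    simp only [e, e0, w0, Module.Basis.unitsSMul_apply, Module.Basis.mk_apply, Fin.cons_succ,
      one_smul]
  have hefun : (e : Fin (m + 1) → Ω[K⁄ℂ]) =
      Fin.cons (dlog t) fun j => KaehlerDifferential.D ℂ K (u j) := by
    funext i
    refine Fin.cases ?_ (fun j => ?_) i
    · rw [Fin.cons_zero, he0]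
    · rw [Fin.cons_succ, hes]
  refine ⟨e, he0, hes, ?_⟩
  rw [hefun]
  rfl

end FRD

theorem t_FRD : S_FRD := by
  intro m K _ _ htr v t u hF a ha
  obtain ⟨e, he0, hes, hFe⟩ := FRD.basis htr v t u hF
  choose c hc0 hc1 hc2 using fun i => cCOE htr v t u hF (a i) (ha i)
  have hd : dlogs a = (Matrix.of c).det • frameForm t u := by
    have h1 : dlogs a = e.det (fun i => dlog (a i)) • frameForm t u := by
      rw [hFe]
      exact FRM.iota_eq e _
    have h2 : e.det (fun i => dlog (a i)) = (Matrix.of c).det := by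
      rw [Module.Basis.det_apply, ← Matrix.det_transpose]
      congr 1
      ext i j
      have h3 : dlog (a i) = ∑ k, c i k • e k := by
        rw [hc2, Fin.sum_univ_succ, he0]
        simp only [hes]
      rw [Matrix.transpose_apply, Module.Basis.toMatrix_apply, h3, Module.Basis.repr_sum_self]
      rfl
    rw [h1, h2]
  refine ⟨c, hc0, hc1, hc2, hd, ?_⟩
  intro hne
  have hdet : (Matrix.of c).det ≠ 0 := by
    intro h
    rw [h, zero_smul] at hd
    exact hne hd
  refine ⟨hdet, ?_⟩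
  rw [hd]
  exact (cFRM htr v t u hF).2.2 _ hdet

end

end MMCI
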