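import Pool.Agent.MMCI.StB
import Pool.Agent.MMCI.Tools
import Pool.Agent.MldGeo.Ord

/-!
# MMCI, module IND: a criterion for independent residues
-/

namespace MMCI

open MldGeo

namespace IND

variable {k : ℕ} {K : Type} [Field K] [Algebra ℂ K]

/-- the chain rule -/
theorem chain (D : Derivation ℂ K K) (z : Fin k → K) (p : MvPolynomial (Fin k) ℂ) :
    D (MvPolynomial.aeval z p) =
      ∑ l, MvPolynomial.aeval z (MvPolynomial.pderiv l p) * D (z l) := by
  induction p using MvPolynomial.induction_on with
  | C c =>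
    rw [MvPolynomial.aeval_C, Derivation.map_algebraMap]
    simp
  | add p q hp hq =>
    rw [map_add, map_add, hp, hq, ← Finset.sum_add_distrib]
    refine Finset.sum_congr rfl fun l _ => ?_
    rw [map_add, map_add]
    ring
  | mul_X p i hp =>
    rw [map_mul, MvPolynomial.aeval_X, Derivation.leibniz, hp, smul_eq_mul, smul_eq_mul,
      Finset.mul_sum]
    have e : ∀ l, MvPolynomial.aeval z (MvPolynomial.pderiv l (p * MvPolynomial.X i)) * D (z l) =
        z i * (MvPolynomial.aeval z (MvPolynomial.pderiv l p) * D (z l)) +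
          (if l = i then MvPolynomial.aeval z p * D (z i) else 0) := by
      intro l
      rw [MvPolynomial.pderiv_mul, map_add, map_mul, map_mul, MvPolynomial.aeval_X,
        MvPolynomial.pderiv_X]
      by_cases h : l = i
      · subst h
        rw [Pi.single_eq_same, map_one, if_pos rfl]
        ring
      · rw [Pi.single_eq_of_ne (Ne.symm h), map_zero, if_neg h]
        ring
    rw [Finset.sum_congr rfl fun l _ => e l, Finset.sum_add_distrib, Finset.sum_ite_eq']
    simp only [Finset.mem_univ, if_true]
    ring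

/-- a polynomial all of whose derivatives vanish is constant -/
theorem const_of_pderiv (p : MvPolynomial (Fin k) ℂ) (h : ∀ l, MvPolynomial.pderiv l p = 0) :
    p = MvPolynomial.C (MvPolynomial.coeff 0 p) := by
  ext m
  rw [MvPolynomial.coeff_C]
  by_cases hm : 0 = m
  · rw [if_pos hm, hm]
  · rw [if_neg hm]
    obtain ⟨l, hl⟩ : ∃ l, m l ≠ 0 := by
      by_contra hc
      push Not at hc
      exact hm (Finsupp.ext fun l => (hc l).symm)
    obtain ⟨m', rfl⟩ : ∃ m', m = m' + Finsupp.single l 1 := by
      refine ⟨m - Finsupp.single l 1, ?_⟩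
      rw [tsub_add_cancel_of_le]
      rw [Finsupp.single_le_iff]
      omega
    have h1 := MvPolynomial.coeff_pderiv (i := l) p m'
    rw [h l, MvPolynomial.coeff_zero] at h1
    rcases mul_eq_zero.1 h1.symm with h2 | h2
    · exact h2
    · exact absurd h2 (by exact_mod_cast Nat.succ_ne_zero (m' l))

/-- the degrees of a derivative are smaller -/
theorem degree_pderiv (p : MvPolynomial (Fin k) ℂ) (l : Fin k) (n : ℕ)
    (h : ∀ m ∈ p.support, Finsupp.degree m < n + 1) :
    ∀ m ∈ (MvPolynomial.pderiv l p).support, Finsupp.degree m < n := by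
  intro m hm
  rw [MvPolynomial.mem_support_iff, MvPolynomial.coeff_pderiv] at hm
  have h1 := h (m + Finsupp.single l 1)
    (MvPolynomial.mem_support_iff.2 (left_ne_zero_of_mul hm))
  rw [map_add, Finsupp.degree_single] at h1
  omega

end IND

theorem t_IND : S_IND := by
  intro m k K _ _ htr v t u hF z c hz hc hdz hind
  have hLOGD : Stmt_LOGD := cLOGD
  obtain ⟨ht0, ht1, _⟩ := id hF
  have hai := (cFRA v).2 t u hF
  obtain ⟨hli, hsp⟩ := cTBAS htr _ hai
  set x : Fin (m + 1) → K := Fin.cons t u with hx
  have hx0 : x 0 = t := rfl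
  have hxs : ∀ j : Fin m, x j.succ = u j := fun j => rfl
  let bs : Module.Basis (Fin (m + 1)) K (Ω[K⁄ℂ]) := Module.Basis.mk hli hsp.ge
  have hbs : ∀ i, bs i = KaehlerDifferential.D ℂ K (x i) := fun i => Module.Basis.mk_apply hli hsp.ge i
  let E : Fin (m + 1) → Derivation ℂ K K := fun i =>
    (bs.coord i).compDer (KaehlerDifferential.D ℂ K)
  have hE : ∀ i b, E i b = bs.repr (KaehlerDifferential.D ℂ K b) i := fun i b => rfl
  have hEx : ∀ i j, E i (x j) = if j = i then 1 else 0 := by
    intro i j
    rw [hE, ← hbs, Module.Basis.repr_self, Finsupp.single_apply]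
  have L1 : ∀ j : Fin m, ∀ (b : K) (k : ℤ), v.Ge k b → v.Ge k (E j.succ b) := by
    intro j
    refine (hLOGD htr v t u hF (E j.succ) ?_ ?_).1
    · left
      rw [← hx0, hEx, if_neg (Fin.succ_ne_zero j).symm]
    · intro i
      rw [← hxs, hEx]
      split_ifs
      · exact DivVal.Ge.one v
      · exact DivVal.Ge.zero v 0
  -- the coefficients of `dz`
  have hEz : ∀ (l : Fin k) (j : Fin m), E j.succ (z l) = z l * c l j.succ := by
    intro l j
    have h1 : KaehlerDifferential.D ℂ K (z l) =
        z l • (c l 0 • dlog t + ∑ j : Fin m, c l j.succ • KaehlerDifferential.D ℂ K (u j)) := by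
      rw [← hdz l]
      unfold dlog
      rw [smul_smul, mul_inv_cancel₀ (hz l).1, one_smul]
    have h2 : c l 0 • dlog t + ∑ j : Fin m, c l j.succ • KaehlerDifferential.D ℂ K (u j) =
        (c l 0 * t⁻¹) • bs 0 + ∑ j : Fin m, c l j.succ • bs j.succ := by
      rw [hbs, hx0]
      unfold dlog
      rw [smul_smul]
      congr 1
      refine Finset.sum_congr rfl fun j _ => ?_
      rw [hbs, hxs]
    rw [hE, h1, h2, map_smul, map_add, map_sum, map_smul, Module.Basis.repr_self]
    simp only [map_smul, Module.Basis.repr_self, Finsupp.smul_apply, Finsupp.add_apply,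
      Finsupp.finsetSum_apply, Finsupp.single_apply, smul_eq_mul]
    rw [if_neg (Fin.succ_ne_zero j).symm]
    simp only [Fin.succ_inj, mul_ite, mul_one, mul_zero, Finset.sum_ite_eq', Finset.mem_univ,
      if_true, zero_add]
  have hz0 : ∀ l, v.Ge 0 (z l) := fun l => Or.inr (hz l).2.ge
  -- the induction
  have key : ∀ (n : ℕ) (p : MvPolynomial (Fin k) ℂ), p ≠ 0 →
      (∀ m ∈ p.support, Finsupp.degree m < n) → ¬ v.Ge 1 (MvPolynomial.aeval z p) := by
    intro n
    induction n with
    | zero =>
      intro p hp hdeg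
      obtain ⟨m, hm⟩ := MvPolynomial.support_nonempty.2 hp
      exact absurd (hdeg m hm) (Nat.not_lt_zero _)
    | succ n ih =>
      intro p hp hdeg hge
      have h1 : ∀ l, v.Ge 1 (MvPolynomial.aeval z (MvPolynomial.pderiv l p) * z l) := by
        refine hind (fun l => MvPolynomial.aeval z (MvPolynomial.pderiv l p) * z l)
          (fun l => (DivVal.Ge.aeval hz0 _).mul_left (hz0 l)) fun j => ?_
        have h2 := L1 j _ 1 hge
        rw [IND.chain] at h2
        have h3 : ∑ l, MvPolynomial.aeval z (MvPolynomial.pderiv l p) * (E j.succ) (z l) =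
            ∑ l, MvPolynomial.aeval z (MvPolynomial.pderiv l p) * z l * c l j.succ := by
          refine Finset.sum_congr rfl fun l _ => ?_
          rw [hEz, mul_assoc]
        rw [h3] at h2
        exact h2
      have h4 : ∀ l, MvPolynomial.pderiv l p = 0 := by
        intro l
        by_contra hne
        refine ih _ hne (IND.degree_pderiv p l n hdeg) ?_
        have h5 := (h1 l).mul_right (DivVal.Ge.inv (hz l).1 (hz l).2)
        rwa [mul_assoc, mul_inv_cancel₀ (hz l).1, mul_one] at h5
      have h6 := IND.const_of_pderiv p h4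
      have hc0 : MvPolynomial.coeff 0 p ≠ 0 := by
        intro h0
        rw [h0, map_zero] at h6
        exact hp h6
      rw [h6, MvPolynomial.aeval_C] at hge
      rcases hge with h7 | h7
      · exact hc0 ((map_eq_zero _).1 h7)
      · rw [v.ord_const] at h7
        omega
  intro p hp
  have h1 : ¬ v.Ge 1 (MvPolynomial.aeval z p) := by
    refine key ((p.support.sup fun m => Finsupp.degree m) + 1) p hp fun m hm => ?_
    exact Nat.lt_succ_of_le (Finset.le_sup (f := fun m => Finsupp.degree m) hm)
  have h2 : v.Ge 0 (MvPolynomial.aeval z p) := DivVal.Ge.aeval hz0 p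
  unfold DivVal.Ge at h1 h2
  push Not at h1
  exact ⟨h1.1, le_antisymm (by omega) (h2.resolve_left h1.1)⟩

end MMCI
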