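import Pool.Agent.MMCI.StE
import Pool.Agent.MMCI.Tools

/-!
# MP_fa3f7f_ag, MMCI: KEY, the discrepancies of the projective model
-/

namespace MMCI

open MldGeo

noncomputable section

namespace KEY

variable {e n r : ℕ}

/-! ### pairing -/

theorem pair_smul_left (k : ℤ) (w m : Fin n → ℤ) : pair (k • w) m = k * pair w m := by
  unfold pair
  rw [Finset.mul_sum]
  refine Finset.sum_congr rfl fun i _ => ?_
  rw [Pi.smul_apply, smul_eq_mul, mul_assoc]

theorem pair_sub (w m m' : Fin n → ℤ) : pair w (m - m') = pair w m - pair w m' := by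
  unfold pair
  rw [← Finset.sum_sub_distrib]
  refine Finset.sum_congr rfl fun i _ => ?_
  rw [Pi.sub_apply, mul_sub]

theorem pair_zero_left (m : Fin n → ℤ) : pair (0 : Fin n → ℤ) m = 0 := by
  simp [pair]

/-- The pairing as a linear map in the second argument. -/
def pairL (w : Fin n → ℤ) : (Fin n → ℤ) →ₗ[ℤ] ℤ where
  toFun m := pair w m
  map_add' a b := by
    simp only [pair, Pi.add_apply, mul_add, Finset.sum_add_distrib]
  map_smul' c a := by
    simp only [pair, Pi.smul_apply, smul_eq_mul, RingHom.id_apply, Finset.mul_sum]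
    refine Finset.sum_congr rfl fun i _ => ?_
    ring

theorem pairL_apply (w m : Fin n → ℤ) : pairL w m = pair w m := rfl

theorem pair_single (w : Fin n → ℤ) (j : Fin n) : pair w (Pi.single j 1) = w j := by
  unfold pair
  rw [Finset.sum_eq_single j]
  · rw [Pi.single_eq_same, mul_one]
  · intro b _ hb
    rw [Pi.single_eq_of_ne hb, mul_zero]
  · intro h
    exact absurd (Finset.mem_univ j) h

theorem pair_self_ne (w : Fin n → ℤ) (hw : w ≠ 0) : pair w w ≠ 0 := by
  intro h
  apply hw
  have h1 : ∀ i ∈ Finset.univ, 0 ≤ w i * w i := fun i _ => mul_self_nonneg _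
  have h2 := (Finset.sum_eq_zero_iff_of_nonneg h1).1 h
  funext i
  exact mul_self_eq_zero.1 (h2 i (Finset.mem_univ i))

/-- A nonzero vector is a positive multiple of a primitive vector. -/
theorem exists_prim (w : Fin n → ℤ) (hw : w ≠ 0) :
    ∃ (k : ℤ) (w0 : Fin n → ℤ), 0 < k ∧ Primitive w0 ∧ w = k • w0 := by
  obtain ⟨g, hg⟩ := (IsPrincipalIdealRing.principal (LinearMap.range (pairL w))).principal
  have h0 : ∃ k : ℤ, 0 ≤ k ∧ LinearMap.range (pairL w) = Submodule.span ℤ {k} := by
    rcases le_total 0 g with h | h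
    · exact ⟨g, h, hg⟩
    · refine ⟨-g, neg_nonneg.2 h, ?_⟩
      rw [hg]
      apply le_antisymm
      · rw [Submodule.span_singleton_le_iff_mem, Submodule.mem_span_singleton]
        exact ⟨-1, by rw [smul_eq_mul]; ring⟩
      · rw [Submodule.span_singleton_le_iff_mem, Submodule.mem_span_singleton]
        exact ⟨-1, by rw [smul_eq_mul]; ring⟩
  obtain ⟨k, hk, hr⟩ := h0
  have h1 : ∀ m, k ∣ pair w m := by
    intro m
    have h2 : pair w m ∈ LinearMap.range (pairL w) := ⟨m, rfl⟩
    rw [hr, Submodule.mem_span_singleton] at h2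
    obtain ⟨a, ha⟩ := h2
    exact ⟨a, by rw [← ha, smul_eq_mul, mul_comm]⟩
  have hk0 : k ≠ 0 := by
    intro h
    apply pair_self_ne w hw
    have := h1 w
    rw [h] at this
    exact zero_dvd_iff.1 this
  have h3 : ∀ j, ∃ c, w j = k * c := by
    intro j
    have := h1 (Pi.single j 1)
    rw [pair_single] at this
    exact this
  choose w0 hw0 using h3
  have h4 : w = k • w0 := by
    funext j
    rw [Pi.smul_apply, smul_eq_mul]
    exact hw0 j
  refine ⟨k, w0, lt_of_le_of_ne hk (Ne.symm hk0), ?_, h4⟩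
  have h5 : k ∈ LinearMap.range (pairL w) := by
    rw [hr]
    exact Submodule.mem_span_singleton_self k
  obtain ⟨m, hm⟩ := h5
  refine ⟨m, ?_⟩
  rw [pairL_apply, h4, pair_smul_left] at hm
  exact mul_left_cancel₀ hk0 (by rw [hm, mul_one])

/-! ### linear algebra -/

theorem rel_of_card {k : ℕ} (hk : n < k) (v : Fin k → (Fin n → ℤ)) :
    ∃ g : Fin k → ℤ, ∑ i, g i • v i = 0 ∧ ∃ i, g i ≠ 0 := by
  apply Fintype.not_linearIndependent_iff.1
  intro h
  have h1 := h.fintype_card_le_finrank
  rw [Fintype.card_fin, Module.finrank_fin_fun] at h1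
  omega

theorem span_full (b : Fin n → (Fin n → ℤ)) (hb : LinearIndependent ℤ b) (m : Fin n → ℤ) :
    ∃ (N : ℤ) (c : Fin n → ℤ), N ≠ 0 ∧ N • m = ∑ l, c l • b l := by
  obtain ⟨g, hg, hg0⟩ := rel_of_card (Nat.lt_succ_self n) (Fin.cons m b : Fin (n + 1) → _)
  rw [Fin.sum_univ_succ, Fin.cons_zero] at hg
  simp only [Fin.cons_succ] at hg
  refine ⟨g 0, fun l => - g l.succ, ?_, ?_⟩
  · intro h
    rw [h, zero_smul, zero_add] at hg
    have h1 := Fintype.linearIndependent_iff.1 hb (fun l => g l.succ) hg
    obtain ⟨i, hi⟩ := hg0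
    apply hi
    refine Fin.cases h (fun l => h1 l) i
  · simp only [neg_smul, Finset.sum_neg_distrib]
    exact eq_neg_of_add_eq_zero_left hg

theorem span_perp (w : Fin n → ℤ) (hw : w ≠ 0) (b : Fin (n - 1) → (Fin n → ℤ))
    (hb : LinearIndependent ℤ b) (hwb : ∀ l, pair w (b l) = 0) (m : Fin n → ℤ)
    (hm : pair w m = 0) :
    ∃ (N : ℤ) (c : Fin (n - 1) → ℤ), N ≠ 0 ∧ N • m = ∑ l, c l • b l := by
  obtain ⟨g, hg, hg0⟩ := rel_of_card (k := n - 1 + 1 + 1) (by omega)
    (Fin.cons w (Fin.cons m b : Fin (n - 1 + 1) → (Fin n → ℤ)) : Fin (n - 1 + 1 + 1) → _)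
  rw [Fin.sum_univ_succ, Fin.cons_zero, Fin.sum_univ_succ] at hg
  simp only [Fin.cons_succ, Fin.cons_zero] at hg
  have h1 := congrArg (pairL w) hg
  simp only [map_add, map_sum, map_smul, pairL_apply, hm, hwb, smul_zero, Finset.sum_const_zero,
    add_zero, map_zero] at h1
  have h2 : g 0 = 0 := by
    rw [smul_eq_mul] at h1
    exact (mul_eq_zero.1 h1).resolve_right (pair_self_ne w hw)
  rw [h2, zero_smul, zero_add] at hg
  refine ⟨g (Fin.succ 0), fun l => - g l.succ.succ, ?_, ?_⟩
  · intro h
    rw [h, zero_smul, zero_add] at hg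
    have h3 := Fintype.linearIndependent_iff.1 hb (fun l => g l.succ.succ) hg
    obtain ⟨i, hi⟩ := hg0
    apply hi
    refine Fin.cases h2 (fun l => ?_) i
    exact Fin.cases h (fun l => h3 l) l
  · simp only [neg_smul, Finset.sum_neg_distrib]
    exact eq_neg_of_add_eq_zero_left hg

/-! ### order functions -/

theorem minOn_smul (f : Laurent n) (hf : f ≠ 0) (k : ℤ) (hk : 0 < k) (w : Fin n → ℤ) :
    minOn f (k • w) = k * minOn f w := by
  have hne : f.coeff.support.Nonempty := by
    rw [Finsupp.support_nonempty_iff]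
    intro h
    exact hf (AddMonoidAlgebra.coeff_eq_zero.1 h)
  have key : ∀ u : Fin n → ℤ, (∃ m ∈ f.coeff.support, pair u m = minOn f u) ∧
      ∀ m ∈ f.coeff.support, minOn f u ≤ pair u m := by
    intro u
    have hfin : ((fun m => pair u m) '' (f.coeff.support : Set (Fin n → ℤ))).Finite :=
      (Finset.finite_toSet _).image _
    have hne' : ((fun m => pair u m) '' (f.coeff.support : Set (Fin n → ℤ))).Nonempty :=
      Set.Nonempty.image _ (Finset.coe_nonempty.2 hne)
    constructor
    · obtain ⟨m, hm, hm2⟩ := Int.csInf_mem hne' hfin.bddBelow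
      exact ⟨m, hm, hm2⟩
    · intro m hm
      exact csInf_le hfin.bddBelow ⟨m, hm, rfl⟩
  obtain ⟨⟨m1, hm1, h1⟩, h1'⟩ := key (k • w)
  obtain ⟨⟨m2, hm2, h2⟩, h2'⟩ := key w
  apply le_antisymm
  · rw [← h2, ← pair_smul_left]
    exact h1' m2 hm2
  · rw [← h1, pair_smul_left]
    exact mul_le_mul_of_nonneg_left (h2' m1 hm1) hk.le

theorem psi_smul (f : Fin r → Laurent n) (hf : ∀ i, f i ≠ 0) (k : ℤ) (hk : 0 < k)
    (w : Fin n → ℤ) : psi f (k • w) = k * psi f w := by
  unfold psi
  rw [Finset.mul_sum]
  exact Finset.sum_congr rfl fun i _ => minOn_smul (f i) (hf i) k hk w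

theorem minAt_smul {A : Finset (Fin n → ℤ)} {a w : Fin n → ℤ} {k : ℤ} (hk : 0 < k)
    (h : MinAt A a (k • w)) : MinAt A a w := by
  refine ⟨h.1, fun b hb => ?_⟩
  have h1 := h.2 b hb
  rw [pair_smul_left, pair_smul_left] at h1
  exact le_of_mul_le_mul_left h1 hk

/-! ### residues -/

theorem ord_of_resIndep {K : Type} [Field K] [Algebra ℂ K] {k : ℕ} {v : DivVal e K}
    {u : Fin k → K} (h : ResIndep v u) (l : Fin k) : v.ord (u l) = 0 := by
  have := (h (MvPolynomial.X l) (MvPolynomial.X_ne_zero l)).2
  rwa [MvPolynomial.aeval_X] at this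

end KEY

open KEY in
theorem t_KEY : M_KEY := by
  intro hMON hRES e n r K _ _ f x hB F ω Y hL hM i m hm
  obtain ⟨a, haA, hpt⟩ := hM.pt i m hm
  refine ⟨a, haA, fun v P hc hPm => ?_⟩
  obtain ⟨hmin, hht⟩ := hpt v P hc hPm
  refine ⟨hmin, ?_⟩
  have htxt : v.formOrd ω = v.logOrd ω - 1 := cTXT hB.dim v ω hB.pos hL.ne
  have hord : ∀ m, v.ord (mon x m) = pair (wt x v) m :=
    ((hMON (e := e) x hB.ne).2.2.2.2 v).1
  have hkpos : (0 : ℤ) < (F.k : ℤ) := by exact_mod_cast F.k_pos
  -- independent differences and `Big`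
  have hbig : P.height = 1 → Big x v := by
    intro h
    obtain ⟨b, _, hb2⟩ := hht.1 h
    refine ⟨fun l => b l - a, fun l => ?_, hb2⟩
    rw [← hord]
    exact ord_of_resIndep hb2 l
  rw [htxt]
  by_cases hw : wt x v = 0
  · -- weight zero
    have hp : pair (wt x v) (F.u a) = 0 := by rw [hw, pair_zero_left]
    rw [hp, add_zero]
    have h1 := hL.low0 v hw
    refine ⟨mul_nonneg hkpos.le (by linarith), ?_⟩
    have h2 : (F.k : ℤ) * (v.logOrd ω - 1) = 0 ↔ Big x v := by
      rw [← hL.eq0 v hw, mul_eq_zero]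
      constructor
      · rintro (h | h)
        · exact absurd h hkpos.ne'
        · linarith
      · intro h
        right
        linarith
    rw [h2]
    refine ⟨fun h => ?_, hbig⟩
    obtain ⟨b, hbA, hbI⟩ := F.full a haA
    obtain ⟨j, hj⟩ := hRES x hB.dim hB.pos hB.ne v h (fun l => b l - a)
      (fun l => by rw [hw, pair_zero_left]) (fun q _ => span_full _ hbI q)
    exact hht.2 ⟨fun l => b (j l), fun l => hbA _, hj⟩
  · -- nonzero weight
    constructor
    · obtain ⟨k, w0, hk, hw0, hw1⟩ := exists_prim (wt x v) hw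
      have hmin0 : MinAt F.A a w0 := minAt_smul hk (by rw [← hw1]; exact hmin)
      have hd := F.disc w0 a hw0 hmin0
      have hl := hL.low v hw
      rw [hw1, psi_smul f hB.f_ne k hk] at hl
      rw [hw1, pair_smul_left]
      nlinarith [mul_le_mul_of_nonneg_left hd hk.le, mul_le_mul_of_nonneg_left hl hkpos.le,
        mul_nonneg hkpos.le (show (0 : ℤ) ≤ k - 1 by omega)]
    · constructor
      · intro h0
        obtain ⟨k, w0, hk, hw0, hw1⟩ := exists_prim (wt x v) hw
        have hmin0 : MinAt F.A a w0 := minAt_smul hk (by rw [← hw1]; exact hmin)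
        have hd := F.disc w0 a hw0 hmin0
        have hl := hL.low v hw
        have hl' := hl
        rw [hw1, psi_smul f hB.f_ne k hk] at hl'
        have h0' := h0
        rw [hw1, pair_smul_left] at h0'
        have e1 := mul_le_mul_of_nonneg_left hd hk.le
        have e2 := mul_le_mul_of_nonneg_left hl' hkpos.le
        have e3 : (F.k : ℤ) * (k - 1) ≤ 0 := by nlinarith
        have e4 : k = 1 := by
          by_contra hne
          have : 0 < k - 1 := by omega
          have := mul_pos hkpos this
          linarith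
        rw [e4, one_smul] at hw1
        rw [e4] at h0' e1 e2
        have e5 : v.logOrd ω = - psi f w0 := by
          have h5 : (F.k : ℤ) * (v.logOrd ω + psi f w0) ≤ 0 := by nlinarith
          have h6 : 0 ≤ v.logOrd ω + psi f w0 := by
            rw [e4] at hl'
            linarith
          have h7 : v.logOrd ω + psi f w0 = 0 := by
            by_contra hne
            have := mul_pos hkpos (lt_of_le_of_ne h6 (Ne.symm hne))
            linarith
          linarith
        have hbg : Big x v := by
          rw [← hL.eq v hw, hw1]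
          exact e5
        have hray : pair w0 (F.u a) = F.k * (psi f w0 + 1) := by
          rw [e5] at h0'
          nlinarith
        obtain ⟨b, hbA, hbw, hbI⟩ := F.ray w0 a hw0 hmin0 hray
        obtain ⟨j, hj⟩ := hRES x hB.dim hB.pos hB.ne v hbg (fun l => b l - a)
          (fun l => by rw [hw1]; exact hbw l)
          (fun q hq => span_perp w0 (by rw [← hw1]; exact hw) _ hbI hbw q (by rw [← hw1]; exact hq))
        exact hht.2 ⟨fun l => b (j l), fun l => hbA _, hj⟩
      · intro h1
        have hbg := hbig h1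
        have hprim := hL.unit v hw hbg
        have hlog := (hL.eq v hw).2 hbg
        by_contra hne
        have hne' : pair (wt x v) (F.u a) ≠ F.k * (psi f (wt x v) + 1) := by
          intro h
          apply hne
          rw [hlog, h]
          ring
        obtain ⟨s, ν, c, c0, hc0, hc, hνI, hrel, hνmin, hs⟩ :=
          F.nonray (wt x v) a hprim hmin hne'
        refine hL.bnd v hw s ν c c0 hc0 hc hνI hrel hs ?_
        obtain ⟨b, hbA, hb⟩ := hht.1 h1
        refine ⟨fun l => b l - a, fun l => ?_, hb⟩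
        have h2 : ∀ j, 0 ≤ pair (ν j) (b l - a) := by
          intro j
          rw [pair_sub]
          have := (hνmin j).2 (b l) (hbA l)
          linarith
        have h3 : ∑ j, (c j : ℤ) * pair (ν j) (b l - a) = 0 := by
          have h4 : pair (∑ j, (c j : ℤ) • ν j) (b l - a) = ∑ j, (c j : ℤ) * pair (ν j) (b l - a) := by
            simp only [pair, Finset.sum_apply, Pi.smul_apply, smul_eq_mul, Finset.sum_mul,
              Finset.mul_sum]
            rw [Finset.sum_comm]
            refine Finset.sum_congr rfl fun j _ => Finset.sum_congr rfl fun i _ => ?_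
            ring
          rw [← h4, ← hrel, pair_smul_left]
          have h5 : pair (wt x v) (b l - a) = 0 := by
            rw [← hord]
            exact ord_of_resIndep hb l
          rw [h5, mul_zero]
        have h6 := (Finset.sum_eq_zero_iff_of_nonneg (fun j _ =>
          mul_nonneg (Int.natCast_nonneg (c j)) (h2 j))).1 h3
        intro j
        have h7 := h6 j (Finset.mem_univ j)
        have h8 : (0 : ℤ) < (c j : ℤ) := by exact_mod_cast hc j
        exact (mul_eq_zero.1 h7).resolve_left h8.ne'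

end

end MMCI
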