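import Pool.Agent.MMCI.StB
import Pool.Agent.MldGeo.Ord

/-!
# Module LOB: the localised ring
-/

set_option autoImplicit false

namespace MMCI

open MldGeo MldGeo.DivVal

noncomputable section

namespace LOB

variable {e : ℕ} {K : Type} [Field K] [Algebra ℂ K]

/-- Quotients of elements of `B0` with denominators of order zero. -/
def loc (v : DivVal e K) (B0 : Subalgebra ℂ K) : Subalgebra ℂ K where
  carrier := {a | ∃ p ∈ B0, ∃ q ∈ B0, q ≠ 0 ∧ v.ord q = 0 ∧ a * q = p}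
  mul_mem' := by
    rintro a a' ⟨p, hp, q, hq, hq0, hqo, h⟩ ⟨p', hp', q', hq', hq0', hqo', h'⟩
    refine ⟨p * p', B0.mul_mem hp hp', q * q', B0.mul_mem hq hq', mul_ne_zero hq0 hq0', ?_, ?_⟩
    · rw [v.ord_mul _ _ hq0 hq0', hqo, hqo', add_zero]
    · rw [← h, ← h']
      ring
  add_mem' := by
    rintro a a' ⟨p, hp, q, hq, hq0, hqo, h⟩ ⟨p', hp', q', hq', hq0', hqo', h'⟩
    refine ⟨p * q' + p' * q, B0.add_mem (B0.mul_mem hp hq') (B0.mul_mem hp' hq), q * q',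
      B0.mul_mem hq hq', mul_ne_zero hq0 hq0', ?_, ?_⟩
    · rw [v.ord_mul _ _ hq0 hq0', hqo, hqo', add_zero]
    · rw [← h, ← h']
      ring
  algebraMap_mem' c := ⟨algebraMap ℂ K c, B0.algebraMap_mem c, 1, B0.one_mem, one_ne_zero,
    ord_one v, mul_one _⟩

theorem mem_loc (v : DivVal e K) (B0 : Subalgebra ℂ K) (a : K) :
    a ∈ loc v B0 ↔ ∃ p ∈ B0, ∃ q ∈ B0, q ≠ 0 ∧ v.ord q = 0 ∧ a * q = p := Iff.rfl

theorem le_loc (v : DivVal e K) (B0 : Subalgebra ℂ K) : B0 ≤ loc v B0 := fun b hb =>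
  ⟨b, hb, 1, B0.one_mem, one_ne_zero, ord_one v, mul_one _⟩

theorem inv_loc (v : DivVal e K) (B0 : Subalgebra ℂ K) {b : K} (hb : b ∈ loc v B0) (h0 : b ≠ 0)
    (ho : v.ord b = 0) : b⁻¹ ∈ loc v B0 := by
  obtain ⟨p, hp, q, hq, hq0, hqo, h⟩ := hb
  have hp0 : p ≠ 0 := by
    rw [← h]
    exact mul_ne_zero h0 hq0
  refine ⟨q, hq, p, hp, hp0, ?_, ?_⟩
  · rw [← h, v.ord_mul _ _ h0 hq0, ho, hqo, add_zero]
  · rw [← h, inv_mul_cancel_left₀ h0]

end LOB

theorem t_LOB : S_LOB := by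
  intro e K _ _ v B0 hB0
  refine ⟨LOB.loc v B0, LOB.mem_loc v B0, LOB.le_loc v B0, ?_, ?_, ?_⟩
  · rintro b ⟨p, hp, q, hq, hq0, hqo, h⟩
    by_cases hb : b = 0
    · exact Or.inl hb
    · right
      have hp0 : p ≠ 0 := by
        rw [← h]
        exact mul_ne_zero hb hq0
      have h1 := (hB0 p hp).resolve_left hp0
      rw [← h, v.ord_mul _ _ hb hq0, hqo, add_zero] at h1
      exact h1
  · intro b hb h0 ho
    exact LOB.inv_loc v B0 hb h0 ho
  · intro D hD b hb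
    have hb' := hb
    obtain ⟨p, hp, q, hq, hq0, hqo, h⟩ := hb
    have h1 : D p = b * D q + q * D b := by
      rw [← h, Derivation.leibniz, smul_eq_mul, smul_eq_mul]
    have h2 : D b = (D p - b * D q) * q⁻¹ := by
      rw [h1]
      field_simp
      ring
    rw [h2]
    exact (LOB.loc v B0).mul_mem ((LOB.loc v B0).sub_mem (hD p hp)
      ((LOB.loc v B0).mul_mem hb' (hD q hq))) (LOB.inv_loc v B0 (LOB.le_loc v B0 hq) hq0 hqo)

end

end MMCI
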