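import Pool.Agent.MMCI.StB
import Pool.Agent.MMCI.Tools

/-!
# MMCI, module LOG: the residue form, assembly
-/

set_option autoImplicit false

namespace MMCI

open MldGeo

namespace LOG

lemma minOn_zero {n : ℕ} (f : Laurent n) : minOn f 0 = 0 := by
  unfold minOn
  have h : (fun m : Fin n → ℤ => pair 0 m) = fun _ => 0 := by
    funext m
    simp [pair]
  rw [h]
  rcases (f.coeff.support : Set (Fin n → ℤ)).eq_empty_or_nonempty with h0 | h0
  · rw [h0, Set.image_empty]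
    simp
  · rw [h0.image_const]
    simp

lemma psi_zero {n r : ℕ} (f : Fin r → Laurent n) : psi f 0 = 0 := by
  unfold psi
  simp [minOn_zero]

/-- The order of the residue form. -/
lemma key {m n r : ℕ} {K : Type} [Field K] [Algebra ℂ K] (f : Fin r → Laurent n)
    (x : Fin n → K) (hd : Algebra.trdeg ℂ K = ((m + 1 : ℕ) : Cardinal))
    (ω : Forms (m + 1) K) (hω : ω ≠ 0)
    (h : ∀ σ : Fin r ⊕ Fin (m + 1) ≃ Fin n, minor f x σ ≠ 0 →
      ∃ ε : K, (ε = 1 ∨ ε = -1) ∧ minor f x σ • ω = ε • dlogs (rest x σ))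
    (v : DivVal (m + 1) K) (σ : Fin r ⊕ Fin (m + 1) ≃ Fin n) (hσ : UnitMinor f x v σ) :
    v.logOrd (dlogs (rest x σ)) = psi f (wt x v) + v.logOrd ω := by
  obtain ⟨ε, hε, he⟩ := h σ hσ.1
  have hε0 : ε ≠ 0 := by
    rcases hε with h1 | h1
    · rw [h1]; exact one_ne_zero
    · rw [h1]; exact neg_ne_zero.2 one_ne_zero
  have hεo : v.ord ε = 0 := by
    rcases hε with h1 | h1
    · rw [h1]; exact DivVal.ord_one v
    · rw [h1]; exact DivVal.ord_neg_one v
  have hne : dlogs (rest x σ) ≠ 0 := by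
    intro h0
    rw [h0, smul_zero] at he
    rcases smul_eq_zero.1 he with h1 | h1
    · exact hσ.1 h1
    · exact hω h1
  have h1 := cFSM hd v (minor f x σ) ω (Nat.succ_pos m) hσ.1 hω
  have h2 := cFSM hd v ε (dlogs (rest x σ)) (Nat.succ_pos m) hε0 hne
  rw [he, h2, hεo, zero_add, hσ.2] at h1
  exact h1

end LOG

theorem t_LOG : M_LOG := by
  intro hOMG hEQ1a hEQ1b hUNT hEQ0a hEQ0b hBND e n r K _ _ f x hS
  obtain ⟨m, rfl⟩ : ∃ m, e = m + 1 := ⟨e - 1, by have := hS.pos; omega⟩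
  have hR : Reg (m + 1) f x := hS.toReg
  obtain ⟨ω, hω, h⟩ := hOMG f x hR
  have hkey := LOG.key f x hS.dim ω hω h
  refine ⟨ω, ⟨hω, ?_, ?_, ?_, ?_, ?_, ?_⟩⟩
  · intro v hv
    obtain ⟨σ, hσ⟩ := hS.nd v
    have h1 := (hEQ1a f x hR v σ hσ hv).1
    have h2 := hkey v σ hσ
    omega
  · intro v hv
    obtain ⟨σ, hσ⟩ := hS.nd v
    have h1 := (hEQ1a f x hR v σ hσ hv).2
    have h2 := hkey v σ hσ
    constructor
    · intro h3
      apply h1
      omega
    · intro h3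
      have h4 := hEQ1b f x hR v σ hσ hv h3
      omega
  · intro v hv
    obtain ⟨σ, hσ⟩ := hS.nd v
    have h1 := (hEQ0a f x hR v σ hσ hv).1
    have h2 := hkey v σ hσ
    rw [hv, LOG.psi_zero] at h2
    omega
  · intro v hv
    obtain ⟨σ, hσ⟩ := hS.nd v
    have h1 := (hEQ0a f x hR v σ hσ hv).2
    have h2 := hkey v σ hσ
    rw [hv, LOG.psi_zero] at h2
    constructor
    · intro h3
      apply h1
      omega
    · intro h3
      have h4 := hEQ0b f x hR v σ hσ hv h3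
      omega
  · intro v hv hB
    obtain ⟨σ, hσ⟩ := hS.nd v
    exact hUNT f x hR v σ hσ hv hB
  · intro v hv s ν c c0 hc0 hc hl he hs
    obtain ⟨σ, hσ⟩ := hS.nd v
    exact hBND f x hR v σ hσ s ν c c0 hc0 hc hl he hs

end MMCI
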