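import Pool.Agent.MMCI.StB
import Pool.Agent.MldGeo.Ord

/-!
# MIN: unit minors
-/

namespace MMCI

open MldGeo MldGeo.DivVal

noncomputable section

namespace MIN

/-- A matrix with linearly independent rows has a nonzero maximal minor. -/
theorem exists_minor {r n : ℕ} {K : Type} [Field K] (G : Matrix (Fin r) (Fin n) K)
    (h : LinearIndependent K G.row) :
    ∃ g : Fin r → Fin n, Function.Injective g ∧
      (Matrix.of fun i j : Fin r => G i (g j)).det ≠ 0 := by
  obtain ⟨κ, a, ha, hsp, hli⟩ := exists_linearIndependent' K G.col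
  have : Finite κ := Finite.of_injective a ha
  have : Fintype κ := Fintype.ofFinite κ
  have hrk : G.rank = r := by
    have := LinearIndependent.rank_matrix h
    rwa [Fintype.card_fin] at this
  have hcard : Fintype.card κ = r := by
    have h1 := linearIndependent_iff_card_eq_finrank_span.mp hli
    rw [Set.finrank, hsp, ← Matrix.rank_eq_finrank_span_cols, hrk] at h1
    exact h1
  obtain ⟨φ⟩ : Nonempty (Fin r ≃ κ) := by
    rw [← hcard]
    exact ⟨(Fintype.equivFin κ).symm⟩
  refine ⟨a ∘ φ, ha.comp φ.injective, ?_⟩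
  have h2 : LinearIndependent K (Matrix.of fun i j : Fin r => G i ((a ∘ φ) j)).col :=
    hli.comp φ φ.injective
  have h3 := Matrix.linearIndependent_cols_iff_isUnit.1 h2
  rw [Matrix.isUnit_iff_isUnit_det] at h3
  exact h3.ne_zero

/-- An injective family extends to a bijection. -/
theorem exists_equiv {r e n : ℕ} (hn : n = r + e) (g : Fin r → Fin n)
    (hg : Function.Injective g) :
    ∃ σ : Fin r ⊕ Fin e ≃ Fin n, ∀ j, σ (Sum.inl j) = g j := by
  classical
  have h1 : Fintype.card (Fin r) = Fintype.card {a : Fin n // a ∈ Set.range g} := by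
    refine Fintype.card_congr (Equiv.ofInjective g hg)
  have h2 : Fintype.card {a : Fin n // ¬ a ∈ Set.range g} = e := by
    rw [Fintype.card_subtype_compl, ← h1, Fintype.card_fin, Fintype.card_fin]
    omega
  obtain ⟨ψ⟩ : Nonempty (Fin e ≃ {a : Fin n // ¬ a ∈ Set.range g}) := by
    rw [← h2]
    exact ⟨(Fintype.equivFin _).symm⟩
  refine ⟨(Equiv.sumCongr (Equiv.ofInjective g hg) ψ).trans
    (Equiv.sumCompl fun a : Fin n => a ∈ Set.range g), fun j => ?_⟩
  simp

theorem minOn_le {n : ℕ} (f : Laurent n) (ν : Fin n → ℤ) {m : Fin n → ℤ}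
    (hm : m ∈ f.coeff.support) : minOn f ν ≤ pair ν m := by
  have hfin : ((fun m => pair ν m) '' (f.coeff.support : Set (Fin n → ℤ))).Finite :=
    f.coeff.support.finite_toSet.image _
  exact csInf_le hfin.bddBelow ⟨m, hm, rfl⟩

section

variable {e n : ℕ} {K : Type} [Field K] [Algebra ℂ K] (v : DivVal e K)

/-- the constants in the valuation ring -/
def cst : ℂ →+* v.OV :=
  (algebraMap ℂ K).codRestrict v.OV.toSubring fun c => Ge.const v c

theorem cst_val (c : ℂ) : ((cst v c : v.OV) : K) = algebraMap ℂ K c := rfl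

/-- the residue field as an algebra over `ℂ` -/
@[reducible] def alg : Algebra ℂ (IsLocalRing.ResidueField v.OV) :=
  ((IsLocalRing.residue v.OV).comp (cst v)).toAlgebra

theorem alg_eq (c : ℂ) :
    letI := alg v
    algebraMap ℂ (IsLocalRing.ResidueField v.OV) c = IsLocalRing.residue v.OV (cst v c) := rfl

variable {v}

/-- the units `x_j / t ^ ord x_j` -/
theorem exists_units {x : Fin n → K} (hx : ∀ j, x j ≠ 0) {t : K} (ht : t ≠ 0) (h1 : v.ord t = 1) :
    ∃ ub : Fin n → (v.OV)ˣ, ∀ j, ((ub j : v.OV) : K) = x j * t ^ (-(wt x v j)) := by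
  have h2 : ∀ j, v.ord (x j * t ^ (-(wt x v j))) = 0 := by
    intro j
    rw [v.ord_mul _ _ (hx j) (zpow_ne_zero _ ht), ord_zpow, h1]
    unfold wt
    ring
  have h3 : ∀ j, IsUnit (⟨x j * t ^ (-(wt x v j)), Or.inr (h2 j).ge⟩ : v.OV) := fun j =>
    (OV_isUnit_iff v).2 ⟨mul_ne_zero (hx j) (zpow_ne_zero _ ht), h2 j⟩
  refine ⟨fun j => (h3 j).unit, fun j => ?_⟩
  rw [IsUnit.unit_spec]

theorem U_val {x : Fin n → K} {t : K} (ht : t ≠ 0) (ub : Fin n → (v.OV)ˣ)
    (hub : ∀ j, ((ub j : v.OV) : K) = x j * t ^ (-(wt x v j))) (m : Fin n → ℤ) :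
    (((∏ j, ub j ^ m j : (v.OV)ˣ) : v.OV) : K) = mon x m * t ^ (-(pair (wt x v) m)) := by
  have h1 : (((∏ j, ub j ^ m j : (v.OV)ˣ) : v.OV) : K) =
      ((Units.map (v.OV.subtype : v.OV →* K) (∏ j, ub j ^ m j) : Kˣ) : K) := rfl
  rw [h1, map_prod, Units.coe_prod]
  have h2 : ∀ j, ((Units.map (v.OV.subtype : v.OV →* K) (ub j ^ m j) : Kˣ) : K) =
      x j ^ m j * t ^ (-(wt x v j * m j)) := by
    intro j
    rw [map_zpow, Units.val_zpow_eq_zpow_val]
    have h3 : ((Units.map (v.OV.subtype : v.OV →* K) (ub j) : Kˣ) : K) =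
      x j * t ^ (-(wt x v j)) := hub j
    rw [h3, mul_zpow, ← zpow_mul, neg_mul]
  rw [Finset.prod_congr rfl fun j _ => h2 j, Finset.prod_mul_distrib]
  unfold mon pair
  congr 1
  have h3 : ∀ s : Finset (Fin n), ∏ j ∈ s, t ^ (-(wt x v j * m j)) =
      t ^ (-∑ j ∈ s, wt x v j * m j) := by
    classical
    intro s
    induction s using Finset.induction_on with
    | empty => simp
    | insert a s ha ih =>
      rw [Finset.prod_insert ha, Finset.sum_insert ha, ih, neg_add, zpow_add₀ ht]
  exact h3 _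

theorem U_res (ub : Fin n → (v.OV)ˣ) (m : Fin n → ℤ) :
    IsLocalRing.residue v.OV ((∏ j, ub j ^ m j : (v.OV)ˣ) : v.OV) =
      mon (fun j => IsLocalRing.residue v.OV (ub j : v.OV)) m := by
  have h1 : IsLocalRing.residue v.OV ((∏ j, ub j ^ m j : (v.OV)ˣ) : v.OV) =
      ((Units.map (IsLocalRing.residue v.OV : v.OV →* IsLocalRing.ResidueField v.OV)
        (∏ j, ub j ^ m j) : (IsLocalRing.ResidueField v.OV)ˣ) : IsLocalRing.ResidueField v.OV) := rfl
  rw [h1, map_prod, Units.coe_prod]
  unfold mon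
  refine Finset.prod_congr rfl fun j _ => ?_
  rw [map_zpow, Units.val_zpow_eq_zpow_val]
  rfl

/-- the residues of linear combinations of the monomials of a Laurent polynomial -/
theorem res_sum {x : Fin n → K} {t : K} (ht : t ≠ 0) (h1 : v.ord t = 1)
    (ub : Fin n → (v.OV)ˣ) (hub : ∀ j, ((ub j : v.OV) : K) = x j * t ^ (-(wt x v j)))
    (f : Laurent n) (a : (Fin n → ℤ) → ℂ) :
    letI := alg v
    ∃ y : v.OV, (y : K) = (∑ m ∈ f.coeff.support, algebraMap ℂ K (a m) * mon x m) *
        t ^ (-(minOn f (wt x v))) ∧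
      IsLocalRing.residue v.OV y =
        ∑ m ∈ f.coeff.support.filter (fun m => pair (wt x v) m = minOn f (wt x v)),
          algebraMap ℂ (IsLocalRing.ResidueField v.OV) (a m) *
            mon (fun j => IsLocalRing.residue v.OV (ub j : v.OV)) m := by
  letI := alg v
  obtain ⟨tb, htb⟩ : ∃ tb : v.OV, (tb : K) = t := ⟨⟨t, Or.inr (by omega)⟩, rfl⟩
  have htr : IsLocalRing.residue v.OV tb = 0 := by
    rw [IsLocalRing.residue_eq_zero_iff, mem_maximalIdeal_iff, htb]
    exact Or.inr h1.ge
  refine ⟨∑ m ∈ f.coeff.support, cst v (a m) * ((∏ j, ub j ^ m j : (v.OV)ˣ) : v.OV) *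
    tb ^ (pair (wt x v) m - minOn f (wt x v)).toNat, ?_, ?_⟩
  · have h2 : ((∑ m ∈ f.coeff.support, cst v (a m) * ((∏ j, ub j ^ m j : (v.OV)ˣ) : v.OV) *
        tb ^ (pair (wt x v) m - minOn f (wt x v)).toNat : v.OV) : K) =
        ∑ m ∈ f.coeff.support, algebraMap ℂ K (a m) * (mon x m * t ^ (-(pair (wt x v) m))) *
        t ^ (pair (wt x v) m - minOn f (wt x v)).toNat := by
      have h3 := map_sum v.OV.subtype (fun m => cst v (a m) *
        ((∏ j, ub j ^ m j : (v.OV)ˣ) : v.OV) *
        tb ^ (pair (wt x v) m - minOn f (wt x v)).toNat) f.coeff.support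
      refine h3.trans (Finset.sum_congr rfl fun m _ => ?_)
      rw [map_mul, map_mul, map_pow]
      have h4 : v.OV.subtype tb = t := htb
      have h5 : v.OV.subtype ((∏ j, ub j ^ m j : (v.OV)ˣ) : v.OV) =
        mon x m * t ^ (-(pair (wt x v) m)) := U_val ht ub hub m
      rw [h4, h5]
      rfl
    rw [h2, Finset.sum_mul]
    refine Finset.sum_congr rfl fun m hm => ?_
    have h6 := minOn_le f (wt x v) hm
    have h7 : t ^ (pair (wt x v) m - minOn f (wt x v)).toNat =
        t ^ (pair (wt x v) m - minOn f (wt x v)) := by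
      rw [← zpow_natCast, Int.toNat_of_nonneg (by omega)]
    rw [h7, mul_assoc, mul_assoc, ← zpow_add₀ ht, mul_assoc]
    congr 3
    ring
  · rw [map_sum, Finset.sum_filter]
    refine Finset.sum_congr rfl fun m hm => ?_
    have h6 := minOn_le f (wt x v) hm
    rw [map_mul, map_mul, map_pow, htr, U_res]
    split_ifs with h
    · rw [h, sub_self, Int.toNat_zero, pow_zero, mul_one]
      rfl
    · have h7 : (pair (wt x v) m - minOn f (wt x v)).toNat ≠ 0 := by omega
      rw [zero_pow h7, mul_zero]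

theorem ev_init {F : Type} [Field F] [Algebra ℂ F] (p : Fin n → F) (f : Laurent n)
    (ν : Fin n → ℤ) : ev p (initForm f ν) =
      ∑ m ∈ f.coeff.support.filter (fun m => pair ν m = minOn f ν),
        algebraMap ℂ F (f.coeff m) * mon p m := by
  classical
  unfold ev initForm
  have h := Finsupp.sum_filter_index (p := fun m => pair ν m = minOn f ν) f.coeff
    (fun m c => algebraMap ℂ F c * mon p m)
  refine h.trans ?_
  rw [Finsupp.support_filter]

theorem grad_init {F : Type} [Field F] [Algebra ℂ F] (p : Fin n → F) (f : Laurent n)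
    (ν : Fin n → ℤ) (j : Fin n) : grad p (initForm f ν) j =
      ∑ m ∈ f.coeff.support.filter (fun m => pair ν m = minOn f ν),
        algebraMap ℂ F (f.coeff m * (m j : ℂ)) * mon p m := by
  classical
  unfold grad initForm
  have h := Finsupp.sum_filter_index (p := fun m => pair ν m = minOn f ν) f.coeff
    (fun m c => algebraMap ℂ F c * (m j : F) * mon p m)
  refine h.trans ?_
  rw [Finsupp.support_filter]
  refine Finset.sum_congr rfl fun m _ => ?_
  rw [map_mul, map_intCast]

end

end MIN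

open MIN in
theorem t_MIN : M_MIN := by
  intro _ hNUL e n r K _ _ f x hn hx hf h0 v hnd
  letI := alg v
  obtain ⟨t, ht, h1⟩ := v.unif
  obtain ⟨ub, hub⟩ := exists_units (v := v) hx ht h1
  set p : Fin n → IsLocalRing.ResidueField v.OV :=
    fun j => IsLocalRing.residue v.OV (ub j : v.OV) with hp
  have hp0 : ∀ j, p j ≠ 0 := fun j =>
    (IsLocalRing.residue_ne_zero_iff_isUnit _).2 (ub j).isUnit
  have hz : ∀ i, ev p (initForm (f i) (wt x v)) = 0 := by
    intro i
    obtain ⟨y, hy, hr⟩ := res_sum ht h1 ub hub (f i) fun m => (f i).coeff m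
    rw [ev_init, ← hr]
    have h2 : (y : K) = 0 := by
      rw [hy]
      have h3 : ∑ m ∈ (f i).coeff.support, algebraMap ℂ K ((f i).coeff m) * mon x m = 0 := h0 i
      rw [h3, zero_mul]
    have h4 : y = 0 := Subtype.ext h2
    rw [h4, map_zero]
  have hli := hNUL f (wt x v) hnd p hp0 hz
  have hy : ∀ i j, ∃ y : v.OV, (y : K) = grad x (f i) j * t ^ (-(minOn (f i) (wt x v))) ∧
      IsLocalRing.residue v.OV y = grad p (initForm (f i) (wt x v)) j := by
    intro i j
    obtain ⟨y, hy, hr⟩ := res_sum ht h1 ub hub (f i) fun m => (f i).coeff m * (m j : ℂ)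
    refine ⟨y, ?_, ?_⟩
    · rw [hy]
      congr 1
      unfold grad Finsupp.sum
      refine Finset.sum_congr rfl fun m _ => ?_
      rw [map_mul, map_intCast]
    · rw [grad_init, ← hr]
  choose y hy hyr using hy
  obtain ⟨g, hg, hdet⟩ := exists_minor
    (Matrix.of fun i j => grad p (initForm (f i) (wt x v)) j) hli
  obtain ⟨σ, hσ⟩ := exists_equiv hn g hg
  refine ⟨σ, ?_⟩
  set Y : Matrix (Fin r) (Fin r) v.OV := Matrix.of fun i j => y i (g j) with hY
  have hYr : IsLocalRing.residue v.OV Y.det ≠ 0 := by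
    have h2 : (IsLocalRing.residue v.OV).mapMatrix Y =
        Matrix.of fun i j : Fin r =>
          (Matrix.of fun i j => grad p (initForm (f i) (wt x v)) j) i (g j) := by
      ext i j
      exact hyr i (g j)
    rw [RingHom.map_det, h2]
    exact hdet
  have hYu := (OV_isUnit_iff v).1 ((IsLocalRing.residue_ne_zero_iff_isUnit _).1 hYr)
  have hYd : ((Y.det : v.OV) : K) = Matrix.det (Matrix.of fun i j : Fin r =>
      t ^ (-(minOn (f i) (wt x v))) * grad x (f i) (g j)) := by
    have h2 : ((Y.det : v.OV) : K) = v.OV.subtype Y.det := rfl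
    rw [h2, RingHom.map_det]
    congr 1
    ext i j
    change ((y i (g j) : v.OV) : K) = _
    rw [hy, mul_comm]
    rfl
  have h3 : ((Y.det : v.OV) : K) = (∏ i, t ^ (-(minOn (f i) (wt x v)))) * minor f x σ := by
    rw [hYd]
    have h4 := Matrix.det_mul_column (fun i : Fin r => t ^ (-(minOn (f i) (wt x v))))
      (Matrix.of fun i j : Fin r => grad x (f i) (g j))
    refine h4.trans ?_
    unfold minor
    simp only [hσ]
  have h5 : (∏ i, t ^ (-(minOn (f i) (wt x v)))) ≠ 0 :=
    Finset.prod_ne_zero_iff.2 fun i _ => zpow_ne_zero _ ht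
  have h6 : minor f x σ ≠ 0 := by
    intro h
    rw [h, mul_zero] at h3
    exact hYu.1 h3
  refine ⟨h6, ?_⟩
  have h7 := v.ord_mul _ _ h5 h6
  rw [← h3, hYu.2, ord_prod v _ _ fun i _ => zpow_ne_zero _ ht] at h7
  simp only [ord_zpow, h1, mul_one, Finset.sum_neg_distrib] at h7
  unfold psi
  omega

end

end MMCI
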