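import Pool.Agent.MMCI.StB

/-!
# NUL: nondegeneracy at the points over extension fields
-/

set_option autoImplicit false

namespace MMCI

open MldGeo

noncomputable section

namespace NUL

/-- a finitely generated nonzero algebra over the complex numbers has a point -/
lemma exists_pt (A : Type) [CommRing A] [Algebra ℂ A] [Nontrivial A] [Algebra.FiniteType ℂ A] :
    Nonempty (A →ₐ[ℂ] ℂ) := by
  obtain ⟨m, hm⟩ := Ideal.exists_maximal A
  let _ : Field (A ⧸ m) := Ideal.Quotient.field m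
  have _ : Algebra.FiniteType ℂ (A ⧸ m) :=
    Algebra.FiniteType.of_surjective (Ideal.Quotient.mkₐ ℂ m) (Ideal.Quotient.mkₐ_surjective ℂ m)
  have _ : Module.Finite ℂ (A ⧸ m) := finite_of_finite_type_of_isJacobsonRing ℂ (A ⧸ m)
  exact ⟨(IsAlgClosed.lift : (A ⧸ m) →ₐ[ℂ] ℂ).comp (Ideal.Quotient.mkₐ ℂ m)⟩

variable {n : ℕ} {A : Type} [CommRing A] [Algebra ℂ A]

/-- monomials in units -/
def M (u : Fin n → Aˣ) (m : Fin n → ℤ) : A := ((∏ j, u j ^ m j : Aˣ) : A)

/-- values of Laurent polynomials -/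
def EV (u : Fin n → Aˣ) (f : Laurent n) : A := f.coeff.sum fun m c => algebraMap ℂ A c * M u m

/-- gradients -/
def GR (u : Fin n → Aˣ) (f : Laurent n) (j : Fin n) : A :=
  f.coeff.sum fun m c => algebraMap ℂ A c * (m j : A) * M u m

variable {L : Type} [Field L] [Algebra ℂ L]

lemma map_M (ψ : A →ₐ[ℂ] L) (u : Fin n → Aˣ) (m : Fin n → ℤ) :
    ψ (M u m) = mon (fun j => ψ (u j)) m := by
  have h1 : ψ (M u m) = ((Units.map (ψ : A →* L) (∏ j, u j ^ m j) : Lˣ) : L) := rfl
  rw [h1, map_prod, Units.coe_prod]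
  unfold mon
  apply Finset.prod_congr rfl
  intro j _
  rw [map_zpow, Units.val_zpow_eq_zpow_val]
  rfl

lemma map_EV (ψ : A →ₐ[ℂ] L) (u : Fin n → Aˣ) (f : Laurent n) :
    ψ (EV u f) = ev (fun j => ψ (u j)) f := by
  unfold EV ev Finsupp.sum
  rw [map_sum]
  apply Finset.sum_congr rfl
  intro m _
  rw [map_mul, map_M, AlgHom.commutes]

lemma map_GR (ψ : A →ₐ[ℂ] L) (u : Fin n → Aˣ) (f : Laurent n) (j : Fin n) :
    ψ (GR u f j) = grad (fun j => ψ (u j)) f j := by
  unfold GR grad Finsupp.sum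
  rw [map_sum]
  apply Finset.sum_congr rfl
  intro m _
  rw [map_mul, map_mul, map_M, AlgHom.commutes, map_intCast]

end NUL

theorem t_NUL : S_NUL := by
  intro n r F _ _ f ν hnd p hp h0
  rw [Fintype.linearIndependent_iff]
  intro a ha
  by_contra hne
  push Not at hne
  obtain ⟨i0, hi0⟩ := hne
  set S : Set F := Set.range p ∪ Set.range (fun j => (p j)⁻¹) ∪ Set.range a ∪ {(a i0)⁻¹} with hS
  have hfin : S.Finite := by
    refine Set.Finite.union (Set.Finite.union (Set.Finite.union ?_ ?_) ?_) ?_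
    · exact Set.finite_range _
    · exact Set.finite_range _
    · exact Set.finite_range _
    · exact Set.finite_singleton _
  set A : Subalgebra ℂ F := Algebra.adjoin ℂ S with hA
  have hfg : A.FG := by
    have h1 := Subalgebra.fg_adjoin_finset (R := ℂ) hfin.toFinset
    rw [Set.Finite.coe_toFinset] at h1
    exact h1
  have _ : Algebra.FiniteType ℂ A := (Subalgebra.fg_iff_finiteType A).mp hfg
  obtain ⟨φ⟩ := NUL.exists_pt A
  have hsub : S ⊆ A := Algebra.subset_adjoin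
  have m1 : ∀ j, p j ∈ A := fun j => hsub (Or.inl (Or.inl (Or.inl ⟨j, rfl⟩)))
  have m2 : ∀ j, (p j)⁻¹ ∈ A := fun j => hsub (Or.inl (Or.inl (Or.inr ⟨j, rfl⟩)))
  have m3 : ∀ i, a i ∈ A := fun i => hsub (Or.inl (Or.inr ⟨i, rfl⟩))
  have m4 : (a i0)⁻¹ ∈ A := hsub (Or.inr rfl)
  let u : Fin n → (A)ˣ := fun j => ⟨⟨p j, m1 j⟩, ⟨(p j)⁻¹, m2 j⟩,
    Subtype.ext (mul_inv_cancel₀ (hp j)), Subtype.ext (inv_mul_cancel₀ (hp j))⟩
  let b : Fin r → A := fun i => ⟨a i, m3 i⟩
  have hinj : Function.Injective A.val := Subtype.val_injective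
  have hu : (fun j => A.val (u j : A)) = p := rfl
  have e1 : ∀ i, NUL.EV u (initForm (f i) ν) = 0 := by
    intro i
    apply hinj
    rw [NUL.map_EV, hu, map_zero, h0]
  have e2 : ∀ j, ∑ i, b i * NUL.GR u (initForm (f i) ν) j = 0 := by
    intro j
    apply hinj
    rw [map_sum, map_zero]
    have h2 := congrFun ha j
    rw [Finset.sum_apply, Pi.zero_apply] at h2
    refine Eq.trans ?_ h2
    apply Finset.sum_congr rfl
    intro i _
    rw [map_mul, NUL.map_GR, hu]
    rfl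
  have hp' : ∀ j, φ (u j : A) ≠ 0 := fun j => ((u j).isUnit.map φ).ne_zero
  have h3 := hnd (fun j => φ (u j : A)) hp' (fun i => by rw [← NUL.map_EV, e1, map_zero])
  rw [Fintype.linearIndependent_iff] at h3
  have h4 := h3 (fun i => φ (b i)) (by
    funext j
    rw [Finset.sum_apply]
    have h5 := congrArg φ (e2 j)
    rw [map_sum, map_zero] at h5
    rw [Pi.zero_apply, ← h5]
    apply Finset.sum_congr rfl
    intro i _
    rw [map_mul, NUL.map_GR]
    rfl) i0
  have h6 : b i0 * ⟨(a i0)⁻¹, m4⟩ = 1 := Subtype.ext (mul_inv_cancel₀ hi0)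
  have h7 := congrArg φ h6
  rw [map_mul, h4, zero_mul, map_one] at h7
  exact zero_ne_one h7

end

end MMCI
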