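import Pool.Agent.MMCI.StB

/-!
# OMG: the residue form
-/

namespace MMCI

open MldGeo

noncomputable section

namespace OMG

/-- A matrix with linearly independent rows has a nonzero maximal minor. -/
theorem exists_minor {r n : ℕ} {K : Type} [Field K] (G : Matrix (Fin r) (Fin n) K)
    (h : LinearIndependent K G.row) :
    ∃ g : Fin r → Fin n, Function.Injective g ∧
      (Matrix.of fun i j : Fin r => G i (g j)).det ≠ 0 := by
  obtain ⟨κ, a, ha, hsp, hli⟩ := exists_linearIndependent' K G.col
  have : Finite κ := Finite.of_injective a ha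
  have : Fintype κ := Fintype.ofFinite κ
  have hrk : G.rank = r := by
    have := LinearIndependent.rank_matrix h
    rwa [Fintype.card_fin] at this
  have hcard : Fintype.card κ = r := by
    have h1 := linearIndependent_iff_card_eq_finrank_span.mp hli
    rw [Set.finrank, hsp, ← Matrix.rank_eq_finrank_span_cols, hrk] at h1
    exact h1
  obtain ⟨φ⟩ : Nonempty (Fin r ≃ κ) := by
    rw [← hcard]
    exact ⟨(Fintype.equivFin κ).symm⟩
  refine ⟨a ∘ φ, ha.comp φ.injective, ?_⟩
  have h2 : LinearIndependent K (Matrix.of fun i j : Fin r => G i ((a ∘ φ) j)).col :=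
    hli.comp φ φ.injective
  have h3 := Matrix.linearIndependent_cols_iff_isUnit.1 h2
  rw [Matrix.isUnit_iff_isUnit_det] at h3
  exact h3.ne_zero

/-- An injective family extends to a bijection. -/
theorem exists_equiv {r e n : ℕ} (hn : n = r + e) (g : Fin r → Fin n)
    (hg : Function.Injective g) :
    ∃ σ : Fin r ⊕ Fin e ≃ Fin n, ∀ j, σ (Sum.inl j) = g j := by
  classical
  have h1 : Fintype.card (Fin r) = Fintype.card {a : Fin n // a ∈ Set.range g} := by
    refine Fintype.card_congr (Equiv.ofInjective g hg)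
  have h2 : Fintype.card {a : Fin n // ¬ a ∈ Set.range g} = e := by
    rw [Fintype.card_subtype_compl, ← h1, Fintype.card_fin, Fintype.card_fin]
    omega
  obtain ⟨ψ⟩ : Nonempty (Fin e ≃ {a : Fin n // ¬ a ∈ Set.range g}) := by
    rw [← h2]
    exact ⟨(Fintype.equivFin _).symm⟩
  refine ⟨(Equiv.sumCongr (Equiv.ofInjective g hg) ψ).trans
    (Equiv.sumCompl fun a : Fin n => a ∈ Set.range g), fun j => ?_⟩
  simp

end OMG

theorem t_OMG : M_OMG := by
  intro hMON hBAS hPLU e n r K _ _ f x hS
  obtain ⟨g, hg, hdet⟩ := OMG.exists_minor (Matrix.of fun i j => grad x (f i) j) hS.rank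
  obtain ⟨σ0, hσ0⟩ := OMG.exists_equiv hS.dim_eq g hg
  have h0 : minor f x σ0 ≠ 0 := by
    unfold minor
    simp only [hσ0]
    exact hdet
  have hb0 := (hBAS f x hS.ne hS.gen hS.dim hS.zero σ0 h0).2.1
  refine ⟨(minor f x σ0)⁻¹ • dlogs (rest x σ0), ?_, fun σ hσ => ?_⟩
  · exact smul_ne_zero (inv_ne_zero h0) hb0
  · have hrel : ∀ i, ∑ j, grad x (f i) j • dlog (x j) = 0 := fun i =>
      (hMON (e := e) x hS.ne).2.2.2.1 (f i) (hS.zero i)
    obtain ⟨ε, hε, h⟩ := hPLU (fun j => dlog (x j)) (fun i j => grad x (f i) j) hrel σ0 σ h0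
    refine ⟨ε, hε, ?_⟩
    have h' : minor f x σ0 • dlogs (rest x σ) = (ε * minor f x σ) • dlogs (rest x σ0) := h
    have hεε : ε * ε = 1 := by
      rcases hε with rfl | rfl <;> ring
    calc minor f x σ • (minor f x σ0)⁻¹ • dlogs (rest x σ0)
        = ((minor f x σ0)⁻¹ * ε) • ((ε * minor f x σ) • dlogs (rest x σ0)) := by
          rw [smul_smul, smul_smul]
          congr 1
          calc minor f x σ * (minor f x σ0)⁻¹ = (ε * ε) * (minor f x σ * (minor f x σ0)⁻¹) := by
                rw [hεε, one_mul]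
            _ = (minor f x σ0)⁻¹ * ε * (ε * minor f x σ) := by ring
      _ = ((minor f x σ0)⁻¹ * ε) • (minor f x σ0 • dlogs (rest x σ)) := by rw [h']
      _ = ε • dlogs (rest x σ) := by
          rw [smul_smul]
          congr 1
          field_simp

end

end MMCI
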