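import Pool.Agent.MMCI.StB
import Pool.Agent.MldGeo.FRM

/-!
# MP_fa3f7f_ag, MMCI: PLU, complementary minors
-/

namespace MMCI

open MldGeo

noncomputable section

namespace PLU

variable {e r : ℕ} {K : Type} [Field K]

theorem multi {E : Type} [AddCommGroup E] [Module K E] (v : Fin e → E)
    (A : Matrix (Fin e) (Fin e) K) :
    exteriorPower.ιMulti K e (fun i => ∑ j, A i j • v j) =
      A.det • exteriorPower.ιMulti K e v := by
  have h1 := MldGeo.FRM.iota_eq (Pi.basisFun K (Fin e)) (fun i => A i)
  have h2 := congrArg (exteriorPower.map e (Fintype.linearCombination K v)) h1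
  rw [map_smul, exteriorPower.map_apply_ιMulti, exteriorPower.map_apply_ιMulti,
    Pi.basisFun_det_apply] at h2
  have h3 : (Fintype.linearCombination K v) ∘ (fun i => A i) = fun i => ∑ j, A i j • v j := by
    funext i
    rw [Function.comp_apply, Fintype.linearCombination_apply]
  have h4 : (Fintype.linearCombination K v) ∘ (Pi.basisFun K (Fin e) : Fin e → (Fin e → K)) =
      v := by
    funext i
    rw [Function.comp_apply, Pi.basisFun_apply, Fintype.linearCombination_apply_single, one_smul]
  rw [h3, h4] at h2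
  exact h2

/-- complementary minors, for the identity in place of `σ` -/
theorem minors (G : Matrix (Fin r) (Fin r ⊕ Fin e) K) (τ : Equiv.Perm (Fin r ⊕ Fin e))
    (hG : (Matrix.of fun i j : Fin r => G i (Sum.inl j)).det ≠ 0)
    (B : Matrix (Fin r ⊕ Fin e) (Fin e) K) (hB1 : ∀ k l, B (Sum.inr k) l = if k = l then 1 else 0)
    (hB2 : ∀ i l, ∑ j, G i j * B j l = 0) :
    (Matrix.of fun i j : Fin r => G i (τ (Sum.inl j))).det =
      ((Equiv.Perm.sign τ : ℤ) : K) * ((Matrix.of fun i j : Fin r => G i (Sum.inl j)).det *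
        (Matrix.of fun k l : Fin e => B (τ (Sum.inr k)) l).det) := by
  classical
  set P : Matrix (Fin r) (Fin r) K := Matrix.of fun i j : Fin r => G i (Sum.inl j) with hP
  set S : Matrix (Fin r ⊕ Fin e) (Fin r ⊕ Fin e) K :=
    Matrix.of fun a b => Sum.elim (fun i => G i b) (fun l => if b = τ (Sum.inr l) then 1 else 0) a
    with hS
  set N : Matrix (Fin r ⊕ Fin e) (Fin r ⊕ Fin e) K :=
    Matrix.of fun a b => Sum.elim (fun j => if a = Sum.inl j then (1 : K) else 0) (fun l => B a l) b
    with hN
  -- the determinant of `N` is one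
  have hN1 : N.det = 1 := by
    have h1 : N = Matrix.fromBlocks 1 (Matrix.of fun i l => B (Sum.inl i) l) 0 1 := by
      ext a b
      rcases a with i | k <;> rcases b with j | l
      · simp [hN, Matrix.one_apply]
      · simp [hN]
      · simp [hN]
      · simp [hN, hB1, Matrix.one_apply]
    rw [h1, Matrix.det_fromBlocks_zero₂₁, Matrix.det_one, Matrix.det_one, one_mul]
  -- the product
  have hSN : S * N = Matrix.fromBlocks P 0
      (Matrix.of fun k j => if τ (Sum.inr k) = Sum.inl j then (1 : K) else 0)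
      (Matrix.of fun k l : Fin e => B (τ (Sum.inr k)) l) := by
    ext a b
    rw [Matrix.mul_apply]
    rcases a with i | k <;> rcases b with j | l
    · simp [hS, hN, hP]
    · simp only [hS, hN, Matrix.of_apply, Sum.elim_inl, Sum.elim_inr, Matrix.fromBlocks_apply₁₂,
        Matrix.zero_apply]
      exact hB2 i l
    · simp [hS, hN, eq_comm]
    · simp [hS, hN]
  have hdet : S.det = P.det * (Matrix.of fun k l : Fin e => B (τ (Sum.inr k)) l).det := by
    have h1 := congrArg Matrix.det hSN
    rw [Matrix.det_mul, hN1, mul_one, Matrix.det_fromBlocks_zero₁₂] at h1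
    exact h1
  have hperm : S.submatrix id τ = Matrix.fromBlocks
      (Matrix.of fun i j : Fin r => G i (τ (Sum.inl j)))
      (Matrix.of fun i k => G i (τ (Sum.inr k))) 0 1 := by
    ext a b
    rcases a with i | k <;> rcases b with j | l
    · simp [hS]
    · simp [hS]
    · simp [hS]
    · simp [hS, Matrix.one_apply, eq_comm]
  have h2 := Matrix.det_permute' τ S
  rw [hperm, Matrix.det_fromBlocks_zero₂₁, Matrix.det_one, mul_one, hdet] at h2
  exact h2

end PLU

theorem t_PLU : S_PLU := by
  classical
  intro e n r K E _ _ _ y G hG σ τ hσ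
  set P : Matrix (Fin r) (Fin r) K := Matrix.of fun i j : Fin r => G i (σ (Sum.inl j)) with hP
  set G' : Matrix (Fin r) (Fin r ⊕ Fin e) K := Matrix.of fun i b => G i (σ b) with hG'
  set Q : Matrix (Fin r) (Fin e) K := Matrix.of fun i l => G i (σ (Sum.inr l)) with hQ
  have hPu : IsUnit P.det := isUnit_iff_ne_zero.2 hσ
  set A : Matrix (Fin r) (Fin e) K := P⁻¹ * Q with hA
  set B : Matrix (Fin r ⊕ Fin e) (Fin e) K :=
    Matrix.of fun a l => Sum.elim (fun i => - A i l) (fun k => if k = l then 1 else 0) a with hB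
  -- the relation
  have hPA : P * A = Q := by rw [hA, Matrix.mul_nonsing_inv_cancel_left _ _ hPu]
  have hB2 : ∀ i l, ∑ j, G' i j * B j l = 0 := by
    intro i l
    rw [Fintype.sum_sum_type]
    have h1 : ∑ j : Fin r, G' i (Sum.inl j) * B (Sum.inl j) l = - Q i l := by
      rw [← hPA, Matrix.mul_apply, ← Finset.sum_neg_distrib]
      refine Finset.sum_congr rfl fun j _ => ?_
      simp [hG', hB, hP]
    have h2 : ∑ k : Fin e, G' i (Sum.inr k) * B (Sum.inr k) l = Q i l := by
      simp [hG', hB, hQ]
    rw [h1, h2, neg_add_cancel]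
  have hmin := PLU.minors G' (τ.trans σ.symm) (by simpa [hG'] using hσ) B (fun k l => by simp [hB])
    hB2
  -- the vectors
  have hy : ∀ b, y (σ b) = ∑ l, B b l • y (σ (Sum.inr l)) := by
    intro b
    rcases b with i | k
    · have h1 : ∀ i, ∑ j : Fin r, P i j • y (σ (Sum.inl j)) =
          - ∑ l : Fin e, Q i l • y (σ (Sum.inr l)) := by
        intro i
        have h2 := hG i
        rw [← σ.sum_comp, Fintype.sum_sum_type] at h2
        exact eq_neg_of_add_eq_zero_left h2
      have h3 : y (σ (Sum.inl i)) = ∑ k, P⁻¹ i k • ∑ j : Fin r, P k j • y (σ (Sum.inl j)) := by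
        simp only [Finset.smul_sum, smul_smul]
        rw [Finset.sum_comm]
        simp only [← Finset.sum_smul, ← Matrix.mul_apply, Matrix.nonsing_inv_mul _ hPu]
        simp [Matrix.one_apply]
      rw [h3]
      simp only [h1, smul_neg, Finset.smul_sum, smul_smul]
      rw [Finset.sum_neg_distrib, Finset.sum_comm]
      simp only [← Finset.sum_smul, ← Matrix.mul_apply, ← hA]
      simp [hB, Finset.sum_neg_distrib]
    · simp [hB]
  have hι : exteriorPower.ιMulti K e (fun l => y (τ (Sum.inr l))) =
      (Matrix.of fun k l : Fin e => B ((τ.trans σ.symm) (Sum.inr k)) l).det •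
        exteriorPower.ιMulti K e (fun l => y (σ (Sum.inr l))) := by
    rw [← PLU.multi]
    congr 1
    funext k
    have h1 := hy ((τ.trans σ.symm) (Sum.inr k))
    rw [Equiv.trans_apply, Equiv.apply_symm_apply] at h1
    exact h1
  have e1 : (Matrix.of fun i j : Fin r => G' i ((τ.trans σ.symm) (Sum.inl j))) =
      Matrix.of fun i j : Fin r => G i (τ (Sum.inl j)) := by
    ext i j
    simp [hG']
  have e2 : (Matrix.of fun i j : Fin r => G' i (Sum.inl j)) = P := by
    ext i j
    simp [hG', hP]
  rw [e1, e2] at hmin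
  refine ⟨((Equiv.Perm.sign (τ.trans σ.symm) : ℤ) : K), ?_, ?_⟩
  · rcases Int.units_eq_one_or (Equiv.Perm.sign (τ.trans σ.symm)) with h | h
    · left; rw [h]; simp
    · right; rw [h]; simp
  · rw [hι, hmin, smul_smul]
    congr 1
    have h5 : ((Equiv.Perm.sign (τ.trans σ.symm) : ℤ) : K) *
        ((Equiv.Perm.sign (τ.trans σ.symm) : ℤ) : K) = 1 := by
      rcases Int.units_eq_one_or (Equiv.Perm.sign (τ.trans σ.symm)) with h | h
      · rw [h]; simp
      · rw [h]; simp
    rw [← mul_assoc, h5, one_mul]

end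

end MMCI
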