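import Pool.Agent.MMCI.StB
import Pool.Agent.MldGeo.Ord
import Pool.Agent.MldGeo.OLC

/-!
# Module RES: the residues of monomials

The first part (exchange of residues) follows `Pool/Agent/MMCI/EXR.lean` (helper76).
-/

set_option autoImplicit false

namespace MMCI

open MldGeo MvPolynomial

namespace RES

/-- the exchange lemma in a field -/
theorem sel {κ ι : Type} [Field κ] [Algebra ℂ κ] {k : ℕ} (tb : ι → κ) (ub : Fin k → κ)
    (hu : AlgebraicIndependent ℂ ub)
    (halg : ∀ i, IsAlgebraic (Algebra.adjoin ℂ (Set.range tb)) (ub i)) :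
    ∃ c : Fin k → ι, AlgebraicIndependent ℂ fun i => tb (c i) := by
  obtain ⟨B, hB⟩ := (AlgebraicIndependent.matroid ℂ κ).exists_isBasis (Set.range tb)
  have h1 : (AlgebraicIndependent.matroid ℂ κ).Indep (Set.range ub) :=
    AlgebraicIndependent.matroid_indep_iff.mpr hu.to_subtype_range
  have h2 : Set.range ub ⊆ (AlgebraicIndependent.matroid ℂ κ).closure (Set.range tb) := by
    rw [AlgebraicIndependent.matroid_closure_eq]
    rintro _ ⟨i, rfl⟩
    exact halg i
  have h3 : (Set.range ub).encard ≤ B.encard := by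
    rw [hB.encard_eq_eRk, ← Matroid.eRk_closure_eq]
    exact h1.encard_le_eRk_of_subset h2
  have hinj : Function.Injective ub := hu.injective
  have h4 : (Set.range ub).encard = (k : ℕ∞) := by
    rw [← Set.image_univ, hinj.encard_image, Set.encard_univ]
    simp
  rw [h4] at h3
  obtain ⟨f⟩ : Nonempty (Fin k ↪ B) := by
    obtain ⟨t, htB, ht⟩ := Set.exists_subset_encard_eq h3
    have htf : t.Finite := by
      rw [← Set.encard_lt_top_iff, ht]
      exact ENat.natCast_lt_top k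
    have := htf.fintype
    have hc : Fintype.card t = k := by
      rw [Set.encard_eq_coe_toFinset_card] at ht
      rw [← Set.toFinset_card]
      exact_mod_cast ht
    let e : t ≃ Fin k := Fintype.equivFinOfCardEq hc
    exact ⟨⟨fun i => ⟨(e.symm i : κ), htB (e.symm i).2⟩, fun i j hij => by
      have := congrArg Subtype.val hij
      exact e.symm.injective (Subtype.ext this)⟩⟩
  have h5 : ∀ b : B, ∃ i, tb i = b := fun b => hB.subset b.2
  choose c hc using h5
  refine ⟨fun i => c (f i), ?_⟩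
  have h6 : AlgebraicIndependent ℂ (fun b : B => (b : κ)) :=
    AlgebraicIndependent.matroid_indep_iff.mp hB.indep
  have h7 := h6.comp f f.injective
  have h8 : (fun i => tb (c (f i))) = (fun b : B => (b : κ)) ∘ f := by
    funext i
    exact hc (f i)
  rw [h8]
  exact h7

section Res

variable {e : ℕ} {K : Type} [Field K] [Algebra ℂ K] (w : DivVal e K)

/-- the constants are in the valuation ring -/
@[reducible] noncomputable def alg : Algebra ℂ w.OV :=
  ((algebraMap ℂ K).codRestrict w.OV.toSubring fun c => DivVal.Ge.const w c).toAlgebra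

theorem alg_val (c : ℂ) :
    letI := alg w
    ((algebraMap ℂ w.OV c : w.OV) : K) = algebraMap ℂ K c := rfl

/-- the inclusion of the valuation ring -/
noncomputable def incl : letI := alg w; w.OV →ₐ[ℂ] K :=
  letI := alg w
  { w.OV.subtype with commutes' := fun _ => rfl }

theorem incl_apply (a : w.OV) : letI := alg w; incl w a = (a : K) := rfl

/-- the residue map -/
noncomputable def resi : letI := alg w; w.OV →ₐ[ℂ] IsLocalRing.ResidueField w.OV :=
  letI := alg w
  { IsLocalRing.residue w.OV with commutes' := fun _ => rfl }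

theorem resi_ne (a : w.OV) : letI := alg w; resi w a ≠ 0 ↔ (a : K) ≠ 0 ∧ w.ord a = 0 := by
  letI := alg w
  change IsLocalRing.residue w.OV a ≠ 0 ↔ _
  rw [IsLocalRing.residue_ne_zero_iff_isUnit, DivVal.OV_isUnit_iff]

theorem resIndep_iff {ι : ℕ} (u : Fin ι → w.OV) :
    letI := alg w
    ResIndep w (fun i => (u i : K)) ↔ AlgebraicIndependent ℂ (fun i => resi w (u i)) := by
  letI := alg w
  have key : ∀ p : MvPolynomial (Fin ι) ℂ, (aeval (fun i => (u i : K)) p ≠ 0 ∧
      w.ord (aeval (fun i => (u i : K)) p) = 0) ↔ aeval (fun i => resi w (u i)) p ≠ 0 := by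
    intro p
    have h1 : aeval (fun i => resi w (u i)) p = resi w (aeval u p) :=
      (comp_aeval_apply u (resi w) p).symm
    have h2 : aeval (fun i => (u i : K)) p = ((aeval u p : w.OV) : K) :=
      (comp_aeval_apply u (incl w) p).symm
    rw [h1, h2, resi_ne]
  rw [algebraicIndependent_iff]
  constructor
  · intro h p hp
    by_contra h0
    exact (key p).1 (h p h0) hp
  · intro h p hp
    rw [key]
    exact fun h0 => hp (h p h0)

theorem ge_of_resIndep {ι : ℕ} {u : Fin ι → K} (h : ResIndep w u) (i : Fin ι) : w.Ge 0 (u i) := by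
  have := h (X i) (X_ne_zero i)
  rw [aeval_X] at this
  exact Or.inr this.2.ge

theorem choose {ι : Type} {k : ℕ} (t : ι → K) (ht : ∀ j, w.Ge 0 (t j)) (u : Fin k → K)
    (hu : ∀ i, w.Ge 0 (u i)) (h : ResIndep w u)
    (halg : letI := alg w
      ∀ i, IsAlgebraic (Algebra.adjoin ℂ (Set.range fun j => resi w ⟨t j, ht j⟩))
      (resi w ⟨u i, hu i⟩)) :
    ∃ c : Fin k → ι, ResIndep w fun i => t (c i) := by
  letI := alg w
  have h1 : AlgebraicIndependent ℂ (fun i => resi w ⟨u i, hu i⟩) :=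
    (resIndep_iff w (fun i => ⟨u i, hu i⟩)).1 h
  obtain ⟨c, hc⟩ := sel (fun j => resi w ⟨t j, ht j⟩) _ h1 halg
  exact ⟨c, (resIndep_iff w (fun i => ⟨t (c i), ht (c i)⟩)).2 hc⟩

omit [Algebra ℂ K] in
theorem zpow_split (a : K) (ha : a ≠ 0) (c : ℤ) : a ^ c * a ^ (-c).toNat = a ^ c.toNat := by
  rw [← zpow_natCast, ← zpow_natCast, ← zpow_add₀ ha]
  congr 1
  omega

end Res


/-! ### monomials -/

variable {n : ℕ} {F : Type} [Field F] [Algebra ℂ F]

theorem mon_zsmul (x : Fin n → F) (N : ℤ) (m : Fin n → ℤ) : mon x (N • m) = mon x m ^ N := by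
  unfold mon
  rw [← Finset.prod_zpow]
  refine Finset.prod_congr rfl fun i _ => ?_
  rw [Pi.smul_apply, smul_eq_mul, mul_comm, zpow_mul]

theorem mon_sum (x : Fin n → F) (hx : ∀ j, x j ≠ 0) {k : ℕ} (c : Fin k → ℤ)
    (b : Fin k → (Fin n → ℤ)) : mon x (∑ l, c l • b l) = ∏ l, mon x (b l) ^ c l := by
  have h1 : ∀ l, mon x (b l) ^ c l = mon x (c l • b l) := fun l => (mon_zsmul x _ _).symm
  rw [Finset.prod_congr rfl fun l _ => h1 l]
  unfold mon
  rw [Finset.prod_comm]
  refine Finset.prod_congr rfl fun i _ => ?_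
  rw [Finset.sum_apply]
  have h2 : ∀ s : Finset (Fin k), x i ^ ∑ l ∈ s, (c l • b l) i = ∏ l ∈ s, x i ^ (c l • b l) i := by
    intro s
    induction s using Finset.induction_on with
    | empty => simp
    | insert a s ha ih =>
      rw [Finset.sum_insert ha, Finset.prod_insert ha, zpow_add₀ (hx i), ih]
  exact h2 Finset.univ

end RES

open RES

theorem t_RES : M_RES := by
  intro hM e n k K _ _ x htr he hx v hBig b hb hspan
  obtain ⟨m1, -, -, -, m5⟩ := hM (e := e) x hx
  obtain ⟨v1, -⟩ := m5 v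
  obtain ⟨m, hm, hu⟩ := hBig
  letI := alg v
  have ht : ∀ j, mon x (b j) ≠ 0 ∧ v.ord (mon x (b j)) = 0 := fun j =>
    ⟨m1 _, by rw [v1, hb j]⟩
  have ht' : ∀ j, v.Ge 0 (mon x (b j)) := fun j => Or.inr (ht j).2.ge
  have hu' := ge_of_resIndep v hu
  refine RES.choose v (fun j => mon x (b j)) ht' (fun l => mon x (m l)) hu' hu fun i => ?_
  obtain ⟨M, c, hM0, hMc⟩ : ∃ (M : ℕ) (c : Fin k → ℤ), 0 < M ∧
      mon x (m i) ^ M = ∏ j, mon x (b j) ^ c j := by
    obtain ⟨N, c, hN, hNc⟩ := hspan (m i) (hm i)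
    have h1 : mon x (m i) ^ N = ∏ j, mon x (b j) ^ c j := by
      rw [← mon_zsmul, hNc, mon_sum x hx]
    rcases lt_or_gt_of_ne hN with hlt | hgt
    · refine ⟨N.natAbs, fun j => - c j, Int.natAbs_pos.2 hN, ?_⟩
      have h2 : ((N.natAbs : ℕ) : ℤ) = -N := by omega
      rw [← zpow_natCast, h2, zpow_neg, h1, ← Finset.prod_inv_distrib]
      exact Finset.prod_congr rfl fun j _ => (zpow_neg _ _).symm
    · refine ⟨N.natAbs, c, Int.natAbs_pos.2 hN, ?_⟩
      have h2 : ((N.natAbs : ℕ) : ℤ) = N := by omega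
      rw [← zpow_natCast, h2, h1]
  refine IsAlgebraic.of_pow hM0 ?_
  set A := Algebra.adjoin ℂ (Set.range fun j => resi v ⟨mon x (b j), ht' j⟩) with hA
  have h1 : mon x (m i) ^ M * ∏ j, mon x (b j) ^ (-(c j)).toNat =
      ∏ j, mon x (b j) ^ (c j).toNat := by
    rw [hMc, ← Finset.prod_mul_distrib]
    exact Finset.prod_congr rfl fun j _ => zpow_split (mon x (b j)) (ht j).1 (c j)
  have h2 : (⟨mon x (m i), hu' i⟩ : v.OV) ^ M *
      ∏ j, (⟨mon x (b j), ht' j⟩ : v.OV) ^ (-(c j)).toNat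
      = ∏ j, (⟨mon x (b j), ht' j⟩ : v.OV) ^ (c j).toNat := by
    have hinj : Function.Injective (incl v) := Subtype.val_injective
    apply hinj
    rw [map_mul, map_pow, map_prod, map_prod]
    simp only [map_pow]
    exact h1
  have h3 := congrArg (resi v) h2
  rw [map_mul, map_pow, map_prod, map_prod] at h3
  simp only [map_pow] at h3
  have h4 : ∀ j, resi v ⟨mon x (b j), ht' j⟩ ≠ 0 := fun j => (resi_ne v _).2 (ht j)
  have h5 : ∏ j, resi v ⟨mon x (b j), ht' j⟩ ^ (-(c j)).toNat ≠ 0 :=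
    Finset.prod_ne_zero_iff.2 fun j _ => pow_ne_zero _ (h4 j)
  have hmem : ∀ n : Fin k → ℕ, ∏ j, resi v ⟨mon x (b j), ht' j⟩ ^ n j ∈ A := fun n =>
    Subalgebra.prod_mem _ fun j _ => Subalgebra.pow_mem _
      (Algebra.subset_adjoin (Set.mem_range_self j)) _
  have h6 : ∀ n : Fin k → ℕ, IsAlgebraic A (∏ j, resi v ⟨mon x (b j), ht' j⟩ ^ n j) := fun n =>
    isAlgebraic_algebraMap (⟨_, hmem n⟩ : A)
  have h7 : resi v ⟨mon x (m i), hu' i⟩ ^ M = (∏ j, resi v ⟨mon x (b j), ht' j⟩ ^ (c j).toNat)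
      * (∏ j, resi v ⟨mon x (b j), ht' j⟩ ^ (-(c j)).toNat)⁻¹ := by
    rw [← h3, mul_assoc, mul_inv_cancel₀ h5, mul_one]
  rw [h7]
  exact (h6 _).mul (h6 _).inv

end MMCI
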