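import Pool.Agent.MMCI.StE
import Pool.Agent.MMCI.CHW

/-! # SCA: rational forms of top degree are proportional -/

namespace MMCI

theorem t_SCA : S_SCA := by
  intro e K _ _ hdim he ω ω' hω hω'
  obtain ⟨q, hq, -, h⟩ := t_CHW hdim he ω ω' hω hω'
  exact ⟨q, hq, h⟩

end MMCI
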