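import Pool.Agent.MMCI.StE
import Pool.Agent.MldGeo.Ord

/-!
# SEM: the canonical divisor is semiample in case (a)
-/

namespace MMCI

open MldGeo

noncomputable section

namespace SEM

variable {e : ℕ} {K : Type} [Field K] [Algebra ℂ K]

theorem hasCentre {R : Subalgebra ℂ K} {v : DivVal e K} {P : Ideal R}
    (h : IsPrimeDivisor R v P) : HasCentre R v P := ⟨h.1, h.2.2.1, h.2.2.2⟩

theorem ordSection (v : DivVal e K) {g a : K} (hg : g ≠ 0) (ha : a ≠ 0) (k : ℕ) :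
    v.ord ((g ^ k)⁻¹ * a) = v.ord a - k * v.ord g := by
  rw [v.ord_mul _ _ (inv_ne_zero (pow_ne_zero k hg)) ha, DivVal.ord_inv, DivVal.ord_pow]
  ring

end SEM

theorem t_SEM : M_SEM := by
  intro hMON hSCA hKEY e n r K _ _ f x hB F ω Y hω hY ω' hω'
  obtain ⟨g, hg, hgv⟩ := hSCA hB.dim hB.pos ω ω' hω.ne hω'
  obtain ⟨hm, -, -, -, hv⟩ := hMON (e := e) x hB.ne
  have hord : ∀ (v : DivVal e K) (a : Fin n → ℤ),
      v.ord ((g ^ F.k)⁻¹ * mon x (F.u a)) + (F.k : ℤ) * v.formOrd ω' =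
        (F.k : ℤ) * v.formOrd ω + pair (wt x v) (F.u a) := by
    intro v a
    rw [SEM.ordSection v hg (hm _), (hv v).1, hgv v]
    ring
  refine ⟨F.k, F.A.card, fun l => (g ^ F.k)⁻¹ * mon x (F.u (F.A.equivFin.symm l : Fin n → ℤ)),
    F.k_pos, ?_, ?_, ?_⟩
  · intro l
    exact mul_ne_zero (inv_ne_zero (pow_ne_zero _ hg)) (hm _)
  · intro l i v P hP
    obtain ⟨m, hmax, hPm⟩ := P.exists_le_maximal hP.1.ne_top
    obtain ⟨a, ha, h⟩ := hKEY f x hB F.toFan ω Y hω hY i m hmax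
    obtain ⟨h1, -, h3⟩ := h v P (SEM.hasCentre hP) hPm
    have h4 := h3.2 hP.2.1
    have h5 := F.nef (wt x v) a (F.A.equivFin.symm l : Fin n → ℤ) h1
      (F.A.equivFin.symm l).2
    rw [hord]
    linarith
  · intro i m hmax
    obtain ⟨a, ha, h⟩ := hKEY f x hB F.toFan ω Y hω hY i m hmax
    refine ⟨F.A.equivFin ⟨a, ha⟩, fun v P hP hPm => ?_⟩
    obtain ⟨-, -, h3⟩ := h v P (SEM.hasCentre hP) hPm
    rw [hord, Equiv.symm_apply_apply]
    exact h3.2 hP.2.1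

end

end MMCI
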