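import Pool.Agent.MMCI.StB
import Pool.Agent.MldGeo.Ord

/-!
# SOL: linear equations over a ring in which the elements of order zero are invertible
-/

namespace MMCI

open MldGeo

namespace SOL

variable {e n r : ℕ} {K : Type} [Field K] [Algebra ℂ K]

/-- Cramer's rule over a commutative ring. -/
theorem solve {B : Type*} [CommRing B] (M : Matrix (Fin r) (Fin r) B) (hM : IsUnit M.det)
    (c : Fin r → B) : ∃ d : Fin r → B, ∀ i, ∑ j, M i j * d j = c i := by
  refine ⟨(M⁻¹).mulVec c, fun i => ?_⟩
  have h1 : M.mulVec ((M⁻¹).mulVec c) = c := by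
    rw [Matrix.mulVec_mulVec, Matrix.mul_nonsing_inv M hM, Matrix.one_mulVec]
  have h2 := congrFun h1 i
  rw [← h2]
  rfl

end SOL

theorem t_SOL : S_SOL := by
  intro e n r K _ _ f x v σ hU B y h hB hy
  obtain ⟨hm, hord⟩ := hU
  have hy0 : ∀ i, y i ≠ 0 := fun i => (hy i).1
  have hprod : ∏ i, y i ≠ 0 := Finset.prod_ne_zero_iff.2 fun i _ => hy0 i
  let M : Matrix (Fin r) (Fin r) B := Matrix.of fun i j =>
    ⟨grad x (f i) (σ (Sum.inl j)) / y i, (hy i).2.2.1 _⟩
  have hdet : ((M.det : B) : K) = minor f x σ / ∏ i, y i := by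
    have h1 : ((M.det : B) : K) = (M.map B.val).det := by
      have := B.val.map_det M
      exact this
    have h2 : M.map B.val = Matrix.diagonal (fun i => (y i)⁻¹) *
        Matrix.of (fun i j : Fin r => grad x (f i) (σ (Sum.inl j))) := by
      ext i j
      rw [Matrix.diagonal_mul, Matrix.map_apply, Matrix.of_apply]
      show grad x (f i) (σ (Sum.inl j)) / y i = _
      rw [div_eq_inv_mul]
    rw [h1, h2, Matrix.det_mul, Matrix.det_diagonal, Finset.prod_inv_distrib, div_eq_inv_mul]
    rfl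
  have hdet0 : ((M.det : B) : K) ≠ 0 := by
    rw [hdet]
    exact div_ne_zero hm hprod
  have hord0 : v.ord ((M.det : B) : K) = 0 := by
    rw [hdet, DivVal.ord_div v hm hprod, hord, DivVal.ord_prod v _ _ fun i _ => hy0 i]
    unfold psi
    rw [sub_eq_zero]
    exact Finset.sum_congr rfl fun i _ => ((hy i).2.1).symm
  have hinv : (((M.det : B) : K))⁻¹ ∈ B := hB _ (M.det).2 hdet0 hord0
  have hunit : IsUnit M.det := by
    refine IsUnit.of_mul_eq_one (⟨_, hinv⟩ : B) ?_
    apply Subtype.ext
    show ((M.det : B) : K) * (((M.det : B) : K))⁻¹ = 1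
    exact mul_inv_cancel₀ hdet0
  obtain ⟨d, hd⟩ := SOL.solve M hunit (fun i => (⟨h i / y i, (hy i).2.2.2⟩ : B))
  refine ⟨fun j => Sum.elim (fun a => ((d a : B) : K)) (fun _ => 0) (σ.symm j), fun j => ?_,
    fun l => ?_, fun i => ?_⟩
  · show Sum.elim (fun a => ((d a : B) : K)) (fun _ => 0) (σ.symm j) ∈ B
    rcases σ.symm j with a | l
    · exact (d a).2
    · exact B.zero_mem
  · simp
  · have h1 : ∑ j, Sum.elim (fun a => ((d a : B) : K)) (fun _ => 0) (σ.symm j) *
        grad x (f i) j = ∑ a : Fin r, ((d a : B) : K) * grad x (f i) (σ (Sum.inl a)) := by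
      rw [← Equiv.sum_comp σ, Fintype.sum_sum_type]
      simp
    have h2 : ∑ a : Fin r, (M i a : K) * ((d a : B) : K) = h i / y i := by
      have := congrArg (fun b : B => (b : K)) (hd i)
      simp only at this
      rw [← this]
      push_cast
      rfl
    show ∑ j, Sum.elim (fun a => ((d a : B) : K)) (fun _ => 0) (σ.symm j) *
        grad x (f i) j = h i
    rw [h1]
    have h3 : h i = y i * (h i / y i) := by
      field_simp [hy0 i]
    rw [h3, ← h2, Finset.mul_sum]
    refine Finset.sum_congr rfl fun a _ => ?_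
    have h4 : (M i a : K) = grad x (f i) (σ (Sum.inl a)) / y i := rfl
    rw [h4]
    have := hy0 i
    field_simp

end MMCI
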