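import Pool.Agent.MMCI.StB

/-!
# SYS: nondegenerate complete intersections satisfy the conditions of `Sys`
-/

namespace MMCI

open MldGeo

noncomputable section

namespace SYS

theorem pair_zero {n : ℕ} (m : Fin n → ℤ) : pair 0 m = 0 := by
  simp [pair]

theorem minOn_zero {n : ℕ} (f : Laurent n) (hf : f ≠ 0) : minOn f 0 = 0 := by
  have hne : (f.coeff.support : Set (Fin n → ℤ)).Nonempty := by
    by_contra hemp
    rw [Set.not_nonempty_iff_eq_empty, Finset.coe_eq_empty, Finsupp.support_eq_empty] at hemp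
    exact hf (by
      ext m
      rw [hemp]
      rfl)
  have hset : (fun m : Fin n → ℤ => pair 0 m) '' (f.coeff.support : Set (Fin n → ℤ)) = {0} := by
    ext z
    constructor
    · rintro ⟨m, -, rfl⟩
      exact pair_zero m
    · rintro rfl
      obtain ⟨m, hm⟩ := hne
      exact ⟨m, hm, pair_zero m⟩
  rw [minOn, hset, csInf_singleton]

theorem initForm_zero {n : ℕ} (f : Laurent n) (hf : f ≠ 0) : initForm f 0 = f := by
  have h : (f.coeff.filter fun m => pair 0 m = minOn f 0) = f.coeff := by
    rw [Finsupp.filter_eq_self_iff]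
    intro m _
    rw [pair_zero, minOn_zero f hf]
  rw [initForm, h]

end SYS

theorem t_SYS : M_SYS := by
  intro hNUL hMIN e n r K _ _ f x h
  have hinit : ∀ i, initForm (f i) 0 = f i := fun i => SYS.initForm_zero (f i) (h.f_ne i)
  refine
    { dim_eq := h.dim_eq, pos := h.pos, f_ne := h.f_ne, ne := h.ne, gen := h.gen, dim := h.dim,
      zero := h.zero, rank := ?_, nd := fun v => ?_ }
  · have h1 := hNUL f 0 (h.nondeg 0) x h.ne (fun i => by rw [hinit i]; exact h.zero i)
    simpa only [hinit] using h1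
  · obtain ⟨σ, hσ⟩ := hMIN f x h.dim_eq h.ne h.f_ne h.zero v (h.nondeg _)
    exact ⟨σ, hσ⟩

end

end MMCI
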