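import Pool.Agent.MMCI.StE
import Pool.Agent.MldGeo.Ord

/-!
# TER: the projective model has terminal singularities
-/

namespace MMCI

open MldGeo MldGeo.DivVal

noncomputable section

namespace TER

variable {e n : ℕ} {K : Type} [Field K] [Algebra ℂ K]

/-- the order of the equation `g^k / y` -/
theorem ord_eqn (v : DivVal e K) {g y : K} (hg : g ≠ 0) (hy : y ≠ 0) (k : ℕ) :
    v.ord (g ^ k / y) = k * v.ord g - v.ord y := by
  rw [ord_div v (pow_ne_zero _ hg) hy, ord_pow]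

theorem hasCentre {R : Subalgebra ℂ K} {v : DivVal e K} {P : Ideal R}
    (h : IsPrimeDivisor R v P) : HasCentre R v P :=
  ⟨h.1, h.2.2.1, h.2.2.2⟩

end TER

open TER in
theorem t_TER : M_TER := by
  intro hMON hSCA hKEY e n r K _ _ f x hB F ω Y hL hM i
  refine ⟨hM.normal i, ?_⟩
  intro ω' hω' m hm
  obtain ⟨g, hg, hord⟩ := hSCA hB.dim hB.pos ω ω' hL.ne hω'
  obtain ⟨a, -, hkey⟩ := hKEY f x hB F ω Y hL hM i m hm
  obtain ⟨hne, -, -, -, hval⟩ := hMON (e := e) x hB.ne
  have hy : mon x (F.u a) ≠ 0 := hne _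
  have hG : ∀ v : DivVal e K, v.ord (g ^ F.k / mon x (F.u a)) =
      F.k * v.ord g - pair (wt x v) (F.u a) := by
    intro v
    rw [ord_eqn v hg hy, (hval v).1]
  refine ⟨F.k, g ^ F.k / mon x (F.u a), F.k_pos, div_ne_zero (pow_ne_zero _ hg) hy, ?_, ?_⟩
  · intro v P hP hPm
    have h1 := (hkey v P (hasCentre hP) hPm).2.2.2 hP.2.1
    rw [hG, hord]
    linear_combination -h1
  · intro v P hP hPm hh
    obtain ⟨-, h1, h2⟩ := hkey v P hP hPm
    have h3 : F.k * v.formOrd ω + pair (wt x v) (F.u a) ≠ 0 := fun h => hh (h2.1 h)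
    rw [hG, hord]
    have h4 := lt_of_le_of_ne h1 (Ne.symm h3)
    linear_combination h4

end

end MMCI
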