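import Pool.Agent.MMCI.StB
import Pool.Agent.MldGeo.Ord

/-!
# Module UNT: the weight is primitive
-/

set_option autoImplicit false

namespace MMCI

open MldGeo MldGeo.DivVal

noncomputable section

namespace UNT

variable {n : ℕ}

theorem pair_add (w a b : Fin n → ℤ) : pair w (a + b) = pair w a + pair w b := by
  simp [pair, mul_add, Finset.sum_add_distrib]

theorem pair_neg (w a : Fin n → ℤ) : pair w (-a) = -pair w a := by
  simp [pair]

theorem pair_sub (w a b : Fin n → ℤ) : pair w (a - b) = pair w a - pair w b := by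
  rw [sub_eq_add_neg, pair_add, pair_neg, sub_eq_add_neg]

theorem pair_single (w : Fin n → ℤ) (j : Fin n) : pair w (Pi.single j 1) = w j := by
  classical
  simp [pair, Pi.single_apply]

/-- the values of the pairing are the multiples of one of them -/
theorem exists_gen (w : Fin n → ℤ) (hw : w ≠ 0) :
    ∃ q : Fin n → ℤ, 0 < pair w q ∧ ∀ m, pair w q ∣ pair w m := by
  let φ : (Fin n → ℤ) →+ ℤ := AddMonoidHom.mk' (pair w) (pair_add w)
  obtain ⟨a, ha⟩ := Int.subgroup_cyclic φ.range
  have h1 : a ∈ φ.range := by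
    rw [ha]; exact AddSubgroup.mem_closure_singleton_self a
  obtain ⟨q, hq⟩ := h1
  have hq' : pair w q = a := hq
  have h2 : ∀ m, a ∣ pair w m := by
    intro m
    have h3 : pair w m ∈ φ.range := ⟨m, rfl⟩
    rw [ha] at h3
    obtain ⟨z, hz⟩ := AddSubgroup.mem_closure_singleton.1 h3
    exact ⟨z, by rw [← hz, smul_eq_mul, mul_comm]⟩
  have h4 : a ≠ 0 := by
    intro h0
    apply hw
    funext j
    have h5 := h2 (Pi.single j 1)
    rw [h0, pair_single] at h5
    exact zero_dvd_iff.1 h5
  rcases lt_or_gt_of_ne h4 with h5 | h5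
  · refine ⟨-q, ?_, fun m => ?_⟩
    · rw [pair_neg, hq']; linarith
    · rw [pair_neg, hq']; exact (neg_dvd).2 (h2 m)
  · refine ⟨q, by rw [hq']; exact h5, fun m => by rw [hq']; exact h2 m⟩

theorem minOn_le (f : Laurent n) (w : Fin n → ℤ) {a : Fin n → ℤ} (ha : a ∈ f.coeff.support) :
    minOn f w ≤ pair w a := by
  apply csInf_le
  · exact ((Finset.finite_toSet f.coeff.support).image _).bddBelow
  · exact ⟨a, ha, rfl⟩

theorem exists_min (f : Laurent n) (hf : f ≠ 0) (w : Fin n → ℤ) :
    ∃ a ∈ f.coeff.support, pair w a = minOn f w := by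
  have h1 : (f.coeff.support : Set (Fin n → ℤ)).Nonempty := by
    rw [Finset.coe_nonempty, Finsupp.support_nonempty_iff]
    intro h
    exact hf (AddMonoidAlgebra.coeff_eq_zero.1 h)
  have h2 := Int.csInf_mem (h1.image fun a => pair w a)
    ((Finset.finite_toSet f.coeff.support).image _).bddBelow
  obtain ⟨a, ha, hb⟩ := h2
  exact ⟨a, ha, hb⟩

end UNT

open UNT

theorem t_UNT : M_UNT := by
  classical
  intro hMON hBAS hSOL hDK hLOB m n r K _ _ f x hreg v σ hσ hw hbig
  obtain ⟨m1, m2, m3, m4, m5⟩ := hMON (e := m + 1) x hreg.ne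
  obtain ⟨v1, v2, v3, v4⟩ := m5 v
  obtain ⟨b1, b2, b3⟩ := hBAS f x hreg.ne hreg.gen hreg.dim hreg.zero σ hσ.1
  obtain ⟨u, hu0, hu⟩ := hbig
  set w := wt x v with hwdef
  obtain ⟨q, hq0, hq⟩ := exists_gen w hw
  set k := pair w q with hk
  choose d hd using hq
  have m6 : ∀ a b, mon x (a - b) = mon x a / mon x b := by
    intro a b
    rw [eq_div_iff (m1 b), ← m2, sub_add_cancel]
  set w0 : Fin n → ℤ := fun j => d (Pi.single j 1) with hw0def
  have hw0 : ∀ j, w j = k * w0 j := by
    intro j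
    rw [← pair_single w j, hd]
  have hdw0 : ∀ a, d a = pair w0 a := by
    intro a
    have h1 : k * d a = k * pair w0 a := by
      rw [← hd, pair, pair, Finset.mul_sum]
      refine Finset.sum_congr rfl fun j _ => ?_
      rw [hw0 j, mul_assoc]
    exact mul_left_cancel₀ hq0.ne' h1
  have hdq : d q = 1 := by
    have h1 := hd q
    rw [← hk] at h1
    have h2 : k * d q = k * 1 := by rw [mul_one]; exact h1.symm
    exact mul_left_cancel₀ hq0.ne' h2
  have hdsub : ∀ a b, d (a - b) = d a - d b := by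
    intro a b
    rw [hdw0, hdw0, hdw0, pair_sub]
  set p := mon x q with hp
  have hp0 : p ≠ 0 := m1 q
  have hpord : v.ord p = k := v1 q
  -- the ring of monomials of nonnegative weight
  set B0 : Subalgebra ℂ K := Algebra.adjoin ℂ {z | ∃ a, 0 ≤ pair w a ∧ z = mon x a} with hB0def
  have hB0mem : ∀ a, 0 ≤ pair w a → mon x a ∈ B0 := fun a ha =>
    Algebra.subset_adjoin ⟨a, ha, rfl⟩
  have hB0int : ∀ c : ℤ, (c : K) ∈ B0 := fun c => intCast_mem B0 c
  have hB0ge : ∀ b ∈ B0, v.Ge 0 b := by
    intro b hb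
    induction hb using Algebra.adjoin_induction with
    | mem z hz =>
      obtain ⟨a, ha, rfl⟩ := hz
      exact Ge.of_le (by rw [v1]; exact ha)
    | algebraMap c => exact Ge.const v c
    | add a b _ _ ha hb => exact ha.add hb
    | mul a b _ _ ha hb => exact Ge.mul_left ha hb
  obtain ⟨B, hB, hB0B, hBge, hBinv, hBD⟩ := hLOB v B0 hB0ge
  -- exponents of minimal weight
  have hmin : ∀ i, ∃ a ∈ (f i).coeff.support, pair w a = minOn (f i) w :=
    fun i => exists_min _ (hreg.f_ne i) w
  choose μ hμ1 hμ2 using hmin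
  set y : Fin r → K := fun i => mon x (μ i) with hy
  set h : Fin r → K := fun i => -(p⁻¹ * ∑ j, (w0 j : K) * grad x (f i) j) with hh
  have hgrad : ∀ i j, grad x (f i) j / y i ∈ B0 := by
    intro i j
    rw [grad, Finsupp.sum, Finset.sum_div]
    refine Subalgebra.sum_mem _ fun a ha => ?_
    have h1 : algebraMap ℂ K ((f i).coeff a) * (a j : K) * mon x a / y i =
        algebraMap ℂ K ((f i).coeff a) * (a j : K) * mon x (a - μ i) := by
      rw [m6, mul_div_assoc]
    rw [h1]
    refine B0.mul_mem (B0.mul_mem (B0.algebraMap_mem _) (hB0int _)) (hB0mem _ ?_)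
    rw [pair_sub, hμ2]
    linarith [minOn_le (f i) w ha]
  have hhB : ∀ i, h i / y i ∈ B0 := by
    intro i
    have e1 : ∑ j, (w0 j : K) * grad x (f i) j =
        ∑ a ∈ (f i).coeff.support, algebraMap ℂ K ((f i).coeff a) * (d a : K) * mon x a := by
      have h1 : ∀ j, (w0 j : K) * grad x (f i) j = ∑ a ∈ (f i).coeff.support,
          (w0 j : K) * (algebraMap ℂ K ((f i).coeff a) * (a j : K) * mon x a) := by
        intro j
        rw [grad, Finsupp.sum, Finset.mul_sum]
      rw [Finset.sum_congr rfl fun j _ => h1 j, Finset.sum_comm]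
      refine Finset.sum_congr rfl fun a _ => ?_
      rw [hdw0 a, pair]
      push_cast
      rw [Finset.mul_sum, Finset.sum_mul]
      refine Finset.sum_congr rfl fun j _ => ?_
      ring
    have e2 : ∑ a ∈ (f i).coeff.support, algebraMap ℂ K ((f i).coeff a) * mon x a = 0 :=
      hreg.zero i
    have e3 : h i / y i = ∑ a ∈ (f i).coeff.support,
        -(algebraMap ℂ K ((f i).coeff a) * ((d a - d (μ i) : ℤ) : K) * mon x (a - μ i - q)) := by
      have h2 : h i / y i = -(p⁻¹ * (∑ a ∈ (f i).coeff.support,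
          algebraMap ℂ K ((f i).coeff a) * (d a : K) * mon x a - (d (μ i) : K) *
          ∑ a ∈ (f i).coeff.support, algebraMap ℂ K ((f i).coeff a) * mon x a)) / y i := by
        rw [e2, mul_zero, sub_zero, ← e1]
      rw [h2, Finset.mul_sum, ← Finset.sum_sub_distrib, Finset.mul_sum, ← Finset.sum_neg_distrib,
        Finset.sum_div]
      refine Finset.sum_congr rfl fun a _ => ?_
      rw [m6, m6]
      push_cast
      simp only [hy, div_eq_mul_inv]
      ring
    rw [e3]
    refine Subalgebra.sum_mem _ fun a ha => ?_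
    apply Subalgebra.neg_mem
    have h3 : d (μ i) ≤ d a := by
      have h4 := minOn_le (f i) w ha
      rw [← hμ2 i, hd, hd a] at h4
      exact le_of_mul_le_mul_left h4 hq0
    rcases h3.eq_or_lt with h4 | h4
    · rw [h4, sub_self, Int.cast_zero, mul_zero, zero_mul]
      exact B0.zero_mem
    · refine B0.mul_mem (B0.mul_mem (B0.algebraMap_mem _) (hB0int _)) (hB0mem _ ?_)
      rw [hd, hdsub, hdsub, hdq]
      apply mul_nonneg hq0.le
      omega
  obtain ⟨δ, hδB, hδr, hδ⟩ := hSOL f x v σ hσ B y h hBinv (fun i =>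
    ⟨m1 _, (v1 _).trans (hμ2 i), fun j => hB0B (hgrad i j), hB0B (hhB i)⟩)
  obtain ⟨D, hD⟩ := b3 (fun j => p⁻¹ * (w0 j : K) + δ j) (by
    intro i
    have h1 : ∀ j, (p⁻¹ * (w0 j : K) + δ j) * grad x (f i) j =
        p⁻¹ * ((w0 j : K) * grad x (f i) j) + δ j * grad x (f i) j := by
      intro j; ring
    rw [Finset.sum_congr rfl fun j _ => h1 j, Finset.sum_add_distrib, hδ i, ← Finset.mul_sum]
    simp only [hh]
    ring)
  have hDm : ∀ a, D (mon x a) = mon x a * (p⁻¹ * (d a : K) + ∑ j, δ j * (a j : K)) := by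
    intro a
    have h1 := congrArg D.liftKaehlerDifferential (m3 a)
    rw [dlog, map_smul, map_sum, Derivation.liftKaehlerDifferential_comp_D] at h1
    have h2 : ∀ j, D.liftKaehlerDifferential ((a j : K) • dlog (x j)) =
        p⁻¹ * ((w0 j : K) * (a j : K)) + δ j * (a j : K) := by
      intro j
      rw [dlog, map_smul, map_smul, Derivation.liftKaehlerDifferential_comp_D, hD j]
      have hxj := hreg.ne j
      simp only [smul_eq_mul]
      field_simp
    rw [Finset.sum_congr rfl fun j _ => h2 j, Finset.sum_add_distrib, ← Finset.mul_sum,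
      smul_eq_mul, inv_mul_eq_iff_eq_mul₀ (m1 a)] at h1
    rw [h1, hdw0 a, pair]
    push_cast
    rfl
  have hDB0 : ∀ b ∈ B0, D b ∈ B := by
    intro b hb
    induction hb using Algebra.adjoin_induction with
    | mem z hz =>
      obtain ⟨a, ha, rfl⟩ := hz
      rw [hDm a, mul_add]
      have hs : ∑ j, δ j * (a j : K) ∈ B :=
        Subalgebra.sum_mem _ fun j _ => B.mul_mem (hδB j) (intCast_mem B _)
      refine B.add_mem ?_ (B.mul_mem (hB0B (hB0mem a ha)) hs)
      have h0 : 0 ≤ d a := by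
        rw [hd] at ha
        exact nonneg_of_mul_nonneg_right ha hq0
      rcases h0.eq_or_lt with h1 | h1
      · rw [← h1, Int.cast_zero, mul_zero, mul_zero]
        exact B.zero_mem
      · have h2 : mon x a * (p⁻¹ * (d a : K)) = (d a : K) * mon x (a - q) := by
          rw [m6 a q, div_eq_mul_inv]
          ring
        rw [h2]
        refine B.mul_mem (intCast_mem B _) (hB0B (hB0mem _ ?_))
        rw [hd, hdsub, hdq]
        apply mul_nonneg hq0.le
        omega
    | algebraMap c => rw [Derivation.map_algebraMap]; exact B.zero_mem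
    | add a b _ _ ha hb => rw [map_add]; exact B.add_mem ha hb
    | mul a b h1 h2 ha hb =>
      rw [Derivation.leibniz, smul_eq_mul, smul_eq_mul]
      exact B.add_mem (B.mul_mem (hB0B h1) hb) (B.mul_mem (hB0B h2) ha)
  -- the derivative of `p`
  have hDp : D p = 1 + p * ∑ j, δ j * (q j : K) := by
    rw [hp, hDm q, hdq, ← hp, Int.cast_one, mul_one, mul_add, mul_inv_cancel₀ hp0]
  have hsG : v.Ge 0 (∑ j, δ j * (q j : K)) :=
    hBge _ (Subalgebra.sum_mem _ fun j _ => B.mul_mem (hδB j) (intCast_mem B _))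
  have hpG : v.Ge 1 (p * ∑ j, δ j * (q j : K)) := by
    refine Ge.mul_right (Ge.of_le ?_) hsG
    rw [hpord]
    omega
  have h1p : v.Ge (v.ord (1 : K) + 1) (p * ∑ j, δ j * (q j : K)) := by
    rw [ord_one, zero_add]; exact hpG
  have hord := ord_add_eq_of_lt (v := v) (one_ne_zero (α := K)) h1p
  rw [← hDp] at hord
  -- the fractions
  have hfrac : ∀ a : K, ∃ p ∈ B, ∃ q ∈ B, q ≠ 0 ∧ a * q = p := by
    intro a
    have ha : a ∈ IntermediateField.adjoin ℂ (Set.range x) := by
      rw [hreg.gen]; trivial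
    induction ha using IntermediateField.adjoin_induction with
    | mem z hz =>
      obtain ⟨j, rfl⟩ := hz
      have hxj : mon x (Pi.single j 1) = x j := by
        rw [mon, Finset.prod_eq_single j]
        · simp
        · intro b _ hb
          simp [Pi.single_eq_of_ne hb]
        · intro hj
          exact absurd (Finset.mem_univ j) hj
      rcases le_total 0 (w j) with h1 | h1
      · refine ⟨x j, hB0B ?_, 1, B.one_mem, one_ne_zero, mul_one _⟩
        rw [← hxj]
        exact hB0mem _ (by rw [pair_single]; exact h1)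
      · refine ⟨1, B.one_mem, mon x (-Pi.single j 1), hB0B (hB0mem _ ?_), m1 _, ?_⟩
        · rw [pair_neg, pair_single]
          omega
        · rw [← hxj, ← m2, add_neg_cancel]
          simp [mon]
    | algebraMap c => exact ⟨algebraMap ℂ K c, B.algebraMap_mem c, 1, B.one_mem, one_ne_zero,
        mul_one _⟩
    | add a b _ _ ha hb =>
      obtain ⟨p1, hp1, q1, hq1, hq1', e1⟩ := ha
      obtain ⟨p2, hp2, q2, hq2, hq2', e2⟩ := hb
      refine ⟨p1 * q2 + p2 * q1, B.add_mem (B.mul_mem hp1 hq2) (B.mul_mem hp2 hq1), q1 * q2,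
        B.mul_mem hq1 hq2, mul_ne_zero hq1' hq2', ?_⟩
      rw [← e1, ← e2]
      ring
    | inv a _ ha =>
      obtain ⟨p1, hp1, q1, hq1, hq1', e1⟩ := ha
      by_cases h0 : a = 0
      · refine ⟨0, B.zero_mem, 1, B.one_mem, one_ne_zero, ?_⟩
        rw [h0, inv_zero, zero_mul]
      · refine ⟨q1, hq1, p1, hp1, ?_, ?_⟩
        · rw [← e1]
          exact mul_ne_zero h0 hq1'
        · rw [← e1, inv_mul_cancel_left₀ h0]
    | mul a b _ _ ha hb =>
      obtain ⟨p1, hp1, q1, hq1, hq1', e1⟩ := ha
      obtain ⟨p2, hp2, q2, hq2, hq2', e2⟩ := hb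
      refine ⟨p1 * p2, B.mul_mem hp1 hp2, q1 * q2, B.mul_mem hq1 hq2, mul_ne_zero hq1' hq2', ?_⟩
      rw [← e1, ← e2]
      ring
  have hfin : v.ord p = 1 := by
    refine hDK hreg.dim v B hBge hfrac D (hBD D hDB0) p (hB0B (hB0mem q hq0.le)) hp0
      (by rw [hpord]; exact hq0) hord.1 ?_ (fun l : Fin m => mon x (u l)) ?_ hu
    · rw [hord.2, ord_one]
    · intro l
      exact hB0B (hB0mem _ (hu0 l).ge)
  exact ⟨q, by rw [← hk, ← hpord]; exact hfin⟩

end

end MMCI
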