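import Pool.Agent.MMCI.FinalA
import Pool.Agent.MMCI.K_MON
import Pool.Agent.MMCI.K_BAS
import Pool.Agent.MMCI.K_ELI
import Pool.Agent.MMCI.K_SOL
import Pool.Agent.MMCI.K_PLU
import Pool.Agent.MMCI.K_OMG
import Pool.Agent.MMCI.K_IND
import Pool.Agent.MMCI.K_FRD
import Pool.Agent.MMCI.K_EQ1a
import Pool.Agent.MMCI.K_EQ1b
import Pool.Agent.MMCI.K_DK
import Pool.Agent.MMCI.K_LOB
import Pool.Agent.MMCI.K_UNT
import Pool.Agent.MMCI.K_EQ0a
import Pool.Agent.MMCI.K_EQ0c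
import Pool.Agent.MMCI.K_EQ0b
import Pool.Agent.MMCI.K_BND
import Pool.Agent.MMCI.K_LOG
import Pool.Agent.MMCI.K_NUL
import Pool.Agent.MMCI.K_MIN
import Pool.Agent.MMCI.K_SYS
import Pool.Agent.MMCI.K_RES
import Pool.Agent.MMCI.K_SCA
import Pool.Agent.MMCI.K_KEY
import Pool.Agent.MMCI.K_TER
import Pool.Agent.MMCI.K_SEM
import Pool.Agent.MMCI.K_MAIN
import Pool.Agent.MMCI.CD

/-!
# Assembly of the blocks B, C, D
-/

namespace MMCI

open MldGeo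

/-- The theorem, from the blocks FAN and RED. -/
theorem main_of_fan_red (fan : S_FAN) (faa : S_FAA) (red : S_RED) {e n r : ℕ} {K : Type} [Field K]
    [Algebra ℂ K] (f : Fin r → Laurent n) (x : Fin n → K) (h : IsNCI e f x) :
    ∃ Y : ProjModel K, Y.Terminal e ∧
      ((Y.Semiample e ∧ Y.Nef e) ∨ (Y.MoriFibre e ∧ FineInterior f = ∅)) :=
  assemble t_MON t_BAS t_ELI t_SOL t_PLU t_OMG t_IND t_FRD t_EQ1a t_EQ1b t_DK t_LOB t_UNT t_EQ0a
    t_EQ0c t_EQ0b t_BND t_LOG t_NUL t_MIN t_SYS t_RES t_SCA t_KEY t_TER t_SEM t_MAIN fan faa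
    S_MOD_holds S_NEF_holds S_FIB_holds red f x h

end MMCI
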