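import Pool.Agent.MMCI.StR

/-!
# Module R_CHV: the change of variables for Laurent polynomials
-/

set_option autoImplicit false

namespace MMCI

namespace R_CHV

variable {n : ℕ} {F : Type} [Field F]

theorem mon_zsmul (x : Fin n → F) (N : ℤ) (m : Fin n → ℤ) : mon x (N • m) = mon x m ^ N := by
  unfold mon
  rw [← Finset.prod_zpow]
  refine Finset.prod_congr rfl fun i _ => ?_
  rw [Pi.smul_apply, smul_eq_mul, mul_comm, zpow_mul]

theorem mon_add (x : Fin n → F) (hx : ∀ j, x j ≠ 0) (m m' : Fin n → ℤ) :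
    mon x (m + m') = mon x m * mon x m' := by
  unfold mon
  rw [← Finset.prod_mul_distrib]
  exact Finset.prod_congr rfl fun i _ => zpow_add₀ (hx i) _ _

theorem mon_sum (x : Fin n → F) (hx : ∀ j, x j ≠ 0) {k : ℕ} (c : Fin k → ℤ)
    (b : Fin k → (Fin n → ℤ)) : mon x (∑ l, c l • b l) = mon (fun l => mon x (b l)) c := by
  have h1 : ∀ l, mon x (b l) ^ c l = mon x (c l • b l) := fun l => (mon_zsmul x _ _).symm
  have h3 : mon (fun l => mon x (b l)) c = ∏ l, mon x (b l) ^ c l := rfl
  rw [h3, Finset.prod_congr rfl fun l _ => h1 l]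
  unfold mon
  rw [Finset.prod_comm]
  refine Finset.prod_congr rfl fun i _ => ?_
  rw [Finset.sum_apply]
  have h2 : ∀ s : Finset (Fin k), x i ^ ∑ l ∈ s, (c l • b l) i = ∏ l ∈ s, x i ^ (c l • b l) i := by
    intro s
    induction s using Finset.induction_on with
    | empty => simp
    | insert a s ha ih =>
      rw [Finset.sum_insert ha, Finset.prod_insert ha, zpow_add₀ (hx i), ih]
  exact h2 Finset.univ

theorem pair_add (w a b : Fin n → ℤ) : pair w (a + b) = pair w a + pair w b := by
  unfold pair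
  rw [← Finset.sum_add_distrib]
  exact Finset.sum_congr rfl fun i _ => mul_add _ _ _

theorem pair_sum (w : Fin n → ℤ) {k : ℕ} (c : Fin k → ℤ) (b : Fin k → (Fin n → ℤ)) :
    pair w (∑ l, c l • b l) = pair (fun l => pair w (b l)) c := by
  unfold pair
  simp only [Finset.sum_apply, Pi.smul_apply, smul_eq_mul, Finset.mul_sum, Finset.sum_mul]
  rw [Finset.sum_comm]
  refine Finset.sum_congr rfl fun l _ => Finset.sum_congr rfl fun i _ => by ring

theorem sInf_add_image {ι : Type} (s : Finset ι) (hs : s.Nonempty) (g : ι → ℤ) (c : ℤ) :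
    sInf ((fun i => c + g i) '' (s : Set ι)) = c + sInf (g '' (s : Set ι)) := by
  have hbdd : BddBelow (g '' (s : Set ι)) := (s.finite_toSet.image g).bddBelow
  have hbdd' : BddBelow ((fun i => c + g i) '' (s : Set ι)) :=
    (s.finite_toSet.image _).bddBelow
  have hne : (g '' (s : Set ι)).Nonempty := hs.to_set.image g
  have hne' : ((fun i => c + g i) '' (s : Set ι)).Nonempty := hs.to_set.image _
  apply le_antisymm
  · obtain ⟨i, hi, hi'⟩ := Int.csInf_mem hne hbdd
    rw [← hi']
    exact csInf_le hbdd' ⟨i, hi, rfl⟩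
  · obtain ⟨i, hi, hi'⟩ := Int.csInf_mem hne' hbdd'
    rw [← hi']
    exact add_le_add le_rfl (csInf_le hbdd ⟨i, hi, rfl⟩)

end R_CHV

open R_CHV in
theorem t_CHV : S_CHV := by
  intro n n' m f p0 hm hf hp
  have hinj : Function.Injective fun a : Fin n' → ℤ => p0 + ∑ k, a k • m k := by
    intro a b hab
    have h1 : ∑ k, a k • m k = ∑ k, b k • m k := add_left_cancel hab
    have h2 : ∑ k, (a k - b k) • m k = 0 := by
      simp only [sub_smul, Finset.sum_sub_distrib, h1, sub_self]
    have h3 := Fintype.linearIndependent_iff.1 hm _ h2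
    funext k
    exact sub_eq_zero.1 (h3 k)
  let φ : (Fin n' → ℤ) ↪ (Fin n → ℤ) := ⟨fun a => p0 + ∑ k, a k • m k, hinj⟩
  have hφ : ∀ a, φ a = p0 + ∑ k, a k • m k := fun _ => rfl
  let g : (Fin n' → ℤ) →₀ ℂ := f.coeff.comapDomain φ φ.injective.injOn
  have hg : g.embDomain φ = f.coeff := by
    apply Finsupp.embDomain_comapDomain
    intro p hpm
    obtain ⟨a, ha⟩ := hp p hpm
    exact ⟨a, ha.symm⟩
  have hsupp : f.coeff.support = g.support.map φ := by
    rw [← hg, Finsupp.support_embDomain]
  have hg0 : g ≠ 0 := by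
    intro h0
    apply hf
    have : f.coeff = 0 := by rw [← hg, h0, Finsupp.embDomain_zero]
    exact AddMonoidAlgebra.coeff_eq_zero.1 this
  have hgne : g.support.Nonempty := Finsupp.support_nonempty_iff.2 hg0
  refine ⟨AddMonoidAlgebra.ofCoeff g, ?_, ?_, ?_⟩
  · intro h0
    exact hg0 (AddMonoidAlgebra.ofCoeff_eq_zero.1 h0)
  · intro w
    unfold minOn
    rw [AddMonoidAlgebra.coeff_ofCoeff, hsupp, ← sInf_add_image _ hgne, Finset.coe_map,
      Set.image_image]
    congr 1
    apply Set.image_congr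
    intro a _
    change pair w (φ a) = _
    rw [hφ, pair_add, pair_sum]
  · intro F _ _ x hx
    have hmon : ∀ a, mon x (φ a) = mon x p0 * mon (fun k => mon x (m k)) a := by
      intro a
      rw [hφ, mon_add x hx, mon_sum x hx]
    have hev : ev x f = mon x p0 * ev (fun k => mon x (m k)) (AddMonoidAlgebra.ofCoeff g) := by
      unfold ev
      rw [AddMonoidAlgebra.coeff_ofCoeff, ← hg, Finsupp.sum_embDomain, Finsupp.mul_sum]
      refine Finsupp.sum_congr fun a _ => ?_
      rw [hmon]
      ring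
    refine ⟨hev, fun j => ?_⟩
    rw [hev]
    unfold grad ev
    rw [AddMonoidAlgebra.coeff_ofCoeff, ← hg, Finsupp.sum_embDomain]
    unfold Finsupp.sum
    simp only [Finset.mul_sum]
    rw [Finset.sum_comm, ← Finset.sum_add_distrib]
    refine Finset.sum_congr rfl fun a _ => ?_
    rw [hmon, hφ]
    have h1 : (((p0 + ∑ k, a k • m k) j : ℤ) : F) = (p0 j : F) + ∑ k, (a k : F) * (m k j : F) := by
      simp [Finset.sum_apply]
    rw [h1, mul_add, add_mul, Finset.mul_sum, Finset.sum_mul]
    refine congrArg₂ _ (by ring) (Finset.sum_congr rfl fun k _ => by ring)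

end MMCI
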