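import Pool.Agent.MMCI.StR

/-!
# CMB: the weights
-/

namespace MMCI

open MldGeo

noncomputable section

namespace R_CMB

/-- A combination smaller than all the `c l` is zero. -/
theorem small {g : ℕ} (c : Fin (g + 1) → ℕ) (j0 : Fin (g + 1)) (hj0 : ∀ j, c j0 ≤ c j)
    (a : Fin (g + 1) → ℕ) (h : ∑ l, a l * c l < c j0) : ∑ l, a l * c l = 0 := by
  apply Finset.sum_eq_zero
  intro l _
  by_contra hne
  have ha : 0 < a l := by
    rcases Nat.eq_zero_or_pos (a l) with h0 | h0
    · rw [h0, zero_mul] at hne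
      exact absurd rfl hne
    · exact h0
  have h1 : a l * c l ≤ ∑ l, a l * c l :=
    Finset.single_le_sum (f := fun l => a l * c l) (fun _ _ => Nat.zero_le _) (Finset.mem_univ l)
  have h2 : c l ≤ a l * c l := Nat.le_mul_of_pos_left _ ha
  have h3 := hj0 l
  omega

/-- Subtract one summand. -/
theorem sub {g : ℕ} (c a : Fin (g + 1) → ℕ) (j : Fin (g + 1)) (ha : 0 < a j) :
    ∃ a' : Fin (g + 1) → ℕ, ∑ l, a l * c l = c j + ∑ l, a' l * c l := by
  classical
  refine ⟨fun l => if l = j then a l - 1 else a l, ?_⟩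
  rw [← Finset.add_sum_erase Finset.univ (fun l => a l * c l) (Finset.mem_univ j),
    ← Finset.add_sum_erase Finset.univ (fun l => (if l = j then a l - 1 else a l) * c l)
      (Finset.mem_univ j)]
  have h1 : ∑ l ∈ Finset.univ.erase j, (if l = j then a l - 1 else a l) * c l =
      ∑ l ∈ Finset.univ.erase j, a l * c l := by
    apply Finset.sum_congr rfl
    intro l hl
    rw [if_neg (Finset.ne_of_mem_erase hl)]
  rw [h1, if_pos rfl]
  obtain ⟨b, hb⟩ : ∃ b, a j = b + 1 := ⟨a j - 1, by omega⟩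
  rw [hb]
  simp only [Nat.add_sub_cancel]
  ring

end R_CMB

theorem t_CMB (hSEL : S_SEL) : S_CMB := by
  classical
  intro r g K _ _ B c w hc hw hB hd hlt j0 hj0
  obtain ⟨ρ₀, hρ₀, hdet⟩ := hSEL (fun (i : Fin r) (j : Fin g) => B i (j0.succAbove j)) (by
    intro d hdd
    have h1 : ∀ i, ∑ j, B i j * (j0.insertNth (0 : K) d : Fin (g + 1) → K) j = 0 := by
      intro i
      rw [Fin.sum_univ_succAbove _ j0]
      simp only [Fin.insertNth_apply_same, mul_zero, Fin.insertNth_apply_succAbove, zero_add]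
      exact hdd i
    funext j
    have h2 := hd _ h1 (j0.succAbove j) j0
    simp only [Fin.insertNth_apply_same, Fin.insertNth_apply_succAbove, zero_mul] at h2
    rcases mul_eq_zero.mp h2 with h3 | h3
    · exact h3
    · have : c j0 = 0 := by exact_mod_cast h3
      have := hc j0
      omega)
  obtain ⟨τ, hτ⟩ : ∃ τ : Equiv.Perm (Fin g), ∏ i, B (ρ₀ (τ i)) (j0.succAbove i) ≠ 0 := by
    by_contra hcon
    push Not at hcon
    apply hdet
    rw [Matrix.det_apply]
    apply Finset.sum_eq_zero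
    intro σ _
    have := hcon σ
    simp only [Matrix.of_apply]
    rw [this, smul_zero]
  have hdet2 : (Matrix.of fun i j => B (ρ₀ (τ i)) (j0.succAbove j)).det ≠ 0 := by
    have h1 := Matrix.det_permute τ (Matrix.of fun i j => B (ρ₀ i) (j0.succAbove j))
    have h2 : (Matrix.of fun i j => B (ρ₀ i) (j0.succAbove j)).submatrix τ id =
        Matrix.of fun i j => B (ρ₀ (τ i)) (j0.succAbove j) := rfl
    rw [h2] at h1
    rw [h1]
    apply mul_ne_zero _ hdet
    have : ((Equiv.Perm.sign τ : ℤ) : K) ≠ 0 := by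
      rcases Int.units_eq_one_or (Equiv.Perm.sign τ) with h | h <;> rw [h] <;> simp
    exact this
  have hinj : Function.Injective (fun i => ρ₀ (τ i)) := hρ₀.comp τ.injective
  have hx : ∀ i, ∃ a : Fin (g + 1) → ℕ,
      w (ρ₀ (τ i)) = c (j0.succAbove i) + ∑ l, a l * c l := by
    intro i
    have hne : B (ρ₀ (τ i)) (j0.succAbove i) ≠ 0 :=
      (Finset.prod_ne_zero_iff.mp hτ) i (Finset.mem_univ i)
    obtain ⟨a, ha, hpos⟩ := hB _ _ hne
    obtain ⟨a', ha'⟩ := R_CMB.sub c a _ hpos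
    exact ⟨a', by rw [ha, ha']⟩
  choose a ha using hx
  have hsum : ∑ i, w i = ∑ i, w (ρ₀ (τ i)) +
      ∑ i ∈ (Finset.univ.image fun i => ρ₀ (τ i))ᶜ, w i := by
    rw [← Finset.sum_add_sum_compl (Finset.univ.image fun i => ρ₀ (τ i)) w,
      Finset.sum_image (fun _ _ _ _ h => hinj h)]
  have hsum2 : ∑ i, w (ρ₀ (τ i)) = ∑ i, c (j0.succAbove i) + ∑ i, ∑ l, a i l * c l := by
    rw [← Finset.sum_add_distrib]
    exact Finset.sum_congr rfl fun i _ => ha i
  have hsum3 : ∑ j, c j = c j0 + ∑ i, c (j0.succAbove i) := Fin.sum_univ_succAbove _ j0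
  have hsmall : (∑ i, ∑ l, a i l * c l) +
      ∑ i ∈ (Finset.univ.image fun i => ρ₀ (τ i))ᶜ, w i < c j0 := by omega
  refine ⟨fun i => ρ₀ (τ i), hinj, hdet2, ?_, ?_⟩
  · intro i
    have h1 : ∑ l, a i l * c l ≤ ∑ i, ∑ l, a i l * c l :=
      Finset.single_le_sum (f := fun i => ∑ l, a i l * c l) (fun _ _ => Nat.zero_le _)
        (Finset.mem_univ i)
    have h2 := R_CMB.small c j0 hj0 (a i) (by omega)
    show w (ρ₀ (τ i)) = c (j0.succAbove i)
    rw [ha i, h2, add_zero]
  · intro i hi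
    have hmem : i ∈ (Finset.univ.image fun i => ρ₀ (τ i))ᶜ := by
      rw [Finset.mem_compl, Finset.mem_image]
      rintro ⟨k, _, hk⟩
      exact hi ⟨k, hk⟩
    have h1 : w i ≤ ∑ i ∈ (Finset.univ.image fun i => ρ₀ (τ i))ᶜ, w i :=
      Finset.single_le_sum (fun _ _ => Nat.zero_le _) hmem
    obtain ⟨b, hb⟩ := hw i
    rw [hb]
    apply R_CMB.small c j0 hj0
    rw [← hb]
    omega

end

end MMCI
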