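import Pool.Agent.MMCI.StR

/-!
# MP_fa3f7f_ag, MMCI, block RED: EMB
-/

namespace MMCI

open MldGeo

noncomputable section

namespace R_EMB

section Hom

variable {n : ℕ} {F L : Type} [Field F] [Field L]

theorem map_mon (φ : F →+* L) (x : Fin n → F) (m : Fin n → ℤ) :
    mon (fun k => φ (x k)) m = φ (mon x m) := by
  unfold mon
  rw [map_prod]
  exact Finset.prod_congr rfl fun i _ => (map_zpow₀ φ _ _).symm

theorem map_ev [Algebra ℂ F] [Algebra ℂ L] (φ : F →+* L)
    (hφ : ∀ c : ℂ, φ (algebraMap ℂ F c) = algebraMap ℂ L c) (x : Fin n → F) (f : Laurent n) :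
    ev (fun k => φ (x k)) f = φ (ev x f) := by
  unfold ev Finsupp.sum
  rw [map_sum]
  refine Finset.sum_congr rfl fun m _ => ?_
  show algebraMap ℂ L (f.coeff m) * mon (fun k => φ (x k)) m =
    φ (algebraMap ℂ F (f.coeff m) * mon x m)
  rw [map_mul, hφ, map_mon]

theorem mon_one (m : Fin n → ℤ) : mon (fun _ : Fin n => (1 : L)) m = 1 := by
  unfold mon
  exact Finset.prod_eq_one fun i _ => one_zpow _

theorem mon_single (h : Fin n → L) (k : Fin n) : mon h (Pi.single k 1) = h k := by
  unfold mon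
  rw [Finset.prod_eq_single k]
  · rw [Pi.single_eq_same, zpow_one]
  · intro i _ hi
    rw [Pi.single_eq_of_ne hi, zpow_zero]
  · intro hk
    exact absurd (Finset.mem_univ k) hk

theorem mon_div (a b : Fin n → L) (m : Fin n → ℤ) :
    mon (fun k => a k / b k) m = mon a m / mon b m := by
  unfold mon
  rw [← Finset.prod_div_distrib]
  exact Finset.prod_congr rfl fun i _ => div_zpow _ _ _

theorem mon_ne {x : Fin n → F} (hx : ∀ j, x j ≠ 0) (m : Fin n → ℤ) : mon x m ≠ 0 :=
  Finset.prod_ne_zero_iff.2 fun i _ => zpow_ne_zero _ (hx i)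

end Hom

theorem eval_map_one {g : ℕ} {F L : Type} [Field F] [Field L] (φ : F →+* L)
    (p : MvPolynomial (Fin g) F) :
    MvPolynomial.eval (fun _ => (1 : L)) (MvPolynomial.map φ p) =
      φ (MvPolynomial.eval (fun _ => (1 : F)) p) := by
  rw [MvPolynomial.eval_map]
  have h1 := MvPolynomial.eval₂_comp_left φ (RingHom.id F) (fun _ : Fin g => (1 : F)) p
  have h2 : MvPolynomial.eval (fun _ => (1 : F)) p =
      MvPolynomial.eval₂ (RingHom.id F) (fun _ : Fin g => (1 : F)) p := rfl
  rw [h2, h1]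
  congr 1
  funext i
  exact (map_one φ).symm

end R_EMB

open R_EMB

theorem t_EMB (hUNI : S_UNI) (hTEX : S_TEX) (hFTH : S_FTH) (hHOM : S_HOM) : S_EMB := by
  intro e n r g K _ _ f x ν c j0 ρ hS hc hν hw hdet htr
  refine hFTH _ hS.dim htr ?_
  intro σ hσ
  set L := AlgebraicClosure K with hL
  let τ : K →+* L := algebraMap K L
  have hτ : ∀ c : ℂ, τ (algebraMap ℂ K c) = algebraMap ℂ L c := fun c =>
    (IsScalarTower.algebraMap_apply ℂ K L c).symm
  have hσc : ∀ c : ℂ, (σ : K →+* L) (algebraMap ℂ K c) = algebraMap ℂ L c := fun c =>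
    σ.commutes c
  have hτ0 : ∀ z, z ≠ 0 → τ z ≠ 0 := fun z hz h => hz ((map_eq_zero τ).1 h)
  -- the quotients
  let h : Fin n → L := fun k => (σ : K →+* L) (x k) / τ (x k)
  have hmon : ∀ m, mon h m = (σ : K →+* L) (mon x m) / τ (mon x m) := by
    intro m
    rw [← map_mon, ← map_mon]
    exact mon_div _ _ m
  have hne : ∀ k, h k ≠ 0 := fun k =>
    div_ne_zero (fun h' => hS.ne k ((map_eq_zero (σ : K →+* L)).1 h')) (hτ0 _ (hS.ne k))
  have htriv : ∀ m : Fin n → ℤ, (∀ j, pair (ν j) m = 0) → mon h m = 1 := by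
    intro m hm
    rw [hmon]
    have h1 : (σ : K →+* L) (mon x m) = τ (mon x m) :=
      hσ _ (IntermediateField.subset_adjoin ℂ _ ⟨m, hm, rfl⟩)
    rw [h1]
    exact div_self (hτ0 _ (mon_ne hS.ne m))
  obtain ⟨t, ht0, htj, htm⟩ := hTEX ν c j0 h hc hν hne htriv
  -- the polynomials
  choose F hF1 hF2 hF3 using fun i : Fin g => hHOM (f (ρ i)) x ν
  have hroot : ∀ i, MvPolynomial.aeval t (F i) = 0 := by
    intro i
    have h1 := hF3 i (L := L) h t ht0 htm
    have h2 : ev (fun k => algebraMap K L (x k) * h k) (f (ρ i)) = 0 := by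
      have h3 : (fun k => algebraMap K L (x k) * h k) = fun k => (σ : K →+* L) (x k) := by
        funext k
        exact mul_div_cancel₀ _ (hτ0 _ (hS.ne k))
      rw [h3, map_ev (σ : K →+* L) hσc, hS.zero, map_zero]
    rw [h2] at h1
    have h4 : (∏ j, t j ^ minOn (f (ρ i)) (ν j)) ≠ 0 :=
      Finset.prod_ne_zero_iff.2 fun j _ => zpow_ne_zero _ (ht0 j)
    exact (mul_eq_zero.1 h1.symm).resolve_left h4
  have hroot1 : ∀ i, MvPolynomial.aeval (fun _ => (1 : L)) (F i) = 0 := by
    intro i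
    have h1 := hF3 i (L := L) (fun _ => 1) (fun _ => 1) (fun _ => one_ne_zero) (fun m => by
      rw [mon_one]
      exact (Finset.prod_eq_one fun j _ => one_zpow _).symm)
    have h2 : ev (fun k => algebraMap K L (x k) * 1) (f (ρ i)) = 0 := by
      have h3 : (fun k => algebraMap K L (x k) * 1) = fun k => τ (x k) := by
        funext k
        exact mul_one _
      rw [h3, map_ev τ hτ, hS.zero, map_zero]
    rw [h2] at h1
    have h4 : (∏ j : Fin (g + 1), (1 : L) ^ minOn (f (ρ i)) (ν j)) ≠ 0 :=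
      Finset.prod_ne_zero_iff.2 fun j _ => zpow_ne_zero _ one_ne_zero
    exact (mul_eq_zero.1 h1.symm).resolve_left h4
  have hae : ∀ (s : Fin (g + 1) → L) i, MvPolynomial.eval s (MvPolynomial.map τ (F i)) =
      MvPolynomial.aeval s (F i) := by
    intro s i
    rw [MvPolynomial.eval_map]
    rfl
  have hone := hUNI c j0 (fun i => MvPolynomial.map τ (F i)) hc (by
    intro i d hd
    have h1 := hF1 i c hν d (MvPolynomial.support_map_subset τ (F i) hd)
    rw [hw i] at h1
    exact_mod_cast h1) (by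
    have h1 : (Matrix.of fun i j : Fin g =>
        MvPolynomial.eval (fun _ => (1 : L)) (MvPolynomial.pderiv (j0.succAbove j)
          (MvPolynomial.map τ (F i)))) =
        τ.mapMatrix (Matrix.of fun i j : Fin g => der x (f (ρ i)) (ν (j0.succAbove j))) := by
      ext i j
      rw [RingHom.mapMatrix_apply, Matrix.map_apply, Matrix.of_apply, Matrix.of_apply,
        MvPolynomial.pderiv_map, eval_map_one, hF2, hS.zero, mul_zero, sub_zero]
    rw [h1, ← RingHom.map_det]
    exact hτ0 _ hdet) t htj (fun i => by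
    rw [hae, hae, hroot, hroot1])
  -- all quotients are one
  have hx : ∀ k, σ (x k) = τ (x k) := by
    intro k
    have h1 := htm (Pi.single k 1)
    rw [mon_single, hone] at h1
    have h2 : (∏ j : Fin (g + 1), (1 : L) ^ pair (ν j) (Pi.single k 1)) = 1 :=
      Finset.prod_eq_one fun j _ => one_zpow _
    rw [h2] at h1
    exact (div_eq_one_iff_eq (hτ0 _ (hS.ne k))).1 h1
  intro z
  have hz : z ∈ IntermediateField.adjoin ℂ (Set.range x) := by
    rw [hS.gen]
    trivial
  refine IntermediateField.adjoin_induction (p := fun z _ => σ z = algebraMap K L z) ℂ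
    ?_ ?_ ?_ ?_ ?_ hz
  · rintro _ ⟨k, rfl⟩
    exact hx k
  · intro a
    rw [σ.commutes]
    exact (hτ a).symm
  · intro a b _ _ h1 h2
    rw [map_add, map_add, h1, h2]
  · intro a _ h1
    rw [map_inv₀, map_inv₀, h1]
  · intro a b _ _ h1 h2
    rw [map_mul, map_mul, h1, h2]

end

end MMCI
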