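import Pool.Agent.MMCI.StR

/-!
# FTH: field theory
-/

namespace MMCI

namespace R_FTH

open Polynomial

theorem fix_eq {E K L : Type} [Field E] [Field K] [Field L] [Algebra E K] [Algebra E L]
    [Algebra K L] [IsScalarTower E K L] [CharZero E] [IsAlgClosed L] [Algebra.IsAlgebraic E K]
    (h : ∀ σ : K →ₐ[E] L, ∀ z, σ z = algebraMap K L z) (a : K) :
    a ∈ (algebraMap E K).range := by
  have hint : IsIntegral E a := Algebra.IsIntegral.isIntegral a
  rw [← minpoly.natDegree_eq_one_iff]
  have hsep : (minpoly E a).Separable := (minpoly.irreducible hint).separable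
  have hcard := card_rootSet_eq_natDegree (K := L) hsep (IsAlgClosed.splits _)
  have hs : (minpoly E a).rootSet L ⊆ {algebraMap K L a} := by
    rw [← Algebra.IsAlgebraic.range_eval_eq_rootSet_minpoly_of_splits L
      (fun x => IsAlgClosed.splits _) a]
    rintro _ ⟨ψ, rfl⟩
    exact h ψ a
  have hle : Fintype.card ((minpoly E a).rootSet L) ≤ 1 := by
    rw [Fintype.card_le_one_iff_subsingleton]
    refine ⟨fun x y => Subtype.ext ?_⟩
    rw [hs x.2, hs y.2]
  have hpos : 0 < (minpoly E a).natDegree := minpoly.natDegree_pos hint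
  omega

end R_FTH

theorem t_FTH : S_FTH := by
  intro e K _ _ E hK hE h
  have hadd := _root_.trdeg_add_eq ℂ E (A := K)
  rw [hK, hE] at hadd
  have h0 : Algebra.trdeg E K = 0 := by
    have h1 : (e : Cardinal) + Algebra.trdeg E K = e + 0 := by rw [hadd, add_zero]
    exact Cardinal.eq_of_add_eq_add_left h1 (Cardinal.natCast_lt_aleph0)
  have : Algebra.IsAlgebraic E K := _root_.trdeg_eq_zero_iff.1 h0
  have : CharZero E := charZero_of_injective_algebraMap (algebraMap ℂ E).injective
  rw [eq_top_iff]
  intro a _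
  have := R_FTH.fix_eq (E := E) (K := K) (L := AlgebraicClosure K) (fun σ z => by
    refine h (σ.restrictScalars ℂ) (fun w hw => ?_) z
    have := σ.commutes ⟨w, hw⟩
    simpa [IsScalarTower.algebraMap_apply E K (AlgebraicClosure K)] using this) a
  obtain ⟨y, rfl⟩ := this
  exact y.2

end MMCI
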