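import Pool.Agent.MMCI.StR
import Pool.Agent.MldGeo.Ord

/-! # GRO: the orders of the gradients -/

namespace MMCI

open MldGeo

namespace R_GRO

variable {e n : ℕ} {K : Type} [Field K] [Algebra ℂ K]

theorem ord_mon (x : Fin n → K) (v : DivVal e K) (hx : ∀ j, x j ≠ 0) (m : Fin n → ℤ) :
    mon x m ≠ 0 ∧ v.ord (mon x m) = pair (wt x v) m := by
  constructor
  · exact Finset.prod_ne_zero_iff.2 fun j _ => zpow_ne_zero _ (hx j)
  · rw [mon, DivVal.ord_prod v _ _ fun j _ => zpow_ne_zero _ (hx j), pair]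
    refine Finset.sum_congr rfl fun j _ => ?_
    rw [DivVal.ord_zpow, wt, mul_comm]

theorem minOn_le (f : Laurent n) (ν : Fin n → ℤ) (m : Fin n → ℤ) (hm : m ∈ f.coeff.support) :
    minOn f ν ≤ pair ν m := by
  refine csInf_le ?_ ⟨m, hm, rfl⟩
  exact (f.coeff.support.finite_toSet.image _).bddBelow

end R_GRO

theorem t_GRO : S_GRO := by
  intro e n K _ _ f x v hx j
  rw [grad, Finsupp.sum]
  refine DivVal.Ge.sum _ _ fun m hm => ?_
  have h1 := (R_GRO.ord_mon x v hx m).2
  have h2 := R_GRO.minOn_le f (wt x v) m hm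
  have h3 : v.Ge (minOn f (wt x v)) (mon x m) := DivVal.Ge.of_le (by rw [h1]; exact h2)
  exact ((DivVal.Ge.const v _).mul_left (DivVal.Ge.intCast v _)).mul_left h3

end MMCI
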