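import Pool.Agent.MMCI.StR

/-!
# Block RED, module HOM (helper83)
-/

namespace MMCI

namespace R_HOM

open MvPolynomial

noncomputable section

lemma minOn_le {n : ℕ} (f : Laurent n) (ν m : Fin n → ℤ) (hm : m ∈ f.coeff.support) :
    minOn f ν ≤ pair ν m := by
  unfold minOn
  apply csInf_le
  · exact (Set.Finite.image _ (Finset.finite_toSet _)).bddBelow
  · exact ⟨m, hm, rfl⟩

variable {n g : ℕ}

/-- the exponent of `p` -/
def be (f : Laurent n) (ν : Fin (g + 1) → (Fin n → ℤ)) (p : Fin n → ℤ) : Fin (g + 1) →₀ ℕ :=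
  Finsupp.equivFunOnFinite.symm fun j => (pair (ν j) p - minOn f (ν j)).toNat

lemma be_cast (f : Laurent n) (ν : Fin (g + 1) → (Fin n → ℤ)) (p : Fin n → ℤ)
    (hp : p ∈ f.coeff.support) (j : Fin (g + 1)) :
    ((be f ν p j : ℕ) : ℤ) = pair (ν j) p - minOn f (ν j) := by
  show (((pair (ν j) p - minOn f (ν j)).toNat : ℕ) : ℤ) = _
  exact Int.toNat_of_nonneg (sub_nonneg.2 (minOn_le f (ν j) p hp))

/-- the polynomial -/
def poly {K : Type} [Field K] [Algebra ℂ K] (f : Laurent n) (x : Fin n → K)
    (ν : Fin (g + 1) → (Fin n → ℤ)) : MvPolynomial (Fin (g + 1)) K :=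
  ∑ p ∈ f.coeff.support, monomial (be f ν p) (algebraMap ℂ K (f.coeff p) * mon x p)

lemma ev_eq {F : Type*} [Field F] [Algebra ℂ F] (x : Fin n → F) (f : Laurent n) :
    ev x f = ∑ p ∈ f.coeff.support, algebraMap ℂ F (f.coeff p) * mon x p := rfl

lemma grad_eq {F : Type*} [Field F] [Algebra ℂ F] (x : Fin n → F) (f : Laurent n) (j : Fin n) :
    grad x f j = ∑ p ∈ f.coeff.support, algebraMap ℂ F (f.coeff p) * (p j : F) * mon x p := rfl

lemma der_eq {F : Type} [Field F] [Algebra ℂ F] (x : Fin n → F) (f : Laurent n)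
    (ν : Fin n → ℤ) : der x f ν =
      ∑ p ∈ f.coeff.support, algebraMap ℂ F (f.coeff p) * mon x p * ((pair ν p : ℤ) : F) := by
  unfold der
  simp only [grad_eq, Finset.mul_sum]
  rw [Finset.sum_comm]
  apply Finset.sum_congr rfl
  intro p _
  unfold pair
  rw [Int.cast_sum, Finset.mul_sum]
  apply Finset.sum_congr rfl
  intro k _
  rw [Int.cast_mul]
  ring

end

end R_HOM

open R_HOM MvPolynomial in
theorem t_RHOM : S_HOM := by
  classical
  intro n g K _ _ f x ν
  refine ⟨poly f x ν, ?_, ?_, ?_⟩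
  · intro c hc d hd
    unfold poly at hd
    have h1 := support_sum hd
    rw [Finset.mem_biUnion] at h1
    obtain ⟨p, hp, hd2⟩ := h1
    have h3 : d = be f ν p := Finset.mem_singleton.1 (support_monomial_subset hd2)
    subst h3
    rw [Nat.cast_sum]
    have h4 : ∀ l, ((be f ν p l * c l : ℕ) : ℤ) = (c l : ℤ) * pair (ν l) p -
        (c l : ℤ) * minOn f (ν l) := by
      intro l
      rw [Nat.cast_mul, be_cast f ν p hp l]
      ring
    rw [Finset.sum_congr rfl fun l _ => h4 l, Finset.sum_sub_distrib]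
    have h5 : ∑ l, (c l : ℤ) * pair (ν l) p = 0 := by
      unfold pair
      simp only [Finset.mul_sum]
      rw [Finset.sum_comm]
      apply Finset.sum_eq_zero
      intro k _
      have h6 := congrFun hc k
      rw [Finset.sum_apply] at h6
      have h7 : ∑ l, (c l : ℤ) * (ν l k * p k) = (∑ l, ((c l : ℤ) • ν l) k) * p k := by
        rw [Finset.sum_mul]
        apply Finset.sum_congr rfl
        intro l _
        rw [Pi.smul_apply, smul_eq_mul]
        ring
      rw [h7, h6, Pi.zero_apply, zero_mul]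
    rw [h5, zero_sub]
  · intro j
    unfold poly
    rw [map_sum, map_sum, der_eq, ev_eq, Finset.mul_sum, ← Finset.sum_sub_distrib]
    apply Finset.sum_congr rfl
    intro p hp
    rw [pderiv_monomial, eval_monomial]
    have h1 : (((be f ν p j : ℕ) : ℤ) : K) = ((pair (ν j) p - minOn f (ν j) : ℤ) : K) := by
      rw [be_cast f ν p hp j]
    rw [Int.cast_natCast, Int.cast_sub] at h1
    simp only [one_pow, Finsupp.prod, Finset.prod_const_one, mul_one]
    rw [h1]
    ring
  · intro L _ _ _ _ h t ht hm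
    unfold poly
    rw [ev_eq, map_sum, Finset.mul_sum]
    apply Finset.sum_congr rfl
    intro p hp
    rw [aeval_monomial, Finsupp.prod_fintype _ _ (fun i => pow_zero _), map_mul,
      ← IsScalarTower.algebraMap_apply]
    have h1 : mon (fun k => algebraMap K L (x k) * h k) p = algebraMap K L (mon x p) * mon h p := by
      unfold mon
      rw [map_prod, ← Finset.prod_mul_distrib]
      apply Finset.prod_congr rfl
      intro k _
      rw [mul_zpow, map_zpow₀]
    rw [h1, hm p]
    have h2 : ∏ j, t j ^ pair (ν j) p = (∏ j, t j ^ minOn f (ν j)) * ∏ j, t j ^ (be f ν p j) := by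
      rw [← Finset.prod_mul_distrib]
      apply Finset.prod_congr rfl
      intro j _
      rw [← zpow_natCast (t j) (be f ν p j), be_cast f ν p hp j, ← zpow_add₀ (ht j)]
      congr 1
      ring
    rw [h2]
    ring

end MMCI
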