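import Pool.Agent.MMCI.StR

/-! # INK: integral vectors which are independent over `ℤ` are independent over `K` -/

namespace MMCI

namespace R_INK

open Matrix

theorem rat {n g : ℕ} (ν : Fin g → (Fin n → ℤ)) (h : LinearIndependent ℤ ν) :
    LinearIndependent ℚ fun (j : Fin g) (k : Fin n) => (ν j k : ℚ) := by
  have h1 : LinearIndependent ℤ fun (j : Fin g) (k : Fin n) => (ν j k : ℚ) := by
    let φ : (Fin n → ℤ) →ₗ[ℤ] (Fin n → ℚ) :=
      { toFun := fun a k => (a k : ℚ)
        map_add' := fun a b => by ext k; simp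
        map_smul' := fun c a => by ext k; simp }
    have hφ : Function.Injective φ := by
      intro a b hab
      ext k
      have h3 : ((a k : ℤ) : ℚ) = ((b k : ℤ) : ℚ) := congrFun hab k
      exact_mod_cast h3
    exact h.map' φ (LinearMap.ker_eq_bot.2 hφ)
  exact (LinearIndependent.iff_fractionRing ℤ ℚ).1 h1

end R_INK

open Matrix in
theorem t_INK : S_INK := by
  intro n g K _ _ ν h
  have h1 := R_INK.rat ν h
  let A : Matrix (Fin g) (Fin n) ℚ := Matrix.of fun j k => (ν j k : ℚ)
  have h2 : Function.Injective A.vecMulLinear := by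
    have : Function.Injective A.vecMul := Matrix.vecMul_injective_iff.2 h1
    exact this
  obtain ⟨f, hf⟩ := LinearMap.exists_leftInverse_of_injective A.vecMulLinear
    (LinearMap.ker_eq_bot.2 h2)
  let B : Matrix (Fin n) (Fin g) ℚ := (LinearMap.toMatrix' f)ᵀ
  have hAB : A * B = 1 := by
    ext i j
    have h3 := congrFun (LinearMap.congr_fun hf (Pi.single i 1)) j
    have h4 : f (A.vecMulLinear (Pi.single i 1)) = (A i) ᵥ* B := by
      have h5 : A.vecMulLinear (Pi.single i 1) = A i := by
        change Pi.single i 1 ᵥ* A = A i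
        rw [Matrix.single_one_vecMul]
        rfl
      rw [h5]
      change f (A i) = (A i) ᵥ* (LinearMap.toMatrix' f)ᵀ
      rw [Matrix.vecMul_transpose, LinearMap.toMatrix'_mulVec]
    have h6 : ((A i) ᵥ* B) j = (Pi.single i 1 : Fin g → ℚ) j := by
      rw [← h4]
      exact h3
    have h7 : (A * B) i j = ((A i) ᵥ* B) j := rfl
    rw [h7, h6, Matrix.one_apply, Pi.single_apply]
    simp only [eq_comm]
  have hK : (A.map (algebraMap ℚ K)) * (B.map (algebraMap ℚ K)) = 1 := by
    rw [← Matrix.map_mul, hAB, Matrix.map_one _ (map_zero _) (map_one _)]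
  have h8 : Function.Injective (A.map (algebraMap ℚ K)).vecMul := by
    intro a b hab
    have := congrArg (fun v => v ᵥ* (B.map (algebraMap ℚ K))) hab
    simp only [Matrix.vecMul_vecMul, hK, Matrix.vecMul_one] at this
    exact this
  have h9 := Matrix.vecMul_injective_iff.1 h8
  convert h9 using 1
  funext j k
  simp [A, Matrix.row]

end MMCI
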