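import Pool.Agent.MMCI.StR
import Pool.Agent.MldGeo.TBAS

/-!
# KER: a vector orthogonal to the gradients and to sufficiently many exponents is zero
-/

namespace MMCI

open MldGeo

noncomputable section

namespace R_KER

variable {e n : ℕ} {K : Type} [Field K] [Algebra ℂ K]

omit [Algebra ℂ K] in
theorem mon_ne {x : Fin n → K} (hx : ∀ j, x j ≠ 0) (m : Fin n → ℤ) : mon x m ≠ 0 :=
  Finset.prod_ne_zero_iff.2 fun i _ => zpow_ne_zero _ (hx i)

theorem dlog_one : dlog (1 : K) = 0 := by
  unfold dlog
  rw [Derivation.map_one_eq_zero, smul_zero]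

theorem dlog_mul {a b : K} (ha : a ≠ 0) (hb : b ≠ 0) : dlog (a * b) = dlog a + dlog b := by
  unfold dlog
  rw [Derivation.leibniz, smul_add, smul_smul, smul_smul, mul_inv_rev, add_comm]
  congr 1
  · congr 1
    field_simp
  · congr 1
    field_simp

theorem dlog_inv {a : K} (ha : a ≠ 0) : dlog a⁻¹ = - dlog a := by
  have h := dlog_mul ha (inv_ne_zero ha)
  rw [mul_inv_cancel₀ ha, dlog_one] at h
  exact (neg_eq_of_add_eq_zero_right h.symm).symm

theorem dlog_pow {a : K} (ha : a ≠ 0) (k : ℕ) : dlog (a ^ k) = (k : K) • dlog a := by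
  induction k with
  | zero => simp [dlog_one]
  | succ k ih =>
    rw [pow_succ, dlog_mul (pow_ne_zero _ ha) ha, ih]
    push_cast
    rw [add_smul, one_smul]

theorem dlog_zpow {a : K} (ha : a ≠ 0) (k : ℤ) : dlog (a ^ k) = (k : K) • dlog a := by
  rcases k with k | k
  · simpa using dlog_pow ha k
  · rw [zpow_negSucc, dlog_inv (pow_ne_zero _ ha), dlog_pow ha, Int.negSucc_eq]
    push_cast
    rw [neg_smul]

theorem dlog_prod {ι : Type*} (s : Finset ι) (a : ι → K) (h : ∀ i ∈ s, a i ≠ 0) :
    dlog (∏ i ∈ s, a i) = ∑ i ∈ s, dlog (a i) := by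
  classical
  induction s using Finset.induction_on with
  | empty => simp [dlog_one]
  | insert b s hb ih =>
    rw [Finset.prod_insert hb, Finset.sum_insert hb, dlog_mul (h b (Finset.mem_insert_self b s))
      (Finset.prod_ne_zero_iff.2 fun i hi => h i (Finset.mem_insert_of_mem hi)),
      ih fun i hi => h i (Finset.mem_insert_of_mem hi)]

theorem dlog_mon {x : Fin n → K} (hx : ∀ j, x j ≠ 0) (m : Fin n → ℤ) :
    dlog (mon x m) = ∑ j, (m j : K) • dlog (x j) := by
  unfold mon
  rw [dlog_prod _ _ fun i _ => zpow_ne_zero _ (hx i)]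
  exact Finset.sum_congr rfl fun i _ => dlog_zpow (hx i) _

theorem D_eq {a : K} (ha : a ≠ 0) : KaehlerDifferential.D ℂ K a = a • dlog a := by
  unfold dlog
  rw [smul_smul, mul_inv_cancel₀ ha, one_smul]

theorem D_ev {x : Fin n → K} (hx : ∀ j, x j ≠ 0) (f : Laurent n) :
    KaehlerDifferential.D ℂ K (ev x f) = ∑ j, grad x f j • dlog (x j) := by
  have h1 : ∀ m ∈ f.coeff.support, KaehlerDifferential.D ℂ K (algebraMap ℂ K (f.coeff m) * mon x m)
      = ∑ j, (algebraMap ℂ K (f.coeff m) * (m j : K) * mon x m) • dlog (x j) := by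
    intro m _
    rw [Derivation.leibniz, Derivation.map_algebraMap, smul_zero, add_zero, D_eq (mon_ne hx m),
      dlog_mon hx, smul_smul, Finset.smul_sum]
    refine Finset.sum_congr rfl fun j _ => ?_
    rw [smul_smul]
    congr 1
    ring
  unfold ev grad Finsupp.sum
  rw [map_sum, Finset.sum_congr rfl h1, Finset.sum_comm]
  exact Finset.sum_congr rfl fun j _ => (Finset.sum_smul).symm

/-- A transcendence basis of a field generated by `S` can be chosen in `S`. -/
theorem exists_indep (S : Set K)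
    (h : Algebra.trdeg ℂ (IntermediateField.adjoin ℂ S) = (e : Cardinal)) :
    ∃ z : Fin e → K, (∀ l, z l ∈ S) ∧ AlgebraicIndependent ℂ z := by
  set E := IntermediateField.adjoin ℂ S with hE
  let S' : Set E := Subtype.val ⁻¹' S
  have himg : Subtype.val '' S' = S := by
    ext z
    constructor
    · rintro ⟨w, hw, rfl⟩
      exact hw
    · intro hz
      exact ⟨⟨z, IntermediateField.subset_adjoin ℂ S hz⟩, hz, rfl⟩
  have htop : IntermediateField.adjoin ℂ S' = ⊤ := by
    apply IntermediateField.lift_injective E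
    rw [IntermediateField.lift_adjoin, IntermediateField.lift_top, himg]
  have halg : Algebra.IsAlgebraic (Algebra.adjoin ℂ S') E := by
    rw [← IntermediateField.isAlgebraic_adjoin_iff_top, htop, Algebra.isAlgebraic_iff_isIntegral]
    exact Algebra.isIntegral_of_surjective IntermediateField.topEquiv.surjective
  obtain ⟨t, hts, ht⟩ := exists_isTranscendenceBasis_subset (R := ℂ) S'
  have hcard : Cardinal.mk t = Cardinal.mk (Fin e) := by
    rw [ht.cardinalMk_eq_trdeg, h, Cardinal.mk_fin]
  obtain ⟨φ⟩ := Cardinal.eq.1 hcard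
  refine ⟨fun l => ((φ.symm l : E) : K), fun l => hts (φ.symm l).2, ?_⟩
  have h1 : AlgebraicIndependent ℂ fun l : Fin e => (φ.symm l : E) :=
    ht.1.comp φ.symm φ.symm.injective
  exact h1.map' (f := E.val) Subtype.val_injective

end R_KER

open R_KER in
theorem t_KER : S_KER := by
  intro e n r K _ _ f x hS M hM y hy1 hy2
  classical
  obtain ⟨z, hzM, hz⟩ := exists_indep (e := e) _ hM
  choose m hmM hm using hzM
  have hx := hS.ne
  obtain ⟨hli, -⟩ := t_TBAS hS.dim z hz
  have hzne : ∀ l, z l ≠ 0 := fun l => by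
    rw [hm l]
    exact mon_ne hx _
  let Φ : (Fin n → K) →ₗ[K] Ω[K⁄ℂ] := Fintype.linearCombination K fun j => dlog (x j)
  have hΦ : ∀ a, Φ a = ∑ j, a j • dlog (x j) := fun a => by
    simp [Φ, Fintype.linearCombination_apply]
  have hΦm : ∀ l, Φ (fun j => (m l j : K)) = dlog (z l) := fun l => by
    rw [hΦ, hm l, dlog_mon hx]
  have hΦg : ∀ i, Φ (grad x (f i)) = 0 := fun i => by
    rw [hΦ, ← D_ev hx, hS.zero i, map_zero]
  have hind : LinearIndependent K
      (Sum.elim (fun i => grad x (f i)) (fun l j => (m l j : K)) : Fin r ⊕ Fin e → Fin n → K) := by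
    rw [Fintype.linearIndependent_iff]
    intro c hc
    rw [Fintype.sum_sum_type] at hc
    simp only [Sum.elim_inl, Sum.elim_inr] at hc
    have h1 := congrArg Φ hc
    rw [map_add, map_sum, map_sum, map_zero] at h1
    simp only [map_smul, hΦm] at h1
    have h2 : ∑ i : Fin r, c (Sum.inl i) • Φ (grad x (f i)) = 0 :=
      Finset.sum_eq_zero fun i _ => by rw [hΦg, smul_zero]
    rw [h2, zero_add] at h1
    have h3 : ∀ l, c (Sum.inr l) = 0 := by
      have h4 : ∑ l : Fin e, (c (Sum.inr l) * (z l)⁻¹) • KaehlerDifferential.D ℂ K (z l) = 0 := by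
        rw [← h1]
        exact Finset.sum_congr rfl fun l _ => by rw [dlog, smul_smul]
      intro l
      have h5 := Fintype.linearIndependent_iff.1 hli _ h4 l
      exact (mul_eq_zero.1 h5).resolve_right (inv_ne_zero (hzne l))
    have h6 : ∑ l : Fin e, c (Sum.inr l) • (fun j => (m l j : K) : Fin n → K) = 0 :=
      Finset.sum_eq_zero fun l _ => by rw [h3 l, zero_smul]
    rw [h6, add_zero] at hc
    have h7 := Fintype.linearIndependent_iff.1 hS.rank _ hc
    rintro (i | l)
    · exact h7 i
    · exact h3 l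
  have hspan := hind.span_eq_top_of_card_eq_finrank' (by
    rw [Fintype.card_sum, Fintype.card_fin, Fintype.card_fin, Module.finrank_fin_fun, hS.dim_eq])
  let Ψ : (Fin n → K) →ₗ[K] K := Fintype.linearCombination K y
  have hΨ : ∀ a, Ψ a = ∑ j, a j * y j := fun a => by
    simp [Ψ, Fintype.linearCombination_apply]
  have hΨ0 : Ψ = 0 := by
    apply LinearMap.ext_on_range hspan
    rintro (i | l)
    · rw [Sum.elim_inl, hΨ, LinearMap.zero_apply, ← hy1 i]
      exact Finset.sum_congr rfl fun j _ => mul_comm _ _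
    · rw [Sum.elim_inr, hΨ, LinearMap.zero_apply, ← hy2 (m l) (hmM l)]
      exact Finset.sum_congr rfl fun j _ => mul_comm _ _
  funext j
  have h8 := LinearMap.congr_fun hΨ0 (Pi.single j 1)
  rw [hΨ, LinearMap.zero_apply] at h8
  rw [Pi.zero_apply, ← h8, Finset.sum_eq_single j]
  · rw [Pi.single_eq_same, one_mul]
  · intro k _ hk
    rw [Pi.single_eq_of_ne hk, zero_mul]
  · intro h
    exact absurd (Finset.mem_univ j) h

end

end MMCI
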