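import Pool.Agent.MMCI.StR

/-!
# LAT: a basis of the lattice orthogonal to independent vectors
-/

set_option autoImplicit false

namespace MMCI

open MldGeo

noncomputable section

namespace R_LAT

variable {n g : ℕ}

/-- the map `u ↦ (pair (ν j) u)_j` -/
def phi (ν : Fin g → (Fin n → ℤ)) : (Fin n → ℤ) →ₗ[ℤ] (Fin g → ℤ) where
  toFun u := fun j => pair (ν j) u
  map_add' u v := by
    funext j
    simp only [pair, Pi.add_apply, mul_add, Finset.sum_add_distrib]
  map_smul' c u := by
    funext j
    simp only [pair, Pi.smul_apply, smul_eq_mul, RingHom.id_apply, Finset.mul_sum]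
    exact Finset.sum_congr rfl (fun i _ => by ring)

/-- the map `a ↦ ∑ a_j ν_j` -/
def psi' (ν : Fin g → (Fin n → ℤ)) : (Fin g → ℤ) →ₗ[ℤ] (Fin n → ℤ) where
  toFun a := ∑ j, a j • ν j
  map_add' u v := by
    simp only [Pi.add_apply, add_smul, Finset.sum_add_distrib]
  map_smul' c u := by
    simp only [Pi.smul_apply, smul_eq_mul, RingHom.id_apply, mul_smul, Finset.smul_sum]

lemma pair_sum (ν : Fin g → (Fin n → ℤ)) (a : Fin g → ℤ) (u : Fin n → ℤ) :
    pair (∑ j, a j • ν j) u = ∑ j, a j * pair (ν j) u := by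
  unfold pair
  simp only [Finset.sum_apply, Pi.smul_apply, smul_eq_mul, Finset.sum_mul, Finset.mul_sum]
  rw [Finset.sum_comm]
  exact Finset.sum_congr rfl (fun j _ => Finset.sum_congr rfl (fun i _ => by ring))

lemma comp_inj (ν : Fin g → (Fin n → ℤ)) (h : LinearIndependent ℤ ν) :
    Function.Injective ((phi ν).comp (psi' ν)) := by
  rw [← LinearMap.ker_eq_bot, LinearMap.ker_eq_bot']
  intro a ha
  have h1 : ∀ j, pair (ν j) (∑ j, a j • ν j) = 0 := fun j => congrFun ha j
  have h2 : pair (∑ j, a j • ν j) (∑ j, a j • ν j) = 0 := by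
    rw [pair_sum]
    exact Finset.sum_eq_zero (fun j _ => by rw [h1, mul_zero])
  have h3 : ∑ j, a j • ν j = 0 := by
    unfold pair at h2
    have h4 := (Finset.sum_eq_zero_iff_of_nonneg (fun i _ => mul_self_nonneg _)).mp h2
    funext i
    exact mul_self_eq_zero.mp (h4 i (Finset.mem_univ i))
  rw [Fintype.linearIndependent_iff] at h
  funext j
  exact h a h3 j

end R_LAT

open R_LAT in
theorem t_LAT : S_LAT := by
  intro n g ν hν
  have h1 : Module.finrank ℤ (LinearMap.range (phi ν)) = g := by
    apply le_antisymm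
    · have h2 := Submodule.finrank_le (LinearMap.range (phi ν))
      rwa [Module.finrank_fin_fun] at h2
    · have h3 := LinearMap.finrank_range_of_inj (comp_inj ν hν)
      rw [Module.finrank_fin_fun] at h3
      have h4 := Submodule.finrank_mono (LinearMap.range_comp_le_range (psi' ν) (phi ν))
      rw [h3] at h4
      exact h4
  have h5 := Submodule.finrank_quotient_add_finrank (LinearMap.ker (phi ν))
  rw [(phi ν).quotKerEquivRange.finrank_eq, h1, Module.finrank_fin_fun] at h5
  set N := LinearMap.ker (phi ν) with hN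
  let b : Module.Basis (Fin (Module.finrank ℤ N)) ℤ N := Module.finBasis ℤ N
  refine ⟨Module.finrank ℤ N, fun k => (b k : Fin n → ℤ), by omega, ?_, ?_, ?_⟩
  · have h6 := b.linearIndependent.map' N.subtype (Submodule.ker_subtype N)
    exact h6
  · intro k j
    have h7 : phi ν (b k : Fin n → ℤ) = 0 := (b k).2
    exact congrFun h7 j
  · intro u hu
    have h8 : u ∈ N := by
      rw [hN, LinearMap.mem_ker]
      funext j
      exact hu j
    refine ⟨fun k => b.repr ⟨u, h8⟩ k, ?_⟩
    have h9 := congrArg N.subtype (b.sum_repr ⟨u, h8⟩)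
    rw [map_sum] at h9
    simp only [map_smul, Submodule.subtype_apply] at h9
    exact h9.symm

end

end MMCI
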