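import Pool.Agent.MMCI.StR

/-!
# Block RED: `ND1`, Cramer's rule and the orders
-/

namespace MMCI

open MldGeo

noncomputable section

namespace R_ND1

variable {e : ℕ} {K : Type} [Field K] [Algebra ℂ K] {v : DivVal e K}

/-- the order of a determinant is at least the sum of the lower bounds of the orders of the rows -/
theorem ge_det {r : ℕ} (M : Matrix (Fin r) (Fin r) K) (μ : Fin r → ℤ)
    (h : ∀ i k, v.Ge (μ i) (M i k)) : v.Ge (∑ i, μ i) M.det := by
  rw [Matrix.det_apply]
  refine DivVal.Ge.sum _ _ fun σ _ => ?_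
  have h1 : v.Ge (∑ i, μ i) (∏ i, M (σ i) i) := by
    have h2 := DivVal.Ge.prod (v := v) Finset.univ (fun i => M (σ i) i) (fun i => μ (σ i))
      fun i _ => h (σ i) i
    rwa [Equiv.sum_comp σ μ] at h2
  rcases Int.units_eq_one_or (Equiv.Perm.sign σ) with h2 | h2
  · rw [h2, one_smul]
    exact h1
  · rw [h2, Units.neg_smul, one_smul]
    exact h1.neg

end R_ND1

open R_ND1 in
theorem t_ND1 : S_ND1 := by
  intro e r n K _ _ v G μ s hG hdet hord y N hy i
  set S : Matrix (Fin r) (Fin r) K := Matrix.of fun i j => G i (s j) with hS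
  have h1 : Matrix.vecMul (Matrix.vecMul y S) S.adjugate = S.det • y := by
    rw [Matrix.vecMul_vecMul, Matrix.mul_adjugate, Matrix.vecMul_smul, Matrix.vecMul_one]
  have h2 : ∑ j, (∑ i, y i * G i (s j)) * S.adjugate j i = S.det * y i := by
    have h3 := congrFun h1 i
    rw [Pi.smul_apply, smul_eq_mul] at h3
    rw [← h3]
    rfl
  have h3 : ∀ j, v.Ge (∑ i', μ i' - μ i) (S.adjugate j i) := by
    intro j
    rw [Matrix.adjugate_apply]
    have h4 := ge_det (v := v) (S.updateRow i (Pi.single j 1)) (fun i' => if i' = i then 0 else μ i')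
      (by
        intro i' k
        by_cases h : i' = i
        · rw [h, Matrix.updateRow_self, if_pos rfl]
          by_cases hk : k = j
          · rw [hk, Pi.single_eq_same]
            exact DivVal.Ge.one v
          · rw [Pi.single_eq_of_ne hk]
            exact DivVal.Ge.zero v 0
        · rw [Matrix.updateRow_ne h, if_neg h]
          exact hG i' (s k))
    refine h4.mono (le_of_eq ?_)
    rw [← Finset.add_sum_erase Finset.univ μ (Finset.mem_univ i),
      ← Finset.add_sum_erase Finset.univ (fun i' => if i' = i then 0 else μ i')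
        (Finset.mem_univ i), if_pos rfl]
    rw [Finset.sum_congr rfl fun i' hi' => if_neg (Finset.ne_of_mem_erase hi')]
    ring
  have h4 : v.Ge (N + (∑ i', μ i' - μ i)) (S.det * y i) := by
    rw [← h2]
    exact DivVal.Ge.sum _ _ fun j _ => (hy (s j)).mul (h3 j)
  have h5 := h4.div S.det
  rw [mul_div_cancel_left₀ _ hdet, hord] at h5
  refine h5.mono (le_of_eq ?_)
  ring

end

end MMCI
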