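import Pool.Agent.MMCI.StR

/-!
# MP_fa3f7f_ag, MMCI, block RED: ND2
-/

namespace MMCI

open MldGeo

noncomputable section

namespace ND2

section Ge

variable {e : ℕ} {K : Type} [Field K] [Algebra ℂ K] (v : DivVal e K)

theorem ord_one : v.ord 1 = 0 := by
  have h := v.ord_const 1
  rwa [map_one] at h

theorem ord_pow {a : K} (ha : a ≠ 0) (k : ℕ) : v.ord (a ^ k) = k * v.ord a := by
  induction k with
  | zero => rw [pow_zero, ord_one]; simp
  | succ k ih =>
    rw [pow_succ, v.ord_mul _ _ (pow_ne_zero k ha) ha, ih]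
    push_cast
    ring

theorem ge_add {k : ℤ} {a b : K} (ha : v.Ge k a) (hb : v.Ge k b) : v.Ge k (a + b) := by
  rcases ha with rfl | ha
  · rwa [zero_add]
  rcases hb with rfl | hb
  · rw [add_zero]
    exact Or.inr ha
  by_cases h0 : a = 0
  · rw [h0, zero_add]
    exact Or.inr hb
  by_cases h1 : b = 0
  · rw [h1, add_zero]
    exact Or.inr ha
  by_cases h2 : a + b = 0
  · exact Or.inl h2
  · right
    exact le_trans (le_min ha hb) (v.ord_add a b h0 h1 h2)

theorem ge_mul {k l : ℤ} {a b : K} (ha : v.Ge k a) (hb : v.Ge l b) : v.Ge (k + l) (a * b) := by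
  by_cases h0 : a = 0
  · left
    rw [h0, zero_mul]
  by_cases h1 : b = 0
  · left
    rw [h1, mul_zero]
  right
  rw [v.ord_mul a b h0 h1]
  exact add_le_add (ha.resolve_left h0) (hb.resolve_left h1)

theorem ge_sum {ι : Type} (s : Finset ι) {k : ℤ} {f : ι → K} (h : ∀ i ∈ s, v.Ge k (f i)) :
    v.Ge k (∑ i ∈ s, f i) := by
  classical
  induction s using Finset.induction_on with
  | empty => exact Or.inl Finset.sum_empty
  | insert a s ha ih =>
    rw [Finset.sum_insert ha]
    exact ge_add v (h a (Finset.mem_insert_self _ _))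
      (ih fun i hi => h i (Finset.mem_insert_of_mem hi))

theorem ge_prod {ι : Type} (s : Finset ι) {k : ι → ℤ} {f : ι → K} (h : ∀ i ∈ s, v.Ge (k i) (f i)) :
    v.Ge (∑ i ∈ s, k i) (∏ i ∈ s, f i) := by
  classical
  induction s using Finset.induction_on with
  | empty =>
    right
    rw [Finset.sum_empty, Finset.prod_empty, ord_one]
  | insert a s ha ih =>
    rw [Finset.sum_insert ha, Finset.prod_insert ha]
    exact ge_mul v (h a (Finset.mem_insert_self _ _))
      (ih fun i hi => h i (Finset.mem_insert_of_mem hi))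

theorem ge_sign {r : ℕ} (σ : Equiv.Perm (Fin r)) : v.Ge 0 (((Equiv.Perm.sign σ : ℤ) : K)) := by
  right
  rcases Int.units_eq_one_or (Equiv.Perm.sign σ) with h | h
  · rw [h]
    simp [ord_one]
  · rw [h]
    have h1 := v.ord_const (-1)
    rw [map_neg, map_one] at h1
    simp [h1]

/-- The order of a determinant. -/
theorem ge_det {r : ℕ} {B : Matrix (Fin r) (Fin r) K} {μ : Fin r → ℤ}
    (h : ∀ i j, v.Ge (μ i) (B i j)) : v.Ge (∑ i, μ i) B.det := by
  rw [Matrix.det_apply']
  refine ge_sum v _ fun σ _ => ?_
  have h1 := ge_mul v (ge_sign v σ) (ge_prod v Finset.univ (k := fun i => μ (σ i))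
    (f := fun i => B (σ i) i) fun i _ => h (σ i) i)
  rw [zero_add, Equiv.sum_comp σ μ] at h1
  exact h1

end Ge

end ND2

open ND2

theorem t_ND2 (hSEL : S_SEL) : S_ND2 := by
  intro e r n K _ _ v G μ hG hgood
  classical
  -- the rows are independent
  have hind : ∀ d : Fin r → K, (∀ k : Fin n, ∑ i, G i k * d i = 0) → d = 0 := by
    intro d hd
    funext i
    by_contra hi
    have h1 := hgood d (v.ord (d i) + μ i + 1) (fun k => Or.inl (by
      rw [← hd k]
      exact Finset.sum_congr rfl fun i _ => mul_comm _ _)) i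
    rcases h1 with h1 | h1
    · exact hi h1
    · omega
  obtain ⟨ρ, _, hdet⟩ := hSEL (fun (k : Fin n) (i : Fin r) => G i k) hind
  -- the minors
  let A : (Fin r → Fin n) → Matrix (Fin r) (Fin r) K := fun s => Matrix.of fun i j => G i (s j)
  have hne : (Finset.univ.filter fun s : Fin r → Fin n => (A s).det ≠ 0).Nonempty := by
    refine ⟨ρ, Finset.mem_filter.2 ⟨Finset.mem_univ _, ?_⟩⟩
    rw [← Matrix.det_transpose]
    exact hdet
  obtain ⟨s, hs, hmin⟩ := Finset.exists_min_image _ (fun s => v.ord (A s).det) hne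
  have hs0 : (A s).det ≠ 0 := (Finset.mem_filter.1 hs).2
  have hmin' : ∀ s', v.Ge (v.ord (A s).det) (A s').det := by
    intro s'
    by_cases h0 : (A s').det = 0
    · exact Or.inl h0
    · exact Or.inr (hmin s' (Finset.mem_filter.2 ⟨Finset.mem_univ _, h0⟩))
  -- Cramer's rule
  have hadj : ∀ j i, v.Ge (v.ord (A s).det - μ i) ((A s).adjugate j i) := by
    intro j i
    refine hgood (fun i => (A s).adjugate j i) (v.ord (A s).det) (fun k => ?_) i
    have h1 : ∑ i, (A s).adjugate j i * G i k = (A (Function.update s j k)).det := by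
      have h2 : ∑ i, (A s).adjugate j i * G i k =
          Matrix.cramer (A s) (fun i => G i k) j := by
        rw [Matrix.cramer_eq_adjugate_mulVec]
        rfl
      rw [h2, Matrix.cramer_apply]
      congr 1
      ext a b
      rw [Matrix.updateCol_apply]
      by_cases hb : b = j
      · rw [if_pos hb, hb]
        show G a k = G a (Function.update s j k j)
        rw [Function.update_self]
      · rw [if_neg hb]
        show G a (s b) = G a (Function.update s j k b)
        rw [Function.update_of_ne hb]
    rw [h1]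
    exact hmin' _
  have hlow : ∑ i, μ i ≤ v.ord (A s).det :=
    (ge_det v (B := A s) (μ := μ) fun i j => hG i (s j)).resolve_left hs0
  have hup : v.ord (A s).det ≤ ∑ i, μ i := by
    rcases Nat.eq_zero_or_pos r with hr | hr
    · subst hr
      have h1 : (A s).det = 1 := Matrix.det_isEmpty
      rw [h1, ord_one]
      simp
    · have h1 := ge_det v (B := (A s).adjugate.transpose)
        (μ := fun i => v.ord (A s).det - μ i) fun i j => hadj j i
      rw [Matrix.det_transpose, Matrix.det_adjugate, Fintype.card_fin] at h1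
      have h2 := h1.resolve_left (pow_ne_zero _ hs0)
      rw [ord_pow v hs0, Finset.sum_sub_distrib, Finset.sum_const, Finset.card_univ,
        Fintype.card_fin, nsmul_eq_mul] at h2
      have h3 : ((r - 1 : ℕ) : ℤ) = r - 1 := by
        push_cast [hr]
        ring
      rw [h3, sub_mul, one_mul] at h2
      linarith
  refine ⟨s, ?_, hs0, le_antisymm hup hlow⟩
  intro a b hab
  by_contra hne'
  apply hs0
  apply Matrix.det_zero_of_column_eq hne'
  intro i
  show G i (s a) = G i (s b)
  rw [hab]

end

end MMCI
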