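import Pool.Agent.MMCI.StR

/-!
# NEW: the new system after the change of variables
-/

namespace MMCI

open MldGeo

namespace R_NEW

variable {e n : ℕ} {K : Type} [Field K] [Algebra ℂ K]

/-! ### orders -/

theorem ge_add (v : DivVal e K) {k : ℤ} {a b : K} (ha : v.Ge k a) (hb : v.Ge k b) :
    v.Ge k (a + b) := by
  rcases eq_or_ne a 0 with h | h
  · rw [h, zero_add]; exact hb
  rcases eq_or_ne b 0 with h' | h'
  · rw [h', add_zero]; exact ha
  rcases eq_or_ne (a + b) 0 with h2 | h2
  · exact Or.inl h2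
  · rcases ha with ha | ha
    · exact absurd ha h
    rcases hb with hb | hb
    · exact absurd hb h'
    exact Or.inr ((le_min ha hb).trans (v.ord_add a b h h' h2))

theorem ge_sum (v : DivVal e K) {ι : Type} (s : Finset ι) (f : ι → K) {k : ℤ}
    (h : ∀ i ∈ s, v.Ge k (f i)) : v.Ge k (∑ i ∈ s, f i) := by
  classical
  induction s using Finset.induction_on with
  | empty => rw [Finset.sum_empty]; exact Or.inl rfl
  | insert a s ha ih =>
    rw [Finset.sum_insert ha]
    exact ge_add v (h a (Finset.mem_insert_self a s))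
      (ih fun i hi => h i (Finset.mem_insert_of_mem hi))

theorem ge_mul (v : DivVal e K) {k l : ℤ} {a b : K} (ha : v.Ge k a) (hb : v.Ge l b) :
    v.Ge (k + l) (a * b) := by
  rcases eq_or_ne a 0 with h | h
  · rw [h, zero_mul]; exact Or.inl rfl
  rcases eq_or_ne b 0 with h' | h'
  · rw [h', mul_zero]; exact Or.inl rfl
  rcases ha with ha | ha
  · exact absurd ha h
  rcases hb with hb | hb
  · exact absurd hb h'
  refine Or.inr ?_
  rw [v.ord_mul a b h h']
  omega

theorem ge_int (v : DivVal e K) (z : ℤ) : v.Ge 0 (z : K) := by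
  have h := v.ord_const (z : ℂ)
  rw [map_intCast] at h
  exact Or.inr h.ge

theorem ord_one (v : DivVal e K) : v.ord 1 = 0 := by
  have h := v.ord_const 1
  rwa [map_one] at h

theorem ord_inv (v : DivVal e K) {a : K} (ha : a ≠ 0) : v.ord a⁻¹ = - v.ord a := by
  have h := v.ord_mul a a⁻¹ ha (inv_ne_zero ha)
  rw [mul_inv_cancel₀ ha, ord_one] at h
  omega

theorem ord_pow (v : DivVal e K) {a : K} (ha : a ≠ 0) (k : ℕ) : v.ord (a ^ k) = k * v.ord a := by
  induction k with
  | zero => rw [pow_zero, ord_one]; simp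
  | succ k ih =>
    rw [pow_succ, v.ord_mul _ _ (pow_ne_zero k ha) ha, ih]
    push_cast
    ring

theorem ord_zpow (v : DivVal e K) {a : K} (ha : a ≠ 0) (k : ℤ) : v.ord (a ^ k) = k * v.ord a := by
  rcases Int.eq_nat_or_neg k with ⟨n, rfl | rfl⟩
  · rw [zpow_natCast, ord_pow v ha]
  · rw [zpow_neg, zpow_natCast, ord_inv v (pow_ne_zero n ha), ord_pow v ha]
    ring

theorem ord_prod (v : DivVal e K) {ι : Type} (s : Finset ι) (f : ι → K) (h : ∀ i, f i ≠ 0) :
    v.ord (∏ i ∈ s, f i) = ∑ i ∈ s, v.ord (f i) := by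
  classical
  induction s using Finset.induction_on with
  | empty => rw [Finset.prod_empty, Finset.sum_empty, ord_one]
  | insert a s ha ih =>
    rw [Finset.prod_insert ha, Finset.sum_insert ha, v.ord_mul _ _ (h a)
      (Finset.prod_ne_zero_iff.2 fun i _ => h i), ih]

omit [Algebra ℂ K] in
theorem mon_ne {x : Fin n → K} (hx : ∀ j, x j ≠ 0) (p : Fin n → ℤ) : mon x p ≠ 0 :=
  Finset.prod_ne_zero_iff.2 fun i _ => zpow_ne_zero _ (hx i)

theorem ord_mon (v : DivVal e K) {x : Fin n → K} (hx : ∀ j, x j ≠ 0) (p : Fin n → ℤ) :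
    v.ord (mon x p) = pair (wt x v) p := by
  unfold mon pair wt
  rw [ord_prod v _ _ fun i => zpow_ne_zero _ (hx i)]
  refine Finset.sum_congr rfl fun i _ => ?_
  rw [ord_zpow v (hx i)]
  ring

/-! ### extension of an injective map -/

theorem exists_equiv {n' r' e : ℕ} (h : n' = r' + e) (s : Fin r' → Fin n')
    (hs : Function.Injective s) : ∃ σ : Fin r' ⊕ Fin e ≃ Fin n', ∀ j, σ (Sum.inl j) = s j := by
  classical
  have hc : Fintype.card (Fin e) = Fintype.card ↥(Set.range s)ᶜ := by
    rw [Fintype.card_compl_set, Fintype.card_fin, Fintype.card_fin, Set.card_range_of_injective hs,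
      Fintype.card_fin, h]
    omega
  refine ⟨((Equiv.ofInjective s hs).sumCongr (Fintype.equivOfCardEq hc)).trans
    (Equiv.Set.sumCompl (Set.range s)), fun j => ?_⟩
  simp

end R_NEW

open R_NEW in
theorem t_NEW (hCHV : S_CHV) (hGRO : S_GRO) (hND1 : S_ND1) (hND2 : S_ND2) : S_NEW := by
  intro e n r n' r' K _ _ f x m ρ p hS hm hn' hρ hgen hq
  have hx : ∀ j, x j ≠ 0 := hS.ne
  have hx' : ∀ k, mon x (m k) ≠ 0 := fun k => mon_ne hx _
  have h1 : ∀ i, ∃ f' : Laurent n', f' ≠ 0 ∧
      (∀ w, minOn (f (ρ i)) w = pair w (p i) + minOn f' fun k => pair w (m k)) ∧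
      ev x (f (ρ i)) = mon x (p i) * ev (fun k => mon x (m k)) f' ∧
      ∀ j, grad x (f (ρ i)) j = (p i j : K) * ev x (f (ρ i)) +
        mon x (p i) * ∑ k, (m k j : K) * grad (fun k => mon x (m k)) f' k := by
    intro i
    obtain ⟨f', h0, h1, h2⟩ := hCHV m (f (ρ i)) (p i) hm (hS.f_ne _) (hq i)
    obtain ⟨h3, h4⟩ := h2 x hx
    exact ⟨f', h0, h1, h3, h4⟩
  choose f' hne hmin hev hgr using h1
  have hz : ∀ i, ev (fun k => mon x (m k)) (f' i) = 0 := by
    intro i
    have h := hev i
    rw [hS.zero] at h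
    exact (mul_eq_zero.1 h.symm).resolve_left (mon_ne hx _)
  have hg : ∀ i j, grad x (f (ρ i)) j =
      mon x (p i) * ∑ k, (m k j : K) * grad (fun k => mon x (m k)) (f' i) k := by
    intro i j
    rw [hgr i j, hS.zero, mul_zero, zero_add]
  have key : ∀ (c : Fin r' → K) (j : Fin n),
      ∑ i, (c i * (mon x (p i))⁻¹) * grad x (f (ρ i)) j =
        ∑ k, (m k j : K) * ∑ i, c i * grad (fun k => mon x (m k)) (f' i) k := by
    intro c j
    have h2 : ∀ i, (c i * (mon x (p i))⁻¹) * grad x (f (ρ i)) j =
        ∑ k, (m k j : K) * (c i * grad (fun k => mon x (m k)) (f' i) k) := by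
      intro i
      rw [hg i j, mul_assoc, inv_mul_cancel_left₀ (mon_ne hx _), Finset.mul_sum]
      refine Finset.sum_congr rfl fun k _ => ?_
      ring
    rw [Finset.sum_congr rfl fun i _ => h2 i, Finset.sum_comm]
    refine Finset.sum_congr rfl fun k _ => ?_
    rw [Finset.mul_sum]
  refine ⟨f', ?_⟩
  refine { dim_eq := hn', pos := hS.pos, f_ne := hne, ne := hx', gen := hgen, dim := hS.dim,
           zero := hz, rank := ?_, nd := ?_ }
  · rw [Fintype.linearIndependent_iff]
    intro c hc i
    have h3 : LinearIndependent K fun i => grad x (f (ρ i)) := hS.rank.comp ρ hρ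
    rw [Fintype.linearIndependent_iff] at h3
    have h4 := h3 (fun i => c i * (mon x (p i))⁻¹) (by
      funext j
      have h5 := key c j
      have h6 : ∀ k, ∑ i, c i * grad (fun k => mon x (m k)) (f' i) k = 0 := by
        intro k
        have := congrFun hc k
        simpa [Finset.sum_apply] using this
      simp only [h6, mul_zero, Finset.sum_const_zero] at h5
      simpa [Finset.sum_apply] using h5) i
    exact (mul_eq_zero.1 h4).resolve_right (inv_ne_zero (mon_ne hx _))
  · intro v
    obtain ⟨σ, hσ, hσ'⟩ := hS.nd v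
    have hG : Good v (fun i => grad x (f i)) fun i => minOn (f i) (wt x v) :=
      hND1 v (fun i => grad x (f i)) (fun i => minOn (f i) (wt x v)) (fun j => σ (Sum.inl j))
        (fun i k => hGRO (f i) x v hx k) hσ hσ'
    have hw : wt (fun k => mon x (m k)) v = fun k => pair (wt x v) (m k) := by
      funext k
      exact ord_mon v hx (m k)
    have hG' : Good v (fun i => grad (fun k => mon x (m k)) (f' i))
        fun i => minOn (f' i) (wt (fun k => mon x (m k)) v) := by
      intro y N hy i
      have h5 := hG (Function.extend ρ (fun i => y i * (mon x (p i))⁻¹) 0) N (by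
        intro j
        have h6 : ∑ i, Function.extend ρ (fun i => y i * (mon x (p i))⁻¹) 0 i * grad x (f i) j =
            ∑ i, (y i * (mon x (p i))⁻¹) * grad x (f (ρ i)) j := by
          symm
          refine Fintype.sum_of_injective ρ hρ _ _ ?_ ?_
          · intro i hi
            rw [Function.extend_apply' _ _ _ (by simpa using hi)]
            simp
          · intro i
            rw [hρ.extend_apply]
        rw [h6, key y j]
        refine ge_sum v _ _ fun k _ => ?_
        have h7 := ge_mul v (ge_int v (m k j)) (hy k)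
        rwa [zero_add] at h7) (ρ i)
      rw [hρ.extend_apply] at h5
      have h8 : v.Ge (pair (wt x v) (p i)) (mon x (p i)) := Or.inr (ord_mon v hx (p i)).ge
      have h9 := ge_mul v h5 h8
      rw [inv_mul_cancel_right₀ (mon_ne hx _)] at h9
      have h10 : N - minOn (f (ρ i)) (wt x v) + pair (wt x v) (p i) =
          N - minOn (f' i) (wt (fun k => mon x (m k)) v) := by
        rw [hmin i, hw]
        ring
      rwa [h10] at h9
    obtain ⟨s, hs, hs1, hs2⟩ := hND2 v (fun i => grad (fun k => mon x (m k)) (f' i))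
      (fun i => minOn (f' i) (wt (fun k => mon x (m k)) v))
      (fun i k => hGRO (f' i) _ v hx' k) hG'
    obtain ⟨τ, hτ⟩ := exists_equiv hn' s hs
    refine ⟨τ, ?_, ?_⟩
    · unfold minor
      simpa only [hτ] using hs1
    · unfold minor psi
      simpa only [hτ] using hs2

end MMCI
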