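import Pool.Agent.MMCI.StR

/-!
# Block RED: the assembly
-/

set_option autoImplicit false

namespace MMCI

open MldGeo

noncomputable section

namespace R_RED

variable {n : ℕ}

theorem pair_sub (w a b : Fin n → ℤ) : pair w (a - b) = pair w a - pair w b := by
  unfold pair
  rw [← Finset.sum_sub_distrib]
  refine Finset.sum_congr rfl fun i _ => ?_
  simp [mul_sub]

theorem pair_sum {ι : Type} [Fintype ι] (c : ι → ℤ) (ν : ι → Fin n → ℤ) (u : Fin n → ℤ) :
    pair (∑ j, c j • ν j) u = ∑ j, c j * pair (ν j) u := by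
  unfold pair
  simp only [Finset.sum_apply, Pi.smul_apply, smul_eq_mul, Finset.sum_mul, Finset.mul_sum]
  rw [Finset.sum_comm]
  refine Finset.sum_congr rfl fun j _ => Finset.sum_congr rfl fun i _ => ?_
  ring

theorem mon_sum {K : Type} [Field K] (x : Fin n → K) (hx : ∀ j, x j ≠ 0) {n' : ℕ}
    (a : Fin n' → ℤ) (m : Fin n' → Fin n → ℤ) :
    mon x (∑ k, a k • m k) = ∏ k, mon x (m k) ^ a k := by
  unfold mon
  have h1 : ∀ j, x j ^ (∑ k, a k • m k) j = ∏ k, (x j ^ m k j) ^ a k := by
    intro j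
    have h2 : (∑ k, a k • m k) j = ∑ k, m k j * a k := by
      simp [Finset.sum_apply, mul_comm]
    rw [h2]
    have h3 : ∀ s : Finset (Fin n'), x j ^ (∑ k ∈ s, m k j * a k) = ∏ k ∈ s, (x j ^ m k j) ^ a k := by
      classical
      intro s
      induction s using Finset.induction_on with
      | empty => simp
      | insert i s hi ih =>
        rw [Finset.sum_insert hi, Finset.prod_insert hi, zpow_add₀ (hx j), ih, zpow_mul]
    exact h3 Finset.univ
  rw [Finset.prod_congr rfl fun j _ => h1 j, Finset.prod_comm]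
  refine Finset.prod_congr rfl fun k _ => ?_
  rw [Finset.prod_zpow]

end R_RED

open R_RED

theorem t_RED (hKER : S_KER) (hINK : S_INK) (hCMB : S_CMB) (hWGT : S_WGT) (hEMB : S_EMB)
    (hLAT : S_LAT) (hNEW : S_NEW) : S_RED := by
  classical
  intro e n r K _ _ f x hS F htr
  have hchar : CharZero K := charZero_of_injective_algebraMap (algebraMap ℂ K).injective
  let M : Set (Fin n → ℤ) := {m | ∃ a ∈ F.A, ∃ a' ∈ F.A, m = F.b a - F.b a'}
  have hMset : {z : K | ∃ m ∈ M, z = mon x m} =
      {z | ∃ a ∈ F.A, ∃ a' ∈ F.A, z = mon x (F.b a - F.b a')} := by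
    ext z
    constructor
    · rintro ⟨m, ⟨a, ha, a', ha', rfl⟩, rfl⟩
      exact ⟨a, ha, a', ha', rfl⟩
    · rintro ⟨a, ha, a', ha', rfl⟩
      exact ⟨_, ⟨a, ha, a', ha', rfl⟩, rfl⟩
  have hMpair : ∀ m ∈ M, ∀ j, pair (F.ν j) m = 0 := by
    rintro m ⟨a, ha, a', ha', rfl⟩ j
    rw [pair_sub, F.const j a ha a' ha', sub_self]
  have hc0 : ∀ j, (F.c j : K) ≠ 0 := fun j => by exact_mod_cast (F.c_pos j).ne'
  have hrelK : ∀ k, ∑ j, (F.c j : K) * (F.ν j k : K) = 0 := by
    intro k
    have h1 := congrFun F.rel k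
    simp only [Finset.sum_apply, Pi.smul_apply, smul_eq_mul, Pi.zero_apply] at h1
    exact_mod_cast congrArg (fun z : ℤ => (z : K)) h1
  -- the kernel
  have hker : ∀ d : Fin (F.g + 1) → K, (∀ i, ∑ j, der x (f i) (F.ν j) * d j = 0) →
      ∀ i j, d i * (F.c j : K) = d j * (F.c i : K) := by
    intro d hd
    have hy : (fun k => ∑ j, d j * (F.ν j k : K)) = 0 := by
      refine hKER f x hS M (by rw [hMset]; exact htr) _ ?_ ?_
      · intro i
        have h1 := hd i
        unfold der at h1
        rw [← h1]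
        simp only [Finset.sum_mul]
        rw [Finset.sum_comm]
        refine Finset.sum_congr rfl fun j _ => Finset.sum_congr rfl fun k _ => ?_
        ring
      · intro m hm
        have h1 : ∀ j, ∑ k, (F.ν j k : K) * (m k : K) = 0 := by
          intro j
          have h2 := hMpair m hm j
          unfold pair at h2
          exact_mod_cast congrArg (fun z : ℤ => (z : K)) h2
        simp only [Finset.sum_mul]
        rw [Finset.sum_comm]
        refine Finset.sum_eq_zero fun j _ => ?_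
        have h3 : ∑ k, d j * (F.ν j k : K) * (m k : K) = d j * ∑ k, (F.ν j k : K) * (m k : K) := by
          rw [Finset.mul_sum]
          refine Finset.sum_congr rfl fun k _ => ?_
          ring
        rw [h3, h1 j, mul_zero]
    have hyk : ∀ k, ∑ j, d j * (F.ν j k : K) = 0 := fun k => congrFun hy k
    have hli := hINK (K := K) _ (F.indep 0)
    rw [Fintype.linearIndependent_iff] at hli
    have h0 : ∀ j, d j * (F.c 0 : K) = d 0 * (F.c j : K) := by
      intro j
      have h1 := hli (fun j => d (Fin.succAbove 0 j) * (F.c 0 : K) -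
        d 0 * (F.c (Fin.succAbove 0 j) : K)) (by
        funext k
        simp only [Finset.sum_apply, Pi.smul_apply, smul_eq_mul, Pi.zero_apply]
        have h2 : ∑ j, (d j * (F.c 0 : K) - d 0 * (F.c j : K)) * (F.ν j k : K) = 0 := by
          have h3 : ∑ j, (d j * (F.c 0 : K) - d 0 * (F.c j : K)) * (F.ν j k : K) =
              (F.c 0 : K) * ∑ j, d j * (F.ν j k : K) - d 0 * ∑ j, (F.c j : K) * (F.ν j k : K) := by
            rw [Finset.mul_sum, Finset.mul_sum, ← Finset.sum_sub_distrib]
            refine Finset.sum_congr rfl fun j _ => ?_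
            ring
          rw [h3, hyk k, hrelK k, mul_zero, mul_zero, sub_zero]
        rw [Fin.sum_univ_succAbove _ 0] at h2
        rw [sub_self, zero_mul, zero_add] at h2
        exact h2)
      rcases Fin.eq_self_or_eq_succAbove 0 j with h | ⟨i, h⟩
      · rw [h]
      · rw [h]
        exact sub_eq_zero.mp (h1 i)
    intro i j
    have h1 : (d i * (F.c j : K) - d j * (F.c i : K)) * (F.c 0 : K) = 0 := by
      have e1 := h0 i
      have e2 := h0 j
      linear_combination (F.c j : K) * e1 - (F.c i : K) * e2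
    exact sub_eq_zero.mp ((mul_eq_zero.mp h1).resolve_right (hc0 0))
  -- the weights
  have hW : ∀ i, ∃ w : ℕ, (w : ℤ) = - ∑ j, (F.c j : ℤ) * minOn (f i) (F.ν j) ∧
      (∃ a : Fin (F.g + 1) → ℕ, w = ∑ l, a l * F.c l) ∧
      (∀ j, der x (f i) (F.ν j) ≠ 0 →
        ∃ a : Fin (F.g + 1) → ℕ, w = ∑ l, a l * F.c l ∧ 0 < a j) ∧
      (w = 0 → ∀ p ∈ (f i).coeff.support, ∀ p' ∈ (f i).coeff.support, ∀ j,
        pair (F.ν j) p = pair (F.ν j) p') := by
    intro i
    obtain ⟨w, h1, h2, h3, h4⟩ := hWGT (f i) F.ν F.c (hS.f_ne i) F.c_pos F.rel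
    refine ⟨w, h1, h2, fun j hj => h3 x j ?_, h4⟩
    rw [hS.zero i, mul_zero, sub_zero]
    exact hj
  choose w hw hwa hwb hwc using hW
  have hlt : ∑ i, w i < ∑ j, F.c j := by
    have h1 : ((∑ i, w i : ℕ) : ℤ) = - ∑ j, (F.c j : ℤ) * psi f (F.ν j) := by
      push_cast
      rw [Finset.sum_congr rfl fun i _ => hw i, Finset.sum_neg_distrib, Finset.sum_comm]
      congr 1
      refine Finset.sum_congr rfl fun j _ => ?_
      unfold psi
      rw [Finset.mul_sum]
    have h2 := F.circ
    have h3 : ∑ j, (F.c j : ℤ) * (psi f (F.ν j) + 1) =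
        ∑ j, (F.c j : ℤ) * psi f (F.ν j) + ((∑ j, F.c j : ℕ) : ℤ) := by
      push_cast
      rw [← Finset.sum_add_distrib]
      refine Finset.sum_congr rfl fun j _ => ?_
      ring
    rw [h3] at h2
    have h4 : ((∑ i, w i : ℕ) : ℤ) < ((∑ j, F.c j : ℕ) : ℤ) := by linarith
    exact_mod_cast h4
  obtain ⟨j0, hj0⟩ := Finite.exists_min F.c
  obtain ⟨ρ, hρ, hdet, hρw, hρ0⟩ := hCMB (fun i j => der x (f i) (F.ν j)) F.c w F.c_pos hwa
    (fun i j h => hwb i j h) hker hlt j0 hj0
  -- the field
  let E2 : IntermediateField ℂ K :=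
    IntermediateField.adjoin ℂ {z | ∃ m, (∀ j, pair (F.ν j) m = 0) ∧ z = mon x m}
  have hle : IntermediateField.adjoin ℂ
      {z | ∃ a ∈ F.A, ∃ a' ∈ F.A, z = mon x (F.b a - F.b a')} ≤ E2 := by
    refine IntermediateField.adjoin.mono _ _ _ ?_
    rintro z ⟨a, ha, a', ha', rfl⟩
    exact ⟨_, hMpair _ ⟨a, ha, a', ha', rfl⟩, rfl⟩
  have htr2 : Algebra.trdeg ℂ E2 = (e : Cardinal) := by
    refine le_antisymm ?_ ?_
    · rw [← hS.dim]
      exact trdeg_le_of_injective E2.val E2.val.injective
    · rw [← htr]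
      exact trdeg_le_of_injective (IntermediateField.inclusion hle)
        (IntermediateField.inclusion_injective hle)
  have hE2 : E2 = ⊤ := by
    refine hEMB f x F.ν F.c j0 ρ hS F.c_pos F.rel ?_ hdet htr2
    intro i
    rw [← hw (ρ i), hρw i]
  -- the lattice
  obtain ⟨n', m, hn', hm, hmo, hmg⟩ := hLAT (fun j : Fin F.g => F.ν (j0.succAbove j)) (F.indep j0)
  have hmg' : ∀ u, (∀ j, pair (F.ν j) u = 0) → ∃ a : Fin n' → ℤ, u = ∑ k, a k • m k :=
    fun u hu => hmg u fun j => hu _
  -- the complement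
  let s : Finset (Fin r) := Finset.univ.filter fun i => i ∉ Set.range ρ
  have hscard : s.card + F.g = r := by
    have h1 : s = (Finset.univ.image ρ)ᶜ := by
      ext i
      simp [s]
    rw [h1, Finset.card_compl, Finset.card_image_of_injective _ hρ]
    have h2 : (Finset.univ.image ρ).card ≤ Fintype.card (Fin r) := Finset.card_le_univ _
    rw [Finset.card_image_of_injective _ hρ] at h2
    simp only [Finset.card_univ, Fintype.card_fin] at h2 ⊢
    omega
  let ρ' : Fin s.card → Fin r := s.orderEmbOfFin rfl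
  have hρ' : Function.Injective ρ' := (s.orderEmbOfFin rfl).injective
  have hρ's : ∀ i, w (ρ' i) = 0 := by
    intro i
    refine hρ0 _ ?_
    have h1 : ρ' i ∈ s := Finset.orderEmbOfFin_mem s rfl i
    exact (Finset.mem_filter.mp h1).2
  have hsupp : ∀ i, ∃ p, p ∈ (f (ρ' i)).coeff.support := by
    intro i
    by_contra h
    push Not at h
    refine hS.f_ne (ρ' i) ?_
    have h1 : (f (ρ' i)).coeff = 0 := by
      refine Finsupp.support_eq_empty.mp (Finset.eq_empty_of_forall_notMem h)
    ext q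
    rw [h1]
    rfl
  choose p hp using hsupp
  have hn : n' = s.card + e := by
    have := hS.dim_eq
    omega
  obtain ⟨f', hf'⟩ := hNEW f x m ρ' p hS hm hn hρ' (by
    rw [eq_top_iff, ← hE2]
    refine IntermediateField.adjoin_le_iff.mpr ?_
    rintro z ⟨u, hu, rfl⟩
    obtain ⟨a, rfl⟩ := hmg' u hu
    rw [mon_sum x hS.ne]
    refine prod_mem fun k _ => zpow_mem ?_ _
    exact IntermediateField.subset_adjoin ℂ _ (Set.mem_range_self k)) (by
    intro i q hq
    obtain ⟨a, ha⟩ := hmg' (q - p i) fun j => by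
      rw [pair_sub, hwc (ρ' i) (hρ's i) q hq (p i) (hp i) j, sub_self]
    exact ⟨a, by rw [← ha]; abel⟩)
  refine ⟨n', s.card, f', fun k => mon x (m k), ?_, hf'⟩
  have := F.g_pos
  omega

end

end MMCI
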