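import Pool.Agent.MMCI.StR

/-!
# MMCI, module SEL: a matrix with independent columns has an invertible submatrix
-/

namespace MMCI

theorem t_SEL : S_SEL := by
  intro r g K _ M hM
  have hspan : Submodule.span K (Set.range M) = ⊤ := by
    by_contra hne
    obtain ⟨f, hf0, hf⟩ := Submodule.exists_le_ker_of_lt_top _ (lt_top_iff_ne_top.2 hne)
    apply hf0
    have h1 : (fun j => f (Pi.single j 1)) = 0 := by
      apply hM
      intro i
      have h2 : f (M i) = 0 := hf (Submodule.subset_span ⟨i, rfl⟩)
      rw [LinearMap.pi_apply_eq_sum_univ f (M i)] at h2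
      rw [← h2]
      refine Finset.sum_congr rfl fun j _ => ?_
      rw [smul_eq_mul]
      congr 2
      ext l
      simp [Pi.single_apply, eq_comm]
    refine LinearMap.pi_ext' fun j => ?_
    ext
    simpa using congrFun h1 j
  obtain ⟨κ, a, hinj, hsp, hli⟩ := exists_linearIndependent' K M
  rw [hspan] at hsp
  let b : Module.Basis κ K (Fin g → K) := Module.Basis.mk hli hsp.ge
  haveI : Finite κ := Module.Finite.finite_basis b
  haveI : Fintype κ := Fintype.ofFinite κ
  have hcard : Fintype.card κ = g := by
    have h1 := Module.finrank_eq_card_basis b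
    rw [Module.finrank_fin_fun] at h1
    exact h1.symm
  let e : Fin g ≃ κ := (Fintype.equivFinOfCardEq hcard).symm
  refine ⟨a ∘ e, hinj.comp e.injective, ?_⟩
  have h2 : LinearIndependent K (fun i : Fin g => M (a (e i))) := hli.comp e e.injective
  have h3 : LinearIndependent K (Matrix.of fun i j => M (a (e i)) j).row := h2
  rw [Matrix.linearIndependent_rows_iff_isUnit, Matrix.isUnit_iff_isUnit_det] at h3
  exact h3.ne_zero

end MMCI
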