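import Pool.Agent.MMCI.StR

/-!
# MMCI, module UNI: a weighted homogeneous system
-/

set_option autoImplicit false

namespace MMCI

open MldGeo

namespace R_UNI

open MvPolynomial

variable {g : ℕ} {L : Type} [Field L]

/-- The value at one of the derivative. -/
lemma eval_pderiv (F : MvPolynomial (Fin (g + 1)) L) (l : Fin (g + 1)) :
    eval (fun _ => 1) (pderiv l F) = ∑ d ∈ F.support, F.coeff d * (d l : L) := by
  conv_lhs => rw [← support_sum_monomial_coeff F, map_sum, map_sum]
  refine Finset.sum_congr rfl fun d _ => ?_
  rw [pderiv_monomial, eval_monomial]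
  have h : ((d - Finsupp.single l 1).prod fun (_ : Fin (g + 1)) e => (1 : L) ^ e) = 1 := by
    simp
  rw [h, mul_one]

/-- The value of a monomial of weight `s`. -/
lemma mono_val (c : Fin (g + 1) → ℕ) (hc : ∀ j, 0 < c j) (s : ℕ) (d : Fin (g + 1) →₀ ℕ)
    (hd : ∑ l, d l * c l = s) (t : Fin (g + 1) → L) (ht : ∀ l, c l < s → t l = 1) :
    (∏ l, t l ^ d l) - 1 = ∑ l, (d l : L) * (if c l = s then t l - 1 else 0) := by
  have hle : ∀ l, d l * c l ≤ s := fun l => by
    rw [← hd]
    exact Finset.single_le_sum (f := fun l => d l * c l) (fun i _ => Nat.zero_le _)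
      (Finset.mem_univ l)
  by_cases h : ∃ l, c l = s ∧ d l ≠ 0
  · obtain ⟨l, hl, hdl⟩ := h
    have h1 : d l = 1 := by
      have h2 := hle l
      rw [hl] at h2
      have h3 : 0 < s := hl ▸ hc l
      have h4 : d l ≤ 1 := by
        by_contra h5
        have h6 : 2 * s ≤ d l * s := Nat.mul_le_mul_right s (by omega)
        omega
      omega
    have h2 : ∀ k, k ≠ l → d k = 0 := by
      intro k hk
      have h3 : d k * c k + d l * c l ≤ s := by
        rw [← hd]
        have h4 := Finset.sum_le_sum_of_subset (f := fun l => d l * c l)
          (Finset.subset_univ ({k, l} : Finset (Fin (g + 1))))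
        rwa [Finset.sum_pair hk] at h4
      rw [h1, hl, one_mul] at h3
      have h4 : d k * c k = 0 := by omega
      rcases Nat.mul_eq_zero.1 h4 with h5 | h5
      · exact h5
      · exact absurd h5 (hc k).ne'
    have h3 : ∏ k, t k ^ d k = t l := by
      rw [Finset.prod_eq_single l]
      · rw [h1, pow_one]
      · intro k _ hk
        rw [h2 k hk, pow_zero]
      · intro h
        exact absurd (Finset.mem_univ l) h
    rw [h3, Finset.sum_eq_single l]
    · rw [h1, if_pos hl, Nat.cast_one, one_mul]
    · intro k _ hk
      rw [h2 k hk, Nat.cast_zero, zero_mul]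
    · intro h
      exact absurd (Finset.mem_univ l) h
  · have h' : ∀ l, c l = s → d l = 0 := by
      intro l hl
      by_contra h1
      exact h ⟨l, hl, h1⟩
    have h1 : ∏ l, t l ^ d l = 1 := by
      apply Finset.prod_eq_one
      intro l _
      by_cases h2 : d l = 0
      · rw [h2, pow_zero]
      · have h3 : c l ≤ s := le_trans (Nat.le_mul_of_pos_left _ (Nat.pos_of_ne_zero h2)) (hle l)
        have h4 : c l ≠ s := fun h5 => h2 (h' l h5)
        rw [ht l (lt_of_le_of_ne h3 h4), one_pow]
    rw [h1, sub_self]
    symm
    apply Finset.sum_eq_zero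
    intro l _
    by_cases h2 : c l = s
    · rw [h' l h2, Nat.cast_zero, zero_mul]
    · rw [if_neg h2, mul_zero]

end R_UNI

open MvPolynomial in
theorem t_UNI (hBLK : S_BLK) : S_UNI := by
  intro g L _ c j0 F hc hF hdet t ht0 ht
  have key : ∀ s : ℕ, ∀ l, c l = s → t l = 1 := by
    intro s
    induction s using Nat.strong_induction_on with
    | _ s ih =>
      have ih' : ∀ l, c l < s → t l = 1 := fun l hl => ih (c l) hl l rfl
      let M : Matrix (Fin g) (Fin g) L := Matrix.of fun i j : Fin g =>
        MvPolynomial.eval (fun _ => 1) (MvPolynomial.pderiv (j0.succAbove j) (F i))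
      let q : Fin g → ℕ := fun i => c (j0.succAbove i)
      let τ : Fin g → L := fun j => if c (j0.succAbove j) = s then t (j0.succAbove j) - 1 else 0
      have hτ : τ = 0 := by
        refine hBLK M q hdet ?_ s τ ?_ ?_
        · intro i j hij
          show MvPolynomial.eval (fun _ => 1) (MvPolynomial.pderiv (j0.succAbove j) (F i)) = 0
          rw [R_UNI.eval_pderiv]
          apply Finset.sum_eq_zero
          intro d hd
          have h1 := hF i d hd
          have h2 : d (j0.succAbove j) * c (j0.succAbove j) ≤ c (j0.succAbove i) := by
            rw [← h1]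
            exact Finset.single_le_sum (f := fun l => d l * c l) (fun i _ => Nat.zero_le _)
              (Finset.mem_univ _)
          have h3 : d (j0.succAbove j) = 0 := by
            by_contra h4
            have h5 : c (j0.succAbove j) ≤ d (j0.succAbove j) * c (j0.succAbove j) :=
              Nat.le_mul_of_pos_left _ (Nat.pos_of_ne_zero h4)
            have h6 : c (j0.succAbove i) < c (j0.succAbove j) := hij
            omega
          rw [h3, Nat.cast_zero, mul_zero]
        · intro j hj
          exact if_neg hj
        · intro i hi
          have hi' : c (j0.succAbove i) = s := hi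
          have h1 : MvPolynomial.eval t (F i) - MvPolynomial.eval (fun _ => 1) (F i) =
              ∑ l, (∑ d ∈ (F i).support, (F i).coeff d * (d l : L)) *
                (if c l = s then t l - 1 else 0) := by
            rw [MvPolynomial.eval_eq', MvPolynomial.eval_eq', ← Finset.sum_sub_distrib]
            have h2 : ∀ d ∈ (F i).support, (F i).coeff d * ∏ l, t l ^ d l -
                (F i).coeff d * ∏ l : Fin (g + 1), (1 : L) ^ d l =
                ∑ l, (F i).coeff d * (d l : L) * (if c l = s then t l - 1 else 0) := by
              intro d hd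
              have h3 := R_UNI.mono_val c hc s d (by rw [hF i d hd, hi']) t ih'
              have h4 : ∏ l : Fin (g + 1), (1 : L) ^ d l = 1 := by simp
              rw [h4, ← mul_sub, h3, Finset.mul_sum]
              refine Finset.sum_congr rfl fun l _ => ?_
              rw [mul_assoc]
            rw [Finset.sum_congr rfl h2, Finset.sum_comm]
            refine Finset.sum_congr rfl fun l _ => ?_
            rw [Finset.sum_mul]
          rw [ht i, sub_self, Fin.sum_univ_succAbove _ j0, ht0] at h1
          have h5 : (if c j0 = s then (1 : L) - 1 else 0) = 0 := by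
            rw [sub_self, ite_self]
          rw [h5, mul_zero, zero_add] at h1
          rw [h1]
          refine Finset.sum_congr rfl fun j _ => ?_
          show MvPolynomial.eval (fun _ => 1) (MvPolynomial.pderiv (j0.succAbove j) (F i)) * τ j = _
          rw [R_UNI.eval_pderiv]
      intro l hl
      by_cases hlj : l = j0
      · rw [hlj, ht0]
      · obtain ⟨j, rfl⟩ := Fin.exists_succAbove_eq hlj
        have h6 := congrFun hτ j
        have h7 : (if c (j0.succAbove j) = s then t (j0.succAbove j) - 1 else 0) = (0 : L) := h6
        rw [if_pos hl] at h7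
        exact sub_eq_zero.1 h7
  funext l
  exact key (c l) l rfl

end MMCI
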