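import Pool.Agent.MMCI.StR

/-!
# WGT: the weight of a Laurent polynomial on a circuit
-/

namespace MMCI

open MldGeo

namespace R_WGT

variable {n g : ℕ}

lemma minOn_le {f : Laurent n} (ν : Fin n → ℤ) {p : Fin n → ℤ} (hp : p ∈ f.coeff.support) :
    minOn f ν ≤ pair ν p := by
  unfold minOn
  apply csInf_le
  · exact (Set.Finite.image _ f.coeff.support.finite_toSet).bddBelow
  · exact ⟨p, hp, rfl⟩

lemma pair_sum (ν : Fin (g + 1) → (Fin n → ℤ)) (c : Fin (g + 1) → ℕ)
    (h : ∑ j, (c j : ℤ) • ν j = 0) (p : Fin n → ℤ) :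
    ∑ j, (c j : ℤ) * pair (ν j) p = 0 := by
  have h1 : ∀ k, ∑ j, (c j : ℤ) * ν j k = 0 := by
    intro k
    have := congrFun h k
    simpa using this
  unfold pair
  simp only [Finset.mul_sum]
  rw [Finset.sum_comm]
  apply Finset.sum_eq_zero
  intro k _
  have h2 := h1 k
  have : ∑ j, (c j : ℤ) * (ν j k * p k) = (∑ j, (c j : ℤ) * ν j k) * p k := by
    rw [Finset.sum_mul]
    refine Finset.sum_congr rfl fun j _ => ?_
    ring
  rw [this, h2, zero_mul]

/-- the exponents of the homogenization -/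
noncomputable def β (f : Laurent n) (ν : Fin (g + 1) → (Fin n → ℤ)) (p : Fin n → ℤ) (j : Fin (g + 1)) : ℕ :=
  (pair (ν j) p - minOn f (ν j)).toNat

lemma β_cast {f : Laurent n} (ν : Fin (g + 1) → (Fin n → ℤ)) {p : Fin n → ℤ}
    (hp : p ∈ f.coeff.support) (j : Fin (g + 1)) :
    ((β f ν p j : ℕ) : ℤ) = pair (ν j) p - minOn f (ν j) := by
  unfold β
  rw [Int.toNat_of_nonneg]
  have := minOn_le (f := f) (ν j) hp
  linarith

lemma weight {f : Laurent n} (ν : Fin (g + 1) → (Fin n → ℤ)) (c : Fin (g + 1) → ℕ)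
    (h : ∑ j, (c j : ℤ) • ν j = 0) {p : Fin n → ℤ} (hp : p ∈ f.coeff.support) :
    ((∑ l, β f ν p l * c l : ℕ) : ℤ) = - ∑ j, (c j : ℤ) * minOn f (ν j) := by
  push_cast
  have h1 := pair_sum ν c h p
  have h2 : ∑ l, (β f ν p l : ℤ) * (c l : ℤ) =
      ∑ j, (c j : ℤ) * pair (ν j) p - ∑ j, (c j : ℤ) * minOn f (ν j) := by
    rw [← Finset.sum_sub_distrib]
    refine Finset.sum_congr rfl fun j _ => ?_
    rw [β_cast ν hp j]
    ring
  rw [h2, h1, zero_sub]

lemma der_eq {K : Type} [Field K] [Algebra ℂ K] (x : Fin n → K) (f : Laurent n)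
    (ν : Fin n → ℤ) :
    der x f ν = ∑ p ∈ f.coeff.support, algebraMap ℂ K (f.coeff p) * (pair ν p : K) * mon x p := by
  unfold der grad Finsupp.sum pair
  simp only [Finset.mul_sum]
  rw [Finset.sum_comm]
  refine Finset.sum_congr rfl fun p _ => ?_
  push_cast
  rw [Finset.mul_sum, Finset.sum_mul]
  refine Finset.sum_congr rfl fun k _ => ?_
  ring

end R_WGT

open R_WGT in
theorem t_WGT : S_WGT := by
  intro n g f ν c hf hc h
  have hne : f.coeff.support.Nonempty := by
    rw [Finset.nonempty_iff_ne_empty]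
    intro h0
    apply hf
    have : f.coeff = 0 := Finsupp.support_eq_empty.mp h0
    exact AddMonoidAlgebra.coeff_inj.mp (by simpa using this)
  obtain ⟨p0, hp0⟩ := hne
  have key : ∀ p ∈ f.coeff.support, ∑ l, β f ν p l * c l = ∑ l, β f ν p0 l * c l := by
    intro p hp
    have h1 := weight ν c h hp
    have h2 := weight ν c h hp0
    exact_mod_cast h1.trans h2.symm
  refine ⟨∑ l, β f ν p0 l * c l, weight ν c h hp0, ⟨_, rfl⟩, ?_, ?_⟩
  · intro K _ _ x j hj
    by_contra hcon
    push Not at hcon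
    apply hj
    have h0 : ∀ p ∈ f.coeff.support, pair (ν j) p = minOn f (ν j) := by
      intro p hp
      have h1 := hcon (β f ν p) (key p hp).symm
      have h2 := β_cast ν hp j
      have h3 : β f ν p j = 0 := by omega
      rw [h3] at h2
      push_cast at h2
      linarith
    rw [der_eq]
    unfold ev Finsupp.sum
    rw [Finset.mul_sum, ← Finset.sum_sub_distrib]
    apply Finset.sum_eq_zero
    intro p hp
    rw [h0 p hp]
    ring
  · intro hw p hp p' hp' j
    have hz : ∀ q ∈ f.coeff.support, pair (ν j) q = minOn f (ν j) := by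
      intro q hq
      have h1 := key q hq
      rw [hw] at h1
      have h2 := (Finset.sum_eq_zero_iff.mp h1) j (Finset.mem_univ j)
      have h3 : β f ν q j = 0 := by
        rcases Nat.mul_eq_zero.mp h2 with h4 | h4
        · exact h4
        · exact absurd h4 (hc j).ne'
      have h4 := β_cast ν hq j
      rw [h3] at h4
      push_cast at h4
      linarith
    rw [hz p hp, hz p' hp']

end MMCI
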