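import Pool.Agent.MMCI.R_BLK
import Pool.Agent.MMCI.R_CHV
import Pool.Agent.MMCI.R_CMB
import Pool.Agent.MMCI.R_EMB
import Pool.Agent.MMCI.R_FTH
import Pool.Agent.MMCI.R_GRO
import Pool.Agent.MMCI.R_HOM
import Pool.Agent.MMCI.R_INK
import Pool.Agent.MMCI.R_KER
import Pool.Agent.MMCI.R_LAT
import Pool.Agent.MMCI.R_ND1
import Pool.Agent.MMCI.R_ND2
import Pool.Agent.MMCI.R_NEW
import Pool.Agent.MMCI.R_RED
import Pool.Agent.MMCI.R_SEL
import Pool.Agent.MMCI.R_TEX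
import Pool.Agent.MMCI.R_UNI
import Pool.Agent.MMCI.R_WGT

/-!
# The block RED is complete
-/

namespace MMCI

theorem S_RED_holds : S_RED :=
  t_RED t_KER t_INK (t_CMB t_SEL) t_WGT (t_EMB (t_UNI t_BLK) t_TEX t_FTH t_RHOM) t_LAT
    (t_NEW t_CHV t_GRO t_ND1 (t_ND2 t_SEL))

end MMCI
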