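import Pool.Agent.MMCI.FinalB
import Pool.Agent.MMCI.FF
import Pool.Agent.MMCI.RR

/-!
# The theorem for nondegenerate complete intersections
-/

namespace MMCI

open MldGeo

/-- Stage 1. -/
theorem main_nci {e n r : ℕ} {K : Type} [Field K] [Algebra ℂ K]
    (f : Fin r → Laurent n) (x : Fin n → K) (h : IsNCI e f x) :
    ∃ Y : ProjModel K, Y.Terminal e ∧
      ((Y.Semiample e ∧ Y.Nef e) ∨ (Y.MoriFibre e ∧ FineInterior f = ∅)) :=
  main_of_fan_red S_FAN_holds S_FAA_holds S_RED_holds f x h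

end MMCI
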