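import Pool.Agent.MMCI.StT
import Pool.Agent.MMCI.Tools
import Pool.Agent.MldGeo.Ord

/-!
# Block T: tools for the ring of regular functions `coordRing x`
-/

namespace MMCI

open MldGeo MldGeo.DivVal

noncomputable section

namespace Tor

variable {e n r : ℕ} {K : Type} [Field K] [Algebra ℂ K]

section Ev

variable {F : Type*} [Field F]

theorem mon_zero (x : Fin n → F) : mon x 0 = 1 := by simp [mon]

theorem mon_add {x : Fin n → F} (hx : ∀ j, x j ≠ 0) (m m' : Fin n → ℤ) :
    mon x (m + m') = mon x m * mon x m' := by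
  unfold mon
  rw [← Finset.prod_mul_distrib]
  exact Finset.prod_congr rfl fun i _ => by rw [Pi.add_apply, zpow_add₀ (hx i)]

theorem mon_ne {x : Fin n → F} (hx : ∀ j, x j ≠ 0) (m : Fin n → ℤ) : mon x m ≠ 0 :=
  Finset.prod_ne_zero_iff.2 fun i _ => zpow_ne_zero _ (hx i)

theorem mon_single (x : Fin n → F) (j : Fin n) (k : ℤ) : mon x (Pi.single j k) = x j ^ k := by
  unfold mon
  rw [Finset.prod_eq_single j]
  · rw [Pi.single_eq_same]
  · intro i _ hi
    rw [Pi.single_eq_of_ne hi, zpow_zero]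
  · intro h
    exact absurd (Finset.mem_univ j) h

variable [Algebra ℂ F]

/-- The value at `x`, as a homomorphism of algebras. -/
def evHom {x : Fin n → F} (hx : ∀ j, x j ≠ 0) : Laurent n →ₐ[ℂ] F :=
  AddMonoidAlgebra.lift ℂ F (Fin n → ℤ)
    { toFun := fun m => mon x m.toAdd
      map_one' := mon_zero x
      map_mul' := fun m m' => mon_add hx m.toAdd m'.toAdd }

theorem evHom_apply {x : Fin n → F} (hx : ∀ j, x j ≠ 0) (f : Laurent n) :
    evHom hx f = ev x f := rfl

theorem ev_add {x : Fin n → F} (hx : ∀ j, x j ≠ 0) (f g : Laurent n) :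
    ev x (f + g) = ev x f + ev x g := map_add (evHom hx) f g

theorem ev_mul {x : Fin n → F} (hx : ∀ j, x j ≠ 0) (f g : Laurent n) :
    ev x (f * g) = ev x f * ev x g := map_mul (evHom hx) f g

theorem ev_zero (x : Fin n → F) : ev x (0 : Laurent n) = 0 := by
  unfold ev
  exact Finsupp.sum_zero_index

theorem ev_one {x : Fin n → F} (hx : ∀ j, x j ≠ 0) : ev x (1 : Laurent n) = 1 :=
  map_one (evHom hx)

theorem ev_single (x : Fin n → F) (m : Fin n → ℤ) (c : ℂ) :
    ev x (AddMonoidAlgebra.single m c : Laurent n) = algebraMap ℂ F c * mon x m := by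
  unfold ev
  exact Finsupp.sum_single_index (by simp)

theorem grad_add (x : Fin n → F) (f g : Laurent n) (j : Fin n) :
    grad x (f + g) j = grad x f j + grad x g j := by
  unfold grad
  exact Finsupp.sum_add_index' (by simp) fun m a b => by rw [map_add]; ring

theorem grad_zero (x : Fin n → F) (j : Fin n) : grad x (0 : Laurent n) j = 0 := by
  unfold grad
  exact Finsupp.sum_zero_index

theorem grad_single (x : Fin n → F) (m : Fin n → ℤ) (c : ℂ) (j : Fin n) :
    grad x (AddMonoidAlgebra.single m c : Laurent n) j =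
      algebraMap ℂ F c * (m j : F) * mon x m := by
  unfold grad
  exact Finsupp.sum_single_index (by simp)

theorem grad_mul {x : Fin n → F} (hx : ∀ j, x j ≠ 0) (f g : Laurent n) (j : Fin n) :
    grad x (f * g) j = ev x f * grad x g j + ev x g * grad x f j := by
  induction f using AddMonoidAlgebra.induction_linear with
  | zero => rw [zero_mul, ev_zero, grad_zero, zero_mul, mul_zero, add_zero]
  | add f f' h h' =>
    rw [add_mul, grad_add, h, h', ev_add hx, grad_add]
    ring
  | single m c =>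
    induction g using AddMonoidAlgebra.induction_linear with
    | zero => rw [mul_zero, ev_zero, grad_zero, zero_mul, mul_zero, add_zero]
    | add g g' h h' =>
      rw [mul_add, grad_add, h, h', ev_add hx, grad_add]
      ring
    | single m' c' =>
      rw [AddMonoidAlgebra.single_mul_single, grad_single, ev_single, ev_single, grad_single,
        grad_single, mon_add hx, map_mul, Pi.add_apply]
      push_cast
      ring

end Ev

/-! ### the ring `coordRing x` -/

theorem mon_mem (x : Fin n → K) (m : Fin n → ℤ) : mon x m ∈ coordRing x :=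
  Algebra.subset_adjoin ⟨m, rfl⟩

theorem var_mem (x : Fin n → K) (j : Fin n) : x j ∈ coordRing x := by
  have h := mon_mem x (Pi.single j 1)
  rwa [mon_single, zpow_one] at h

theorem inv_mem (x : Fin n → K) (j : Fin n) : (x j)⁻¹ ∈ coordRing x := by
  have h := mon_mem x (Pi.single j (-1))
  rwa [mon_single, zpow_neg_one] at h

theorem ev_mem (x : Fin n → K) (f : Laurent n) : ev x f ∈ coordRing x :=
  Subalgebra.sum_mem _ fun m _ => (coordRing x).mul_mem ((coordRing x).algebraMap_mem _)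
    (mon_mem x m)

theorem range_eq {x : Fin n → K} (hx : ∀ j, x j ≠ 0) : (evHom hx).range = coordRing x := by
  refine le_antisymm ?_ (Algebra.adjoin_le ?_)
  · rintro _ ⟨f, rfl⟩
    exact ev_mem x f
  · rintro _ ⟨m, rfl⟩
    refine ⟨AddMonoidAlgebra.single m 1, ?_⟩
    change ev x (AddMonoidAlgebra.single m (1 : ℂ) : Laurent n) = mon x m
    rw [ev_single, map_one, one_mul]

/-- Regular functions are the values of Laurent polynomials. -/
theorem exists_ev {x : Fin n → K} (hx : ∀ j, x j ≠ 0) {a : K} (ha : a ∈ coordRing x) :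
    ∃ f : Laurent n, ev x f = a := by
  rw [← range_eq hx] at ha
  obtain ⟨f, hf⟩ := ha
  exact ⟨f, hf⟩

/-- The ring is generated by the coordinates and their inverses. -/
theorem eq_adjoin (x : Fin n → K) :
    coordRing x = Algebra.adjoin ℂ (Set.range x ∪ Set.range fun j => (x j)⁻¹) := by
  refine le_antisymm (Algebra.adjoin_le ?_) (Algebra.adjoin_le ?_)
  · rintro _ ⟨m, rfl⟩
    refine Subalgebra.prod_mem _ fun j _ => ?_
    have h1 : x j ∈ Algebra.adjoin ℂ (Set.range x ∪ Set.range fun j => (x j)⁻¹) :=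
      Algebra.subset_adjoin (Or.inl ⟨j, rfl⟩)
    have h2 : (x j)⁻¹ ∈ Algebra.adjoin ℂ (Set.range x ∪ Set.range fun j => (x j)⁻¹) :=
      Algebra.subset_adjoin (Or.inr ⟨j, rfl⟩)
    rcases m j with k | k
    · rw [Int.ofNat_eq_natCast, zpow_natCast]
      exact Subalgebra.pow_mem _ h1 k
    · rw [zpow_negSucc, ← inv_pow]
      exact Subalgebra.pow_mem _ h2 _
  · rintro a (⟨j, rfl⟩ | ⟨j, rfl⟩)
    · exact var_mem x j
    · exact inv_mem x j

theorem fg (x : Fin n → K) : (coordRing x).FG := by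
  rw [eq_adjoin]
  exact Subalgebra.fg_def.2 ⟨_, (Set.finite_range _).union (Set.finite_range _), rfl⟩

/-- `K` is the field of fractions. -/
theorem frac {x : Fin n → K} (hx : IntermediateField.adjoin ℂ (Set.range x) = ⊤) (a : K) :
    ∃ p ∈ coordRing x, ∃ q ∈ coordRing x, q ≠ 0 ∧ a * q = p := by
  have ha : a ∈ IntermediateField.adjoin ℂ (Set.range x) := by rw [hx]; trivial
  have hle : Algebra.adjoin ℂ (Set.range x) ≤ coordRing x := by
    refine Algebra.adjoin_le ?_
    rintro _ ⟨j, rfl⟩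
    exact var_mem x j
  rw [IntermediateField.mem_adjoin_iff_div] at ha
  obtain ⟨p, hp, q, hq, h⟩ := ha
  by_cases hq0 : q = 0
  · refine ⟨0, (coordRing x).zero_mem, 1, (coordRing x).one_mem, one_ne_zero, ?_⟩
    rw [h, hq0, div_zero, zero_mul]
  · refine ⟨p, hle hp, q, hle hq, hq0, ?_⟩
    rw [h, div_mul_cancel₀ _ hq0]

/-- A homomorphism to a field takes the value at `x` to the value at the image `p` of `x`. -/
theorem map_ev {x : Fin n → K} (hx : ∀ j, x j ≠ 0) {F : Type*} [Field F] [Algebra ℂ F]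
    (ρ : coordRing x →ₐ[ℂ] F) {p : Fin n → F}
    (hp : ∀ j (h : x j ∈ coordRing x), ρ ⟨x j, h⟩ = p j) :
    (∀ j, p j ≠ 0) ∧ ∀ f : Laurent n, ρ ⟨ev x f, ev_mem x f⟩ = ev p f := by
  have hp0 : ∀ j, p j ≠ 0 := by
    intro j h0
    have h1 : (⟨x j, var_mem x j⟩ * ⟨(x j)⁻¹, inv_mem x j⟩ : coordRing x) = 1 :=
      Subtype.ext (mul_inv_cancel₀ (hx j))
    have h2 := congrArg ρ h1
    rw [map_mul, hp, h0, zero_mul, map_one] at h2
    exact zero_ne_one h2
  refine ⟨hp0, fun f => ?_⟩
  have hinv : ∀ j, ρ ⟨(x j)⁻¹, inv_mem x j⟩ = (p j)⁻¹ := by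
    intro j
    have h1 : (⟨x j, var_mem x j⟩ * ⟨(x j)⁻¹, inv_mem x j⟩ : coordRing x) = 1 :=
      Subtype.ext (mul_inv_cancel₀ (hx j))
    have h2 := congrArg ρ h1
    rw [map_mul, hp, map_one] at h2
    exact eq_inv_of_mul_eq_one_right h2
  have hz : ∀ j (k : ℤ) (h : x j ^ k ∈ coordRing x), ρ ⟨x j ^ k, h⟩ = p j ^ k := by
    intro j k h
    rcases k with k | k
    · have h3 : (⟨x j ^ (Int.ofNat k), h⟩ : coordRing x) = ⟨x j, var_mem x j⟩ ^ k :=
        Subtype.ext (by simp)
      rw [h3, map_pow, hp]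
      simp
    · have h3 : (⟨x j ^ (Int.negSucc k), h⟩ : coordRing x) = ⟨(x j)⁻¹, inv_mem x j⟩ ^ (k + 1) :=
        Subtype.ext (by simp [zpow_negSucc])
      rw [h3, map_pow, hinv]
      simp [zpow_negSucc]
  have hzm : ∀ j (k : ℤ), x j ^ k ∈ coordRing x := by
    intro j k
    rw [← mon_single]
    exact mon_mem x _
  have hm : ∀ m, ρ ⟨mon x m, mon_mem x m⟩ = mon p m := by
    intro m
    have h3 : (⟨mon x m, mon_mem x m⟩ : coordRing x) = ∏ j, ⟨x j ^ m j, hzm j _⟩ := by
      apply Subtype.ext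
      rw [SubmonoidClass.coe_finsetProd]
      rfl
    rw [h3, map_prod]
    exact Finset.prod_congr rfl fun j _ => hz j _ _
  have h4 : (⟨ev x f, ev_mem x f⟩ : coordRing x) =
      ∑ m ∈ f.coeff.support, algebraMap ℂ (coordRing x) (f.coeff m) * ⟨mon x m, mon_mem x m⟩ := by
    apply Subtype.ext
    rw [AddSubmonoidClass.coe_finsetSum]
    rfl
  rw [h4, map_sum]
  refine Finset.sum_congr rfl fun m _ => ?_
  rw [map_mul, AlgHom.commutes, hm]

/-- Closed points: every ideal `≠ ⊤` vanishes at a closed point of `Z`. -/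
theorem exists_point {x : Fin n → K} (hx : ∀ j, x j ≠ 0) (I : Ideal (coordRing x)) (hI : I ≠ ⊤) :
    ∃ (φ : coordRing x →ₐ[ℂ] ℂ) (p : Fin n → ℂ), (∀ a ∈ I, φ a = 0) ∧ (∀ j, p j ≠ 0) ∧
      (∀ j (h : x j ∈ coordRing x), φ ⟨x j, h⟩ = p j) ∧
      ∀ f : Laurent n, φ ⟨ev x f, ev_mem x f⟩ = ev p f := by
  obtain ⟨M, hM, hIM⟩ := Ideal.exists_le_maximal I hI
  have hft : Algebra.FiniteType ℂ (coordRing x) := (coordRing x).fg_iff_finiteType.1 (fg x)
  let _ : Field (coordRing x ⧸ M) := Ideal.Quotient.field M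
  have hfin : Module.Finite ℂ (coordRing x ⧸ M) :=
    finite_of_finite_type_of_isJacobsonRing ℂ (coordRing x ⧸ M)
  have hbij := IsAlgClosed.algebraMap_bijective_of_isIntegral (k := ℂ) (K := coordRing x ⧸ M)
  let ψ : ℂ ≃ₐ[ℂ] (coordRing x ⧸ M) := AlgEquiv.ofBijective (Algebra.ofId ℂ _) hbij
  let φ : coordRing x →ₐ[ℂ] ℂ := (ψ.symm : _ →ₐ[ℂ] ℂ).comp (Ideal.Quotient.mkₐ ℂ M)
  have h := map_ev hx φ (p := fun j => φ ⟨x j, var_mem x j⟩) fun _ _ => rfl
  refine ⟨φ, _, fun a ha => ?_, h.1, fun _ _ => rfl, h.2⟩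
  change ψ.symm (Ideal.Quotient.mk M a) = 0
  rw [Ideal.Quotient.eq_zero_iff_mem.2 (hIM ha), map_zero]

/-- The closed points of `Z` satisfy the hypothesis in `IsTCI.ideal`. -/
theorem point_mem {x : Fin n → K} {φ : coordRing x →ₐ[ℂ] ℂ} {p : Fin n → ℂ}
    (h : ∀ f : Laurent n, φ ⟨ev x f, ev_mem x f⟩ = ev p f) (f : Laurent n) (hf : ev x f = 0) :
    ev p f = 0 := by
  rw [← h]
  have h1 : (⟨ev x f, ev_mem x f⟩ : coordRing x) = 0 := Subtype.ext hf
  rw [h1, map_zero]

/-- The relation of `IsTCI.ideal` along a homomorphism `ρ` to a field. -/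
theorem exists_rel {f : Fin r → Laurent n} {x : Fin n → K} (hf : IsTCI e f x)
    {I : Ideal (coordRing x)} (hI : I ≠ ⊤) (g : Laurent n) (hg : ev x g = 0) :
    ∃ h : Laurent n, (⟨ev x h, ev_mem x h⟩ : coordRing x) ∉ I ∧
      h * g ∈ Ideal.span (Set.range f) := by
  obtain ⟨φ, p, hφ, hp0, -, hp⟩ := exists_point hf.ne I hI
  obtain ⟨h, h1, h2⟩ := hf.ideal p hp0 (fun g hg => point_mem hp g hg) g hg
  exact ⟨h, fun h3 => h1 (by rw [← hp, hφ _ h3]), h2⟩

/-- The germ of `Z` at a maximal ideal. -/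
def germ {f : Fin r → Laurent n} {x : Fin n → K} (hf : IsTCI e f x) (m : Ideal (coordRing x))
    (hm : m.IsMaximal) : Germ e where
  K := K
  fieldK := inferInstance
  algK := inferInstance
  R := coordRing x
  fg := fg x
  frac := fun a => frac hf.gen a
  normal := hf.terminal.1
  trdeg := hf.dim
  m := m
  max := hm

theorem germ_ordAlong {f : Fin r → Laurent n} {x : Fin n → K} (hf : IsTCI e f x)
    (m : Ideal (coordRing x)) (hm : m.IsMaximal) (v : DivVal e K) (P : Ideal (coordRing x)) :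
    (germ hf m hm).IsOrdAlong v P ↔ IsPrimeDivisor (coordRing x) v P := Iff.rfl

end Tor

end

end MMCI
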