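import Pool.Agent.MMCI.StT
import Pool.Agent.MMCI.TorLib
import Pool.Agent.MMCI.K_RES

/-!
# BHT: `Big` and the prime divisors of `Z`
-/

namespace MMCI

open MldGeo MldGeo.DivVal MvPolynomial

noncomputable section

namespace BHT

open Tor

variable {e n r : ℕ} {K : Type} [Field K] [Algebra ℂ K] {f : Fin r → Laurent n} {x : Fin n → K}

/-- The weight of a valuation with a centre is zero. -/
theorem ord_mon {v : DivVal e K} (h0 : ∀ a : coordRing x, 0 ≤ v.ord a) (hx : ∀ j, x j ≠ 0)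
    (m : Fin n → ℤ) : v.ord (mon x m) = 0 := by
  have h1 := h0 ⟨mon x m, mon_mem x m⟩
  have h2 := h0 ⟨mon x (-m), mon_mem x (-m)⟩
  have h3 : mon x m * mon x (-m) = 1 := by
    rw [← Tor.mon_add hx, add_neg_cancel, Tor.mon_zero]
  have h4 := v.ord_mul _ _ (Tor.mon_ne hx m) (Tor.mon_ne hx (-m))
  rw [h3, ord_one] at h4
  change 0 ≤ v.ord (mon x m) at h1
  change 0 ≤ v.ord (mon x (-m)) at h2
  omega

/-- The centre is the set of the elements of positive order. -/
theorem big_to (hf : IsTCI e f x) {v : DivVal e K} {P : Ideal (coordRing x)}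
    (hc : HasCentre (coordRing x) v P) (h : Big x v) : P.height = 1 := by
  obtain ⟨m, -, hm⟩ := h
  obtain ⟨M, hM, hPM⟩ := Ideal.exists_le_maximal P hc.1.ne_top
  have hval : ∀ p : MvPolynomial (Fin (e - 1)) ℂ,
      ((aeval (fun l => (⟨mon x (m l), mon_mem x (m l)⟩ : coordRing x)) p : coordRing x) : K) =
      aeval (fun l => mon x (m l)) p := by
    intro p
    exact comp_aeval_apply (fun l => (⟨mon x (m l), mon_mem x (m l)⟩ : coordRing x))
      (coordRing x).val p
  obtain ⟨P', hP'⟩ := cHT1 (germ hf M hM) v hf.pos hc.2.1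
    ⟨fun l => ⟨mon x (m l), mon_mem x (m l)⟩, fun p hp => by
      have h1 := hm p hp
      rw [← hval p] at h1
      exact ⟨fun h2 => h1.1 (congrArg (Subtype.val : coordRing x → K) h2), h1.2⟩⟩
  have h3 : P' = P := by
    ext a
    rw [hP'.2.2.2 a]
    exact (hc.2.2 a).symm
  rw [← h3]
  exact hP'.2.1

theorem to_big (hf : IsTCI e f x) {v : DivVal e K} {P : Ideal (coordRing x)}
    (hc : HasCentre (coordRing x) v P) (h : P.height = 1) : Big x v := by
  obtain ⟨M, hM, hPM⟩ := Ideal.exists_le_maximal P hc.1.ne_top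
  have hO : ∀ a : K, v.Ge 0 a → ∃ r s : coordRing x, s ∉ P ∧ a * (s : K) = r :=
    cOLC (germ hf M hM) P v ⟨hc.1, h, hc.2.1, hc.2.2⟩
  obtain ⟨u, hu⟩ := v.res
  have hu0 := RES.ge_of_resIndep v hu
  have ht : ∀ m, v.Ge 0 (mon x m) := fun m => Ge.of_le (ord_mon hc.2.1 hf.ne m).ge
  let _ := RES.alg v
  have key : ∀ (a : K) (ha : v.Ge 0 a), a ∈ coordRing x → RES.resi v ⟨a, ha⟩ ∈
      Algebra.adjoin ℂ (Set.range fun m => RES.resi v ⟨mon x m, ht m⟩) := by
    intro a ha hax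
    obtain ⟨g, rfl⟩ := exists_ev hf.ne hax
    have h1 : (⟨ev x g, ha⟩ : v.OV) = ∑ m ∈ g.coeff.support,
        algebraMap ℂ v.OV (g.coeff m) * ⟨mon x m, ht m⟩ := by
      apply Subtype.ext
      rw [AddSubmonoidClass.coe_finsetSum]
      rfl
    rw [h1, map_sum]
    refine Subalgebra.sum_mem _ fun m _ => ?_
    rw [map_mul, AlgHom.commutes]
    exact Subalgebra.mul_mem _ (Subalgebra.algebraMap_mem _ _)
      (Algebra.subset_adjoin ⟨m, rfl⟩)
  obtain ⟨c, hc'⟩ := RES.choose v (fun m : Fin n → ℤ => mon x m) ht u hu0 hu (by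
    intro i
    obtain ⟨p, q, hq, hpq⟩ := hO (u i) (hu0 i)
    have hp0 : v.Ge 0 (p : K) := Ge.of_le (hc.2.1 p)
    have hq0 : v.Ge 0 (q : K) := Ge.of_le (hc.2.1 q)
    have hq1 : (q : K) ≠ 0 ∧ v.ord (q : K) = 0 := by
      have h2 := mt (hc.2.2 q).2 hq
      push Not at h2
      have h3 := hc.2.1 q
      refine ⟨fun h4 => h2.1 (Subtype.ext h4), ?_⟩
      have h5 := h2.2
      omega
    refine ⟨Polynomial.C ⟨RES.resi v ⟨q, hq0⟩, key q hq0 q.2⟩ * Polynomial.X -
      Polynomial.C ⟨RES.resi v ⟨p, hp0⟩, key p hp0 p.2⟩, ?_, ?_⟩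
    · intro h2
      have h3 := congrArg (fun s => s.coeff 1) h2
      simp only [Polynomial.coeff_sub, Polynomial.coeff_C_mul, Polynomial.coeff_X_one, mul_one,
        Polynomial.coeff_C_succ, sub_zero, Polynomial.coeff_zero] at h3
      exact (RES.resi_ne v ⟨q, hq0⟩).2 hq1 (congrArg Subtype.val h3)
    · rw [map_sub, map_mul, Polynomial.aeval_C, Polynomial.aeval_C, Polynomial.aeval_X]
      change RES.resi v ⟨q, hq0⟩ * RES.resi v ⟨u i, hu0 i⟩ - RES.resi v ⟨p, hp0⟩ = 0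
      rw [← map_mul, sub_eq_zero]
      congr 1
      apply Subtype.ext
      change (q : K) * u i = p
      rw [mul_comm]
      exact hpq)
  refine ⟨c, fun l => ?_, hc'⟩
  have h6 : wt x v = 0 := by
    funext j
    have h7 := ord_mon hc.2.1 hf.ne (Pi.single j 1)
    rw [mon_single, zpow_one] at h7
    exact h7
  rw [h6]
  simp [pair]

end BHT

theorem t_BHT : M_BHT := by
  intro _ e n r K _ _ f x hf v P hc
  exact ⟨BHT.to_big hf hc, BHT.big_to hf hc⟩

end

end MMCI
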