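import Pool.Agent.MMCI.StT

/-!
# DRT: derivations of the coordinate ring along a homomorphism to a field
-/

set_option autoImplicit false

namespace MMCI

open MldGeo

noncomputable section

namespace DRT

section point

variable {n : ℕ} {F : Type} [Field F] [Algebra ℂ F]

omit [Algebra ℂ F] in
theorem mon_add {x : Fin n → F} (hx : ∀ j, x j ≠ 0) (m m' : Fin n → ℤ) :
    mon x (m + m') = mon x m * mon x m' := by
  unfold mon
  rw [← Finset.prod_mul_distrib]
  exact Finset.prod_congr rfl fun i _ => by rw [Pi.add_apply, zpow_add₀ (hx i)]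

omit [Algebra ℂ F] in
theorem mon_zero (x : Fin n → F) : mon x 0 = 1 := by
  unfold mon
  simp

omit [Algebra ℂ F] in
theorem mon_single (x : Fin n → F) (j : Fin n) (k : ℤ) : mon x (Pi.single j k) = x j ^ k := by
  unfold mon
  rw [Finset.prod_eq_single j]
  · rw [Pi.single_eq_same]
  · intro i _ hij
    rw [Pi.single_eq_of_ne hij, zpow_zero]
  · intro h
    exact absurd (Finset.mem_univ j) h

/-- evaluation as a linear map -/
def evL (x : Fin n → F) : Laurent n →ₗ[ℂ] F where
  toFun := ev x
  map_add' a b := by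
    unfold ev
    rw [AddMonoidAlgebra.coeff_add, Finsupp.sum_add_index']
    · intro m; rw [map_zero, zero_mul]
    · intro m c d; rw [map_add, add_mul]
  map_smul' c a := by
    unfold ev
    rw [AddMonoidAlgebra.coeff_smul, Finsupp.sum_smul_index (fun m => by rw [map_zero, zero_mul]),
      RingHom.id_apply, Algebra.smul_def, Finsupp.sum, Finsupp.sum, Finset.mul_sum]
    refine Finset.sum_congr rfl fun m _ => ?_
    rw [map_mul, mul_assoc]

@[simp] theorem evL_apply (x : Fin n → F) (f : Laurent n) : evL x f = ev x f := rfl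

/-- the derivation in the direction `δ` at the point `p` -/
def dL (p δ : Fin n → F) : Laurent n →ₗ[ℂ] F where
  toFun f := ∑ j, δ j * grad p f j
  map_add' a b := by
    rw [← Finset.sum_add_distrib]
    refine Finset.sum_congr rfl fun j _ => ?_
    unfold grad
    rw [AddMonoidAlgebra.coeff_add, Finsupp.sum_add_index', mul_add]
    · intro m; rw [map_zero, zero_mul, zero_mul]
    · intro m c d; rw [map_add, add_mul, add_mul]
  map_smul' c a := by
    rw [RingHom.id_apply, Finset.smul_sum]
    refine Finset.sum_congr rfl fun j _ => ?_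
    rw [Algebra.smul_def c (δ j * grad p a j)]
    unfold grad
    rw [AddMonoidAlgebra.coeff_smul,
      Finsupp.sum_smul_index (fun m => by rw [map_zero, zero_mul, zero_mul]),
      Finsupp.sum, Finsupp.sum, Finset.mul_sum, Finset.mul_sum, Finset.mul_sum]
    refine Finset.sum_congr rfl fun m _ => ?_
    rw [map_mul]
    ring

theorem dL_apply (p δ : Fin n → F) (f : Laurent n) : dL p δ f = ∑ j, δ j * grad p f j := rfl

theorem ev_single (x : Fin n → F) (m : Fin n → ℤ) (c : ℂ) :
    ev x (AddMonoidAlgebra.single m c) = algebraMap ℂ F c * mon x m := by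
  unfold ev
  rw [AddMonoidAlgebra.coeff_single, Finsupp.sum_single_index]
  rw [map_zero, zero_mul]

theorem grad_single (x : Fin n → F) (m : Fin n → ℤ) (c : ℂ) (j : Fin n) :
    grad x (AddMonoidAlgebra.single m c) j = algebraMap ℂ F c * (m j : F) * mon x m := by
  unfold grad
  rw [AddMonoidAlgebra.coeff_single, Finsupp.sum_single_index]
  rw [map_zero, zero_mul, zero_mul]

theorem dL_single (p δ : Fin n → F) (m : Fin n → ℤ) (c : ℂ) :
    dL p δ (AddMonoidAlgebra.single m c) = algebraMap ℂ F c * (∑ j, δ j * (m j : F)) * mon p m := by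
  rw [dL_apply, Finset.mul_sum, Finset.sum_mul]
  refine Finset.sum_congr rfl fun j _ => ?_
  rw [grad_single]
  ring

theorem ev_mul {x : Fin n → F} (hx : ∀ j, x j ≠ 0) (f g : Laurent n) :
    ev x (f * g) = ev x f * ev x g := by
  rw [← evL_apply, ← evL_apply, ← evL_apply]
  induction f using AddMonoidAlgebra.induction_linear with
  | zero => rw [zero_mul, map_zero, zero_mul]
  | add a b ha hb => rw [add_mul, map_add, map_add, ha, hb, add_mul]
  | single m c =>
    induction g using AddMonoidAlgebra.induction_linear with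
    | zero => rw [mul_zero, map_zero, mul_zero]
    | add a b ha hb => rw [mul_add, map_add, map_add, ha, hb, mul_add]
    | single m' c' =>
      rw [AddMonoidAlgebra.single_mul_single, evL_apply, evL_apply, evL_apply, ev_single,
        ev_single, ev_single, mon_add hx, map_mul]
      ring

theorem dL_mul {p : Fin n → F} (hp : ∀ j, p j ≠ 0) (δ : Fin n → F) (f g : Laurent n) :
    dL p δ (f * g) = ev p f * dL p δ g + ev p g * dL p δ f := by
  rw [← evL_apply, ← evL_apply]
  induction f using AddMonoidAlgebra.induction_linear with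
  | zero => rw [zero_mul, map_zero, map_zero, zero_mul, mul_zero, add_zero]
  | add a b ha hb => rw [add_mul, map_add, map_add, map_add, ha, hb]; ring
  | single m c =>
    induction g using AddMonoidAlgebra.induction_linear with
    | zero => rw [mul_zero, map_zero, map_zero, zero_mul, mul_zero, add_zero]
    | add a b ha hb => rw [mul_add, map_add, map_add, map_add, ha, hb]; ring
    | single m' c' =>
      rw [AddMonoidAlgebra.single_mul_single, evL_apply, evL_apply, dL_single, dL_single,
        dL_single, ev_single, ev_single, mon_add hp, map_mul]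
      have h1 : ∑ j, δ j * ((m + m') j : F) = ∑ j, δ j * (m j : F) + ∑ j, δ j * (m' j : F) := by
        rw [← Finset.sum_add_distrib]
        refine Finset.sum_congr rfl fun j _ => ?_
        rw [Pi.add_apply]
        push_cast
        ring
      have h2 : ∑ j, δ j * (((m + m') j : ℤ) : F) =
        ∑ j, δ j * (m j : F) + ∑ j, δ j * (m' j : F) := h1
      rw [h2]
      ring

theorem ev_one (x : Fin n → F) : ev x (1 : Laurent n) = 1 := by
  rw [AddMonoidAlgebra.one_def, ev_single, mon_zero, map_one, mul_one]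

/-- evaluation as an algebra homomorphism -/
def evA {x : Fin n → F} (hx : ∀ j, x j ≠ 0) : Laurent n →ₐ[ℂ] F :=
  AlgHom.ofLinearMap (evL x) (ev_one x) fun f g => ev_mul hx f g

@[simp] theorem evA_apply {x : Fin n → F} (hx : ∀ j, x j ≠ 0) (f : Laurent n) :
    evA hx f = ev x f := rfl

end point

variable {n : ℕ} {K : Type} [Field K] [Algebra ℂ K] {x : Fin n → K}

theorem mon_mem (x : Fin n → K) (m : Fin n → ℤ) : mon x m ∈ coordRing x :=
  Algebra.subset_adjoin ⟨m, rfl⟩

theorem range_evA (hx : ∀ j, x j ≠ 0) : (evA hx).range = coordRing x := by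
  apply le_antisymm
  · rintro a ⟨f, rfl⟩
    have h1 : (evA hx : Laurent n →ₐ[ℂ] K) f = ev x f := rfl
    rw [AlgHom.toRingHom_eq_coe, RingHom.coe_coe, h1]
    unfold ev
    refine Subalgebra.sum_mem _ fun m _ => ?_
    change algebraMap ℂ K (f.coeff m) * mon x m ∈ coordRing x
    rw [← Algebra.smul_def]
    exact Subalgebra.smul_mem _ (mon_mem x m) _
  · refine Algebra.adjoin_le ?_
    rintro a ⟨m, rfl⟩
    refine ⟨AddMonoidAlgebra.single m 1, ?_⟩
    rw [AlgHom.toRingHom_eq_coe, RingHom.coe_coe, evA_apply, ev_single, map_one, one_mul]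

theorem ev_mem (hx : ∀ j, x j ≠ 0) (f : Laurent n) : ev x f ∈ coordRing x := by
  rw [← range_evA hx]
  exact ⟨f, rfl⟩

theorem exists_ev (hx : ∀ j, x j ≠ 0) {a : K} (ha : a ∈ coordRing x) : ∃ f : Laurent n, ev x f = a := by
  rw [← range_evA hx] at ha
  exact ha

/-- evaluation, with values in the coordinate ring -/
def E (hx : ∀ j, x j ≠ 0) : Laurent n →ₐ[ℂ] coordRing x :=
  (evA hx).codRestrict (coordRing x) fun f => ev_mem hx f

@[simp] theorem E_coe (hx : ∀ j, x j ≠ 0) (f : Laurent n) : (E hx f : K) = ev x f := rfl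

theorem E_surj (hx : ∀ j, x j ≠ 0) : Function.Surjective (E hx) := by
  intro a
  obtain ⟨f, hf⟩ := exists_ev hx a.2
  exact ⟨f, Subtype.ext hf⟩

theorem mem_x (x : Fin n → K) (j : Fin n) : x j ∈ coordRing x := by
  have h := mon_mem x (Pi.single j 1)
  rwa [mon_single, zpow_one] at h

/-- the homomorphisms from the coordinate ring are the evaluations -/
theorem hom_eq (hx : ∀ j, x j ≠ 0) {F : Type} [Field F] [Algebra ℂ F] (ρ : coordRing x →ₐ[ℂ] F) :
    (∀ j, ρ ⟨x j, mem_x x j⟩ ≠ 0) ∧
    ∀ f : Laurent n, ρ (E hx f) = ev (fun j => ρ ⟨x j, mem_x x j⟩) f := by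
  have hinv : ∀ j, (x j)⁻¹ ∈ coordRing x := by
    intro j
    have h := mon_mem x (Pi.single j (-1))
    rwa [mon_single, zpow_neg_one] at h
  have h0 : ∀ j, ρ ⟨x j, mem_x x j⟩ ≠ 0 := by
    intro j h
    have h1 : (⟨x j, mem_x x j⟩ : coordRing x) * ⟨(x j)⁻¹, hinv j⟩ = 1 :=
      Subtype.ext (mul_inv_cancel₀ (hx j))
    have h2 := congrArg ρ h1
    rw [map_mul, h, zero_mul, map_one] at h2
    exact zero_ne_one h2
  refine ⟨h0, ?_⟩
  set p : Fin n → F := fun j => ρ ⟨x j, mem_x x j⟩ with hp
  -- monomials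
  have hm : ∀ (m : Fin n → ℤ), ρ ⟨mon x m, mon_mem x m⟩ = mon p m := by
    intro m
    have h1 : ∀ j, ∃ u : (coordRing x)ˣ, (u : coordRing x) = ⟨x j, mem_x x j⟩ := fun j =>
      ⟨⟨⟨x j, mem_x x j⟩, ⟨(x j)⁻¹, hinv j⟩, Subtype.ext (mul_inv_cancel₀ (hx j)),
        Subtype.ext (inv_mul_cancel₀ (hx j))⟩, rfl⟩
    choose u hu using h1
    have h2 : ∀ {L : Type} [Field L] [Algebra ℂ L] (ψ : coordRing x →ₐ[ℂ] L),
        ψ ((∏ j, u j ^ m j : (coordRing x)ˣ) : coordRing x) = mon (fun j => ψ (u j)) m := by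
      intro L _ _ ψ
      have h3 : ψ ((∏ j, u j ^ m j : (coordRing x)ˣ) : coordRing x) =
        ((Units.map (ψ : coordRing x →* L) (∏ j, u j ^ m j) : Lˣ) : L) := rfl
      rw [h3, map_prod, Units.coe_prod]
      unfold mon
      refine Finset.prod_congr rfl fun j _ => ?_
      rw [map_zpow, Units.val_zpow_eq_zpow_val]
      rfl
    have h4 : ((∏ j, u j ^ m j : (coordRing x)ˣ) : coordRing x) = ⟨mon x m, mon_mem x m⟩ := by
      apply Subtype.ext
      have h5 := h2 (coordRing x).val
      have h6 : (fun j => (coordRing x).val (u j : coordRing x)) = x := by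
        funext j
        rw [hu]
        rfl
      rw [h6] at h5
      exact h5
    have h7 := h2 ρ
    rw [h4] at h7
    rw [h7]
    congr 1
    funext j
    rw [hu]
  intro f
  have h8 : (ρ.comp (E hx)).toLinearMap = evL p := by
    refine LinearMap.ext fun g => ?_
    induction g using AddMonoidAlgebra.induction_linear with
    | zero => rw [map_zero, map_zero]
    | add a b ha hb => rw [map_add, map_add, ha, hb]
    | single m c =>
      rw [evL_apply, ev_single]
      have h9 : E hx (AddMonoidAlgebra.single m c) = c • ⟨mon x m, mon_mem x m⟩ := by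
        apply Subtype.ext
        rw [E_coe, ev_single]
        change _ = c • mon x m
        rw [Algebra.smul_def]
      have h10 : (ρ.comp (E hx)).toLinearMap (AddMonoidAlgebra.single m c) =
        ρ (E hx (AddMonoidAlgebra.single m c)) := rfl
      rw [h10, h9, map_smul, hm, Algebra.smul_def]
  exact LinearMap.congr_fun h8 f

/-- the coordinate ring is finitely generated -/
theorem finiteType (x : Fin n → K) : Algebra.FiniteType ℂ (coordRing x) := by
  classical
  have h1 : coordRing x = Algebra.adjoin ℂ (Set.range x ∪ Set.range fun j => (x j)⁻¹) := by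
    apply le_antisymm
    · refine Algebra.adjoin_le ?_
      rintro a ⟨m, rfl⟩
      change mon x m ∈ _
      unfold mon
      refine Subalgebra.prod_mem _ fun j _ => ?_
      have h2 : x j ∈ Algebra.adjoin ℂ (Set.range x ∪ Set.range fun j => (x j)⁻¹) :=
        Algebra.subset_adjoin (Or.inl ⟨j, rfl⟩)
      have h3 : (x j)⁻¹ ∈ Algebra.adjoin ℂ (Set.range x ∪ Set.range fun j => (x j)⁻¹) :=
        Algebra.subset_adjoin (Or.inr ⟨j, rfl⟩)
      rcases m j with k | k
      · rw [Int.ofNat_eq_natCast, zpow_natCast]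
        exact Subalgebra.pow_mem _ h2 k
      · rw [zpow_negSucc, ← inv_pow]
        exact Subalgebra.pow_mem _ h3 (k + 1)
    · refine Algebra.adjoin_le ?_
      rintro a (⟨j, rfl⟩ | ⟨j, rfl⟩)
      · exact mem_x x j
      · have h := mon_mem x (Pi.single j (-1))
        rwa [mon_single, zpow_neg_one] at h
  have hfin : (Set.range x ∪ Set.range fun j => (x j)⁻¹).Finite :=
    (Set.finite_range _).union (Set.finite_range _)
  have hfg : (coordRing x).FG := by
    have h2 := Subalgebra.fg_adjoin_finset (R := ℂ) hfin.toFinset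
    rw [Set.Finite.coe_toFinset, ← h1] at h2
    exact h2
  exact (Subalgebra.fg_iff_finiteType _).mp hfg

/-- every proper ideal of the coordinate ring has a closed point in its zero set -/
theorem exists_point (I : Ideal (coordRing x)) (hI : I ≠ ⊤) :
    ∃ φ : coordRing x →ₐ[ℂ] ℂ, ∀ a ∈ I, φ a = 0 := by
  have _ : Algebra.FiniteType ℂ (coordRing x) := finiteType x
  obtain ⟨m, hm, hIm⟩ := Ideal.exists_le_maximal I hI
  let _ : Field (coordRing x ⧸ m) := Ideal.Quotient.field m
  have _ : Algebra.FiniteType ℂ (coordRing x ⧸ m) :=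
    Algebra.FiniteType.of_surjective (Ideal.Quotient.mkₐ ℂ m) (Ideal.Quotient.mkₐ_surjective ℂ m)
  have _ : Module.Finite ℂ (coordRing x ⧸ m) :=
    finite_of_finite_type_of_isJacobsonRing ℂ (coordRing x ⧸ m)
  refine ⟨(IsAlgClosed.lift : (coordRing x ⧸ m) →ₐ[ℂ] ℂ).comp (Ideal.Quotient.mkₐ ℂ m), ?_⟩
  intro a ha
  have h1 : Ideal.Quotient.mkₐ ℂ m a = 0 := Ideal.Quotient.eq_zero_iff_mem.2 (hIm ha)
  rw [AlgHom.comp_apply, h1, map_zero]

/-- The derivation along `ρ` in the direction `δ`, on the values of the Laurent polynomials. -/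
theorem der {e n r : ℕ} {K : Type} [Field K] [Algebra ℂ K] {f : Fin r → Laurent n}
    {x : Fin n → K} (hZ : IsTCI e f x) {F : Type} [Field F] [Algebra ℂ F]
    (ρ : coordRing x →ₐ[ℂ] F) (p δ : Fin n → F)
    (hp : ∀ j (h : x j ∈ coordRing x), ρ ⟨x j, h⟩ = p j)
    (hδ : ∀ i, ∑ j, δ j * grad p (f i) j = 0) :
    ∃ d : coordRing x →ₗ[ℂ] F, (∀ a b, d (a * b) = ρ a * d b + ρ b * d a) ∧
      ∀ g : Laurent n, d (E hZ.ne g) = ∑ j, δ j * grad p g j := by
  have hx := hZ.ne
  obtain ⟨hp0', hρ'⟩ := hom_eq hx ρ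
  have hpp : (fun j => ρ ⟨x j, mem_x x j⟩) = p := by
    funext j
    exact hp j (mem_x x j)
  have hp0 : ∀ j, p j ≠ 0 := by
    intro j
    rw [← hpp]
    exact hp0' j
  have hρ : ∀ g : Laurent n, ρ (E hx g) = ev p g := by
    intro g
    rw [hρ' g, hpp]
  have hf0 : ∀ i, ev p (f i) = 0 := by
    intro i
    have h1 : E hx (f i) = 0 := Subtype.ext (hZ.zero i)
    rw [← hρ, h1, map_zero]
  -- a closed point in the zero set of the kernel of ρ
  have hker : RingHom.ker ρ ≠ ⊤ := RingHom.ker_ne_top _
  obtain ⟨φ, hφ⟩ := exists_point (RingHom.ker ρ) hker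
  obtain ⟨hq0, hφE⟩ := hom_eq hx φ
  set q : Fin n → ℂ := fun j => φ ⟨x j, mem_x x j⟩ with hq
  have hgen := hZ.ideal q hq0 (by
    intro h hh
    have h1 : E hx h = 0 := Subtype.ext hh
    rw [← hφE, h1, map_zero])
  have hspan : ∀ a ∈ Ideal.span (Set.range f), dL p δ a = 0 ∧ ev p a = 0 := by
    intro a ha
    induction ha using Submodule.span_induction with
    | mem a h =>
      obtain ⟨i, rfl⟩ := h
      exact ⟨hδ i, hf0 i⟩
    | zero => exact ⟨map_zero _, by rw [← evL_apply, map_zero]⟩
    | add a b _ _ ha hb =>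
      exact ⟨by rw [map_add, ha.1, hb.1, add_zero], by
        rw [← evL_apply, map_add, evL_apply, evL_apply, ha.2, hb.2, add_zero]⟩
    | smul a b _ hb =>
      rw [smul_eq_mul, dL_mul hp0, ev_mul hp0, hb.1, hb.2]
      exact ⟨by rw [mul_zero, zero_mul, add_zero], mul_zero _⟩
  have hzero : ∀ g : Laurent n, ev x g = 0 → dL p δ g = 0 := by
    intro g hg
    obtain ⟨h, h1, h2⟩ := hgen g hg
    have h3 := (hspan _ h2).1
    rw [dL_mul hp0] at h3
    have h4 : ev p g = 0 := by
      have h5 : E hx g = 0 := Subtype.ext hg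
      rw [← hρ, h5, map_zero]
    rw [h4, zero_mul, add_zero] at h3
    refine (mul_eq_zero.1 h3).resolve_left ?_
    intro h6
    rw [← hρ] at h6
    have h7 := hφ (E hx h) h6
    rw [hφE] at h7
    exact h1 h7
  set EL : Laurent n →ₗ[ℂ] coordRing x := (E hx).toLinearMap with hEL
  have hsurj : Function.Surjective EL := E_surj hx
  have hle : LinearMap.ker EL ≤ LinearMap.ker (dL p δ) := by
    intro g hg
    rw [LinearMap.mem_ker] at hg ⊢
    exact hzero g (congrArg Subtype.val hg)
  set d : coordRing x →ₗ[ℂ] F := ((LinearMap.ker EL).liftQ (dL p δ) hle) ∘ₗ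
    (EL.quotKerEquivOfSurjective hsurj).symm.toLinearMap with hd
  have hdE : ∀ g : Laurent n, d (E hx g) = dL p δ g := by
    intro g
    have h1 : (EL.quotKerEquivOfSurjective hsurj).symm (E hx g) = Submodule.Quotient.mk g := by
      rw [LinearEquiv.symm_apply_eq]
      rfl
    rw [hd, LinearMap.comp_apply, LinearEquiv.coe_coe, h1]
    rfl
  refine ⟨d, ?_, hdE⟩
  intro a b
  obtain ⟨g, rfl⟩ := E_surj hx a
  obtain ⟨h, rfl⟩ := E_surj hx b
  rw [← map_mul, hdE, hdE, hdE, hρ, hρ, dL_mul hp0]

end DRT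

open DRT in
theorem t_DRT : S_DRT := by
  intro e n r K _ _ f x hZ F _ _ ρ p δ hp hδ
  obtain ⟨d, h1, h2⟩ := der hZ ρ p δ hp hδ
  refine ⟨d, h1, ?_⟩
  intro j h
  have h3 : (⟨x j, h⟩ : coordRing x) = E hZ.ne (AddMonoidAlgebra.single (Pi.single j 1) 1) := by
    apply Subtype.ext
    rw [E_coe, ev_single, mon_single, zpow_one, map_one, one_mul]
  rw [h3, h2, ← dL_apply, dL_single, mon_single, zpow_one, map_one, one_mul]
  congr 1
  rw [Finset.sum_eq_single j]
  · rw [Pi.single_eq_same, Int.cast_one, mul_one]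
  · intro i _ hij
    rw [Pi.single_eq_of_ne hij, Int.cast_zero, mul_zero]
  · intro hj
    exact absurd (Finset.mem_univ j) hj

end

end MMCI
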