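import Pool.Agent.MMCI.StT
import Pool.Agent.MMCI.TorLib

/-!
# IRT: irreducibility of `Z` near the centres of the valuations of weight zero
-/

namespace MMCI

open MldGeo MldGeo.DivVal

noncomputable section

namespace IRT

open Tor

section

variable {F : Type*} [Field F] [Algebra ℂ F] {n k : ℕ}

/-- The field generated by the coordinates is algebraic over the ring which they generate. -/
theorem isAlgebraic_adjoin (p : Fin n → F) :
    Algebra.IsAlgebraic (Algebra.adjoin ℂ (Set.range fun j =>
      (⟨p j, IntermediateField.subset_adjoin ℂ _ ⟨j, rfl⟩⟩ :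
        IntermediateField.adjoin ℂ (Set.range p))))
      (IntermediateField.adjoin ℂ (Set.range p)) := by
  let p' : Fin n → IntermediateField.adjoin ℂ (Set.range p) :=
    fun j => ⟨p j, IntermediateField.subset_adjoin ℂ _ ⟨j, rfl⟩⟩
  have hmap : (Algebra.adjoin ℂ (Set.range p')).map
      (IntermediateField.adjoin ℂ (Set.range p)).val = Algebra.adjoin ℂ (Set.range p) := by
    rw [AlgHom.map_adjoin]
    congr 1
    ext z
    constructor
    · rintro ⟨_, ⟨j, rfl⟩, rfl⟩
      exact ⟨j, rfl⟩
    · rintro ⟨j, rfl⟩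
      exact ⟨p' j, ⟨j, rfl⟩, rfl⟩
  refine ⟨fun a => ?_⟩
  have ha := a.2
  rw [IntermediateField.mem_adjoin_iff_div] at ha
  obtain ⟨r, hr, s, hs, has⟩ := ha
  rw [← hmap] at hr hs
  obtain ⟨r', hr', rfl⟩ := hr
  obtain ⟨s', hs', rfl⟩ := hs
  by_cases h0 : s' = 0
  · have h1 : a = 0 := by
      apply Subtype.ext
      rw [has, h0]
      simp
    rw [h1]
    exact isAlgebraic_zero
  · refine ⟨Polynomial.C ⟨s', hs'⟩ * Polynomial.X - Polynomial.C ⟨r', hr'⟩, ?_, ?_⟩
    · intro h
      have h2 := congrArg (fun q => q.coeff 1) h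
      simp only [Polynomial.coeff_sub, Polynomial.coeff_C_mul, Polynomial.coeff_X_one, mul_one,
        Polynomial.coeff_C_succ, sub_zero, Polynomial.coeff_zero] at h2
      exact h0 (congrArg Subtype.val h2)
    · rw [map_sub, map_mul, Polynomial.aeval_C, Polynomial.aeval_C, Polynomial.aeval_X]
      apply Subtype.ext
      change (s' : F) * a - r' = 0
      have h3 : (s' : F) ≠ 0 := fun h => h0 (Subtype.ext h)
      have h4 : (a : F) = (r' : F) / (s' : F) := has
      rw [h4]
      field_simp
      ring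

theorem exists_indep (p : Fin n → F)
    (h : (k : Cardinal) ≤ Algebra.trdeg ℂ (IntermediateField.adjoin ℂ (Set.range p))) :
    ∃ j : Fin k → Fin n, AlgebraicIndependent ℂ fun l => p (j l) := by
  have halg := isAlgebraic_adjoin p
  obtain ⟨t, ht, htb⟩ := exists_isTranscendenceBasis_subset (R := ℂ)
    (Set.range fun j => (⟨p j, IntermediateField.subset_adjoin ℂ _ ⟨j, rfl⟩⟩ :
        IntermediateField.adjoin ℂ (Set.range p)))
  rw [← htb.cardinalMk_eq_trdeg] at h
  have hfin : t.Finite := (Set.finite_range _).subset ht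
  have : Finite t := hfin
  have : Fintype t := Fintype.ofFinite t
  have h2 : k ≤ Fintype.card t := by
    rw [Cardinal.mk_fintype] at h
    exact_mod_cast h
  let g : Fin k ↪ t := (Fin.castLEEmb h2).trans (Fintype.equivFin t).symm.toEmbedding
  have h3 := htb.1.comp g g.injective
  choose j hj using fun l => ht (g l).2
  refine ⟨j, ?_⟩
  have h4 : (fun l => p (j l)) = (IntermediateField.adjoin ℂ (Set.range p)).val ∘
      ((Subtype.val : t → IntermediateField.adjoin ℂ (Set.range p)) ∘ g) := by
    funext l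
    have h5 := congrArg Subtype.val (hj l)
    exact h5
  rw [h4]
  exact h3.map' (Subtype.val_injective)

end

variable {e n r : ℕ} {K : Type} [Field K] [Algebra ℂ K]

theorem evHom_X {F : Type*} [Field F] [Algebra ℂ F] {p : Fin n → F} (hp : ∀ j, p j ≠ 0)
    {k : ℕ} (j : Fin k → Fin n) (P : MvPolynomial (Fin k) ℂ) :
    ev p (MvPolynomial.aeval (fun l => (AddMonoidAlgebra.single (Pi.single (j l) 1) 1 : Laurent n))
      P) = MvPolynomial.aeval (fun l => p (j l)) P := by
  rw [← evHom_apply hp, ← AlgHom.comp_apply]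
  congr 1
  apply MvPolynomial.algHom_ext
  intro l
  rw [AlgHom.comp_apply, MvPolynomial.aeval_X, MvPolynomial.aeval_X]
  change ev p (AddMonoidAlgebra.single (Pi.single (j l) 1) (1 : ℂ) : Laurent n) = p (j l)
  rw [ev_single, map_one, one_mul, mon_single, zpow_one]

theorem ker_le {F : Type*} [Field F] [Algebra ℂ F] {x : Fin n → K} (hx : ∀ j, x j ≠ 0)
    (hdim : Algebra.trdeg ℂ K = (e : Cardinal)) {p : Fin n → F} (hp : ∀ j, p j ≠ 0)
    (h1 : ∀ h : Laurent n, ev x h = 0 → ev p h = 0)
    (he : (e : Cardinal) ≤ Algebra.trdeg ℂ (IntermediateField.adjoin ℂ (Set.range p)))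
    (h : Laurent n) (hh : ev p h = 0) : ev x h = 0 := by
  obtain ⟨j, hj⟩ := exists_indep p he
  have hy : AlgebraicIndependent ℂ fun l => x (j l) := by
    rw [algebraicIndependent_iff]
    intro P hP
    rw [algebraicIndependent_iff] at hj
    apply hj
    rw [← evHom_X hp]
    apply h1
    rw [evHom_X hx]
    exact hP
  have hb := hy.isTranscendenceBasis_of_trdeg_le_of_finite (by simp [hdim])
  by_contra ha
  have halg := hb.isAlgebraic.isAlgebraic (ev x h)
  obtain ⟨q, hq0, hq⟩ := halg.exists_nonzero_coeff_and_aeval_eq_zero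
    (mem_nonZeroDivisors_of_ne_zero ha)
  have hc : ∀ k, ∃ P : MvPolynomial (Fin e) ℂ,
      MvPolynomial.aeval (fun l => x (j l)) P = (q.coeff k : K) := by
    intro k
    have h2 : (q.coeff k : K) ∈ (MvPolynomial.aeval (R := ℂ) fun l => x (j l)).range := by
      rw [← Algebra.adjoin_range_eq_range_aeval]
      exact (q.coeff k).2
    exact h2
  choose P hP using hc
  have hG : ev x (∑ k ∈ q.support, MvPolynomial.aeval
      (fun l => (AddMonoidAlgebra.single (Pi.single (j l) 1) 1 : Laurent n)) (P k) * h ^ k) = 0 := by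
    rw [← evHom_apply hx, map_sum, ← hq, Polynomial.aeval_def, Polynomial.eval₂_eq_sum,
      Polynomial.sum_def]
    refine Finset.sum_congr rfl fun k _ => ?_
    rw [map_mul, map_pow, evHom_apply, evHom_apply, evHom_X hx, hP]
    rfl
  have hG2 := h1 _ hG
  rw [← evHom_apply hp, map_sum, Finset.sum_eq_single 0] at hG2
  · rw [pow_zero, mul_one, evHom_apply, evHom_X hp] at hG2
    rw [algebraicIndependent_iff] at hj
    have h3 := hP 0
    rw [hj _ hG2, map_zero] at h3
    exact hq0 (Subtype.ext h3.symm)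
  · intro k _ hk
    rw [map_mul, map_pow, evHom_apply hp h, hh, zero_pow hk, mul_zero]
  · intro h3
    exact absurd (Polynomial.mem_support_iff.2 hq0) h3

end IRT

theorem t_IRT : M_IRT := by
  intro hMON e n r K _ _ f x hf v hv F _ _ p hp hfp hc he
  obtain ⟨-, -, -, -, hM⟩ := hMON (e := e) x hf.ne
  have h0 : ∀ g : Laurent n, v.Ge 0 (ev x g) := by
    intro g
    refine Ge.sum _ _ fun m _ => (Ge.of_le ?_ : v.Ge 0 (mon x m)).const_mul _
    rw [(hM v).1 m, hv]
    simp [pair]
  let I : Ideal (coordRing x) :=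
    { carrier := {a | v.Ge 1 (a : K)}
      add_mem' := fun ha hb => ha.add hb
      zero_mem' := Ge.zero v 1
      smul_mem' := fun c a ha => by
        obtain ⟨g, hg⟩ := Tor.exists_ev hf.ne c.2
        have hc0 : v.Ge 0 (c : K) := hg ▸ h0 g
        exact hc0.mul_left ha }
  have hI : I ≠ ⊤ := by
    intro h
    have h1 : (1 : coordRing x) ∈ I := by rw [h]; trivial
    have h2 : v.Ge 1 (1 : K) := h1
    have h3 := h2.le one_ne_zero
    rw [ord_one] at h3
    omega
  refine IRT.ker_le hf.ne hf.dim hp (fun g hg => ?_) he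
  obtain ⟨h, h1, h2⟩ := Tor.exists_rel hf hI g hg
  have h3 : ev p h ≠ 0 := fun h4 => h1 (hc h h4)
  have h4 : ev p (h * g) = 0 := by
    have h5 : Ideal.span (Set.range f) ≤ RingHom.ker (Tor.evHom hp) := by
      rw [Ideal.span_le]
      rintro _ ⟨i, rfl⟩
      exact hfp i
    exact h5 h2
  rw [Tor.ev_mul hp] at h4
  exact (mul_eq_zero.1 h4).resolve_left h3

end

end MMCI
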