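import Pool.Agent.MMCI.StT
import Pool.Agent.MMCI.TorLib

/-!
# RKT: the generic rank of the gradients
-/

namespace MMCI

open MldGeo

noncomputable section

namespace RKT

variable {e n : ℕ} {K : Type} [Field K] [Algebra ℂ K]

open KaehlerDifferential

theorem isFrac {x : Fin n → K} (hx : IntermediateField.adjoin ℂ (Set.range x) = ⊤) :
    IsFractionRing (coordRing x) K := by
  refine IsFractionRing.of_field _ _ fun z => ?_
  obtain ⟨p, hp, q, hq, hq0, h⟩ := Tor.frac hx z
  refine ⟨⟨p, hp⟩, ⟨q, hq⟩, ?_⟩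
  change z = p / q
  rw [← h, mul_div_assoc, div_self hq0, mul_one]

/-- A derivation of the coordinate ring with values in `K` as a linear form on the differentials
of `K`. -/
theorem ext_der {x : Fin n → K} (hx : IntermediateField.adjoin ℂ (Set.range x) = ⊤)
    (d : coordRing x →ₗ[ℂ] K)
    (hd : ∀ a b, d (a * b) = (coordRing x).val a * d b + (coordRing x).val b * d a) :
    ∃ l : Ω[K⁄ℂ] →ₗ[K] K, ∀ a : coordRing x, l (KaehlerDifferential.D ℂ K (a : K)) = d a := by
  have h1 : IsFractionRing (coordRing x) K := isFrac hx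
  have h2 : Algebra.FormallyEtale (coordRing x) K :=
    Algebra.FormallyEtale.of_isLocalization (nonZeroDivisors _)
  let δ : Derivation ℂ (coordRing x) K := Derivation.mk' d fun a b => hd a b
  let φ : Ω[coordRing x⁄ℂ] →ₗ[coordRing x] K := δ.liftKaehlerDifferential
  refine ⟨(LinearMap.liftBaseChange K φ) ∘ₗ
    (tensorKaehlerEquivOfFormallyEtale ℂ (coordRing x) K).symm.toLinearMap, fun a => ?_⟩
  have h3 := tensorKaehlerEquivOfFormallyEtale_symm_D_algebraMap ℂ (coordRing x) K a
  change (LinearMap.liftBaseChange K φ) ((tensorKaehlerEquivOfFormallyEtale ℂ (coordRing x) K).symm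
    (KaehlerDifferential.D ℂ K (algebraMap (coordRing x) K a))) = d a
  rw [h3, LinearMap.liftBaseChange_tmul, one_smul]
  exact Derivation.liftKaehlerDifferential_comp_D δ a

/-- The dimension of the space of differentials. -/
theorem finrank_omega (h : Algebra.trdeg ℂ K = (e : Cardinal)) :
    ∃ _ : Module.Basis (Fin e) K (Ω[K⁄ℂ]), True := by
  obtain ⟨s, hs⟩ := exists_isTranscendenceBasis ℂ K
  have hcard : Cardinal.mk s = Cardinal.mk (Fin e) := by
    rw [hs.cardinalMk_eq_trdeg, h, Cardinal.mk_fin]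
  obtain ⟨φ⟩ := Cardinal.eq.1 hcard
  have h1 : AlgebraicIndependent ℂ fun l : Fin e => ((φ.symm l : s) : K) :=
    hs.1.comp φ.symm φ.symm.injective
  obtain ⟨h2, h3⟩ := t_TBAS h _ h1
  exact ⟨Module.Basis.mk h2 h3.ge, trivial⟩

end RKT

open RKT in
theorem t_RKT : M_RKT := by
  intro hDRT e n r K _ _ f x hf
  classical
  obtain ⟨b, -⟩ := finrank_omega hf.dim
  have hfin : Module.Finite K (Ω[K⁄ℂ]) := Module.Finite.of_basis b
  have hdim : Module.finrank K (Ω[K⁄ℂ]) = e := by
    rw [Module.finrank_eq_card_basis b, Fintype.card_fin]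
  let A : Matrix (Fin r) (Fin n) K := Matrix.of fun i j => grad x (f i) j
  let Ψ : Module.Dual K (Ω[K⁄ℂ]) →ₗ[K] (Fin n → K) :=
    LinearMap.pi fun j => Module.Dual.eval K (Ω[K⁄ℂ]) (dlog (x j))
  have hle : LinearMap.ker A.mulVecLin ≤ LinearMap.range Ψ := by
    intro δ hδ
    have h1 : ∀ i, ∑ j, δ j * grad x (f i) j = 0 := by
      intro i
      have h2 := congrFun (LinearMap.mem_ker.1 hδ) i
      rw [Matrix.mulVecLin_apply, Matrix.mulVec, Pi.zero_apply] at h2
      rw [← h2]
      exact Finset.sum_congr rfl fun j _ => mul_comm _ _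
    obtain ⟨d, hd, hdx⟩ := hDRT f x hf (coordRing x).val x δ (fun _ _ => rfl) h1
    obtain ⟨l, hl⟩ := ext_der hf.gen d hd
    refine ⟨l, funext fun j => ?_⟩
    change l (dlog (x j)) = δ j
    have h3 := hl ⟨x j, Tor.var_mem x j⟩
    rw [hdx j (Tor.var_mem x j)] at h3
    rw [dlog, map_smul, smul_eq_mul]
    change l (KaehlerDifferential.D ℂ K (x j)) = δ j * x j at h3
    rw [h3, mul_comm (δ j), ← mul_assoc, inv_mul_cancel₀ (hf.ne j), one_mul]
  have h4 : Module.finrank K (LinearMap.ker A.mulVecLin) ≤ e := by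
    refine (Submodule.finrank_mono hle).trans ((LinearMap.finrank_range_le Ψ).trans ?_)
    rw [Subspace.dual_finrank_eq, hdim]
  have h5 := LinearMap.finrank_range_add_finrank_ker A.mulVecLin
  rw [Module.finrank_fin_fun] at h5
  have h6 : A.rank = Module.finrank K (LinearMap.range A.mulVecLin) := rfl
  have h7 : r ≤ A.rank := by
    have := hf.dim_eq
    omega
  rw [Matrix.rank_eq_finrank_span_row] at h7
  have h8 : LinearIndependent K A.row := by
    rw [linearIndependent_iff_card_le_finrank_span, Fintype.card_fin]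
    exact h7
  exact h8

end

end MMCI
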