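import Pool.Agent.MMCI.StT

/-!
# MP_fa3f7f_ag, MMCI: the assembly
-/

namespace MMCI

open MldGeo

noncomputable section

/-- TMAIN. -/
theorem t_TMAIN : M_TMAIN := by
  intro hFAN hLOG hMOD hKEY hTER hSEM hNEF hRED hFIB
  have key : ∀ (N : ℕ) {e n r : ℕ} {K : Type} [Field K] [Algebra ℂ K] (f : Fin r → Laurent n)
      (x : Fin n → K), n = N → TSys e f x → MMC e K := by
    intro N
    induction N using Nat.strong_induction_on with
    | _ N ih =>
      intro e n r K _ _ f x hN hS
      have hn : 0 < n := by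
        have h1 := hS.dim_eq
        have h2 := hS.pos
        omega
      obtain ⟨ω, hω⟩ := hLOG f x hS
      rcases hFAN f hn hS.f_ne with ⟨⟨F⟩⟩ | ⟨⟨F⟩⟩
      · obtain ⟨Y, hY⟩ := hMOD x hS.ne hS.gen hS.dim hS.pos F.A F.nonempty F.full
        have h1 := hTER f x hS.toBase F.toFan ω Y hω hY
        have h2 := hSEM f x hS.toBase F ω Y hω hY
        exact ⟨Y, h1, Or.inl ⟨h2, hNEF Y hS.dim hS.pos hY.normal h2⟩⟩
      · have hle : Algebra.trdeg ℂ (IntermediateField.adjoin ℂ
            {z | ∃ a ∈ F.A, ∃ a' ∈ F.A, z = mon x (F.b a - F.b a')}) ≤ (e : Cardinal) := by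
          rw [← hS.dim]
          exact trdeg_le_of_injective (IntermediateField.val _) (RingHom.injective _)
        rcases hle.lt_or_eq with hlt | heq
        · obtain ⟨Y, hY⟩ := hMOD x hS.ne hS.gen hS.dim hS.pos F.A F.nonempty F.full
          have h1 := hTER f x hS.toBase F.toFan ω Y hω hY
          refine ⟨Y, h1, Or.inr (hFIB f x hS.toBase F ω Y hω.ne hY ?_ hlt)⟩
          intro i v P hP a ha haM
          obtain ⟨m, hm, hPm⟩ := Ideal.exists_le_maximal P hP.1.ne_top
          obtain ⟨a', ha', h3⟩ := hKEY f x hS.toBase F.toFan ω Y hω hY i m hm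
          obtain ⟨h4, -, h5⟩ := h3 v P ⟨hP.1, hP.2.2.1, hP.2.2.2⟩ hPm
          have h6 := h5.2 hP.2.1
          have h7 := F.cons _ _ _ haM h4
          rw [h7]
          omega
        · obtain ⟨n', r', f', x', h1, h2⟩ := hRED f x hS F heq
          exact ih n' (by omega) f' x' rfl h2
  intro e n r K _ _ f x hS
  exact key n f x rfl hS

end

end MMCI
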