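import Pool.Agent.MMCI.StT
import Pool.Agent.MMCI.TorLib
import Pool.Agent.MMCI.Tools

/-!
# Block T: the orders of the residue form at the valuations with weight zero
-/

namespace MMCI

open MldGeo MldGeo.DivVal

noncomputable section

namespace TOT

variable {e n r : ℕ} {K : Type} [Field K] [Algebra ℂ K]

theorem ge_of_wt {x : Fin n → K} {v : DivVal e K} (hmon : ∀ m, v.ord (mon x m) = pair (wt x v) m)
    (hw : wt x v = 0) : ∀ a ∈ coordRing x, v.Ge 0 a := by
  intro a ha
  refine Algebra.adjoin_induction (p := fun a _ => v.Ge 0 a) ?_ ?_ ?_ ?_ ha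
  · rintro _ ⟨m, rfl⟩
    right
    show 0 ≤ v.ord (mon x m)
    rw [hmon, hw]
    unfold pair
    simp
  · intro c
    exact Ge.const v c
  · intro a b _ _ h1 h2
    exact h1.add h2
  · intro a b _ _ h1 h2
    have h3 := h1.mul h2
    rwa [add_zero] at h3

/-- The centre of a valuation. -/
def centre (v : DivVal e K) (R : Subalgebra ℂ K) (h : ∀ a ∈ R, v.Ge 0 a) : Ideal R where
  carrier := {a | v.Ge 1 (a : K)}
  zero_mem' := Ge.zero v 1
  add_mem' := fun {a b} ha hb => Ge.add ha hb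
  smul_mem' := fun c a ha => by
    have h1 := (h c c.2).mul (show v.Ge 1 (a : K) from ha)
    rwa [zero_add] at h1

theorem hasCentre (v : DivVal e K) (R : Subalgebra ℂ K) (h : ∀ a ∈ R, v.Ge 0 a) :
    HasCentre R v (centre v R h) := by
  have hm : ∀ a : R, a ∈ centre v R h ↔ v.Ge 1 (a : K) := fun a => Iff.rfl
  have h0 : ∀ a : R, 0 ≤ v.ord a := by
    intro a
    rcases h a a.2 with h1 | h1
    · rw [h1, v.ord_zero]
    · exact h1
  refine ⟨⟨?_, ?_⟩, h0, ?_⟩
  · intro h1
    have h2 : (1 : R) ∈ centre v R h := by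
      rw [h1]
      trivial
    rw [hm] at h2
    rcases h2 with h2 | h2
    · exact one_ne_zero h2
    · have h3 : v.ord ((1 : R) : K) = 0 := ord_one v
      omega
  · intro a b hab
    rw [hm] at hab
    rw [hm, hm]
    by_cases ha : (a : K) = 0
    · exact Or.inl (Or.inl ha)
    by_cases hb : (b : K) = 0
    · exact Or.inr (Or.inl hb)
    have h1 : ((a * b : R) : K) = (a : K) * b := rfl
    rw [h1] at hab
    have h2 := hab.resolve_left (mul_ne_zero ha hb)
    rw [v.ord_mul _ _ ha hb] at h2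
    have h3 := h0 a
    have h4 := h0 b
    by_cases h5 : 1 ≤ v.ord (a : K)
    · exact Or.inl (Or.inr h5)
    · exact Or.inr (Or.inr (by omega))
  · intro a
    rw [hm]
    constructor
    · rintro (h1 | h1)
      · exact Or.inl (Subtype.ext h1)
      · exact Or.inr (by omega)
    · rintro (h1 | h1)
      · left
        rw [h1]
        rfl
      · right
        omega

theorem wt_zero {x : Fin n → K} {v : DivVal e K}
    (h : ∀ a : coordRing x, 0 ≤ v.ord a) : wt x v = 0 := by
  funext j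
  have h1 : 0 ≤ v.ord (x j) := h ⟨x j, Tor.var_mem x j⟩
  have h2 : 0 ≤ v.ord (x j)⁻¹ := h ⟨(x j)⁻¹, Tor.inv_mem x j⟩
  rw [ord_inv] at h2
  show v.ord (x j) = 0
  omega

theorem pair_zero (m : Fin n → ℤ) : pair 0 m = 0 := by
  unfold pair
  simp

theorem minOn_zero (f : Laurent n) : minOn f 0 = 0 := by
  unfold minOn
  rcases (f.coeff.support : Set (Fin n → ℤ)).eq_empty_or_nonempty with h | h
  · rw [h, Set.image_empty]
    exact Int.csInf_empty
  · have h1 : (fun m => pair 0 m) '' (f.coeff.support : Set (Fin n → ℤ)) = {0} := by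
      ext z
      constructor
      · rintro ⟨m, _, rfl⟩
        exact pair_zero m
      · intro hz
        obtain ⟨m, hm⟩ := h
        exact ⟨m, hm, (pair_zero m).trans (Eq.symm hz)⟩
    rw [h1]
    exact csInf_singleton 0

theorem psi_zero (f : Fin r → Laurent n) : psi f 0 = 0 := by
  unfold psi
  exact Finset.sum_eq_zero fun i _ => minOn_zero (f i)

/-- Comparison of the residue form with the logarithmic form. -/
theorem logOrd_eq {f : Fin r → Laurent n} {x : Fin n → K} (hf : IsTCI e f x) {ω : Forms e K}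
    (hω : IsRes f x ω) {v : DivVal e K} (hw : wt x v = 0) {σ : Fin r ⊕ Fin e ≃ Fin n}
    (hσ : UnitMinor f x v σ) : v.logOrd ω = v.logOrd (dlogs (rest x σ)) := by
  obtain ⟨ε, hε, h1⟩ := hω.2 σ hσ.1
  have hε0 : ε ≠ 0 := by
    rcases hε with rfl | rfl
    · exact one_ne_zero
    · exact neg_ne_zero.2 one_ne_zero
  have hεo : v.ord ε = 0 := by
    rcases hε with rfl | rfl
    · exact ord_one v
    · exact ord_neg_one v
  have hd : dlogs (rest x σ) ≠ 0 := by
    intro h2
    rw [h2, smul_zero] at h1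
    exact smul_ne_zero hσ.1 hω.1 h1
  have h2 := cFSM hf.dim v (minor f x σ) ω hf.pos hσ.1 hω.1
  have h3 := cFSM hf.dim v ε (dlogs (rest x σ)) hf.pos hε0 hd
  rw [h1, h3, hεo, hσ.2, hw, psi_zero] at h2
  omega

/-- An element which is not in the maximal ideal. -/
theorem ord_zero_of {x : Fin n → K} {v : DivVal e K} {P m : Ideal (coordRing x)}
    (hP : HasCentre (coordRing x) v P) (hPm : P ≤ m) {a : coordRing x} (ha : a ∉ m) :
    (a : K) ≠ 0 ∧ v.ord a = 0 := by
  have h1 : a ∉ P := fun h => ha (hPm h)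
  rw [hP.2.2 a] at h1
  push Not at h1
  refine ⟨fun h => h1.1 (Subtype.ext h), ?_⟩
  have h2 := hP.2.1 a
  have h3 := h1.2
  omega

theorem nonneg_of {x : Fin n → K} {v : DivVal e K} {P m : Ideal (coordRing x)}
    (hP : HasCentre (coordRing x) v P) (hPm : P ≤ m) {g : K} (hg : g ≠ 0)
    {p s : coordRing x} (hs : s ∉ m) (h : g * (s : K) = p) : 0 ≤ v.ord g := by
  obtain ⟨h1, h2⟩ := ord_zero_of hP hPm hs
  have h3 := v.ord_mul g s hg h1
  rw [h, h2] at h3
  have h4 := hP.2.1 p
  omega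

end TOT

open TOT

theorem t_TOT : M_TOT := by
  intro hMON hRKT hUMT hBHT hEQ0a hEQ0b e n r K _ _ f x hf v hw ω hω
  have hmon : ∀ v : DivVal e K, ∀ m, v.ord (mon x m) = pair (wt x v) m := fun v =>
    ((hMON (e := e) x hf.ne).2.2.2.2 v).1
  have hreg : Reg e f x := ⟨⟨hf.dim_eq, hf.pos, hf.f_ne, hf.ne, hf.gen, hf.dim⟩, hf.zero,
    hRKT f x hf⟩
  -- prime divisors
  have key : ∀ (v : DivVal e K) (P : Ideal (coordRing x)), IsPrimeDivisor (coordRing x) v P →
      v.logOrd ω = 1 ∧ Big x v := by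
    intro v P hP
    have hw : wt x v = 0 := wt_zero hP.2.2.1
    have hbig : Big x v := (hBHT f x hf v P ⟨hP.1, hP.2.2.1, hP.2.2.2⟩).1 hP.2.1
    obtain ⟨σ, hσ⟩ := hUMT f x hf v P hP
    refine ⟨?_, hbig⟩
    rw [logOrd_eq hf hω hw hσ]
    have hpos := hf.pos
    obtain ⟨m, rfl⟩ : ∃ m, e = m + 1 := ⟨e - 1, by omega⟩
    exact hEQ0b f x hreg v σ hσ hw hbig
  have hcen := hasCentre v (coordRing x) (ge_of_wt (hmon v) hw)
  set P := centre v (coordRing x) (ge_of_wt (hmon v) hw) with hPdef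
  have hB := hBHT f x hf v P hcen
  by_cases hht : P.height = 1
  · obtain ⟨h1, h2⟩ := key v P ⟨hcen.1, hht, hcen.2.1, hcen.2.2⟩
    exact ⟨h1.ge, fun _ => h2, fun _ => h1⟩
  · obtain ⟨m, hm, hPm⟩ := Ideal.exists_le_maximal P hcen.1.ne_top
    obtain ⟨k, g, hk, hg, heq, hdisc⟩ := hf.terminal.2 ω hω.1 m hm
    have hord : ∀ (v' : DivVal e K) (P' : Ideal (coordRing x)), P' ≤ m →
        IsPrimeDivisor (coordRing x) v' P' → v'.ord g = 0 := by
      intro v' P' hP'm hP'
      have h1 := heq v' P' hP' hP'm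
      have h2 := cTXT hf.dim v' ω hf.pos hω.1
      rw [(key v' P' hP').1] at h2
      rw [h1, h2]
      simp
    obtain ⟨p, s, hs, h1⟩ := cLOC (Tor.germ hf m hm) g fun v' P' h2 h3 =>
      Or.inr (hord v' P' h2 h3).ge
    obtain ⟨p', s', hs', h1'⟩ := cLOC (Tor.germ hf m hm) g⁻¹ fun v' P' h2 h3 => by
      right
      have h4 : v'.ord g⁻¹ = - v'.ord g := ord_inv v' g
      have h5 := hord v' P' h2 h3
      show (0 : ℤ) ≤ v'.ord g⁻¹
      omega
    have h2 : 0 ≤ v.ord g := nonneg_of hcen hPm hg hs h1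
    have h3 : 0 ≤ v.ord g⁻¹ := nonneg_of hcen hPm (inv_ne_zero hg) hs' h1'
    rw [ord_inv] at h3
    have h4 := hdisc v P hcen hPm hht
    have h5 : v.ord g = 0 := by omega
    rw [h5, sub_zero] at h4
    have hk' : (0 : ℤ) < k := by exact_mod_cast hk
    have h6 : 0 < v.formOrd ω := (mul_pos_iff_of_pos_left hk').1 h4
    have h7 := cTXT hf.dim v ω hf.pos hω.1
    refine ⟨by omega, fun h8 => by omega, fun h8 => absurd (hB.2 h8) hht⟩

end

end MMCI
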