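import Pool.Agent.MMCI.StT

/-!
# Module TSY: the abstract data for complete intersections with terminal singularities
-/

set_option autoImplicit false

namespace MMCI

theorem t_TSY : M_TSY := by
  intro hMIN hRKT hTOT hIRT e n r K _ _ f x hf
  exact
    { dim_eq := hf.dim_eq
      pos := hf.pos
      f_ne := hf.f_ne
      ne := hf.ne
      gen := hf.gen
      dim := hf.dim
      zero := hf.zero
      rank := hRKT f x hf
      nd := fun v => by
        by_cases h : wt x v = 0
        · exact Or.inr ⟨h, hTOT f x hf v h, fun _ _ _ _ p h1 h2 h3 h4 => hIRT f x hf v h p h1 h2 h3 h4⟩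
        · exact Or.inl (hMIN f x hf.dim_eq hf.ne hf.f_ne hf.zero v (hf.nondeg _ h)) }

end MMCI
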