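import Pool.Agent.MMCI.StE
import Pool.Agent.MMCI.Defs2

/-!
# Block T: terminal singularities inside the torus. Statements.
-/

namespace MMCI

open MldGeo

noncomputable section

variable {e n r : ℕ} {K : Type} [Field K] [Algebra ℂ K]

/-- `ω` is the residue form (up to sign). -/
def IsRes (f : Fin r → Laurent n) (x : Fin n → K) (ω : Forms e K) : Prop :=
  ω ≠ 0 ∧ ∀ σ : Fin r ⊕ Fin e ≃ Fin n, minor f x σ ≠ 0 →
    ∃ ε : K, (ε = 1 ∨ ε = -1) ∧ minor f x σ • ω = ε • dlogs (rest x σ)

/-- The order of the residue form at a valuation with a centre in the torus. -/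
def T0 (f : Fin r → Laurent n) (x : Fin n → K) (v : DivVal e K) : Prop :=
  ∀ ω : Forms e K, IsRes f x ω → 1 ≤ v.logOrd ω ∧ (v.logOrd ω = 1 ↔ Big x v)

/-- Near the centre of `v` (in the torus) the scheme `f = 0` is irreducible: every point `p` of it of
transcendence degree at least `e` over some field, such that the centre of `v` is a specialisation
of `p`, is a generic point. -/
def IR (f : Fin r → Laurent n) (x : Fin n → K) (v : DivVal e K) : Prop :=
  ∀ {F : Type} [Field F] [Algebra ℂ F] (p : Fin n → F), (∀ j, p j ≠ 0) → (∀ i, ev p (f i) = 0) →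
    (∀ h : Laurent n, ev p h = 0 → v.Ge 1 (ev x h)) →
    (e : Cardinal) ≤ Algebra.trdeg ℂ (IntermediateField.adjoin ℂ (Set.range p)) →
    ∀ h : Laurent n, ev p h = 0 → ev x h = 0

/-- The abstract data. -/
structure TSys (e : ℕ) (f : Fin r → Laurent n) (x : Fin n → K) : Prop extends Reg e f x where
  nd : ∀ v : DivVal e K, (∃ σ : Fin r ⊕ Fin e ≃ Fin n, UnitMinor f x v σ) ∨
    (wt x v = 0 ∧ T0 f x v ∧ (Big x v → IR f x v))

/-- TLOG: the residue form. (As `LOG`.) -/
def S_TLOG : Prop := ∀ {e n r : ℕ} {K : Type} [Field K] [Algebra ℂ K] (f : Fin r → Laurent n)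
  (x : Fin n → K), TSys e f x → ∃ ω : Forms e K, LogData e f x ω

def M_TLOG : Prop := S_OMG → S_EQ1a → S_EQ1b → S_UNT → S_EQ0a → S_EQ0b → S_BND → S_TLOG

/-- DRT: derivations of the coordinate ring along a homomorphism `ρ` to a field. (The map
`ev`-coordinates: `x^m ↦ (∑ δ_j m_j) ρ(x^m)` is well defined on Laurent polynomials, a derivation
along `ρ`, zero on the `f_i`. Let `g` be in the kernel of `ev x`. There is a closed point `p` of `Z` in
the zero set of `ker ρ` (Nullstellensatz; `coordRing x` is finitely generated), and `h` with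
`ev p h ≠ 0`, `h g = ∑ a_i f_i`; so `ρ(h) ≠ 0`, and the derivation of `h g` is `ρ(h)` times that of
`g` and zero.) -/
def S_DRT : Prop := ∀ {e n r : ℕ} {K : Type} [Field K] [Algebra ℂ K] (f : Fin r → Laurent n)
  (x : Fin n → K), IsTCI e f x → ∀ {F : Type} [Field F] [Algebra ℂ F] (ρ : coordRing x →ₐ[ℂ] F)
  (p δ : Fin n → F), (∀ j (h : x j ∈ coordRing x), ρ ⟨x j, h⟩ = p j) →
  (∀ i, ∑ j, δ j * grad p (f i) j = 0) →
  ∃ d : coordRing x →ₗ[ℂ] F, (∀ a b, d (a * b) = ρ a * d b + ρ b * d a) ∧
    ∀ j (h : x j ∈ coordRing x), d ⟨x j, h⟩ = δ j * p j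

/-- RKT: the generic rank. (If the gradients were dependent there would be more than `e = n - r`
linearly independent vectors `δ ∈ K^n` orthogonal to them, each gives a derivation of `K` by `DRT`
(`ρ` the inclusion, extended to the field of fractions `K`), and the space of derivations has the
dimension `e` (`cTBAS`).) -/
def S_RKT : Prop := ∀ {e n r : ℕ} {K : Type} [Field K] [Algebra ℂ K] (f : Fin r → Laurent n)
  (x : Fin n → K), IsTCI e f x → LinearIndependent K fun i => grad x (f i)

def M_RKT : Prop := S_DRT → S_RKT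

/-- UMT: unit minors at the prime divisors of `Z`. (Residue field `κ` of `v.OV`, of transcendence
degree `e - 1`; `ρ : coordRing x → κ`, `p_j` = residue of `x_j`. If all `r × r` minors of the
gradients at `p` vanish there are `e + 1` linearly independent `δ ∈ κ^n` orthogonal to the gradients
at `p`; `DRT` gives derivations `d_δ` along `ρ`, which extend to the local ring at `P`, that is to
`v.OV` (`cOLC`). With a uniformizer `t`, the `δ` with `d_δ t = 0` are a space of dimension at least
`e`, and those `d_δ` are derivations of `κ`, linearly independent because `d_δ (x_j) = δ_j p_j`; but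
the derivations of `κ` have the dimension `e - 1`. So some minor at `p` is not zero, and the minor at
`x` has the order `0 = psi f 0`.) -/
def S_UMT : Prop := ∀ {e n r : ℕ} {K : Type} [Field K] [Algebra ℂ K] (f : Fin r → Laurent n)
  (x : Fin n → K), IsTCI e f x → ∀ (v : DivVal e K) (P : Ideal (coordRing x)),
  IsPrimeDivisor (coordRing x) v P → ∃ σ : Fin r ⊕ Fin e ≃ Fin n, UnitMinor f x v σ

def M_UMT : Prop := S_MON → S_DRT → S_UMT

/-- BHT: for valuations with a centre in the torus `Big` means that the centre is a prime divisor.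
(`→`: `cHT1` for the germ with the ring `coordRing x`. `←`: `v.OV` is the local ring at `P`
(`cOLC`), so its residue field, of transcendence degree `e - 1`, is generated by the residues of
the monomials; as in `RES` some `e - 1` of the residues of the `x_j` are independent.) -/
def S_BHT : Prop := ∀ {e n r : ℕ} {K : Type} [Field K] [Algebra ℂ K] (f : Fin r → Laurent n)
  (x : Fin n → K), IsTCI e f x → ∀ (v : DivVal e K) (P : Ideal (coordRing x)),
  HasCentre (coordRing x) v P → (P.height = 1 ↔ Big x v)

def M_BHT : Prop := S_MON → S_BHT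

/-- TOT: the orders of the residue form at the valuations with weight zero. `v` is nonnegative on
`coordRing x`, let `P` be the centre. Height one: `UMT`, `EQ0a`, `EQ0b` (and `minor • ω = ± dlogs`,
`cFSM`), `BHT`. Otherwise let `m ⊇ P` be maximal, `k, g` from `IsTerminal` for `ω`: for the prime
divisors `v'` through `m` one has `v'.logOrd ω = 1`, `v'.formOrd ω = 0` (`cTXT`), so `v'.ord g = 0`;
by `cLOC` for `g` and `g⁻¹` the function `g` is a unit of the local ring at `m`, `v.ord g = 0`, and
`k v.formOrd ω > 0`, `v.logOrd ω ≥ 2`, and `Big` is false by `BHT`. -/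
def S_TOT : Prop := ∀ {e n r : ℕ} {K : Type} [Field K] [Algebra ℂ K] (f : Fin r → Laurent n)
  (x : Fin n → K), IsTCI e f x → ∀ v : DivVal e K, wt x v = 0 → T0 f x v

def M_TOT : Prop := S_MON → S_RKT → S_UMT → S_BHT → S_EQ0a → S_EQ0b → S_TOT

/-- IRT: irreducibility. (`g` with `ev x g = 0`: let `P` be the centre of `v`, `p0` a closed point in
its zero set, `h` with `ev p0 h ≠ 0`, `h g ∈ (f)`; so `v.ord (ev x h) = 0`, hence `ev p h ≠ 0` and
`ev p g = 0`. So the kernel of `ev x` is contained in that of `ev p`; there is a surjection of the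
coordinate rings `coordRing x → coordRing p`, and by the transcendence degrees it is injective.) -/
def S_IRT : Prop := ∀ {e n r : ℕ} {K : Type} [Field K] [Algebra ℂ K] (f : Fin r → Laurent n)
  (x : Fin n → K), IsTCI e f x → ∀ v : DivVal e K, wt x v = 0 → IR f x v

def M_IRT : Prop := S_MON → S_IRT

/-- TSY: the abstract data. (`MIN` for `wt x v ≠ 0`.) -/
def S_TSY : Prop := ∀ {e n r : ℕ} {K : Type} [Field K] [Algebra ℂ K] (f : Fin r → Laurent n)
  (x : Fin n → K), IsTCI e f x → TSys e f x

def M_TSY : Prop := S_MIN → S_RKT → S_TOT → S_IRT → S_TSY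

/-- TRED: the reduction (architect helper92). -/
def S_TRED : Prop := ∀ {e n r : ℕ} {K : Type} [Field K] [Algebra ℂ K] (f : Fin r → Laurent n)
  (x : Fin n → K), TSys e f x → ∀ F : FanB f,
  Algebra.trdeg ℂ (IntermediateField.adjoin ℂ
    {z | ∃ a ∈ F.A, ∃ a' ∈ F.A, z = mon x (F.b a - F.b a')}) = (e : Cardinal) →
  ∃ (n' r' : ℕ) (f' : Fin r' → Laurent n') (x' : Fin n' → K), n' < n ∧ TSys e f' x'

/-- TMAIN: as `MAIN`. -/
def S_TMAIN : Prop := ∀ {e n r : ℕ} {K : Type} [Field K] [Algebra ℂ K] (f : Fin r → Laurent n)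
  (x : Fin n → K), TSys e f x → MMC e K

def M_TMAIN : Prop := S_FAN → S_TLOG → S_MOD → S_KEY → S_TER → S_SEM → S_NEF → S_TRED → S_FIB →
  S_TMAIN

end

end MMCI
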