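import Pool.Agent.MMCI.FinalB
import Pool.Agent.MMCI.StT
import Pool.Agent.MMCI.K_TLOG
import Pool.Agent.MMCI.K_DRT
import Pool.Agent.MMCI.K_RKT
import Pool.Agent.MMCI.K_BHT
import Pool.Agent.MMCI.K_TOT
import Pool.Agent.MMCI.K_IRT
import Pool.Agent.MMCI.K_TSY
import Pool.Agent.MMCI.K_TMAIN

/-!
# Assembly of stage 2
-/

namespace MMCI

open MldGeo

/-- The theorem, from the blocks FAN and RED. -/
theorem assembleT (umt : M_UMT) (fan : S_FAN) (faa : S_FAA) (red : S_TRED) {e n r : ℕ} {K : Type}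
    [Field K] [Algebra ℂ K] (f : Fin r → Laurent n) (x : Fin n → K)
    (h : IsNCI e f x ∨ IsTCI e f x) :
    ∃ Y : ProjModel K, Y.Terminal e ∧
      ((Y.Semiample e ∧ Y.Nef e) ∨ (Y.MoriFibre e ∧ FineInterior f = ∅)) := by
  have mon : S_MON := t_MON
  have bas' : S_BAS := t_BAS mon
  have eli' : S_ELI := t_ELI mon
  have omg' : S_OMG := t_OMG mon bas' t_PLU
  have eq1a' : S_EQ1a := t_EQ1a mon bas' t_IND t_FRD
  have eq1b' : S_EQ1b := t_EQ1b mon bas' eli' t_FRD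
  have unt' : S_UNT := t_UNT mon bas' t_SOL t_DK t_LOB
  have eq0a' : S_EQ0a := t_EQ0a mon bas' t_IND t_FRD
  have eq0c' : S_EQ0c := t_EQ0c mon bas' eli' t_IND t_FRD
  have eq0b' : S_EQ0b := t_EQ0b mon bas' t_SOL t_DK t_LOB eq0c'
  have bnd' : S_BND := t_BND mon bas' t_FRD
  have log' : S_TLOG := t_TLOG omg' eq1a' eq1b' unt' eq0a' eq0b' bnd'
  have min' : S_MIN := t_MIN mon t_NUL
  have sys' : S_SYS := t_SYS t_NUL min'
  have key' : S_KEY := t_KEY mon (t_RES mon)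
  have ter' : S_TER := t_TER mon t_SCA key'
  have sem' : S_SEM := t_SEM mon t_SCA key'
  have drt : S_DRT := t_DRT
  have rkt : S_RKT := t_RKT drt
  have umt' : S_UMT := umt mon drt
  have bht : S_BHT := t_BHT mon
  have tot : S_TOT := t_TOT mon rkt umt' bht eq0a' eq0b'
  have tsy : S_TSY := t_TSY min' rkt tot (t_IRT mon)
  have hS : TSys e f x := by
    rcases h with h | h
    · have h1 := sys' f x h
      exact { toReg := h1.toReg, nd := fun v => Or.inl (h1.nd v) }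
    · exact tsy f x h
  by_cases hF : (FineInterior f).Nonempty
  · have hn : 0 < n := by
      have h1 := hS.dim_eq
      have h2 := hS.pos
      omega
    obtain ⟨ω, hω⟩ := log' f x hS
    obtain ⟨F⟩ := faa f hn hS.f_ne hF
    obtain ⟨Y, hY⟩ := S_MOD_holds x hS.ne hS.gen hS.dim hS.pos F.A F.nonempty F.full
    have h1 := ter' f x hS.toBase F.toFan ω Y hω hY
    have h2 := sem' f x hS.toBase F ω Y hω hY
    exact ⟨Y, h1, Or.inl ⟨h2, S_NEF_holds Y hS.dim hS.pos hY.normal h2⟩⟩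
  · obtain ⟨Y, h1, h2⟩ := t_TMAIN fan log' S_MOD_holds key' ter' sem' S_NEF_holds red
      S_FIB_holds f x hS
    exact ⟨Y, h1, h2.imp_right fun h3 => ⟨h3, Set.not_nonempty_iff_eq_empty.1 hF⟩⟩

end MMCI
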