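import Pool.Agent.MMCI.StT2
import Pool.Agent.MMCI.K_TLOG
import Pool.Agent.MMCI.K_TOT

/-!
# Block T: the assembly with the simplified abstract data
-/

set_option autoImplicit false

namespace MMCI

open MldGeo MldGeo.DivVal

/-- The residue form. -/
theorem t_TLOG2 (hOMG : S_OMG) (hEQ1a : S_EQ1a) (hEQ1b : S_EQ1b) (hUNT : S_UNT) (hEQ0a : S_EQ0a)
    (hEQ0b : S_EQ0b) (hBND : S_BND) : S_TLOG2 := by
  intro e n r K _ _ f x hS
  obtain ⟨m, rfl⟩ : ∃ m, e = m + 1 := ⟨e - 1, by have := hS.pos; omega⟩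
  have hR : Reg (m + 1) f x := hS.toReg
  obtain ⟨ω, hω, h⟩ := hOMG f x hR
  have hkey := TLOG.key f x hS.dim ω hω h
  have hnd : ∀ v : DivVal (m + 1) K, wt x v ≠ 0 →
      ∃ σ : Fin r ⊕ Fin (m + 1) ≃ Fin n, UnitMinor f x v σ := by
    intro v hv
    rcases hS.nd2 v with h1 | h1
    · exact h1
    · exact absurd h1.1 hv
  have hnd0 : ∀ v : DivVal (m + 1) K, wt x v = 0 →
      1 ≤ v.logOrd ω ∧ (v.logOrd ω = 1 ↔ Big x v) := by
    intro v hv
    rcases hS.nd2 v with ⟨σ, hσ⟩ | h1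
    · have h1 := hEQ0a f x hR v σ hσ hv
      have h2 := hkey v σ hσ
      rw [hv, TLOG.psi_zero, zero_add] at h2
      rw [← h2]
      exact ⟨h1.1, h1.2, fun h3 => hEQ0b f x hR v σ hσ hv h3⟩
    · have h2 := h1.2.2 ω ⟨hω, h⟩
      refine ⟨by omega, fun h3 => by omega, fun h3 => absurd h3 h1.2.1⟩
  refine ⟨ω, ⟨hω, ?_, ?_, fun v hv => (hnd0 v hv).1, fun v hv => (hnd0 v hv).2, ?_, ?_⟩⟩
  · intro v hv
    obtain ⟨σ, hσ⟩ := hnd v hv
    have h1 := (hEQ1a f x hR v σ hσ hv).1
    have h2 := hkey v σ hσ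
    omega
  · intro v hv
    obtain ⟨σ, hσ⟩ := hnd v hv
    have h1 := (hEQ1a f x hR v σ hσ hv).2
    have h2 := hkey v σ hσ
    constructor
    · intro h3
      apply h1
      omega
    · intro h3
      have h4 := hEQ1b f x hR v σ hσ hv h3
      omega
  · intro v hv hB
    obtain ⟨σ, hσ⟩ := hnd v hv
    exact hUNT f x hR v σ hσ hv hB
  · intro v hv s ν c c0 hc0 hc hl he hs
    obtain ⟨σ, hσ⟩ := hnd v hv
    exact hBND f x hR v σ hσ s ν c c0 hc0 hc hl he hs


/-- The abstract data for complete intersections with terminal singularities. -/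
theorem t_TSY2 (hMON : S_MON) (hMIN : S_MIN) (hRKT : S_RKT) (hUMT : S_UMT) (hBHT : S_BHT)
    (hTOT : S_TOT) : S_TSY2 := by
  intro e n r K _ _ f x hf
  exact
    { dim_eq := hf.dim_eq
      pos := hf.pos
      f_ne := hf.f_ne
      ne := hf.ne
      gen := hf.gen
      dim := hf.dim
      zero := hf.zero
      rank := hRKT f x hf
      nd2 := fun v => by
        by_cases h : wt x v = 0
        · have hmon := ((hMON (e := e) x hf.ne).2.2.2.2 v).1
          have hge := TOT.ge_of_wt hmon h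
          have hc := TOT.hasCentre v (coordRing x) hge
          by_cases hP : (TOT.centre v (coordRing x) hge).height = 1
          · exact Or.inl (hUMT f x hf v _ ⟨hc.1, hP, hc.2.1, hc.2.2⟩)
          · have hB : ¬ Big x v := fun hB => hP ((hBHT f x hf v _ hc).2 hB)
            refine Or.inr ⟨h, hB, fun ω hω => ?_⟩
            obtain ⟨h1, h2⟩ := hTOT f x hf v h ω hω
            have h3 : v.logOrd ω ≠ 1 := fun h4 => hB (h2.1 h4)
            omega
        · exact Or.inl (hMIN f x hf.dim_eq hf.ne hf.f_ne hf.zero v (hf.nondeg _ h)) }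

/-- TMAIN2. -/
theorem t_TMAIN2 (hFAN : S_FAN) (hLOG : S_TLOG2) (hMOD : S_MOD) (hKEY : S_KEY) (hTER : S_TER)
    (hSEM : S_SEM) (hNEF : S_NEF) (hRED : S_TRED2) (hFIB : S_FIB) : S_TMAIN2 := by
  have key : ∀ (N : ℕ) {e n r : ℕ} {K : Type} [Field K] [Algebra ℂ K] (f : Fin r → Laurent n)
      (x : Fin n → K), n = N → TSys2 e f x → MMC e K := by
    intro N
    induction N using Nat.strong_induction_on with
    | _ N ih =>
      intro e n r K _ _ f x hN hS
      have hn : 0 < n := by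
        have h1 := hS.dim_eq
        have h2 := hS.pos
        omega
      obtain ⟨ω, hω⟩ := hLOG f x hS
      rcases hFAN f hn hS.f_ne with ⟨⟨F⟩⟩ | ⟨⟨F⟩⟩
      · obtain ⟨Y, hY⟩ := hMOD x hS.ne hS.gen hS.dim hS.pos F.A F.nonempty F.full
        have h1 := hTER f x hS.toBase F.toFan ω Y hω hY
        have h2 := hSEM f x hS.toBase F ω Y hω hY
        exact ⟨Y, h1, Or.inl ⟨h2, hNEF Y hS.dim hS.pos hY.normal h2⟩⟩
      · have hle : Algebra.trdeg ℂ (IntermediateField.adjoin ℂ
            {z | ∃ a ∈ F.A, ∃ a' ∈ F.A, z = mon x (F.b a - F.b a')}) ≤ (e : Cardinal) := by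
          rw [← hS.dim]
          exact trdeg_le_of_injective (IntermediateField.val _) (RingHom.injective _)
        rcases hle.lt_or_eq with hlt | heq
        · obtain ⟨Y, hY⟩ := hMOD x hS.ne hS.gen hS.dim hS.pos F.A F.nonempty F.full
          have h1 := hTER f x hS.toBase F.toFan ω Y hω hY
          refine ⟨Y, h1, Or.inr (hFIB f x hS.toBase F ω Y hω.ne hY ?_ hlt)⟩
          intro i v P hP a ha haM
          obtain ⟨m, hm, hPm⟩ := Ideal.exists_le_maximal P hP.1.ne_top
          obtain ⟨a', ha', h3⟩ := hKEY f x hS.toBase F.toFan ω Y hω hY i m hm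
          obtain ⟨h4, -, h5⟩ := h3 v P ⟨hP.1, hP.2.2.1, hP.2.2.2⟩ hPm
          have h6 := h5.2 hP.2.1
          have h7 := F.cons _ _ _ haM h4
          rw [h7]
          omega
        · obtain ⟨n', r', f', x', h1, h2⟩ := hRED f x hS F heq
          exact ih n' (by omega) f' x' rfl h2
  intro e n r K _ _ f x hS
  exact key n f x rfl hS


end MMCI
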