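import Pool.Agent.MMCI.StT
import Pool.Agent.MMCI.Tools
import Pool.Agent.MMCI.TorLib
import Pool.Agent.MMCI.K_DRT

/-!
# UMT: unit minors at the prime divisors of `Z`
-/

set_option autoImplicit false

namespace MMCI

open MldGeo MldGeo.DivVal

noncomputable section

namespace UMT

/-- A matrix with linearly independent rows has a nonzero maximal minor. -/
theorem exists_minor {r n : ℕ} {K : Type} [Field K] (G : Matrix (Fin r) (Fin n) K)
    (h : LinearIndependent K G.row) :
    ∃ g : Fin r → Fin n, Function.Injective g ∧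
      (Matrix.of fun i j : Fin r => G i (g j)).det ≠ 0 := by
  obtain ⟨κ, a, ha, hsp, hli⟩ := exists_linearIndependent' K G.col
  have : Finite κ := Finite.of_injective a ha
  have : Fintype κ := Fintype.ofFinite κ
  have hrk : G.rank = r := by
    have := LinearIndependent.rank_matrix h
    rwa [Fintype.card_fin] at this
  have hcard : Fintype.card κ = r := by
    have h1 := linearIndependent_iff_card_eq_finrank_span.mp hli
    rw [Set.finrank, hsp, ← Matrix.rank_eq_finrank_span_cols, hrk] at h1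
    exact h1
  obtain ⟨φ⟩ : Nonempty (Fin r ≃ κ) := by
    rw [← hcard]
    exact ⟨(Fintype.equivFin κ).symm⟩
  refine ⟨a ∘ φ, ha.comp φ.injective, ?_⟩
  have h2 : LinearIndependent K (Matrix.of fun i j : Fin r => G i ((a ∘ φ) j)).col :=
    hli.comp φ φ.injective
  have h3 := Matrix.linearIndependent_cols_iff_isUnit.1 h2
  rw [Matrix.isUnit_iff_isUnit_det] at h3
  exact h3.ne_zero

/-- An injective family extends to a bijection. -/
theorem exists_equiv {r e n : ℕ} (hn : n = r + e) (g : Fin r → Fin n)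
    (hg : Function.Injective g) :
    ∃ σ : Fin r ⊕ Fin e ≃ Fin n, ∀ j, σ (Sum.inl j) = g j := by
  classical
  have h1 : Fintype.card (Fin r) = Fintype.card {a : Fin n // a ∈ Set.range g} := by
    refine Fintype.card_congr (Equiv.ofInjective g hg)
  have h2 : Fintype.card {a : Fin n // ¬ a ∈ Set.range g} = e := by
    rw [Fintype.card_subtype_compl, ← h1, Fintype.card_fin, Fintype.card_fin]
    omega
  obtain ⟨ψ⟩ : Nonempty (Fin e ≃ {a : Fin n // ¬ a ∈ Set.range g}) := by
    rw [← h2]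
    exact ⟨(Fintype.equivFin _).symm⟩
  refine ⟨(Equiv.sumCongr (Equiv.ofInjective g hg) ψ).trans
    (Equiv.sumCompl fun a : Fin n => a ∈ Set.range g), fun j => ?_⟩
  simp

/-- a linear map which kills the kernel factors -/
theorem factor {A B C : Type} [AddCommGroup A] [Module ℂ A] [AddCommGroup B] [Module ℂ B]
    [AddCommGroup C] [Module ℂ C] (q : A →ₗ[ℂ] B) (hq : Function.Surjective q) (D : A →ₗ[ℂ] C)
    (h : ∀ a, q a = 0 → D a = 0) : ∃ d : B →ₗ[ℂ] C, ∀ a, d (q a) = D a := by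
  have hle : LinearMap.ker q ≤ LinearMap.ker D := fun a ha => h a ha
  refine ⟨((LinearMap.ker q).liftQ D hle) ∘ₗ (q.quotKerEquivOfSurjective hq).symm.toLinearMap, ?_⟩
  intro a
  have h1 : (q.quotKerEquivOfSurjective hq).symm (q a) = Submodule.Quotient.mk a := by
    rw [LinearEquiv.symm_apply_eq]
    rfl
  rw [LinearMap.comp_apply, LinearEquiv.coe_coe, h1]
  rfl

open KaehlerDifferential in
/-- A derivation of a domain with values in its field of fractions, as a linear form. -/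
theorem ext_der {A κ : Type} [CommRing A] [IsDomain A] [Algebra ℂ A] [Field κ] [Algebra ℂ κ]
    [Algebra A κ] [IsScalarTower ℂ A κ] [IsFractionRing A κ] (d : A →ₗ[ℂ] κ)
    (hd : ∀ a b, d (a * b) = algebraMap A κ a * d b + algebraMap A κ b * d a) :
    ∃ l : Ω[κ⁄ℂ] →ₗ[κ] κ, ∀ a : A, l (KaehlerDifferential.D ℂ κ (algebraMap A κ a)) = d a := by
  have h2 : Algebra.FormallyEtale A κ :=
    Algebra.FormallyEtale.of_isLocalization (nonZeroDivisors A)
  let δ : Derivation ℂ A κ := Derivation.mk' d fun a b => by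
    rw [hd, Algebra.smul_def, Algebra.smul_def]
  let φ : Ω[A⁄ℂ] →ₗ[A] κ := δ.liftKaehlerDifferential
  refine ⟨(LinearMap.liftBaseChange κ φ) ∘ₗ
    (tensorKaehlerEquivOfFormallyEtale ℂ A κ).symm.toLinearMap, fun a => ?_⟩
  have h3 := tensorKaehlerEquivOfFormallyEtale_symm_D_algebraMap ℂ A κ a
  change (LinearMap.liftBaseChange κ φ) ((tensorKaehlerEquivOfFormallyEtale ℂ A κ).symm
    (KaehlerDifferential.D ℂ κ (algebraMap A κ a))) = d a
  rw [h3, LinearMap.liftBaseChange_tmul, one_smul]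
  exact Derivation.liftKaehlerDifferential_comp_D δ a

/-- The dimension of the space of differentials. -/
theorem finrank_omega {κ : Type} [Field κ] [Algebra ℂ κ] {k : ℕ}
    (h : Algebra.trdeg ℂ κ = (k : Cardinal)) :
    Module.Finite κ (Ω[κ⁄ℂ]) ∧ Module.finrank κ (Ω[κ⁄ℂ]) = k := by
  obtain ⟨s, hs⟩ := exists_isTranscendenceBasis ℂ κ
  have hcard : Cardinal.mk s = Cardinal.mk (Fin k) := by
    rw [hs.cardinalMk_eq_trdeg, h, Cardinal.mk_fin]
  obtain ⟨φ⟩ := Cardinal.eq.1 hcard
  have h1 : AlgebraicIndependent ℂ fun l : Fin k => ((φ.symm l : s) : κ) :=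
    hs.1.comp φ.symm φ.symm.injective
  obtain ⟨h2, h3⟩ := cTBAS h _ h1
  have b := Module.Basis.mk h2 h3.ge
  have hfin : Module.Finite κ (Ω[κ⁄ℂ]) := Module.Finite.of_basis b
  exact ⟨hfin, by rw [Module.finrank_eq_card_basis b, Fintype.card_fin]⟩

/-- adding one linear condition -/
theorem finrank_inf {κ V U : Type} [Field κ] [AddCommGroup V] [Module κ V] [Module.Finite κ V]
    [AddCommGroup U] [Module κ U] (A : V →ₗ[κ] U) (B : V →ₗ[κ] κ) :
    Module.finrank κ (LinearMap.ker A) ≤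
      Module.finrank κ (LinearMap.ker A ⊓ LinearMap.ker B : Submodule κ V) + 1 := by
  have h1 := Submodule.finrank_sup_add_finrank_inf_eq (LinearMap.ker A) (LinearMap.ker B)
  have h2 := LinearMap.finrank_range_add_finrank_ker B
  have h3 : Module.finrank κ (LinearMap.range B) ≤ 1 := by
    have := Submodule.finrank_le (LinearMap.range B)
    rwa [Module.finrank_self] at this
  have h4 := Submodule.finrank_le (LinearMap.ker A ⊔ LinearMap.ker B)
  omega

/-- the residue field of a divisorial valuation with the centre `P` -/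
theorem trdeg_quot {m : ℕ} {K : Type} [Field K] [Algebra ℂ K]
    (hK : Algebra.trdeg ℂ K = ((m + 1 : ℕ) : Cardinal)) (R : Subalgebra ℂ K)
    (v : DivVal (m + 1) K) (P : Ideal R) [hP : P.IsPrime] (h0 : ∀ a : R, 0 ≤ v.ord a)
    (h1 : ∀ a : R, a ∈ P ↔ a = 0 ∨ 0 < v.ord a) :
    Algebra.trdeg ℂ (R ⧸ P) ≤ (m : Cardinal) := by
  by_contra hlt
  push Not at hlt
  obtain ⟨s, hs⟩ := exists_isTranscendenceBasis ℂ (R ⧸ P)
  rw [← hs.cardinalMk_eq_trdeg] at hlt
  have h2 : ((m + 1 : ℕ) : Cardinal) ≤ Cardinal.mk s := by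
    rw [Nat.cast_add, Nat.cast_one, ← Cardinal.succ_natCast]
    exact Order.succ_le_of_lt hlt
  have h3 : Cardinal.mk (Fin (m + 1)) ≤ Cardinal.mk s := by
    rwa [Cardinal.mk_fin]
  obtain ⟨φ⟩ := Cardinal.le_def _ _ |>.1 h3
  have h4 : AlgebraicIndependent ℂ fun l : Fin (m + 1) => ((φ l : s) : R ⧸ P) :=
    hs.1.comp φ φ.injective
  have h5 : ∀ l : Fin (m + 1), ∃ y : R, Ideal.Quotient.mkₐ ℂ P y = ((φ l : s) : R ⧸ P) := fun l =>
    Ideal.Quotient.mkₐ_surjective ℂ P _
  choose y hy using h5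
  have h6 : ∀ q : MvPolynomial (Fin (m + 1)) ℂ, q ≠ 0 →
      MvPolynomial.aeval (fun l => (y l : K)) q ≠ 0 ∧
      v.ord (MvPolynomial.aeval (fun l => (y l : K)) q) = 0 := by
    intro q hq
    have h7 : MvPolynomial.aeval (fun l => (y l : K)) q =
        ((MvPolynomial.aeval y q : R) : K) := by
      have := MvPolynomial.comp_aeval_apply y R.val q
      exact this.symm
    have h8 : Ideal.Quotient.mkₐ ℂ P (MvPolynomial.aeval y q) ≠ 0 := by
      rw [MvPolynomial.comp_aeval_apply]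
      have h9 : (fun i => Ideal.Quotient.mkₐ ℂ P (y i)) = fun l => ((φ l : s) : R ⧸ P) :=
        funext hy
      rw [h9]
      intro h10
      exact hq ((algebraicIndependent_iff.1 h4) q h10)
    have h11 : (MvPolynomial.aeval y q : R) ∉ P := fun h => h8 (Ideal.Quotient.eq_zero_iff_mem.2 h)
    rw [h1] at h11
    push Not at h11
    rw [h7]
    exact ⟨fun h => h11.1 (Subtype.ext h), le_antisymm h11.2 (h0 _)⟩
  let v' : DivVal (m + 2) K := { v with res := ⟨fun l => (y l : K), h6⟩ }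
  obtain ⟨⟨t, u, hF⟩, h12⟩ := cFRA v'
  have h13 := (h12 t u hF).cardinalMk_le_trdeg
  rw [hK, Cardinal.mk_fin] at h13
  have h14 : m + 2 ≤ m + 1 := by exact_mod_cast h13
  omega

variable {n : ℕ} {F : Type} [Field F] [Algebra ℂ F]

/-- the logarithmic derivative in the direction of one coordinate -/
def pd (g : Laurent n) (j : Fin n) : Laurent n :=
  g.coeff.sum fun m c => AddMonoidAlgebra.single m (c * (m j : ℂ))

theorem ev_pd (x : Fin n → F) (g : Laurent n) (j : Fin n) : ev x (pd g j) = grad x g j := by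
  unfold pd grad
  rw [← DRT.evL_apply, Finsupp.sum, map_sum, Finsupp.sum]
  refine Finset.sum_congr rfl fun m _ => ?_
  rw [DRT.evL_apply, DRT.ev_single, map_mul, map_intCast]

theorem psi_zero {r : ℕ} (f : Fin r → Laurent n) : psi f 0 = 0 := by
  unfold psi minOn
  refine Finset.sum_eq_zero fun i _ => ?_
  have h1 : ∀ m : Fin n → ℤ, pair 0 m = 0 := by
    intro m
    unfold pair
    exact Finset.sum_eq_zero fun j _ => by rw [Pi.zero_apply, zero_mul]
  have h2 : (fun m => pair 0 m) '' ((f i).coeff.support : Set (Fin n → ℤ)) ⊆ {0} := by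
    rintro _ ⟨m, _, rfl⟩
    exact h1 m
  rcases Set.subset_singleton_iff_eq.1 h2 with h3 | h3
  · rw [h3]
    simp
  · rw [h3]
    simp

open Tor in
theorem main {m n r : ℕ} {K : Type} [Field K] [Algebra ℂ K] (f : Fin r → Laurent n)
    (x : Fin n → K) (hZ : IsTCI (m + 1) f x) (v : DivVal (m + 1) K) (P : Ideal (coordRing x))
    [hP : P.IsPrime] (hht : P.height = 1) (hord : ∀ a : coordRing x, 0 ≤ v.ord a)
    (hmem : ∀ a : coordRing x, a ∈ P ↔ a = 0 ∨ 0 < v.ord a)
    (κ : Type) [Field κ] [Algebra ℂ κ] [Algebra (coordRing x ⧸ P) κ]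
    [IsScalarTower ℂ (coordRing x ⧸ P) κ] [IsFractionRing (coordRing x ⧸ P) κ] :
    ∃ σ : Fin r ⊕ Fin (m + 1) ≃ Fin n, UnitMinor f x v σ := by
  have hx := hZ.ne
  let ρ : coordRing x →ₐ[ℂ] κ :=
    (IsScalarTower.toAlgHom ℂ (coordRing x ⧸ P) κ).comp (Ideal.Quotient.mkₐ ℂ P)
  have hρ0 : ∀ a : coordRing x, ρ a = 0 ↔ a ∈ P := by
    intro a
    change algebraMap (coordRing x ⧸ P) κ (Ideal.Quotient.mk P a) = 0 ↔ a ∈ P
    rw [map_eq_zero_iff _ (IsFractionRing.injective (coordRing x ⧸ P) κ),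
      Ideal.Quotient.eq_zero_iff_mem]
  let p : Fin n → κ := fun j => ρ ⟨x j, var_mem x j⟩
  have hp : ∀ j (h : x j ∈ coordRing x), ρ ⟨x j, h⟩ = p j := fun j h => rfl
  obtain ⟨hp0, hρev⟩ := map_ev hx ρ hp
  -- the transcendence degree
  have htr : Algebra.trdeg ℂ κ ≤ (m : Cardinal) := by
    have h1 := trdeg_quot hZ.dim (coordRing x) v P hord hmem
    have h2 : Algebra.IsAlgebraic (coordRing x ⧸ P) κ :=
      IsLocalization.isAlgebraic _ (nonZeroDivisors (coordRing x ⧸ P))
    have h4 : FaithfulSMul (coordRing x ⧸ P) κ :=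
      (faithfulSMul_iff_algebraMap_injective _ _).2 (IsFractionRing.injective (coordRing x ⧸ P) κ)
    have h3 := trdeg_add_eq ℂ (coordRing x ⧸ P) (A := κ)
    rw [trdeg_eq_zero_iff.2 h2, add_zero] at h3
    rw [← h3]
    exact h1
  obtain ⟨k, hk⟩ : ∃ k : ℕ, Algebra.trdeg ℂ κ = (k : Cardinal) :=
    Cardinal.lt_aleph0.1 (htr.trans_lt (Cardinal.natCast_lt_aleph0))
  have hkm : k ≤ m := by
    rw [hk] at htr
    exact_mod_cast htr
  obtain ⟨hfin, hdim⟩ := finrank_omega hk
  -- the local ring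
  obtain ⟨M, hM, hPM⟩ := Ideal.exists_le_maximal P hP.ne_top
  have holc : ∀ a : K, v.Ge 0 a → ∃ r s : coordRing x, s ∉ P ∧ a * (s : K) = r :=
    cOLC (germ hZ M hM) P v ⟨hP, hht, hord, hmem⟩
  have hord0 : ∀ s : coordRing x, s ∉ P → (s : K) ≠ 0 ∧ v.ord s = 0 := by
    intro s hs
    rw [hmem] at hs
    push Not at hs
    exact ⟨fun h => hs.1 (Subtype.ext h), le_antisymm hs.2 (hord s)⟩
  obtain ⟨t, ht0, ht1⟩ : ∃ t : coordRing x, (t : K) ≠ 0 ∧ v.ord t = 1 := by
    obtain ⟨t0, h1, h2⟩ := v.unif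
    obtain ⟨r', s, hs, hrs⟩ := holc t0 (Or.inr (by omega))
    obtain ⟨hs0, hs1⟩ := hord0 s hs
    refine ⟨r', ?_, ?_⟩
    · rw [← hrs]
      exact mul_ne_zero h1 hs0
    · rw [← hrs, v.ord_mul _ _ h1 hs0, h2, hs1, add_zero]
  have htP : t ∈ P := (hmem t).2 (Or.inr (by omega))
  obtain ⟨T, hT⟩ := DRT.E_surj hx t
  -- derivations which kill `t` come from the residue field
  let A : Matrix (Fin r) (Fin n) κ := Matrix.of fun i j => grad p (f i) j
  let B : (Fin n → κ) →ₗ[κ] κ := ∑ j, (grad p T j) • LinearMap.proj j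
  have hB : ∀ δ : Fin n → κ, B δ = ∑ j, δ j * grad p T j := by
    intro δ
    rw [LinearMap.sum_apply]
    refine Finset.sum_congr rfl fun j _ => ?_
    rw [LinearMap.smul_apply, LinearMap.proj_apply, smul_eq_mul, mul_comm]
  let Ψ : Module.Dual κ (Ω[κ⁄ℂ]) →ₗ[κ] (Fin n → κ) :=
    LinearMap.pi fun j => Module.Dual.eval κ (Ω[κ⁄ℂ]) (dlog (p j))
  have hle : LinearMap.ker A.mulVecLin ⊓ LinearMap.ker B ≤ LinearMap.range Ψ := by
    rintro δ ⟨hδA, hδB⟩
    have h1 : ∀ i, ∑ j, δ j * grad p (f i) j = 0 := by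
      intro i
      have h2 := congrFun (LinearMap.mem_ker.1 hδA) i
      rw [Matrix.mulVecLin_apply, Matrix.mulVec, Pi.zero_apply] at h2
      rw [← h2]
      exact Finset.sum_congr rfl fun j _ => mul_comm _ _
    obtain ⟨d, hd, hdE⟩ := DRT.der hZ ρ p δ hp h1
    have hdt : d t = 0 := by
      rw [← hT, hdE, ← hB]
      exact hδB
    have hdP : ∀ a ∈ P, d a = 0 := by
      intro a ha
      by_cases ha0 : a = 0
      · rw [ha0, map_zero]
      have ha1 : (a : K) ≠ 0 := fun h => ha0 (Subtype.ext h)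
      have ha2 : 0 < v.ord a := ((hmem a).1 ha).resolve_left ha0
      have h3 : v.Ge 0 ((a : K) / t) := by
        refine Or.inr ?_
        rw [ord_div v ha1 ht0, ht1]
        omega
      obtain ⟨r', s, hs, hrs⟩ := holc _ h3
      have h4 : a * s = t * r' := by
        apply Subtype.ext
        change (a : K) * s = t * r'
        rw [← hrs]
        field_simp
      have h5 := congrArg d h4
      rw [hd, hd, hdt, (hρ0 a).2 ha, (hρ0 t).2 htP, zero_mul, zero_mul, mul_zero, zero_add,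
        zero_add] at h5
      exact (mul_eq_zero.1 h5).resolve_left fun h => hs ((hρ0 s).1 h)
    obtain ⟨d', hd'⟩ := factor (Ideal.Quotient.mkₐ ℂ P).toLinearMap
      (Ideal.Quotient.mkₐ_surjective ℂ P) d fun a ha => hdP a (Ideal.Quotient.eq_zero_iff_mem.1 ha)
    obtain ⟨l, hl⟩ := ext_der (A := coordRing x ⧸ P) (κ := κ) d' (by
      intro a b
      obtain ⟨a, rfl⟩ := Ideal.Quotient.mkₐ_surjective ℂ P a
      obtain ⟨b, rfl⟩ := Ideal.Quotient.mkₐ_surjective ℂ P b
      have h6 := hd' (a * b)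
      have h7 := hd' a
      have h8 := hd' b
      rw [AlgHom.toLinearMap_apply] at h6 h7 h8
      rw [← map_mul, h6, h7, h8, hd]
      rfl)
    refine ⟨l, funext fun j => ?_⟩
    change l (dlog (p j)) = δ j
    have h9 : l (KaehlerDifferential.D ℂ κ (p j)) = d ⟨x j, var_mem x j⟩ :=
      (hl _).trans (hd' _)
    have h10 : d ⟨x j, var_mem x j⟩ = δ j * p j := by
      have h11 : (⟨x j, var_mem x j⟩ : coordRing x) =
          DRT.E hx (AddMonoidAlgebra.single (Pi.single j 1) 1) := by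
        apply Subtype.ext
        rw [DRT.E_coe, DRT.ev_single, DRT.mon_single, zpow_one, map_one, one_mul]
      rw [h11, hdE, ← DRT.dL_apply, DRT.dL_single, DRT.mon_single, zpow_one, map_one, one_mul]
      congr 1
      rw [Finset.sum_eq_single j]
      · rw [Pi.single_eq_same, Int.cast_one, mul_one]
      · intro i _ hij
        rw [Pi.single_eq_of_ne hij, Int.cast_zero, mul_zero]
      · intro hj
        exact absurd (Finset.mem_univ j) hj
    rw [dlog, map_smul, smul_eq_mul, h9, h10, mul_comm (δ j), ← mul_assoc,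
      inv_mul_cancel₀ (hp0 j), one_mul]
  have h4 : Module.finrank κ (LinearMap.ker A.mulVecLin ⊓ LinearMap.ker B :
      Submodule κ (Fin n → κ)) ≤ k := by
    refine (Submodule.finrank_mono hle).trans ((LinearMap.finrank_range_le Ψ).trans ?_)
    rw [Subspace.dual_finrank_eq, hdim]
  have h5 := LinearMap.finrank_range_add_finrank_ker A.mulVecLin
  rw [Module.finrank_fin_fun] at h5
  have h6 : A.rank = Module.finrank κ (LinearMap.range A.mulVecLin) := rfl
  have h7 : r ≤ A.rank := by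
    have h8 := hZ.dim_eq
    have h9 := finrank_inf A.mulVecLin B
    omega
  rw [Matrix.rank_eq_finrank_span_row] at h7
  have h8 : LinearIndependent κ A.row := by
    rw [linearIndependent_iff_card_le_finrank_span, Fintype.card_fin]
    exact h7
  -- the minor
  obtain ⟨g, hg, hdet⟩ := exists_minor A h8
  obtain ⟨σ, hσ⟩ := exists_equiv hZ.dim_eq g hg
  let G : Matrix (Fin r) (Fin r) (coordRing x) :=
    Matrix.of fun i j => ⟨ev x (pd (f i) (g j)), ev_mem x _⟩
  have hG1 : ((G.det : coordRing x) : K) = minor f x σ := by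
    change (coordRing x).val G.det = _
    rw [AlgHom.map_det]
    unfold minor
    congr 1
    ext i j
    change ev x (pd (f i) (g j)) = grad x (f i) (σ (Sum.inl j))
    rw [ev_pd, hσ]
  have hG2 : ρ G.det ≠ 0 := by
    rw [AlgHom.map_det]
    intro h
    refine hdet ?_
    rw [← h]
    congr 1
    ext i j
    change grad p (f i) (g j) = ρ ⟨ev x (pd (f i) (g j)), ev_mem x _⟩
    rw [hρev, ev_pd]
  have hG3 : G.det ∉ P := fun h => hG2 ((hρ0 _).2 h)
  obtain ⟨hG4, hG5⟩ := hord0 _ hG3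
  have hwt : wt x v = 0 := by
    funext j
    have h9 := hord ⟨x j, var_mem x j⟩
    have h10 := hord ⟨(x j)⁻¹, inv_mem x j⟩
    change 0 ≤ v.ord (x j) at h9
    change 0 ≤ v.ord (x j)⁻¹ at h10
    rw [ord_inv] at h10
    change v.ord (x j) = 0
    omega
  refine ⟨σ, ?_, ?_⟩
  · rw [← hG1]
    exact hG4
  · rw [← hG1, hG5, hwt, psi_zero]

end UMT

open UMT in
theorem t_UMT : M_UMT := by
  intro _ _ e n r K _ _ f x hZ v P hPD
  obtain ⟨m, rfl⟩ : ∃ m, e = m + 1 := ⟨e - 1, by have := hZ.pos; omega⟩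
  obtain ⟨hP, hht, hord, hmem⟩ := hPD
  exact main f x hZ v P hht hord hmem (FractionRing (coordRing x ⧸ P))

end

end MMCI
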