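import Pool.Agent.MMCI.StT2

/-! # DTC: a determinant -/

set_option autoImplicit false

namespace MMCI

open MldGeo

namespace R_DTC

open Matrix

/-- a matrix with independent rows has a right inverse -/
theorem right_inv {n n' : ℕ} (A : Matrix (Fin n') (Fin n) ℂ) (h : LinearIndependent ℂ A.row) :
    ∃ N : Matrix (Fin n) (Fin n') ℂ, A * N = 1 := by
  have h2 : Function.Injective A.vecMulLinear := by
    have : Function.Injective A.vecMul := Matrix.vecMul_injective_iff.2 h
    exact this
  obtain ⟨f, hf⟩ := LinearMap.exists_leftInverse_of_injective A.vecMulLinear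
    (LinearMap.ker_eq_bot.2 h2)
  refine ⟨(LinearMap.toMatrix' f)ᵀ, ?_⟩
  ext i j
  have h3 := congrFun (LinearMap.congr_fun hf (Pi.single i 1)) j
  have h4 : f (A.vecMulLinear (Pi.single i 1)) = (A i) ᵥ* (LinearMap.toMatrix' f)ᵀ := by
    have h5 : A.vecMulLinear (Pi.single i 1) = A i := by
      change Pi.single i 1 ᵥ* A = A i
      rw [Matrix.single_one_vecMul]
      rfl
    rw [h5]
    change f (A i) = (A i) ᵥ* (LinearMap.toMatrix' f)ᵀ
    rw [Matrix.vecMul_transpose, LinearMap.toMatrix'_mulVec]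
  have h6 : ((A i) ᵥ* (LinearMap.toMatrix' f)ᵀ) j = (Pi.single i 1 : Fin n' → ℂ) j := by
    rw [← h4]
    exact h3
  have h7 : (A * (LinearMap.toMatrix' f)ᵀ) i j = ((A i) ᵥ* (LinearMap.toMatrix' f)ᵀ) j := rfl
  rw [h7, h6, Matrix.one_apply, Pi.single_apply]
  simp only [eq_comm]

/-- the order of the rows -/
def rho {e r g r' : ℕ} (τ : Fin g ⊕ Fin r' ≃ Fin r) :
    (Fin r' ⊕ Fin e) ⊕ Fin g ≃ Fin r ⊕ Fin e where
  toFun := Sum.elim (Sum.elim (fun i => Sum.inl (τ (Sum.inr i))) Sum.inr)
    (fun j => Sum.inl (τ (Sum.inl j)))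
  invFun := Sum.elim (fun a => Sum.elim Sum.inr (fun i => Sum.inl (Sum.inl i)) (τ.symm a))
    (fun l => Sum.inl (Sum.inr l))
  left_inv := by
    rintro ((i | l) | j) <;> simp
  right_inv := by
    rintro (a | l)
    · obtain ⟨b, rfl⟩ := τ.surjective a
      rcases b with j | i <;> simp
    · simp

end R_DTC

open Matrix R_DTC in
theorem t_DTC (hINK : S_INK) : S_DTC := by
  intro e n r g n' r' K _ _ G τ m ν G' χ σ σ' hm hν hpair hdim hG
  have hmC : LinearIndependent ℂ fun (j : Fin n') (k : Fin n) => (m j k : ℂ) := hINK m hm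
  have hνC : LinearIndependent ℂ fun (j : Fin g) (k : Fin n) => (ν j k : ℂ) := hINK ν hν
  let M : Matrix (Fin n') (Fin n) ℂ := Matrix.of fun j k => (m j k : ℂ)
  obtain ⟨N, hN⟩ := right_inv M hmC
  have hN' : ∀ k k', ∑ j, (m k j : ℂ) * N j k' = if k = k' then 1 else 0 := by
    intro k k'
    have := congrFun (congrFun hN k) k'
    rw [Matrix.one_apply] at this
    rw [← this]
    rfl
  have hp : ∀ k j, ∑ i, (m k i : ℂ) * (ν j i : ℂ) = 0 := by
    intro k j
    have h1 : ((pair (ν j) (m k) : ℤ) : ℂ) = 0 := by rw [hpair]; simp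
    unfold pair at h1
    push_cast at h1
    rw [← h1]
    exact Finset.sum_congr rfl fun i _ => mul_comm _ _
  let J := (Fin r' ⊕ Fin e) ⊕ Fin g
  let θ : J ≃ Fin n := (rho τ).trans σ
  let C : Matrix (Fin n) J ℂ := Matrix.of fun x b => Sum.elim (fun s => N x (σ' s))
    (fun j => (ν j x : ℂ)) b
  have hC : (C.submatrix θ id).det ≠ 0 := by
    intro h0
    obtain ⟨y, hy0, hy⟩ := Matrix.exists_mulVec_eq_zero_iff.2 h0
    apply hy0
    have h1 : ∀ x, ∑ b, C x b * y b = 0 := by
      intro x
      have h2 := congrFun hy (θ.symm x)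
      have h3 : (C.submatrix θ id *ᵥ y) (θ.symm x) = ∑ b, C x b * y b := by
        rw [Matrix.mulVec, dotProduct]
        refine Finset.sum_congr rfl fun b _ => ?_
        rw [Matrix.submatrix_apply, Equiv.apply_symm_apply]
        rfl
      rw [← h3, h2]
      rfl
    have h4 : ∀ s : Fin r' ⊕ Fin e, y (Sum.inl s) = 0 := by
      intro s
      have h5 : ∑ x, (m (σ' s) x : ℂ) * ∑ b, C x b * y b = 0 := by
        refine Finset.sum_eq_zero fun x _ => ?_
        rw [h1, mul_zero]
      have h6 : ∑ x, (m (σ' s) x : ℂ) * ∑ b, C x b * y b =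
          ∑ b, (∑ x, (m (σ' s) x : ℂ) * C x b) * y b := by
        simp only [Finset.mul_sum, Finset.sum_mul]
        rw [Finset.sum_comm]
        refine Finset.sum_congr rfl fun b _ => Finset.sum_congr rfl fun x _ => ?_
        ring
      rw [h6, Fintype.sum_sum_type] at h5
      have h7 : ∀ s', ∑ x, (m (σ' s) x : ℂ) * C x (Sum.inl s') = if s = s' then 1 else 0 := by
        intro s'
        have := hN' (σ' s) (σ' s')
        simp only [EmbeddingLike.apply_eq_iff_eq] at this
        exact this
      have h8 : ∀ j, ∑ x, (m (σ' s) x : ℂ) * C x (Sum.inr j) = 0 := fun j => hp _ _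
      simp only [h7, h8, ite_mul, one_mul, zero_mul, Finset.sum_ite_eq, Finset.mem_univ, if_true,
        Finset.sum_const_zero, add_zero] at h5
      exact h5
    have h9 : ∀ j, y (Sum.inr j) = 0 := by
      have h10 : ∑ j, y (Sum.inr j) • (fun k : Fin n => (ν j k : ℂ)) = 0 := by
        funext x
        have h11 := h1 x
        rw [Fintype.sum_sum_type] at h11
        simp only [h4, mul_zero, Finset.sum_const_zero, zero_add] at h11
        rw [Finset.sum_apply, Pi.zero_apply, ← h11]
        refine Finset.sum_congr rfl fun j _ => ?_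
        rw [Pi.smul_apply, smul_eq_mul, mul_comm]
        rfl
      exact Fintype.linearIndependent_iff.1 hνC _ h10
    funext b
    rcases b with s | j
    · exact h4 s
    · exact h9 j
  let A : Matrix (Fin r ⊕ Fin e) (Fin n) K := Matrix.of fun a x =>
    Sum.elim G (fun l j => (m (σ' (Sum.inr l)) j : K)) a x
  let CK : Matrix (Fin n) J K := C.map (algebraMap ℂ K)
  let B : Matrix (Fin g) (Fin g) K :=
    Matrix.of fun i j : Fin g => ∑ k, (ν j k : K) * G (τ (Sum.inl i)) k
  let D : Matrix (Fin r') (Fin r') K := Matrix.of fun i j : Fin r' => G' i (σ' (Sum.inl j))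
  -- the scalar products over `K`
  have hK1 : ∀ k s, ∑ x, (m k x : K) * CK x (Sum.inl s) = if k = σ' s then 1 else 0 := by
    intro k s
    have h1 := congrArg (algebraMap ℂ K) (hN' k (σ' s))
    rw [map_sum] at h1
    rw [apply_ite (algebraMap ℂ K), map_one, map_zero] at h1
    rw [← h1]
    refine Finset.sum_congr rfl fun x _ => ?_
    rw [map_mul, map_intCast]
    rfl
  have hK2 : ∀ k j, ∑ x, (m k x : K) * CK x (Sum.inr j) = 0 := by
    intro k j
    have h1 := congrArg (algebraMap ℂ K) (hp k j)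
    rw [map_sum, map_zero] at h1
    rw [← h1]
    refine Finset.sum_congr rfl fun x _ => ?_
    rw [map_mul, map_intCast]
    rfl
  have hG1 : ∀ i b, ∑ x, G (τ (Sum.inr i)) x * CK x b =
      χ i * ∑ k, G' i k * ∑ x, (m k x : K) * CK x b := by
    intro i b
    simp only [hG, Finset.mul_sum, Finset.sum_mul]
    rw [Finset.sum_comm]
    refine Finset.sum_congr rfl fun k _ => Finset.sum_congr rfl fun x _ => ?_
    ring
  let X : Matrix (Fin r' ⊕ Fin e) (Fin r' ⊕ Fin e) K := Matrix.of fun a b =>
    ((A.submatrix (rho τ) id) * CK) (Sum.inl a) (Sum.inl b)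
  let Y : Matrix (Fin g) (Fin r' ⊕ Fin e) K := Matrix.of fun a b =>
    ((A.submatrix (rho τ) id) * CK) (Sum.inr a) (Sum.inl b)
  have hblock : (A.submatrix (rho τ) id) * CK = Matrix.fromBlocks X 0 Y B := by
    ext a b
    rcases a with a | a <;> rcases b with b | b
    · rfl
    · rw [Matrix.fromBlocks_apply₁₂, Matrix.zero_apply, Matrix.mul_apply]
      rcases a with i | l
      · have h1 := hG1 i (Sum.inr b)
        simp only [hK2, mul_zero, Finset.sum_const_zero] at h1
        exact h1
      · exact hK2 _ _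
    · rfl
    · rw [Matrix.fromBlocks_apply₂₂, Matrix.mul_apply]
      refine Finset.sum_congr rfl fun x _ => ?_
      have h1 : CK x (Sum.inr b) = (ν b x : K) := by
        change algebraMap ℂ K (ν b x : ℂ) = _
        rw [map_intCast]
      rw [h1, mul_comm]
      rfl
  have hX : X = Matrix.fromBlocks (Matrix.diagonal χ * D)
      (Matrix.of fun i l => χ i * G' i (σ' (Sum.inr l))) 0 1 := by
    ext a b
    rcases a with i | l
    · have h1 : X (Sum.inl i) b = χ i * G' i (σ' b) := by
        have h2 := hG1 i (Sum.inl b)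
        simp only [hK1, mul_ite, mul_one, mul_zero, Finset.sum_ite_eq', Finset.mem_univ,
          if_true] at h2
        exact h2
      rw [h1]
      rcases b with b | b
      · rw [Matrix.fromBlocks_apply₁₁, Matrix.diagonal_mul]
        rfl
      · rfl
    · have h1 : X (Sum.inr l) b = if σ' (Sum.inr l) = σ' b then 1 else 0 := hK1 _ _
      rw [h1]
      rcases b with b | b
      · rw [Matrix.fromBlocks_apply₂₁]
        simp
      · rw [Matrix.fromBlocks_apply₂₂, Matrix.one_apply]
        simp
  have hdet : ((A.submatrix (rho τ) id) * CK).det = (∏ i, χ i) * D.det * B.det := by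
    rw [hblock, Matrix.det_fromBlocks_zero₁₂, hX, Matrix.det_fromBlocks_zero₂₁, Matrix.det_mul,
      Matrix.det_diagonal, Matrix.det_one, mul_one]
  have hprod : ((A.submatrix (rho τ) id) * CK) =
      ((A.submatrix (rho τ) id).submatrix id θ) * (CK.submatrix θ id) := by
    ext a b
    rw [Matrix.mul_apply, Matrix.mul_apply]
    exact (Equiv.sum_comp θ fun x => (A.submatrix (rho τ) id) a x * CK x b).symm
  have hT : ((A.submatrix (rho τ) id).submatrix id θ).det =
      (Matrix.of fun a b : Fin r ⊕ Fin e =>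
        Sum.elim G (fun l j => (m (σ' (Sum.inr l)) j : K)) a (σ b)).det := by
    rw [← Matrix.det_submatrix_equiv_self (rho τ) (Matrix.of fun a b : Fin r ⊕ Fin e =>
        Sum.elim G (fun l j => (m (σ' (Sum.inr l)) j : K)) a (σ b))]
    rfl
  have hCK : (CK.submatrix θ id).det = algebraMap ℂ K (C.submatrix θ id).det := by
    rw [RingHom.map_det]
    rfl
  rw [hprod, Matrix.det_mul, hT, hCK] at hdet
  refine ⟨((C.submatrix θ id).det)⁻¹, inv_ne_zero hC, ?_⟩
  have hne : algebraMap ℂ K (C.submatrix θ id).det ≠ 0 := by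
    rw [Ne, map_eq_zero]
    exact hC
  rw [map_inv₀]
  have h1 : (algebraMap ℂ K (C.submatrix θ id).det)⁻¹ * (∏ i, χ i) * D.det * B.det =
      (algebraMap ℂ K (C.submatrix θ id).det)⁻¹ * ((∏ i, χ i) * D.det * B.det) := by ring
  rw [h1, ← hdet, mul_comm _ (algebraMap ℂ K (C.submatrix θ id).det), ← mul_assoc,
    inv_mul_cancel₀ hne, one_mul]

end MMCI
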