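import Pool.Agent.MMCI.StT2
import Pool.Agent.MMCI.K_PLU

/-!
# MP_fa3f7f_ag, MMCI: GPL, Pluecker relations
-/

namespace MMCI

open MldGeo

noncomputable section

namespace R_GPL

/-- The vectors `y (σ (inl i))` in terms of the `y (σ (inr l))`. -/
theorem inl_eq {e n r : ℕ} {K E : Type} [Field K] [AddCommGroup E] [Module K E]
    (y : Fin n → E) (G : Fin r → Fin n → K) (hG : ∀ i, ∑ j, G i j • y j = 0)
    (σ : Fin r ⊕ Fin e ≃ Fin n) (P : Matrix (Fin r) (Fin r) K) (Q : Matrix (Fin r) (Fin e) K)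
    (hP : P = Matrix.of fun i j => G i (σ (Sum.inl j)))
    (hQ : Q = Matrix.of fun i l => G i (σ (Sum.inr l))) (hPu : IsUnit P.det) (i : Fin r) :
    y (σ (Sum.inl i)) = - ∑ l, (P⁻¹ * Q) i l • y (σ (Sum.inr l)) := by
  have h1 : ∀ i, ∑ j : Fin r, P i j • y (σ (Sum.inl j)) =
      - ∑ l : Fin e, Q i l • y (σ (Sum.inr l)) := by
    intro i
    have h2 := hG i
    rw [← σ.sum_comp, Fintype.sum_sum_type] at h2
    rw [hP, hQ]
    exact eq_neg_of_add_eq_zero_left h2
  have h3 : y (σ (Sum.inl i)) = ∑ k, P⁻¹ i k • ∑ j : Fin r, P k j • y (σ (Sum.inl j)) := by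
    simp only [Finset.smul_sum, smul_smul]
    rw [Finset.sum_comm]
    simp only [← Finset.sum_smul, ← Matrix.mul_apply, Matrix.nonsing_inv_mul _ hPu]
    simp [Matrix.one_apply]
  rw [h3]
  simp only [h1, smul_neg, Finset.smul_sum, smul_smul]
  rw [Finset.sum_neg_distrib, Finset.sum_comm]
  simp only [← Finset.sum_smul, ← Matrix.mul_apply]

end R_GPL

theorem t_GPL : S_GPL := by
  classical
  intro e n r K E _ _ _ y G u hG σ hσ
  set P : Matrix (Fin r) (Fin r) K := Matrix.of fun i j : Fin r => G i (σ (Sum.inl j)) with hP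
  set Q : Matrix (Fin r) (Fin e) K := Matrix.of fun i l => G i (σ (Sum.inr l)) with hQ
  set U : Matrix (Fin e) (Fin r) K := Matrix.of fun l j => u l (σ (Sum.inl j)) with hU
  set W : Matrix (Fin e) (Fin e) K := Matrix.of fun l k => u l (σ (Sum.inr k)) with hW
  have hPu : IsUnit P.det := isUnit_iff_ne_zero.2 hσ
  have hinl := R_GPL.inl_eq y G hG σ P Q hP hQ hPu
  have hvec : (fun l => ∑ j, u l j • y j) =
      fun l => ∑ k, (W - U * (P⁻¹ * Q)) l k • y (σ (Sum.inr k)) := by
    funext l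
    rw [← σ.sum_comp, Fintype.sum_sum_type]
    have h1 : ∑ i : Fin r, u l (σ (Sum.inl i)) • y (σ (Sum.inl i)) =
        - ∑ k, (U * (P⁻¹ * Q)) l k • y (σ (Sum.inr k)) := by
      simp only [hinl, smul_neg, Finset.smul_sum, smul_smul]
      rw [Finset.sum_neg_distrib, Finset.sum_comm]
      congr 1
      refine Finset.sum_congr rfl fun k _ => ?_
      rw [← Finset.sum_smul]
      rfl
    rw [h1]
    have h2 : ∀ k, (W - U * (P⁻¹ * Q)) l k • y (σ (Sum.inr k)) =
        u l (σ (Sum.inr k)) • y (σ (Sum.inr k)) -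
          (U * (P⁻¹ * Q)) l k • y (σ (Sum.inr k)) := by
      intro k
      rw [Matrix.sub_apply, sub_smul]
      rfl
    rw [Finset.sum_congr rfl fun k _ => h2 k, Finset.sum_sub_distrib]
    abel
  have hdet : (Matrix.of fun a b : Fin r ⊕ Fin e => Sum.elim G u a (σ b)).det =
      P.det * (W - U * (P⁻¹ * Q)).det := by
    have h1 : (Matrix.of fun a b : Fin r ⊕ Fin e => Sum.elim G u a (σ b)) =
        Matrix.fromBlocks P Q U W := by
      ext a b
      rcases a with i | k <;> rcases b with j | l <;> rfl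
    let _ := Matrix.invertibleOfIsUnitDet P hPu
    rw [h1, Matrix.det_fromBlocks₁₁, Matrix.invOf_eq_nonsing_inv, Matrix.mul_assoc]
  rw [hvec, PLU.multi, hdet, smul_smul]

end

end MMCI
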