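import Pool.Agent.MMCI.StT2
import Pool.Agent.MMCI.R_KER
import Pool.Agent.MldGeo.TBAS

/-!
# KER: a vector orthogonal to the gradients and to sufficiently many exponents is zero
-/

namespace MMCI

open MldGeo

noncomputable section

open R_KER in
theorem t_KER2 : S_KER2 := by
  intro e n r K _ _ f x hS M hM y hy1 hy2
  classical
  obtain ⟨z, hzM, hz⟩ := exists_indep (e := e) _ hM
  choose m hmM hm using hzM
  have hx := hS.ne
  obtain ⟨hli, -⟩ := t_TBAS hS.dim z hz
  have hzne : ∀ l, z l ≠ 0 := fun l => by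
    rw [hm l]
    exact mon_ne hx _
  let Φ : (Fin n → K) →ₗ[K] Ω[K⁄ℂ] := Fintype.linearCombination K fun j => dlog (x j)
  have hΦ : ∀ a, Φ a = ∑ j, a j • dlog (x j) := fun a => by
    simp [Φ, Fintype.linearCombination_apply]
  have hΦm : ∀ l, Φ (fun j => (m l j : K)) = dlog (z l) := fun l => by
    rw [hΦ, hm l, dlog_mon hx]
  have hΦg : ∀ i, Φ (grad x (f i)) = 0 := fun i => by
    rw [hΦ, ← D_ev hx, hS.zero i, map_zero]
  have hind : LinearIndependent K
      (Sum.elim (fun i => grad x (f i)) (fun l j => (m l j : K)) : Fin r ⊕ Fin e → Fin n → K) := by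
    rw [Fintype.linearIndependent_iff]
    intro c hc
    rw [Fintype.sum_sum_type] at hc
    simp only [Sum.elim_inl, Sum.elim_inr] at hc
    have h1 := congrArg Φ hc
    rw [map_add, map_sum, map_sum, map_zero] at h1
    simp only [map_smul, hΦm] at h1
    have h2 : ∑ i : Fin r, c (Sum.inl i) • Φ (grad x (f i)) = 0 :=
      Finset.sum_eq_zero fun i _ => by rw [hΦg, smul_zero]
    rw [h2, zero_add] at h1
    have h3 : ∀ l, c (Sum.inr l) = 0 := by
      have h4 : ∑ l : Fin e, (c (Sum.inr l) * (z l)⁻¹) • KaehlerDifferential.D ℂ K (z l) = 0 := by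
        rw [← h1]
        exact Finset.sum_congr rfl fun l _ => by rw [dlog, smul_smul]
      intro l
      have h5 := Fintype.linearIndependent_iff.1 hli _ h4 l
      exact (mul_eq_zero.1 h5).resolve_right (inv_ne_zero (hzne l))
    have h6 : ∑ l : Fin e, c (Sum.inr l) • (fun j => (m l j : K) : Fin n → K) = 0 :=
      Finset.sum_eq_zero fun l _ => by rw [h3 l, zero_smul]
    rw [h6, add_zero] at hc
    have h7 := Fintype.linearIndependent_iff.1 hS.rank _ hc
    rintro (i | l)
    · exact h7 i
    · exact h3 l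
  have hspan := hind.span_eq_top_of_card_eq_finrank' (by
    rw [Fintype.card_sum, Fintype.card_fin, Fintype.card_fin, Module.finrank_fin_fun, hS.dim_eq])
  let Ψ : (Fin n → K) →ₗ[K] K := Fintype.linearCombination K y
  have hΨ : ∀ a, Ψ a = ∑ j, a j * y j := fun a => by
    simp [Ψ, Fintype.linearCombination_apply]
  have hΨ0 : Ψ = 0 := by
    apply LinearMap.ext_on_range hspan
    rintro (i | l)
    · rw [Sum.elim_inl, hΨ, LinearMap.zero_apply, ← hy1 i]
      exact Finset.sum_congr rfl fun j _ => mul_comm _ _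
    · rw [Sum.elim_inr, hΨ, LinearMap.zero_apply, ← hy2 (m l) (hmM l)]
      exact Finset.sum_congr rfl fun j _ => mul_comm _ _
  funext j
  have h8 := LinearMap.congr_fun hΨ0 (Pi.single j 1)
  rw [hΨ, LinearMap.zero_apply] at h8
  rw [Pi.zero_apply, ← h8, Finset.sum_eq_single j]
  · rw [Pi.single_eq_same, one_mul]
  · intro k _ hk
    rw [Pi.single_eq_of_ne hk, zero_mul]
  · intro h
    exact absurd (Finset.mem_univ j) h

end

end MMCI
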