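import Pool.Agent.MMCI.StT2
import Pool.Agent.MMCI.R_NEW
import Pool.Agent.MMCI.Tools
import Pool.Agent.MldGeo.Ord

/-!
# NEW2: the new system after the change of variables, stage 2
-/

namespace MMCI

open MldGeo

namespace R_NEW2

variable {e n : ℕ} {K : Type} [Field K] [Algebra ℂ K]

theorem pair_zero (m : Fin n → ℤ) : pair 0 m = 0 := by
  simp [pair]

theorem minOn_zero (f : Laurent n) : minOn f 0 = 0 := by
  unfold minOn
  rcases Finset.eq_empty_or_nonempty f.coeff.support with h | h
  · rw [h]
    simp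
  · have e : (fun m => pair (0 : Fin n → ℤ) m) '' (f.coeff.support : Set (Fin n → ℤ)) = {0} := by
      have h1 : (fun m => pair (0 : Fin n → ℤ) m) = fun _ => 0 := funext pair_zero
      rw [h1]
      exact Set.Nonempty.image_const (Finset.coe_nonempty.2 h) 0
    rw [e, csInf_singleton]

omit [Algebra ℂ K] in
theorem mon_mon {n' : ℕ} {x : Fin n → K} (hx : ∀ j, x j ≠ 0) (m : Fin n' → (Fin n → ℤ))
    (a : Fin n' → ℤ) : mon (fun k => mon x (m k)) a = mon x (∑ k, a k • m k) := by
  unfold mon
  have h1 : ∀ i : Fin n, x i ^ ((∑ k, a k • m k) i) = ∏ k, (x i ^ m k i) ^ a k := by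
    intro i
    rw [Finset.sum_apply]
    have h2 : ∀ s : Finset (Fin n'), x i ^ (∑ k ∈ s, (a k • m k) i) = ∏ k ∈ s, (x i ^ m k i) ^ a k := by
      classical
      intro s
      induction s using Finset.induction_on with
      | empty => simp
      | insert b s hb ih =>
        rw [Finset.sum_insert hb, Finset.prod_insert hb, zpow_add₀ (hx i), ih]
        congr 1
        rw [← zpow_mul, Pi.smul_apply, smul_eq_mul, mul_comm]
    exact h2 Finset.univ
  rw [Finset.prod_congr rfl fun i _ => h1 i, Finset.prod_comm]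
  refine Finset.prod_congr rfl fun k _ => ?_
  rw [Finset.prod_zpow]

omit [Algebra ℂ K] in
/-- A nonzero minor of a matrix with independent rows. -/
theorem exists_minor (hSEL : S_SEL) {r : ℕ} (h : n = r + e) (G : Fin r → Fin n → K)
    (hG : LinearIndependent K G) : ∃ σ : Fin r ⊕ Fin e ≃ Fin n,
      (Matrix.of fun i j : Fin r => G i (σ (Sum.inl j))).det ≠ 0 := by
  obtain ⟨s, hs, hd⟩ := hSEL (fun k i => G i k) (by
    intro d hd
    rw [Fintype.linearIndependent_iff] at hG
    funext i
    refine hG d ?_ i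
    funext k
    rw [Finset.sum_apply]
    rw [Pi.zero_apply, ← hd k]
    refine Finset.sum_congr rfl fun j _ => ?_
    rw [Pi.smul_apply, smul_eq_mul, mul_comm])
  obtain ⟨σ, hσ⟩ := R_NEW.exists_equiv h s hs
  refine ⟨σ, ?_⟩
  rw [← Matrix.det_transpose] at hd
  simp only [hσ]
  exact hd

theorem sign_ne {ε : K} (h : ε = 1 ∨ ε = -1) : ε ≠ 0 := by
  rcases h with h | h <;> rw [h] <;> simp

theorem sign_ord (v : DivVal e K) {ε : K} (h : ε = 1 ∨ ε = -1) : v.ord ε = 0 := by
  rcases h with h | h
  · rw [h, DivVal.ord_one]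
  · rw [h, DivVal.ord_neg, DivVal.ord_one]

end R_NEW2

open R_NEW R_NEW2 in
theorem t_NEW2 (hCHV : S_CHV) (hGRO : S_GRO) (hND1 : S_ND1) (hND2 : S_ND2) (hSEL : S_SEL)
    (hMON : S_MON) (hOMG : S_OMG) (hGPL : S_GPL) (hDTC : S_DTC) : S_NEW2 := by
  intro e n r g n' r' K _ _ f x τ m ν p hS hm hν hpair hng hn' hgen hq hdet
  have hx : ∀ j, x j ≠ 0 := hS.ne
  have hx' : ∀ k, mon x (m k) ≠ 0 := fun k => mon_ne hx _
  let ρ : Fin r' → Fin r := fun i => τ (Sum.inr i)
  have hρ : Function.Injective ρ := fun i j h => Sum.inr_injective (τ.injective h)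
  have h1 : ∀ i, ∃ f' : Laurent n', f' ≠ 0 ∧
      (∀ w, minOn (f (ρ i)) w = pair w (p i) + minOn f' fun k => pair w (m k)) ∧
      ev x (f (ρ i)) = mon x (p i) * ev (fun k => mon x (m k)) f' ∧
      ∀ j, grad x (f (ρ i)) j = (p i j : K) * ev x (f (ρ i)) +
        mon x (p i) * ∑ k, (m k j : K) * grad (fun k => mon x (m k)) f' k := by
    intro i
    obtain ⟨f', h0, h1, h2⟩ := hCHV m (f (ρ i)) (p i) hm (hS.f_ne _) (hq i)
    obtain ⟨h3, h4⟩ := h2 x hx
    exact ⟨f', h0, h1, h3, h4⟩
  choose f' hne hmin hev hgr using h1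
  have hz : ∀ i, ev (fun k => mon x (m k)) (f' i) = 0 := by
    intro i
    have h := hev i
    rw [hS.zero] at h
    exact (mul_eq_zero.1 h.symm).resolve_left (mon_ne hx _)
  have hg : ∀ i j, grad x (f (ρ i)) j =
      mon x (p i) * ∑ k, (m k j : K) * grad (fun k => mon x (m k)) (f' i) k := by
    intro i j
    rw [hgr i j, hS.zero, mul_zero, zero_add]
  have key : ∀ (c : Fin r' → K) (j : Fin n),
      ∑ i, (c i * (mon x (p i))⁻¹) * grad x (f (ρ i)) j =
        ∑ k, (m k j : K) * ∑ i, c i * grad (fun k => mon x (m k)) (f' i) k := by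
    intro c j
    have h2 : ∀ i, (c i * (mon x (p i))⁻¹) * grad x (f (ρ i)) j =
        ∑ k, (m k j : K) * (c i * grad (fun k => mon x (m k)) (f' i) k) := by
      intro i
      rw [hg i j, mul_assoc, inv_mul_cancel_left₀ (mon_ne hx _), Finset.mul_sum]
      refine Finset.sum_congr rfl fun k _ => ?_
      ring
    rw [Finset.sum_congr rfl fun i _ => h2 i, Finset.sum_comm]
    refine Finset.sum_congr rfl fun k _ => ?_
    rw [Finset.mul_sum]
  have hrank : LinearIndependent K fun i => grad (fun k => mon x (m k)) (f' i) := by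
    rw [Fintype.linearIndependent_iff]
    intro c hc i
    have h3 : LinearIndependent K fun i => grad x (f (ρ i)) := hS.rank.comp ρ hρ
    rw [Fintype.linearIndependent_iff] at h3
    have h4 := h3 (fun i => c i * (mon x (p i))⁻¹) (by
      funext j
      have h5 := key c j
      have h6 : ∀ k, ∑ i, c i * grad (fun k => mon x (m k)) (f' i) k = 0 := by
        intro k
        have := congrFun hc k
        simpa [Finset.sum_apply] using this
      simp only [h6, mul_zero, Finset.sum_const_zero] at h5
      simpa [Finset.sum_apply] using h5) i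
    exact (mul_eq_zero.1 h4).resolve_right (inv_ne_zero (mon_ne hx _))
  refine ⟨f', ?_⟩
  refine { dim_eq := hn', pos := hS.pos, f_ne := hne, ne := hx', gen := hgen, dim := hS.dim,
           zero := hz, rank := hrank, nd2 := ?_ }
  intro v
  have hw : wt (fun k => mon x (m k)) v = fun k => pair (wt x v) (m k) := by
    funext k
    exact ord_mon v hx (m k)
  rcases hS.nd2 v with ⟨σ, hσ, hσ'⟩ | ⟨hw0, hbig, hom⟩
  · left
    have hG : Good v (fun i => grad x (f i)) fun i => minOn (f i) (wt x v) :=
      hND1 v (fun i => grad x (f i)) (fun i => minOn (f i) (wt x v)) (fun j => σ (Sum.inl j))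
        (fun i k => hGRO (f i) x v hx k) hσ hσ'
    have hG' : Good v (fun i => grad (fun k => mon x (m k)) (f' i))
        fun i => minOn (f' i) (wt (fun k => mon x (m k)) v) := by
      intro y N hy i
      have h5 := hG (Function.extend ρ (fun i => y i * (mon x (p i))⁻¹) 0) N (by
        intro j
        have h6 : ∑ i, Function.extend ρ (fun i => y i * (mon x (p i))⁻¹) 0 i * grad x (f i) j =
            ∑ i, (y i * (mon x (p i))⁻¹) * grad x (f (ρ i)) j := by
          symm
          refine Fintype.sum_of_injective ρ hρ _ _ ?_ ?_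
          · intro i hi
            rw [Function.extend_apply' _ _ _ (by simpa using hi)]
            simp
          · intro i
            rw [hρ.extend_apply]
        rw [h6, key y j]
        refine ge_sum v _ _ fun k _ => ?_
        have h7 := ge_mul v (ge_int v (m k j)) (hy k)
        rwa [zero_add] at h7) (ρ i)
      rw [hρ.extend_apply] at h5
      have h8 : v.Ge (pair (wt x v) (p i)) (mon x (p i)) := Or.inr (ord_mon v hx (p i)).ge
      have h9 := ge_mul v h5 h8
      rw [inv_mul_cancel_right₀ (mon_ne hx _)] at h9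
      have h10 : N - minOn (f (ρ i)) (wt x v) + pair (wt x v) (p i) =
          N - minOn (f' i) (wt (fun k => mon x (m k)) v) := by
        rw [hmin i, hw]
        ring
      rwa [h10] at h9
    obtain ⟨s, hs, hs1, hs2⟩ := hND2 v (fun i => grad (fun k => mon x (m k)) (f' i))
      (fun i => minOn (f' i) (wt (fun k => mon x (m k)) v))
      (fun i k => hGRO (f' i) _ v hx' k) hG'
    obtain ⟨τ, hτ⟩ := exists_equiv hn' s hs
    refine ⟨τ, ?_, ?_⟩
    · unfold minor
      simpa only [hτ] using hs1
    · unfold minor psi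
      simpa only [hτ] using hs2
  · right
    refine ⟨?_, ?_, ?_⟩
    · rw [hw, hw0]
      funext k
      exact pair_zero _
    · rintro ⟨m'', -, h3⟩
      refine hbig ⟨fun l => ∑ k, m'' l k • m k, fun l => by rw [hw0]; exact pair_zero _, ?_⟩
      have h4 : (fun l => mon x (∑ k, m'' l k • m k)) =
          fun l => mon (fun k => mon x (m k)) (m'' l) := by
        funext l
        rw [mon_mon hx]
      rw [h4]
      exact h3
    · intro ω' hω'
      obtain ⟨ω, hω, hωσ⟩ := hOMG f x hS.toReg
      obtain ⟨σ, hσ⟩ := exists_minor hSEL hS.dim_eq _ hS.rank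
      obtain ⟨σ', hσ'⟩ := exists_minor hSEL hn' _ hrank
      obtain ⟨ε, hε, h5⟩ := hωσ σ hσ
      obtain ⟨ε', hε', h6⟩ := hω'.2 σ' hσ'
      obtain ⟨-, -, hdl, hrel, -⟩ := hMON (e := e) x hx
      have h7 := hGPL (fun j => dlog (x j)) (fun i => grad x (f i))
        (fun l j => (m (σ' (Sum.inr l)) j : K)) (fun i => hrel (f i) (hS.zero i)) σ hσ
      have h8 : dlogs (rest (fun k => mon x (m k)) σ') =
          exteriorPower.ιMulti K e (fun l => ∑ j, (m (σ' (Sum.inr l)) j : K) • dlog (x j)) := by
        unfold dlogs rest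
        congr 1
        funext l
        exact hdl _
      obtain ⟨κ, hκ, h9⟩ := hDTC (fun i => grad x (f i)) τ m ν
        (fun i => grad (fun k => mon x (m k)) (f' i)) (fun i => mon x (p i)) σ σ' hm hν hpair hng
        (fun i j => hg i j)
      rw [← h8, h9] at h7
      -- the scalars
      have hM : minor f x σ ≠ 0 := hσ
      have hM' : minor f' (fun k => mon x (m k)) σ' ≠ 0 := hσ'
      set B : K := (Matrix.of fun i j : Fin g => der x (f (τ (Sum.inl i))) (ν j)).det with hB
      set χ : K := ∏ i, mon x (p i) with hχ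
      have hχ0 : χ ≠ 0 := Finset.prod_ne_zero_iff.2 fun i _ => mon_ne hx _
      have hκ0 : algebraMap ℂ K κ ≠ 0 := by simpa using hκ
      have h10 : minor f x σ • dlogs (rest (fun k => mon x (m k)) σ') =
          (algebraMap ℂ K κ * χ * minor f' (fun k => mon x (m k)) σ' * B) •
            dlogs (rest x σ) := h7
      have h11 : dlogs (rest (fun k => mon x (m k)) σ') =
          (ε'⁻¹ * minor f' (fun k => mon x (m k)) σ') • ω' := by
        rw [mul_smul, h6, smul_smul, inv_mul_cancel₀ (sign_ne hε'), one_smul]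
      have h12 : dlogs (rest x σ) = (ε⁻¹ * minor f x σ) • ω := by
        rw [mul_smul, h5, smul_smul, inv_mul_cancel₀ (sign_ne hε), one_smul]
      rw [h11, h12, smul_smul, smul_smul] at h10
      set M : K := minor f x σ with hMdef
      set M' : K := minor f' (fun k => mon x (m k)) σ' with hMdef'
      have h13 : ω' = (ε' * ε⁻¹ * algebraMap ℂ K κ * χ * B) • ω := by
        have h14 : (M * (ε'⁻¹ * M')) ≠ 0 :=
          mul_ne_zero hM (mul_ne_zero (inv_ne_zero (sign_ne hε')) hM')
        have h15 : (M * (ε'⁻¹ * M'))⁻¹ • (M * (ε'⁻¹ * M')) • ω' =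
            (M * (ε'⁻¹ * M'))⁻¹ • (algebraMap ℂ K κ * χ * M' * B * (ε⁻¹ * M)) • ω := by
          rw [h10]
        rw [smul_smul, inv_mul_cancel₀ h14, one_smul, smul_smul] at h15
        rw [h15]
        congr 1
        have := sign_ne hε'
        have := sign_ne hε
        field_simp
      have hB0 : B ≠ 0 := hdet
      have hg0 : ε' * ε⁻¹ * algebraMap ℂ K κ * χ * B ≠ 0 :=
        mul_ne_zero (mul_ne_zero (mul_ne_zero (mul_ne_zero (sign_ne hε')
          (inv_ne_zero (sign_ne hε))) hκ0) hχ0) hB0
      have hordB : 0 ≤ v.ord B := by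
        have h16 : v.Ge 0 B := by
          rw [hB]
          refine DivVal.Ge.det (v := v) fun i j => ?_
          rw [Matrix.of_apply]
          unfold der
          refine DivVal.Ge.sum _ _ fun k _ => ?_
          refine DivVal.Ge.mul_left (DivVal.Ge.intCast v _) ?_
          have h17 := hGRO (f (τ (Sum.inl i))) x v hx k
          rw [hw0, minOn_zero] at h17
          exact h17
        exact h16.le hB0
      have hordχ : v.ord χ = 0 := by
        rw [hχ, ord_prod v _ _ fun i => mon_ne hx _]
        refine Finset.sum_eq_zero fun i _ => ?_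
        rw [ord_mon v hx, hw0, pair_zero]
      have hord : v.ord (ε' * ε⁻¹ * algebraMap ℂ K κ * χ * B) = v.ord B := by
        rw [v.ord_mul _ _ (mul_ne_zero (mul_ne_zero (mul_ne_zero (sign_ne hε')
            (inv_ne_zero (sign_ne hε))) hκ0) hχ0) hB0,
          v.ord_mul _ _ (mul_ne_zero (mul_ne_zero (sign_ne hε')
            (inv_ne_zero (sign_ne hε))) hκ0) hχ0,
          v.ord_mul _ _ (mul_ne_zero (sign_ne hε') (inv_ne_zero (sign_ne hε))) hκ0,
          v.ord_mul _ _ (sign_ne hε') (inv_ne_zero (sign_ne hε)), hordχ, v.ord_const,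
          DivVal.ord_inv, sign_ord v hε, sign_ord v hε']
        ring
      have h18 := hom ω ⟨hω, hωσ⟩
      rw [h13, cFSM hS.dim v _ ω hS.pos hg0 hω, hord]
      linarith

end MMCI
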