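import Pool.Agent.MMCI.StB
import Pool.Agent.MMCI.Tools
import Pool.Agent.MldGeo.Ord

/-!
# EQ0c: weight zero, all but one of the coordinates have independent residues
-/

set_option autoImplicit false

namespace MMCI

open MldGeo MldGeo.DivVal

noncomputable section

namespace EQ0c

variable {e : ℕ} {K : Type} [Field K] [Algebra ℂ K]

/-- A matrix `N` with one more row than columns and a left inverse `B`, both over the valuation ring:
for some row, the other rows are independent modulo the maximal ideal. -/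
theorem key {m : ℕ} (v : DivVal e K) (N : Fin (m + 1) → Fin m → K) (B : Fin m → Fin (m + 1) → K)
    (hN : ∀ i j, v.Ge 0 (N i j)) (hB : ∀ l i, v.Ge 0 (B l i))
    (hBN : ∀ l j, ∑ i, B l i * N i j = if l = j then 1 else 0) :
    ∃ i0 : Fin (m + 1), IndepMod v (fun l (j : Fin m) => N (i0.succAbove l) j) := by
  classical
  -- the projection
  set P : Fin (m + 1) → Fin (m + 1) → K := fun i k =>
    (if i = k then 1 else 0) - ∑ l, N i l * B l k with hP
  have hPGe : ∀ i k, v.Ge 0 (P i k) := by
    intro i k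
    refine Ge.sub ?_ (Ge.sum _ _ fun l _ => Ge.mul_left (hN i l) (hB l k))
    by_cases h : i = k
    · rw [if_pos h]
      exact Ge.one v
    · rw [if_neg h]
      exact Ge.zero v 0
  have hPN : ∀ i j, ∑ k, P i k * N k j = 0 := by
    intro i j
    have h1 : ∑ k, P i k * N k j = N i j - ∑ k, (∑ l, N i l * B l k) * N k j := by
      simp only [hP, sub_mul, Finset.sum_sub_distrib, ite_mul, one_mul, zero_mul,
        Finset.sum_ite_eq, Finset.mem_univ, if_true]
    have h2 : ∑ k, (∑ l, N i l * B l k) * N k j = ∑ l, N i l * ∑ k, B l k * N k j := by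
      simp only [Finset.sum_mul, Finset.mul_sum]
      rw [Finset.sum_comm]
      refine Finset.sum_congr rfl fun l _ => Finset.sum_congr rfl fun k _ => ?_
      ring
    rw [h1, h2]
    simp only [hBN, mul_ite, mul_one, mul_zero, Finset.sum_ite_eq', Finset.mem_univ, if_true,
      sub_self]
  have htr : ∑ i, P i i = 1 := by
    have h1 : ∑ i, P i i = ((m + 1 : ℕ) : K) - ∑ i, ∑ l, N i l * B l i := by
      simp only [hP, Finset.sum_sub_distrib, if_true, Finset.sum_const, Finset.card_univ,
        Fintype.card_fin, nsmul_eq_mul, mul_one]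
    have h2 : ∑ i, ∑ l, N i l * B l i = (m : K) := by
      rw [Finset.sum_comm]
      have h3 : ∀ l, ∑ i, N i l * B l i = 1 := by
        intro l
        have h4 := hBN l l
        rw [if_pos rfl] at h4
        rw [← h4]
        exact Finset.sum_congr rfl fun i _ => mul_comm _ _
      rw [Finset.sum_congr rfl fun l _ => h3 l]
      simp
    rw [h1, h2]
    push_cast
    ring
  -- a unit on the diagonal
  obtain ⟨i0, hi0⟩ : ∃ i0, ¬ v.Ge 1 (P i0 i0) := by
    by_contra hcon
    push Not at hcon
    have h1 : v.Ge 1 (∑ i, P i i) := Ge.sum _ _ fun i _ => hcon i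
    rw [htr] at h1
    have h2 := h1.le one_ne_zero
    rw [ord_one] at h2
    omega
  have hp0 : P i0 i0 ≠ 0 := fun h => hi0 (Or.inl h)
  have hp1 : v.ord (P i0 i0) = 0 := by
    have h1 := (hPGe i0 i0).le hp0
    have h2 : ¬ 1 ≤ v.ord (P i0 i0) := fun h => hi0 (Or.inr h)
    omega
  -- the left kernel of `N` is a line
  let φ : (Fin (m + 1) → K) →ₗ[K] (Fin m → K) :=
    { toFun := fun a j => ∑ i, a i * N i j
      map_add' := by
        intro a b
        funext j
        simp only [Pi.add_apply, add_mul, Finset.sum_add_distrib]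
      map_smul' := by
        intro c a
        funext j
        simp only [Pi.smul_apply, smul_eq_mul, RingHom.id_apply, Finset.mul_sum, mul_assoc] }
  have hφ : ∀ a j, φ a j = ∑ i, a i * N i j := fun _ _ => rfl
  have hsurj : LinearMap.range φ = ⊤ := by
    rw [LinearMap.range_eq_top]
    intro y
    refine ⟨fun i => ∑ l, y l * B l i, ?_⟩
    funext j
    rw [hφ]
    have h2 : ∑ i, (∑ l, y l * B l i) * N i j = ∑ l, y l * ∑ i, B l i * N i j := by
      simp only [Finset.sum_mul, Finset.mul_sum]
      rw [Finset.sum_comm]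
      refine Finset.sum_congr rfl fun l _ => Finset.sum_congr rfl fun k _ => ?_
      ring
    rw [h2]
    simp only [hBN, mul_ite, mul_one, mul_zero, Finset.sum_ite_eq', Finset.mem_univ, if_true]
  have hker : Module.finrank K (LinearMap.ker φ) = 1 := by
    have h1 := LinearMap.finrank_range_add_finrank_ker φ
    rw [hsurj, finrank_top, Module.finrank_fin_fun, Module.finrank_fin_fun] at h1
    omega
  have hmem : ∀ i, P i ∈ LinearMap.ker φ := by
    intro i
    rw [LinearMap.mem_ker]
    funext j
    exact hPN i j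
  have hline : ∀ i, ∃ c : K, ∀ k, P i k = c * P i0 k := by
    intro i
    have hne : (⟨P i0, hmem i0⟩ : LinearMap.ker φ) ≠ 0 := by
      intro h
      have h1 : P i0 = 0 := congrArg Subtype.val h
      exact hp0 (congrFun h1 i0)
    obtain ⟨c, hc⟩ := (finrank_eq_one_iff_of_nonzero' (⟨P i0, hmem i0⟩ : LinearMap.ker φ) hne).1
      hker ⟨P i, hmem i⟩
    refine ⟨c, fun k => ?_⟩
    have h1 : c • P i0 = P i := congrArg Subtype.val hc
    rw [← h1]
    rfl
  choose lam hlam using hline
  have hlamGe : ∀ i, v.Ge 0 (lam i) := by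
    intro i
    have h1 : lam i = P i i0 * (P i0 i0)⁻¹ := by
      rw [hlam i i0, mul_assoc, mul_inv_cancel₀ hp0, mul_one]
    rw [h1]
    exact Ge.mul_left (hPGe i i0) (Ge.inv hp0 hp1)
  refine ⟨i0, ?_⟩
  intro a ha haN
  -- extend `a` by zero
  set A : Fin (m + 1) → K := i0.insertNth 0 a with hA
  have hA0 : A i0 = 0 := by simp [hA]
  have hAs : ∀ l, A (i0.succAbove l) = a l := by
    intro l
    simp [hA]
  have hAGe : ∀ i, v.Ge 0 (A i) := by
    intro i
    rcases Fin.eq_self_or_eq_succAbove i0 i with h | ⟨l, h⟩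
    · rw [h, hA0]
      exact Ge.zero v 0
    · rw [h, hAs]
      exact ha l
  have hAN : ∀ j, v.Ge 1 (∑ i, A i * N i j) := by
    intro j
    rw [Fin.sum_univ_succAbove _ i0, hA0, zero_mul, zero_add]
    simp only [hAs]
    exact haN j
  have hAP : ∀ k, v.Ge 1 (A k - (∑ i, A i * lam i) * P i0 k) := by
    intro k
    have h1 : (∑ i, A i * lam i) * P i0 k = ∑ i, A i * P i k := by
      rw [Finset.sum_mul]
      refine Finset.sum_congr rfl fun i _ => ?_
      rw [hlam i k]
      ring
    have h2 : ∑ i, A i * P i k = A k - ∑ l, (∑ i, A i * N i l) * B l k := by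
      simp only [hP, mul_sub, Finset.sum_sub_distrib, mul_ite, mul_one, mul_zero,
        Finset.sum_ite_eq', Finset.mem_univ, if_true]
      congr 1
      simp only [Finset.sum_mul, Finset.mul_sum]
      rw [Finset.sum_comm]
      refine Finset.sum_congr rfl fun l _ => Finset.sum_congr rfl fun i _ => ?_
      ring
    rw [h1, h2, sub_sub_cancel]
    exact Ge.sum _ _ fun l _ => Ge.mul_right (hAN l) (hB l k)
  have hmu : v.Ge 1 (∑ i, A i * lam i) := by
    have h1 := hAP i0
    rw [hA0, zero_sub, ge_neg_iff] at h1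
    have h2 : ∑ i, A i * lam i = (∑ i, A i * lam i) * P i0 i0 * (P i0 i0)⁻¹ := by
      rw [mul_assoc, mul_inv_cancel₀ hp0, mul_one]
    rw [h2]
    exact Ge.mul_right h1 (Ge.inv hp0 hp1)
  intro l
  have h1 := Ge.add (hAP (i0.succAbove l)) (Ge.mul_right hmu (hPGe i0 (i0.succAbove l)))
  rw [sub_add_cancel, hAs] at h1
  exact h1

end EQ0c

theorem t_EQ0c : M_EQ0c := by
  intro hMON hBAS hELI hIND hFRD m n r K _ _ f x hR v σ hU hw hBig
  obtain ⟨hM0, -, -, -, hMv⟩ := hMON (e := m + 1) x hR.ne
  obtain ⟨hMord, -, -, -⟩ := hMv v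
  obtain ⟨q, hq, hres⟩ := hBig
  obtain ⟨t, ht0, ht1⟩ := v.unif
  set u : Fin m → K := fun l => mon x (q l) with hu
  have hFr : Frame v t u := ⟨ht0, ht1, hres⟩
  have hu0 : ∀ l, u l ≠ 0 := fun l => hM0 (q l)
  have hu1 : ∀ l, v.ord (u l) = 0 := by
    intro l
    have h1 := hMord (q l)
    have h2 := hq l
    rw [h2] at h1
    exact h1
  have hz : ∀ i, rest x σ i ≠ 0 ∧ v.ord (rest x σ i) = 0 := by
    intro i
    refine ⟨hR.ne _, ?_⟩
    have h1 := congrFun hw (σ (Sum.inr i))
    exact h1
  obtain ⟨c, hc0, hc1, hc2, -, -⟩ := hFRD hR.dim v t u hFr (rest x σ) fun i => (hz i).1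
  have hel := fun l => hELI f x hR.ne hR.zero v σ hU (q l)
  choose b hb0 hb1 using hel
  -- coefficients
  obtain ⟨hli, -⟩ := cTBAS hR.dim (Fin.cons t u) ((cFRA v).2 t u hFr)
  have hcoef : ∀ l j : Fin m, ∑ i, b l i * c i j.succ = if l = j then (u l)⁻¹ else 0 := by
    intro l j
    have h1 : ∑ k : Fin (m + 1), (Fin.cons (∑ i, b l i * (c i 0 * t⁻¹))
        (fun j : Fin m => ∑ i, b l i * c i j.succ - if l = j then (u l)⁻¹ else 0) :
          Fin (m + 1) → K) k •
        KaehlerDifferential.D ℂ K ((Fin.cons t u : Fin (m + 1) → K) k) = 0 := by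
      rw [Fin.sum_univ_succ]
      simp only [Fin.cons_zero, Fin.cons_succ, sub_smul, Finset.sum_sub_distrib, ite_smul,
        zero_smul, Finset.sum_ite_eq, Finset.mem_univ, if_true]
      have h2 : dlog (u l) = ∑ i, b l i • dlog (rest x σ i) := hb1 l
      have h3 : ∑ i, b l i • dlog (rest x σ i) =
          (∑ i, b l i * (c i 0 * t⁻¹)) • KaehlerDifferential.D ℂ K t +
          ∑ j : Fin m, (∑ i, b l i * c i j.succ) • KaehlerDifferential.D ℂ K (u j) := by
        have h4 : ∀ i, b l i • dlog (rest x σ i) =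
            (b l i * (c i 0 * t⁻¹)) • KaehlerDifferential.D ℂ K t +
            ∑ j : Fin m, (b l i * c i j.succ) • KaehlerDifferential.D ℂ K (u j) := by
          intro i
          rw [hc2 i, smul_add, Finset.smul_sum]
          simp only [dlog, smul_smul]
        simp only [h4, Finset.sum_add_distrib, Finset.sum_smul]
        congr 1
        rw [Finset.sum_comm]
      have h5 : dlog (u l) = (u l)⁻¹ • KaehlerDifferential.D ℂ K (u l) := rfl
      rw [← h5, h2, h3]
      abel
    have h6 := Fintype.linearIndependent_iff.1 hli _ h1 j.succ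
    rw [Fin.cons_succ] at h6
    exact sub_eq_zero.1 h6
  obtain ⟨i0, hi0⟩ := EQ0c.key v (fun i j => c i j.succ) (fun l i => u l * b l i)
    (fun i j => hc0 i j.succ)
    (fun l i => Ge.mul_left (Or.inr (hu1 l).ge) (hb0 l i)) (by
      intro l j
      have h1 : ∑ i, u l * b l i * c i j.succ = u l * ∑ i, b l i * c i j.succ := by
        rw [Finset.mul_sum]
        exact Finset.sum_congr rfl fun i _ => mul_assoc _ _ _
      rw [h1, hcoef]
      by_cases h : l = j
      · rw [if_pos h, if_pos h, mul_inv_cancel₀ (hu0 l)]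
      · rw [if_neg h, if_neg h, mul_zero])
  refine ⟨i0, hIND hR.dim v t u hFr _ (fun l => c (i0.succAbove l)) (fun l => hz _)
    (fun l j => hc0 _ j) (fun l => hc2 _) hi0⟩

end

end MMCI
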