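import Pool.Agent.MMCI.StC

/-!
# MP_fa3f7f_ag, MMCI: functions which are regular at the image of a point of a curve
-/

namespace MMCI

open MldGeo

noncomputable section

theorem RGW.ord_one {e : ℕ} {K : Type} [Field K] [Algebra ℂ K] (v : DivVal e K) :
    v.ord 1 = 0 := by
  have h := v.ord_mul 1 1 one_ne_zero one_ne_zero
  rw [mul_one] at h
  linarith

theorem RGW.ord_inv {e : ℕ} {K : Type} [Field K] [Algebra ℂ K] (v : DivVal e K) {a : K}
    (ha : a ≠ 0) : v.ord a⁻¹ = - v.ord a := by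
  have h := v.ord_mul a a⁻¹ ha (inv_ne_zero ha)
  rw [mul_inv_cancel₀ ha, RGW.ord_one] at h
  linarith

theorem t_RGW (hRSU : Stmt_RSU) : Stmt_RGW := by
  intro K _ _ Y γ w i m hm z p q hq hz
  obtain ⟨-, -, hmul, hpow, -, -, -⟩ := hRSU γ
  obtain ⟨-, hm⟩ := hm
  obtain ⟨up, hp1, hp2, hp3⟩ := hm p
  obtain ⟨uq, hq1, hq2, hq3⟩ := hm q
  have hq4 : ¬ (uq = 0 ∨ 0 < w.ord uq) := fun h => hq (hq3.2 h)
  have huq : uq ≠ 0 := fun h => hq4 (Or.inl h)
  have hoq : w.ord uq = 0 := by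
    rcases hq2 with h | h
    · exact absurd h huq
    · rcases h.lt_or_eq with h | h
      · exact absurd (Or.inr h) hq4
      · exact h.symm
  obtain ⟨hq0, hqk⟩ := hpow _ _ hq1 huq
  have hinv : γ.Restr ((q : K)⁻¹) (uq⁻¹) := by
    have := hqk (-1)
    simpa using this
  have hzz : z = (p : K) * (q : K)⁻¹ := by
    rw [← hz, mul_assoc, mul_inv_cancel₀ hq0, mul_one]
  have hoi : w.ord uq⁻¹ = 0 := by rw [RGW.ord_inv w huq, hoq, neg_zero]
  have hmulo : up ≠ 0 → w.ord (up * uq⁻¹) = w.ord up := fun h => by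
    rw [w.ord_mul _ _ h (inv_ne_zero huq), hoi, add_zero]
  refine ⟨up * uq⁻¹, ?_, ?_, ?_, ?_⟩
  · rw [hzz]
    exact hmul _ _ _ _ hp1 hinv
  · by_cases h : up = 0
    · left
      rw [h, zero_mul]
    · right
      rw [hmulo h]
      exact hp2.resolve_left h
  · intro hpm
    have h4 : ¬ (up = 0 ∨ 0 < w.ord up) := fun h => hpm (hp3.2 h)
    have h5 : up ≠ 0 := fun h => h4 (Or.inl h)
    refine ⟨mul_ne_zero h5 (inv_ne_zero huq), ?_⟩
    rw [hmulo h5]
    rcases (hp2.resolve_left h5).lt_or_eq with h | h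
    · exact absurd (Or.inr h) h4
    · exact h.symm
  · intro hpm
    by_cases h : up = 0
    · left
      rw [h, zero_mul]
    · right
      rw [hmulo h]
      exact (hp3.1 hpm).resolve_left h

end

end MMCI
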