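import Pool.Agent.MMCI.StR

/-!
# BLK: diagonal blocks of a triangular invertible matrix
-/

namespace MMCI

noncomputable section

/-- BLK: the diagonal blocks of a triangular invertible matrix are invertible. -/
theorem t_BLK : S_BLK := by
  intro g K _ M q hM htri s τ hτ hMτ
  have hunit : IsUnit M.det := isUnit_iff_ne_zero.2 hM
  let _ : Invertible M := M.invertibleOfIsUnitDet hunit
  have h1 : Matrix.BlockTriangular M fun i => OrderDual.toDual (q i) := by
    intro i j hij
    exact htri i j hij
  have h2 := Matrix.blockTriangular_inv_of_blockTriangular h1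
  have h3 : ∀ i, q i ≤ s → M.mulVec τ i = 0 := by
    intro i hi
    rcases hi.lt_or_eq with h | h
    · change ∑ j, M i j * τ j = 0
      refine Finset.sum_eq_zero fun j _ => ?_
      by_cases hj : q j = s
      · rw [htri i j (by omega), zero_mul]
      · rw [hτ j hj, mul_zero]
    · exact hMτ i h
  have h4 : τ = M⁻¹.mulVec (M.mulVec τ) := by
    rw [Matrix.mulVec_mulVec, Matrix.nonsing_inv_mul _ hunit, Matrix.one_mulVec]
  funext i
  by_cases hi : q i = s
  · rw [h4]
    change ∑ j, M⁻¹ i j * M.mulVec τ j = 0
    refine Finset.sum_eq_zero fun j _ => ?_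
    by_cases hj : q j ≤ s
    · rw [h3 j hj, mul_zero]
    · have h5 : M⁻¹ i j = 0 := by
        apply h2
        change q i < q j
        omega
      rw [h5, zero_mul]
  · exact hτ i hi

end

end MMCI
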