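import Pool.Agent.MMCI.StR

/-!
# Block RED, module TEX: characters of the torus
-/

namespace MMCI

open MldGeo

noncomputable section

namespace R_TEX

variable {L : Type} [Field L]

/-- The group of units of an algebraically closed field is divisible. -/
lemma baer [IsAlgClosed L] : Module.Baer ℤ (Additive Lˣ) := by
  have hsurj : ∀ {m : ℤ}, m ≠ 0 → Function.Surjective fun a : Additive Lˣ => m • a := by
    intro m hm a
    have hpos : 0 < m.natAbs := Int.natAbs_pos.mpr hm
    obtain ⟨z, hz⟩ := IsAlgClosed.exists_pow_nat_eq ((Additive.toMul a : Lˣ) : L) hpos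
    have hz0 : z ≠ 0 := by
      rintro rfl
      rw [zero_pow hpos.ne'] at hz
      exact (Units.ne_zero _) hz.symm
    have hu : (Units.mk0 z hz0) ^ m.natAbs = Additive.toMul a := by
      ext
      simpa using hz
    rcases Int.natAbs_eq m with h | h
    · refine ⟨Additive.ofMul (Units.mk0 z hz0), ?_⟩
      show m • Additive.ofMul (Units.mk0 z hz0) = a
      rw [← ofMul_zpow]
      apply Additive.toMul.injective
      rw [toMul_ofMul, h, zpow_natCast, hu]
    · refine ⟨Additive.ofMul (Units.mk0 z hz0)⁻¹, ?_⟩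
      show m • Additive.ofMul (Units.mk0 z hz0)⁻¹ = a
      rw [← ofMul_zpow]
      apply Additive.toMul.injective
      rw [toMul_ofMul, h, inv_zpow, zpow_neg, zpow_natCast, hu, inv_inv]
  let : DivisibleBy (Additive Lˣ) ℤ := divisibleByOfSMulRightSurj _ _ hsurj
  exact Module.Baer.of_divisible _

lemma pair_add {n : ℕ} (ν m m' : Fin n → ℤ) : pair ν (m + m') = pair ν m + pair ν m' := by
  simp [pair, mul_add, Finset.sum_add_distrib]

lemma pair_zero {n : ℕ} (ν : Fin n → ℤ) : pair ν 0 = 0 := by simp [pair]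

/-- The pairings with all `ν j`. -/
def rho {n g : ℕ} (ν : Fin (g + 1) → (Fin n → ℤ)) : (Fin n → ℤ) →+ (Fin (g + 1) → ℤ) where
  toFun m := fun j => pair (ν j) m
  map_zero' := by ext j; exact pair_zero _
  map_add' m m' := by ext j; exact pair_add _ _ _

lemma mon_ne {n : ℕ} {h : Fin n → L} (hh : ∀ k, h k ≠ 0) (m : Fin n → ℤ) : mon h m ≠ 0 :=
  Finset.prod_ne_zero_iff.mpr fun i _ => zpow_ne_zero _ (hh i)

lemma mon_add {n : ℕ} {h : Fin n → L} (hh : ∀ k, h k ≠ 0) (m m' : Fin n → ℤ) :
    mon h (m + m') = mon h m * mon h m' := by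
  simp only [mon, Pi.add_apply]
  rw [← Finset.prod_mul_distrib]
  exact Finset.prod_congr rfl fun i _ => zpow_add₀ (hh i) _ _

lemma mon_zero {n : ℕ} (h : Fin n → L) : mon h 0 = 1 := by simp [mon]

/-- The character `m ↦ mon h m`. -/
def phi {n : ℕ} (h : Fin n → L) (hh : ∀ k, h k ≠ 0) : (Fin n → ℤ) →+ Additive Lˣ where
  toFun m := Additive.ofMul (Units.mk0 (mon h m) (mon_ne hh m))
  map_zero' := by
    rw [ofMul_eq_zero]
    ext
    simp [mon_zero]
  map_add' m m' := by
    rw [← ofMul_mul]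
    congr 1
    ext
    simp [mon_add hh]

lemma hom_apply {k : ℕ} (H : (Fin k → ℤ) →+ Additive Lˣ) (y : Fin k → ℤ) :
    ((Additive.toMul (H y) : Lˣ) : L) =
      ∏ j, ((Additive.toMul (H (Pi.single j 1)) : Lˣ) : L) ^ y j := by
  have h1 : y = ∑ j, y j • (Pi.single j 1 : Fin k → ℤ) := by
    ext i
    simp [Finset.sum_apply, Pi.single_apply]
  have h2 : H y = ∑ j, y j • H (Pi.single j 1) := by
    conv_lhs => rw [h1]
    rw [map_sum]
    exact Finset.sum_congr rfl fun j _ => map_zsmul _ _ _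
  rw [h2, toMul_sum, Units.coe_prod]
  exact Finset.prod_congr rfl fun j _ => by rw [toMul_zsmul, Units.val_zpow_eq_zpow_val]

end R_TEX

theorem t_TEX : S_TEX := by
  intro n g L _ _ ν c j0 h hc hrel hh htriv
  have hker : ∀ m ∈ (R_TEX.rho ν).ker, R_TEX.phi h hh m = 0 := by
    intro m hm
    have hm' : ∀ j, pair (ν j) m = 0 := fun j => congrFun ((AddMonoidHom.mem_ker).mp hm) j
    have h1 := htriv m hm'
    show Additive.ofMul (Units.mk0 (mon h m) _) = 0
    rw [ofMul_eq_zero]
    ext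
    simpa using h1
  obtain ⟨H, hH⟩ := (R_TEX.baer (L := L)).extension_property_addMonoidHom
    (QuotientAddGroup.kerLift (R_TEX.rho ν)) (QuotientAddGroup.kerLift_injective _)
    (QuotientAddGroup.lift (R_TEX.rho ν).ker (R_TEX.phi h hh) hker)
  have hHm : ∀ m, H (R_TEX.rho ν m) = R_TEX.phi h hh m := by
    intro m
    have := DFunLike.congr_fun hH (QuotientAddGroup.mk m)
    simpa using this
  obtain ⟨t0, ht0⟩ : ∃ t0 : Fin (g + 1) → L,
      t0 = fun j => ((Additive.toMul (H (Pi.single j 1)) : Lˣ) : L) := ⟨_, rfl⟩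
  have ht0ne : ∀ j, t0 j ≠ 0 := by
    intro j
    rw [ht0]
    exact Units.ne_zero _
  have hmon : ∀ m, mon h m = ∏ j, t0 j ^ pair (ν j) m := by
    intro m
    have h1 := R_TEX.hom_apply H (R_TEX.rho ν m)
    rw [hHm] at h1
    rw [ht0]
    exact h1
  obtain ⟨l, hl⟩ := IsAlgClosed.exists_pow_nat_eq (t0 j0)⁻¹ (hc j0)
  have hl0 : l ≠ 0 := by
    rintro rfl
    rw [zero_pow (hc j0).ne'] at hl
    exact inv_ne_zero (ht0ne j0) hl.symm
  refine ⟨fun j => t0 j * l ^ c j, fun j => mul_ne_zero (ht0ne j) (pow_ne_zero _ hl0), ?_, ?_⟩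
  · show t0 j0 * l ^ c j0 = 1
    rw [hl, mul_inv_cancel₀ (ht0ne j0)]
  · intro m
    have hsum : ∑ j, (c j : ℤ) * pair (ν j) m = 0 := by
      have h1 : ∑ j, (c j : ℤ) * pair (ν j) m = ∑ i, (∑ j, (c j : ℤ) • ν j) i * m i := by
        simp only [pair, Finset.mul_sum, Finset.sum_apply, Pi.smul_apply, smul_eq_mul,
          Finset.sum_mul]
        rw [Finset.sum_comm]
        exact Finset.sum_congr rfl fun i _ => Finset.sum_congr rfl fun j _ => by ring
      rw [h1, hrel]
      simp
    have h2 : ∏ j, (l ^ c j) ^ pair (ν j) m = 1 := by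
      have h3 : ∀ j, (l ^ c j) ^ pair (ν j) m = l ^ ((c j : ℤ) * pair (ν j) m) := by
        intro j
        rw [zpow_mul, zpow_natCast]
      rw [Finset.prod_congr rfl fun j _ => h3 j]
      have h4 : ∀ s : Finset (Fin (g + 1)), ∏ j ∈ s, l ^ ((c j : ℤ) * pair (ν j) m) =
          l ^ (∑ j ∈ s, (c j : ℤ) * pair (ν j) m) := by
        intro s
        classical
        induction s using Finset.induction_on with
        | empty => simp
        | insert a s ha ih => rw [Finset.prod_insert ha, Finset.sum_insert ha, zpow_add₀ hl0, ih]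
      rw [h4, hsum, zpow_zero]
    rw [hmon]
    simp only [mul_zpow]
    rw [Finset.prod_mul_distrib, h2, mul_one]

end

end MMCI
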