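import Pool.Agent.MMCI.Defs
import Pool.Agent.MldGeo.Stmts6

/-!
# The interface between the blocks
-/

namespace MMCI

open MldGeo

noncomputable section

variable {e n r : ℕ} {K : Type} [Field K] [Algebra ℂ K]

/-- The residues of the functions `u l` with respect to `v` are algebraically independent. -/
def ResIndep {k : ℕ} (v : DivVal e K) (u : Fin k → K) : Prop :=
  ∀ p : MvPolynomial (Fin k) ℂ, p ≠ 0 → MvPolynomial.aeval u p ≠ 0 ∧
    v.ord (MvPolynomial.aeval u p) = 0

/-- The orders of the coordinates. -/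
def wt (x : Fin n → K) (v : DivVal e K) : Fin n → ℤ := fun j => v.ord (x j)

/-- The sum of the minima: the order function of the sum of the Newton polytopes. -/
def psi (f : Fin r → Laurent n) (ν : Fin n → ℤ) : ℤ := ∑ i, minOn (f i) ν

/-- The minor of the gradient matrix with the columns `σ(inl j)`. -/
def minor (f : Fin r → Laurent n) (x : Fin n → K) (σ : Fin r ⊕ Fin e ≃ Fin n) : K :=
  Matrix.det (Matrix.of fun i j : Fin r => grad x (f i) (σ (Sum.inl j)))

/-- The basic data: `r` Laurent polynomials and a point `x` of the torus over `K`, `K = ℂ(x)`. -/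
structure Base (e : ℕ) (f : Fin r → Laurent n) (x : Fin n → K) : Prop where
  dim_eq : n = r + e
  pos : 0 < e
  f_ne : ∀ i, f i ≠ 0
  ne : ∀ j, x j ≠ 0
  gen : IntermediateField.adjoin ℂ (Set.range x) = ⊤
  dim : Algebra.trdeg ℂ K = (e : Cardinal)

/-- A system of `r` Laurent polynomials with the zero `x`, nondegenerate at the generic point. -/
structure Reg (e : ℕ) (f : Fin r → Laurent n) (x : Fin n → K) : Prop extends Base e f x where
  zero : ∀ i, ev x (f i) = 0
  rank : LinearIndependent K fun i => grad x (f i)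

/-- The abstract data: a system of `r` Laurent polynomials with the zero `x`, which is nondegenerate
at the generic point and at all divisorial valuations. -/
structure Sys (e : ℕ) (f : Fin r → Laurent n) (x : Fin n → K) : Prop extends Reg e f x where
  nd : ∀ v : DivVal e K, ∃ σ : Fin r ⊕ Fin e ≃ Fin n, minor f x σ ≠ 0 ∧
    v.ord (minor f x σ) = psi f (wt x v)

/-- SYS: nondegenerate complete intersections satisfy the conditions of `Sys`. -/
def S_SYS : Prop := ∀ {e n r : ℕ} {K : Type} [Field K] [Algebra ℂ K] (f : Fin r → Laurent n)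
  (x : Fin n → K), IsNCI e f x → Sys e f x

/-! ## Block FAN: convex geometry (architect helper92) -/

/-- `w` is minimal at `a` on the finite set `A`. -/
def MinAt (A : Finset (Fin n → ℤ)) (a w : Fin n → ℤ) : Prop :=
  a ∈ A ∧ ∀ b ∈ A, pair w a ≤ pair w b

/-- Primitive vectors. -/
def Primitive (w : Fin n → ℤ) : Prop := ∃ m, pair w m = 1

/-- The combinatorial datum: `A` contains the vertices of a lattice polytope `Q` and is contained in
it, `u a / k` is the exponent of the canonical divisor near the point `a`. The rays of the normal fan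
of `Q` are the primitive vectors with equality in `disc`. -/
structure Fan (f : Fin r → Laurent n) where
  A : Finset (Fin n → ℤ)
  nonempty : A.Nonempty
  /-- the differences span -/
  full : ∀ a ∈ A, ∃ b : Fin n → (Fin n → ℤ), (∀ l, b l ∈ A) ∧
    LinearIndependent ℤ fun l => b l - a
  k : ℕ
  k_pos : 0 < k
  u : (Fin n → ℤ) → (Fin n → ℤ)
  disc : ∀ w a, Primitive w → MinAt A a w → k * (psi f w + 1) ≤ pair w (u a)
  cons : ∀ w a a', MinAt A a w → MinAt A a' w → pair w (u a) = pair w (u a')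
  /-- if there is equality then `w` is the normal vector of a facet -/
  ray : ∀ w a, Primitive w → MinAt A a w → pair w (u a) = k * (psi f w + 1) →
    ∃ b : Fin (n - 1) → (Fin n → ℤ), (∀ l, b l ∈ A) ∧ (∀ l, pair w (b l - a) = 0) ∧
      LinearIndependent ℤ fun l => b l - a
  /-- otherwise `w` lies in the interior of a simplicial cone of dimension `s ≥ 2` spanned by rays, and
  at most `s - 2` of the functions `minOn (f i)` are not additive on it -/
  nonray : ∀ w a, Primitive w → MinAt A a w → pair w (u a) ≠ k * (psi f w + 1) →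
    ∃ (s : ℕ) (ν : Fin s → (Fin n → ℤ)) (c : Fin s → ℕ) (c0 : ℕ), 0 < c0 ∧ (∀ j, 0 < c j) ∧
      LinearIndependent ℤ ν ∧ (c0 : ℤ) • w = ∑ j, (c j : ℤ) • ν j ∧ (∀ j, MinAt A a (ν j)) ∧
      ∑ i, (minOn (f i) (∑ j, ν j) - ∑ j, minOn (f i) (ν j)) + 2 ≤ s

/-- Case (a): the canonical divisor is nef. -/
structure FanA (f : Fin r → Laurent n) extends Fan f where
  nef : ∀ w a a', MinAt A a w → a' ∈ A → pair w (u a) ≤ pair w (u a')

/-- Case (b): `b a` are the vertices of a polytope of smaller dimension. -/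
structure FanB (f : Fin r → Laurent n) extends Fan f where
  b : (Fin n → ℤ) → (Fin n → ℤ)
  nef : ∀ w a a', MinAt A a w → a' ∈ A → pair w (b a) ≤ pair w (b a')
  pos : ∀ w a a', MinAt A a w → a' ∈ A → pair w (b a') = pair w (b a) →
    pair w (u a') ≤ pair w (u a) ∧ (pair w (u a') = pair w (u a) → MinAt A a' w)
  /-- the circuit -/
  g : ℕ
  g_pos : 0 < g
  ν : Fin (g + 1) → (Fin n → ℤ)
  c : Fin (g + 1) → ℕ
  c_pos : ∀ j, 0 < c j
  rel : ∑ j, (c j : ℤ) • ν j = 0
  indep : ∀ j0 : Fin (g + 1), LinearIndependent ℤ fun j : Fin g => ν (j0.succAbove j)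
  const : ∀ j, ∀ a ∈ A, ∀ a' ∈ A, pair (ν j) (b a) = pair (ν j) (b a')
  circ : 0 < ∑ j, (c j : ℤ) * (psi f (ν j) + 1)

/-- FAN: the combinatorial datum exists. -/
def S_FAN : Prop := ∀ {n r : ℕ} (f : Fin r → Laurent n), 0 < n → (∀ i, f i ≠ 0) →
  Nonempty (FanA f) ∨ Nonempty (FanB f)

/-- The Fine interior of the sum of the Newton polytopes. -/
def FineInterior (f : Fin r → Laurent n) : Set (Fin n → ℝ) :=
  {m | ∀ ν : Fin n → ℤ, ν ≠ 0 → ((psi f ν : ℤ) : ℝ) + 1 ≤ ∑ j, (ν j : ℝ) * m j}

/-- FAA: case (a) for a nonempty Fine interior. -/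
def S_FAA : Prop := ∀ {n r : ℕ} (f : Fin r → Laurent n), 0 < n → (∀ i, f i ≠ 0) →
  (FineInterior f).Nonempty → Nonempty (FanA f)

/-! ## Block RED: case (b), the reduction (architect helper92) -/

/-- RED: if `K` is algebraic over the field generated by the monomials which are constant on the
circuit, then the number of variables can be reduced. -/
def S_RED : Prop := ∀ {e n r : ℕ} {K : Type} [Field K] [Algebra ℂ K] (f : Fin r → Laurent n)
  (x : Fin n → K), Sys e f x → ∀ F : FanB f,
  Algebra.trdeg ℂ (IntermediateField.adjoin ℂ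
    {z | ∃ a ∈ F.A, ∃ a' ∈ F.A, z = mon x (F.b a - F.b a')}) = (e : Cardinal) →
  ∃ (n' r' : ℕ) (f' : Fin r' → Laurent n') (x' : Fin n' → K), n' < n ∧ Sys e f' x'

/-! ## Block B: valuations and forms (architect helper5) -/

/-- The residues of the monomials of order zero have transcendence degree `e - 1`. -/
def Big (x : Fin n → K) (v : DivVal e K) : Prop :=
  ∃ m : Fin (e - 1) → (Fin n → ℤ), (∀ l, pair (wt x v) (m l) = 0) ∧ ResIndep v fun l => mon x (m l)

/-- The orders of the form `ω`, and a monomial of order one. -/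
structure LogData (e : ℕ) (f : Fin r → Laurent n) (x : Fin n → K) (ω : Forms e K) : Prop where
  ne : ω ≠ 0
  low : ∀ v : DivVal e K, wt x v ≠ 0 → - psi f (wt x v) ≤ v.logOrd ω
  eq : ∀ v : DivVal e K, wt x v ≠ 0 → (v.logOrd ω = - psi f (wt x v) ↔ Big x v)
  low0 : ∀ v : DivVal e K, wt x v = 0 → 1 ≤ v.logOrd ω
  eq0 : ∀ v : DivVal e K, wt x v = 0 → (v.logOrd ω = 1 ↔ Big x v)
  unit : ∀ v : DivVal e K, wt x v ≠ 0 → Big x v → Primitive (wt x v)
  /-- the residues of the monomials whose exponents are orthogonal to `ν_1, …, ν_s` -/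
  bnd : ∀ v : DivVal e K, wt x v ≠ 0 → ∀ (s : ℕ) (ν : Fin s → (Fin n → ℤ)) (c : Fin s → ℕ) (c0 : ℕ),
    0 < c0 → (∀ j, 0 < c j) → LinearIndependent ℤ ν → (c0 : ℤ) • wt x v = ∑ j, (c j : ℤ) • ν j →
    ∑ i, (minOn (f i) (∑ j, ν j) - ∑ j, minOn (f i) (ν j)) + 2 ≤ s →
    ¬ ∃ m : Fin (e - 1) → (Fin n → ℤ), (∀ l j, pair (ν j) (m l) = 0) ∧
      ResIndep v fun l => mon x (m l)

/-- LOG: the residue form. -/
def S_LOG : Prop := ∀ {e n r : ℕ} {K : Type} [Field K] [Algebra ℂ K] (f : Fin r → Laurent n)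
  (x : Fin n → K), Sys e f x → ∃ ω : Forms e K, LogData e f x ω

/-- RES: the residues of monomials, and vectors which span the orthogonal complement of the weight
over the rational numbers. -/
def S_RES : Prop := ∀ {e n k : ℕ} {K : Type} [Field K] [Algebra ℂ K] (x : Fin n → K),
  Algebra.trdeg ℂ K = (e : Cardinal) → 0 < e → (∀ j, x j ≠ 0) → ∀ v : DivVal e K, Big x v →
  ∀ b : Fin k → (Fin n → ℤ), (∀ l, pair (wt x v) (b l) = 0) →
    (∀ m, pair (wt x v) m = 0 → ∃ (N : ℤ) (c : Fin k → ℤ), N ≠ 0 ∧ N • m = ∑ l, c l • b l) →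
    ∃ j : Fin (e - 1) → Fin k, ResIndep v fun l => mon x (b (j l))

/-! ## Block C: the projective model (architect helper39) -/

/-- `Y` is a projective model of the toric closure: it is normal, and near every point it is a finite
modification of the affine toric chart of some `a ∈ A`, the ring `ℂ[x^(b - a) : b ∈ A]`. -/
structure IsModel (e : ℕ) (x : Fin n → K) (A : Finset (Fin n → ℤ)) (Y : ProjModel K) : Prop where
  normal : ∀ i (a : K), IsIntegral (Y.ring i) a → a ∈ Y.ring i
  /-- the point `m` lies in the chart of `a` -/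
  pt : ∀ i (m : Ideal (Y.ring i)), m.IsMaximal → ∃ a ∈ A,
    ∀ (v : DivVal e K) (P : Ideal (Y.ring i)), HasCentre (Y.ring i) v P → P ≤ m →
      MinAt A a (wt x v) ∧
        (P.height = 1 ↔ ∃ b : Fin (e - 1) → (Fin n → ℤ), (∀ l, b l ∈ A) ∧
          ResIndep v fun l => mon x (b l - a))
  /-- curves are not contracted by the map to the toric variety -/
  fin : ∀ (γ : CurveMap Y), ∀ a ∈ A, ¬ ∀ b ∈ A, ∃ c : ℂ,
    γ.Restr (mon x (b - a)) (algebraMap ℂ γ.L c)

/-- MOD: the projective model exists. -/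
def S_MOD : Prop := ∀ {e n : ℕ} {K : Type} [Field K] [Algebra ℂ K] (x : Fin n → K),
  (∀ j, x j ≠ 0) → IntermediateField.adjoin ℂ (Set.range x) = ⊤ →
  Algebra.trdeg ℂ K = (e : Cardinal) → 0 < e → ∀ A : Finset (Fin n → ℤ), A.Nonempty →
  (∀ a ∈ A, ∃ b : Fin n → (Fin n → ℤ), (∀ l, b l ∈ A) ∧ LinearIndependent ℤ fun l => b l - a) →
  ∃ Y : ProjModel K, IsModel e x A Y

/-! ## Block D: the canonical divisor on curves (architect helper39) -/

/-- NEF: semiample implies nef. -/
def S_NEF : Prop := ∀ {e : ℕ} {K : Type} [Field K] [Algebra ℂ K] (Y : ProjModel K),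
  Algebra.trdeg ℂ K = (e : Cardinal) → 0 < e →
  (∀ i (a : K), IsIntegral (Y.ring i) a → a ∈ Y.ring i) → Y.Semiample e → Y.Nef e

/-- FIB: the Mori fibre space. -/
def S_FIB : Prop := ∀ {e n r : ℕ} {K : Type} [Field K] [Algebra ℂ K] (f : Fin r → Laurent n)
  (x : Fin n → K), Base e f x → ∀ (F : FanB f) (ω : Forms e K) (Y : ProjModel K), ω ≠ 0 →
  IsModel e x F.A Y →
  (∀ i (v : DivVal e K) (P : Ideal (Y.ring i)), IsPrimeDivisor (Y.ring i) v P →
    ∀ a ∈ F.A, MinAt F.A a (wt x v) → F.k * v.formOrd ω = - pair (wt x v) (F.u a)) →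
  Algebra.trdeg ℂ (IntermediateField.adjoin ℂ
    {z | ∃ a ∈ F.A, ∃ a' ∈ F.A, z = mon x (F.b a - F.b a')}) < (e : Cardinal) →
  Y.MoriFibre e

end

end MMCI
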