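import Pool.Agent.MMCI.St

/-!
# Block B: valuations and forms. Statements.

Everything is about a divisorial valuation `v` of `K`, `tr.deg K = m + 1`; `v.Ge k a` means `a = 0` or
`k ≤ v.ord a`. Tools (all proved in `Pool/Agent/MldGeo`): `t_FRA`, `t_LOGD`, `t_TBAS`, `t_COE`,
`t_FRM`, `t_FSM`, `t_FDL`, `t_REG` (statements `Stmt_…` in `MldGeo/Stmts1.lean`; import
`Pool.Agent.MMCI.Tools` for the versions `cFRA`, `cCOE`, … without hypotheses), and the lemmas of
`MldGeo/Ord.lean`.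
-/

namespace MMCI

open MldGeo

noncomputable section

variable {e n r : ℕ} {K : Type} [Field K] [Algebra ℂ K]

/-- The rows of `M` are linearly independent modulo the maximal ideal of `v`. -/
def IndepMod {k l : ℕ} (v : DivVal e K) (M : Fin k → Fin l → K) : Prop :=
  ∀ a : Fin k → K, (∀ i, v.Ge 0 (a i)) → (∀ j, v.Ge 1 (∑ i, a i * M i j)) → ∀ i, v.Ge 1 (a i)

/-- The minor has the least possible order. -/
def UnitMinor (f : Fin r → Laurent n) (x : Fin n → K) (v : DivVal e K)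
    (σ : Fin r ⊕ Fin e ≃ Fin n) : Prop :=
  minor f x σ ≠ 0 ∧ v.ord (minor f x σ) = psi f (wt x v)

/-- The coordinates which are not columns of the minor. -/
def rest (x : Fin n → K) (σ : Fin r ⊕ Fin e ≃ Fin n) : Fin e → K := fun l => x (σ (Sum.inr l))

/-! ## elementary facts -/

/-- MON: monomials, and the differential of the value of a Laurent polynomial. -/
def S_MON : Prop := ∀ {e n : ℕ} {K : Type} [Field K] [Algebra ℂ K] (x : Fin n → K),
  (∀ j, x j ≠ 0) →
  (∀ m, mon x m ≠ 0) ∧ (∀ m m', mon x (m + m') = mon x m * mon x m') ∧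
  (∀ m, dlog (mon x m) = ∑ j, (m j : K) • dlog (x j)) ∧
  (∀ f : Laurent n, ev x f = 0 → ∑ j, grad x f j • dlog (x j) = 0) ∧
  ∀ v : DivVal e K, (∀ m, v.ord (mon x m) = pair (wt x v) m) ∧
    (∀ f : Laurent n, v.Ge (minOn f (wt x v)) (ev x f)) ∧
    (∀ (f : Laurent n) j, v.Ge (minOn f (wt x v)) (grad x f j)) ∧
    ∀ (f : Laurent n) (ν : Fin n → ℤ) (c : ℤ), ev x f = 0 →
      (∀ m ∈ f.coeff.support, pair (wt x v) m = minOn f (wt x v) → pair ν m = c) →
      v.Ge (minOn f (wt x v) + 1) (∑ j, (ν j : K) * grad x f j)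

/-- BAS: if a minor is not zero, then the other coordinates are a transcendence basis, and
derivations can be prescribed by the gradients. (The differentials of the `x_j` span `Ω` because
`K = ℂ(x)`; by the relations `∑_j grad_j dlog x_j = 0` and the invertible minor those of the `rest`
span it; there are `e = dim Ω` of them. For the last claim prescribe `D` on the basis
`dlog (rest l)`; on the columns of the minor the values are determined by the relations, which `δ`
satisfies too.) -/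
def S_BAS : Prop := ∀ {e n r : ℕ} {K : Type} [Field K] [Algebra ℂ K] (f : Fin r → Laurent n)
  (x : Fin n → K), (∀ j, x j ≠ 0) → IntermediateField.adjoin ℂ (Set.range x) = ⊤ →
  Algebra.trdeg ℂ K = (e : Cardinal) → (∀ i, ev x (f i) = 0) →
  ∀ σ : Fin r ⊕ Fin e ≃ Fin n, minor f x σ ≠ 0 →
    AlgebraicIndependent ℂ (rest x σ) ∧ dlogs (rest x σ) ≠ 0 ∧
    ∀ δ : Fin n → K, (∀ i, ∑ j, δ j * grad x (f i) j = 0) →
      ∃ D : Derivation ℂ K K, ∀ j, D (x j) = δ j * x j

def M_BAS : Prop := S_MON → S_BAS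

/-- ELI: elimination. (Cramer's rule for the columns `σ(inl j)`: the coefficients are quotients of
`r × r` minors of the gradient matrix by the minor `σ`; by `MON` every such minor has order at least
`∑_i minOn (f i) w`, see the lemmas `Ge.det_…` in `MldGeo/Ord.lean`.) -/
def S_ELI : Prop := ∀ {e n r : ℕ} {K : Type} [Field K] [Algebra ℂ K] (f : Fin r → Laurent n)
  (x : Fin n → K), (∀ j, x j ≠ 0) → (∀ i, ev x (f i) = 0) → ∀ (v : DivVal e K)
  (σ : Fin r ⊕ Fin e ≃ Fin n), UnitMinor f x v σ → ∀ m : Fin n → ℤ, ∃ b : Fin e → K,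
    (∀ l, v.Ge 0 (b l)) ∧ dlog (mon x m) = ∑ l, b l • dlog (rest x σ l)

def M_ELI : Prop := S_MON → S_ELI

/-- SOL: linear equations over a ring `B` in which the elements of order zero are invertible.
(`G i j = grad x (f i) j / y i` is a matrix over `B` and its minor `σ` has order zero, so its inverse
is in `B`; Cramer's rule.) -/
def S_SOL : Prop := ∀ {e n r : ℕ} {K : Type} [Field K] [Algebra ℂ K] (f : Fin r → Laurent n)
  (x : Fin n → K) (v : DivVal e K) (σ : Fin r ⊕ Fin e ≃ Fin n), UnitMinor f x v σ →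
  ∀ (B : Subalgebra ℂ K) (y h : Fin r → K), (∀ b ∈ B, b ≠ 0 → v.ord b = 0 → b⁻¹ ∈ B) →
  (∀ i, y i ≠ 0 ∧ v.ord (y i) = minOn (f i) (wt x v) ∧ (∀ j, grad x (f i) j / y i ∈ B) ∧
    h i / y i ∈ B) →
  ∃ δ : Fin n → K, (∀ j, δ j ∈ B) ∧ (∀ l, δ (σ (Sum.inr l)) = 0) ∧
    ∀ i, ∑ j, δ j * grad x (f i) j = h i

/-- PLU: complementary minors. (Let `P` be the matrix with the columns `σ` of `G` and consider the
homomorphism `K^n → E`, `ε_j ↦ y_j`; after multiplication of the rows of `G` by the inverse of the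
block `G_σ` one has `y_(σ(inl i)) = - ∑_l A_il y_(σ(inr l))`, all `y_j` are combinations of the
`y_(σ(inr l))` with the coefficient matrix `B = (-A; I)`, so `ιMulti (y ∘ τ ∘ inr) = det B_(τ inr)
ιMulti (y ∘ σ ∘ inr)`, and `det B_(τ inr) = ± det G_(τ inl) / det G_(σ inl)`: complementary minors of
`(I | A)` and `(-A; I)`; consider the product of the square matrix with the rows of `(I | A)` and the
unit rows `τ(inr l)` by the invertible matrix `(I, -A; 0, I)`.) -/
def S_PLU : Prop := ∀ {e n r : ℕ} {K E : Type} [Field K] [AddCommGroup E] [Module K E]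
  (y : Fin n → E) (G : Fin r → Fin n → K), (∀ i, ∑ j, G i j • y j = 0) →
  ∀ σ τ : Fin r ⊕ Fin e ≃ Fin n,
  (Matrix.of fun i j : Fin r => G i (σ (Sum.inl j))).det ≠ 0 →
  ∃ ε : K, (ε = 1 ∨ ε = -1) ∧
    (Matrix.of fun i j : Fin r => G i (σ (Sum.inl j))).det •
      exteriorPower.ιMulti K e (fun l => y (τ (Sum.inr l))) =
    (ε * (Matrix.of fun i j : Fin r => G i (τ (Sum.inl j))).det) •
      exteriorPower.ιMulti K e (fun l => y (σ (Sum.inr l)))

/-- OMG: the residue form. (Choose `σ0` with a nonzero minor, possible by `rank`;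
`ω = (minor σ0)⁻¹ dlogs (rest x σ0)`, not zero by `BAS`; `PLU`.) -/
def S_OMG : Prop := ∀ {e n r : ℕ} {K : Type} [Field K] [Algebra ℂ K] (f : Fin r → Laurent n)
  (x : Fin n → K), Reg e f x → ∃ ω : Forms e K, ω ≠ 0 ∧
    ∀ σ : Fin r ⊕ Fin e ≃ Fin n, minor f x σ ≠ 0 →
      ∃ ε : K, (ε = 1 ∨ ε = -1) ∧ minor f x σ • ω = ε • dlogs (rest x σ)

def M_OMG : Prop := S_MON → S_BAS → S_PLU → S_OMG

/-! ## residues and logarithmic differentials -/

/-- IND: a criterion for independent residues. (Suppose that some polynomial `p ≠ 0` has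
`v.Ge 1 (p(z))`; choose one of minimal total degree. `b = p(z)`, `db = ∑_l ∂_l p(z) dz_l`. By COE the
coefficients of `db` in the frame are in the maximal ideal (`db = b dlog b`, or `b = 0`), and they are
`∑_l (∂_l p(z) z_l) c_(l j)`; by the hypothesis `∂_l p(z) z_l`, hence `∂_l p(z)`, is in the maximal
ideal for all `l`, so by minimality `∂_l p = 0` for all `l`, and `p` is a nonzero constant.) -/
def S_IND : Prop := ∀ {m k : ℕ} {K : Type} [Field K] [Algebra ℂ K],
  Algebra.trdeg ℂ K = ((m + 1 : ℕ) : Cardinal) → ∀ (v : DivVal (m + 1) K) (t : K) (u : Fin m → K),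
  Frame v t u → ∀ (z : Fin k → K) (c : Fin k → Fin (m + 1) → K), (∀ l, z l ≠ 0 ∧ v.ord (z l) = 0) →
    (∀ l j, v.Ge 0 (c l j)) →
    (∀ l, dlog (z l) = c l 0 • dlog t + ∑ j : Fin m, c l j.succ • KaehlerDifferential.D ℂ K (u j)) →
    IndepMod v (fun l (j : Fin m) => c l j.succ) → ResIndep v z

/-- FRD: the form `dlogs a` in a frame. (By multilinearity, `FRM`.) -/
def S_FRD : Prop := ∀ {m : ℕ} {K : Type} [Field K] [Algebra ℂ K],
  Algebra.trdeg ℂ K = ((m + 1 : ℕ) : Cardinal) → ∀ (v : DivVal (m + 1) K) (t : K) (u : Fin m → K),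
  Frame v t u → ∀ a : Fin (m + 1) → K, (∀ i, a i ≠ 0) →
    ∃ c : Fin (m + 1) → Fin (m + 1) → K, (∀ i j, v.Ge 0 (c i j)) ∧
      (∀ i, v.Ge 1 (c i 0 - (v.ord (a i) : K))) ∧
      (∀ i, dlog (a i) = c i 0 • dlog t + ∑ j : Fin m, c i j.succ • KaehlerDifferential.D ℂ K (u j)) ∧
      dlogs a = (Matrix.of c).det • frameForm t u ∧
      (dlogs a ≠ 0 → (Matrix.of c).det ≠ 0 ∧ v.logOrd (dlogs a) = v.ord (Matrix.of c).det)

/-- EQ1a: valuations with a nonzero weight, the lower bound and `→`. Lower bound: `Stmt_FDL`. `→`: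
`FRD` for `a = rest x σ` and any frame (`t_FRA`): `det c` is a unit and `c i 0 ≡ y_i`, the order of
`a i`. So `y ≠ 0`; choose `m` linearly independent integral vectors `q_l` orthogonal to `y`, and
`z_l = ∏_i (a i)^(q_l i)` (a monomial in `x`). `IND` applies: if `∑_l α_l (q_l c)_j ∈ 𝔪` for `j ≥ 1`
then also for `j = 0` (`∑_i q_l i y_i = 0`), hence (multiply by the adjugate of `c`)
`∑_l α_l q_l i ∈ 𝔪` for all `i`, and `α_l ∈ 𝔪` (an `m × m` minor of the integral matrix `q` is not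
zero). -/
def S_EQ1a : Prop := ∀ {m n r : ℕ} {K : Type} [Field K] [Algebra ℂ K] (f : Fin r → Laurent n)
  (x : Fin n → K), Reg (m + 1) f x → ∀ (v : DivVal (m + 1) K) (σ : Fin r ⊕ Fin (m + 1) ≃ Fin n),
  UnitMinor f x v σ → wt x v ≠ 0 →
    0 ≤ v.logOrd (dlogs (rest x σ)) ∧ (v.logOrd (dlogs (rest x σ)) = 0 → Big x v)

def M_EQ1a : Prop := S_MON → S_BAS → S_IND → S_FRD → S_EQ1a

/-- EQ1b: `←`. Let `q_l` be the exponents given by `Big` (with `(t, mon x (q_l))` as frame) and `q_0`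
an exponent with `pair w q_0 ≠ 0` (`w = wt x v ≠ 0`). In this frame the matrix of `FRD` for
`(mon x q_0, mon x q_1, …)` is triangular with units on the diagonal, so its `dlogs` is nonzero with
`logOrd` zero. By `ELI` `dlog (mon x q_l) = ∑ b_(l i) dlog (rest x σ i)` with `b ∈ O_v`, so
`dlogs (mon x q_l) = det b • dlogs (rest x σ)` and `0 = ord (det b) + logOrd (dlogs (rest x σ))`
(`Stmt_FSM`), both `≥ 0` (`Stmt_FDL`). -/
def S_EQ1b : Prop := ∀ {m n r : ℕ} {K : Type} [Field K] [Algebra ℂ K] (f : Fin r → Laurent n)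
  (x : Fin n → K), Reg (m + 1) f x → ∀ (v : DivVal (m + 1) K) (σ : Fin r ⊕ Fin (m + 1) ≃ Fin n),
  UnitMinor f x v σ → wt x v ≠ 0 → Big x v → v.logOrd (dlogs (rest x σ)) = 0

def M_EQ1b : Prop := S_MON → S_BAS → S_ELI → S_FRD → S_EQ1b

/-- DK: a criterion for ramification index one. `D' = (p / D p) D`, `D' p = p`, `D' u_l ∈ 𝔪`; for the
frame `(t, u)`, `COE` for `p` gives `1 = c_0 (D' t / t) + (𝔪)`, so `D' t / t ≡ 1 / k`, `k = ord p`; for
every `a ≠ 0` then `D' a / a ≡ ord a / k` modulo `𝔪` by `COE`. So `ord (D a) = ord a - k` if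
`ord a ≠ 0`. For `b ∈ B` with `ord b > 0`: `D b ∈ B` has order `ord b - k ≥ 0`; by induction `k` divides
`ord b`. As `K` is the field of fractions of `B`, `k` divides all orders, `k = 1`. -/
def S_DK : Prop := ∀ {m : ℕ} {K : Type} [Field K] [Algebra ℂ K],
  Algebra.trdeg ℂ K = ((m + 1 : ℕ) : Cardinal) → ∀ (v : DivVal (m + 1) K) (B : Subalgebra ℂ K),
  (∀ b ∈ B, v.Ge 0 b) → (∀ a : K, ∃ p ∈ B, ∃ q ∈ B, q ≠ 0 ∧ a * q = p) →
  ∀ D : Derivation ℂ K K, (∀ b ∈ B, D b ∈ B) → ∀ p ∈ B, p ≠ 0 → 0 < v.ord p → D p ≠ 0 →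
    v.ord (D p) = 0 → ∀ u : Fin m → K, (∀ l, u l ∈ B) → ResIndep v u → v.ord p = 1

/-- LOB: the localised ring. `B0` is a subalgebra on which `v` is nonnegative; the quotients `p / q`,
`p, q ∈ B0`, `ord q = 0`, are a subalgebra; a derivation which maps `B0` to it preserves it. -/
def S_LOB : Prop := ∀ {e : ℕ} {K : Type} [Field K] [Algebra ℂ K] (v : DivVal e K)
  (B0 : Subalgebra ℂ K), (∀ b ∈ B0, v.Ge 0 b) → ∃ B : Subalgebra ℂ K,
    (∀ a, a ∈ B ↔ ∃ p ∈ B0, ∃ q ∈ B0, q ≠ 0 ∧ v.ord q = 0 ∧ a * q = p) ∧ B0 ≤ B ∧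
    (∀ b ∈ B, v.Ge 0 b) ∧ (∀ b ∈ B, b ≠ 0 → v.ord b = 0 → b⁻¹ ∈ B) ∧
    ∀ D : Derivation ℂ K K, (∀ b ∈ B0, D b ∈ B) → ∀ b ∈ B, D b ∈ B

/-- UNT: the weight is primitive. -/
def S_UNT : Prop := ∀ {m n r : ℕ} {K : Type} [Field K] [Algebra ℂ K] (f : Fin r → Laurent n)
  (x : Fin n → K), Reg (m + 1) f x → ∀ (v : DivVal (m + 1) K) (σ : Fin r ⊕ Fin (m + 1) ≃ Fin n),
  UnitMinor f x v σ → wt x v ≠ 0 → Big x v → Primitive (wt x v)

/-- `w = wt x v = k w0`, `k > 0`, `w0` primitive, `pair w0 q = 1`, `p = mon x q`, `ord p = k`.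
`B0` = span of the monomials `mon x m` with `pair w0 m ≥ 0`; `B` from `LOB`. Let `m_i` be an exponent
of `f_i` of minimal weight, `y_i = mon x (m_i)`. Then `grad x (f i) j / y_i ∈ B0`, and
`h_i = - p⁻¹ ∑_j w0_j grad_j f_i = - p⁻¹ ∑_m c_m (pair w0 m - minOn (f i) w0) x^m` (as `f_i(x) = 0`),
so `h_i / y_i ∈ B0` (in the terms with nonzero coefficients `pair w0 (m - m_i) ≥ 1`). `SOL` gives
`δ'' ∈ B^n` with `∑_j δ''_j grad_j f_i = h_i`. Put `δ = p⁻¹ w0 + δ''`; `BAS` gives `D` with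
`D x_j = δ_j x_j`, so `D (x^m) = (p⁻¹ pair w0 m + ∑_j δ''_j m_j) x^m ∈ B` for `pair w0 m ≥ 0`, and
`D p = 1 + p ∑_j δ''_j q_j` has order zero. `DK` with `u_l = mon x (m_l)` from `Big` gives
`k = ord p = 1`. -/
def M_UNT : Prop := S_MON → S_BAS → S_SOL → S_DK → S_LOB → S_UNT

/-! ### weight zero -/


/-- EQ0a: the lower bound and `→`. (`FRD` for `a = rest x σ`: `c i 0 ∈ 𝔪`, so `det c ∈ 𝔪`. If it has
order one, expand along the column `0`: some `m × m` minor of the other columns is a unit, so the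
rows of this minor are independent modulo `𝔪` and `IND` gives `m` coordinates with independent
residues.) -/
def S_EQ0a : Prop := ∀ {m n r : ℕ} {K : Type} [Field K] [Algebra ℂ K] (f : Fin r → Laurent n)
  (x : Fin n → K), Reg (m + 1) f x → ∀ (v : DivVal (m + 1) K) (σ : Fin r ⊕ Fin (m + 1) ≃ Fin n),
  UnitMinor f x v σ → wt x v = 0 →
    1 ≤ v.logOrd (dlogs (rest x σ)) ∧ (v.logOrd (dlogs (rest x σ)) = 1 → Big x v)

def M_EQ0a : Prop := S_MON → S_BAS → S_IND → S_FRD → S_EQ0a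

/-- EQ0c: if `Big` holds then all but one of the coordinates `rest` have independent residues.
(`Big`: frame `(t, u_l)`, `u_l = mon x (q_l)`. `ELI`: `dlog u_l = ∑_i b_(l i) dlog (rest i)`, `FRD`:
`dlog (rest i) = c_(i 0) dlog t + ∑_l c_(i l) du_l`; so `b c' = diag(u_l⁻¹)`, `c' = (c_(i l))_(l ≥ 1)`
has rank `m` modulo `𝔪`, some `m × m` minor is a unit (Cauchy-Binet, or linear algebra over the
residue field), and `IND` applies to its rows.) -/
def S_EQ0c : Prop := ∀ {m n r : ℕ} {K : Type} [Field K] [Algebra ℂ K] (f : Fin r → Laurent n)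
  (x : Fin n → K), Reg (m + 1) f x → ∀ (v : DivVal (m + 1) K) (σ : Fin r ⊕ Fin (m + 1) ≃ Fin n),
  UnitMinor f x v σ → wt x v = 0 → Big x v →
    ∃ i0 : Fin (m + 1), ResIndep v fun l : Fin m => rest x σ (i0.succAbove l)

def M_EQ0c : Prop := S_MON → S_BAS → S_ELI → S_IND → S_FRD → S_EQ0c

/-- EQ0b: `←`. -/
def S_EQ0b : Prop := ∀ {m n r : ℕ} {K : Type} [Field K] [Algebra ℂ K] (f : Fin r → Laurent n)
  (x : Fin n → K), Reg (m + 1) f x → ∀ (v : DivVal (m + 1) K) (σ : Fin r ⊕ Fin (m + 1) ≃ Fin n),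
  UnitMinor f x v σ → wt x v = 0 → Big x v → v.logOrd (dlogs (rest x σ)) = 1

/-- `EQ0c`: `ζ_l = rest x σ (i0.succAbove l)` have independent residues, `z = rest x σ i0`. The residues
of `z, ζ` are dependent (more than `m` elements cannot be independent: `Frame` and `Stmt_FRA` give
`m + 2` algebraically independent elements otherwise); choose a polynomial `P ≠ 0` in `Z` over
`ℂ[ζ]` of least degree in `Z` with `v.Ge 1 (P(z, ζ))`; then `∂_Z P (z, ζ)` has order zero, and
`p = P(z, ζ) ≠ 0` by `BAS`. `B0 = coordRing = span of all mon x m`, `B` from `LOB`. Derivation: `δ = 0`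
at the `ζ_l`, `δ = (z ∂_Z P)⁻¹` at `z`, and on the columns of the minor by the relations (`SOL` with
`y_i = 1`, values in `B`); `D p = 1`. `DK`: `ord p = 1`, so `(p, ζ)` is a frame,
and `dp ∧ dζ = ∂_Z P dz ∧ dζ`, so `dlogs (rest x σ)` is a unit times `p • frameForm p ζ`. -/
def M_EQ0b : Prop := S_MON → S_BAS → S_SOL → S_DK → S_LOB → S_EQ0c → S_EQ0b

/-- BND: see `LogData.bnd`. -/
def S_BND : Prop := ∀ {m n r : ℕ} {K : Type} [Field K] [Algebra ℂ K] (f : Fin r → Laurent n)
  (x : Fin n → K), Reg (m + 1) f x → ∀ (v : DivVal (m + 1) K) (σ : Fin r ⊕ Fin (m + 1) ≃ Fin n),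
  UnitMinor f x v σ → ∀ (s : ℕ) (ν : Fin s → (Fin n → ℤ)) (c : Fin s → ℕ) (c0 : ℕ), 0 < c0 →
    (∀ j, 0 < c j) → LinearIndependent ℤ ν → (c0 : ℤ) • wt x v = ∑ j, (c j : ℤ) • ν j →
    ∑ i, (minOn (f i) (∑ j, ν j) - ∑ j, minOn (f i) (ν j)) + 2 ≤ s →
    ¬ ∃ q : Fin m → (Fin n → ℤ), (∀ l j, pair (ν j) (q l) = 0) ∧ ResIndep v fun l => mon x (q l)

/-- `I` = the set of `i` with `minOn (f i) (∑ ν j) ≠ ∑_j minOn (f i) (ν j)`: each summand is a
nonnegative integer, so `card I ≤ s - 2`. For `i ∉ I` there is an exponent `m_i` of `f_i` which is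
minimal for all `ν_j`, and an exponent `m` of `f_i` with minimal weight `w` satisfies
`pair (ν j) m = minOn (f i) (ν j)` for all `j` (as `c0 w = ∑ c_j ν_j` with `c_j > 0`). So by the last
claim of `MON` `∑_a (ν_j)_a grad_a f_i ∈ 𝔪^(minOn (f i) w + 1)`. Put `G_i = grad f_i / y_i`,
`ord y_i = minOn (f i) w`: vectors in `O_v^n`, linearly independent modulo `𝔪` (`UnitMinor`). The
`m` integral vectors `q_l` and the `G_i`, `i ∉ I`, are `≥ m + r - s + 2 = n - s + 1` vectors which are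
orthogonal modulo `𝔪` to the `s` independent integral vectors `ν_j`; so there is a relation modulo
`𝔪` with coefficients `α_l, β_i` in `O_v`, not all in `𝔪` (linear algebra over the residue field of
`v.OV`). Frame `(t, u_l = mon x (q_l))`, `dlog x_a = c_(a 0) dlog t + ∑_l c_(a l) du_l`: from
`∑_a G_(i a) dlog x_a = 0` and `dlog u_l = ∑_a q_(l a) dlog x_a = u_l⁻¹ du_l` one gets
`α_l u_l⁻¹ ∈ 𝔪`, so all `α_l ∈ 𝔪`, and then all `β_i ∈ 𝔪`, a contradiction. -/
def M_BND : Prop := S_MON → S_BAS → S_FRD → S_BND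

/-- LOG, assembly: `ω` from `OMG`, `σ` from `Sys.nd`; `minor σ • ω = ± dlogs (rest x σ)`, so
`logOrd ω = logOrd (dlogs (rest x σ)) - psi f (wt x v)` (`Stmt_FSM`), and `psi f 0 = 0`. -/
def M_LOG : Prop := S_OMG → S_EQ1a → S_EQ1b → S_UNT → S_EQ0a → S_EQ0b → S_BND → S_LOG

/-- RES (statement in `St.lean`). Let `κ` be the residue field of `v.OV` as an extension of `ℂ`; for
`u` with orders zero `ResIndep v u` means that the residues are algebraically independent over `ℂ`.
By `Big` there are `e - 1` independent residues of monomials `mon x m` with `pair w m = 0`; since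
`N • m = ∑ c_l b_l`, `(mon x m)^N = ∏ (mon x (b l))^(c l)`, they are algebraic over the subfield
generated by the residues of the `mon x (b l)`. Among the latter there is a transcendence basis of
that subfield, and it has at least `e - 1` elements. -/
def M_RES : Prop := S_MON → S_RES

/-! ## nondegenerate systems -/

/-- NUL: nondegeneracy at the points over extension fields. (The values of the `f_i`, of the `r × r`
minors of the gradients at `p`, and `1 - z ∏ p_j`, suitably multiplied by monomials, are polynomials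
without common zero over `ℂ`; by the Nullstellensatz they generate the unit ideal of the polynomial
ring, hence they have no common zero over `F`.) -/
def S_NUL : Prop := ∀ {n r : ℕ} {F : Type} [Field F] [Algebra ℂ F] (f : Fin r → Laurent n)
  (ν : Fin n → ℤ), Nondegenerate f ν → ∀ p : Fin n → F, (∀ j, p j ≠ 0) →
    (∀ i, ev p (initForm (f i) ν) = 0) → LinearIndependent F fun i => grad p (initForm (f i) ν)

/-- MIN: unit minors. -/
def S_MIN : Prop := ∀ {e n r : ℕ} {K : Type} [Field K] [Algebra ℂ K] (f : Fin r → Laurent n)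
  (x : Fin n → K), n = r + e → (∀ j, x j ≠ 0) → (∀ i, f i ≠ 0) → (∀ i, ev x (f i) = 0) →
  ∀ v : DivVal e K, Nondegenerate f (wt x v) → ∃ σ : Fin r ⊕ Fin e ≃ Fin n, UnitMinor f x v σ

/-- `κ` = the residue field of `v.OV` (an extension field of `ℂ`), `w = wt x v = k w0`, `w0` primitive
or `w = 0`; `pair w0 q = 1`; `ℤ^n = ℤ q ⊕ w0^⊥`, the homomorphism `m ↦` residue of
`mon x (m - (pair w0 m) q)` is `m ↦ mon p m` for a point `p ∈ (κ^*)^n` (for `w = 0` simply the
residues of the `x_j`). For an exponent `m_i` of `f_i` of minimal weight and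
`y_i = mon x (m_i)`: the residue of `ev x (f i) / y_i` is `ev p (initForm (f i) w) / mon p (m_i)`, and
the residue of `grad x (f i) j / y_i` is `grad p (initForm (f i) w) j / mon p (m_i)`. So by `NUL` the
`r` vectors `grad x (f i) / y_i ∈ O_v^n` have independent residues, some `r × r` minor has a nonzero
residue; extend the columns to a bijection `σ` (`n = r + e`). -/
def M_MIN : Prop := S_MON → S_NUL → S_MIN

/-- SYS, assembly: `Nondegenerate f 0` and `NUL` at `p = x` give `rank` (`initForm (f i) 0 = f i`),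
`MIN` gives `nd`. -/
def M_SYS : Prop := S_NUL → S_MIN → S_SYS

end

end MMCI
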