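import Pool.Agent.MldGeo.Stmts1
import Pool.Agent.MldGeo.Stmts6

/-!
# MP_fa3f7f_ag, MMCI, block C, first part: homogeneous coordinates of a projective model

`x` is a family of monomials: a homomorphism from `ℤ^n` to `K^*`; `A v`, `v ∈ V`, are finitely many
points of `ℤ^n`. The model is the normalization in `K` of the closure of the image of the map with
the homogeneous coordinates `x^(A v)`.
-/

namespace MMCI

open MldGeo MvPolynomial

noncomputable section

/-! ## definitions -/

section Defs

variable {n : ℕ} {K : Type} [Field K] [Algebra ℂ K] {V : Type}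

/-- The ring of the chart `s i ≠ 0`. -/
def affRing {N : ℕ} (s : Fin (N + 1) → K) (i : Fin (N + 1)) : Subalgebra ℂ K :=
  Algebra.adjoin ℂ (Set.range fun j => s j / s i)

/-- A family of monomials. -/
structure Mono (x : (Fin n → ℤ) → K) : Prop where
  zero : x 0 = 1
  add : ∀ u v, x (u + v) = x u * x v

/-- `K` is the field of fractions of the ring spanned by the monomials. -/
def MFrac (x : (Fin n → ℤ) → K) : Prop :=
  ∀ a : K, ∃ r ∈ Submodule.span ℂ (Set.range x), ∃ q ∈ Submodule.span ℂ (Set.range x),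
    q ≠ 0 ∧ a * q = r

/-- The differences of the `A v` generate a subgroup of finite index. -/
def Full (A : V → Fin n → ℤ) : Prop :=
  ∀ u : Fin n → ℤ, ∃ M : ℕ, 0 < M ∧
    M • u ∈ AddSubgroup.closure {w | ∃ v v', w = A v' - A v}

/-- The ring generated by the monomials `x^(A v' - A v)`, `v' ∈ V`. -/
def base (x : (Fin n → ℤ) → K) (A : V → Fin n → ℤ) (v : V) : Subalgebra ℂ K :=
  Algebra.adjoin ℂ (Set.range fun v' => x (A v' - A v))

/-- The homogeneous coordinates `s` of a projective model: among them are the monomials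
`x^(k A v)`, and the ring of the chart of this coordinate is the integral closure
of `base x A v`. -/
structure Coords {N : ℕ} (x : (Fin n → ℤ) → K) (A : V → Fin n → ℤ) (k : ℕ) (s : Fin (N + 1) → K)
    (idx : V → Fin (N + 1)) : Prop where
  pos : 0 < k
  ne : ∀ j, s j ≠ 0
  eq : ∀ v, s (idx v) = x (k • A v)
  int : ∀ j v, IsIntegral (base x A v) (s j / x (k • A v))
  gen : ∀ (v : V) (b : K), IsIntegral (base x A v) b → b ∈ affRing s (idx v)

/-- The residues of the `u i` are algebraically independent. -/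
def ResInd {e : ℕ} {ι : Type} (w : DivVal e K) (u : ι → K) : Prop :=
  ∀ p : MvPolynomial ι ℂ, p ≠ 0 → aeval u p ≠ 0 ∧ w.ord (aeval u p) = 0

end Defs

/-! ## statements -/

/-- FGF: `K` is a finitely generated field and algebraic over each of the rings `base x A v`, which
are finitely generated. -/
def Stmt_FGF : Prop :=
  ∀ {n : ℕ} {K V : Type} [Field K] [Algebra ℂ K] [Finite V] (x : (Fin n → ℤ) → K)
    (A : V → Fin n → ℤ), Mono x → MFrac x → Full A →
    (∃ T : Finset K, IntermediateField.adjoin ℂ (T : Set K) = ⊤) ∧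
    ∀ v, (base x A v).FG ∧ ∀ a : K, IsAlgebraic (base x A v) a

/-- FIN: the integral closure of a finitely generated domain in a finite extension of its field of
fractions is finitely generated. -/
def Stmt_FIN : Prop :=
  ∀ {K : Type} [Field K] [Algebra ℂ K] (B : Subalgebra ℂ K), B.FG →
    (∃ T : Finset K, IntermediateField.adjoin ℂ (T : Set K) = ⊤) → (∀ a : K, IsAlgebraic B a) →
    ∃ T : Finset K, ∀ a : K, IsIntegral B a ↔ a ∈ Algebra.adjoin ℂ (T : Set K)

/-- HOM: if `b` is integral over `base x A v` then, for all large `k`, `b x^(k A v)` is homogeneous of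
degree `k`: its quotients by the `x^(k A v')` are integral over `base x A v'`. -/
def Stmt_HOM : Prop :=
  ∀ {n : ℕ} {K V : Type} [Field K] [Algebra ℂ K] [Finite V] (x : (Fin n → ℤ) → K)
    (A : V → Fin n → ℤ), Mono x → ∀ (v : V) (b : K), IsIntegral (base x A v) b →
    ∃ k₀ : ℕ, ∀ k, k₀ ≤ k → ∀ v', IsIntegral (base x A v') (b * x (k • (A v - A v')))

/-- CRD: homogeneous coordinates exist. (From FGF, FIN, HOM.) -/
def Stmt_CRD : Prop :=
  ∀ {n : ℕ} {K V : Type} [Field K] [Algebra ℂ K] [Finite V] [Nonempty V] (x : (Fin n → ℤ) → K)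
    (A : V → Fin n → ℤ), Mono x → MFrac x → Full A →
    ∃ (k N : ℕ) (s : Fin (N + 1) → K) (idx : V → Fin (N + 1)), Coords x A k s idx

/-- PTV: at a point of the chart `s j ≠ 0` not all the `x^(k A v) / s j` vanish. -/
def Stmt_PTV : Prop :=
  ∀ {n N : ℕ} {K V : Type} [Field K] [Algebra ℂ K] [Finite V] [Nonempty V]
    (x : (Fin n → ℤ) → K) (A : V → Fin n → ℤ) (k : ℕ) (s : Fin (N + 1) → K)
    (idx : V → Fin (N + 1)), Mono x → Coords x A k s idx →
    ∀ (j : Fin (N + 1)) (P : Ideal (affRing s j)), P.IsPrime →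
    ∃ v, ∀ h : s (idx v) / s j ∈ affRing s j, (⟨s (idx v) / s j, h⟩ : affRing s j) ∉ P

/-- LOV: elements of one chart in terms of another chart. -/
def Stmt_LOV : Prop :=
  ∀ {N : ℕ} {K : Type} [Field K] [Algebra ℂ K] (s : Fin (N + 1) → K), (∀ j, s j ≠ 0) →
    ∀ (i j : Fin (N + 1)) (b : K), b ∈ affRing s i →
    ∃ d : ℕ, b * (s i / s j) ^ d ∈ affRing s j

/-- NRM: the charts are integrally closed and have the field of fractions `K`. (From PTV, LOV.) -/
def Stmt_NRM : Prop :=
  ∀ {n N : ℕ} {K V : Type} [Field K] [Algebra ℂ K] [Finite V] [Nonempty V]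
    (x : (Fin n → ℤ) → K) (A : V → Fin n → ℤ) (k : ℕ) (s : Fin (N + 1) → K)
    (idx : V → Fin (N + 1)), Mono x → MFrac x → Full A → Coords x A k s idx →
    ∀ j : Fin (N + 1), (∀ a : K, IsIntegral (affRing s j) a → a ∈ affRing s j) ∧
      ∀ a : K, ∃ r ∈ affRing s j, ∃ q ∈ affRing s j, q ≠ 0 ∧ a * q = r

/-- EXC: exchange of residues: if the residues of the `u i` are algebraically independent and a
positive multiple of each `u i` is, in the multiplicative group, a combination of the units `t j`,
then one can choose among the `t j` as many elements with algebraically independent residues. -/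
def Stmt_EXC : Prop :=
  ∀ {e k : ℕ} {K ι : Type} [Field K] [Algebra ℂ K] [Fintype ι] (w : DivVal e K) (t : ι → K)
    (u : Fin k → K), (∀ j, t j ≠ 0 ∧ w.ord (t j) = 0) → ResInd w u →
    (∀ i, ∃ (M : ℕ) (c : ι → ℤ), 0 < M ∧ u i ^ M = ∏ j, t j ^ c j) →
    ∃ c : Fin k → ι, ResInd w fun i => t (c i)

/-- RSI: if all elements of order `≥ 0` are fractions, with denominators of order `0`, of elements
which are integral over the ring generated by the `t j`, then one can choose among the `t j`
`e - 1` elements with algebraically independent residues. -/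
def Stmt_RSI : Prop :=
  ∀ {e : ℕ} {K ι : Type} [Field K] [Algebra ℂ K] [Finite ι] (w : DivVal e K) (t : ι → K),
    (∀ j, w.Ge 0 (t j)) →
    (∀ a : K, w.Ge 0 a → ∃ r q : K, IsIntegral (Algebra.adjoin ℂ (Set.range t)) r ∧
      IsIntegral (Algebra.adjoin ℂ (Set.range t)) q ∧ q ≠ 0 ∧ w.ord q = 0 ∧ a * q = r) →
    ∃ c : Fin (e - 1) → ι, ResInd w fun i => t (c i)

/-- CRV: a finitely generated field of transcendence degree one is a function field of one
variable. -/
def Stmt_CRV : Prop :=
  ∀ {F : Type} [Field F] [Algebra ℂ F], Algebra.trdeg ℂ F = 1 →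
    (∃ T : Finset F, IntermediateField.adjoin ℂ (T : Set F) = ⊤) → IsCurve F

end

end MMCI
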