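import Pool.Agent.MMCI.St
import Pool.Agent.MMCI.StmtsC0

/-!
# MP_fa3f7f_ag, MMCI, blocks C and D, second part: statements about `ProjModel` and curves
-/

namespace MMCI

open MldGeo MvPolynomial

noncomputable section

/-! ## block C: the model -/

/-- FUL: the hypotheses on monomials. -/
def Stmt_FUL : Prop :=
  ∀ {n : ℕ} {K : Type} [Field K] [Algebra ℂ K] (x : Fin n → K), (∀ j, x j ≠ 0) →
    Mono (mon x) ∧ (IntermediateField.adjoin ℂ (Set.range x) = ⊤ → MFrac (mon x)) ∧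
    (∀ {e : ℕ} (v : DivVal e K) (m : Fin n → ℤ), mon x m ≠ 0 ∧ v.ord (mon x m) = pair (wt x v) m) ∧
    ∀ A : Finset (Fin n → ℤ), A.Nonempty →
      (∀ a ∈ A, ∃ b : Fin n → (Fin n → ℤ), (∀ l, b l ∈ A) ∧
        LinearIndependent ℤ fun l => b l - a) →
      Full (fun a : {a // a ∈ A} => (a : Fin n → ℤ))

/-- FRC: the field of fractions of the rings of the charts; they are finitely generated. -/
def Stmt_FRC : Prop :=
  ∀ {K : Type} [Field K] [Algebra ℂ K] (Y : ProjModel K) (i : Fin (Y.N + 1)),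
    (Y.ring i).FG ∧ ∀ a : K, ∃ r ∈ Y.ring i, ∃ q ∈ Y.ring i, q ≠ 0 ∧ a * q = r

/-- CRT: the centre of a divisorial valuation has height one if and only if the valuation ring is
the local ring of the centre. -/
def Stmt_CRT : Prop :=
  ∀ {e : ℕ} {K : Type} [Field K] [Algebra ℂ K] (R : Subalgebra ℂ K), R.FG →
    (∀ a : K, ∃ r ∈ R, ∃ s ∈ R, s ≠ 0 ∧ a * s = r) → (∀ a : K, IsIntegral R a → a ∈ R) →
    Algebra.trdeg ℂ K = (e : Cardinal) → ∀ (v : DivVal e K) (P : Ideal R), HasCentre R v P →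
    (P.height = 1 ↔ ∀ a : K, v.Ge 0 a → ∃ r q : R, q ∉ P ∧ a * q = r)

/-- PTA: the points of the charts (IsModel.pt). -/
def Stmt_PTA : Prop :=
  ∀ {e n N : ℕ} {K V : Type} [Field K] [Algebra ℂ K] [Finite V] [Nonempty V]
    (x : (Fin n → ℤ) → K) (A : V → Fin n → ℤ) (k : ℕ) (s : Fin (N + 1) → K)
    (idx : V → Fin (N + 1)), Mono x → Coords x A k s idx →
    (∀ j : Fin (N + 1), (∀ a : K, IsIntegral (affRing s j) a → a ∈ affRing s j) ∧
      ∀ a : K, ∃ r ∈ affRing s j, ∃ q ∈ affRing s j, q ≠ 0 ∧ a * q = r) →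
    Algebra.trdeg ℂ K = (e : Cardinal) → 0 < e →
    ∀ (i : Fin (N + 1)) (m : Ideal (affRing s i)), m.IsMaximal → ∃ v₀ : V,
      ∀ (w : DivVal e K) (P : Ideal (affRing s i)), HasCentre (affRing s i) w P → P ≤ m →
        (∀ v, 0 ≤ w.ord (x (A v - A v₀))) ∧
        (P.height = 1 ↔ ∃ c : Fin (e - 1) → V, ResInd w fun l => x (A (c l) - A v₀))

/-- FNC: a curve is not contracted by the monomials (IsModel.fin). -/
def Stmt_FNC : Prop :=
  ∀ {n : ℕ} {K V : Type} [Field K] [Algebra ℂ K] [Finite V] [Nonempty V]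
    (x : (Fin n → ℤ) → K) (A : V → Fin n → ℤ) (k : ℕ) (Y : ProjModel K)
    (idx : V → Fin (Y.N + 1)), Mono x → Coords x A k Y.s idx →
    ∀ (γ : CurveMap Y) (v₀ : V), ¬ ∀ v, ∃ c : ℂ,
      γ.Restr (x (A v - A v₀)) (algebraMap ℂ γ.L c)

/-! ## block D: curves -/

/-- CUR: the function field of the curve is a function field of one variable. (From CRV.) -/
def Stmt_CUR : Prop :=
  ∀ {K : Type} [Field K] [Algebra ℂ K] {Y : ProjModel K} (γ : CurveMap Y), IsCurve γ.L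

/-- RSU: the restriction to the curve is a homomorphism. -/
def Stmt_RSU : Prop :=
  ∀ {K : Type} [Field K] [Algebra ℂ K] {Y : ProjModel K} (γ : CurveMap Y),
    (∀ (z : K) (u u' : γ.L), γ.Restr z u → γ.Restr z u' → u = u') ∧
    (∀ (z z' : K) (u u' : γ.L), γ.Restr z u → γ.Restr z' u' → γ.Restr (z + z') (u + u')) ∧
    (∀ (z z' : K) (u u' : γ.L), γ.Restr z u → γ.Restr z' u' → γ.Restr (z * z') (u * u')) ∧
    (∀ (z : K) (u : γ.L), γ.Restr z u → u ≠ 0 → z ≠ 0 ∧ ∀ k : ℤ, γ.Restr (z ^ k) (u ^ k)) ∧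
    (∀ (z : K) (u : γ.L) (k : ℕ), γ.Restr z u → γ.Restr (z ^ k) (u ^ k)) ∧
    (∀ c : ℂ, γ.Restr (algebraMap ℂ K c) (algebraMap ℂ γ.L c)) ∧
    ∀ a : Y.ring γ.i, γ.Restr a (γ.φ a)

/-- RGW: functions which are regular at the image of the point `w` of the curve. -/
def Stmt_RGW : Prop :=
  ∀ {K : Type} [Field K] [Algebra ℂ K] {Y : ProjModel K} (γ : CurveMap Y) (w : DivVal 1 γ.L)
    (i : Fin (Y.N + 1)) (m : Ideal (Y.ring i)), γ.MapsTo w i m →
    ∀ (z : K) (p q : Y.ring i), q ∉ m → z * q = p →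
      ∃ u : γ.L, γ.Restr z u ∧ w.Ge 0 u ∧ (p ∉ m → u ≠ 0 ∧ w.ord u = 0) ∧ (p ∈ m → w.Ge 1 u)

/-- LCM: a function which is regular along all prime divisors through a point is regular at the
point. (From MldGeo.LOC, FRC.) -/
def Stmt_LCM : Prop :=
  ∀ {e : ℕ} {K : Type} [Field K] [Algebra ℂ K] (Y : ProjModel K),
    Algebra.trdeg ℂ K = (e : Cardinal) →
    (∀ i (a : K), IsIntegral (Y.ring i) a → a ∈ Y.ring i) →
    ∀ (i : Fin (Y.N + 1)) (m : Ideal (Y.ring i)), m.IsMaximal → ∀ z : K,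
      (∀ (v : DivVal e K) (P : Ideal (Y.ring i)), IsPrimeDivisor (Y.ring i) v P → P ≤ m →
        v.Ge 0 z) →
      ∃ p q : Y.ring i, q ∉ m ∧ z * q = p

/-- CMP: comparison of the equations `g` of `k K_Y` with other equations `E i m` of `k' K_Y`, finite
in number: for some point `w₀` of the curve and `f₀ = f w₀`, the restriction `U w` of `f w / f₀` to
the curve exists, and the degrees are proportional. -/
def Stmt_CMP : Prop :=
  ∀ {e : ℕ} {K : Type} [Field K] [Algebra ℂ K] (Y : ProjModel K),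
    Algebra.trdeg ℂ K = (e : Cardinal) →
    (∀ i (a : K), IsIntegral (Y.ring i) a → a ∈ Y.ring i) →
    ∀ (ω : Forms e K) (k' : ℕ) (E : ∀ i, Ideal (Y.ring i) → K) (S : Finset K), 0 < k' →
    (∀ i m, m.IsMaximal → E i m ≠ 0 ∧ E i m ∈ S ∧ IsEquation (Y.ring i) ω k' m (E i m)) →
    ∀ (γ : CurveMap Y) (k : ℕ) (h : K) (g : DivVal 1 γ.L → K) (u : DivVal 1 γ.L → γ.L), 0 < k →
    γ.Equations ω k h g u →
    ∃ (w₀ : DivVal 1 γ.L) (i : DivVal 1 γ.L → Fin (Y.N + 1)) (m : ∀ w, Ideal (Y.ring (i w)))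
      (U : DivVal 1 γ.L → γ.L),
      (∀ w, γ.MapsTo w (i w) (m w)) ∧
      (∀ w, U w ≠ 0 ∧ γ.Restr (E (i w) (m w) / E (i w₀) (m w₀)) (U w)) ∧
      {w : DivVal 1 γ.L | w.ord (u w) ≠ 0}.Finite ∧ {w : DivVal 1 γ.L | w.ord (U w) ≠ 0}.Finite ∧
      k' * ∑ᶠ w : DivVal 1 γ.L, w.ord (u w) = k * ∑ᶠ w : DivVal 1 γ.L, w.ord (U w)

/-- FBM: the morphism of the Mori fibre space. `t` runs through the monomials `x^(b a)`. -/
def Stmt_FBM : Prop :=
  ∀ {e n r : ℕ} {K : Type} [Field K] [Algebra ℂ K] (f : Fin r → Laurent n) (x : Fin n → K),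
    (∀ j, x j ≠ 0) → Algebra.trdeg ℂ K = (e : Cardinal) → 0 < e → ∀ (F : FanB f)
    (Y : ProjModel K), IsModel e x F.A Y →
    Algebra.trdeg ℂ (IntermediateField.adjoin ℂ
      {z | ∃ a ∈ F.A, ∃ a' ∈ F.A, z = mon x (F.b a - F.b a')}) < (e : Cardinal) →
    ∃ (M : ℕ) (t : Fin (M + 1) → K), (∀ l, ∃ a ∈ F.A, t l = mon x (F.b a)) ∧
      (∀ a ∈ F.A, ∃ l, t l = mon x (F.b a)) ∧
      Algebra.trdeg ℂ (IntermediateField.adjoin ℂ (Set.range fun l => t l / t 0)) <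
        (e : Cardinal) ∧
      ∀ i (m : Ideal (Y.ring i)), m.IsMaximal → ∃ j, ∀ l, ∃ p q : Y.ring i, q ∉ m ∧
        t l / t j * q = p

/-- FBN: the canonical divisor is negative on the curves in the fibres. -/
def Stmt_FBN : Prop :=
  ∀ {e n r : ℕ} {K : Type} [Field K] [Algebra ℂ K] (f : Fin r → Laurent n) (x : Fin n → K),
    (∀ j, x j ≠ 0) → Algebra.trdeg ℂ K = (e : Cardinal) → 0 < e → ∀ (F : FanB f)
    (ω : Forms e K) (Y : ProjModel K), ω ≠ 0 → IsModel e x F.A Y →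
    (∀ i (v : DivVal e K) (P : Ideal (Y.ring i)), IsPrimeDivisor (Y.ring i) v P →
      ∀ a ∈ F.A, MinAt F.A a (wt x v) → F.k * v.formOrd ω = - pair (wt x v) (F.u a)) →
    ∀ (M : ℕ) (t : Fin (M + 1) → K), (∀ l, ∃ a ∈ F.A, t l = mon x (F.b a)) →
    (∀ a ∈ F.A, ∃ l, t l = mon x (F.b a)) →
    ∀ ω' : Forms e K, ω' ≠ 0 → ∀ γ : CurveMap Y, γ.InFibre t → ∀ (k : ℕ) (h : K)
      (g : DivVal 1 γ.L → K) (u : DivVal 1 γ.L → γ.L), 0 < k → γ.Equations ω' k h g u →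
      {w : DivVal 1 γ.L | w.ord (u w) ≠ 0}.Finite ∧ ∑ᶠ w : DivVal 1 γ.L, w.ord (u w) < 0

/-- CHW: rational forms differ by rational functions. (From MldGeo: FSM, TXT.) -/
def Stmt_CHW : Prop :=
  ∀ {e : ℕ} {K : Type} [Field K] [Algebra ℂ K], Algebra.trdeg ℂ K = (e : Cardinal) → 0 < e →
    ∀ ω ω' : Forms e K, ω ≠ 0 → ω' ≠ 0 → ∃ q : K, q ≠ 0 ∧ ω' = q • ω ∧
      ∀ v : DivVal e K, v.formOrd ω' = v.ord q + v.formOrd ω

end

end MMCI
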