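import Pool.Agent.MMCI.StB

/-!
# Assembly: statements
-/

namespace MMCI

open MldGeo

noncomputable section

/-- SCA: rational forms of top degree are proportional, and the orders of proportional forms. -/
def S_SCA : Prop := ∀ {e : ℕ} {K : Type} [Field K] [Algebra ℂ K], Algebra.trdeg ℂ K = (e : Cardinal) →
  0 < e → ∀ ω ω' : Forms e K, ω ≠ 0 → ω' ≠ 0 → ∃ g : K, g ≠ 0 ∧ ∀ v : DivVal e K,
    v.formOrd ω' = v.ord g + v.formOrd ω

/-- KEY: the discrepancies of the projective model. -/
def S_KEY : Prop := ∀ {e n r : ℕ} {K : Type} [Field K] [Algebra ℂ K] (f : Fin r → Laurent n)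
  (x : Fin n → K), Base e f x → ∀ (F : Fan f) (ω : Forms e K) (Y : ProjModel K),
  LogData e f x ω → IsModel e x F.A Y → ∀ i (m : Ideal (Y.ring i)), m.IsMaximal → ∃ a ∈ F.A,
  ∀ (v : DivVal e K) (P : Ideal (Y.ring i)), HasCentre (Y.ring i) v P → P ≤ m →
    MinAt F.A a (wt x v) ∧ 0 ≤ F.k * v.formOrd ω + pair (wt x v) (F.u a) ∧
    (F.k * v.formOrd ω + pair (wt x v) (F.u a) = 0 ↔ P.height = 1)

/-- Let `a` be as in `IsModel.pt`, `w = wt x v` (so `MinAt A a w`), `formOrd = logOrd - 1`
(`Stmt_TXT`). If `w = 0`: `low0`, `eq0`, and `Big ↔ P.height = 1` by `pt`: `←` is trivial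
(`ResIndep` implies that the `mon x (b l - a)` have order zero), `→` by `RES` for the differences
given by `Fan.full` (`n` linearly independent integral vectors span over `ℚ`). If `w ≠ 0`: `w = k w0`,
`k > 0`, `w0` primitive, `MinAt A a w0`; `disc` and `low` give
`F.k (logOrd ω - 1) + pair w (u a) ≥ F.k (- k psi w0 - 1) + k F.k (psi w0 + 1) = F.k (k - 1) ≥ 0`
(`psi f (k w0) = k psi f w0`). Equality holds iff `k = 1`, `Big` holds and `pair w0 (u a) =
F.k (psi w0 + 1)`. If so, `ray` gives `n - 1` independent differences orthogonal to `w`, `RES` gives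
`e - 1` of them with independent residues, so `P.height = 1` by `pt`. Conversely let `P.height = 1`:
`pt` gives `b l ∈ A` with `ResIndep (mon x (b l - a))`, so `pair w (b l - a) = 0`, `Big` holds,
`w` is primitive by `unit`; if the inequality of `disc` were strict, `nonray` and `bnd` give a
contradiction (`pair (ν j) (b l - a) ≥ 0` as `MinAt A a (ν j)`, and `∑ c_j pair (ν j) (b l - a) = c0
pair w (b l - a) = 0`, so all are zero). -/
def M_KEY : Prop := S_MON → S_RES → S_KEY

/-- TER: the model has terminal singularities. (By `SCA` it is enough to consider `ω`: with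
`ω' = g ω` take the equation `g^k / mon x (u a)`.) -/
def S_TER : Prop := ∀ {e n r : ℕ} {K : Type} [Field K] [Algebra ℂ K] (f : Fin r → Laurent n)
  (x : Fin n → K), Base e f x → ∀ (F : Fan f) (ω : Forms e K) (Y : ProjModel K),
  LogData e f x ω → IsModel e x F.A Y → Y.Terminal e

def M_TER : Prop := S_MON → S_SCA → S_KEY → S_TER

/-- SEM: case (a). (`k = F.k`, the sections are `g^(-k) mon x (u a)`, `a ∈ A`; `FanA.nef`.) -/
def S_SEM : Prop := ∀ {e n r : ℕ} {K : Type} [Field K] [Algebra ℂ K] (f : Fin r → Laurent n)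
  (x : Fin n → K), Base e f x → ∀ (F : FanA f) (ω : Forms e K) (Y : ProjModel K),
  LogData e f x ω → IsModel e x F.A Y → Y.Semiample e

def M_SEM : Prop := S_MON → S_SCA → S_KEY → S_SEM

/-- MMC for one field. -/
def MMC (e : ℕ) (K : Type) [Field K] [Algebra ℂ K] : Prop :=
  ∃ Y : ProjModel K, Y.Terminal e ∧ ((Y.Semiample e ∧ Y.Nef e) ∨ Y.MoriFibre e)

/-- MAIN: by induction on `n`. `FAN` (`n > 0` because `n = r + e`); `FanA`: `LOG`, `MOD`, `TER`, `SEM`,
`NEF`; `FanB`: the transcendence degree of the field of `RED` is at most `e`; if it is `e` then `RED`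
and induction, otherwise `MOD`, `TER`, `FIB` (the hypothesis about the prime divisors is `KEY` for a
maximal ideal above `P`, and `Fan.cons`). -/
def S_MAIN : Prop := ∀ {e n r : ℕ} {K : Type} [Field K] [Algebra ℂ K] (f : Fin r → Laurent n)
  (x : Fin n → K), Sys e f x → MMC e K

def M_MAIN : Prop := S_FAN → S_LOG → S_MOD → S_KEY → S_TER → S_SEM → S_NEF → S_RED → S_FIB → S_MAIN

end

end MMCI
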