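import Pool.Agent.MMCI.St
import Pool.Agent.MldGeo.Stmts1

/-!
# Block RED: the reduction of the number of variables (statements)

The theorem is `S_RED` of `St.lean`. In the proofs: `χ^m = mon x m`,
`β_ij(p) = pair (ν j) p - minOn (f i) (ν j) ≥ 0` for `p ∈ supp f_i`,
`w_i = - ∑ j, c j * minOn (f i) (ν j) = ∑ j, c j * β_ij(p)`.
-/

namespace MMCI

open MldGeo

noncomputable section

/-- The derivative of `f` along the one-parameter subgroup `ν`. -/
def der {n : ℕ} {F : Type} [Field F] [Algebra ℂ F] (x : Fin n → F) (f : Laurent n)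
    (ν : Fin n → ℤ) : F := ∑ k, (ν k : F) * grad x f k

/-- KER. Proof. Choose `m_1, …, m_e ∈ M` such that the `χ^{m_l}` are algebraically independent (a
transcendence basis of the field chosen among its generators). Consider `Φ : K^n → Ω`,
`Φ a = ∑ a_j dlog x_j`. Then `Φ (m_l) = dlog χ^{m_l}`, by `TBAS` (`MldGeo.t_TBAS` in
`Pool/Agent/MldGeo/TBAS.lean`) these are a basis of `Ω`; so the kernel of `Φ` has dimension
`n - e = r`. The gradients are in the kernel (`∑ j, grad x f j • dlog x_j = D (ev x f) = D 0 = 0`) and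
independent, so they span it. So `K^n` is spanned by the gradients and the `m_l`, and `y` is orthogonal
to all of them. -/
def S_KER : Prop := ∀ {e n r : ℕ} {K : Type} [Field K] [Algebra ℂ K] (f : Fin r → Laurent n)
  (x : Fin n → K), Sys e f x → ∀ M : Set (Fin n → ℤ),
  Algebra.trdeg ℂ (IntermediateField.adjoin ℂ {z | ∃ m ∈ M, z = mon x m}) = (e : Cardinal) →
  ∀ y : Fin n → K, (∀ i, ∑ j, y j * grad x (f i) j = 0) → (∀ m ∈ M, ∑ j, y j * (m j : K) = 0) →
    y = 0

/-- INK: integral vectors which are independent over `ℤ` are independent over `K`. Proof. Over `ℚ`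
clear denominators; then a minor is not zero (or: the rank of a matrix does not depend on the
field). -/
def S_INK : Prop := ∀ {n g : ℕ} {K : Type} [Field K] [CharZero K] (ν : Fin g → (Fin n → ℤ)),
  LinearIndependent ℤ ν → LinearIndependent K fun (j : Fin g) (k : Fin n) => (ν j k : K)

/-- SEL: a matrix with independent columns has an invertible submatrix. -/
def S_SEL : Prop := ∀ {r g : ℕ} {K : Type} [Field K] (M : Fin r → Fin g → K),
  (∀ d : Fin g → K, (∀ i, ∑ j, M i j * d j = 0) → d = 0) →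
  ∃ ρ : Fin g → Fin r, Function.Injective ρ ∧ (Matrix.of fun i j => M (ρ i) j).det ≠ 0

/-- CMB: the weights. Proof. The matrix with the columns `≠ j0` has independent columns (extend
`d` by `0`: `d_i c_{j0} = 0`); `SEL` gives `ρ₀`, `det ≠ 0`, so some term of the determinant is not zero:
there is a permutation `τ` such that `B (ρ₀ (τ i)) (j0.succAbove i) ≠ 0` for all `i`; take
`ρ = ρ₀ ∘ τ` (the determinant changes by a sign). So `w (ρ i) = ∑ a_l c_l` with `a_{j0.succAbove i} > 0`,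
that is `w (ρ i) - c (j0.succAbove i)` is a combination of the `c_l` with coefficients in `ℕ`. The sum
of all these differences and of the `w i`, `i ∉ range ρ`, is `∑ w - ∑ c + c j0 < c j0`, hence each of
them is `< c j0 ≤ c l` for all `l`, so it is zero. -/
def S_CMB : Prop := ∀ {r g : ℕ} {K : Type} [Field K] [CharZero K] (B : Fin r → Fin (g + 1) → K)
  (c : Fin (g + 1) → ℕ) (w : Fin r → ℕ), (∀ j, 0 < c j) →
  (∀ i, ∃ a : Fin (g + 1) → ℕ, w i = ∑ l, a l * c l) →
  (∀ i j, B i j ≠ 0 → ∃ a : Fin (g + 1) → ℕ, w i = ∑ l, a l * c l ∧ 0 < a j) →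
  (∀ d : Fin (g + 1) → K, (∀ i, ∑ j, B i j * d j = 0) →
    ∀ i j, d i * (c j : K) = d j * (c i : K)) →
  ∑ i, w i < ∑ j, c j → ∀ j0, (∀ j, c j0 ≤ c j) →
  ∃ ρ : Fin g → Fin r, Function.Injective ρ ∧
    (Matrix.of fun i j => B (ρ i) (j0.succAbove j)).det ≠ 0 ∧
    (∀ i, w (ρ i) = c (j0.succAbove i)) ∧ ∀ i, i ∉ Set.range ρ → w i = 0

/-- BLK: the diagonal blocks of a triangular invertible matrix are invertible. Proof. `M τ` is zero in
the rows with `q i ≤ s`; the inverse matrix is block triangular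
(`Matrix.blockTriangular_inv_of_blockTriangular`), so `τ = M⁻¹ (M τ)` is zero in the rows with
`q i ≤ s`. -/
def S_BLK : Prop := ∀ {g : ℕ} {K : Type} [Field K] (M : Matrix (Fin g) (Fin g) K)
  (q : Fin g → ℕ), M.det ≠ 0 → (∀ i j, q i < q j → M i j = 0) → ∀ (s : ℕ) (τ : Fin g → K),
  (∀ j, q j ≠ s → τ j = 0) → (∀ i, q i = s → ∑ j, M i j * τ j = 0) → τ = 0

/-- UNI: a weighted homogeneous system. Proof. Put `q i = c (j0.succAbove i)`. Strong induction on
`s`: `t l = 1` for all `l` with `c l = s`. Let `q i = s`. A monomial `d` in `F i` has weight `s`; if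
`d l > 0` and `c l = s` then `d = single l 1`; otherwise `c l < s` for all `l` in its support and the
monomial has the value `1` at `t`. So `0 = F i (t) - F i (1) = ∑_{c l = s} b_il (t l - 1)`, `b_il` the
coefficient of `single l 1`, which is the value at `1` of `pderiv l (F i)`. The term of `j0` is zero.
`BLK` (`M` is block triangular because a monomial which contains `X_l` has weight at least `c l`). -/
def S_UNI : Prop := ∀ {g : ℕ} {L : Type} [Field L] (c : Fin (g + 1) → ℕ) (j0 : Fin (g + 1))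
  (F : Fin g → MvPolynomial (Fin (g + 1)) L), (∀ j, 0 < c j) →
  (∀ i, ∀ d ∈ (F i).support, ∑ l, d l * c l = c (j0.succAbove i)) →
  (Matrix.of fun i j : Fin g =>
    MvPolynomial.eval (fun _ => 1) (MvPolynomial.pderiv (j0.succAbove j) (F i))).det ≠ 0 →
  ∀ t : Fin (g + 1) → L, t j0 = 1 →
    (∀ i, MvPolynomial.eval t (F i) = MvPolynomial.eval (fun _ => 1) (F i)) → t = fun _ => 1

/-- TEX: a point of the torus on which the characters orthogonal to the `ν_j` are trivial is a product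
of values of the one-parameter subgroups. Proof. The homomorphism `m ↦ mon h m`, `ℤ^n → Lˣ`, is
trivial on the kernel of `m ↦ (pair (ν j) m)_j`, so it induces a homomorphism of the image
`H ⊆ ℤ^(g+1)`, which extends to `ℤ^(g+1)` since `Lˣ` is divisible (`Module.Baer.of_divisible`,
`Module.Baer.extension_property`). This gives `t`. Choose `λ` with `λ^(c j0) = (t j0)⁻¹` and replace
`t j` by `t j * λ^(c j)`; this does not change the product since `∑ c_j ν_j = 0`. -/
def S_TEX : Prop := ∀ {n g : ℕ} {L : Type} [Field L] [IsAlgClosed L]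
  (ν : Fin (g + 1) → (Fin n → ℤ)) (c : Fin (g + 1) → ℕ) (j0 : Fin (g + 1)) (h : Fin n → L),
  (∀ j, 0 < c j) → ∑ j, (c j : ℤ) • ν j = 0 → (∀ k, h k ≠ 0) →
  (∀ m : Fin n → ℤ, (∀ j, pair (ν j) m = 0) → mon h m = 1) →
  ∃ t : Fin (g + 1) → L, (∀ j, t j ≠ 0) ∧ t j0 = 1 ∧
    ∀ m : Fin n → ℤ, mon h m = ∏ j, t j ^ pair (ν j) m

/-- FTH: field theory. Proof. `K` is algebraic over `E` (additivity of the transcendence degree). If
`a ∈ K`, `a ∉ E` then the minimal polynomial of `a` over `E` is separable of degree at least two, so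
it has a root `b ≠ a` in the algebraic closure, and there is an embedding over `E` with `a ↦ b`. -/
def S_FTH : Prop := ∀ {e : ℕ} {K : Type} [Field K] [Algebra ℂ K] (E : IntermediateField ℂ K),
  Algebra.trdeg ℂ K = (e : Cardinal) → Algebra.trdeg ℂ E = (e : Cardinal) →
  (∀ σ : K →ₐ[ℂ] AlgebraicClosure K, (∀ z ∈ E, σ z = algebraMap K (AlgebraicClosure K) z) →
    ∀ z, σ z = algebraMap K (AlgebraicClosure K) z) → E = ⊤

/-- HOM: the equation as a polynomial on the one-parameter subgroups. Proof.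
`F = ∑_{p ∈ supp f} monomial (β(p)) (a_p χ^p)`, `β_j(p) = pair (ν j) p - minOn f (ν j) ∈ ℕ`. -/
def S_HOM : Prop := ∀ {n g : ℕ} {K : Type} [Field K] [Algebra ℂ K] (f : Laurent n)
  (x : Fin n → K) (ν : Fin (g + 1) → (Fin n → ℤ)), ∃ F : MvPolynomial (Fin (g + 1)) K,
  (∀ c : Fin (g + 1) → ℕ, ∑ j, (c j : ℤ) • ν j = 0 → ∀ d ∈ F.support,
    ((∑ l, d l * c l : ℕ) : ℤ) = - ∑ j, (c j : ℤ) * minOn f (ν j)) ∧
  (∀ j, MvPolynomial.eval (fun _ => 1) (MvPolynomial.pderiv j F) =
    der x f (ν j) - (minOn f (ν j) : K) * ev x f) ∧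
  ∀ {L : Type} [Field L] [Algebra K L] [Algebra ℂ L] [IsScalarTower ℂ K L] (h : Fin n → L)
    (t : Fin (g + 1) → L), (∀ j, t j ≠ 0) → (∀ m, mon h m = ∏ j, t j ^ pair (ν j) m) →
    ev (fun k => algebraMap K L (x k) * h k) f =
      (∏ j, t j ^ minOn f (ν j)) * MvPolynomial.aeval t F

/-- WGT: the weight of `f`. Proof. `a = β(p)` for `p ∈ supp f`; `der x f (ν j) - minOn f (ν j) * ev x f`
is `∑ a_p β_j(p) χ^p`, so if it is not zero there is a `p` with `β_j(p) > 0`; if `w = 0` all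
`β_j(p)` are zero. -/
def S_WGT : Prop := ∀ {n g : ℕ} (f : Laurent n) (ν : Fin (g + 1) → (Fin n → ℤ))
  (c : Fin (g + 1) → ℕ), f ≠ 0 → (∀ j, 0 < c j) → ∑ j, (c j : ℤ) • ν j = 0 →
  ∃ w : ℕ, (w : ℤ) = - ∑ j, (c j : ℤ) * minOn f (ν j) ∧
    (∃ a : Fin (g + 1) → ℕ, w = ∑ l, a l * c l) ∧
    (∀ {K : Type} [Field K] [Algebra ℂ K] (x : Fin n → K) (j : Fin (g + 1)),
      der x f (ν j) - (minOn f (ν j) : K) * ev x f ≠ 0 →
        ∃ a : Fin (g + 1) → ℕ, w = ∑ l, a l * c l ∧ 0 < a j) ∧
    (w = 0 → ∀ p ∈ f.coeff.support, ∀ p' ∈ f.coeff.support, ∀ j, pair (ν j) p = pair (ν j) p')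

/-- EMB: the monomials orthogonal to the circuit generate `K`. Proof. `FTH` for the field `E`. Let
`σ` be an embedding over `E`, `h k = σ (x k) / x k`; `mon h m = σ (χ^m) / χ^m = 1` for `m` orthogonal
to the `ν j`. `TEX` gives `t`. For `i : Fin g` let `F i` be the polynomial of `HOM` for `f (ρ i)`
(its image over `AlgebraicClosure K`): `F i (t) = 0` because `σ (ev x (f (ρ i))) = 0` is the value at
`x * h`, and `F i (1) = 0` (`HOM` for `h = 1`, `t = 1`). `UNI` gives `t = 1`, so `σ (x k) = x k`, and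
`K` is generated by the `x k`. -/
def S_EMB : Prop := ∀ {e n r g : ℕ} {K : Type} [Field K] [Algebra ℂ K] (f : Fin r → Laurent n)
  (x : Fin n → K) (ν : Fin (g + 1) → (Fin n → ℤ)) (c : Fin (g + 1) → ℕ) (j0 : Fin (g + 1))
  (ρ : Fin g → Fin r), Sys e f x → (∀ j, 0 < c j) → ∑ j, (c j : ℤ) • ν j = 0 →
  (∀ i, - ∑ j, (c j : ℤ) * minOn (f (ρ i)) (ν j) = c (j0.succAbove i)) →
  (Matrix.of fun i j : Fin g => der x (f (ρ i)) (ν (j0.succAbove j))).det ≠ 0 →
  Algebra.trdeg ℂ (IntermediateField.adjoin ℂ {z | ∃ m, (∀ j, pair (ν j) m = 0) ∧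
    z = mon x m}) = (e : Cardinal) →
  IntermediateField.adjoin ℂ {z | ∃ m, (∀ j, pair (ν j) m = 0) ∧ z = mon x m} = ⊤

/-- LAT: a basis of the lattice orthogonal to the `ν_j`. Proof. The kernel of `ℤ^n → ℤ^g` is a free
module of rank `n - g`. -/
def S_LAT : Prop := ∀ {n g : ℕ} (ν : Fin g → (Fin n → ℤ)), LinearIndependent ℤ ν →
  ∃ (n' : ℕ) (m : Fin n' → (Fin n → ℤ)), n' + g = n ∧ LinearIndependent ℤ m ∧
    (∀ k j, pair (ν j) (m k) = 0) ∧
    ∀ u : Fin n → ℤ, (∀ j, pair (ν j) u = 0) → ∃ a : Fin n' → ℤ, u = ∑ k, a k • m k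

/-- CHV: change of variables. Proof. `f'` has the coefficient of `p` at the exponent `a`,
`p = p0 + ∑ a_k m_k` (`a` is unique, and `a ↦ p` is injective). -/
def S_CHV : Prop := ∀ {n n' : ℕ} (m : Fin n' → (Fin n → ℤ)) (f : Laurent n) (p0 : Fin n → ℤ),
  LinearIndependent ℤ m → f ≠ 0 →
  (∀ p ∈ f.coeff.support, ∃ a : Fin n' → ℤ, p = p0 + ∑ k, a k • m k) →
  ∃ f' : Laurent n', f' ≠ 0 ∧ (∀ w, minOn f w = pair w p0 + minOn f' fun k => pair w (m k)) ∧
    ∀ {F : Type} [Field F] [Algebra ℂ F] (x : Fin n → F), (∀ j, x j ≠ 0) →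
      ev x f = mon x p0 * ev (fun k => mon x (m k)) f' ∧
      ∀ j, grad x f j = (p0 j : F) * ev x f +
        mon x p0 * ∑ k, (m k j : F) * grad (fun k => mon x (m k)) f' k

/-- GRO: the orders of the gradients. Proof. `v.ord` of a sum is at least the minimum; the terms
`a_p p_j χ^p` have order `pair (wt x v) p ≥ minOn f (wt x v)` or are zero. -/
def S_GRO : Prop := ∀ {e n : ℕ} {K : Type} [Field K] [Algebra ℂ K] (f : Laurent n)
  (x : Fin n → K) (v : DivVal e K), (∀ j, x j ≠ 0) →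
  ∀ j, v.Ge (minOn f (wt x v)) (grad x f j)

/-- The rows of `G`, scaled by the `μ i`, are independent modulo the maximal ideal of `v`. -/
def Good {e r n : ℕ} {K : Type} [Field K] [Algebra ℂ K] (v : DivVal e K) (G : Fin r → Fin n → K)
    (μ : Fin r → ℤ) : Prop :=
  ∀ (y : Fin r → K) (N : ℤ), (∀ k, v.Ge N (∑ i, y i * G i k)) → ∀ i, v.Ge (N - μ i) (y i)

/-- ND1. Proof. Cramer: with `S = (G i (s j))`, `y_i * det S = ∑ j, (y S)_j * adj(S)_{j i}` and
`adj(S)_{j i}` has order at least `∑_{i' ≠ i} μ i'`. -/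
def S_ND1 : Prop := ∀ {e r n : ℕ} {K : Type} [Field K] [Algebra ℂ K] (v : DivVal e K)
  (G : Fin r → Fin n → K) (μ : Fin r → ℤ) (s : Fin r → Fin n), (∀ i k, v.Ge (μ i) (G i k)) →
  (Matrix.of fun i j => G i (s j)).det ≠ 0 →
  v.ord (Matrix.of fun i j => G i (s j)).det = ∑ i, μ i → Good v G μ

/-- ND2. Proof. The rows are independent over `K` (if `y G = 0` then `Good` for all `N` gives
`y = 0`), so some minor is not zero (`SEL` for the transposed matrix). Choose `s` with
`S = (G i (s j))`, `det S ≠ 0`, such that `D = ord (det S)` is minimal. By Cramer's rule the column `k`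
of `G` is `S C_k`, where `det S * C_jk` is the minor with `s j` replaced by `k`; so `C_jk` has order at
least `0`. The row `j` of `adj S` is a vector `y` with `(y G)_k = det S * C_jk`, so `Good` with
`N = D` gives: `adj(S)_{j i}` has order at least `D - μ i`. So `det (adj S) = (det S)^(r-1)` has order
at least `r D - ∑ μ i`, hence `D ≤ ∑ μ i`; and `D ≥ ∑ μ i` by the lower bounds. -/
def S_ND2 : Prop := ∀ {e r n : ℕ} {K : Type} [Field K] [Algebra ℂ K] (v : DivVal e K)
  (G : Fin r → Fin n → K) (μ : Fin r → ℤ), (∀ i k, v.Ge (μ i) (G i k)) → Good v G μ →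
  ∃ s : Fin r → Fin n, Function.Injective s ∧ (Matrix.of fun i j => G i (s j)).det ≠ 0 ∧
    v.ord (Matrix.of fun i j => G i (s j)).det = ∑ i, μ i

/-- NEW: the new system. Proof. `f'` from `CHV` for `f (ρ i)`, `p i`. `zero`: `CHV`. `rank`: by `CHV`
`grad x (f (ρ i)) j = χ^{p i} * ∑ k, (m k j) * grad x' (f' i) k`; a relation between the new gradients
gives a relation between the old ones. `nd`: the old system is `Good` (`ND1`, `GRO`), so its rows
`ρ i` are `Good` (`y = 0` in the other rows), and so are the new rows: if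
`∑ i, y i * grad x' (f' i) k` has order at least `N` for all `k` then
`∑ i, y i * χ^{-p i} * grad x (f (ρ i)) j` has order at least `N` for all `j`, so
`y i * χ^{-p i}` has order at least `N - minOn (f (ρ i)) w`, and `y i` has order at least
`N - minOn (f' i) w'`. `ND2`; an injective map `Fin r' → Fin n'`, `n' = r' + e`, is the restriction of
an equivalence `Fin r' ⊕ Fin e ≃ Fin n'`. -/
def S_NEW : Prop := ∀ {e n r n' r' : ℕ} {K : Type} [Field K] [Algebra ℂ K]
  (f : Fin r → Laurent n) (x : Fin n → K) (m : Fin n' → (Fin n → ℤ)) (ρ : Fin r' → Fin r)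
  (p : Fin r' → (Fin n → ℤ)), Sys e f x → LinearIndependent ℤ m → n' = r' + e →
  Function.Injective ρ → IntermediateField.adjoin ℂ (Set.range fun k => mon x (m k)) = ⊤ →
  (∀ i, ∀ q ∈ (f (ρ i)).coeff.support, ∃ a : Fin n' → ℤ, q = p i + ∑ k, a k • m k) →
  ∃ f' : Fin r' → Laurent n', Sys e f' fun k => mon x (m k)

end

end MMCI
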