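import Pool.Agent.MMCI.StT
import Pool.Agent.MMCI.StR

/-!
# Block T: the simplified abstract data and the reduction
-/

namespace MMCI

open MldGeo

noncomputable section

/-- The abstract data of stage 2: at every valuation there is a unit minor, or the centre is in the
torus, it is not a divisor and the discrepancy is positive. -/
structure TSys2 (e : ℕ) {n r : ℕ} {K : Type} [Field K] [Algebra ℂ K] (f : Fin r → Laurent n)
    (x : Fin n → K) : Prop extends Reg e f x where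
  nd2 : ∀ v : DivVal e K, (∃ σ : Fin r ⊕ Fin e ≃ Fin n, UnitMinor f x v σ) ∨
    (wt x v = 0 ∧ ¬ Big x v ∧ ∀ ω : Forms e K, IsRes f x ω → 2 ≤ v.logOrd ω)

/-- TSY2: nondegenerate complete intersections with terminal singularities. (`MIN`, `UMT`, `BHT`,
`TOT`.) -/
def S_TSY2 : Prop := ∀ {e n r : ℕ} {K : Type} [Field K] [Algebra ℂ K] (f : Fin r → Laurent n)
  (x : Fin n → K), IsTCI e f x → TSys2 e f x

/-- TLOG2: the residue form. -/
def S_TLOG2 : Prop := ∀ {e n r : ℕ} {K : Type} [Field K] [Algebra ℂ K] (f : Fin r → Laurent n)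
  (x : Fin n → K), TSys2 e f x → ∃ ω : Forms e K, LogData e f x ω

/-- TRED2: the reduction. -/
def S_TRED2 : Prop := ∀ {e n r : ℕ} {K : Type} [Field K] [Algebra ℂ K] (f : Fin r → Laurent n)
  (x : Fin n → K), TSys2 e f x → ∀ F : FanB f,
  Algebra.trdeg ℂ (IntermediateField.adjoin ℂ
    {z | ∃ a ∈ F.A, ∃ a' ∈ F.A, z = mon x (F.b a - F.b a')}) = (e : Cardinal) →
  ∃ (n' r' : ℕ) (f' : Fin r' → Laurent n') (x' : Fin n' → K), n' < n ∧ TSys2 e f' x'

/-- TMAIN2: as `MAIN`. -/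
def S_TMAIN2 : Prop := ∀ {e n r : ℕ} {K : Type} [Field K] [Algebra ℂ K] (f : Fin r → Laurent n)
  (x : Fin n → K), TSys2 e f x → MMC e K

/-! ### the pieces of the reduction -/

/-- KER for `Reg`. -/
def S_KER2 : Prop := ∀ {e n r : ℕ} {K : Type} [Field K] [Algebra ℂ K] (f : Fin r → Laurent n)
  (x : Fin n → K), Reg e f x → ∀ M : Set (Fin n → ℤ),
  Algebra.trdeg ℂ (IntermediateField.adjoin ℂ {z | ∃ m ∈ M, z = mon x m}) = (e : Cardinal) →
  ∀ y : Fin n → K, (∀ i, ∑ j, y j * grad x (f i) j = 0) → (∀ m ∈ M, ∑ j, y j * (m j : K) = 0) →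
    y = 0

/-- EMB for `Reg`. -/
def S_EMB2 : Prop := ∀ {e n r g : ℕ} {K : Type} [Field K] [Algebra ℂ K] (f : Fin r → Laurent n)
  (x : Fin n → K) (ν : Fin (g + 1) → (Fin n → ℤ)) (c : Fin (g + 1) → ℕ) (j0 : Fin (g + 1))
  (ρ : Fin g → Fin r), Reg e f x → (∀ j, 0 < c j) → ∑ j, (c j : ℤ) • ν j = 0 →
  (∀ i, - ∑ j, (c j : ℤ) * minOn (f (ρ i)) (ν j) = c (j0.succAbove i)) →
  (Matrix.of fun i j : Fin g => der x (f (ρ i)) (ν (j0.succAbove j))).det ≠ 0 →
  Algebra.trdeg ℂ (IntermediateField.adjoin ℂ {z | ∃ m, (∀ j, pair (ν j) m = 0) ∧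
    z = mon x m}) = (e : Cardinal) →
  IntermediateField.adjoin ℂ {z | ∃ m, (∀ j, pair (ν j) m = 0) ∧ z = mon x m} = ⊤

/-- GPL: Plücker relations. Proof. Let `G = (G₁ G₂)`, `u = (u₁ u₂)` be the blocks of columns
`σ ∘ inl`, `σ ∘ inr`. From the relations `y_inl = - G₁⁻¹ G₂ y_inr`, so
`∑ j, u l j • y j = ((u₂ - u₁ G₁⁻¹ G₂) y_inr)_l`, hence `ιMulti (u y) = det (u₂ - u₁ G₁⁻¹ G₂) •
ιMulti (y_inr)`, and `det G₁ * det (u₂ - u₁ G₁⁻¹ G₂)` is the big determinant (`Matrix.det_fromBlocks₁₁`).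
(See the proof of `t_PLU` in `K_PLU.lean` for the lemma on `ιMulti` of linear combinations.) -/
def S_GPL : Prop := ∀ {e n r : ℕ} {K E : Type} [Field K] [AddCommGroup E] [Module K E]
  (y : Fin n → E) (G : Fin r → Fin n → K) (u : Fin e → Fin n → K),
  (∀ i, ∑ j, G i j • y j = 0) → ∀ σ : Fin r ⊕ Fin e ≃ Fin n,
  (Matrix.of fun i j : Fin r => G i (σ (Sum.inl j))).det ≠ 0 →
    (Matrix.of fun i j : Fin r => G i (σ (Sum.inl j))).det •
      exteriorPower.ιMulti K e (fun l => ∑ j, u l j • y j) =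
    (Matrix.of fun a b : Fin r ⊕ Fin e => Sum.elim G u a (σ b)).det •
      exteriorPower.ιMulti K e (fun l => y (σ (Sum.inr l)))

/-- DTC: a determinant. Proof. There are `m' : Fin n' → Fin n → ℂ` with `∑ j, m k j * m' k' j = δ_kk'`
(the `m k` are linearly independent over `ℂ`, `INK`). The square matrix `C` over `ℂ` with the columns
`m' k` (`k : Fin n'`) and `ν j` (`j : Fin g`) is invertible: a relation between its columns, multiplied
by the `m k`, has the coefficients zero at the `m' k`, and the `ν j` are independent. Multiply the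
matrix of the theorem, with the rows ordered as `(τ (inr i))`, `l`, `(τ (inl i))`, by `C`, with the
columns ordered as `m' (σ' (inl ·))`, `m' (σ' (inr ·))`, `ν`: the product is
`(χ G'_inl, χ G'_inr, 0; 0, 1, 0; *, *, B)`, its determinant is
`(∏ χ i) * det G'_inl * det B`. The reordering changes the determinant by a sign. -/
def S_DTC : Prop := ∀ {e n r g n' r' : ℕ} {K : Type} [Field K] [Algebra ℂ K]
  (G : Fin r → Fin n → K) (τ : Fin g ⊕ Fin r' ≃ Fin r) (m : Fin n' → (Fin n → ℤ))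
  (ν : Fin g → (Fin n → ℤ)) (G' : Fin r' → Fin n' → K) (χ : Fin r' → K)
  (σ : Fin r ⊕ Fin e ≃ Fin n) (σ' : Fin r' ⊕ Fin e ≃ Fin n'),
  LinearIndependent ℤ m → LinearIndependent ℤ ν → (∀ j k, pair (ν j) (m k) = 0) → n' + g = n →
  (∀ i j, G (τ (Sum.inr i)) j = χ i * ∑ k, (m k j : K) * G' i k) →
  ∃ κ : ℂ, κ ≠ 0 ∧
    (Matrix.of fun a b : Fin r ⊕ Fin e =>
      Sum.elim G (fun l j => (m (σ' (Sum.inr l)) j : K)) a (σ b)).det =
    algebraMap ℂ K κ * (∏ i, χ i) *
      (Matrix.of fun i j : Fin r' => G' i (σ' (Sum.inl j))).det *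
      (Matrix.of fun i j : Fin g => ∑ k, (ν j k : K) * G (τ (Sum.inl i)) k).det

/-- NEW2: the new system. Proof. As `NEW` (`f'` from `CHV`); unit minors descend as there. Let
`wt x v = 0`, `¬ Big x v` and `2 ≤ v.logOrd ω` for the residue forms of the old system. `wt x' v = 0`
and `¬ Big x' v` are clear. Let `IsRes f' x' ω'`. Let `ω` be the form of `OMG` for the old system.
Choose `σ`, `σ'` with nonzero minors (by `rank`; `SEL` for the transposed matrix). `minor' • ω' = ±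
dlogs (rest x' σ')`; `GPL` for `y j = dlog (x j)`, `G = grad x (f ·)`, `u l = m (σ' (inr l))` and `DTC`
with `χ i = mon x (p i)` give `minor σ • dlogs (rest x' σ') = κ * ∏ χ i * minor' * det B •
dlogs (rest x σ) = ± κ * ∏ χ i * minor' * det B * minor σ • ω`, so `ω' = ± κ (∏ χ i) det B • ω`, and
`v.logOrd ω' = v.ord (det B) + v.logOrd ω` (`cFSM`), `0 ≤ v.ord (det B)` (`MON`, the entries of `B` are
integral combinations of the gradients, `minOn (f i) 0 = 0`). -/
def S_NEW2 : Prop := ∀ {e n r g n' r' : ℕ} {K : Type} [Field K] [Algebra ℂ K]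
  (f : Fin r → Laurent n) (x : Fin n → K) (τ : Fin g ⊕ Fin r' ≃ Fin r) (m : Fin n' → (Fin n → ℤ))
  (ν : Fin g → (Fin n → ℤ)) (p : Fin r' → (Fin n → ℤ)), TSys2 e f x →
  LinearIndependent ℤ m → LinearIndependent ℤ ν → (∀ j k, pair (ν j) (m k) = 0) → n' + g = n →
  n' = r' + e → IntermediateField.adjoin ℂ (Set.range fun k => mon x (m k)) = ⊤ →
  (∀ i, ∀ q ∈ (f (τ (Sum.inr i))).coeff.support, ∃ a : Fin n' → ℤ, q = p i + ∑ k, a k • m k) →
  (Matrix.of fun i j : Fin g => der x (f (τ (Sum.inl i))) (ν j)).det ≠ 0 →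
  ∃ f' : Fin r' → Laurent n', TSys2 e f' fun k => mon x (m k)

end

end MMCI
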