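import Pool.Agent.MMCI.FanDefs

/-!
# Fans: statements (convex geometry)

Throughout `G x w := ip x w - muR P w + l * ‖w‖`.
-/

set_option autoImplicit false

namespace MMCI.F

noncomputable section

/-- DIR: simultaneous approximation.  Proof.  The vectors `t w - ⌊t w⌋` (`t = 0, 1, …`) are bounded,
so by compactness two of them, `s < t`, have distance `< δ`; take `t - s` and the difference of the
integral parts. -/
def S_DIR : Prop := ∀ {n : ℕ} (w : E n) (δ : ℝ), 0 < δ →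
  ∃ (t : ℕ) (W : Fin n → ℤ), 0 < t ∧ ‖(t : ℝ) • w - iv W‖ < δ

/-- BAS: basic facts.  `L` is the maximum of the norms `‖iv p‖`.  Last part: `w = d • w₀` with
`w₀` primitive and `d ≥ 1` (divide by the gcd), `μ (d • w₀) = d * μ w₀`, so the value is `d` times the
value at `w₀`, which is at least `1`. -/
def S_BAS : Prop := ∀ {n : ℕ} (P : Finset (Fin n → ℤ)) (μ : (Fin n → ℤ) → ℤ), P.Nonempty →
  IsMinOf P μ →
  (∀ w : Fin n → ℤ, muR P (iv w) = μ w) ∧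
  (∀ w : E n, (∃ p ∈ P, muR P w = ip (iv p) w) ∧ ∀ p ∈ P, muR P w ≤ ip (iv p) w) ∧
  (∀ (t : ℝ) (w : E n), 0 ≤ t → muR P (t • w) = t * muR P w) ∧
  (∃ L : ℝ, 0 ≤ L ∧ ∀ w w' : E n, |muR P w - muR P w'| ≤ L * ‖w - w'‖) ∧
  (∀ (l : ℝ) (x : E n), Feas μ l x → ∀ w : Fin n → ℤ, w ≠ 0 →
    1 ≤ ip x (iv w) - μ w + l * ‖iv w‖)

/-- MIN: the smallest parameter and compactness.  Proof.  The unit vectors `± e_i` bound the
coordinates of `x`, so `{(x, l) : 0 ≤ l ≤ 1, Feas μ l x}` is compact (an intersection of closed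
half spaces); it contains `(iv p, 1)` since `1 ≤ ‖iv w‖` for `w ≠ 0`; minimise `l`. -/
def S_MIN : Prop := ∀ {n : ℕ} (P : Finset (Fin n → ℤ)) (μ : (Fin n → ℤ) → ℤ), P.Nonempty →
  IsMinOf P μ →
  (∃ l : ℝ, 0 ≤ l ∧ (∃ x : E n, Feas μ l x) ∧ ∀ (l' : ℝ) (x : E n), 0 ≤ l' → Feas μ l' x → l ≤ l') ∧
  ∀ l : ℝ, IsCompact {x : E n | Feas μ l x}

/-- POS: `G` is positive.  Proof.  With `L'` a Lipschitz constant of `G x` (`BAS`): for a real vector
`w` and the approximation `(t, W)` of `DIR` with a small `δ`: `G x (iv W) ≤ t * G x w + L' δ`.  If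
`W ≠ 0` then `1 ≤ G x (iv W)` (`BAS`).  So `G x w ≤ 0` is impossible when `δ < ‖w‖` (then `W ≠ 0`,
as `t ≥ 1`) and `L' δ < 1`. -/
def S_POS : Prop := ∀ {n : ℕ} (P : Finset (Fin n → ℤ)) (μ : (Fin n → ℤ) → ℤ), P.Nonempty →
  IsMinOf P μ → ∀ (l : ℝ) (x : E n), Feas μ l x → ∀ w : E n, w ≠ 0 →
    0 < ip x w - muR P w + l * ‖w‖

/-- DEL: uniform positivity.  Proof.  Minimum of `G` on the compact set `Feas × sphere` (`MIN`,
`POS`), homogeneity (`BAS`).  (If there is no feasible `x` or `n = 0` take `δ = 1`.) -/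
def S_DEL : Prop := ∀ {n : ℕ} (P : Finset (Fin n → ℤ)) (μ : (Fin n → ℤ) → ℤ), P.Nonempty →
  IsMinOf P μ → ∀ l : ℝ, ∃ δ : ℝ, 0 < δ ∧ ∀ x : E n, Feas μ l x → ∀ w : E n,
    δ * ‖w‖ ≤ ip x w - muR P w + l * ‖w‖

/-- FNT: the tight primitive vectors form a finite set.  Proof.  `DEL`: `G = 1` gives
`‖iv w‖ ≤ 1 / δ`; there are finitely many integral vectors of bounded norm. -/
def S_FNT : Prop := ∀ {n : ℕ} (P : Finset (Fin n → ℤ)) (μ : (Fin n → ℤ) → ℤ), P.Nonempty →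
  IsMinOf P μ → ∀ l : ℝ, ∃ S : Finset (Fin n → ℤ), IsTight μ l S

/-- LOC: the tight vectors define the polytope.  Proof.  Let `y` be feasible and `x ∈ Poly` not
feasible; `y_s = y + s (x - y)`, `s` maximal with `y_s` feasible (closed set), `s < 1`.  For `s' > s`
some primitive `w` violates the condition at `y_s'`; by `DEL` at `y_s` its norm is bounded
(`δ ‖w‖ - |s' - s| ‖x - y‖ ‖w‖ < 1`), so one `w` works for a sequence `s' → s`: it is tight at `y_s`,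
so it is in `S`, and the affine function `s' ↦ G (y_s') w` is `< 1` for some `s' > s` and `= 1` at `s`,
so it is `< 1` at `1`: contradiction to `x ∈ Poly`. -/
def S_LOC : Prop := ∀ {n : ℕ} (P : Finset (Fin n → ℤ)) (μ : (Fin n → ℤ) → ℤ), P.Nonempty →
  IsMinOf P μ → ∀ (l : ℝ) (S : Finset (Fin n → ℤ)), IsTight μ l S → (∃ x : E n, Feas μ l x) →
    ∀ x : E n, Feas μ l x ↔ x ∈ Poly S fun ν => μ ν + 1 - l * ‖iv ν‖

/-- BDD: the polytopes with the normals `S` are bounded.  Proof.  Otherwise there are `x_k ∈ Poly`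
with `‖x_k‖ → ∞`; a limit point `d` of `x_k / ‖x_k‖` satisfies `0 ≤ ip d (iv ν)`, `ν ∈ S`, `‖d‖ = 1`;
`x + t d` is feasible for all `t ≥ 0` (`LOC`), contradiction to the compactness in `MIN`. -/
def S_BDD : Prop := ∀ {n : ℕ} (P : Finset (Fin n → ℤ)) (μ : (Fin n → ℤ) → ℤ), P.Nonempty →
  IsMinOf P μ → ∀ (l : ℝ) (S : Finset (Fin n → ℤ)), IsTight μ l S → (∃ x : E n, Feas μ l x) →
    ∀ b : (Fin n → ℤ) → ℝ, Bornology.IsBounded (Poly S b)

/-- FRK: optimality.  Proof.  Farkas lemma (`Pool.Agent.TD.farkas_field` in `TD/Y/Cone.lean` or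
`farkas_field` in `MldGeo/CONE.lean`) for the tight normals: if `0 ≤ ip y (iv ν)` for all tight `ν`
then `x + t y ∈ Poly` for small `t > 0`, so `0 ≤ ip y w`. -/
def S_FRK : Prop := ∀ {n : ℕ} (S : Finset (Fin n → ℤ)) (b : (Fin n → ℤ) → ℝ) (x w : E n),
  x ∈ Poly S b → (∀ y ∈ Poly S b, ip x w ≤ ip y w) →
    ∃ c : (Fin n → ℤ) → ℝ, (∀ ν, 0 ≤ c ν) ∧ w = ∑ ν ∈ tight S b x, c ν • iv ν

/-- VRT: vertices.  Proof.  (1) `x ↦ tight S b x` is injective on vertices.  (2) The minimum is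
attained (compactness); choose a minimiser `x` with the maximal number of tight normals.  If
`y ≠ 0` is orthogonal to all tight normals then `ip y w = 0` by `FRK`; `x + t y ∈ Poly` for small `t`,
not for large `t` (bounded); at the last `t` there is one more tight normal: contradiction. -/
def S_VRT : Prop := ∀ {n : ℕ} (S : Finset (Fin n → ℤ)) (b : (Fin n → ℤ) → ℝ),
  {x : E n | IsVert S b x}.Finite ∧
  ((Poly S b).Nonempty → Bornology.IsBounded (Poly S b) → ∀ w : E n,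
    ∃ x, IsVert S b x ∧ ∀ y ∈ Poly S b, ip x w ≤ ip y w)

/-- EPS: vertices of a small parallel displacement.  Proof.  For every `B ⊆ S` which is a basis of
the space let `m_B`, `d_B` be the solutions of `ip m (iv ν) = b ν`, `ip d (iv ν) = - h ν`, `ν ∈ B`.
For `ν ∈ S` put `α = ip m_B (iv ν) - b ν`, `β = ip d_B (iv ν) + h ν`.  Take `ε₀` smaller than all
`|α| / (|β| + 1)` with `α ≠ 0`.  A vertex `x` for `ε ≤ ε₀` has a basis `B` of tight normals,
`x = m_B + ε d_B`, and `α + ε β ≥ 0` for `ν ∈ S`, `= 0` for the tight `ν`: so `α ≥ 0`, and `α = 0` for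
the tight `ν`.  Take `m = m_B`. -/
def S_EPS : Prop := ∀ {n : ℕ} (S : Finset (Fin n → ℤ)) (b h : (Fin n → ℤ) → ℝ),
  ∃ ε₀ : ℝ, 0 < ε₀ ∧ ∀ ε : ℝ, 0 < ε → ε ≤ ε₀ → ∀ x : E n, IsVert S (fun ν => b ν - ε * h ν) x →
    ∃ m ∈ Poly S b, ∀ ν ∈ tight S (fun ν => b ν - ε * h ν) x, ip m (iv ν) = b ν

/-- SGN: an integral point with the same signs as a real point.  Proof.  Let `W ⊆ ℚ^ι` be the space
of the zeros of the forms which vanish at `x`; a `ℚ`-basis of `W` is an `ℝ`-basis of the real zeros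
(rank of an integral matrix), so `x` is a limit of elements of `W`; take an element of `W` close to
`x` and clear denominators. -/
def S_SGN : Prop := ∀ {ι : Type} [Fintype ι] (x : ι → ℝ) (L : Finset (ι → ℤ)),
  ∃ z : ι → ℤ, ∀ f ∈ L,
    (0 < ∑ i, (f i : ℝ) * x i → 0 < ∑ i, f i * z i) ∧
    (∑ i, (f i : ℝ) * x i = 0 → ∑ i, f i * z i = 0) ∧
    (∑ i, (f i : ℝ) * x i < 0 → ∑ i, f i * z i < 0)

/-- FAC: a facet spans a hyperplane.  Proof.  Suppose `u ≠ 0`.  Let `κ = ip y u`, the common value on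
the vertices of the facet.  For large `K` a vertex which minimises `ip · (K • iv ν + u)` (`VRT`) is
on the facet (there are finitely many vertices, `ip · u` is bounded on `Poly`), so
`K b ν + κ ≤ ip (x₀ - τ • u) (K • iv ν + u) = K b ν + ip x₀ u - τ ‖u‖²` for small `τ > 0`
(`x₀ - τ u ∈ Poly`).  The same with `-u`.  Add. -/
def S_FAC : Prop := ∀ {n : ℕ} (S : Finset (Fin n → ℤ)) (b : (Fin n → ℤ) → ℝ) (ν : Fin n → ℤ)
  (x₀ : E n), Bornology.IsBounded (Poly S b) → ν ∈ S → ip x₀ (iv ν) = b ν →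
  (∀ ν' ∈ S, ν' ≠ ν → b ν' < ip x₀ (iv ν')) →
  ∀ y : E n, IsVert S b y → ν ∈ tight S b y → ∀ u : E n, ip u (iv ν) = 0 →
    (∀ z : E n, IsVert S b z → ν ∈ tight S b z → ip z u = ip y u) → u = 0

/-- GOR: Gordan's alternative with a circuit.  Proof.  Suppose that there is no nonzero relation with
nonnegative integral coefficients on `T`.  For `ν₀ ∈ T` the vector `-ν₀` is not in the rational cone
of `T`; by Farkas there is `d_ν₀` with `⟨d, ν⟩ ≥ 0` on `T` and `⟨d, ν₀⟩ > 0`; the sum of the `d_ν₀`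
works.  Otherwise take a nonzero nonnegative relation `c` with minimal support `ν_0, …, ν_g`
(`g ≥ 1` since `ν ≠ 0`).  If `d` is another relation on the support choose `j` such that `d_j / c_j` is
maximal: `d_j c - c_j d ≥ 0` is a relation with smaller support, so it is zero. -/
def S_GOR : Prop := ∀ {n : ℕ} (T : Finset (Fin n → ℤ)), (∀ ν ∈ T, ν ≠ 0) →
  (∃ d : E n, ∀ ν ∈ T, 0 < ip d (iv ν)) ∨
  ∃ (g : ℕ) (ν : Fin (g + 1) → Fin n → ℤ) (c : Fin (g + 1) → ℤ), 0 < g ∧ (∀ j, ν j ∈ T) ∧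
    (∀ j, 0 < c j) ∧ ∑ j, c j • ν j = 0 ∧
    ∀ d : Fin (g + 1) → ℤ, ∑ j, d j • ν j = 0 → ∀ i j, d i * c j = d j * c i

/-- DEC: if a direction is positive on all tight normals at `y` then the parameter can be decreased.
Proof.  `x = y + s d`, `l' = l - s'`.  `G' x w = G y w + s ip d w - s' ‖w‖`.  By `DEL` (at `y`) with
`s ‖d‖ + s' ≤ δ / 2` this is `≥ 1` for `‖w‖ ≥ 2 / δ`.  There are finitely many other primitive `w`:
the tight ones need `s' ‖w‖ ≤ s ip d w`, the others have `G y w - 1 ≥ γ > 0`. -/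
def S_DEC : Prop := ∀ {n : ℕ} (P : Finset (Fin n → ℤ)) (μ : (Fin n → ℤ) → ℤ), P.Nonempty →
  IsMinOf P μ → ∀ (l : ℝ) (y d : E n), 0 < l → Feas μ l y →
    (∀ w, Prim w → ip y (iv w) = μ w + 1 - l * ‖iv w‖ → 0 < ip d (iv w)) →
    ∃ (l' : ℝ) (x : E n), 0 ≤ l' ∧ l' < l ∧ Feas μ l' x

/-- CIR: the circuit.  Proof.  For each `ν ∈ S` which is not tight on the whole polytope choose a
feasible point where it is not tight; the average `y` of these points (and one more) is feasible and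
its tight normals are those which are tight at all feasible points.  `GOR` for this set; the first
alternative contradicts the minimality of `l` by `DEC`. -/
def S_CIR : Prop := ∀ {n : ℕ} (P : Finset (Fin n → ℤ)) (μ : (Fin n → ℤ) → ℤ), P.Nonempty →
  IsMinOf P μ → ∀ (l : ℝ) (S : Finset (Fin n → ℤ)), 0 < l → IsTight μ l S →
    (∃ x : E n, Feas μ l x) → (∀ (l' : ℝ) (x : E n), 0 ≤ l' → Feas μ l' x → l ≤ l') →
    ∃ (g : ℕ) (ν : Fin (g + 1) → Fin n → ℤ) (c : Fin (g + 1) → ℤ), 0 < g ∧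
      (∀ j, ν j ∈ S ∧ ∀ x : E n, Feas μ l x → ip x (iv (ν j)) = μ (ν j) + 1 - l * ‖iv (ν j)‖) ∧
      (∀ j, 0 < c j) ∧ ∑ j, c j • ν j = 0 ∧
      ∀ d : Fin (g + 1) → ℤ, ∑ j, d j • ν j = 0 → ∀ i j, d i * c j = d j * c i

/-- REA: the real fan.  Proof.  `l` from `MIN`, `S` from `FNT`, `ε` from `EPS` (with `h ν = ‖iv ν‖`),
`m` is feasible by `LOC`.  Facets: `y` feasible with `ν` tight at `y`,
`x₀ = y - (ε / ‖iv ν‖) • iv ν`; for `ν' ≠ ν` in `S` (both primitive, so not proportional with a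
positive factor) `ip (iv ν) (iv ν') < ‖iv ν‖ ‖iv ν'‖`. -/
def S_REA : Prop := ∀ {n : ℕ} (P : Finset (Fin n → ℤ)) (μ : (Fin n → ℤ) → ℤ), P.Nonempty →
  IsMinOf P μ → ∃ (l ε : ℝ) (S : Finset (Fin n → ℤ)) (b₀ b : (Fin n → ℤ) → ℝ),
    0 ≤ l ∧ 0 < ε ∧ IsTight μ l S ∧ (∃ x : E n, Feas μ l x) ∧
    (∀ (l' : ℝ) (x : E n), 0 ≤ l' → Feas μ l' x → l ≤ l') ∧
    (∀ ν, b₀ ν = μ ν + 1 - l * ‖iv ν‖) ∧ (∀ ν, b ν = b₀ ν - ε * ‖iv ν‖) ∧
    Bornology.IsBounded (Poly S b) ∧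
    (∀ x : E n, IsVert S b x → ∃ m : E n, Feas μ l m ∧ ∀ ν ∈ tight S b x, ip m (iv ν) = b₀ ν) ∧
    (∀ ν ∈ S, ∃ x₀ : E n, ip x₀ (iv ν) = b ν ∧ ∀ ν' ∈ S, ν' ≠ ν → b ν' < ip x₀ (iv ν'))

/-- Fan: the main theorem of the convex geometry.  Proof.  `REA`; `V` = the vertices of `Poly S b`
(finite, nonempty by `VRT`), `T v = tight S b v`.  `κ_v = m_v + (l / ε) • (m_v - v)` satisfies
`ip κ_v (iv ν) = μ ν + 1` on `T v`.  `A`, `B`, `k`, `r` from `SGN`: `A` and `B` have the same signs of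
`⟨A v' - A v, ν⟩`, `⟨B v' - B v, ν⟩`, `ν ∈ S`, as `v`, `m_v`; `k`, `r` solve
`⟨k v, ν⟩ = r (μ ν + 1)`, `ν ∈ T v`, `r > 0` (the real solution is `κ_v`, `1`), so `k v = r κ_v` since
`T v` spans.  `cone`: by `VRT`, `FRK` `w = ∑ c_ν ν` over `T v₁` for some `v₁`; then `⟨A v - A v₁, ν⟩ = 0`
for all `ν` with `c_ν > 0`, so `ν ∈ T v`.  `facet`: `FAC`.  `disc`: `w = ∑ c_ν ν`,
`⟨κ_v, w⟩ = ⟨m_v, w⟩ + l ∑ c_ν |ν| ≥ ⟨m_v, w⟩ + l |w| ≥ μ w + 1`; in the case of equality `w` is tight at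
`m_v`, `w ∈ S`, and `b₀ w - ε |w| ≤ ⟨v, w⟩ = ⟨m_v, w⟩ - ε ∑ c_ν |ν| ≤ b₀ w - ε |w|`, so `w ∈ T v`.
`l = 0`: `κ_v = m_v`, `NefK`.  `l > 0`: `Pos` and `Circuit` (`CIR`). -/
def S_Fan : Prop := ∀ {n : ℕ} (P : Finset (Fin n → ℤ)) (μ : (Fin n → ℤ) → ℤ), P.Nonempty →
  IsMinOf P μ → ∃ D : Fan n μ, (D.NefK ∨ (D.Pos ∧ D.Circuit)) ∧
    ((∃ x : E n, Feas μ 0 x) → D.NefK)

end

end MMCI.F
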