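import Pool.Agent.MMCI.StmtsF

/-!
# Fans: further statements

Used for the assembly of `S_Fan` and for the comparison with the structures of `St.lean`.
-/

set_option autoImplicit false

namespace MMCI.F

noncomputable section

/-- FCT: two different facets.  Proof.  For large `K` a vertex `v` which minimises
`ip · (K • iv ν - iv ν')` (`VRT`): there are finitely many vertices, those which are not on the facet
of `ν` have `ip v (iv ν) ≥ b ν + γ`, `γ > 0`, and the value at `x₀` is `K b ν - ip x₀ (iv ν')`; so `v` is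
on the facet and `ip v (iv ν') ≥ ip x₀ (iv ν') > b ν'`. -/
def S_FCT : Prop := ∀ {n : ℕ} (S : Finset (Fin n → ℤ)) (b : (Fin n → ℤ) → ℝ) (ν : Fin n → ℤ)
  (x₀ : E n), Bornology.IsBounded (Poly S b) → ν ∈ S → ip x₀ (iv ν) = b ν →
  (∀ ν' ∈ S, ν' ≠ ν → b ν' < ip x₀ (iv ν')) → ∀ ν' ∈ S, ν' ≠ ν →
  ∃ v : E n, IsVert S b v ∧ ν ∈ tight S b v ∧ ν' ∉ tight S b v

/-- NTV: a vertex outside the facet.  Proof.  `z = x₀ + τ • iv ν ∈ Poly` for small `τ > 0`,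
`ip z (iv ν) > b ν` (`ν ≠ 0`); a vertex which minimises `ip · (- iv ν)` (`VRT`). -/
def S_NTV : Prop := ∀ {n : ℕ} (S : Finset (Fin n → ℤ)) (b : (Fin n → ℤ) → ℝ) (ν : Fin n → ℤ)
  (x₀ : E n), Bornology.IsBounded (Poly S b) → ν ≠ 0 → ν ∈ S → ip x₀ (iv ν) = b ν →
  (∀ ν' ∈ S, ν' ≠ ν → b ν' < ip x₀ (iv ν')) → ∃ v : E n, IsVert S b v ∧ ν ∉ tight S b v

/-- ORT: an integral linear form which separates `a` from the rational span of `G`. -/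
def S_ORT : Prop := ∀ {n : ℕ} (G : AddSubgroup (Fin n → ℤ)) (a : Fin n → ℤ),
  (∀ N : ℕ, 0 < N → N • a ∉ G) → ∃ u : Fin n → ℤ, (∀ g ∈ G, pr g u = 0) ∧ pr a u ≠ 0

/-- ABK: the integral data.  Proof.  `SGN` for the index set `V × Fin n ⊕ V × Fin n ⊕ V × Fin n ⊕ Unit`,
the real point `(v, m, κ, 1)` and the forms: the values on `ν ∈ S` of the differences of the first
(of the second) vectors; `⟨third vector of i, ν⟩ - (μ ν + 1) * last`, `ν ∈ T i`; `last`.  Then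
`iv (k i) - r • κ i` is orthogonal to `T i`, so it is zero. -/
def S_ABK : Prop := ∀ {n : ℕ} {V : Type} [Fintype V] (S : Finset (Fin n → ℤ))
  (T : V → Finset (Fin n → ℤ)) (μ : (Fin n → ℤ) → ℤ) (v m κ : V → E n),
  (∀ i, ∀ ν ∈ T i, ip (κ i) (iv ν) = μ ν + 1) →
  (∀ i, ∀ y : E n, (∀ ν ∈ T i, ip y (iv ν) = 0) → y = 0) →
  ∃ (A B k : V → Fin n → ℤ) (r : ℕ), 0 < r ∧
    (∀ i j, ∀ ν ∈ S, (ip (v i) (iv ν) < ip (v j) (iv ν) → pr (A i) ν < pr (A j) ν) ∧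
      (ip (v i) (iv ν) = ip (v j) (iv ν) → pr (A i) ν = pr (A j) ν)) ∧
    (∀ i j, ∀ ν ∈ S, (ip (m i) (iv ν) < ip (m j) (iv ν) → pr (B i) ν < pr (B j) ν) ∧
      (ip (m i) (iv ν) = ip (m j) (iv ν) → pr (B i) ν = pr (B j) ν)) ∧
    ∀ i, iv (k i) = (r : ℝ) • κ i

/-- DSC: discrepancies.  Proof.  Write `T = tight S b v`.
`∑ c_ν (μ ν + 1) = ∑ c_ν (b₀ ν + l |ν|) = ip m (iv w) + l ∑ c_ν |ν| ≥ ip m (iv w) + l |w| ≥ μ w + 1`.
In the case of equality `ip m (iv w) = μ w + 1 - l |w| = b₀ w`, so `w ∈ S` (`IsTight`), and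
`b w ≤ ip v (iv w) = ∑ c_ν b ν = ip m (iv w) - ε ∑ c_ν |ν| ≤ b₀ w - ε |w| = b w`. -/
def S_DSC : Prop := ∀ {n : ℕ} (μ : (Fin n → ℤ) → ℤ) (l ε : ℝ) (S : Finset (Fin n → ℤ))
  (b₀ b : (Fin n → ℤ) → ℝ), 0 ≤ l → 0 < ε → IsTight μ l S →
  (∀ ν, b₀ ν = μ ν + 1 - l * ‖iv ν‖) → (∀ ν, b ν = b₀ ν - ε * ‖iv ν‖) →
  ∀ v m : E n, v ∈ Poly S b → Feas μ l m → (∀ ν ∈ tight S b v, ip m (iv ν) = b₀ ν) →
  ∀ w, Prim w → ∀ c : (Fin n → ℤ) → ℝ, (∀ ν, 0 ≤ c ν) →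
    iv w = ∑ ν ∈ tight S b v, c ν • iv ν →
    (μ w : ℝ) + 1 ≤ ∑ ν ∈ tight S b v, c ν * ((μ ν : ℝ) + 1) ∧
    (∑ ν ∈ tight S b v, c ν * ((μ ν : ℝ) + 1) = (μ w : ℝ) + 1 → w ∈ tight S b v)

/-- CRT: Caratheodory's theorem with integral coefficients.  Proof.  Among the nonnegative real
combinations choose one with minimal support; the vectors of the support are independent over `ℝ`
(subtract a multiple of a relation).  So `w` depends linearly (over `ℚ`) on the integral vectors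
`ν_j`, which are independent, and the coefficients are unique, hence positive rational numbers. -/
def S_CRT : Prop := ∀ {n : ℕ} (T : Finset (Fin n → ℤ)) (w : Fin n → ℤ), InCone T w →
  ∃ (s : ℕ) (ν : Fin s → Fin n → ℤ) (c : Fin s → ℕ) (c0 : ℕ), 0 < c0 ∧ (∀ j, 0 < c j) ∧
    (∀ j, ν j ∈ T) ∧ LinearIndependent ℤ ν ∧ (c0 : ℤ) • w = ∑ j, (c j : ℤ) • ν j

/-- SBI: independent vectors in a spanning set (linear algebra over `ℚ`). -/
def S_SBI : Prop := ∀ {n : ℕ} (D : Set (Fin n → ℤ)),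
  ((∀ w, (∀ d ∈ D, pr d w = 0) → w = 0) →
    ∃ b : Fin n → Fin n → ℤ, (∀ l, b l ∈ D) ∧ LinearIndependent ℤ b) ∧
  ∀ ν : Fin n → ℤ, ν ≠ 0 →
    (∀ a, pr a ν = 0 → ∃ N : ℕ, 0 < N ∧ N • a ∈ AddSubgroup.closure D) →
    ∃ b : Fin (n - 1) → Fin n → ℤ, (∀ l, b l ∈ D) ∧ LinearIndependent ℤ b

/-- NRY: the defect of additivity.  Proof.  `∑ ν_j ≠ 0` is `d • w` with `w` primitive, `d ≥ 1`;
`w ∈ InCone (T v)`.  By `canon` and `disc`
`r (∑ μ ν_j + s) = pr (k v) (∑ ν_j) = d * pr (k v) w ≥ d r (μ w + 1) = r (μ (∑ ν_j) + d)`.  If `d ≥ 2`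
this is the assertion; if `d = 1` we need strict inequality, that is `w ∉ T v`.  Suppose that
`w = ∑ ν_j ∈ T v`.  For `v'` with `pr (A v') w = pr (A v) w` all `pr (A v' - A v) ν_j ≥ 0` (`ample`) have the
sum zero, so they vanish; by `facet` every `a` with `pr a w = 0` has `pr a ν_j = 0`; so all `ν_j` are
proportional to `w` (take `a = w_i e_k - w_k e_i`), contradiction to the independence, `2 ≤ s`. -/
def S_NRY : Prop := ∀ {n : ℕ} {μ : (Fin n → ℤ) → ℤ} (D : Fan n μ),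
  (∀ (d : ℕ) (w : Fin n → ℤ), μ (d • w) = d * μ w) → ∀ (v : D.V) {s : ℕ}
  (ν : Fin s → Fin n → ℤ), (∀ j, ν j ∈ D.T v) → LinearIndependent ℤ ν → 2 ≤ s →
  μ (∑ j, ν j) - ∑ j, μ (ν j) + 2 ≤ s

/-- PRM: the two definitions of primitive vectors agree (Bezout). -/
def S_PRM : Prop := ∀ {n : ℕ} (w : Fin n → ℤ), (∃ m : Fin n → ℤ, ∑ i, w i * m i = 1) ↔ Prim w

end

end MMCI.F
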