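import Pool.Agent.MMCI.St
import Pool.Agent.MMCI.StmtsF2

/-!
# Fans: the comparison with `St.lean`
-/

set_option autoImplicit false

namespace MMCI.F

/-- MNK: `psi f` is the order function of the sum of the supports.  Proof.  `P` is the set of the sums
`∑ i, p i`, `p i` in the support of `f i`. -/
def S_MNK : Prop := ∀ {n r : ℕ} (f : Fin r → Laurent n), (∀ i, f i ≠ 0) →
  ∃ P : Finset (Fin n → ℤ), P.Nonempty ∧ IsMinOf P (psi f)

end MMCI.F
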